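import Pool.Agent.SAWG.Defs
import Pool.Agent.SAWL.REC

/-!
# SAWG module CNA: counting self-avoiding walks and loops with lists

The paths of `G` of length `n` from `v` correspond to the lists `l` with `Sw G v l`, `l.length = n`; a cycle `v, u_1, ..., u_n, v` of length
`n + 1` gives the list `[u_1, ..., u_n]` (adapted from `Pool.Agent.SWH.Cna`).
-/

set_option autoImplicit false

open scoped ENNReal NNReal Classical
open Filter Topology

namespace Pool.Agent.SAWG

open Pool.Agent.SWH (Ker idK adK tp endp Sw SwE endp_nil endp_cons endp_append endp_mem)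

variable {V : Type} {G : SimpleGraph V}

private theorem cna_build (l : List V) : ∀ v : V, (v :: l).IsChain G.Adj →
    ∃ (w : V) (p : G.Walk v w), p.support = v :: l := by
  induction l with
  | nil => intro v _; exact ⟨v, SimpleGraph.Walk.nil, rfl⟩
  | cons a l ih =>
    intro v hv
    rw [List.isChain_cons_cons] at hv
    obtain ⟨w, p, hp⟩ := ih a hv.2
    exact ⟨w, SimpleGraph.Walk.cons hv.1 p, by rw [SimpleGraph.Walk.support_cons, hp]⟩

private theorem cna_ext {v : V} (p q : Σ w : V, G.Walk v w) (h : p.2.support = q.2.support) : p = q := by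
  obtain ⟨w, p⟩ := p
  obtain ⟨w', q⟩ := q
  simp only at h
  have h1 : w = w' := by
    have e1 := p.getLast_support
    have e2 := q.getLast_support
    rw [← e1, ← e2]
    congr 1
  subst h1
  rw [SimpleGraph.Walk.ext_support h]

private theorem cna_set (n : ℕ) (v : V) :
    {l : List V | SwE G n v l} = (fun p : Σ w : V, G.Walk v w => p.2.support.tail) ''
      {p : Σ w : V, G.Walk v w | p.2.IsPath ∧ p.2.length = n} := by
  ext l
  simp only [Set.mem_setOf_eq, Set.mem_image]
  constructor
  · rintro ⟨⟨h1, h2⟩, h3⟩
    obtain ⟨w, p, hp⟩ := cna_build l v h1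
    refine ⟨⟨w, p⟩, ⟨?_, ?_⟩, ?_⟩
    · rw [SimpleGraph.Walk.isPath_def, hp]
      exact h2
    · have h4 := p.length_support
      rw [hp, List.length_cons] at h4
      simp only
      omega
    · simp only [hp, List.tail_cons]
  · rintro ⟨⟨w, p⟩, ⟨h1, h2⟩, rfl⟩
    simp only at h1 h2 ⊢
    have h3 : v :: p.support.tail = p.support := by
      rw [SimpleGraph.Walk.cons_tail_support]
    refine ⟨⟨?_, ?_⟩, ?_⟩
    · rw [h3]
      exact p.isChain_adj_support
    · rw [h3]
      exact h1.support_nodup
    · rw [List.length_tail, SimpleGraph.Walk.length_support]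
      omega

private theorem cna_inj (n : ℕ) (v : V) : Set.InjOn (fun p : Σ w : V, G.Walk v w => p.2.support.tail)
      {p : Σ w : V, G.Walk v w | p.2.IsPath ∧ p.2.length = n} := by
  intro p _ q _ h
  apply cna_ext
  simp only at h
  rw [← SimpleGraph.Walk.cons_tail_support p.2, ← SimpleGraph.Walk.cons_tail_support q.2, h]

private theorem cna_fin (hfin : ∀ v, (G.neighborSet v).Finite) (n : ℕ) (v : V) :
    ({l : List V | SwE G n v l}).Finite := by
  rw [cna_set]
  have : G.LocallyFinite := fun v => (hfin v).fintype
  exact (SAWL.saw_finite G n v).image _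

private theorem cna_tsum {α : Type} (P : α → Prop) [DecidablePred P] (h : {a | P a}.Finite) :
    (∑' a : α, if P a then (1 : ℝ≥0∞) else 0) = (({a | P a}).ncard : ℝ≥0∞) := by
  rw [tsum_eq_sum (s := h.toFinset)]
  · rw [Finset.sum_congr rfl (g := fun _ => (1 : ℝ≥0∞))]
    · rw [Finset.sum_const, nsmul_eq_mul, mul_one, Set.ncard_eq_toFinset_card _ h]
    · intro a ha
      rw [Set.Finite.mem_toFinset] at ha
      exact if_pos ha
  · intro a ha
    rw [if_neg]
    intro h1
    exact ha (by rw [Set.Finite.mem_toFinset]; exact h1)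

private theorem cna_ncard (n : ℕ) (v : V) : ({l : List V | SwE G n v l}).ncard = SAWL.saw G n v := by
  rw [cna_set, Set.ncard_image_of_injOn (cna_inj n v)]
  rfl

private theorem cna_row1 (hfin : ∀ v, (G.neighborSet v).Finite) (n : ℕ) (v : V) :
    (∑' l : List V, if SwE G n v l then (1 : ℝ≥0∞) else 0) = (SAWL.saw G n v : ℝ≥0∞) := by
  rw [cna_tsum _ (cna_fin hfin n v), cna_ncard]

theorem al_eq (hfin : ∀ v, (G.neighborSet v).Finite) (z : ℝ≥0∞) (n : ℕ) (x : V) :
    al G z n x = z ^ n * (SAWL.saw G n x : ℝ≥0∞) := by
  rw [← cna_row1 hfin n x, ← ENNReal.tsum_mul_left]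
  unfold al ms
  refine tsum_congr fun l => ?_
  unfold rs LN sa SwE
  by_cases h1 : l.length = n
  · by_cases h2 : Sw G x l
    · simp [h1, h2]
    · simp [h1, h2]
  · simp [h1]

theorem sal_le' (hfin : ∀ v, (G.neighborSet v).Finite) (n : ℕ) (v : V) :
    (SAWL.sal G (n + 1) v : ℝ≥0∞) ≤ ∑' y, adK G v y * kr (rs (LN n) (sa G 1)) v y := by
  have h1 : ∑' y, adK G v y * kr (rs (LN n) (sa G 1)) v y =
      ∑' l : List V, if SwE G n v l ∧ G.Adj v (endp v l) then (1 : ℝ≥0∞) else 0 := by
    have h2 : ∀ y, adK G v y * kr (rs (LN n) (sa G 1)) v y =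
        ∑' l : List V, if (SwE G n v l ∧ endp v l = y) ∧ G.Adj v y then (1 : ℝ≥0∞) else 0 := by
      intro y
      unfold adK kr
      rw [← ENNReal.tsum_mul_left]
      refine tsum_congr fun l => ?_
      unfold rs LN sa SwE
      by_cases ha : G.Adj v y
      · rw [if_pos ha, one_mul]
        by_cases h3 : l.length = n
        · by_cases h4 : Sw G v l
          · by_cases h5 : endp v l = y
            · simp [h3, h4, h5, ha]
            · simp [h5]
          · simp [h4]
        · simp [h3]
      · rw [if_neg ha, zero_mul, if_neg (fun h => ha h.2)]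
    rw [tsum_congr h2, ENNReal.tsum_comm]
    refine tsum_congr fun l => ?_
    rw [tsum_eq_single (endp v l)]
    · simp only [and_true]
    · intro y hy
      rw [if_neg]
      rintro ⟨⟨_, h3⟩, _⟩
      exact hy h3.symm
  have hF : ({l : List V | SwE G n v l ∧ G.Adj v (endp v l)}).Finite :=
    (cna_fin hfin n v).subset fun l hl => hl.1
  rw [h1, cna_tsum (fun l : List V => SwE G n v l ∧ G.Adj v (endp v l)) hF]
  unfold SAWL.sal
  refine Nat.cast_le.2 ?_
  have key : ∀ c : G.Walk v v, c.IsCycle → c.length = n + 1 →
      c.support = (v :: c.support.tail.dropLast) ++ [v] := by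
    intro c hc hl
    have h3 : c.support.tail ≠ [] := by
      intro h4
      have h5 := c.length_support
      have h6 : c.support.tail.length = 0 := by rw [h4]; rfl
      rw [List.length_tail] at h6
      omega
    have h7 : c.support.tail.getLast h3 = v := by
      rw [List.getLast_tail]
      exact c.getLast_support
    rw [List.cons_append]
    have h8 : c.support.tail.dropLast ++ [v] = c.support.tail := by
      conv_rhs => rw [← List.dropLast_append_getLast h3, h7]
    rw [h8, SimpleGraph.Walk.cons_tail_support]
  refine Set.ncard_le_ncard_of_injOn (fun c : G.Walk v v => c.support.tail.dropLast) ?_ ?_ hF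
  · rintro c ⟨hc, hl⟩
    have hk := key c hc hl
    have hch := c.isChain_adj_support
    have hnd : (c.support.tail.dropLast ++ [v]).Nodup := by
      have h9 := hc.support_nodup
      have h10 : c.support.tail = c.support.tail.dropLast ++ [v] := by
        conv_lhs => rw [hk]
        rfl
      rw [← h10]
      exact h9
    rw [hk, List.isChain_append] at hch
    refine ⟨⟨⟨hch.1, ?_⟩, ?_⟩, ?_⟩
    · rw [List.nodup_cons]
      rw [List.nodup_append] at hnd
      refine ⟨?_, hnd.1⟩
      intro hv
      exact hnd.2.2 v hv v (by simp) rfl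
    · rw [List.length_dropLast, List.length_tail, SimpleGraph.Walk.length_support]
      omega
    · have h11 := hch.2.2 (endp v c.support.tail.dropLast) ?_ v (by simp)
      · exact h11.symm
      · unfold endp
        rw [List.getLast?_cons]
        simp
  · intro c hc d hd h
    have h3 := key c hc.1 hc.2
    have h4 := key d hd.1 hd.2
    simp only at h
    apply SimpleGraph.Walk.ext_support
    rw [h3, h4, h]

end Pool.Agent.SAWG
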