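import Pool.Agent.SAWG.Defs

/-!
# SAWG module PWA: convolution of path weights

PROOFS.  `tsum_split`: the map `(l1, l2) ↦ (l1 ++ l2, l1.length)` is a bijection from pairs of lists to the pairs `(l, i)` with `i ≤ l.length`; inverse
`(l.take i, l.drop i)`.  (Write the left side as a sum over `Σ l, Fin (l.length + 1)` with `tsum_fintype`, `ENNReal.tsum_sigma'`, and use an `Equiv`.)
`tsum_cv`: `cv a b x l * F l = ∑_i a x (take i) * b (endp x (take i)) (drop i) * F (take i ++ drop i)` (`List.take_append_drop`), `tsum_split`,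
`ENNReal.tsum_mul_left`.  `kr_cv`: `tsum_cv` with the indicator function of `endp x l = y`, `endp_append`, and `tsum_kr`.
`tsum_kr`: exchange the sums.  `ms_cv`: `tsum_cv` with `F = 1`.
-/

set_option autoImplicit false

open scoped ENNReal NNReal Classical
open Filter Topology

namespace Pool.Agent.SAWG

open Pool.Agent.SWH (Ker idK adK tp endp Sw endp_nil endp_cons endp_append endp_mem)

variable {V : Type}

theorem tsum_split (f : List V → List V → ℝ≥0∞) :
    ∑' l : List V, ∑ i ∈ Finset.range (l.length + 1), f (l.take i) (l.drop i) = ∑' l1, ∑' l2, f l1 l2 := by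
  have h1 : ∀ l : List V, ∑ i ∈ Finset.range (l.length + 1), f (l.take i) (l.drop i) =
      ∑' i : ℕ, if i ≤ l.length then f (l.take i) (l.drop i) else 0 := by
    intro l
    rw [tsum_eq_sum (s := Finset.range (l.length + 1))]
    · refine Finset.sum_congr rfl fun i hi => ?_
      rw [if_pos (by rw [Finset.mem_range] at hi; omega)]
    · intro i hi
      rw [if_neg (by rw [Finset.mem_range] at hi; omega)]
  have h2 : Function.Injective (fun q : List V × List V => (q.1 ++ q.2, q.1.length)) := by
    rintro ⟨a, b⟩ ⟨c, d⟩ h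
    obtain ⟨e1, e2⟩ := Prod.mk.inj h
    obtain ⟨e3, e4⟩ := List.append_inj e1 e2
    dsimp only at e3 e4
    rw [e3, e4]
  have h3 := h2.tsum_eq (f := fun p : List V × ℕ => if p.2 ≤ p.1.length then f (p.1.take p.2) (p.1.drop p.2) else 0) (by
    rintro ⟨l, i⟩ hp
    have hi : i ≤ l.length := by
      by_contra hc
      exact hp (if_neg hc)
    refine ⟨(l.take i, l.drop i), ?_⟩
    dsimp only
    rw [List.take_append_drop, List.length_take, min_eq_left hi])
  rw [ENNReal.tsum_prod', ENNReal.tsum_prod'] at h3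
  rw [tsum_congr h1, ← h3]
  refine tsum_congr fun l1 => tsum_congr fun l2 => ?_
  dsimp only
  rw [if_pos (by rw [List.length_append]; omega), List.take_left, List.drop_left]

theorem tsum_cv (a b : PW V) (x : V) (F : List V → ℝ≥0∞) :
    ∑' l, cv a b x l * F l = ∑' l1, a x l1 * ∑' l2, b (endp x l1) l2 * F (l1 ++ l2) := by
  have h1 : ∀ l : List V, cv a b x l * F l = ∑ i ∈ Finset.range (l.length + 1),
      (fun l1 l2 => a x l1 * b (endp x l1) l2 * F (l1 ++ l2)) (l.take i) (l.drop i) := by
    intro l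
    unfold cv
    rw [Finset.sum_mul]
    refine Finset.sum_congr rfl fun i _ => ?_
    dsimp only
    rw [List.take_append_drop]
  rw [tsum_congr h1, tsum_split (fun l1 l2 => a x l1 * b (endp x l1) l2 * F (l1 ++ l2))]
  refine tsum_congr fun l1 => ?_
  rw [← ENNReal.tsum_mul_left]
  refine tsum_congr fun l2 => ?_
  rw [mul_assoc]

/-- Sum over the end points. -/
theorem tsum_kr (a : PW V) (x : V) (f : V → ℝ≥0∞) : ∑' y, kr a x y * f y = ∑' l, a x l * f (endp x l) := by
  have h1 : ∀ y, kr a x y * f y = ∑' l, (if endp x l = y then a x l else 0) * f y := by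
    intro y
    unfold kr
    rw [ENNReal.tsum_mul_right]
  rw [tsum_congr h1, ENNReal.tsum_comm]
  refine tsum_congr fun l => ?_
  rw [tsum_eq_single (endp x l)]
  · rw [if_pos rfl]
  · intro y hy
    rw [if_neg (Ne.symm hy), zero_mul]

theorem row_kr (a : PW V) (x : V) : ∑' y, kr a x y = ms a x := by
  have h := tsum_kr a x (fun _ => 1)
  simp only [mul_one] at h
  exact h

theorem kr_cv (a b : PW V) : kr (cv a b) = kc (kr a) (kr b) := by
  funext x y
  have h1 : kr (cv a b) x y = ∑' l, cv a b x l * (if endp x l = y then 1 else 0) := by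
    unfold kr
    refine tsum_congr fun l => ?_
    rw [mul_ite, mul_one, mul_zero]
  rw [h1, tsum_cv]
  unfold kc
  rw [tsum_kr a x (fun z => kr b z y)]
  refine tsum_congr fun l1 => ?_
  congr 1
  unfold kr
  refine tsum_congr fun l2 => ?_
  rw [endp_append, mul_ite, mul_one, mul_zero]

theorem ms_cv {a b : PW V} {x : V} {c : ℝ≥0∞} (hb : ∀ y, ms b y = c) : ms (cv a b) x = ms a x * c := by
  have h1 := tsum_cv a b x (fun _ => 1)
  simp only [mul_one] at h1
  unfold ms at hb ⊢
  rw [h1, ← ENNReal.tsum_mul_right]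
  refine tsum_congr fun l1 => ?_
  rw [hb]

theorem ms_cv_le {a b : PW V} {x : V} {c : ℝ≥0∞} (hb : ∀ y, ms b y ≤ c) : ms (cv a b) x ≤ ms a x * c := by
  have h1 := tsum_cv a b x (fun _ => 1)
  simp only [mul_one] at h1
  unfold ms at hb ⊢
  rw [h1, ← ENNReal.tsum_mul_right]
  exact ENNReal.tsum_le_tsum fun l1 => mul_le_mul_right (hb _) _

theorem kr_mono {a b : PW V} (x y : V) (h : ∀ l, a x l ≤ b x l) : kr a x y ≤ kr b x y := by
  refine ENNReal.tsum_le_tsum fun l => ?_
  split_ifs
  · exact h l
  · exact le_rfl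

theorem ms_mono {a b : PW V} (x : V) (h : ∀ l, a x l ≤ b x l) : ms a x ≤ ms b x := by
  exact ENNReal.tsum_le_tsum h

theorem cv_mono {a a' b b' : PW V} (ha : ∀ x l, a x l ≤ a' x l) (hb : ∀ x l, b x l ≤ b' x l) (x : V) (l : List V) :
    cv a b x l ≤ cv a' b' x l := by
  exact Finset.sum_le_sum fun i _ => mul_le_mul' (ha _ _) (hb _ _)

end Pool.Agent.SAWG
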