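import Pool.Agent.SAWG.KBA
import Pool.Agent.SAWG.PWA
import Pool.Agent.SAWG.CNA

/-!
# SAWG module FNA: from the norm to the loops

PROOF.  Let `z = ofReal (exp (-lam))`, `μ = exp lam`, `Cn := kr (rs (LN n) (sa G 1))` (number of self-avoiding walks of length `n` from `x` to `y`), `kr (rs (LN n) (sa G z)) x y = z^n * Cn x y`.  `Cn (m+n) ≤ kc (Cn m) (Cn n)` (split the walk), so for
`j = k n0 + r`, `r < n0`: `z^j Cn_j x y ≤ c^k * M` where `M` bounds the norms of the kernels for `r < n0`: `KB (kr (rs (LN r) (sa G 1))) (d^r)` by the Schur test (`KB_schur` with `g = 1`; row and column sums are at most `d^r`; reversal), entries: `KB_entry`.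
(`n0 ≥ 1` because for `n = 0` the kernel is `idK` and `KB idK c` implies `c ≥ 1`.)  `sal_le'` (CNA): `sal (n+1) v ≤ ∑' y, adK G v y * Cn_n v y`; so `sal (n+1) v ≤ d * max_y Cn_n v y ≤ d M μ^n c^(⌊n/n0⌋) ≤ D a'^n`
with `a' = μ c^(1/n0) < μ` (`c` replaced by `max c (1/2)` if `c = 0`).  Choose `a' < a < b = μ`...: `a = (a' + μ)/2`, eventually `D a'^(n-1) ≤ a^n`; `b = μ`, `b^n ≤ saw n v`.
-/

set_option autoImplicit false

open scoped ENNReal NNReal Classical
open Filter Topology

namespace Pool.Agent.SAWG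

open Pool.Agent.SWH (Ker idK adK tp endp Sw endp_nil endp_cons endp_append endp_mem)

variable {V : Type}

/-- The kernel of the walks of length `n`. -/
private noncomputable def FNA_S (G : SimpleGraph V) (z : ℝ≥0∞) (n : ℕ) : Ker V := kr (rs (LN n) (sa G z))

private theorem FNA_pos {n : ℕ} {l : List V} (h : l.length = n) (a : PW V) (x : V) : rs (LN n) a x l = a x l :=
  if_pos h

private theorem FNA_neg {n : ℕ} {l : List V} (h : l.length ≠ n) (a : PW V) (x : V) : rs (LN n) a x l = 0 :=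
  if_neg h

private theorem FNA_sub (G : SimpleGraph V) (z : ℝ≥0∞) (m n : ℕ) (x y : V) :
    FNA_S G z (m + n) x y ≤ kc (FNA_S G z m) (FNA_S G z n) x y := by
  unfold FNA_S
  rw [← kr_cv]
  refine kr_mono x y fun l => ?_
  by_cases hl : l.length = m + n
  · rw [FNA_pos hl]
    unfold cv
    have hmem : m ∈ Finset.range (l.length + 1) := by
      rw [Finset.mem_range]; omega
    refine le_trans ?_ (Finset.single_le_sum (f := fun i =>
      rs (LN m) (sa G z) x (l.take i) * rs (LN n) (sa G z) (endp x (l.take i)) (l.drop i))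
      (fun i _ => zero_le) hmem)
    have h1 : (l.take m).length = m := by rw [List.length_take]; omega
    have h2 : (l.drop m).length = n := by rw [List.length_drop]; omega
    rw [FNA_pos h1, FNA_pos h2]
    unfold sa
    by_cases hs : Sw G x l
    · rw [if_pos hs]
      have hl' : l = l.take m ++ l.drop m := (List.take_append_drop m l).symm
      obtain ⟨hc, hn⟩ := hs
      have h3 : Sw G x (l.take m) := by
        rw [hl', ← List.cons_append] at hc hn
        exact ⟨(List.isChain_append.1 hc).1, (List.nodup_append.1 hn).1⟩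
      have h4 : Sw G (endp x (l.take m)) (l.drop m) := by
        refine ⟨?_, ?_⟩
        · rw [hl', ← List.cons_append] at hc
          have h5 := List.isChain_append.1 hc
          rw [List.isChain_cons]
          refine ⟨fun y hy => h5.2.2 _ ?_ y hy, h5.2.1⟩
          unfold endp
          rw [List.getLast?_cons]
          simp
        · rw [hl', ← List.cons_append, List.nodup_append] at hn
          rw [List.nodup_cons]
          exact ⟨fun h => hn.2.2 _ (endp_mem x _) _ h rfl, hn.2.1⟩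
      rw [if_pos h3, if_pos h4, h1, h2, ← pow_add, hl]
    · rw [if_neg hs]; exact zero_le
  · rw [FNA_neg hl]; exact zero_le

private theorem FNA_zero (G : SimpleGraph V) (z : ℝ≥0∞) : FNA_S G z 0 = idK := by
  funext x y
  unfold FNA_S kr rs LN sa idK
  rw [tsum_eq_single ([] : List V)]
  · have h1 : Sw G x [] := ⟨by simp, by simp⟩
    simp [h1, endp_nil]
  · intro l hl
    have : l.length ≠ 0 := fun h => hl (List.eq_nil_of_length_eq_zero h)
    simp [this]

private theorem FNA_one (G : SimpleGraph V) {z : ℝ≥0∞} (hz : z ≤ 1) (x y : V) : FNA_S G z 1 x y ≤ adK G x y := by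
  unfold FNA_S kr
  have h1 : ∀ l : List V, (if endp x l = y then rs (LN 1) (sa G z) x l
      else 0) ≤ if l = [y] then adK G x y else 0 := by
    intro l
    unfold sa adK
    by_cases h2 : endp x l = y
    · by_cases h3 : l.length = 1
      · rw [FNA_pos h3]
        obtain ⟨a, rfl⟩ := List.length_eq_one_iff.1 h3
        have h4 : a = y := by rw [endp_cons, endp_nil] at h2; exact h2
        subst h4
        by_cases h5 : Sw G x [a]
        · have h6 : G.Adj x a := by
            have := h5.1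
            rw [List.isChain_cons_cons] at this
            exact this.1
          simp [h5, h6, h2, hz]
        · simp [h5]
      · rw [FNA_neg h3]
        simp
    · simp [h2]
  refine le_trans (ENNReal.tsum_le_tsum h1) ?_
  rw [tsum_ite_eq]

private theorem FNA_row {G : SimpleGraph V} {d : ℕ} (hfin : ∀ v, (G.neighborSet v).Finite)
    (hd : ∀ v, (G.neighborSet v).ncard = d) (x : V) : ∑' y, adK G x y = (d : ℝ≥0∞) := by
  unfold adK
  rw [tsum_eq_sum (s := (hfin x).toFinset)]
  · rw [Finset.sum_congr rfl (g := fun _ => (1 : ℝ≥0∞))]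
    · rw [Finset.sum_const, nsmul_eq_mul, mul_one, ← hd x, Set.ncard_eq_toFinset_card _ (hfin x)]
    · intro a ha
      rw [Set.Finite.mem_toFinset] at ha
      exact if_pos ha
  · intro a ha
    rw [if_neg]
    intro h1
    exact ha (by rw [Set.Finite.mem_toFinset]; exact h1)

private theorem FNA_KB {G : SimpleGraph V} {d : ℕ} (hfin : ∀ v, (G.neighborSet v).Finite)
    (hd : ∀ v, (G.neighborSet v).ncard = d) {z : ℝ≥0∞} (hz : z ≤ 1) (r : ℕ) : KB (FNA_S G z r) ((d : ℝ≥0∞) ^ r) := by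
  have h0 : KB (adK G) (d : ℝ≥0∞) := by
    refine KB_schur (fun _ => 1) (fun _ => one_ne_zero) (fun _ => ENNReal.one_ne_top) (fun x => ?_) (fun y => ?_)
    · simp only [mul_one]
      exact (FNA_row hfin hd x).le
    · simp only [mul_one, one_mul]
      refine le_of_eq ?_
      rw [← FNA_row hfin hd y]
      refine tsum_congr fun x => ?_
      unfold adK
      simp only [G.adj_comm x y]
  induction r with
  | zero =>
    rw [FNA_zero, pow_zero]
    exact KB_id
  | succ r ih =>
    rw [pow_succ]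
    exact KB_mono (fun x y => FNA_sub G z r 1 x y) (KB_cmp ih (KB_mono (fun x y => FNA_one G hz x y) h0))

private theorem FNA_bound {G : SimpleGraph V} {d : ℕ} (hfin : ∀ v, (G.neighborSet v).Finite)
    (hd : ∀ v, (G.neighborSet v).ncard = d) {z : ℝ≥0∞} (hz : z ≤ 1) {n0 : ℕ} {c : ℝ≥0∞}
    (hk : KB (FNA_S G z n0) c) (k r : ℕ) : KB (FNA_S G z (k * n0 + r)) (c ^ k * (d : ℝ≥0∞) ^ r) := by
  induction k with
  | zero =>
    rw [pow_zero, one_mul, zero_mul, zero_add]
    exact FNA_KB hfin hd hz r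
  | succ k ih =>
    have h1 : (k + 1) * n0 + r = n0 + (k * n0 + r) := by ring
    rw [h1, pow_succ', mul_assoc]
    exact KB_mono (fun x y => FNA_sub G z n0 (k * n0 + r) x y) (KB_cmp hk ih)

private theorem FNA_scale (G : SimpleGraph V) (z : ℝ≥0∞) (n : ℕ) (x y : V) :
    FNA_S G z n x y = z ^ n * kr (rs (LN n) (sa G 1)) x y := by
  unfold FNA_S kr
  rw [← ENNReal.tsum_mul_left]
  refine tsum_congr fun l => ?_
  unfold rs LN sa
  by_cases h1 : endp x l = y
  · by_cases h2 : l.length = n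
    · by_cases h3 : Sw G x l
      · simp [h1, h2, h3]
      · simp [h3]
    · simp [h2]
  · simp [h1]

private theorem FNA_sal {G : SimpleGraph V} {d : ℕ} (hfin : ∀ v, (G.neighborSet v).Finite)
    (hd : ∀ v, (G.neighborSet v).ncard = d) {z : ℝ≥0∞} (hz : z ≤ 1) {n0 : ℕ} {c : ℝ≥0∞}
    (hk : KB (FNA_S G z n0) c) (n : ℕ) (v : V) :
    z ^ n * (SAWL.sal G (n + 1) v : ℝ≥0∞) ≤ (d : ℝ≥0∞) * (c ^ (n / n0) * ((d : ℝ≥0∞) + 1) ^ (n % n0)) := by
  have h1 := sal_le' hfin n v
  calc z ^ n * (SAWL.sal G (n + 1) v : ℝ≥0∞)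
      ≤ z ^ n * ∑' y, adK G v y * kr (rs (LN n) (sa G 1)) v y := by gcongr
    _ = ∑' y, adK G v y * FNA_S G z n v y := by
        rw [← ENNReal.tsum_mul_left]
        refine tsum_congr fun y => ?_
        rw [FNA_scale]; ring
    _ ≤ ∑' y, adK G v y * (c ^ (n / n0) * ((d : ℝ≥0∞) + 1) ^ (n % n0)) := by
        refine ENNReal.tsum_le_tsum fun y => ?_
        have h2 := FNA_bound hfin hd hz hk (n / n0) (n % n0)
        have h3 : n / n0 * n0 + n % n0 = n := by rw [mul_comm]; exact Nat.div_add_mod n n0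
        rw [h3] at h2
        have h4 := KB_entry h2 v y
        gcongr
        refine le_trans h4 ?_
        gcongr
        exact le_self_add
    _ = _ := by rw [ENNReal.tsum_mul_right, FNA_row hfin hd]

theorem fna {G : SimpleGraph V} {d : ℕ} (hfin : ∀ v, (G.neighborSet v).Finite) (hd : ∀ v, (G.neighborSet v).ncard = d)
    {lam : ℝ} (hl : 0 ≤ lam) (hs : ∀ (n : ℕ) (x : V), Real.exp lam ^ n ≤ (SAWL.saw G n x : ℝ)) {n0 : ℕ} {c : ℝ≥0∞}
    (hc : c < 1) (hk : KB (kr (rs (LN n0) (sa G (ENNReal.ofReal (Real.exp (-lam)))))) c) (v : V) :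
    ∃ a b : ℝ, 0 ≤ a ∧ a < b ∧ (∀ᶠ n : ℕ in atTop, (SAWL.sal G n v : ℝ) ≤ a ^ n) ∧
      ∀ᶠ n : ℕ in atTop, b ^ n ≤ (SAWL.saw G n v : ℝ) := by
  have hz : ENNReal.ofReal (Real.exp (-lam)) ≤ 1 := by
    rw [ENNReal.ofReal_le_one]
    exact Real.exp_le_one_iff.2 (by linarith)
  have hk' : KB (FNA_S G (ENNReal.ofReal (Real.exp (-lam))) n0) c := hk
  have hn0 : 1 ≤ n0 := by
    rcases Nat.eq_zero_or_pos n0 with h | h
    · subst h
      rw [FNA_zero] at hk'
      have h1 := KB_entry hk' v v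
      unfold idK at h1
      rw [if_pos rfl] at h1
      exact absurd h1 (not_le.2 hc)
    · exact h
  set c1 : ℝ := max c.toReal (1 / 2) with hc1
  have hct : c ≠ ⊤ := ne_top_of_lt hc
  have hc1lt : c1 < 1 := by
    rw [hc1]
    refine max_lt ?_ (by norm_num)
    rw [← ENNReal.toReal_one]
    exact (ENNReal.toReal_lt_toReal hct ENNReal.one_ne_top).2 hc
  have hc1half : 1 / 2 ≤ c1 := le_max_right _ _
  have hn0R : (1 : ℝ) ≤ (n0 : ℝ) := by exact_mod_cast hn0
  set ρ : ℝ := 1 + (c1 - 1) / n0 with hρ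
  have hdiv : (c1 - 1) ≤ (c1 - 1) / n0 := by
    rw [le_div_iff₀ (by linarith)]
    nlinarith
  have hρhalf : 1 / 2 ≤ ρ := by rw [hρ]; linarith
  have hρ0 : 0 < ρ := by linarith
  have hρ1 : ρ < 1 := by
    have : (c1 - 1) / n0 < 0 := div_neg_of_neg_of_pos (by linarith) (by linarith)
    rw [hρ]; linarith
  have hbern : c1 ≤ ρ ^ n0 := by
    have h1 := one_add_mul_le_pow (a := (c1 - 1) / n0) (by linarith) n0
    have h2 : 1 + (n0 : ℝ) * ((c1 - 1) / n0) = c1 := by
      field_simp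
      ring
    rw [h2] at h1
    exact h1
  -- the real bound
  have hreal : ∀ n : ℕ, (SAWL.sal G (n + 1) v : ℝ) ≤
      (d : ℝ) * (((d : ℝ) + 1) ^ n0 * (ρ⁻¹) ^ n0) * (Real.exp lam * ρ) ^ n := by
    intro n
    have h1 := FNA_sal hfin hd hz hk' n v
    have h2 : c ≤ ENNReal.ofReal c1 := by
      rw [← ENNReal.ofReal_toReal hct]
      exact ENNReal.ofReal_le_ofReal (le_max_left _ _)
    have h3 : (ENNReal.ofReal (Real.exp (-lam))) ^ n * (SAWL.sal G (n + 1) v : ℝ≥0∞) ≤
        (d : ℝ≥0∞) * (ENNReal.ofReal c1 ^ (n / n0) * ((d : ℝ≥0∞) + 1) ^ (n % n0)) :=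
      le_trans h1 (by gcongr)
    have h4 : (ENNReal.ofReal (Real.exp (-lam))) ^ n * (SAWL.sal G (n + 1) v : ℝ≥0∞) =
        ENNReal.ofReal (Real.exp (-lam) ^ n * (SAWL.sal G (n + 1) v : ℝ)) := by
      rw [ENNReal.ofReal_mul (by positivity), ENNReal.ofReal_pow (by positivity), ENNReal.ofReal_natCast]
    have h5 : (d : ℝ≥0∞) * (ENNReal.ofReal c1 ^ (n / n0) * ((d : ℝ≥0∞) + 1) ^ (n % n0)) =
        ENNReal.ofReal ((d : ℝ) * (c1 ^ (n / n0) * ((d : ℝ) + 1) ^ (n % n0))) := by
      have hc10 : 0 ≤ c1 := by linarith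
      rw [ENNReal.ofReal_mul (by positivity), ENNReal.ofReal_mul (by positivity), ENNReal.ofReal_pow hc10,
        ENNReal.ofReal_pow (by positivity), ENNReal.ofReal_natCast, ENNReal.ofReal_add (by positivity) (by norm_num),
        ENNReal.ofReal_natCast, ENNReal.ofReal_one]
    rw [h4, h5, ENNReal.ofReal_le_ofReal_iff (by have : 0 ≤ c1 := by linarith
                                                 positivity)] at h3
    have h6 : c1 ^ (n / n0) ≤ ρ ^ n * (ρ⁻¹) ^ n0 := by
      calc c1 ^ (n / n0) ≤ (ρ ^ n0) ^ (n / n0) := by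
            apply pow_le_pow_left₀ (by linarith) hbern
        _ = ρ ^ (n0 * (n / n0)) := by rw [pow_mul]
        _ = ρ ^ (n0 * (n / n0)) * (ρ ^ n0 * (ρ⁻¹) ^ n0) := by
            rw [← mul_pow, mul_inv_cancel₀ hρ0.ne', one_pow, mul_one]
        _ = ρ ^ (n0 * (n / n0) + n0) * (ρ⁻¹) ^ n0 := by rw [pow_add, mul_assoc]
        _ ≤ ρ ^ n * (ρ⁻¹) ^ n0 := by
            have h7 : n ≤ n0 * (n / n0) + n0 := by
              have := Nat.div_add_mod n n0
              have := Nat.mod_lt n hn0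
              omega
            have h8 := pow_le_pow_of_le_one hρ0.le hρ1.le h7
            gcongr
    have h7 : ((d : ℝ) + 1) ^ (n % n0) ≤ ((d : ℝ) + 1) ^ n0 := by
      apply pow_le_pow_right₀
      · have : (0 : ℝ) ≤ d := Nat.cast_nonneg d
        linarith
      · exact (Nat.mod_lt n hn0).le
    have h8 : Real.exp (-lam) ^ n * (SAWL.sal G (n + 1) v : ℝ) ≤
        (d : ℝ) * ((ρ ^ n * (ρ⁻¹) ^ n0) * ((d : ℝ) + 1) ^ n0) := by
      refine le_trans h3 ?_
      have : 0 ≤ ρ ^ n * (ρ⁻¹) ^ n0 := by positivity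
      gcongr
    have h9 : Real.exp lam ^ n * (Real.exp (-lam) ^ n * (SAWL.sal G (n + 1) v : ℝ)) =
        (SAWL.sal G (n + 1) v : ℝ) := by
      rw [← mul_assoc, ← mul_pow, ← Real.exp_add, add_neg_cancel, Real.exp_zero, one_pow, one_mul]
    rw [← h9]
    calc Real.exp lam ^ n * (Real.exp (-lam) ^ n * (SAWL.sal G (n + 1) v : ℝ))
        ≤ Real.exp lam ^ n * ((d : ℝ) * ((ρ ^ n * (ρ⁻¹) ^ n0) * ((d : ℝ) + 1) ^ n0)) := by gcongr
      _ = _ := by rw [mul_pow]; ring
  have hμ : 0 < Real.exp lam := Real.exp_pos lam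
  refine ⟨Real.exp lam * ((1 + ρ) / 2), Real.exp lam, by positivity, ?_, ?_, Eventually.of_forall fun n => hs n v⟩
  · have : (1 + ρ) / 2 < 1 := by linarith
    nlinarith
  · have hq0 : 0 ≤ ρ / ((1 + ρ) / 2) := by positivity
    have hq1 : ρ / ((1 + ρ) / 2) < 1 := by
      rw [div_lt_one (by linarith)]
      linarith
    have ht := tendsto_pow_atTop_nhds_zero_of_lt_one hq0 hq1
    have ht2 := ht.const_mul ((d : ℝ) * (((d : ℝ) + 1) ^ n0 * (ρ⁻¹) ^ n0))
    rw [mul_zero] at ht2
    have hpos : 0 < Real.exp lam * ((1 + ρ) / 2) := by positivity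
    have hev := ht2.eventually (ge_mem_nhds hpos)
    rw [eventually_atTop] at hev ⊢
    obtain ⟨N, hN⟩ := hev
    refine ⟨N + 1, fun n hn => ?_⟩
    obtain ⟨m, rfl⟩ : ∃ m, n = m + 1 := ⟨n - 1, by omega⟩
    have h1 := hN m (by omega)
    have h2 := hreal m
    refine le_trans h2 ?_
    have h3 : (Real.exp lam * ρ) ^ m = (ρ / ((1 + ρ) / 2)) ^ m * (Real.exp lam * ((1 + ρ) / 2)) ^ m := by
      rw [← mul_pow]
      congr 1
      field_simp
    rw [h3, ← mul_assoc, pow_succ']
    exact mul_le_mul_of_nonneg_right h1 (by positivity)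

end Pool.Agent.SAWG
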