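import Pool.Agent.SAWG.CNA
import Pool.Agent.SAWG.PWA
import Pool.Agent.SWH.Gap
import Pool.Agent.SAWL.INV
import Pool.Agent.SAWL.BALL

/-!
# SAWG module GRW: the connective constant

PROOFS.  `one_le_saw'`: `G` is infinite, connected, locally finite: for each `n` there is a vertex `w` at distance `≥ n` from `x` (balls are finite, `SAWL.ball_finite`); a shortest walk from `x` to `w` is a path
(`SimpleGraph.Walk.isPath_of_length_eq_dist`), its first `n` steps are a self-avoiding walk of length `n`; the set is finite (`SAWL.saw_finite`), so `ncard ≥ 1`.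
`grw`: `c n = saw G n o` is constant in the vertex (`SAWL.saw_iso`), `≥ 1`, submultiplicative (`saw_sub'`: `al_eq` with `z = 1`; a self-avoiding walk of length `m + n` splits: `sa 1` restricted to length `m + n` is at most `cv (sa 1 on length m) (sa 1 on length n)`; `ms_cv_le`); `SWH.gap_aux1`: `lam ≥ 0`, `exp(lam)^n ≤ c n`, `∑ c n z^n < ∞` for `0 < z < exp(-lam)`.  `zc = ofReal (exp (-lam))`: `al zc n = c n exp(-lam n) ≥ 1`;
for `ε ≠ 0` (if `ε = ⊤` take `C = 1`... then `C (1+ε)^n = ⊤` for `n ≥ 1`; for `n = 0` `al 0 = 1`) the terms `c n (exp(-lam)/(1+ε))^n` are bounded by `C`, so `al zc n ≤ C (1+ε)^n`.  `z < zc`: `ms (sa G z) x = ∑_n c n z^n < ⊤`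
(grouping by length).
-/

set_option autoImplicit false

open scoped ENNReal NNReal Classical
open Filter Topology

namespace Pool.Agent.SAWG

open Pool.Agent.SWH (Ker idK adK tp endp Sw endp_nil endp_cons endp_append endp_mem)

variable {V : Type}

private theorem grw_split {G : SimpleGraph V} (l1 : List V) : ∀ (x : V) (l2 : List V), Sw G x (l1 ++ l2) →
    Sw G x l1 ∧ Sw G (endp x l1) l2 := by
  induction l1 with
  | nil =>
    intro x l2 h
    exact ⟨⟨by simp, by simp⟩, h⟩
  | cons a l1 ih =>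
    intro x l2 h
    obtain ⟨h1, h2⟩ := h
    rw [List.cons_append, List.isChain_cons_cons] at h1
    rw [List.cons_append, List.nodup_cons] at h2
    obtain ⟨⟨h3, h4⟩, h5⟩ := ih a l2 ⟨h1.2, h2.2⟩
    refine ⟨⟨?_, ?_⟩, ?_⟩
    · rw [List.isChain_cons_cons]
      exact ⟨h1.1, h3⟩
    · rw [List.nodup_cons]
      refine ⟨fun hx => h2.1 ?_, h4⟩
      rw [← List.cons_append]
      exact List.mem_append_left _ hx
    · rw [endp_cons]
      exact h5

private theorem grw_saw {G : SimpleGraph V} (htr : ∀ v w : V, ∃ φ : G ≃g G, φ v = w) (n : ℕ) (x y : V) :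
    SAWL.saw G n x = SAWL.saw G n y := by
  obtain ⟨φ, rfl⟩ := htr x y
  rw [SAWL.saw_iso]

theorem saw_sub' {G : SimpleGraph V} (hfin : ∀ v, (G.neighborSet v).Finite)
    (htr : ∀ v w : V, ∃ φ : G ≃g G, φ v = w) (m n : ℕ) (x : V) :
    SAWL.saw G (m + n) x ≤ SAWL.saw G m x * SAWL.saw G n x := by
  have h0 : ∀ k y, al G 1 k y = (SAWL.saw G k y : ℝ≥0∞) := by
    intro k y
    rw [al_eq hfin, one_pow, one_mul]
  have h1 : al G 1 (m + n) x ≤ al G 1 m x * (SAWL.saw G n x : ℝ≥0∞) := by
    refine le_trans ?_ (ms_cv_le (a := rs (LN m) (sa G 1)) (b := rs (LN n) (sa G 1)) (x := x) ?_)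
    · refine ms_mono x fun l => ?_
      unfold rs
      by_cases hl : LN (m + n) x l
      · rw [if_pos hl]
        have hl' : l.length = m + n := hl
        unfold cv
        refine le_trans ?_ (Finset.single_le_sum (f := fun i =>
          (if LN m x (l.take i) then sa G 1 x (l.take i) else 0) *
          (if LN n (endp x (l.take i)) (l.drop i) then sa G 1 (endp x (l.take i)) (l.drop i) else 0))
          (fun i _ => zero_le) (Finset.mem_range.2 (show m < l.length + 1 by omega)))
        have h2 : LN m x (l.take m) := by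
          change (l.take m).length = m
          rw [List.length_take]; omega
        have h3 : LN n (endp x (l.take m)) (l.drop m) := by
          change (l.drop m).length = n
          rw [List.length_drop]; omega
        rw [if_pos h2, if_pos h3]
        unfold sa
        by_cases hs : Sw G x l
        · have h4 := grw_split (l.take m) x (l.drop m) (by rw [List.take_append_drop]; exact hs)
          rw [if_pos hs, if_pos h4.1, if_pos h4.2]
          simp
        · rw [if_neg hs]
          exact zero_le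
      · rw [if_neg hl]
        exact zero_le
    · intro y
      have := h0 n y
      unfold al at this
      rw [this, grw_saw htr n y x]
  rw [h0, h0] at h1
  exact_mod_cast h1

theorem one_le_saw' {G : SimpleGraph V} (hc : G.Connected) (hfin : ∀ v, (G.neighborSet v).Finite) (hinf : Infinite V)
    (n : ℕ) (x : V) : 1 ≤ SAWL.saw G n x := by
  have hlf : G.LocallyFinite := fun v => (hfin v).fintype
  have h1 : ∃ w : V, w ∉ SAWL.ball G n x := by
    by_contra hcon
    push Not at hcon
    have h2 : SAWL.ball G n x = Set.univ := Set.eq_univ_of_forall hcon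
    have h3 := SAWL.ball_finite G hc hfin n x
    rw [h2] at h3
    exact Set.infinite_univ h3
  obtain ⟨w, hw⟩ := h1
  have hw' : n < G.dist x w := by
    by_contra hcon
    exact hw (by change G.dist x w ≤ n; omega)
  obtain ⟨p, hp⟩ := (hc x w).exists_walk_length_eq_dist
  have hpath := p.isPath_of_length_eq_dist hp
  unfold SAWL.saw
  have hf := SAWL.saw_finite G n x
  rw [Nat.succ_le_iff, Set.ncard_pos hf]
  refine ⟨⟨_, p.take n⟩, ?_, ?_⟩
  · exact hpath.take n
  · rw [SimpleGraph.Walk.take_length]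
    omega

private theorem grw_len {G : SimpleGraph V} (z : ℝ≥0∞) (x : V) : ms (sa G z) x = ∑' n, al G z n x := by
  unfold al ms rs LN
  rw [ENNReal.tsum_comm]
  refine tsum_congr fun l => ?_
  exact Eq.symm ((tsum_eq_single l.length (fun n hn => if_neg (fun h => hn h.symm))).trans (if_pos rfl))

theorem grw {G : SimpleGraph V} (hc : G.Connected) (hfin : ∀ v, (G.neighborSet v).Finite)
    (htr : ∀ v w : V, ∃ φ : G ≃g G, φ v = w) (hinf : Infinite V) :
    ∃ lam : ℝ, 0 ≤ lam ∧ (∀ (n : ℕ) (x : V), Real.exp lam ^ n ≤ (SAWL.saw G n x : ℝ)) ∧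
      (∀ n x, 1 ≤ al G (ENNReal.ofReal (Real.exp (-lam))) n x) ∧
      (∀ ε : ℝ≥0∞, ε ≠ 0 → ∃ C : ℝ≥0∞, C ≠ ⊤ ∧ ∀ n x, al G (ENNReal.ofReal (Real.exp (-lam))) n x ≤ C * (1 + ε) ^ n) ∧
      ∀ z : ℝ≥0∞, z < ENNReal.ofReal (Real.exp (-lam)) → ∀ x, ms (sa G z) x ≠ ⊤ := by
  obtain ⟨o⟩ := hc.nonempty
  obtain ⟨lam, hlam, h1, h2⟩ := SWH.gap_aux1 (fun n => (SAWL.saw G n o : ℝ))
    (fun n => by exact_mod_cast one_le_saw' hc hfin hinf n o)
    (fun m n => by exact_mod_cast saw_sub' hfin htr m n o)
  have hal : ∀ (t : ℝ), 0 ≤ t → ∀ n x, al G (ENNReal.ofReal t) n x = ENNReal.ofReal ((SAWL.saw G n o : ℝ) * t ^ n) := by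
    intro t ht n x
    rw [al_eq hfin, ← ENNReal.ofReal_pow ht, ENNReal.ofReal_mul (Nat.cast_nonneg _), ENNReal.ofReal_natCast,
      grw_saw htr n x o, mul_comm]
  have hexp : Real.exp (-lam) = 1 / Real.exp lam := by rw [Real.exp_neg, one_div]
  refine ⟨lam, hlam, ?_, ?_, ?_, ?_⟩
  · intro n x
    rw [grw_saw htr n x o]
    exact h1 n
  · intro n x
    rw [hal _ (Real.exp_pos _).le, ← ENNReal.ofReal_one]
    refine ENNReal.ofReal_le_ofReal ?_
    have h3 := h1 n
    have h4 : Real.exp lam ^ n * Real.exp (-lam) ^ n = 1 := by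
      rw [← mul_pow, ← Real.exp_add]
      simp
    calc (1 : ℝ) = Real.exp lam ^ n * Real.exp (-lam) ^ n := h4.symm
      _ ≤ _ := mul_le_mul_of_nonneg_right h3 (pow_nonneg (Real.exp_pos _).le n)
  · intro ε hε
    set e : ℝ := (min ε 1).toReal with he
    have hm : min ε 1 ≠ ⊤ := ne_top_of_le_ne_top ENNReal.one_ne_top (min_le_right _ _)
    have hm0 : min ε 1 ≠ 0 := by
      intro h
      rcases min_choice ε 1 with h' | h'
      · rw [h'] at h; exact hε h
      · rw [h'] at h; exact one_ne_zero h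
    have he0 : 0 < e := ENNReal.toReal_pos hm0 hm
    have hz0 : 0 < Real.exp (-lam) / (1 + e) := by positivity
    have hz1 : Real.exp (-lam) / (1 + e) < 1 / Real.exp lam := by
      rw [← hexp]
      refine div_lt_self (Real.exp_pos _) (by linarith)
    have hs := h2 _ hz0 hz1
    refine ⟨ENNReal.ofReal (∑' n, (SAWL.saw G n o : ℝ) * (Real.exp (-lam) / (1 + e)) ^ n), ENNReal.ofReal_ne_top, ?_⟩
    intro n x
    have h3 : (SAWL.saw G n o : ℝ) * (Real.exp (-lam) / (1 + e)) ^ n ≤
        ∑' n, (SAWL.saw G n o : ℝ) * (Real.exp (-lam) / (1 + e)) ^ n :=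
      hs.le_tsum n (fun j _ => by positivity)
    have h4 : (SAWL.saw G n o : ℝ) * Real.exp (-lam) ^ n ≤
        (∑' n, (SAWL.saw G n o : ℝ) * (Real.exp (-lam) / (1 + e)) ^ n) * (1 + e) ^ n := by
      have hp : 0 < (1 + e) ^ n := by positivity
      calc _ = ((SAWL.saw G n o : ℝ) * (Real.exp (-lam) / (1 + e)) ^ n) * (1 + e) ^ n := by
            rw [div_pow, mul_assoc, div_mul_cancel₀ _ hp.ne']
        _ ≤ _ := mul_le_mul_of_nonneg_right h3 hp.le
    rw [hal _ (Real.exp_pos _).le]
    refine le_trans (ENNReal.ofReal_le_ofReal h4) ?_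
    rw [ENNReal.ofReal_mul (tsum_nonneg fun j => by positivity), ENNReal.ofReal_pow (by positivity),
      ENNReal.ofReal_add zero_le_one he0.le, ENNReal.ofReal_one, he, ENNReal.ofReal_toReal hm]
    gcongr
    exact min_le_left _ _
  · intro z hz x
    have hzt : z ≠ ⊤ := ne_top_of_lt hz
    have hz' : z.toReal < Real.exp (-lam) := by
      rw [← ENNReal.ofReal_toReal hzt] at hz
      exact (ENNReal.ofReal_lt_ofReal_iff (Real.exp_pos _)).1 hz
    obtain ⟨t, ht1, ht2⟩ := exists_between hz'
    have ht0 : 0 < t := lt_of_le_of_lt ENNReal.toReal_nonneg ht1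
    have hle : z ≤ ENNReal.ofReal t := by
      rw [← ENNReal.ofReal_toReal hzt]
      exact ENNReal.ofReal_le_ofReal ht1.le
    have h3 : ms (sa G z) x ≤ ms (sa G (ENNReal.ofReal t)) x := by
      refine ms_mono x fun l => ?_
      unfold sa
      by_cases hs : Sw G x l
      · rw [if_pos hs, if_pos hs]
        gcongr
      · rw [if_neg hs, if_neg hs]
    refine ne_top_of_le_ne_top ?_ h3
    rw [grw_len, tsum_congr (fun n => hal t ht0.le n x)]
    refine (h2 t ht0 ?_).tsum_ofReal_ne_top
    rw [← hexp]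
    exact ht2

end Pool.Agent.SAWG
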