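import Pool.Agent.SAWG.NUM

/-!
# SAWG module NUN: the nonunimodular case

`NUM.nul`.
-/

set_option autoImplicit false

open scoped ENNReal NNReal Classical
open Filter Topology

namespace Pool.Agent.SAWG

open Pool.Agent.SWH (Ker idK adK tp endp Sw endp_nil endp_cons endp_append endp_mem)

variable {V : Type}

theorem nun {G : SimpleGraph V} {h : V → ℝ} {zc : ℝ≥0∞} (H : Ng G h) (hz0 : zc ≠ 0) (hz1 : zc ≤ 1)
    (hfin : ∀ z < zc, ∀ x, ms (sa G z) x ≠ ⊤) :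
    ∃ (n : ℕ) (c : ℝ≥0∞), c < 1 ∧ KB (kr (rs (LN n) (sa G zc))) c :=
  nul H hz0 hz1 hfin

end Pool.Agent.SAWG
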