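import Mathlib
import Pool.Agent.SWH.Defs

/-!
# SAWG: self-avoiding loops are exponentially fewer than self-avoiding walks (MP_69df71_pr, all nonamenable
transitive graphs): definitions

A walk from `x` is the list `l` of its later vertices; `endp x l` is its last vertex (from `SWH.Defs`).
A path weight is a function `a x l`.  `ms` is its mass, `kr` its kernel, `cv` the convolution (concatenation of walks).
`KB K c`: the norm of the kernel `K` on `l^2(V)` is at most `c`.
`Uni`: the mass transport principle.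
-/

set_option autoImplicit false

open scoped ENNReal NNReal Classical
open Filter Topology

noncomputable section

namespace Pool.Agent.SAWG

open Pool.Agent.SWH (Ker idK adK tp endp Sw)

variable {V : Type}

/-! ### Kernels -/

/-- The product of two kernels. -/
def kc (K L : Ker V) : Ker V := fun x y => ∑' z, K x z * L z y

/-- The norm of `K` on `l^2(V)` is at most `c`. -/
def KB (K : Ker V) (c : ℝ≥0∞) : Prop :=
  ∀ v : V → ℝ≥0∞, ∑' x, (∑' y, K x y * v y) ^ 2 ≤ c ^ 2 * ∑' y, v y ^ 2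

/-- Kernels invariant under all automorphisms of `G`. -/
def InvG (G : SimpleGraph V) (K : Ker V) : Prop := ∀ (φ : G ≃g G) (x y : V), K (φ x) (φ y) = K x y

/-- The mass transport principle. -/
def Uni (G : SimpleGraph V) : Prop := ∀ K : Ker V, InvG G K → ∀ x, ∑' y, K x y = ∑' y, K y x

/-! ### Path weights -/

/-- Path weights. -/
abbrev PW (V : Type) : Type := V → List V → ℝ≥0∞

/-- The mass. -/
def ms (a : PW V) (x : V) : ℝ≥0∞ := ∑' l, a x l

/-- The kernel. -/
def kr (a : PW V) : Ker V := fun x y => ∑' l, if endp x l = y then a x l else 0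

/-- Convolution. -/
def cv (a b : PW V) : PW V := fun x l =>
  ∑ i ∈ Finset.range (l.length + 1), a x (l.take i) * b (endp x (l.take i)) (l.drop i)

/-- The unit of the convolution. -/
def on : PW V := fun _ l => if l = [] then 1 else 0

/-- Convolution powers. -/
def pwr (a : PW V) : ℕ → PW V
  | 0 => on
  | n + 1 => cv (pwr a n) a

/-- Restriction to the walks with the property `P`. -/
def rs (P : V → List V → Prop) (a : PW V) : PW V := fun x l => if P x l then a x l else 0

/-- Multiplication by a constant. -/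
def sc (c : ℝ≥0∞) (a : PW V) : PW V := fun x l => c * a x l

/-- Sum. -/
def ad (a b : PW V) : PW V := fun x l => a x l + b x l

/-- Multiplication by `θ ^ length`. -/
def tw (θ : ℝ≥0∞) (a : PW V) : PW V := fun x l => θ ^ l.length * a x l

/-- Path weights invariant under all automorphisms of `G`. -/
def InvP (G : SimpleGraph V) (a : PW V) : Prop :=
  ∀ (φ : G ≃g G) (x : V) (l : List V), a (φ x) (l.map φ) = a x l

/-- Walks of length `n`. -/
def LN (n : ℕ) : V → List V → Prop := fun _ l => l.length = n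

/-- The weight `z ^ length` of self-avoiding walks. -/
def sa (G : SimpleGraph V) (z : ℝ≥0∞) : PW V := fun x l => if Sw G x l then z ^ l.length else 0

/-- The mass of the self-avoiding walks of length `n`. -/
def al (G : SimpleGraph V) (z : ℝ≥0∞) (n : ℕ) (x : V) : ℝ≥0∞ := ms (rs (LN n) (sa G z)) x

/-- The law of the random walk with `j` steps on a graph with degree `d`. -/
def rwk (G : SimpleGraph V) (d : ℕ) (j : ℕ) : PW V := fun x l =>
  if (x :: l).IsChain G.Adj ∧ l.length = j then ((d : ℝ≥0∞)⁻¹) ^ j else 0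

/-! ### Loop erasure -/

/-- The part of a list after the first occurrence of `x`. -/
def aft (x : V) : List V → List V
  | [] => []
  | y :: l => if x = y then l else aft x l

/-- Loop erasure of the walk `x, l`. -/
def ler : V → List V → List V
  | _, [] => []
  | x, y :: l => if x ∈ y :: ler y l then aft x (y :: ler y l) else y :: ler y l

/-- The image of a path weight under loop erasure. -/
def pf (a : PW V) : PW V := fun x l => ∑' k, if ler x k = l then a x k else 0

/-! ### Visits -/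

/-- The number of occurrences of `u` in the list. -/
def occ (L : List V) (u : V) : ℝ≥0∞ := (L.map (fun v => if v = u then (1 : ℝ≥0∞) else 0)).sum

/-- The expected number of visits to `u` of the walk started at `x`. -/
def vs (ν : PW V) : Ker V := fun x u => ∑' l, ν x l * occ (x :: l) u

/-- The expected number of visits to `u` of the walks that end at `x`. -/
def vb (ν : PW V) : Ker V := fun x u => ∑' y, ∑' l, if endp y l = x then ν y l * occ (y :: l) u else 0

/-- The expected number of visits to the list `U`. -/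
def hit (T : Ker V) (x : V) (U : List V) : ℝ≥0∞ := (U.map (T x)).sum

/-! ### The graph -/

/-- A unimodular nonamenable transitive graph, with degree `d`, norm of the random walk at most `ρ`, `z` the inverse of
the connective constant. -/
structure Ug (G : SimpleGraph V) (d : ℕ) (ρ z : ℝ≥0∞) : Prop where
  tr : ∀ v w : V, ∃ φ : G ≃g G, φ v = w
  fin : ∀ x, (G.neighborSet x).Finite
  deg : ∀ x, (G.neighborSet x).ncard = d
  dpos : 1 ≤ d
  uni : Uni G
  rlt : ρ < 1
  gap : KB (kr (rwk G d 1)) ρ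
  zpos : z ≠ 0
  zle : z ≤ 1
  al1 : ∀ n x, 1 ≤ al G z n x
  alg : ∀ ε : ℝ≥0∞, ε ≠ 0 → ∃ C : ℝ≥0∞, C ≠ ⊤ ∧ ∀ n x, al G z n x ≤ C * (1 + ε) ^ n

/-- `ν` is a connector: a law on self-avoiding walks of length at most `r`, with norm at most `κ` and density at most
`K` with respect to `sa`. -/
structure Cn (G : SimpleGraph V) (z : ℝ≥0∞) (r : ℕ) (κ K : ℝ≥0∞) (ν : PW V) : Prop where
  inv : InvP G ν
  one : ∀ x, ms ν x = 1
  len : ∀ x l, ν x l ≠ 0 → l.length ≤ r
  le : ∀ x l, ν x l ≤ K * sa G z x l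
  kb : KB (kr ν) κ

/-- The data of a scale. -/
structure Dat (V : Type) where
  G : SimpleGraph V
  d : ℕ
  z : ℝ≥0∞
  η : ℝ≥0∞
  ν : PW V
  r : ℕ
  J : ℕ

/-- The thickened connector: loop erasure of (`J` random steps)(connector)(`J` random steps). -/
def th (D : Dat V) : PW V := pf (cv (cv (rwk D.G D.d D.J) D.ν) (rwk D.G D.d D.J))

/-- The maximal length of the thickened connectors. -/
def rp (D : Dat V) : ℕ := D.r + 2 * D.J

/-- `v` is good with respect to the list `U` and the visit kernel `T`: there is a walk `r` with `J` steps from `v` which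
avoids `U` after time 0, and the expected number of visits to `U` from its end is at most `η`. -/
def Gg (D : Dat V) (T : Ker V) (U : List V) (v : V) : Prop :=
  ∃ r : List V, (v :: r).IsChain D.G.Adj ∧ r.length = D.J ∧ (∀ u ∈ r, u ∉ U) ∧ hit T (endp v r) U ≤ D.η

/-- The extended piece `rm p rq` (started at `z`): `rm` and `rq` have length `J`, `p` is self-avoiding. -/
structure Gd (D : Dat V) (z : V) (rm p rq : List V) : Prop where
  cm : (z :: rm).IsChain D.G.Adj
  lm : rm.length = D.J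
  sp : Sw D.G (endp z rm) p
  cq : (endp (endp z rm) p :: rq).IsChain D.G.Adj
  lq : rq.length = D.J
  d1 : ∀ u ∈ (z :: rm).dropLast, u ∉ endp z rm :: p
  d2 : ∀ u ∈ rq, u ∉ endp z rm :: p
  d3 : ∀ u ∈ rq, u ∉ (z :: rm).dropLast
  f1 : hit (vs D.ν) (endp (endp (endp z rm) p) rq) (endp z rm :: p) ≤ D.η
  f2 : hit (vs D.ν) (endp (endp (endp z rm) p) rq) (z :: rm) ≤ D.η
  b1 : hit (vb D.ν) z (endp z rm :: p) ≤ D.η
  b2 : hit (vb D.ν) z (endp (endp z rm) p :: rq) ≤ D.η
  m : ∑' u, vb D.ν z u * vs D.ν (endp (endp (endp z rm) p) rq) u ≤ D.η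

/-- The class `F` of the walks with good ends. -/
def FF (D : Dat V) : V → List V → Prop := fun y p => ∃ z rm rq, endp z rm = y ∧ Gd D z rm p rq

/-- The two end walks `r` (from `y`) and `rq` (from `e`) fit together. -/
structure Nc (D : Dat V) (y : V) (r : List V) (e : V) (rq : List V) : Prop where
  dj : ∀ u ∈ rq, u ∉ r
  f : hit (vs D.ν) (endp e rq) (y :: r) ≤ D.η
  b : hit (vb D.ν) (endp y r) (e :: rq) ≤ D.η
  m : ∑' u, vb D.ν (endp y r) u * vs D.ν (endp e rq) u ≤ D.η

/-- The bound for the number of walks `r` that do not fit to a given `rq`. -/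
def B0 (D : Dat V) : ℝ≥0∞ := 4 * ((D.r : ℝ≥0∞) + 1) ^ 2 * ((D.J : ℝ≥0∞) + 1) * (D.d : ℝ≥0∞) ^ D.J * D.η⁻¹

/-- The standing hypotheses on the data of a scale. -/
structure Sc (D : Dat V) (ρ κ K K1 : ℝ≥0∞) (c0 : ℝ≥0) : Prop where
  ug : Ug D.G D.d ρ D.z
  cn : Cn D.G D.z D.r κ K D.ν
  eta : D.η = 24⁻¹
  k1 : ∀ x l, th D x l ≤ K1 * sa D.G D.z x l
  k1t : K1 ≠ ⊤
  c0p : c0 ≠ 0
  c0l : 2 * (c0 : ℝ≥0∞) ≤ (1 - ρ) ^ 2
  den : 2 * ((D.r : ℝ≥0∞) + 1) * ρ ^ D.J ≤ D.η * c0
  jr : D.J ≤ 24 * (D.r + 1)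

/-! ### Positions in a walk -/

/-- The vertex with number `i` of the walk `x, l`. -/
def vt (x : V) (l : List V) (i : ℕ) : V := endp x (l.take i)

/-- The part of the walk between the positions `i` and `j`. -/
def sg (l : List V) (i j : ℕ) : List V := (l.drop i).take (j - i)

/-- The vertices with the numbers `a - R, …, a`. -/
def pst (R : ℕ) (x : V) (l : List V) (a : ℕ) : List V := ((x :: l).take (a + 1)).drop (a - R)

/-- The vertices with the numbers `b, …, b + R`. -/
def fut (R : ℕ) (x : V) (l : List V) (b : ℕ) : List V := ((x :: l).drop b).take (R + 1)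

/-- The position `i` is good with respect to all vertices of the walk, in both directions. -/
def GP (D : Dat V) (x : V) (l : List V) (i : ℕ) : Prop :=
  Gg D (vs D.ν) (x :: l) (vt x l i) ∧ Gg D (vb D.ν) (x :: l) (vt x l i)

/-- The normalised weight of the segment `[a, b]` of the walk as a connector. -/
def uu (D : Dat V) (R : ℕ) (x : V) (l : List V) (a b : ℕ) : ℝ≥0∞ :=
  if a ≤ b ∧ b ≤ l.length ∧ Gg D (vs D.ν) (pst R x l a) (vt x l a) ∧ Gg D (vb D.ν) (fut R x l b) (vt x l b)
  then D.z⁻¹ ^ (b - a) * th D (vt x l a) (sg l a b) else 0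

/-- The sum over the segments that start at `a`. -/
def UU (D : Dat V) (R : ℕ) (x : V) (l : List V) (a : ℕ) : ℝ≥0∞ :=
  ∑ b ∈ Finset.Icc a (a + rp D), uu D R x l a b

/-- The sum over all segments. -/
def DD (D : Dat V) (R : ℕ) (x : V) (l : List V) : ℝ≥0∞ := ∑ a ∈ Finset.range (l.length + 1), UU D R x l a

/-- The product that penalises rich walks. -/
def PP (D : Dat V) (R : ℕ) (lam : ℝ≥0∞) (x : V) (l : List V) : ℝ≥0∞ :=
  ∏ a ∈ Finset.range (l.length + 1), (1 + lam * UU D R x l a)

/-- The bound for `UU`. -/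
def um (D : Dat V) (K1 : ℝ≥0∞) : ℝ≥0∞ := ((rp D : ℝ≥0∞) + 1) * K1

/-! ### Chunks -/

/-- A chunk `(τ, rm, p, rq)`: a connector followed by an extended piece. -/
abbrev Ck (V : Type) : Type := List V × List V × List V × List V

/-- The weight of a chunk. -/
def ckw (D : Dat V) (ω : PW V) (z : V) (c : Ck V) : ℝ≥0∞ :=
  D.ν z c.1 * (if Gd D (endp z c.1) c.2.1 c.2.2.1 c.2.2.2 then ω (endp (endp z c.1) c.2.1) c.2.2.1 else 0)

/-- The last vertex of a chunk. -/
def cke (z : V) (c : Ck V) : V := endp (endp (endp (endp z c.1) c.2.1) c.2.2.1) c.2.2.2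

/-- The vertices of the connector of a chunk. -/
def tvl (z : V) (c : Ck V) : List V := z :: c.1

/-- The vertices of `rm`. -/
def rml (z : V) (c : Ck V) : List V := endp z c.1 :: c.2.1

/-- The vertices of `p`. -/
def pvl (z : V) (c : Ck V) : List V := endp (endp z c.1) c.2.1 :: c.2.2.1

/-- The vertices of `rq`. -/
def rql (z : V) (c : Ck V) : List V := endp (endp (endp z c.1) c.2.1) c.2.2.1 :: c.2.2.2

/-- The vertices of the extended piece. -/
def qvl (z : V) (c : Ck V) : List V := endp z c.1 :: (c.2.1 ++ c.2.2.1 ++ c.2.2.2)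

/-- All vertices of a chunk. -/
def avl (z : V) (c : Ck V) : List V := tvl z c ++ qvl z c

/-- The sum over all sequences of `n` steps. -/
def SM {X : Type} (w : V → X → ℝ≥0∞) (e : V → X → V) : ℕ → V → (List X → ℝ≥0∞) → ℝ≥0∞
  | 0, _, F => F []
  | n + 1, z, F => ∑' c, w z c * SM w e n (e z c) (fun cs => F (c :: cs))

/-- The end of a sequence of steps. -/
def EN {X : Type} (e : V → X → V) : V → List X → V
  | z, [] => z
  | z, c :: cs => EN e (e z c) cs

/-- The new chunk `c` does not meet the earlier ones `cs` and the initial set `U0`. -/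
structure Okk (D : Dat V) (U0 : List V) (z : V) (cs : List (Ck V)) (c : Ck V) : Prop where
  nu : (EN cke z cs :: c.1).IsChain D.G.Adj
  gd : Gd D (endp (EN cke z cs) c.1) c.2.1 c.2.2.1 c.2.2.2
  e3 : ∀ u ∈ tvl (EN cke z cs) c, u ∉ pvl (EN cke z cs) c ∧ u ∉ rql (EN cke z cs) c
  e0 : cs = [] → ∀ u ∈ qvl (EN cke z cs) c, u ∉ U0
  e0' : cs ≠ [] → ∀ u ∈ avl (EN cke z cs) c, u ∉ U0
  e1 : ∀ cs1 c', cs = cs1 ++ [c'] → ∀ u ∈ tvl (EN cke z cs) c, u ∉ pvl (EN cke z cs1) c' ∧ u ∉ rml (EN cke z cs1) c'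
  e2 : ∀ cs1 c', cs = cs1 ++ [c'] → ∀ u ∈ tvl (EN cke z cs) c, u ∉ tvl (EN cke z cs1) c'
  e4 : ∀ cs1 c', cs = cs1 ++ [c'] → ∀ u ∈ qvl (EN cke z cs) c, u ∉ avl (EN cke z cs1) c'
  e5 : ∀ cs1 c' cs2, cs = cs1 ++ c' :: cs2 → cs2 ≠ [] → ∀ u ∈ avl (EN cke z cs) c, u ∉ avl (EN cke z cs1) c'

/-- Valid sequences of chunks. -/
def Vd (D : Dat V) (U0 : List V) (z : V) (cs : List (Ck V)) : Prop :=
  ∀ cs1 c cs2, cs = cs1 ++ c :: cs2 → Okk D U0 z cs1 c

/-- The mass of the valid sequences of `k` chunks. -/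
def vk (D : Dat V) (ω : PW V) (x : V) (k : ℕ) : ℝ≥0∞ :=
  ∑' r0, rwk D.G D.d D.J x r0 *
    SM (ckw D ω) cke k (endp x r0) (fun cs => if Vd D (x :: r0) (endp x r0) cs then 1 else 0)

/-- The mass of the extended pieces. -/
def Pq (D : Dat V) (ω : PW V) (z : V) : ℝ≥0∞ :=
  ∑' q : List V × List V × List V, if Gd D z q.1 q.2.1 q.2.2 then ω (endp z q.1) q.2.1 else 0

/-- The walk of a sequence of chunks: loop erased connections and pieces. -/
def ll : V → List V → List (Ck V) → List V
  | _, _, [] => []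
  | x, r0, c :: cs =>
    ler x (r0 ++ c.1 ++ c.2.1) ++ c.2.2.1 ++
      ll (endp (endp x (r0 ++ c.1 ++ c.2.1)) c.2.2.1) c.2.2.2 cs

/-! ### Rich and poor walks -/

/-- Poor walks of length `N`. -/
def Poor (D : Dat V) (R : ℕ) (q : ℝ≥0∞) (N : ℕ) : V → List V → Prop := fun x l =>
  l.length = N ∧ DD D R x l < q * N

/-- Rich walks of length `N`. -/
def Rich (D : Dat V) (R : ℕ) (q : ℝ≥0∞) (N : ℕ) : V → List V → Prop := fun x l =>
  l.length = N ∧ q * N ≤ DD D R x l

/-- The pieces used for new connectors. -/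
def om (D : Dat V) (R H : ℕ) (lam θ : ℝ≥0∞) : PW V := fun x l =>
  if FF D x l ∧ R ≤ l.length ∧ l.length ≤ H then θ ^ l.length * sa D.G D.z x l * (PP D R lam x l)⁻¹ else 0

/-- The pieces between connectors of a rich walk. -/
def wm (D : Dat V) (R : ℕ) (θ : ℝ≥0∞) : PW V :=
  rs (fun y p => 1 ≤ p.length ∧ (p.length ≤ R → FF D y p)) (tw θ (sa D.G D.z))

/-- Initial parts of walks that end with a connector. -/
def jj (D : Dat V) (R : ℕ) (θ β : ℝ≥0∞) : PW V := fun x l =>
  ∑' m : ℕ, cv (cv (tw θ (sa D.G D.z)) (sc β (th D))) (pwr (cv (wm D R θ) (sc β (th D))) m) x l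

/-- The pieces between the cuts of a poor walk. -/
def wc (D : Dat V) (R H : ℕ) (lam θ : ℝ≥0∞) : PW V :=
  ad (om D R H lam θ) (rs (fun _ l => H < l.length) (tw θ (sa D.G D.z)))

/-- Initial parts of walks that end with a cut. -/
def jA (D : Dat V) (R H : ℕ) (lam θ β : ℝ≥0∞) : PW V := fun x l =>
  ∑' m : ℕ, sc β (cv (tw θ (sa D.G D.z)) (pwr (sc (3 * β) (wc D R H lam θ)) m)) x l

/-- The property `C(x)`: connectors with cost exponent `x` exist at all large scales. -/
def Cx (G : SimpleGraph V) (z : ℝ≥0∞) (x : ℝ) : Prop :=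
  ∃ C s0 : ℝ, 0 ≤ C ∧ ∀ s : ℝ, s0 ≤ s → ∃ (r : ℕ) (ν : PW V), (r : ℝ) ≤ C * s ∧
    Cn G z r (ENNReal.ofReal (Real.exp (-s))) (ENNReal.ofReal (Real.exp (x * s))) ν

/-- The tail of the sum of the masses of self-avoiding walks. -/
def tail (G : SimpleGraph V) (z θ : ℝ≥0∞) (R : ℕ) (x : V) : ℝ≥0∞ :=
  ∑' n : ℕ, if R < n then al G z n x * θ ^ n else 0

end Pool.Agent.SAWG
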