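import Pool.Agent.SAWG.SPA
import Pool.Agent.SAWG.Defs

/-!
# SAWG module SPB: the norm of the random walk

PROOF.  `kr (rwk G d 1) x y = if G.Adj x y then d⁻¹ else 0` (only the list `[y]` contributes).  Let `v : V → ℝ≥0∞`.  If `∑ v^2 = ⊤` the right side is `⊤` (`ρ ≠ 0`).  Otherwise all `v y` are finite.  The left side is the supremum over the finite
sets `T` of `∑_{x∈T} (∑'_y P x y v y)^2`; the neighbours of `T` form a finite set `S`, so the inner sum is a finite sum over `S`, and `spa` (for `fun y => (v y).toReal`) gives `≤ ρ^2 ∑_{y∈S} v y^2`.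
-/

set_option autoImplicit false

open scoped ENNReal NNReal Classical
open Filter Topology

namespace Pool.Agent.SAWG

open Pool.Agent.SWH (Ker idK adK tp endp Sw endp_nil endp_cons endp_append endp_mem)

variable {V : Type}

private theorem spb_kr (G : SimpleGraph V) (d : ℕ) (x y : V) :
    kr (rwk G d 1) x y = if G.Adj x y then (d : ℝ≥0∞)⁻¹ else 0 := by
  unfold kr
  refine (tsum_eq_single [y] ?_).trans ?_
  · intro l hl
    by_cases he : endp x l = y
    · rw [if_pos he]
      unfold rwk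
      rw [if_neg]
      rintro ⟨_, h2⟩
      obtain ⟨a, rfl⟩ := List.length_eq_one_iff.1 h2
      rw [endp_cons, endp_nil] at he
      rw [he] at hl
      exact hl rfl
    · rw [if_neg he]
  · rw [if_pos (by rw [endp_cons, endp_nil])]
    unfold rwk
    by_cases ha : G.Adj x y
    · rw [if_pos ha, if_pos, pow_one]
      exact ⟨by rw [List.isChain_cons_cons]; exact ⟨ha, by simp⟩, rfl⟩
    · rw [if_neg ha, if_neg]
      rintro ⟨h1, _⟩
      rw [List.isChain_cons_cons] at h1
      exact ha h1.1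

theorem spb [Nonempty V] (G : SimpleGraph V) (hfin : ∀ v : V, (G.neighborSet v).Finite) {d : ℕ}
    (hd : ∀ v : V, (G.neighborSet v).ncard = d)
    (hche : ∃ c : ℝ, 0 < c ∧ ∀ S : Finset V, S.Nonempty → c * (S.card : ℝ) ≤ (SAWL.bdry G S : ℝ)) :
    ∃ ρ : ℝ≥0∞, ρ < 1 ∧ KB (kr (rwk G d 1)) ρ := by
  obtain ⟨hd1, ρ, hρ0, hρ1, hρ⟩ := spa G hfin hd hche
  refine ⟨ENNReal.ofReal ρ, ?_, ?_⟩
  · rw [← ENNReal.ofReal_one]
    exact (ENNReal.ofReal_lt_ofReal_iff one_pos).2 hρ1
  · intro v
    have hρne : (ENNReal.ofReal ρ) ^ 2 ≠ 0 := by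
      refine pow_ne_zero 2 ?_
      intro h
      rw [ENNReal.ofReal_eq_zero] at h
      linarith
    by_cases hv : ∑' y, v y ^ 2 = ⊤
    · rw [hv, ENNReal.mul_top hρne]
      exact le_top
    have hvt : ∀ y, v y ≠ ⊤ := by
      intro y hy
      apply hv
      rw [eq_top_iff]
      refine le_trans ?_ (ENNReal.le_tsum y)
      rw [hy]
      simp
    rw [ENNReal.tsum_eq_iSup_sum]
    refine iSup_le fun T => ?_
    set S : Finset V := T.biUnion (fun x => (hfin x).toFinset) with hS
    have hdi : (d : ℝ≥0∞)⁻¹ = ENNReal.ofReal ((d : ℝ)⁻¹) := by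
      have : (0 : ℝ) < d := by exact_mod_cast hd1
      rw [ENNReal.ofReal_inv_of_pos this, ENNReal.ofReal_natCast]
    have h1 : ∀ x ∈ T, (∑' y, kr (rwk G d 1) x y * v y) =
        ENNReal.ofReal (∑ y ∈ S, if G.Adj x y then (d : ℝ)⁻¹ * (v y).toReal else 0) := by
      intro x hx
      rw [ENNReal.ofReal_sum_of_nonneg (fun y _ => by
        by_cases ha : G.Adj x y
        · rw [if_pos ha]; positivity
        · rw [if_neg ha])]
      rw [tsum_eq_sum (s := S)]
      · refine Finset.sum_congr rfl fun y _ => ?_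
        rw [spb_kr]
        by_cases ha : G.Adj x y
        · rw [if_pos ha, if_pos ha, ENNReal.ofReal_mul (by positivity), ENNReal.ofReal_toReal (hvt y), hdi]
        · rw [if_neg ha, if_neg ha, zero_mul, ENNReal.ofReal_zero]
      · intro y hy
        rw [spb_kr, if_neg, zero_mul]
        intro ha
        apply hy
        rw [hS, Finset.mem_biUnion]
        exact ⟨x, hx, by rw [Set.Finite.mem_toFinset]; exact ha⟩
    have h2 : ∑ x ∈ T, (∑' y, kr (rwk G d 1) x y * v y) ^ 2 =
        ENNReal.ofReal (∑ x ∈ T, (∑ y ∈ S, if G.Adj x y then (d : ℝ)⁻¹ * (v y).toReal else 0) ^ 2) := by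
      rw [ENNReal.ofReal_sum_of_nonneg (fun x _ => sq_nonneg _)]
      refine Finset.sum_congr rfl fun x hx => ?_
      rw [h1 x hx, ENNReal.ofReal_pow]
      refine Finset.sum_nonneg fun y _ => ?_
      by_cases ha : G.Adj x y
      · rw [if_pos ha]; positivity
      · rw [if_neg ha]
    rw [h2]
    refine le_trans (ENNReal.ofReal_le_ofReal (hρ S T (fun y => (v y).toReal) (fun y => ENNReal.toReal_nonneg))) ?_
    rw [ENNReal.ofReal_mul (sq_nonneg _), ENNReal.ofReal_pow hρ0.le,
      ENNReal.ofReal_sum_of_nonneg (fun y _ => sq_nonneg _)]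
    refine mul_le_mul' le_rfl ?_
    refine le_trans (le_of_eq ?_) (ENNReal.sum_le_tsum S)
    refine Finset.sum_congr rfl fun y _ => ?_
    rw [ENNReal.ofReal_pow ENNReal.toReal_nonneg, ENNReal.ofReal_toReal (hvt y)]

end Pool.Agent.SAWG
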