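import Pool.Agent.SAWG.PWB

/-!
# SAWG module INV: invariance of path weights and kernels

PROOFS.  For a bijection `φ` the map `l ↦ l.map φ` is a bijection of the lists (`Equiv.listEquivOfEquiv` or `Equiv.tsum_eq`); `endp (φ x) (l.map φ) = φ (endp x l)`
(induction on `l`).  `Sw_map`: `List.isChain_map`, `φ.map_adj_iff`, `List.nodup_map_iff`.  `InvP_cv`: term by term (`List.map_take`, `List.map_drop`, `List.length_map`).
`InvP_pf`: reindex the sum over `k` by `k ↦ k.map φ`, `ler_map`.  `InvG_kr`, `InvG_vs`, `InvG_vb`: reindex.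
`ms_const`: `φ x = y` from `htr`; reindex the sum.
-/

set_option autoImplicit false

open scoped ENNReal NNReal Classical
open Filter Topology

namespace Pool.Agent.SAWG

open Pool.Agent.SWH (Ker idK adK tp endp Sw endp_nil endp_cons endp_append endp_mem)

variable {V : Type}

theorem endp_map (f : V → V) (x : V) (l : List V) : endp (f x) (l.map f) = f (endp x l) := by
  induction l generalizing x with
  | nil => rfl
  | cons a l ih => rw [List.map_cons, endp_cons, endp_cons, ih]

theorem Sw_map {G : SimpleGraph V} (φ : G ≃g G) (x : V) (l : List V) : Sw G (φ x) (l.map φ) ↔ Sw G x l := by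
  unfold Sw
  rw [← List.map_cons, List.nodup_map_iff φ.injective, List.isChain_map]
  simp only [φ.map_adj_iff]

theorem chain_map {G : SimpleGraph V} (φ : G ≃g G) (l : List V) : (l.map φ).IsChain G.Adj ↔ l.IsChain G.Adj := by
  rw [List.isChain_map]
  simp only [φ.map_adj_iff]

private theorem INV_aft {f : V → V} (hf : Function.Injective f) (x : V) (l : List V) :
    aft (f x) (l.map f) = (aft x l).map f := by
  induction l with
  | nil => rfl
  | cons y l ih =>
    have e : ∀ (z w : V) (k : List V), aft z (w :: k) = if z = w then k else aft z k := fun _ _ _ => rfl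
    rw [List.map_cons, e, e, ih]
    by_cases h : x = y
    · rw [if_pos h, if_pos (by rw [h])]
    · rw [if_neg h, if_neg (fun h' => h (hf h'))]

theorem ler_map {f : V → V} (hf : Function.Injective f) (x : V) (l : List V) : ler (f x) (l.map f) = (ler x l).map f := by
  induction l generalizing x with
  | nil => rfl
  | cons y l ih =>
    have e : ∀ (z : V) (w : V) (k : List V), ler z (w :: k) =
        if z ∈ w :: ler w k then aft z (w :: ler w k) else w :: ler w k := fun _ _ _ => rfl
    rw [List.map_cons, e, e, ih, ← List.map_cons]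
    by_cases h : x ∈ y :: ler y l
    · rw [if_pos h, if_pos ((List.mem_map_of_injective hf).2 h), INV_aft hf]
    · rw [if_neg h, if_neg (fun h' => h ((List.mem_map_of_injective hf).1 h'))]

theorem occ_map {f : V → V} (hf : Function.Injective f) (L : List V) (u : V) : occ (L.map f) (f u) = occ L u := by
  unfold occ
  rw [List.map_map]
  congr 1
  refine List.map_congr_left fun v _ => ?_
  dsimp only [Function.comp_apply]
  by_cases h : v = u
  · rw [if_pos h, if_pos (by rw [h])]
  · rw [if_neg h, if_neg (fun h' => h (hf h'))]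

/-- Reindexing of a sum over lists by an automorphism. -/
theorem tsum_map {G : SimpleGraph V} (φ : G ≃g G) (F : List V → ℝ≥0∞) : ∑' l : List V, F (l.map φ) = ∑' l, F l := by
  exact (Equiv.listEquivOfEquiv φ.toEquiv).tsum_eq F

/-- Reindexing of a sum over vertices by an automorphism. -/
theorem tsum_vert {G : SimpleGraph V} (φ : G ≃g G) (F : V → ℝ≥0∞) : ∑' v : V, F (φ v) = ∑' v, F v := by
  exact φ.toEquiv.tsum_eq F

theorem InvP_on (G : SimpleGraph V) : InvP G on := by
  intro φ x l
  unfold on
  by_cases h : l = []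
  · rw [if_pos h, if_pos (by rw [h]; rfl)]
  · rw [if_neg h, if_neg (fun h' => h (List.map_eq_nil_iff.1 h'))]

theorem InvP_cv {G : SimpleGraph V} {a b : PW V} (ha : InvP G a) (hb : InvP G b) : InvP G (cv a b) := by
  intro φ x l
  unfold cv
  rw [List.length_map]
  refine Finset.sum_congr rfl fun i _ => ?_
  rw [← List.map_take, ← List.map_drop, endp_map, ha, hb]

theorem InvP_pwr {G : SimpleGraph V} {a : PW V} (ha : InvP G a) (n : ℕ) : InvP G (pwr a n) := by
  induction n with
  | zero => exact InvP_on G
  | succ n ih => exact InvP_cv ih ha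

theorem InvP_sc {G : SimpleGraph V} {a : PW V} (ha : InvP G a) (c : ℝ≥0∞) : InvP G (sc c a) := by
  intro φ x l
  unfold sc
  rw [ha]

theorem InvP_ad {G : SimpleGraph V} {a b : PW V} (ha : InvP G a) (hb : InvP G b) : InvP G (ad a b) := by
  intro φ x l
  unfold ad
  rw [ha, hb]

theorem InvP_tw {G : SimpleGraph V} {a : PW V} (ha : InvP G a) (θ : ℝ≥0∞) : InvP G (tw θ a) := by
  intro φ x l
  unfold tw
  rw [ha, List.length_map]

theorem InvP_rs {G : SimpleGraph V} {a : PW V} (ha : InvP G a) {P : V → List V → Prop}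
    (hP : ∀ (φ : G ≃g G) x l, P (φ x) (l.map φ) ↔ P x l) : InvP G (rs P a) := by
  intro φ x l
  unfold rs
  rw [ha]
  by_cases h : P x l
  · rw [if_pos h, if_pos ((hP φ x l).2 h)]
  · rw [if_neg h, if_neg (fun h' => h ((hP φ x l).1 h'))]

theorem InvP_tsum {G : SimpleGraph V} {ι : Type} {a : ι → PW V} (ha : ∀ i, InvP G (a i)) :
    InvP G (fun x l => ∑' i, a i x l) := by
  intro φ x l
  exact tsum_congr fun i => ha i φ x l

theorem InvP_sa (G : SimpleGraph V) (z : ℝ≥0∞) : InvP G (sa G z) := by
  intro φ x l
  unfold sa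
  rw [List.length_map]
  by_cases h : Sw G x l
  · rw [if_pos h, if_pos ((Sw_map φ x l).2 h)]
  · rw [if_neg h, if_neg (fun h' => h ((Sw_map φ x l).1 h'))]

theorem InvP_rwk (G : SimpleGraph V) (d j : ℕ) : InvP G (rwk G d j) := by
  intro φ x l
  unfold rwk
  rw [List.length_map, ← List.map_cons]
  by_cases h : (x :: l).IsChain G.Adj ∧ l.length = j
  · rw [if_pos h, if_pos ⟨(chain_map φ _).2 h.1, h.2⟩]
  · rw [if_neg h, if_neg (fun h' => h ⟨(chain_map φ _).1 h'.1, h'.2⟩)]

theorem InvP_pf {G : SimpleGraph V} {a : PW V} (ha : InvP G a) : InvP G (pf a) := by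
  intro φ x l
  unfold pf
  rw [← tsum_map φ]
  refine tsum_congr fun k => ?_
  rw [ler_map φ.injective, ha]
  by_cases h : ler x k = l
  · rw [if_pos h, if_pos (by rw [h])]
  · rw [if_neg h, if_neg (fun h' => h (List.map_injective_iff.2 φ.injective h'))]

theorem InvG_kr {G : SimpleGraph V} {a : PW V} (ha : InvP G a) : InvG G (kr a) := by
  intro φ x y
  unfold kr
  rw [← tsum_map φ]
  refine tsum_congr fun l => ?_
  rw [endp_map, ha]
  by_cases h : endp x l = y
  · rw [if_pos h, if_pos (by rw [h])]
  · rw [if_neg h, if_neg (fun h' => h (φ.injective h'))]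

theorem InvG_vs {G : SimpleGraph V} {a : PW V} (ha : InvP G a) : InvG G (vs a) := by
  intro φ x u
  unfold vs
  rw [← tsum_map φ]
  refine tsum_congr fun l => ?_
  rw [ha, ← List.map_cons, occ_map φ.injective]

theorem InvG_vb {G : SimpleGraph V} {a : PW V} (ha : InvP G a) : InvG G (vb a) := by
  intro φ x u
  unfold vb
  rw [← tsum_vert φ]
  refine tsum_congr fun y => ?_
  rw [← tsum_map φ]
  refine tsum_congr fun l => ?_
  rw [endp_map, ha, ← List.map_cons, occ_map φ.injective]
  by_cases h : endp y l = x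
  · rw [if_pos h, if_pos (by rw [h])]
  · rw [if_neg h, if_neg (fun h' => h (φ.injective h'))]

theorem ms_const {G : SimpleGraph V} (htr : ∀ v w : V, ∃ φ : G ≃g G, φ v = w) {a : PW V} (ha : InvP G a) (x y : V) :
    ms a x = ms a y := by
  obtain ⟨φ, rfl⟩ := htr x y
  unfold ms
  rw [← tsum_map φ (fun l => a (φ x) l)]
  exact tsum_congr fun l => (ha φ x l).symm

end Pool.Agent.SAWG
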