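import Pool.Agent.SAWG.PWB
import Pool.Agent.SAWG.INV

/-!
# SAWG module RWK: the random walk

PROOFS.  `card_rwk`: induction on `j`: the walks of length `j + 1` from `x` are `y :: l` with `y` adjacent to `x` and `l` a walk of length `j` from `y`
(sum over lists = sum over `[]` and over `(y, l)`); `∑' y, if G.Adj x y then c else 0 = d * c` (`h.fin`, `h.deg`).  `ms_rwk`: `d^j * (d⁻¹)^j = 1`.
`cv_rwk`: in the sum over the splittings only `i` contributes (`l.take i` has length `i`; `IsChain` of `x :: l` iff `IsChain` of `x :: take i` and of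
`endp x (take i) :: drop i`).  `KB_rwk`: `rwk (j+1) = cv (rwk j) (rwk 1)`, `kr_cv`, `KB_cmp`; `j = 0`: `rwk G d 0 = on`.
`chain_append_iff`: induction on `l1`.
-/

set_option autoImplicit false

open scoped ENNReal NNReal Classical
open Filter Topology

namespace Pool.Agent.SAWG

open Pool.Agent.SWH (Ker idK adK tp endp Sw endp_nil endp_cons endp_append endp_mem)

variable {V : Type}

theorem chain_append_iff (G : SimpleGraph V) (x : V) (l1 l2 : List V) :
    (x :: (l1 ++ l2)).IsChain G.Adj ↔ (x :: l1).IsChain G.Adj ∧ (endp x l1 :: l2).IsChain G.Adj := by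
  induction l1 generalizing x with
  | nil => simp [endp_nil]
  | cons a l ih =>
    rw [List.cons_append, List.isChain_cons_cons, ih a, List.isChain_cons_cons, endp_cons, and_assoc]

private theorem RWK_row {G : SimpleGraph V} {d : ℕ} (hfin : ∀ v, (G.neighborSet v).Finite)
    (hd : ∀ v, (G.neighborSet v).ncard = d) (x : V) (c : ℝ≥0∞) :
    ∑' y, (if G.Adj x y then c else 0) = (d : ℝ≥0∞) * c := by
  rw [tsum_eq_sum (s := (hfin x).toFinset)]
  · rw [Finset.sum_congr rfl (g := fun _ => c)]
    · rw [Finset.sum_const, nsmul_eq_mul, ← hd x, Set.ncard_eq_toFinset_card _ (hfin x)]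
    · intro a ha
      rw [Set.Finite.mem_toFinset] at ha
      exact if_pos ha
  · intro a ha
    rw [if_neg]
    intro h1
    exact ha (by rw [Set.Finite.mem_toFinset]; exact h1)

theorem card_rwk {G : SimpleGraph V} {d : ℕ} {ρ z : ℝ≥0∞} (h : Ug G d ρ z) (j : ℕ) (x : V) :
    ∑' l : List V, (if (x :: l).IsChain G.Adj ∧ l.length = j then (1 : ℝ≥0∞) else 0) = (d : ℝ≥0∞) ^ j := by
  induction j generalizing x with
  | zero =>
    rw [tsum_eq_single ([] : List V), pow_zero]
    · rw [if_pos ⟨by simp, rfl⟩]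
    · intro l hl
      rw [if_neg]
      rintro ⟨-, h2⟩
      exact hl (List.eq_nil_of_length_eq_zero h2)
  | succ j ih =>
    have hinj : Function.Injective (fun p : V × List V => p.1 :: p.2) := by
      intro p q hpq
      simp only [List.cons.injEq] at hpq
      exact Prod.ext hpq.1 hpq.2
    have hsup : Function.support (fun l : List V =>
        if (x :: l).IsChain G.Adj ∧ l.length = j + 1 then (1 : ℝ≥0∞) else 0) ⊆
        Set.range (fun p : V × List V => p.1 :: p.2) := by
      intro l hl
      rw [Function.mem_support] at hl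
      have h1 : (x :: l).IsChain G.Adj ∧ l.length = j + 1 := by
        by_contra h2
        exact hl (if_neg h2)
      cases l with
      | nil => simp at h1
      | cons a l => exact ⟨(a, l), rfl⟩
    rw [← hinj.tsum_eq hsup, ENNReal.tsum_prod']
    have h2 : ∀ y : V, ∑' l : List V, (if (x :: y :: l).IsChain G.Adj ∧ (y :: l).length = j + 1 then (1 : ℝ≥0∞) else 0) =
        if G.Adj x y then (d : ℝ≥0∞) ^ j else 0 := by
      intro y
      by_cases hxy : G.Adj x y
      · rw [if_pos hxy, ← ih y]
        refine tsum_congr fun l => ?_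
        have e1 : ((x :: y :: l).IsChain G.Adj ∧ (y :: l).length = j + 1) ↔
            ((y :: l).IsChain G.Adj ∧ l.length = j) := by
          rw [List.isChain_cons_cons, List.length_cons]
          simp only [hxy, true_and, Nat.add_right_cancel_iff]
        exact if_congr e1 rfl rfl
      · rw [if_neg hxy, ENNReal.tsum_eq_zero]
        intro l
        rw [if_neg]
        rw [List.isChain_cons_cons]
        exact fun h3 => hxy h3.1.1
    rw [tsum_congr h2, RWK_row h.fin h.deg, pow_succ']

private theorem RWK_inv {G : SimpleGraph V} {d : ℕ} {ρ z : ℝ≥0∞} (h : Ug G d ρ z) (j : ℕ) :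
    (d : ℝ≥0∞) ^ j * ((d : ℝ≥0∞)⁻¹) ^ j = 1 := by
  rw [← mul_pow, ENNReal.mul_inv_cancel, one_pow]
  · have := h.dpos
    exact_mod_cast (by omega : d ≠ 0)
  · exact ENNReal.natCast_ne_top d

/-- Sums over the walks with `j` steps in terms of the random walk. -/
private theorem RWK_chain {G : SimpleGraph V} {d : ℕ} {ρ z : ℝ≥0∞} (h : Ug G d ρ z) (j : ℕ) (x : V)
    (F : List V → ℝ≥0∞) :
    ∑' l : List V, (if (x :: l).IsChain G.Adj ∧ l.length = j then F l else 0)
      = (d : ℝ≥0∞) ^ j * ∑' l, rwk G d j x l * F l := by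
  rw [← ENNReal.tsum_mul_left]
  refine tsum_congr fun l => ?_
  unfold rwk
  by_cases h1 : (x :: l).IsChain G.Adj ∧ l.length = j
  · rw [if_pos h1, if_pos h1, ← mul_assoc, RWK_inv h j, one_mul]
  · rw [if_neg h1, if_neg h1, zero_mul, mul_zero]

theorem ms_rwk {G : SimpleGraph V} {d : ℕ} {ρ z : ℝ≥0∞} (h : Ug G d ρ z) (j : ℕ) (x : V) : ms (rwk G d j) x = 1 := by
  have h1 := RWK_chain h j x (fun _ => 1)
  simp only [mul_one] at h1
  rw [card_rwk h j x] at h1
  unfold ms
  calc ∑' l, rwk G d j x l = ((d : ℝ≥0∞) ^ j * ((d : ℝ≥0∞)⁻¹) ^ j) * ∑' l, rwk G d j x l := by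
        rw [RWK_inv h j, one_mul]
    _ = ((d : ℝ≥0∞)⁻¹) ^ j * ((d : ℝ≥0∞) ^ j * ∑' l, rwk G d j x l) := by ring
    _ = ((d : ℝ≥0∞)⁻¹) ^ j * (d : ℝ≥0∞) ^ j := by rw [← h1]
    _ = 1 := by rw [mul_comm, RWK_inv h j]

theorem cv_rwk (G : SimpleGraph V) (d i j : ℕ) : cv (rwk G d i) (rwk G d j) = rwk G d (i + j) := by
  funext x l
  unfold cv
  by_cases hl : l.length = i + j
  · rw [Finset.sum_eq_single i]
    · have h1 : (l.take i).length = i := by rw [List.length_take]; omega
      have h2 : (l.drop i).length = j := by rw [List.length_drop]; omega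
      have h3 := chain_append_iff G x (l.take i) (l.drop i)
      rw [List.take_append_drop] at h3
      unfold rwk
      simp only [h1, h2, hl, and_true]
      by_cases h4 : (x :: l).IsChain G.Adj
      · rw [if_pos h4, if_pos (h3.1 h4).1, if_pos (h3.1 h4).2, pow_add]
      · rw [if_neg h4]
        by_cases h5 : (x :: l.take i).IsChain G.Adj
        · rw [if_neg (fun h6 => h4 (h3.2 ⟨h5, h6⟩)), mul_zero]
        · rw [if_neg h5, zero_mul]
    · intro k hk hki
      rw [Finset.mem_range] at hk
      have h1 : (l.take k).length ≠ i := by rw [List.length_take]; omega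
      unfold rwk
      rw [if_neg (fun h2 => h1 h2.2), zero_mul]
    · intro hk
      exact absurd (Finset.mem_range.2 (by omega)) hk
  · rw [Finset.sum_eq_zero]
    · unfold rwk
      rw [if_neg (fun h2 => hl h2.2)]
    · intro k hk
      rw [Finset.mem_range] at hk
      by_cases h1 : (l.take k).length = i
      · have h2 : (l.drop k).length ≠ j := by
          rw [List.length_take] at h1
          rw [List.length_drop]; omega
        have h4 : rwk G d j (endp x (l.take k)) (l.drop k) = 0 := if_neg (fun h3 => h2 h3.2)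
        rw [h4, mul_zero]
      · have h4 : rwk G d i x (l.take k) = 0 := if_neg (fun h3 => h1 h3.2)
        rw [h4, zero_mul]

theorem rwk_zero (G : SimpleGraph V) (d : ℕ) : rwk G d 0 = on := by
  funext x l
  unfold rwk on
  by_cases h1 : l = []
  · subst h1
    simp
  · rw [if_neg h1, if_neg]
    rintro ⟨-, h2⟩
    exact h1 (List.eq_nil_of_length_eq_zero h2)

theorem KB_rwk {G : SimpleGraph V} {d : ℕ} {ρ z : ℝ≥0∞} (h : Ug G d ρ z) (j : ℕ) : KB (kr (rwk G d j)) (ρ ^ j) := by
  induction j with
  | zero =>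
    rw [rwk_zero, kr_on, pow_zero]
    exact KB_id
  | succ j ih =>
    rw [← cv_rwk G d j 1, kr_cv, pow_succ]
    exact KB_cmp ih h.gap

/-- Sums over the walks with `j` steps in terms of the random walk. -/
theorem tsum_chain {G : SimpleGraph V} {d : ℕ} {ρ z : ℝ≥0∞} (h : Ug G d ρ z) (j : ℕ) (x : V) (F : List V → ℝ≥0∞) :
    ∑' l : List V, (if (x :: l).IsChain G.Adj ∧ l.length = j then F l else 0)
      = (d : ℝ≥0∞) ^ j * ∑' l, rwk G d j x l * F l :=
  RWK_chain h j x F

/-- The number of walks of length at most `j` through `u` whose starting points are given. -/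
theorem col_rwk {G : SimpleGraph V} {d : ℕ} {ρ z : ℝ≥0∞} (h : Ug G d ρ z) (j : ℕ) (y : V) :
    ∑' x, kr (rwk G d j) x y = 1 := by
  rw [← h.uni (kr (rwk G d j)) (InvG_kr (InvP_rwk G d j)) y, row_kr, ms_rwk h]

end Pool.Agent.SAWG
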