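import Pool.Agent.SAWG.PWB
import Pool.Agent.SAWG.INV

/-!
# SAWG module UNI: consequences of the mass transport principle

PROOFS.  `KB_inv`: `KB_schur` with `g = 1`; the column sums are row sums by `hu`.  `KB_ms`: `KB_inv` for `kr a`, `row_kr`, `InvG_kr`.
-/

set_option autoImplicit false

open scoped ENNReal NNReal Classical
open Filter Topology

namespace Pool.Agent.SAWG

open Pool.Agent.SWH (Ker idK adK tp endp Sw endp_nil endp_cons endp_append endp_mem)

variable {V : Type}

theorem KB_inv {G : SimpleGraph V} (hu : Uni G) {K : Ker V} (hK : InvG G K) {c : ℝ≥0∞} (h : ∀ x, ∑' y, K x y ≤ c) :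
    KB K c := by
  refine KB_schur (fun _ => 1) (fun _ => one_ne_zero) (fun _ => ENNReal.one_ne_top) (fun x => ?_) (fun y => ?_)
  · simp only [mul_one]
    exact h x
  · simp only [mul_one, one_mul]
    rw [← hu K hK y]
    exact h y

theorem KB_ms {G : SimpleGraph V} (hu : Uni G) {a : PW V} (ha : InvP G a) {c : ℝ≥0∞} (h : ∀ x, ms a x ≤ c) :
    KB (kr a) c := by
  refine KB_inv hu (InvG_kr ha) fun x => ?_
  rw [row_kr]
  exact h x

end Pool.Agent.SAWG
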