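import Pool.Agent.SAWG.LER
import Pool.Agent.SAWG.RWK
import Pool.Agent.SAWG.UNI

/-!
# SAWG module BAS: the base case: loop erased random walks

PROOF.  `ρ' = max ρ (1/2)` (real), `j = ⌈s/log(1/ρ')⌉₊`, `ν = pf (rwk G d j)`.  Invariant (`InvP_pf`, `InvP_rwk`), mass 1, length `≤ j ≤ C s` for `s ≥ 1`, `KB (kr ν) (ρ^j)`, `ρ^j ≤ ρ'^j ≤ exp (-s)`.
`ν x l ≤ 1`; if `ν x l ≠ 0` then `l` is self-avoiding (`ler_Sw`) of length `≤ j`, so `ν x l ≤ 1 ≤ z⁻¹^j z^|l| = z⁻¹^j sa x l`, and `z⁻¹^j ≤ exp (x s)` for `x` large (`j ≤ s/log(1/ρ') + 1`, `s ≥ 1`).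
-/

set_option autoImplicit false

open scoped ENNReal NNReal Classical
open Filter Topology

namespace Pool.Agent.SAWG

open Pool.Agent.SWH (Ker idK adK tp endp Sw endp_nil endp_cons endp_append endp_mem)

variable {V : Type}

theorem bas {G : SimpleGraph V} {d : ℕ} {ρ z : ℝ≥0∞} (h : Ug G d ρ z) : ∃ x : ℝ, 0 ≤ x ∧ Cx G z x := by
  have hρt : ρ ≠ ⊤ := ne_top_of_lt h.rlt
  have hzt : z ≠ ⊤ := ne_top_of_le_ne_top ENNReal.one_ne_top h.zle
  obtain ⟨ρr, hρr⟩ : ∃ ρr : ℝ, ρr = max ρ.toReal (1 / 2) := ⟨_, rfl⟩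
  have hρ1 : ρ.toReal < 1 := by
    rw [← ENNReal.toReal_one]
    exact (ENNReal.toReal_lt_toReal hρt ENNReal.one_ne_top).2 h.rlt
  have hr0 : 0 < ρr := by rw [hρr]; exact lt_of_lt_of_le (by norm_num) (le_max_right _ _)
  have hr1 : ρr < 1 := by rw [hρr]; exact max_lt hρ1 (by norm_num)
  have hρle : ρ ≤ ENNReal.ofReal ρr := by
    rw [← ENNReal.ofReal_toReal hρt]
    apply ENNReal.ofReal_le_ofReal
    rw [hρr]; exact le_max_left _ _
  obtain ⟨L, hL⟩ : ∃ L : ℝ, L = - Real.log ρr := ⟨_, rfl⟩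
  have hL0 : 0 < L := by rw [hL]; exact neg_pos.2 (Real.log_neg hr0 hr1)
  have hz0 : 0 < z.toReal := ENNReal.toReal_pos h.zpos hzt
  have hz1 : z.toReal ≤ 1 := by
    rw [← ENNReal.toReal_one]
    exact ENNReal.toReal_mono ENNReal.one_ne_top h.zle
  have hlz : Real.log z.toReal ≤ 0 := Real.log_nonpos hz0.le hz1
  obtain ⟨C, hC⟩ : ∃ C : ℝ, C = 1 / L + 1 := ⟨_, rfl⟩
  have hC0 : 0 < C := by rw [hC]; positivity
  refine ⟨C * (- Real.log z.toReal), mul_nonneg hC0.le (neg_nonneg.2 hlz), C, 1, hC0.le, ?_⟩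
  intro s hs
  have hs0 : 0 ≤ s := by linarith
  obtain ⟨j, hj⟩ : ∃ j : ℕ, j = ⌈s / L⌉₊ := ⟨_, rfl⟩
  have hj1 : s / L ≤ j := by rw [hj]; exact Nat.le_ceil _
  have hj2 : (j : ℝ) ≤ C * s := by
    have h1 : (j : ℝ) < s / L + 1 := by rw [hj]; exact Nat.ceil_lt_add_one (by positivity)
    have h2 : C * s = s / L + s := by rw [hC]; ring
    rw [h2]; linarith
  have hone : ∀ x, ms (pf (rwk G d j)) x = 1 := fun x => by rw [ms_pf, ms_rwk h]
  have hex : ∀ x l, pf (rwk G d j) x l ≠ 0 → ∃ k, ler x k = l ∧ rwk G d j x k ≠ 0 := by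
    intro x l hne
    by_contra hcon
    push Not at hcon
    apply hne
    unfold pf
    rw [ENNReal.tsum_eq_zero]
    intro k
    by_cases hk : ler x k = l
    · rw [if_pos hk]; exact hcon k hk
    · rw [if_neg hk]
  have hrw : ∀ x k, rwk G d j x k ≠ 0 → (x :: k).IsChain G.Adj ∧ k.length = j := by
    intro x k hk
    by_contra hcon
    apply hk
    unfold rwk
    rw [if_neg hcon]
  have hlen : ∀ x l, pf (rwk G d j) x l ≠ 0 → l.length ≤ j := by
    intro x l hne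
    obtain ⟨k, hk, hk0⟩ := hex x l hne
    rw [← hk, ← (hrw x k hk0).2]
    exact ler_length x k
  refine ⟨j, pf (rwk G d j), hj2, ?_⟩
  refine ⟨InvP_pf (InvP_rwk G d j), hone, hlen, ?_, ?_⟩
  · intro x l
    by_cases hne : pf (rwk G d j) x l = 0
    · rw [hne]; exact zero_le
    obtain ⟨k, hk, hk0⟩ := hex x l hne
    have hSw : Sw G x l := by rw [← hk]; exact ler_Sw (hrw x k hk0).1
    have hle1 : pf (rwk G d j) x l ≤ 1 := by
      rw [← hone x]
      exact ENNReal.le_tsum l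
    refine hle1.trans ?_
    unfold sa
    rw [if_pos hSw]
    have hzj : z ^ j ≤ z ^ l.length := pow_le_pow_right_of_le_one' h.zle (hlen x l hne)
    refine le_trans ?_ (mul_le_mul_right hzj _)
    have hzr : z ^ j = ENNReal.ofReal (z.toReal ^ j) := by
      rw [ENNReal.ofReal_pow hz0.le, ENNReal.ofReal_toReal hzt]
    rw [hzr, ← ENNReal.ofReal_mul (Real.exp_pos _).le, ← ENNReal.ofReal_one]
    apply ENNReal.ofReal_le_ofReal
    have he : z.toReal ^ j = Real.exp (j * Real.log z.toReal) := by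
      rw [Real.exp_nat_mul, Real.exp_log hz0]
    rw [he, ← Real.exp_add]
    apply Real.one_le_exp
    have h1 : C * s * Real.log z.toReal ≤ j * Real.log z.toReal :=
      mul_le_mul_of_nonpos_right hj2 hlz
    nlinarith
  · rw [kr_pf]
    refine KB_le ?_ (KB_rwk h j)
    calc ρ ^ j ≤ (ENNReal.ofReal ρr) ^ j := pow_le_pow_left' hρle j
      _ = ENNReal.ofReal (ρr ^ j) := by rw [ENNReal.ofReal_pow hr0.le]
      _ ≤ ENNReal.ofReal (Real.exp (-s)) := by
        apply ENNReal.ofReal_le_ofReal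
        have he : ρr ^ j = Real.exp (j * Real.log ρr) := by
          rw [Real.exp_nat_mul, Real.exp_log hr0]
        rw [he]
        apply Real.exp_le_exp.2
        have h1 : s ≤ j * L := by
          rw [div_le_iff₀ hL0] at hj1; exact hj1
        rw [hL] at h1
        linarith

end Pool.Agent.SAWG
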