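import Pool.Agent.SAWG.POS
import Pool.Agent.SAWG.INV
import Pool.Agent.SAWG.UNI

/-!
# SAWG module ALF: sums over self-avoiding walks

PROOFS.  `sum_len`: group the walks by their length.  `al_const`: `ms_const`.  `al_zero`: only `[]`.  `gen_fin`: `θ < 1`: choose `ε > 0` with `(1+ε) θ < 1` (`θ = 0` is trivial), `h.alg`, geometric series.
`KB_al`: `KB_ms`.
-/

set_option autoImplicit false

open scoped ENNReal NNReal Classical
open Filter Topology

namespace Pool.Agent.SAWG

open Pool.Agent.SWH (Ker idK adK tp endp Sw endp_nil endp_cons endp_append endp_mem)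

variable {V : Type}

private theorem InvP_LN {G : SimpleGraph V} (z : ℝ≥0∞) (n : ℕ) : InvP G (rs (LN n) (sa G z)) := by
  refine InvP_rs (InvP_sa G z) ?_
  intro φ x l
  unfold LN
  rw [List.length_map]

theorem sum_len {G : SimpleGraph V} (z : ℝ≥0∞) (f : ℕ → ℝ≥0∞) (x : V) :
    ∑' l, sa G z x l * f l.length = ∑' n, al G z n x * f n := by
  have h1 : ∀ n, al G z n x * f n = ∑' l, rs (LN n) (sa G z) x l * f n := by
    intro n
    rw [ENNReal.tsum_mul_right]
    rfl
  rw [tsum_congr h1, ENNReal.tsum_comm]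
  refine tsum_congr fun l => ?_
  rw [tsum_eq_single l.length]
  · unfold rs LN
    rw [if_pos rfl]
  · intro n hn
    unfold rs LN
    rw [if_neg (Ne.symm hn), zero_mul]

theorem al_const {G : SimpleGraph V} {d : ℕ} {ρ z : ℝ≥0∞} (h : Ug G d ρ z) (n : ℕ) (x y : V) :
    al G z n x = al G z n y := by
  unfold al
  exact ms_const h.tr (InvP_LN z n) x y

theorem al_top {G : SimpleGraph V} {d : ℕ} {ρ z : ℝ≥0∞} (h : Ug G d ρ z) (n : ℕ) (x : V) : al G z n x ≠ ⊤ := by
  obtain ⟨C, hC, h1⟩ := h.alg 1 one_ne_zero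
  refine ne_top_of_le_ne_top ?_ (h1 n x)
  refine ENNReal.mul_ne_top hC (ENNReal.pow_ne_top ?_)
  exact ENNReal.add_ne_top.mpr ⟨ENNReal.one_ne_top, ENNReal.one_ne_top⟩

/-- The generating function is finite below the critical point. -/
theorem gen_fin {G : SimpleGraph V} {d : ℕ} {ρ z : ℝ≥0∞} (h : Ug G d ρ z) {θ : ℝ≥0∞} (hθ : θ < 1) :
    ∃ χ : ℝ≥0∞, χ ≠ ⊤ ∧ ∀ x, ∑' n, al G z n x * θ ^ n ≤ χ := by
  lift θ to ℝ≥0 using ne_top_of_lt hθ
  have hθ' : θ < 1 := by exact_mod_cast hθ
  obtain ⟨ε, hε⟩ : ∃ ε : ℝ≥0, ε = (1 - θ) / 2 := ⟨_, rfl⟩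
  have hsub : ((1 - θ : ℝ≥0) : ℝ) = 1 - θ := by
    rw [NNReal.coe_sub hθ'.le, NNReal.coe_one]
  have hθr : (θ : ℝ) < 1 := by exact_mod_cast hθ'
  have hεr : (ε : ℝ) = (1 - θ) / 2 := by
    rw [hε, NNReal.coe_div, hsub, NNReal.coe_ofNat]
  have hε0 : (ε : ℝ≥0∞) ≠ 0 := by
    have h2 : (0 : ℝ) < ε := by rw [hεr]; linarith
    have h3 : ε ≠ 0 := by
      intro h0
      rw [h0, NNReal.coe_zero] at h2
      exact lt_irrefl _ h2
    exact_mod_cast h3
  have hq : (1 + ε) * θ < 1 := by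
    rw [← NNReal.coe_lt_coe, NNReal.coe_mul, NNReal.coe_add, NNReal.coe_one, hεr]
    have h4 : (0 : ℝ) ≤ θ := θ.coe_nonneg
    nlinarith
  have hq' : (1 + (ε : ℝ≥0∞)) * θ < 1 := by exact_mod_cast hq
  obtain ⟨C, hC, h1⟩ := h.alg ε hε0
  refine ⟨C * (1 - (1 + (ε : ℝ≥0∞)) * θ)⁻¹, ?_, ?_⟩
  · refine ENNReal.mul_ne_top hC (ENNReal.inv_ne_top.mpr ?_)
    exact (tsub_pos_of_lt hq').ne'
  · intro x
    calc ∑' n, al G z n x * (θ : ℝ≥0∞) ^ n ≤ ∑' n, C * ((1 + (ε : ℝ≥0∞)) * θ) ^ n := by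
          refine ENNReal.tsum_le_tsum fun n => ?_
          rw [mul_pow, ← mul_assoc]
          exact mul_le_mul' (h1 n x) le_rfl
      _ = C * (1 - (1 + (ε : ℝ≥0∞)) * θ)⁻¹ := by
          rw [ENNReal.tsum_mul_left, ENNReal.tsum_geometric]

theorem KB_al {G : SimpleGraph V} {d : ℕ} {ρ z : ℝ≥0∞} (h : Ug G d ρ z) (n : ℕ) {c : ℝ≥0∞} (hc : ∀ x, al G z n x ≤ c) :
    KB (kr (rs (LN n) (sa G z))) c := by
  exact KB_ms h.uni (InvP_LN z n) hc

theorem al_split {G : SimpleGraph V} {d : ℕ} {ρ z : ℝ≥0∞} (h : Ug G d ρ z) (m n : ℕ) (x : V) :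
    al G z (m + n) x ≤ al G z m x * al G z n x := by
  have h1 : al G z (m + n) x ≤ ms (cv (rs (LN m) (sa G z)) (rs (LN n) (sa G z))) x := by
    unfold al ms
    refine ENNReal.tsum_le_tsum fun l => ?_
    by_cases hl : l.length = m + n
    · by_cases hs : Sw G x l
      · have e1 : rs (LN (m + n)) (sa G z) x l = z ^ (m + n) := by
          unfold rs LN sa
          rw [if_pos hl, if_pos hs, hl]
        have e2 : rs (LN m) (sa G z) x (l.take m) = z ^ m := by
          unfold rs LN sa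
          have hlm : (l.take m).length = m := by rw [List.length_take]; omega
          rw [if_pos hlm, if_pos (Sw_take hs m), hlm]
        have e3 : rs (LN n) (sa G z) (vt x l m) (sg l m l.length) = z ^ n := by
          have hle : m ≤ l.length := by omega
          have hlen : (sg l m l.length).length = n := by
            rw [sg_length l hle le_rfl]; omega
          unfold rs LN
          rw [if_pos hlen]
          unfold sa
          rw [if_pos (Sw_sg hs hle), hlen]
        rw [e1, cv_pos]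
        refine le_trans ?_ (Finset.single_le_sum (f := fun i => rs (LN m) (sa G z) x (l.take i) *
          rs (LN n) (sa G z) (vt x l i) (sg l i l.length)) (fun _ _ => zero_le)
          (Finset.mem_range.mpr (by omega : m < l.length + 1)))
        rw [e2, e3, pow_add]
      · have e1 : rs (LN (m + n)) (sa G z) x l = 0 := by
          unfold rs LN sa
          rw [if_pos hl, if_neg hs]
        rw [e1]
        exact zero_le
    · have e1 : rs (LN (m + n)) (sa G z) x l = 0 := by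
        unfold rs LN
        rw [if_neg hl]
      rw [e1]
      exact zero_le
  refine le_trans h1 ?_
  refine ms_cv_le ?_
  intro y
  exact le_of_eq (al_const h n y x)

end Pool.Agent.SAWG
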