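import Pool.Agent.SAWG.Defs

/-!
# SAWG module SBX: a real recursion: subexponential growth

PROOF.  Put `s = 1 - c/2` and choose `γ ∈ (0,1)` close to 1 with `t := 2^(1-γ) s^γ < 1`.  For `n ≥ 4/c` and
`i + k ≤ (1-c) n`: `(i+1)^γ + (k+1)^γ ≤ 2^(1-γ) ((1-c) n + 2)^γ ≤ t (n+1)^γ`.  Strong induction gives
`log (a n) ≤ M (n+1)^γ` for a large `M`.
-/

set_option autoImplicit false

open scoped ENNReal NNReal Classical
open Filter Topology

namespace Pool.Agent.SAWG

open Pool.Agent.SWH (Ker idK adK tp endp Sw endp_nil endp_cons endp_append endp_mem)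

variable {V : Type}

private theorem sbx_conc {x y γ : ℝ} (hx : 0 ≤ x) (hy : 0 ≤ y) (h0 : 0 ≤ γ) (h1 : γ ≤ 1) :
    x ^ γ + y ^ γ ≤ 2 ^ (1 - γ) * (x + y) ^ γ := by
  have h := (Real.concaveOn_rpow h0 h1).2 (Set.mem_Ici.2 hx) (Set.mem_Ici.2 hy)
    (by norm_num : (0 : ℝ) ≤ 1 / 2) (by norm_num : (0 : ℝ) ≤ 1 / 2) (by norm_num)
  simp only [smul_eq_mul] at h
  have h2 : (1 / 2 * x + 1 / 2 * y) ^ γ = (2 : ℝ)⁻¹ ^ γ * (x + y) ^ γ := by
    rw [← Real.mul_rpow (by norm_num) (by positivity)]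
    congr 1
    ring
  rw [h2] at h
  have h3 : (2 : ℝ) ^ (1 - γ) = 2 * (2 : ℝ)⁻¹ ^ γ := by
    rw [Real.rpow_sub (by norm_num), Real.rpow_one, Real.inv_rpow (by norm_num), div_eq_mul_inv]
  rw [h3]
  nlinarith [h]

private theorem sbx_gam {s : ℝ} (hs0 : 0 < s) (hs1 : s < 1) :
    ∃ γ : ℝ, 0 < γ ∧ γ < 1 ∧ (2 : ℝ) ^ (1 - γ) * s ^ γ < 1 := by
  have hc : ContinuousAt (fun γ : ℝ => (2 : ℝ) ^ (1 - γ) * s ^ γ) 1 := by
    apply ContinuousAt.mul
    · apply ContinuousAt.rpow continuousAt_const (by fun_prop)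
      left; norm_num
    · apply ContinuousAt.rpow continuousAt_const continuousAt_id
      left; exact hs0.ne'
  have h1 : (fun γ : ℝ => (2 : ℝ) ^ (1 - γ) * s ^ γ) 1 < 1 := by
    simp [hs1]
  have h2 : ∀ᶠ γ in 𝓝 (1 : ℝ), (2 : ℝ) ^ (1 - γ) * s ^ γ < 1 := hc.eventually (gt_mem_nhds h1)
  obtain ⟨ε, hε, h3⟩ := Metric.eventually_nhds_iff.1 h2
  refine ⟨1 - min (ε / 2) (1 / 2), ?_, ?_, ?_⟩
  · have := min_le_right (ε / 2) (1 / 2 : ℝ); linarith
  · have : 0 < min (ε / 2) (1 / 2 : ℝ) := lt_min (by linarith) (by norm_num)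
    linarith
  · apply h3
    rw [Real.dist_eq]
    have h4 : 0 < min (ε / 2) (1 / 2 : ℝ) := lt_min (by linarith) (by norm_num)
    have h5 := min_le_left (ε / 2) (1 / 2 : ℝ)
    rw [show 1 - min (ε / 2) (1 / 2 : ℝ) - 1 = - min (ε / 2) (1 / 2 : ℝ) by ring, abs_neg, abs_of_pos h4]
    linarith

theorem sbx (a : ℕ → ℝ) (h1 : ∀ n, 1 ≤ a n) {C c : ℝ} {Y n0 : ℕ} (hc : 0 < c) (hc1 : c < 1)
    (hrec : ∀ n : ℕ, n0 ≤ n → ∃ i k : ℕ, (i : ℝ) + k ≤ (1 - c) * n ∧ a n ≤ C * (n : ℝ) ^ Y * (a i * a k)) :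
    ∃ M γ : ℝ, 0 ≤ M ∧ 0 < γ ∧ γ < 1 ∧ ∀ n : ℕ, a n ≤ Real.exp (M * ((n : ℝ) + 1) ^ γ) := by
  obtain ⟨γ, hγ0, hγ1, ht⟩ := sbx_gam (s := 1 - c / 2) (by linarith) (by linarith)
  obtain ⟨n1, hn1⟩ := exists_nat_ge (4 / c)
  have ht0 : 0 < (2 : ℝ) ^ (1 - γ) * (1 - c / 2) ^ γ := by
    have : 0 < 1 - c / 2 := by linarith
    positivity
  set t : ℝ := (2 : ℝ) ^ (1 - γ) * (1 - c / 2) ^ γ with htd
  set N := max n0 (max n1 1) with hN
  have hB : 0 ≤ ∑ n ∈ Finset.range N, Real.log (a n) :=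
    Finset.sum_nonneg fun n _ => Real.log_nonneg (h1 n)
  set B : ℝ := ∑ n ∈ Finset.range N, Real.log (a n) with hBd
  have hC1 : 0 ≤ Real.log (max C 1) := Real.log_nonneg (le_max_right _ _)
  have hY : 0 ≤ (Y : ℝ) / γ := by positivity
  set M : ℝ := B + (Real.log (max C 1) + Y / γ) / (1 - t) with hM
  have h1t : 0 < 1 - t := by linarith
  have hM2 : 0 ≤ (Real.log (max C 1) + Y / γ) / (1 - t) := by positivity
  have hM0 : 0 ≤ M := by linarith
  have hpow : ∀ n : ℕ, 1 ≤ ((n : ℝ) + 1) ^ γ := fun n =>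
    Real.one_le_rpow (by have : (0 : ℝ) ≤ n := Nat.cast_nonneg n; linarith) hγ0.le
  have key : ∀ n : ℕ, Real.log (a n) ≤ M * ((n : ℝ) + 1) ^ γ := by
    intro n
    induction n using Nat.strong_induction_on with
    | _ n ih =>
      by_cases hn : n < N
      · have h2 : Real.log (a n) ≤ B :=
          Finset.single_le_sum (f := fun n => Real.log (a n)) (fun n _ => Real.log_nonneg (h1 n))
            (Finset.mem_range.2 hn)
        have h3 := hpow n
        nlinarith
      · push Not at hn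
        have hn0 : n0 ≤ n := le_trans (le_max_left _ _) hn
        have hn1' : n1 ≤ n := le_trans (le_trans (le_max_left _ _) (le_max_right _ _)) hn
        have hn1'' : 1 ≤ n := le_trans (le_trans (le_max_right _ _) (le_max_right _ _)) hn
        obtain ⟨i, k, hik, hle⟩ := hrec n hn0
        have hnr : (1 : ℝ) ≤ n := by exact_mod_cast hn1''
        have hi0 : (0 : ℝ) ≤ i := Nat.cast_nonneg i
        have hk0 : (0 : ℝ) ≤ k := Nat.cast_nonneg k
        have hi : i < n := by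
          have : (i : ℝ) < n := by nlinarith
          exact_mod_cast this
        have hk : k < n := by
          have : (k : ℝ) < n := by nlinarith
          exact_mod_cast this
        have hai : 0 < a i := lt_of_lt_of_le one_pos (h1 i)
        have hak : 0 < a k := lt_of_lt_of_le one_pos (h1 k)
        have han : 0 < a n := lt_of_lt_of_le one_pos (h1 n)
        have hCm : 0 < max C 1 := lt_of_lt_of_le one_pos (le_max_right _ _)
        have hle2 : a n ≤ max C 1 * (n : ℝ) ^ Y * (a i * a k) := by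
          refine le_trans hle ?_
          have : C * (n : ℝ) ^ Y ≤ max C 1 * (n : ℝ) ^ Y :=
            mul_le_mul_of_nonneg_right (le_max_left _ _) (by positivity)
          exact mul_le_mul_of_nonneg_right this (by positivity)
        have hlog : Real.log (a n) ≤ Real.log (max C 1) + Y * Real.log n + (Real.log (a i) + Real.log (a k)) := by
          have h4 := Real.log_le_log han hle2
          rw [Real.log_mul (by positivity) (by positivity), Real.log_mul (by positivity) (by positivity),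
            Real.log_pow, Real.log_mul (by positivity) (by positivity)] at h4
          exact h4
        have hii := ih i hi
        have hkk := ih k hk
        have hcv := sbx_conc (x := (i : ℝ) + 1) (y := (k : ℝ) + 1) (by linarith) (by linarith) hγ0.le hγ1.le
        have h5 : ((i : ℝ) + 1 + (k + 1)) ^ γ ≤ (1 - c / 2) ^ γ * ((n : ℝ) + 1) ^ γ := by
          rw [← Real.mul_rpow (by linarith) (by linarith)]
          apply Real.rpow_le_rpow (by linarith) _ hγ0.le
          have h6 : 4 / c ≤ n := le_trans hn1 (by exact_mod_cast hn1')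
          rw [div_le_iff₀ hc] at h6
          nlinarith
        have h7 : ((i : ℝ) + 1) ^ γ + ((k : ℝ) + 1) ^ γ ≤ t * ((n : ℝ) + 1) ^ γ := by
          calc _ ≤ 2 ^ (1 - γ) * ((i : ℝ) + 1 + (k + 1)) ^ γ := hcv
            _ ≤ 2 ^ (1 - γ) * ((1 - c / 2) ^ γ * ((n : ℝ) + 1) ^ γ) :=
              mul_le_mul_of_nonneg_left h5 (by positivity)
            _ = t * ((n : ℝ) + 1) ^ γ := by rw [htd]; ring
        have h8 : Real.log n ≤ ((n : ℝ) + 1) ^ γ / γ := by
          have h9 : Real.log n ≤ Real.log ((n : ℝ) + 1) := Real.log_le_log (by linarith) (by linarith)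
          exact le_trans h9 (Real.log_le_rpow_div (by linarith) hγ0)
        have h10 : Real.log (max C 1) + Y * Real.log n ≤ (Real.log (max C 1) + Y / γ) * ((n : ℝ) + 1) ^ γ := by
          have h11 : (Y : ℝ) * Real.log n ≤ Y * (((n : ℝ) + 1) ^ γ / γ) :=
            mul_le_mul_of_nonneg_left h8 (Nat.cast_nonneg _)
          have h12 := hpow n
          have h13 : (Y : ℝ) * (((n : ℝ) + 1) ^ γ / γ) = Y / γ * ((n : ℝ) + 1) ^ γ := by ring
          nlinarith
        have h14 : (Real.log (max C 1) + Y / γ) * ((n : ℝ) + 1) ^ γ ≤ M * (1 - t) * ((n : ℝ) + 1) ^ γ := by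
          apply mul_le_mul_of_nonneg_right _ (by positivity)
          have h15 : (Real.log (max C 1) + Y / γ) / (1 - t) ≤ M := by linarith
          rw [div_le_iff₀ h1t] at h15
          exact h15
        have h16 : M * ((i : ℝ) + 1) ^ γ + M * ((k : ℝ) + 1) ^ γ ≤ M * (t * ((n : ℝ) + 1) ^ γ) := by
          rw [← mul_add]
          exact mul_le_mul_of_nonneg_left h7 hM0
        nlinarith
  refine ⟨M, γ, hM0, hγ0, hγ1, fun n => ?_⟩
  rw [← Real.log_le_iff_le_exp (lt_of_lt_of_le one_pos (h1 n))]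
  exact key n

end Pool.Agent.SAWG
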