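import Pool.Agent.SAWG.SBA
import Pool.Agent.SAWG.SBX
import Pool.Agent.SAWG.ALF

/-!
# SAWG module TAI: the tail of the sum of the masses

PROOF.  `sba`, `sbx` for `a n = (al n x).toReal ≥ 1`: `al n ≤ exp (M (n+1)^γ)`.  If `n ≥ ℓ^A` with `A (1-γ) ≥ 2` (`A` integer) and `ℓ` large then `M (n+1)^γ ≤ n/(2ℓ)` because `(n+1)^γ ≤ 2 n^γ = 2 n / n^(1-γ) ≤ 2 n/ℓ^2`.
`(1 - 1/ℓ)^n ≤ exp (-n/ℓ)`.  So `tail ≤ ∑_{n > R} exp (-n/(2ℓ)) ≤ exp (-R/(2ℓ)) / (1 - exp (-1/(2ℓ))) ≤ 4 ℓ exp (-ℓ^(A-1)/2) ≤ 1` for `ℓ` large (`A ≥ 2`).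
-/

set_option autoImplicit false

open scoped ENNReal NNReal Classical
open Filter Topology

namespace Pool.Agent.SAWG

open Pool.Agent.SWH (Ker idK adK tp endp Sw endp_nil endp_cons endp_append endp_mem)

variable {V : Type}

private theorem tai_exp {M γ : ℝ} (hM : 0 ≤ M) (hγ0 : 0 < γ) (hγ1 : γ < 1) :
    ∃ A l0 : ℕ, 3 ≤ A ∧ 16 ≤ l0 ∧ ∀ ℓ : ℕ, l0 ≤ ℓ → ∀ n : ℕ, ℓ ^ A ≤ n →
      M * ((n : ℝ) + 1) ^ γ ≤ n / (2 * ℓ) := by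
  obtain ⟨A1, hA1⟩ := exists_nat_ge (2 / (1 - γ))
  obtain ⟨l1, hl1⟩ := exists_nat_ge (4 * M)
  have h1γ : 0 < 1 - γ := by linarith
  refine ⟨A1 + 3, l1 + 16, by omega, by omega, ?_⟩
  intro ℓ hℓ n hn
  have hℓ16 : (16 : ℝ) ≤ ℓ := by exact_mod_cast (by omega : 16 ≤ ℓ)
  have hℓM : 4 * M ≤ ℓ := hl1.trans (by exact_mod_cast (by omega : l1 ≤ ℓ))
  have hℓ0 : (0 : ℝ) < ℓ := by linarith
  have hn1 : (ℓ : ℝ) ^ (A1 + 3) ≤ n := by exact_mod_cast hn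
  have hn0 : (1 : ℝ) ≤ n := (one_le_pow₀ (by linarith)).trans hn1
  have hnp : (0 : ℝ) < n := by linarith
  have e1 : (ℓ : ℝ) ^ (2 : ℝ) ≤ (n : ℝ) ^ (1 - γ) := by
    have h2 : ((ℓ : ℝ) ^ (A1 + 3)) ^ (1 - γ) ≤ (n : ℝ) ^ (1 - γ) :=
      Real.rpow_le_rpow (by positivity) hn1 h1γ.le
    refine le_trans ?_ h2
    rw [← Real.rpow_natCast, ← Real.rpow_mul hℓ0.le]
    refine Real.rpow_le_rpow_of_exponent_le (by linarith) ?_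
    have h3 : 2 ≤ (A1 : ℝ) * (1 - γ) := by
      rw [div_le_iff₀ h1γ] at hA1
      exact hA1
    push_cast
    nlinarith
  have e2 : ((n : ℝ) + 1) ^ γ ≤ 2 * (n : ℝ) ^ γ := by
    calc ((n : ℝ) + 1) ^ γ ≤ (2 * (n : ℝ)) ^ γ := Real.rpow_le_rpow (by positivity) (by linarith) hγ0.le
      _ = (2 : ℝ) ^ γ * (n : ℝ) ^ γ := Real.mul_rpow (by norm_num) hnp.le
      _ ≤ 2 * (n : ℝ) ^ γ := by
          refine mul_le_mul_of_nonneg_right ?_ (by positivity)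
          calc (2 : ℝ) ^ γ ≤ (2 : ℝ) ^ (1 : ℝ) := Real.rpow_le_rpow_of_exponent_le (by norm_num) hγ1.le
            _ = 2 := Real.rpow_one 2
  have e3 : (n : ℝ) ^ γ * (ℓ : ℝ) ^ (2 : ℝ) ≤ n := by
    calc (n : ℝ) ^ γ * (ℓ : ℝ) ^ (2 : ℝ) ≤ (n : ℝ) ^ γ * (n : ℝ) ^ (1 - γ) :=
          mul_le_mul_of_nonneg_left e1 (by positivity)
      _ = (n : ℝ) ^ (γ + (1 - γ)) := (Real.rpow_add hnp _ _).symm
      _ = n := by rw [show γ + (1 - γ) = 1 by ring, Real.rpow_one]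
  rw [Real.rpow_two] at e3
  have e4 : 0 ≤ (n : ℝ) ^ γ := by positivity
  rw [le_div_iff₀ (by positivity)]
  calc M * ((n : ℝ) + 1) ^ γ * (2 * ℓ) ≤ M * (2 * (n : ℝ) ^ γ) * (2 * ℓ) := by
        refine mul_le_mul_of_nonneg_right (mul_le_mul_of_nonneg_left e2 hM) (by positivity)
    _ = 4 * M * ((n : ℝ) ^ γ * ℓ) := by ring
    _ ≤ ℓ * ((n : ℝ) ^ γ * ℓ) := mul_le_mul_of_nonneg_right hℓM (by positivity)
    _ = (n : ℝ) ^ γ * (ℓ : ℝ) ^ 2 := by ring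
    _ ≤ n := e3

private theorem tai_ratio {ℓ : ℕ} (hℓ : 1 ≤ ℓ) :
    (1 - (ℓ : ℝ≥0∞)⁻¹) ≤ ENNReal.ofReal (Real.exp (-(1 / (ℓ : ℝ)))) := by
  have h0 : (0 : ℝ) < ℓ := by exact_mod_cast hℓ
  have e : (1 - (ℓ : ℝ≥0∞)⁻¹) = ENNReal.ofReal (1 - (ℓ : ℝ)⁻¹) := by
    rw [ENNReal.ofReal_sub _ (by positivity), ENNReal.ofReal_one, ENNReal.ofReal_inv_of_pos h0,
      ENNReal.ofReal_natCast]
  rw [e]
  refine ENNReal.ofReal_le_ofReal ?_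
  have h1 := Real.add_one_le_exp (-(1 / (ℓ : ℝ)))
  rw [one_div] at h1 ⊢
  linarith

private theorem tai_geo {ℓ : ℕ} (hℓ : 16 ≤ ℓ) {R : ℕ} (hR : ℓ ^ 3 ≤ R) :
    ENNReal.ofReal (Real.exp (-(R / (4 * ℓ : ℝ)))) * ∑' n : ℕ, ENNReal.ofReal (Real.exp (-(1 / (4 * ℓ : ℝ)))) ^ n ≤ 1 := by
  have hℓ16 : (16 : ℝ) ≤ ℓ := by exact_mod_cast hℓ
  have hℓ0 : (0 : ℝ) < ℓ := by linarith
  have hR1 : (ℓ : ℝ) ^ 3 ≤ R := by exact_mod_cast hR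
  rw [ENNReal.tsum_geometric]
  have e : (1 - ENNReal.ofReal (Real.exp (-(1 / (4 * ℓ : ℝ)))))⁻¹ ≤ ENNReal.ofReal (4 * ℓ + 1) := by
    have h1 : Real.exp (-(1 / (4 * ℓ : ℝ))) ≤ 4 * ℓ / (4 * ℓ + 1) := by
      rw [Real.exp_neg, inv_le_comm₀ (Real.exp_pos _) (by positivity), inv_div]
      have h2 := Real.add_one_le_exp (1 / (4 * ℓ : ℝ))
      calc (4 * (ℓ : ℝ) + 1) / (4 * ℓ) = 1 / (4 * ℓ) + 1 := by field_simp; ring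
        _ ≤ _ := h2
    have h3 : ENNReal.ofReal ((4 * ℓ + 1 : ℝ)⁻¹) ≤ 1 - ENNReal.ofReal (Real.exp (-(1 / (4 * ℓ : ℝ)))) := by
      have h4 : (1 : ℝ≥0∞) - ENNReal.ofReal (Real.exp (-(1 / (4 * ℓ : ℝ)))) =
          ENNReal.ofReal (1 - Real.exp (-(1 / (4 * ℓ : ℝ)))) := by
        rw [ENNReal.ofReal_sub _ (Real.exp_pos _).le, ENNReal.ofReal_one]
      rw [h4]
      refine ENNReal.ofReal_le_ofReal ?_
      have h5 : (4 * (ℓ : ℝ) + 1)⁻¹ = 1 - 4 * ℓ / (4 * ℓ + 1) := by field_simp; ring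
      rw [h5]
      linarith
    rw [ENNReal.inv_le_iff_inv_le, ← ENNReal.ofReal_inv_of_pos (by positivity)]
    exact h3
  calc ENNReal.ofReal (Real.exp (-(R / (4 * ℓ : ℝ)))) * (1 - ENNReal.ofReal (Real.exp (-(1 / (4 * ℓ : ℝ)))))⁻¹
      ≤ ENNReal.ofReal (Real.exp (-(R / (4 * ℓ : ℝ)))) * ENNReal.ofReal (4 * ℓ + 1) := mul_le_mul_right e _
    _ = ENNReal.ofReal (Real.exp (-(R / (4 * ℓ : ℝ))) * (4 * ℓ + 1)) := (ENNReal.ofReal_mul (Real.exp_pos _).le).symm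
    _ ≤ ENNReal.ofReal 1 := by
        refine ENNReal.ofReal_le_ofReal ?_
        have h1 : (ℓ : ℝ) ^ 2 / 4 ≤ R / (4 * ℓ) := by
          rw [le_div_iff₀ (by positivity)]
          calc (ℓ : ℝ) ^ 2 / 4 * (4 * (ℓ : ℝ)) = (ℓ : ℝ) ^ 3 := by ring
            _ ≤ (R : ℝ) := hR1
        have h2 := Real.add_one_le_exp (R / (4 * ℓ : ℝ))
        have h3 : 4 * (ℓ : ℝ) + 1 ≤ Real.exp (R / (4 * ℓ)) := by nlinarith
        rw [Real.exp_neg, inv_mul_le_iff₀ (Real.exp_pos _), mul_one]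
        exact h3
    _ = 1 := ENNReal.ofReal_one

theorem tai {G : SimpleGraph V} {d : ℕ} {ρ z : ℝ≥0∞} (h : Ug G d ρ z) : ∃ (A l0 : ℕ), 1 ≤ A ∧ ∀ ℓ : ℕ, l0 ≤ ℓ → ∀ R : ℕ,
    ℓ ^ A ≤ R → ∀ x, tail G z (1 - (ℓ : ℝ≥0∞)⁻¹) R x ≤ 1 := by
  rcases isEmpty_or_nonempty V with hV | ⟨⟨x0⟩⟩
  · exact ⟨1, 0, le_rfl, fun _ _ _ _ x => (hV.false x).elim⟩
  obtain ⟨C, c, Y, n0, hc0, hc1, hrec⟩ := sba h x0
  have ha1 : ∀ n, 1 ≤ (al G z n x0).toReal := by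
    intro n
    have h1 := ENNReal.toReal_mono (al_top h n x0) (h.al1 n x0)
    rwa [ENNReal.toReal_one] at h1
  obtain ⟨M, γ, hM, hγ0, hγ1, hb⟩ := sbx (fun n => (al G z n x0).toReal) ha1 hc0 hc1 hrec
  obtain ⟨A, l0, hA, hl0, hexp⟩ := tai_exp hM hγ0 hγ1
  refine ⟨A, l0, by omega, ?_⟩
  intro ℓ hℓ R hR x
  have hℓ16 : 16 ≤ ℓ := hl0.trans hℓ
  have hℓ0 : (0 : ℝ) < ℓ := by exact_mod_cast (by omega : 0 < ℓ)
  have hR3 : ℓ ^ 3 ≤ R := (Nat.pow_le_pow_right (by omega) hA).trans hR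
  refine le_trans ?_ (tai_geo hℓ16 hR3)
  rw [← ENNReal.tsum_mul_left]
  unfold tail
  refine ENNReal.tsum_le_tsum fun n => ?_
  split_ifs with hn
  · have hal : al G z n x ≤ ENNReal.ofReal (Real.exp (M * ((n : ℝ) + 1) ^ γ)) := by
      rw [al_const h n x x0, ← ENNReal.ofReal_toReal (al_top h n x0)]
      exact ENNReal.ofReal_le_ofReal (hb n)
    have hr : (1 - (ℓ : ℝ≥0∞)⁻¹) ^ n ≤ ENNReal.ofReal (Real.exp (-(1 / (ℓ : ℝ)))) ^ n :=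
      pow_le_pow_left' (tai_ratio (by omega)) n
    refine (mul_le_mul' hal hr).trans ?_
    rw [← ENNReal.ofReal_pow (Real.exp_pos _).le, ← ENNReal.ofReal_pow (Real.exp_pos _).le,
      ← ENNReal.ofReal_mul (Real.exp_pos _).le, ← ENNReal.ofReal_mul (Real.exp_pos _).le,
      ← Real.exp_nat_mul, ← Real.exp_nat_mul, ← Real.exp_add, ← Real.exp_add]
    refine ENNReal.ofReal_le_ofReal (Real.exp_le_exp.2 ?_)
    have h1 := hexp ℓ hℓ n (hR.trans hn.le)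
    have hnR : (R : ℝ) ≤ n := by exact_mod_cast hn.le
    have h2 : (R : ℝ) / (4 * ℓ) ≤ n / (4 * ℓ) := div_le_div_of_nonneg_right hnR (by positivity)
    have h3 : (n : ℝ) / (2 * ℓ) + n * (-(1 / (ℓ : ℝ))) = -(n / (4 * ℓ)) + n * (-(1 / (4 * ℓ : ℝ))) := by
      field_simp
      ring
    linarith
  · exact zero_le

end Pool.Agent.SAWG
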