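import Pool.Agent.SAWG.AS2
import Pool.Agent.SAWG.TAI
import Pool.Agent.SAWG.BAS

/-!
# SAWG module UNM: the unimodular case

PROOFS.  `no_neg`: `C, s0` from `hx`; for large `s`: `1 = ms ν x ≤ exp (x s) ∑_{n ≤ C s} al n ≤ exp (x s) (C s + 1) C' (1+ε)^(C s)` (`Cn.le`, `Cn.len`, `h.alg` with `C log (1+ε) < -x/2`), which tends to 0 as `s → ∞`: contradiction.
`unm`: suppose not: for all `n`, `c`: `KB (..) c → 1 ≤ c`.  `bas`: `Cx x0`; `tai`: `A`; `as2` repeatedly: `Cx (x0 - k δ)` as long as `x0 - (k-1) δ ≥ 0`; the first negative value contradicts `no_neg`.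
-/

set_option autoImplicit false

open scoped ENNReal NNReal Classical
open Filter Topology

namespace Pool.Agent.SAWG

open Pool.Agent.SWH (Ker idK adK tp endp Sw endp_nil endp_cons endp_append endp_mem)

variable {V : Type}

/-- A law on walks of length at most `r` with density at most `K`. -/
private theorem UNM_mass {G : SimpleGraph V} {z κ K : ℝ≥0∞} {r : ℕ} {ν : PW V} (hν : Cn G z r κ K ν) (v : V)
    {B : ℝ≥0∞} (hB : ∀ n, n ≤ r → al G z n v ≤ B) : 1 ≤ K * (((r : ℝ≥0∞) + 1) * B) := by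
  have h1 : ms ν v ≤ ∑' l : List V, K * ∑ n ∈ Finset.range (r + 1), rs (LN n) (sa G z) v l := by
    refine ENNReal.tsum_le_tsum fun l => ?_
    by_cases h0 : ν v l = 0
    · rw [h0]; exact zero_le
    · have hl := hν.len v l h0
      refine (hν.le v l).trans ?_
      gcongr
      have : rs (LN l.length) (sa G z) v l = sa G z v l := by simp [rs, LN]
      rw [← this]
      exact Finset.single_le_sum (f := fun n => rs (LN n) (sa G z) v l) (fun _ _ => zero_le)
        (Finset.mem_range.2 (Nat.lt_succ_of_le hl))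
  refine (hν.one v).symm.le.trans (h1.trans ?_)
  rw [ENNReal.tsum_mul_left]
  gcongr
  rw [Summable.tsum_finsetSum (fun _ _ => ENNReal.summable)]
  calc ∑ n ∈ Finset.range (r + 1), ∑' l, rs (LN n) (sa G z) v l
      ≤ ∑ n ∈ Finset.range (r + 1), B := Finset.sum_le_sum fun n hn => hB n (Nat.lt_succ_iff.1 (Finset.mem_range.1 hn))
    _ = ((r : ℝ≥0∞) + 1) * B := by
        rw [Finset.sum_const, Finset.card_range, nsmul_eq_mul]; push_cast; ring

theorem no_neg [Nonempty V] {G : SimpleGraph V} {d : ℕ} {ρ z : ℝ≥0∞} (h : Ug G d ρ z) {x : ℝ} (hx : x < 0) : ¬ Cx G z x := by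
  rintro ⟨C, s0, hC, hs⟩
  obtain ⟨v⟩ := ‹Nonempty V›
  set ε : ℝ := -x / (2 * (C + 1)) with hε
  have hε0 : 0 < ε := by rw [hε]; apply div_pos <;> linarith
  have hCε : C * ε ≤ -x / 2 := by
    rw [hε, mul_div_assoc', div_le_div_iff₀ (by linarith) (by norm_num)]
    nlinarith
  obtain ⟨C', hC', hal⟩ := h.alg (ENNReal.ofReal ε) (by simpa using hε0)
  -- the inequality for all large `s`
  have key : ∀ s : ℝ, s0 ≤ s → 0 ≤ s → 1 ≤ Real.exp (x / 2 * s) * ((C * s + 1) * C'.toReal) := by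
    intro s hs0 hsp
    obtain ⟨r, ν, hr, hν⟩ := hs s hs0
    have h1 := UNM_mass hν v (B := C' * (1 + ENNReal.ofReal ε) ^ r) (fun n hn => by
      refine (hal n v).trans ?_
      gcongr
      exact le_self_add)
    have hr0 : (0 : ℝ) ≤ (r : ℝ) := Nat.cast_nonneg r
    have e1 : (1 + ENNReal.ofReal ε) ^ r = ENNReal.ofReal ((1 + ε) ^ r) := by
      rw [ENNReal.ofReal_pow (by linarith), ENNReal.ofReal_add (by norm_num) hε0.le, ENNReal.ofReal_one]
    have e2 : ((r : ℝ≥0∞) + 1) = ENNReal.ofReal ((r : ℝ) + 1) := by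
      rw [ENNReal.ofReal_add hr0 (by norm_num), ENNReal.ofReal_natCast, ENNReal.ofReal_one]
    have e3 : C' = ENNReal.ofReal C'.toReal := (ENNReal.ofReal_toReal hC').symm
    have hp : (0 : ℝ) ≤ (1 + ε) ^ r := by positivity
    rw [e3, e1, e2, ← ENNReal.ofReal_mul ENNReal.toReal_nonneg, ← ENNReal.ofReal_mul (by positivity),
      ← ENNReal.ofReal_mul (Real.exp_pos _).le, ← ENNReal.ofReal_one,
      ENNReal.ofReal_le_ofReal_iff (by positivity)] at h1
    refine h1.trans ?_
    have h2 : (1 + ε) ^ r ≤ Real.exp (-x / 2 * s) := by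
      calc (1 + ε) ^ r ≤ (Real.exp ε) ^ r := by
            gcongr
            linarith [Real.add_one_le_exp ε]
        _ = Real.exp (r * ε) := by rw [← Real.exp_nat_mul]
        _ ≤ Real.exp (-x / 2 * s) := by
            apply Real.exp_le_exp.2
            calc (r : ℝ) * ε ≤ (C * s) * ε := by gcongr
              _ = (C * ε) * s := by ring
              _ ≤ -x / 2 * s := by gcongr
    calc Real.exp (x * s) * (((r : ℝ) + 1) * (C'.toReal * (1 + ε) ^ r))
        ≤ Real.exp (x * s) * ((C * s + 1) * (C'.toReal * Real.exp (-x / 2 * s))) := by gcongr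
      _ = (Real.exp (x * s) * Real.exp (-x / 2 * s)) * ((C * s + 1) * C'.toReal) := by ring
      _ = Real.exp (x / 2 * s) * ((C * s + 1) * C'.toReal) := by
          rw [← Real.exp_add]
          congr 2
          ring
  -- the limit
  have hlim : Tendsto (fun s : ℝ => Real.exp (x / 2 * s) * ((C * s + 1) * C'.toReal)) atTop (𝓝 0) := by
    have hb : 0 < -x / 2 := by linarith
    have t1 := Real.tendsto_pow_mul_exp_neg_atTop_nhds_zero 1
    have t0 := Real.tendsto_pow_mul_exp_neg_atTop_nhds_zero 0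
    have tl : Tendsto (fun s : ℝ => -x / 2 * s) atTop atTop := Tendsto.const_mul_atTop hb tendsto_id
    have t1' := (t1.comp tl).const_mul (C / (-x / 2) * C'.toReal)
    have t0' := (t0.comp tl).const_mul (C'.toReal)
    have := t1'.add t0'
    simp only [mul_zero, add_zero] at this
    refine this.congr fun s => ?_
    simp only [Function.comp, pow_one, pow_zero, one_mul]
    have e : -(-x / 2 * s) = x / 2 * s := by ring
    rw [e]
    have hx' : x ≠ 0 := hx.ne
    field_simp
  have hev : ∀ᶠ s : ℝ in atTop, Real.exp (x / 2 * s) * ((C * s + 1) * C'.toReal) < 1 :=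
    hlim.eventually (gt_mem_nhds one_pos)
  obtain ⟨s, hs1, hs2, hs3⟩ := (hev.and ((eventually_ge_atTop s0).and (eventually_ge_atTop 0))).exists
  exact absurd (key s hs2 hs3) (not_le.2 hs1)

theorem unm [Nonempty V] {G : SimpleGraph V} {d : ℕ} {ρ z : ℝ≥0∞} (h : Ug G d ρ z) :
    ∃ (n : ℕ) (c : ℝ≥0∞), c < 1 ∧ KB (kr (rs (LN n) (sa G z))) c := by
  by_contra hne
  push Not at hne
  have hH : ∀ (n : ℕ) (c : ℝ≥0∞), KB (kr (rs (LN n) (sa G z))) c → 1 ≤ c := by
    intro n c hk
    by_contra hc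
    exact hne n c (not_le.1 hc) hk
  obtain ⟨x0, hx0, hb⟩ := bas h
  obtain ⟨A, l0, hA, ht⟩ := tai h
  set δ : ℝ := 1 / (12 * A * (A + 1)) with hδ
  have hδ0 : 0 < δ := by
    have : (1 : ℝ) ≤ A := by exact_mod_cast hA
    rw [hδ]; positivity
  have hk : ∀ k : ℕ, 0 ≤ x0 - k * δ ∧ Cx G z (x0 - k * δ) := by
    intro k
    induction k with
    | zero => simpa using ⟨hx0, hb⟩
    | succ k ih =>
      have h1 := as2 h hH hA ht ih.1 ih.2
      have e : x0 - k * δ - 1 / (12 * A * (A + 1)) = x0 - ((k + 1 : ℕ) : ℝ) * δ := by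
        rw [← hδ]; push_cast; ring
      rw [e] at h1
      refine ⟨?_, h1⟩
      by_contra hneg
      exact no_neg h (not_le.1 hneg) h1
  obtain ⟨k, hk'⟩ := exists_nat_gt (x0 / δ)
  have := (hk k).1
  rw [div_lt_iff₀ hδ0] at hk'
  linarith

end Pool.Agent.SAWG
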