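import Pool.Agent.SAWG.MTC
import Pool.Agent.SAWG.SPB
import Pool.Agent.SAWG.GRW
import Pool.Agent.SAWG.FNA
import Pool.Agent.SAWG.NUN
import Pool.Agent.SAWG.UNM

/-!
# SAWG module FIN: assembly

PROOF.  `V` is nonempty (`v`); infinite: otherwise `S = Finset.univ` has empty boundary, contradicting `hche`.  Degree `d = (G.neighborSet v).ncard`, constant (`SAWL.degree_iso`).  `grw` gives `lam`; `z = ofReal (exp (-lam))`, `z ≠ 0`, `z ≤ 1`.
`uni_or`: in the first case `spb` gives `ρ`, `Ug G d ρ z` (`dpos` from `spa` or from `hche` for one point), `unm`.  In the second case `nun`.  Both give the hypothesis of `fna`.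
-/

set_option autoImplicit false

open scoped ENNReal NNReal Classical
open Filter Topology

namespace Pool.Agent.SAWG

open Pool.Agent.SWH (Ker idK adK tp endp Sw endp_nil endp_cons endp_append endp_mem)

variable {V : Type}

private theorem FIN_key (G : SimpleGraph V) (hc : G.Connected) (hfin : ∀ v : V, (G.neighborSet v).Finite)
    (htr : ∀ v w : V, ∃ φ : G ≃g G, φ v = w) {d : ℕ} (hd : ∀ v : V, (G.neighborSet v).ncard = d)
    (hche : ∃ c : ℝ, 0 < c ∧ ∀ S : Finset V, S.Nonempty → c * (S.card : ℝ) ≤ (SAWL.bdry G S : ℝ)) {z : ℝ≥0∞}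
    (hz0 : z ≠ 0) (hz1 : z ≤ 1) (h1 : ∀ n x, 1 ≤ al G z n x)
    (h2 : ∀ ε : ℝ≥0∞, ε ≠ 0 → ∃ C : ℝ≥0∞, C ≠ ⊤ ∧ ∀ n x, al G z n x ≤ C * (1 + ε) ^ n)
    (h3 : ∀ y : ℝ≥0∞, y < z → ∀ x, ms (sa G y) x ≠ ⊤) (v : V) :
    ∃ (n : ℕ) (c : ℝ≥0∞), c < 1 ∧ KB (kr (rs (LN n) (sa G z))) c := by
  haveI : Nonempty V := ⟨v⟩
  rcases uni_or htr hc hfin with hu | ⟨h, hN⟩
  · obtain ⟨ρ, hρ, hK⟩ := spb G hfin hd hche
    have hd1 := (spa G hfin hd hche).1
    have hU : Ug G d ρ z := ⟨htr, hfin, hd, hd1, hu, hρ, hK, hz0, hz1, h1, h2⟩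
    exact unm hU
  · exact nun hN hz0 hz1 h3

theorem main (G : SimpleGraph V) (hc : G.Connected) (hfin : ∀ v : V, (G.neighborSet v).Finite)
    (htr : ∀ v w : V, ∃ φ : G ≃g G, φ v = w)
    (hche : ∃ c : ℝ, 0 < c ∧ ∀ S : Finset V, S.Nonempty → c * (S.card : ℝ) ≤ (SAWL.bdry G S : ℝ)) (v : V) :
    ∃ a b : ℝ, 0 ≤ a ∧ a < b ∧ (∀ᶠ n : ℕ in atTop, (SAWL.sal G n v : ℝ) ≤ a ^ n) ∧
      ∀ᶠ n : ℕ in atTop, b ^ n ≤ (SAWL.saw G n v : ℝ) := by
  have hinf : Infinite V := by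
    by_contra h
    rw [not_infinite_iff_finite] at h
    haveI : Fintype V := Fintype.ofFinite V
    obtain ⟨c, hc0, hc1⟩ := hche
    have h1 := hc1 Finset.univ ⟨v, Finset.mem_univ v⟩
    have h2 : SAWL.bdry G Finset.univ = 0 := by
      unfold SAWL.bdry
      rw [Set.ncard_eq_zero (Set.toFinite _)]
      ext p
      simp
    rw [h2] at h1
    have h3 : 0 < (Finset.univ : Finset V).card := Finset.card_pos.2 ⟨v, Finset.mem_univ v⟩
    have h4 : (0 : ℝ) < c * ((Finset.univ : Finset V).card : ℝ) := by positivity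
    push_cast at h1
    linarith
  have hd : ∀ w : V, (G.neighborSet w).ncard = (G.neighborSet v).ncard := by
    intro w
    obtain ⟨φ, hφ⟩ := htr v w
    rw [← hφ]
    exact SAWL.degree_iso G φ v
  obtain ⟨lam, hl, hs, h1, h2, h3⟩ := grw hc hfin htr hinf
  have hz0 : ENNReal.ofReal (Real.exp (-lam)) ≠ 0 := by
    rw [Ne, ENNReal.ofReal_eq_zero, not_le]
    exact Real.exp_pos _
  have hz1 : ENNReal.ofReal (Real.exp (-lam)) ≤ 1 := by
    rw [ENNReal.ofReal_le_one]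
    exact Real.exp_le_one_iff.2 (by linarith)
  obtain ⟨n, c, hc1, hK⟩ := FIN_key G hc hfin htr hd hche hz0 hz1 h1 h2 h3 v
  exact fna hfin hd hl hs hc1 hK v

end Pool.Agent.SAWG
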