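import Pool.Agent.SAWG.Defs

/-!
# SAWG module AS0: the choice of the length of the end walks

PROOF.  Let `ρ' = max ρ (1/2) < 1` (as a real number), `J = ⌈log (48 (r+1)/c0) / log (1/ρ')⌉₊`.  Then `ρ^J ≤ ρ'^J ≤ c0/(48 (r+1))`.  `J ≤ r` for large `r`.  `J ≤ a + b log (r+1)` with `b = 1/log(1/ρ')`, so `d^J ≤ e^{a log d} (r+1)^{b log d}`,
`z⁻¹^J ≤ e^{a log (1/z)} (r+1)^{b log (1/z)}`; take `Y` an integer above both exponents.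
-/

set_option autoImplicit false

open scoped ENNReal NNReal Classical
open Filter Topology

namespace Pool.Agent.SAWG

open Pool.Agent.SWH (Ker idK adK tp endp Sw endp_nil endp_cons endp_append endp_mem)

variable {V : Type}

private theorem as0_sq (n : ℕ) (h : 4 ≤ n) : n ^ 2 ≤ 2 ^ n := by
  induction n, h using Nat.le_induction with
  | base => norm_num
  | succ n hn ih =>
    have h1 : (n + 1) ^ 2 ≤ 2 * n ^ 2 := by nlinarith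
    calc (n + 1) ^ 2 ≤ 2 * n ^ 2 := h1
      _ ≤ 2 * 2 ^ n := Nat.mul_le_mul_left 2 ih
      _ = 2 ^ (n + 1) := by ring

private theorem as0_log (k m : ℕ) : ∃ r1 : ℕ, ∀ r : ℕ, r1 ≤ r → k * (m + Nat.log 2 (r + 1)) ≤ r := by
  obtain ⟨L0, hL0⟩ : ∃ L0 : ℕ, L0 = 4 + (k * m + k + 1) := ⟨_, rfl⟩
  refine ⟨k * (m + L0), fun r hr => ?_⟩
  obtain ⟨L, hL⟩ : ∃ L : ℕ, L = Nat.log 2 (r + 1) := ⟨_, rfl⟩
  rw [← hL]
  rcases lt_or_ge L L0 with h | h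
  · exact le_trans (Nat.mul_le_mul_left k (by omega)) hr
  · have h1 : L ^ 2 ≤ 2 ^ L := as0_sq L (by omega)
    have h2 : 2 ^ L ≤ r + 1 := by
      rw [hL]
      exact Nat.pow_log_le_self 2 (by omega)
    have h3 : k * (m + L) + 1 ≤ L ^ 2 := by
      have h4 : k * m + k + 1 ≤ L := by omega
      have h5 : (k * m + k + 1) * L ≤ L * L := Nat.mul_le_mul_right L h4
      have h6 : 1 ≤ L := by omega
      have h7 : (k * m + 1) * 1 ≤ (k * m + 1) * L := Nat.mul_le_mul_left _ h6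
      nlinarith
    omega

private theorem as0_two (x : ℝ≥0∞) (hx : x ≠ ⊤) : ∃ a : ℕ, x ≤ 2 ^ a := by
  obtain ⟨n, hn⟩ := ENNReal.exists_nat_gt hx
  refine ⟨n, hn.le.trans ?_⟩
  have h : n ≤ 2 ^ n := Nat.lt_two_pow_self.le
  exact_mod_cast h

theorem as0 (d : ℕ) {ρ z : ℝ≥0∞} (hρ : ρ < 1) (hz : z ≠ 0) (hz1 : z ≤ 1) {c0 : ℝ≥0} (hc : c0 ≠ 0) :
    ∃ (C1 : ℝ≥0) (Y r1 : ℕ), ∀ r : ℕ, r1 ≤ r → ∃ J : ℕ, J ≤ r ∧
      2 * ((r : ℝ≥0∞) + 1) * ρ ^ J ≤ 24⁻¹ * c0 ∧ (d : ℝ≥0∞) ^ J ≤ C1 * ((r : ℝ≥0∞) + 1) ^ Y ∧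
      z⁻¹ ^ J ≤ C1 * ((r : ℝ≥0∞) + 1) ^ Y := by
  have _ := hz1
  -- k with ρ^k ≤ 1/2
  obtain ⟨k, hk⟩ : ∃ k : ℕ, ρ ^ k < 2⁻¹ :=
    ((ENNReal.tendsto_pow_atTop_nhds_zero_of_lt_one hρ).eventually
      (gt_mem_nhds (by simp : (0 : ℝ≥0∞) < 2⁻¹))).exists
  have hc' : (c0 : ℝ≥0∞) ≠ 0 := by exact_mod_cast hc
  have hpos : (0 : ℝ≥0∞) < 24⁻¹ * c0 / 4 := by
    refine ENNReal.div_pos (mul_ne_zero ?_ hc') (by norm_num)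
    exact ENNReal.inv_ne_zero.mpr (by norm_num)
  obtain ⟨m, hm⟩ : ∃ m : ℕ, (2⁻¹ : ℝ≥0∞) ^ m < 24⁻¹ * c0 / 4 :=
    ((ENNReal.tendsto_pow_atTop_nhds_zero_of_lt_one (by simp : (2⁻¹ : ℝ≥0∞) < 1)).eventually
      (gt_mem_nhds hpos)).exists
  have hm4 : 4 * (2⁻¹ : ℝ≥0∞) ^ m ≤ 24⁻¹ * c0 := by
    calc 4 * (2⁻¹ : ℝ≥0∞) ^ m ≤ 4 * (24⁻¹ * c0 / 4) := mul_le_mul' le_rfl hm.le
      _ = 24⁻¹ * c0 := ENNReal.mul_div_cancel (by norm_num) (by norm_num)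
  obtain ⟨a1, ha1⟩ := as0_two (d : ℝ≥0∞) (ENNReal.natCast_ne_top d)
  obtain ⟨a2, ha2⟩ := as0_two z⁻¹ (ENNReal.inv_ne_top.mpr hz)
  obtain ⟨a, ha⟩ : ∃ a : ℕ, a = a1 + a2 := ⟨_, rfl⟩
  have one_le_two : (1 : ℝ≥0∞) ≤ 2 := by norm_num
  have hda : (d : ℝ≥0∞) ≤ 2 ^ a := ha1.trans (pow_le_pow_right₀ one_le_two (by omega))
  have hza : z⁻¹ ≤ 2 ^ a := ha2.trans (pow_le_pow_right₀ one_le_two (by omega))
  obtain ⟨r1, hr1⟩ := as0_log k m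
  refine ⟨2 ^ (a * (k * m)), a * k, r1, fun r hr => ?_⟩
  obtain ⟨L, hL⟩ : ∃ L : ℕ, L = Nat.log 2 (r + 1) := ⟨_, rfl⟩
  have hJ : k * (m + L) ≤ r := by rw [hL]; exact hr1 r hr
  have hup : (r : ℝ≥0∞) + 1 ≤ 2 ^ (L + 1) := by
    have h1 : r + 1 < 2 ^ (Nat.log 2 (r + 1) + 1) := Nat.lt_pow_succ_log_self (by norm_num) _
    have h2 : r + 1 ≤ 2 ^ (L + 1) := by rw [hL]; exact h1.le
    exact_mod_cast h2
  have hlo : (2 : ℝ≥0∞) ^ L ≤ (r : ℝ≥0∞) + 1 := by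
    have h1 : 2 ^ L ≤ r + 1 := by
      rw [hL]
      exact Nat.pow_log_le_self 2 (by omega)
    exact_mod_cast h1
  have hpw : ∀ x : ℝ≥0∞, x ≤ 2 ^ a →
      x ^ (k * (m + L)) ≤ (((2 : ℝ≥0) ^ (a * (k * m)) : ℝ≥0) : ℝ≥0∞) * ((r : ℝ≥0∞) + 1) ^ (a * k) := by
    intro x hx
    have h1 : (((2 : ℝ≥0) ^ (a * (k * m)) : ℝ≥0) : ℝ≥0∞) = 2 ^ (a * (k * m)) := by
      rw [ENNReal.coe_pow]
      norm_num
    rw [h1]
    calc x ^ (k * (m + L)) ≤ (2 ^ a) ^ (k * (m + L)) := pow_le_pow_left' hx _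
      _ = 2 ^ (a * (k * m)) * (2 ^ L) ^ (a * k) := by
          rw [← pow_mul, ← pow_mul, ← pow_add]
          congr 1
          ring
      _ ≤ 2 ^ (a * (k * m)) * ((r : ℝ≥0∞) + 1) ^ (a * k) := mul_le_mul' le_rfl (pow_le_pow_left' hlo _)
  refine ⟨k * (m + L), hJ, ?_, hpw _ hda, hpw _ hza⟩
  calc 2 * ((r : ℝ≥0∞) + 1) * ρ ^ (k * (m + L)) ≤ 2 * 2 ^ (L + 1) * (2⁻¹) ^ (m + L) := by
        refine mul_le_mul' (mul_le_mul' le_rfl hup) ?_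
        rw [pow_mul]
        exact pow_le_pow_left' hk.le _
    _ = 4 * (2⁻¹) ^ m * (2 ^ L * (2⁻¹) ^ L) := by
        rw [pow_add, pow_add, pow_one]
        ring
    _ = 4 * (2⁻¹) ^ m := by
        rw [← mul_pow, ENNReal.mul_inv_cancel (by norm_num) (by norm_num), one_pow, mul_one]
    _ ≤ 24⁻¹ * c0 := hm4

end Pool.Agent.SAWG
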