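import Pool.Agent.SAWG.INV

/-!
# SAWG module INW: invariance of the class F and of the richness

PROOFS.  Everything is defined by the adjacency relation, invariant kernels and the vertices of lists.  `hit_map`: `List.map_map`.  `Gg_map`: apply `φ` (or its inverse
`φ.symm`) to the walk `r`; it is enough to prove one implication for all `φ` and to use `φ.symm` for the other.  `Gd_map`: field by field (`List.map_dropLast` ...,
the sum in `m` is reindexed by `tsum_vert`).  `FF_map`: apply `φ` / `φ.symm` to `z, rm, rq`.  `uu_map`: `vt`, `sg`, `pst`, `fut` commute with `map`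
(`List.map_take`, `List.map_drop`), `Gg_map`, invariance of `th`.
-/

set_option autoImplicit false

open scoped ENNReal NNReal Classical
open Filter Topology

namespace Pool.Agent.SAWG

open Pool.Agent.SWH (Ker idK adK tp endp Sw endp_nil endp_cons endp_append endp_mem)

variable {V : Type}

theorem InvP_th {D : Dat V} (hν : InvP D.G D.ν) : InvP D.G (th D) := by
  unfold th
  exact InvP_pf (InvP_cv (InvP_cv (InvP_rwk D.G D.d D.J) hν) (InvP_rwk D.G D.d D.J))

private theorem inw_disj {G : SimpleGraph V} (φ : G ≃g G) {A B : List V} (h : ∀ u ∈ A, u ∉ B) :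
    ∀ u ∈ A.map φ, u ∉ B.map φ := by
  intro u hu hu2
  obtain ⟨a, ha, rfl⟩ := List.mem_map.1 hu
  obtain ⟨b, hb, hab⟩ := List.mem_map.1 hu2
  have := φ.injective hab
  subst this
  exact h _ ha hb

private theorem inw_symm {G : SimpleGraph V} (φ : G ≃g G) (U : List V) : (U.map φ).map φ.symm = U := by
  rw [List.map_map]
  conv_rhs => rw [← List.map_id U]
  apply List.map_congr_left
  intro a _
  simp

private theorem inw_symm1 {G : SimpleGraph V} (φ : G ≃g G) (v : V) : φ.symm (φ v) = v := by simp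

private theorem inw_endp {G : SimpleGraph V} (φ : G ≃g G) (x : V) (l : List V) :
    endp (φ x) (l.map φ) = φ (endp x l) := endp_map φ x l

theorem hit_map {G : SimpleGraph V} {T : Ker V} (hT : InvG G T) (φ : G ≃g G) (x : V) (U : List V) :
    hit T (φ x) (U.map φ) = hit T x U := by
  unfold hit
  rw [List.map_map]
  congr 1
  apply List.map_congr_left
  intro a _
  exact hT φ x a

private theorem inw_Gg {D : Dat V} {T : Ker V} (hT : InvG D.G T) (φ : D.G ≃g D.G) {U : List V} {v : V}
    (h : Gg D T U v) : Gg D T (U.map φ) (φ v) := by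
  obtain ⟨r, h1, h2, h3, h4⟩ := h
  refine ⟨r.map φ, ?_, ?_, inw_disj φ h3, ?_⟩
  · have := (chain_map φ (v :: r)).2 h1
    simpa using this
  · rw [List.length_map]; exact h2
  · rw [inw_endp, hit_map hT]; exact h4

theorem Gg_map {D : Dat V} {T : Ker V} (hT : InvG D.G T) (φ : D.G ≃g D.G) (U : List V) (v : V) :
    Gg D T (U.map φ) (φ v) ↔ Gg D T U v := by
  constructor
  · intro h
    have h2 := inw_Gg hT φ.symm h
    rwa [inw_symm, inw_symm1] at h2
  · exact inw_Gg hT φ

private theorem inw_Gd {D : Dat V} (hν : InvP D.G D.ν) (φ : D.G ≃g D.G) {z : V} {rm p rq : List V}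
    (h : Gd D z rm p rq) : Gd D (φ z) (rm.map φ) (p.map φ) (rq.map φ) := by
  have hvs := InvG_vs hν
  have hvb := InvG_vb hν
  constructor
  · have := (chain_map φ (z :: rm)).2 h.cm
    simpa using this
  · rw [List.length_map]; exact h.lm
  · rw [inw_endp, Sw_map]; exact h.sp
  · rw [inw_endp, inw_endp]
    have := (chain_map φ (endp (endp z rm) p :: rq)).2 h.cq
    simpa using this
  · rw [List.length_map]; exact h.lq
  · rw [inw_endp, ← List.map_cons, ← List.map_cons, ← List.map_dropLast]
    exact inw_disj φ h.d1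
  · rw [inw_endp, ← List.map_cons]
    exact inw_disj φ h.d2
  · rw [← List.map_cons, ← List.map_dropLast]
    exact inw_disj φ h.d3
  · rw [inw_endp, inw_endp, inw_endp, ← List.map_cons, hit_map hvs]
    exact h.f1
  · rw [inw_endp, inw_endp, inw_endp, ← List.map_cons, hit_map hvs]
    exact h.f2
  · rw [inw_endp, ← List.map_cons, hit_map hvb]
    exact h.b1
  · rw [inw_endp, inw_endp, ← List.map_cons, hit_map hvb]
    exact h.b2
  · rw [inw_endp, inw_endp, inw_endp]
    refine le_trans (le_of_eq ?_) h.m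
    rw [← tsum_vert φ]
    apply tsum_congr
    intro u
    rw [hvb φ, hvs φ]

theorem Gd_map {D : Dat V} (hν : InvP D.G D.ν) (φ : D.G ≃g D.G) (z : V) (rm p rq : List V) :
    Gd D (φ z) (rm.map φ) (p.map φ) (rq.map φ) ↔ Gd D z rm p rq := by
  constructor
  · intro h
    have h2 := inw_Gd hν φ.symm h
    rwa [inw_symm, inw_symm, inw_symm, inw_symm1] at h2
  · exact inw_Gd hν φ

private theorem inw_FF {D : Dat V} (hν : InvP D.G D.ν) (φ : D.G ≃g D.G) {x : V} {l : List V}
    (h : FF D x l) : FF D (φ x) (l.map φ) := by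
  obtain ⟨z, rm, rq, h1, h2⟩ := h
  refine ⟨φ z, rm.map φ, rq.map φ, ?_, inw_Gd hν φ h2⟩
  rw [inw_endp, h1]

theorem FF_map {D : Dat V} (hν : InvP D.G D.ν) (φ : D.G ≃g D.G) (x : V) (l : List V) :
    FF D (φ x) (l.map φ) ↔ FF D x l := by
  constructor
  · intro h
    have h2 := inw_FF hν φ.symm h
    rwa [inw_symm, inw_symm1] at h2
  · exact inw_FF hν φ

private theorem inw_vt {G : SimpleGraph V} (φ : G ≃g G) (x : V) (l : List V) (i : ℕ) :
    vt (φ x) (l.map φ) i = φ (vt x l i) := by
  unfold vt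
  rw [← List.map_take, inw_endp]

private theorem inw_sg {G : SimpleGraph V} (φ : G ≃g G) (l : List V) (i j : ℕ) :
    sg (l.map φ) i j = (sg l i j).map φ := by
  unfold sg
  rw [List.map_take, List.map_drop]

private theorem inw_pst {G : SimpleGraph V} (φ : G ≃g G) (R : ℕ) (x : V) (l : List V) (a : ℕ) :
    pst R (φ x) (l.map φ) a = (pst R x l a).map φ := by
  unfold pst
  rw [List.map_drop, List.map_take, List.map_cons]

private theorem inw_fut {G : SimpleGraph V} (φ : G ≃g G) (R : ℕ) (x : V) (l : List V) (a : ℕ) :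
    fut R (φ x) (l.map φ) a = (fut R x l a).map φ := by
  unfold fut
  rw [List.map_take, List.map_drop, List.map_cons]

theorem uu_map {D : Dat V} (hν : InvP D.G D.ν) (φ : D.G ≃g D.G) (R : ℕ) (x : V) (l : List V) (a b : ℕ) :
    uu D R (φ x) (l.map φ) a b = uu D R x l a b := by
  unfold uu
  rw [inw_vt, inw_vt, inw_sg, inw_pst, inw_fut, List.length_map]
  simp only [Gg_map (InvG_vs hν) φ, Gg_map (InvG_vb hν) φ, InvP_th hν φ]

theorem UU_map {D : Dat V} (hν : InvP D.G D.ν) (φ : D.G ≃g D.G) (R : ℕ) (x : V) (l : List V) (a : ℕ) :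
    UU D R (φ x) (l.map φ) a = UU D R x l a := by
  unfold UU
  exact Finset.sum_congr rfl (fun b _ => uu_map hν φ R x l a b)

theorem DD_map {D : Dat V} (hν : InvP D.G D.ν) (φ : D.G ≃g D.G) (R : ℕ) (x : V) (l : List V) :
    DD D R (φ x) (l.map φ) = DD D R x l := by
  unfold DD
  rw [List.length_map]
  exact Finset.sum_congr rfl (fun a _ => UU_map hν φ R x l a)

theorem PP_map {D : Dat V} (hν : InvP D.G D.ν) (φ : D.G ≃g D.G) (R : ℕ) (lam : ℝ≥0∞) (x : V) (l : List V) :
    PP D R lam (φ x) (l.map φ) = PP D R lam x l := by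
  unfold PP
  rw [List.length_map]
  exact Finset.prod_congr rfl (fun a _ => by rw [UU_map hν φ R x l a])

theorem InvP_om {D : Dat V} (hν : InvP D.G D.ν) (R H : ℕ) (lam θ : ℝ≥0∞) : InvP D.G (om D R H lam θ) := by
  intro φ x l
  unfold om
  rw [FF_map hν φ, PP_map hν φ, List.length_map, InvP_sa D.G D.z φ x l]

end Pool.Agent.SAWG
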