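import Pool.Agent.SAWG.LER
import Pool.Agent.SAWG.UNI
import Pool.Agent.SAWG.INW

/-!
# SAWG module THK: the thickened connectors

PROOFS.  `th D = pf (cv (cv rwk ν) rwk)`: mass `1 * 1 * 1` (`ms_pf`, `ms_cv`, `ms_rwk`), kernel norm `ρ^J * κ * ρ^J ≤ κ` (`kr_pf`, `kr_cv`, `KB_cmp`, `KB_rwk`,
`KB_le`).  If `th D x l ≠ 0` there is a `k` with `ler x k = l` and `cv (cv rwk ν) rwk x k ≠ 0`, so `k = r1 ++ τ ++ r2`, `|r1| = |r2| = J`, `ν (endp x r1) τ ≠ 0`,
so `|τ| ≤ r` and `τ` is a chain (`cn.le`: `ν ≤ K sa`); `|l| ≤ |k|` and `ler_Sw`.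
`tsum_th`: `tsum_pf`, `tsum_cv` twice.
-/

set_option autoImplicit false

open scoped ENNReal NNReal Classical
open Filter Topology

namespace Pool.Agent.SAWG

open Pool.Agent.SWH (Ker idK adK tp endp Sw endp_nil endp_cons endp_append endp_mem)

variable {V : Type}

theorem tsum_th (D : Dat V) (x : V) (F : List V → ℝ≥0∞) :
    ∑' l, th D x l * F l = ∑' r1, rwk D.G D.d D.J x r1 * ∑' τ, D.ν (endp x r1) τ *
      ∑' r2, rwk D.G D.d D.J (endp (endp x r1) τ) r2 * F (ler x (r1 ++ τ ++ r2)) := by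
  unfold th
  rw [tsum_pf, tsum_cv, tsum_cv]
  refine tsum_congr fun r1 => ?_
  congr 1
  refine tsum_congr fun τ => ?_
  rw [endp_append]

theorem th_ms {D : Dat V} {ρ κ K : ℝ≥0∞} (h : Ug D.G D.d ρ D.z) (hc : Cn D.G D.z D.r κ K D.ν) (x : V) :
    ms (th D) x = 1 := by
  unfold th
  rw [ms_pf, ms_cv (c := 1) (fun y => ms_rwk h D.J y), ms_cv (c := 1) hc.one, ms_rwk h]
  simp

theorem th_KB {D : Dat V} {ρ κ K : ℝ≥0∞} (h : Ug D.G D.d ρ D.z) (hc : Cn D.G D.z D.r κ K D.ν) : KB (kr (th D)) κ := by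
  unfold th
  rw [kr_pf, kr_cv, kr_cv]
  have h1 := KB_cmp (KB_cmp (KB_rwk h D.J) hc.kb) (KB_rwk h D.J)
  refine KB_le ?_ h1
  have h2 : ρ ^ D.J ≤ 1 := pow_le_one' h.rlt.le _
  calc ρ ^ D.J * κ * ρ ^ D.J ≤ 1 * κ * 1 := by gcongr
    _ = κ := by ring

private theorem THK_ex {D : Dat V} {κ K : ℝ≥0∞} (hc : Cn D.G D.z D.r κ K D.ν) {x : V} {l : List V} (h : th D x l ≠ 0) :
    ∃ k : List V, ler x k = l ∧ k.length ≤ rp D ∧ (x :: k).IsChain D.G.Adj := by
  unfold th pf at h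
  obtain ⟨k, hk⟩ : ∃ k, (if ler x k = l then cv (cv (rwk D.G D.d D.J) D.ν) (rwk D.G D.d D.J) x k else 0) ≠ 0 := by
    by_contra hcon
    push Not at hcon
    exact h (by rw [tsum_congr hcon]; simp)
  by_cases hl : ler x k = l
  swap
  · rw [if_neg hl] at hk; exact absurd rfl hk
  rw [if_pos hl] at hk
  refine ⟨k, hl, ?_⟩
  unfold cv at hk
  obtain ⟨i, hi, hi2⟩ := Finset.exists_ne_zero_of_sum_ne_zero hk
  have ha := left_ne_zero_of_mul hi2
  have hb := right_ne_zero_of_mul hi2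
  obtain ⟨j, hj, hj2⟩ := Finset.exists_ne_zero_of_sum_ne_zero ha
  have hc1 := left_ne_zero_of_mul hj2
  have hc2 := right_ne_zero_of_mul hj2
  set k1 := k.take i with hk1
  set r2 := k.drop i with hr2
  set r1 := k1.take j with hr1
  set τ := k1.drop j with hτ
  have e1 : k1 ++ r2 = k := List.take_append_drop i k
  have e2 : r1 ++ τ = k1 := List.take_append_drop j k1
  have hr1' : (x :: r1).IsChain D.G.Adj ∧ r1.length = D.J := by
    by_contra hcon
    exact hc1 (by unfold rwk; rw [if_neg hcon])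
  have hr2' : (endp x k1 :: r2).IsChain D.G.Adj ∧ r2.length = D.J := by
    by_contra hcon
    exact hb (by unfold rwk; rw [if_neg hcon])
  have hτl : τ.length ≤ D.r := hc.len _ _ hc2
  have hτs : (endp x r1 :: τ).IsChain D.G.Adj := by
    have h3 := hc.le (endp x r1) τ
    have h4 : sa D.G D.z (endp x r1) τ ≠ 0 := by
      intro h5
      rw [h5, mul_zero] at h3
      exact hc2 (le_antisymm h3 bot_le)
    by_contra hcon
    apply h4
    unfold sa
    rw [if_neg]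
    intro h6
    exact hcon h6.1
  constructor
  · rw [← e1, ← e2, List.length_append, List.length_append]
    unfold rp
    omega
  · rw [← e1, chain_append_iff]
    refine ⟨?_, hr2'.1⟩
    rw [← e2, chain_append_iff]
    exact ⟨hr1'.1, hτs⟩

theorem th_len {D : Dat V} {κ K : ℝ≥0∞} (hc : Cn D.G D.z D.r κ K D.ν) {x : V} {l : List V} (h : th D x l ≠ 0) :
    l.length ≤ rp D := by
  obtain ⟨k, hk, hk2, -⟩ := THK_ex hc h
  rw [← hk]
  exact (ler_length x k).trans hk2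

theorem th_Sw {D : Dat V} {κ K : ℝ≥0∞} (hc : Cn D.G D.z D.r κ K D.ν) {x : V} {l : List V} (h : th D x l ≠ 0) :
    Sw D.G x l := by
  obtain ⟨k, hk, -, hk3⟩ := THK_ex hc h
  rw [← hk]
  exact ler_Sw hk3

end Pool.Agent.SAWG
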