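import Pool.Agent.SAWG.LRS
import Pool.Agent.SAWG.THK
import Pool.Agent.SAWG.UNI
import Pool.Agent.SAWG.RWK

/-!
# SAWG module THB: the density of the thickened connectors

PROOF.  If `l` is not self-avoiding both sides are 0 (`th_Sw`).  Let `n = l.length`, `v_i = endp x (l.take i)`.  By `tsum_th` with `F` = indicator of `l` the left side is the sum
over `(r1, τ, r2)` with `ler x (r1 ++ τ ++ r2) = l`.  `ν ≠ 0` implies that `τ` is self-avoiding, `|τ| ≤ r`.  By `ler_three` each such triple satisfies (B) `n ≤ 2J`, or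
(A) for some `i ≤ J`, `j` with `i + j ≤ n ≤ i + j + J`, `m`: `(l.drop i).take j = (τ.drop m).take j`, `v_i = endp (endp x r1) (τ.take m)`.
(B): the sum over all triples is at most 1, and `1 ≤ z⁻¹^(2J) * z^n` when `n ≤ 2J` (`z ≤ 1`).
(A): for fixed `i, j, m` and `n2 = |τ| - m - j` (at most `(J+1)^2 (r+1)^2` choices: `i ≤ J`, `n - i - j ≤ J`, `m ≤ r`, `n2 ≤ r`): the sum over `r2` is at most 1; the sum over `r1` of
`rwk` with given end `y1` is at most 1; so the sum is at most `∑_{y1} ∑_τ ν y1 τ [...]`, and `ν y1 τ ≤ K * z^|τ|`, `τ = τ1 ++ s ++ τ3`, `s = (l.drop i).take j` fixed,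
`|τ1| = m`, `τ1` self-avoiding from `y1` to `v_i`, `τ3` self-avoiding from `v_(i+j)`, `|τ3| = n2`: at most `K * (∑_{y1} kr (rs (LN m) sa) y1 v_i) * z^j * al n2 = K * al m v_i * z^j * al n2
≤ K A^2 z^j` (the column sum is the row sum: `h.uni`).  Finally `z^j ≤ z⁻¹^(2J) z^n` because `n ≤ j + 2J`.
-/

set_option autoImplicit false

open scoped ENNReal NNReal Classical
open Filter Topology

namespace Pool.Agent.SAWG

open Pool.Agent.SWH (Ker idK adK tp endp Sw endp_nil endp_cons endp_append endp_mem)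

variable {V : Type}

private theorem THB_chain (G : SimpleGraph V) (x : V) (l1 l2 : List V) :
    (x :: (l1 ++ l2)).IsChain G.Adj ↔
      (x :: l1).IsChain G.Adj ∧ (endp x l1 :: l2).IsChain G.Adj := by
  induction l1 generalizing x with
  | nil =>
    rw [List.nil_append, endp_nil]
    exact ⟨fun h => ⟨List.isChain_singleton x, h⟩, fun h => h.2⟩
  | cons a l ih =>
    rw [List.cons_append, List.isChain_cons_cons, List.isChain_cons_cons, endp_cons, ih a]
    tauto

private theorem THB_split {G : SimpleGraph V} {x : V} {l1 l2 : List V} (h1 : Sw G x (l1 ++ l2)) :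
    Sw G x l1 ∧ Sw G (endp x l1) l2 := by
  obtain ⟨h2, h3⟩ := h1
  rw [THB_chain] at h2
  rw [← List.cons_append, List.nodup_append'] at h3
  refine ⟨⟨h2.1, h3.1⟩, ⟨h2.2, ?_⟩⟩
  rw [List.nodup_cons]
  exact ⟨fun h => h3.2.2 (endp_mem x l1) h, h3.2.1⟩

/-- The event (A) with given parameters. -/
private def THB_E (x : V) (l : List V) (i t m n2 : ℕ) (y1 : V) (τ : List V) : Prop :=
  i + t ≤ l.length ∧ τ.length = m + (l.length - i - t) + n2 ∧
    (l.drop i).take (l.length - i - t) = (τ.drop m).take (l.length - i - t) ∧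
    endp x (l.take i) = endp y1 (τ.take m)

/-- The sum over the connectors with a given middle part. -/
private theorem THB_mid {G : SimpleGraph V} {z K : ℝ≥0∞} {ν : PW V} (hle : ∀ x l, ν x l ≤ K * sa G z x l)
    (x : V) (l : List V) (i t m n2 : ℕ) (y1 : V) :
    ∑' τ, ν y1 τ * (if THB_E x l i t m n2 y1 τ then 1 else 0) ≤
      K * (kr (rs (LN m) (sa G z)) y1 (endp x (l.take i)) *
        (z ^ (l.length - i - t) * al G z n2 (endp (endp x (l.take i)) ((l.drop i).take (l.length - i - t))))) := by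
  set j := l.length - i - t with hj
  set s := (l.drop i).take j with hs
  set y := endp x (l.take i) with hy
  set w := endp y s with hw
  have h1 : ∀ τ : List V, ν y1 τ * (if THB_E x l i t m n2 y1 τ then 1 else 0) ≤
      K * ∑' τ1 : List V, ∑' τ3 : List V, (if τ = τ1 ++ (s ++ τ3) then
        (if endp y1 τ1 = y then rs (LN m) (sa G z) y1 τ1 else 0) *
          (z ^ j * rs (LN n2) (sa G z) w τ3) else 0) := by
    intro τ
    by_cases hE : THB_E x l i t m n2 y1 τ
    · rw [if_pos hE, mul_one]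
      refine (hle y1 τ).trans ?_
      by_cases hSw : Sw G y1 τ
      · gcongr
        obtain ⟨e1, e2, e3, e4⟩ := hE
        rw [← hj] at e2 e3
        have hlen : s.length = j := by
          rw [hs, List.length_take, List.length_drop, hj]
          omega
        have hτ : τ = τ.take m ++ (s ++ (τ.drop m).drop j) := by
          rw [hs, e3, List.take_append_drop, List.take_append_drop]
        have hSw' := hSw
        rw [hτ] at hSw'
        obtain ⟨a1, a2⟩ := THB_split hSw'
        obtain ⟨a3, a4⟩ := THB_split a2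
        refine le_trans ?_ (ENNReal.le_tsum (τ.take m))
        refine le_trans ?_ (ENNReal.le_tsum ((τ.drop m).drop j))
        rw [if_pos hτ, if_pos e4.symm]
        have l1 : (τ.take m).length = m := by
          rw [List.length_take]; omega
        have l3 : ((τ.drop m).drop j).length = n2 := by
          rw [List.length_drop, List.length_drop]; omega
        have hw' : Sw G w ((τ.drop m).drop j) := by
          rw [hw, show y = endp y1 (List.take m τ) from e4]
          exact a4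
        unfold rs LN sa
        rw [if_pos l1, if_pos a1, if_pos l3, if_pos hw', if_pos hSw, l1, l3, e2, pow_add, pow_add, mul_assoc]
      · unfold sa
        rw [if_neg hSw, mul_zero]
        exact zero_le
    · rw [if_neg hE, mul_zero]
      exact zero_le
  refine (ENNReal.tsum_le_tsum h1).trans ?_
  rw [ENNReal.tsum_mul_left]
  gcongr
  rw [ENNReal.tsum_comm]
  have h2 : ∀ τ1 : List V, ∑' (τ : List V), ∑' τ3 : List V, (if τ = τ1 ++ (s ++ τ3) then
        (if endp y1 τ1 = y then rs (LN m) (sa G z) y1 τ1 else 0) *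
          (z ^ j * rs (LN n2) (sa G z) w τ3) else 0) =
      (if endp y1 τ1 = y then rs (LN m) (sa G z) y1 τ1 else 0) *
          (z ^ j * al G z n2 w) := by
    intro τ1
    rw [ENNReal.tsum_comm]
    have h3 : ∀ τ3 : List V, ∑' (τ : List V), (if τ = τ1 ++ (s ++ τ3) then
        (if endp y1 τ1 = y then rs (LN m) (sa G z) y1 τ1 else 0) *
          (z ^ j * rs (LN n2) (sa G z) w τ3) else 0) =
        (if endp y1 τ1 = y then rs (LN m) (sa G z) y1 τ1 else 0) *
          (z ^ j * rs (LN n2) (sa G z) w τ3) := by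
      intro τ3
      exact tsum_ite_eq _ _
    rw [tsum_congr h3, ENNReal.tsum_mul_left, ENNReal.tsum_mul_left]
    rfl
  rw [tsum_congr h2, ENNReal.tsum_mul_right]
  rfl

private theorem THB_one {D : Dat V} {ρ κ K A : ℝ≥0∞} (h : Ug D.G D.d ρ D.z) (hc : Cn D.G D.z D.r κ K D.ν)
    (hA : ∀ n x, n ≤ D.r → al D.G D.z n x ≤ A) (x : V) (l : List V) (i t m n2 : ℕ) (hm : m ≤ D.r)
    (hn : n2 ≤ D.r) :
    ∑' r1, rwk D.G D.d D.J x r1 * ∑' τ, D.ν (endp x r1) τ *
      (if THB_E x l i t m n2 (endp x r1) τ then 1 else 0) ≤ A ^ 2 * K * D.z ^ (l.length - i - t) := by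
  rw [← tsum_kr (rwk D.G D.d D.J) x (fun y1 => ∑' τ, D.ν y1 τ * (if THB_E x l i t m n2 y1 τ then 1 else 0))]
  have h1 : ∀ y1, kr (rwk D.G D.d D.J) x y1 ≤ 1 := by
    intro y1
    rw [← ms_rwk h D.J x, ← row_kr]
    exact ENNReal.le_tsum y1
  calc ∑' y1, kr (rwk D.G D.d D.J) x y1 * ∑' τ, D.ν y1 τ * (if THB_E x l i t m n2 y1 τ then 1 else 0)
      ≤ ∑' y1, 1 * (K * (kr (rs (LN m) (sa D.G D.z)) y1 (endp x (l.take i)) *
          (D.z ^ (l.length - i - t) * A))) := by
        refine ENNReal.tsum_le_tsum fun y1 => mul_le_mul' (h1 y1) ?_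
        refine (THB_mid hc.le x l i t m n2 y1).trans ?_
        gcongr
        exact hA _ _ hn
    _ = K * ((∑' y1, kr (rs (LN m) (sa D.G D.z)) y1 (endp x (l.take i))) *
          (D.z ^ (l.length - i - t) * A)) := by
        simp only [one_mul]
        rw [ENNReal.tsum_mul_left, ENNReal.tsum_mul_right]
    _ = K * (al D.G D.z m (endp x (l.take i)) * (D.z ^ (l.length - i - t) * A)) := by
        have hinv : InvP D.G (rs (LN m) (sa D.G D.z)) :=
          InvP_rs (InvP_sa D.G D.z) (fun φ x l => by unfold LN; rw [List.length_map])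
        rw [← h.uni _ (InvG_kr hinv) (endp x (l.take i)), row_kr]
        rfl
    _ ≤ K * (A * (D.z ^ (l.length - i - t) * A)) := by
        gcongr
        exact hA _ _ hm
    _ = A ^ 2 * K * D.z ^ (l.length - i - t) := by ring

private theorem THB_z {z : ℝ≥0∞} (hz : z ≠ 0) (hz1 : z ≤ 1) {n j J : ℕ} (hn : n ≤ j + 2 * J) :
    z ^ j ≤ z⁻¹ ^ (2 * J) * z ^ n := by
  have ht : z ≠ ⊤ := ne_top_of_le_ne_top ENNReal.one_ne_top hz1
  calc z ^ j = z⁻¹ ^ (2 * J) * z ^ (j + 2 * J) := by
        rw [pow_add, mul_comm (z ^ j), ← mul_assoc, ← mul_pow, ENNReal.inv_mul_cancel hz ht, one_pow, one_mul]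
    _ ≤ z⁻¹ ^ (2 * J) * z ^ n := by
        gcongr z⁻¹ ^ (2 * J) * ?_
        exact pow_le_pow_right_of_le_one' hz1 hn

/-- The triples with loop erasure `l` satisfy (A) or (B). -/
private theorem THB_cover {D : Dat V} {κ K : ℝ≥0∞} (hc : Cn D.G D.z D.r κ K D.ν) (x : V) (l : List V)
    {r1 τ r2 : List V} (h1 : r1.length = D.J) (h2 : r2.length = D.J) (hτ : D.ν (endp x r1) τ ≠ 0)
    (hl : ler x (r1 ++ τ ++ r2) = l) :
    (1 : ℝ≥0∞) ≤ (if l.length ≤ 2 * D.J then 1 else 0) +
      ∑ i ∈ Finset.range (D.J + 1), ∑ t ∈ Finset.range (D.J + 1), ∑ m ∈ Finset.range (D.r + 1),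
        ∑ n2 ∈ Finset.range (D.r + 1), (if THB_E x l i t m n2 (endp x r1) τ then 1 else 0) := by
  have hlen := hc.len _ _ hτ
  have hSw : Sw D.G (endp x r1) τ := by
    by_contra hS
    apply hτ
    have := hc.le (endp x r1) τ
    unfold sa at this
    rw [if_neg hS, mul_zero] at this
    exact le_antisymm this (zero_le)
  rcases ler_three (x := x) (r1 := r1) (τ := τ) (r2 := r2) hSw.2 with hB | ⟨i, j, m, a1, a2, a3, a4, a5, a6⟩
  · rw [hl] at hB
    rw [if_pos (by omega)]
    exact le_self_add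
  · rw [hl] at a2 a3 a5 a6
    refine le_trans ?_ le_add_self
    have hj : l.length - i - (l.length - i - j) = j := by omega
    have hE : THB_E x l i (l.length - i - j) m (τ.length - m - j) (endp x r1) τ := by
      refine ⟨by omega, ?_, ?_, a6⟩
      · rw [hj]; omega
      · rw [hj]; exact a5
    refine le_trans ?_ (Finset.single_le_sum (f := fun i => ∑ t ∈ Finset.range (D.J + 1),
      ∑ m ∈ Finset.range (D.r + 1), ∑ n2 ∈ Finset.range (D.r + 1),
        (if THB_E x l i t m n2 (endp x r1) τ then (1 : ℝ≥0∞) else 0)) (fun _ _ => zero_le)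
        (Finset.mem_range.2 (show i < D.J + 1 by omega)))
    refine le_trans ?_ (Finset.single_le_sum (f := fun t =>
      ∑ m ∈ Finset.range (D.r + 1), ∑ n2 ∈ Finset.range (D.r + 1),
        (if THB_E x l i t m n2 (endp x r1) τ then (1 : ℝ≥0∞) else 0)) (fun _ _ => zero_le)
        (Finset.mem_range.2 (show l.length - i - j < D.J + 1 by omega)))
    refine le_trans ?_ (Finset.single_le_sum (f := fun m => ∑ n2 ∈ Finset.range (D.r + 1),
        (if THB_E x l i (l.length - i - j) m n2 (endp x r1) τ then (1 : ℝ≥0∞) else 0)) (fun _ _ => zero_le)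
        (Finset.mem_range.2 (show m < D.r + 1 by omega)))
    refine le_trans ?_ (Finset.single_le_sum (f := fun n2 =>
        (if THB_E x l i (l.length - i - j) m n2 (endp x r1) τ then (1 : ℝ≥0∞) else 0)) (fun _ _ => zero_le)
        (Finset.mem_range.2 (show τ.length - m - j < D.r + 1 by omega)))
    rw [if_pos hE]

theorem thb {D : Dat V} {ρ κ K A : ℝ≥0∞} (h : Ug D.G D.d ρ D.z) (hc : Cn D.G D.z D.r κ K D.ν)
    (hA : ∀ n x, n ≤ D.r → al D.G D.z n x ≤ A) (x : V) (l : List V) :
    th D x l ≤ ((1 + ((D.J : ℝ≥0∞) + 1) ^ 2 * ((D.r : ℝ≥0∞) + 1) ^ 2 * A ^ 2 * K) * D.z⁻¹ ^ (2 * D.J)) *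
      sa D.G D.z x l := by
  by_cases hSw : Sw D.G x l
  swap
  · have h0 : th D x l = 0 := by
      by_contra h0
      exact hSw (th_Sw hc h0)
    rw [h0]
    exact zero_le
  have hsa : sa D.G D.z x l = D.z ^ l.length := by
    unfold sa
    rw [if_pos hSw]
  rw [hsa]
  have e1 : th D x l = ∑' k, th D x k * (if k = l then 1 else 0) := by
    rw [tsum_eq_single l]
    · rw [if_pos rfl, mul_one]
    · intro k hk
      rw [if_neg hk, mul_zero]
  rw [e1, tsum_th D x (fun k => if k = l then 1 else 0)]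
  -- the bound of the sum over `r2`
  have h2 : ∀ r1 τ, rwk D.G D.d D.J x r1 ≠ 0 → D.ν (endp x r1) τ ≠ 0 →
      ∑' r2, rwk D.G D.d D.J (endp (endp x r1) τ) r2 *
        (if ler x (r1 ++ τ ++ r2) = l then (1 : ℝ≥0∞) else 0) ≤
      (if l.length ≤ 2 * D.J then 1 else 0) +
      ∑ i ∈ Finset.range (D.J + 1), ∑ t ∈ Finset.range (D.J + 1), ∑ m ∈ Finset.range (D.r + 1),
        ∑ n2 ∈ Finset.range (D.r + 1), (if THB_E x l i t m n2 (endp x r1) τ then (1 : ℝ≥0∞) else 0) := by
    intro r1 τ hr1 hτ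
    have hl1 : r1.length = D.J := by
      by_contra hne
      apply hr1
      unfold rwk
      rw [if_neg (fun hh => hne hh.2)]
    set B : ℝ≥0∞ := (if l.length ≤ 2 * D.J then 1 else 0) +
      ∑ i ∈ Finset.range (D.J + 1), ∑ t ∈ Finset.range (D.J + 1), ∑ m ∈ Finset.range (D.r + 1),
        ∑ n2 ∈ Finset.range (D.r + 1), (if THB_E x l i t m n2 (endp x r1) τ then (1 : ℝ≥0∞) else 0) with hB
    calc ∑' r2, rwk D.G D.d D.J (endp (endp x r1) τ) r2 *
        (if ler x (r1 ++ τ ++ r2) = l then (1 : ℝ≥0∞) else 0)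
        ≤ ∑' r2, rwk D.G D.d D.J (endp (endp x r1) τ) r2 * B := by
          refine ENNReal.tsum_le_tsum fun r2 => ?_
          by_cases hr2 : rwk D.G D.d D.J (endp (endp x r1) τ) r2 = 0
          · rw [hr2, zero_mul, zero_mul]
          · gcongr
            split_ifs with hl
            · refine THB_cover hc x l hl1 ?_ hτ hl
              by_contra hne
              apply hr2
              unfold rwk
              rw [if_neg (fun hh => hne hh.2)]
            · exact zero_le
      _ = 1 * B := by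
          rw [ENNReal.tsum_mul_right]
          congr 1
          exact ms_rwk h D.J _
      _ = B := one_mul B
  have h3 : ∑' r1, rwk D.G D.d D.J x r1 * ∑' τ, D.ν (endp x r1) τ *
      ∑' r2, rwk D.G D.d D.J (endp (endp x r1) τ) r2 *
        (if ler x (r1 ++ τ ++ r2) = l then (1 : ℝ≥0∞) else 0) ≤
      ∑' r1, rwk D.G D.d D.J x r1 * ∑' τ, D.ν (endp x r1) τ * ((if l.length ≤ 2 * D.J then 1 else 0) +
      ∑ i ∈ Finset.range (D.J + 1), ∑ t ∈ Finset.range (D.J + 1), ∑ m ∈ Finset.range (D.r + 1),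
        ∑ n2 ∈ Finset.range (D.r + 1), (if THB_E x l i t m n2 (endp x r1) τ then (1 : ℝ≥0∞) else 0)) := by
    refine ENNReal.tsum_le_tsum fun r1 => ?_
    by_cases hr1 : rwk D.G D.d D.J x r1 = 0
    · rw [hr1, zero_mul, zero_mul]
    · gcongr rwk D.G D.d D.J x r1 * ?_
      refine ENNReal.tsum_le_tsum fun τ => ?_
      by_cases hτ : D.ν (endp x r1) τ = 0
      · rw [hτ, zero_mul, zero_mul]
      · gcongr D.ν (endp x r1) τ * ?_
        exact h2 r1 τ hr1 hτ
  refine h3.trans ?_
  -- expand the sums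
  have h4 : ∑' r1, rwk D.G D.d D.J x r1 * ∑' τ, D.ν (endp x r1) τ * ((if l.length ≤ 2 * D.J then 1 else 0) +
      ∑ i ∈ Finset.range (D.J + 1), ∑ t ∈ Finset.range (D.J + 1), ∑ m ∈ Finset.range (D.r + 1),
        ∑ n2 ∈ Finset.range (D.r + 1), (if THB_E x l i t m n2 (endp x r1) τ then (1 : ℝ≥0∞) else 0)) =
      (if l.length ≤ 2 * D.J then 1 else 0) +
      ∑ i ∈ Finset.range (D.J + 1), ∑ t ∈ Finset.range (D.J + 1), ∑ m ∈ Finset.range (D.r + 1),
        ∑ n2 ∈ Finset.range (D.r + 1), ∑' r1, rwk D.G D.d D.J x r1 * ∑' τ, D.ν (endp x r1) τ *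
          (if THB_E x l i t m n2 (endp x r1) τ then (1 : ℝ≥0∞) else 0) := by
    have h5 : ∀ r1 : List V, ∑' τ, D.ν (endp x r1) τ * ((if l.length ≤ 2 * D.J then 1 else 0) +
      ∑ i ∈ Finset.range (D.J + 1), ∑ t ∈ Finset.range (D.J + 1), ∑ m ∈ Finset.range (D.r + 1),
        ∑ n2 ∈ Finset.range (D.r + 1), (if THB_E x l i t m n2 (endp x r1) τ then (1 : ℝ≥0∞) else 0)) =
        (if l.length ≤ 2 * D.J then 1 else 0) +
        ∑ i ∈ Finset.range (D.J + 1), ∑ t ∈ Finset.range (D.J + 1), ∑ m ∈ Finset.range (D.r + 1),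
        ∑ n2 ∈ Finset.range (D.r + 1), ∑' τ, D.ν (endp x r1) τ *
          (if THB_E x l i t m n2 (endp x r1) τ then (1 : ℝ≥0∞) else 0) := by
      intro r1
      simp_rw [mul_add, Finset.mul_sum]
      rw [ENNReal.tsum_add, ENNReal.tsum_mul_right]
      have : ∑' τ, D.ν (endp x r1) τ = 1 := hc.one _
      rw [this, one_mul]
      congr 1
      rw [Summable.tsum_finsetSum fun i _ => ENNReal.summable]
      refine Finset.sum_congr rfl fun i _ => ?_
      rw [Summable.tsum_finsetSum fun i _ => ENNReal.summable]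
      refine Finset.sum_congr rfl fun t _ => ?_
      rw [Summable.tsum_finsetSum fun i _ => ENNReal.summable]
      refine Finset.sum_congr rfl fun m _ => ?_
      rw [Summable.tsum_finsetSum fun i _ => ENNReal.summable]
    simp_rw [h5, mul_add, Finset.mul_sum]
    rw [ENNReal.tsum_add, ENNReal.tsum_mul_right]
    have : ∑' r1, rwk D.G D.d D.J x r1 = 1 := ms_rwk h _ _
    rw [this, one_mul]
    congr 1
    rw [Summable.tsum_finsetSum fun i _ => ENNReal.summable]
    refine Finset.sum_congr rfl fun i _ => ?_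
    rw [Summable.tsum_finsetSum fun i _ => ENNReal.summable]
    refine Finset.sum_congr rfl fun t _ => ?_
    rw [Summable.tsum_finsetSum fun i _ => ENNReal.summable]
    refine Finset.sum_congr rfl fun m _ => ?_
    rw [Summable.tsum_finsetSum fun i _ => ENNReal.summable]
  rw [h4]
  -- the bounds of the terms
  have h6 : (if l.length ≤ 2 * D.J then (1 : ℝ≥0∞) else 0) ≤ D.z⁻¹ ^ (2 * D.J) * D.z ^ l.length := by
    split_ifs with hn
    · have := THB_z h.zpos h.zle (n := l.length) (j := 0) (J := D.J) (by omega)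
      rwa [pow_zero] at this
    · exact zero_le
  have h7 : ∀ i t m n2 : ℕ, i < D.J + 1 → t < D.J + 1 → m < D.r + 1 → n2 < D.r + 1 →
      ∑' r1, rwk D.G D.d D.J x r1 * ∑' τ, D.ν (endp x r1) τ *
          (if THB_E x l i t m n2 (endp x r1) τ then (1 : ℝ≥0∞) else 0) ≤
      A ^ 2 * K * (D.z⁻¹ ^ (2 * D.J) * D.z ^ l.length) := by
    intro i t m n2 hi ht hm hn2
    refine (THB_one h hc hA x l i t m n2 (by omega) (by omega)).trans ?_
    gcongr
    exact THB_z h.zpos h.zle (by omega)
  calc (if l.length ≤ 2 * D.J then (1 : ℝ≥0∞) else 0) +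
      ∑ i ∈ Finset.range (D.J + 1), ∑ t ∈ Finset.range (D.J + 1), ∑ m ∈ Finset.range (D.r + 1),
        ∑ n2 ∈ Finset.range (D.r + 1), ∑' r1, rwk D.G D.d D.J x r1 * ∑' τ, D.ν (endp x r1) τ *
          (if THB_E x l i t m n2 (endp x r1) τ then (1 : ℝ≥0∞) else 0)
      ≤ D.z⁻¹ ^ (2 * D.J) * D.z ^ l.length +
        ∑ i ∈ Finset.range (D.J + 1), ∑ t ∈ Finset.range (D.J + 1), ∑ m ∈ Finset.range (D.r + 1),
        ∑ n2 ∈ Finset.range (D.r + 1), A ^ 2 * K * (D.z⁻¹ ^ (2 * D.J) * D.z ^ l.length) := by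
        refine add_le_add h6 ?_
        refine Finset.sum_le_sum fun i hi => Finset.sum_le_sum fun t ht => Finset.sum_le_sum fun m hm =>
          Finset.sum_le_sum fun n2 hn2 => ?_
        exact h7 i t m n2 (Finset.mem_range.1 hi) (Finset.mem_range.1 ht) (Finset.mem_range.1 hm)
          (Finset.mem_range.1 hn2)
    _ = ((1 + ((D.J : ℝ≥0∞) + 1) ^ 2 * ((D.r : ℝ≥0∞) + 1) ^ 2 * A ^ 2 * K) * D.z⁻¹ ^ (2 * D.J)) *
        D.z ^ l.length := by
        simp only [Finset.sum_const, Finset.card_range, nsmul_eq_mul, Nat.cast_add, Nat.cast_one]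
        ring

end Pool.Agent.SAWG
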