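import Pool.Agent.SAWG.AS0
import Pool.Agent.SAWG.THB

/-!
# SAWG module AS1: good data at every large scale

PROOF.  `C, s0` from `hx`; we may take `C ≥ 1`.  For `s` large let `r = ⌊C s⌋₊` (`Cn` is monotone in the length bound), `ν` the connector, `K = exp (x s)`, `J` from `as0` with `c0 = (1-ρ)^2/2`, `κ = exp (-s)`.
`Sc`: `ug`, `cn`, `eta` clear; `k1`: `thb` with `A = C' (1+ε')^r` (`h.alg` for a small `ε'`; `al n ≤ C' (1+ε')^n`), `K1 = (1 + (J+1)^2 (r+1)^2 A^2 K) z⁻¹^(2J)`; `c0l`, `c0p`: `ρ < 1`; `den`: `as0`; `jr`: `J ≤ r`.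
`K1 ≤ exp ((x+ε) s)` for large `s`: `1 ≤ K`, so `K1 ≤ 2 (r+1)^4 C'^2 (1+ε')^(2r) (C1 (r+1)^Y)^2 exp (x s)`, `(1+ε')^(2r) ≤ exp (2 ε' C s)`, `2 ε' C ≤ ε/2`, and a polynomial in `s` is `≤ exp (ε s/2)`.
`d^(2J) ≤ (C1 (r+1)^Y)^2`, `B0 = 96 (r+1)^2 (J+1) d^J`, `r + 2J + 1 ≤ 3 r + 1`: polynomial in `s`.
-/

set_option autoImplicit false

open scoped ENNReal NNReal Classical
open Filter Topology

namespace Pool.Agent.SAWG

open Pool.Agent.SWH (Ker idK adK tp endp Sw endp_nil endp_cons endp_append endp_mem)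

variable {V : Type}

/-- The constant of the density of good positions. -/
noncomputable def cz (ρ : ℝ≥0∞) : ℝ≥0 := ((1 - ρ) ^ 2 / 2).toNNReal

/-- The data of a scale. -/
noncomputable def dt (G : SimpleGraph V) (d : ℕ) (z : ℝ≥0∞) (ν : PW V) (r J : ℕ) : Dat V := ⟨G, d, z, 24⁻¹, ν, r, J⟩

private theorem AS1_ev {M a b : ℝ} (hM : 0 ≤ M) (ha : 0 ≤ a) (hb : 0 < b) (N : ℕ) :
    ∀ᶠ s : ℝ in atTop, M * (a * s + 1) ^ N ≤ Real.exp (b * s) := by
  have h := isLittleO_pow_exp_pos_mul_atTop N hb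
  have hc : (0 : ℝ) < 1 / (M * (a + 1) ^ N + 1) := by positivity
  filter_upwards [h.def hc, eventually_ge_atTop (1 : ℝ)] with s h1 hs
  have hs0 : (0 : ℝ) ≤ s := by linarith
  rw [Real.norm_of_nonneg (by positivity), Real.norm_of_nonneg (Real.exp_pos _).le] at h1
  have h2 : (a * s + 1) ^ N ≤ (a + 1) ^ N * s ^ N := by
    rw [← mul_pow]
    refine pow_le_pow_left₀ (by positivity) ?_ N
    nlinarith
  calc M * (a * s + 1) ^ N ≤ M * ((a + 1) ^ N * s ^ N) := mul_le_mul_of_nonneg_left h2 hM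
    _ = (M * (a + 1) ^ N) * s ^ N := by ring
    _ ≤ (M * (a + 1) ^ N) * (1 / (M * (a + 1) ^ N + 1) * Real.exp (b * s)) :=
        mul_le_mul_of_nonneg_left h1 (by positivity)
    _ = ((M * (a + 1) ^ N) / (M * (a + 1) ^ N + 1)) * Real.exp (b * s) := by ring
    _ ≤ 1 * Real.exp (b * s) := by
        refine mul_le_mul_of_nonneg_right ?_ (Real.exp_pos _).le
        rw [div_le_one (by positivity)]
        linarith
    _ = Real.exp (b * s) := one_mul _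

private theorem AS1_cz {ρ : ℝ≥0∞} (hρ : ρ < 1) : cz ρ ≠ 0 ∧ 2 * ((cz ρ : ℝ≥0) : ℝ≥0∞) ≤ (1 - ρ) ^ 2 := by
  have h1 : (1 - ρ) ≠ 0 := (tsub_pos_of_lt hρ).ne'
  have h2 : (1 - ρ) ≤ 1 := tsub_le_self
  have h3 : (1 - ρ) ^ 2 / 2 ≠ ⊤ := by
    refine ENNReal.div_ne_top (ENNReal.pow_ne_top (ne_top_of_le_ne_top ENNReal.one_ne_top h2)) (by norm_num)
  have h4 : ((cz ρ : ℝ≥0) : ℝ≥0∞) = (1 - ρ) ^ 2 / 2 := by
    unfold cz
    exact ENNReal.coe_toNNReal h3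
  constructor
  · intro h0
    rw [h0] at h4
    have h5 : (1 - ρ) ^ 2 / 2 ≠ 0 := by
      rw [Ne, ENNReal.div_eq_zero_iff]
      push Not
      exact ⟨pow_ne_zero 2 h1, by norm_num⟩
    exact h5 h4.symm
  · rw [h4]
    exact ENNReal.mul_div_le

private theorem AS1_cn {G : SimpleGraph V} {z : ℝ≥0∞} {r r' : ℕ} {κ K : ℝ≥0∞} {ν : PW V} (h : Cn G z r' κ K ν)
    (hr : r' ≤ r) : Cn G z r κ K ν where
  inv := h.inv
  one := h.one
  len := fun x l hl => (h.len x l hl).trans hr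
  le := h.le
  kb := h.kb

theorem as1 {G : SimpleGraph V} {d : ℕ} {ρ z : ℝ≥0∞} (h : Ug G d ρ z) {x : ℝ} (hx0 : 0 ≤ x) (hx : Cx G z x) {ε : ℝ}
    (hε : 0 < ε) : ∃ s1 : ℝ, ∀ s : ℝ, s1 ≤ s → ∃ (ν : PW V) (r J : ℕ) (K K1 : ℝ≥0∞),
      Sc (dt G d z ν r J) ρ (ENNReal.ofReal (Real.exp (-s))) K K1 (cz ρ) ∧
      K1 ≤ ENNReal.ofReal (Real.exp ((x + ε) * s)) ∧
      (d : ℝ≥0∞) ^ (2 * J) ≤ ENNReal.ofReal (Real.exp (ε * s)) ∧
      B0 (dt G d z ν r J) ≤ ENNReal.ofReal (Real.exp (ε * s)) ∧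
      (r : ℝ) + 2 * J + 2 ≤ Real.exp (ε * s) := by
  obtain ⟨C0, s0, hC0, hcx⟩ := hx
  obtain ⟨hcz, hcz2⟩ := AS1_cz h.rlt
  obtain ⟨C1, Y, r1, has⟩ := as0 d h.rlt h.zpos h.zle hcz
  set C : ℝ := max C0 1 with hC
  have hC1 : (1 : ℝ) ≤ C := le_max_right _ _
  have hCp : (0 : ℝ) < C := by linarith
  set δ : ℝ := ε / (8 * C) with hδ
  have hδp : 0 < δ := by positivity
  have hδn : ENNReal.ofReal δ ≠ 0 := by simpa using hδp
  obtain ⟨Ca, hCa, hal⟩ := h.alg (ENNReal.ofReal δ) hδn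
  have hm : (1 + Ca ^ 2) ≠ ⊤ := by
    simp only [ne_eq, ENNReal.add_eq_top, ENNReal.one_ne_top, false_or]
    exact ENNReal.pow_ne_top hCa
  set m : ℝ := (1 + Ca ^ 2).toReal with hmd
  have hm0 : 0 ≤ m := ENNReal.toReal_nonneg
  have hme : 1 + Ca ^ 2 = ENNReal.ofReal m := (ENNReal.ofReal_toReal hm).symm
  have hC1e : ((C1 : ℝ≥0) : ℝ≥0∞) = ENNReal.ofReal (C1 : ℝ) := by simp
  have e1 := AS1_ev (M := m * (C1 : ℝ) ^ 2) (a := C) (b := ε / 2) (by positivity) hCp.le (by positivity) (4 + 2 * Y)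
  have e2 := AS1_ev (M := (C1 : ℝ) ^ 2) (a := C) (b := ε) (by positivity) hCp.le hε (2 * Y)
  have e3 := AS1_ev (M := 96 * (C1 : ℝ)) (a := C) (b := ε) (by positivity) hCp.le hε (Y + 3)
  have e4 := AS1_ev (M := 3) (a := C) (b := ε) (by positivity) hCp.le hε 1
  have hev : ∀ᶠ s : ℝ in atTop, ∃ (ν : PW V) (r J : ℕ) (K K1 : ℝ≥0∞),
      Sc (dt G d z ν r J) ρ (ENNReal.ofReal (Real.exp (-s))) K K1 (cz ρ) ∧
      K1 ≤ ENNReal.ofReal (Real.exp ((x + ε) * s)) ∧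
      (d : ℝ≥0∞) ^ (2 * J) ≤ ENNReal.ofReal (Real.exp (ε * s)) ∧
      B0 (dt G d z ν r J) ≤ ENNReal.ofReal (Real.exp (ε * s)) ∧
      (r : ℝ) + 2 * J + 2 ≤ Real.exp (ε * s) := by
    filter_upwards [e1, e2, e3, e4, eventually_ge_atTop s0, eventually_ge_atTop (1 : ℝ),
      eventually_ge_atTop (r1 : ℝ)] with s h1 h2 h3 h4 hs0 hs1 hsr
    have hsp : (0 : ℝ) ≤ s := by linarith
    obtain ⟨r', ν, hr', hcn'⟩ := hcx s hs0
    set r : ℕ := ⌊C * s⌋₊ with hr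
    have hrl : (r : ℝ) ≤ C * s := Nat.floor_le (by positivity)
    have hr'r : r' ≤ r := by
      refine Nat.le_floor (hr'.trans ?_)
      exact mul_le_mul_of_nonneg_right (le_max_left _ _) hsp
    have hr1 : r1 ≤ r := by
      refine Nat.le_floor (hsr.trans ?_)
      nlinarith
    obtain ⟨J, hJr, hden, hdJ, hzJ⟩ := has r hr1
    have hcn := AS1_cn hcn' hr'r
    set K : ℝ≥0∞ := ENNReal.ofReal (Real.exp (x * s)) with hK
    set A : ℝ≥0∞ := Ca * (1 + ENNReal.ofReal δ) ^ r with hA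
    set K1 : ℝ≥0∞ := (1 + ((J : ℝ≥0∞) + 1) ^ 2 * ((r : ℝ≥0∞) + 1) ^ 2 * A ^ 2 * K) * z⁻¹ ^ (2 * J) with hK1
    have hRb : (r : ℝ≥0∞) + 1 ≤ ENNReal.ofReal (C * s + 1) := by
      have : (r : ℝ≥0∞) + 1 = ENNReal.ofReal ((r : ℝ) + 1) := by
        rw [ENNReal.ofReal_add (by positivity) (by norm_num)]
        simp
      rw [this]
      exact ENNReal.ofReal_le_ofReal (by linarith)
    have hJr' : (J : ℝ≥0∞) + 1 ≤ (r : ℝ≥0∞) + 1 := by gcongr
    have hJb : (J : ℝ≥0∞) + 1 ≤ ENNReal.ofReal (C * s + 1) := hJr'.trans hRb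
    have hCs : (0 : ℝ) ≤ C * s + 1 := by positivity
    have hK1' : (1 : ℝ≥0∞) ≤ K := by
      rw [hK, ← ENNReal.ofReal_one]
      refine ENNReal.ofReal_le_ofReal ?_
      have : 0 ≤ x * s := mul_nonneg hx0 hsp
      exact Real.one_le_exp this
    have hE1 : (1 : ℝ≥0∞) ≤ (1 + ENNReal.ofReal δ) ^ (2 * r) := one_le_pow₀ (by simp)
    have hEb : (1 + ENNReal.ofReal δ) ^ (2 * r) ≤ ENNReal.ofReal (Real.exp (ε / 4 * s)) := by
      have : 1 + ENNReal.ofReal δ = ENNReal.ofReal (1 + δ) := by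
        rw [ENNReal.ofReal_add (by norm_num) hδp.le]; simp
      rw [this, ← ENNReal.ofReal_pow (by positivity)]
      refine ENNReal.ofReal_le_ofReal ?_
      calc (1 + δ) ^ (2 * r) ≤ (Real.exp δ) ^ (2 * r) := by
            refine pow_le_pow_left₀ (by positivity) ?_ _
            have := Real.add_one_le_exp δ
            linarith
        _ = Real.exp (2 * r * δ) := by
            rw [← Real.exp_nat_mul]; push_cast; ring_nf
        _ ≤ Real.exp (ε / 4 * s) := by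
            refine Real.exp_le_exp.2 ?_
            calc 2 * (r : ℝ) * δ ≤ 2 * (C * s) * δ := by
                  refine mul_le_mul_of_nonneg_right ?_ hδp.le
                  linarith
              _ = ε / 4 * s := by
                  rw [hδ]; field_simp; ring
    have hKb : K1 ≤ ENNReal.ofReal (Real.exp ((x + ε) * s)) := by
      have hs1 : 1 + ((J : ℝ≥0∞) + 1) ^ 2 * ((r : ℝ≥0∞) + 1) ^ 2 * A ^ 2 * K ≤
          (1 + Ca ^ 2) * (((r : ℝ≥0∞) + 1) ^ 4 * (1 + ENNReal.ofReal δ) ^ (2 * r) * K) := by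
        have hr1' : (1 : ℝ≥0∞) ≤ ((r : ℝ≥0∞) + 1) ^ 4 := one_le_pow₀ (by simp)
        have hone : (1 : ℝ≥0∞) ≤ ((r : ℝ≥0∞) + 1) ^ 4 * (1 + ENNReal.ofReal δ) ^ (2 * r) * K := by
          calc (1 : ℝ≥0∞) = 1 * 1 * 1 := by simp
            _ ≤ _ := mul_le_mul' (mul_le_mul' hr1' hE1) hK1'
        have htwo : ((J : ℝ≥0∞) + 1) ^ 2 * ((r : ℝ≥0∞) + 1) ^ 2 * A ^ 2 * K ≤
            Ca ^ 2 * (((r : ℝ≥0∞) + 1) ^ 4 * (1 + ENNReal.ofReal δ) ^ (2 * r) * K) := by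
          calc ((J : ℝ≥0∞) + 1) ^ 2 * ((r : ℝ≥0∞) + 1) ^ 2 * A ^ 2 * K
              ≤ ((r : ℝ≥0∞) + 1) ^ 2 * ((r : ℝ≥0∞) + 1) ^ 2 * A ^ 2 * K := by gcongr
            _ = Ca ^ 2 * (((r : ℝ≥0∞) + 1) ^ 4 * (1 + ENNReal.ofReal δ) ^ (2 * r) * K) := by
                rw [hA, pow_mul']; ring
        calc 1 + ((J : ℝ≥0∞) + 1) ^ 2 * ((r : ℝ≥0∞) + 1) ^ 2 * A ^ 2 * K
            ≤ ((r : ℝ≥0∞) + 1) ^ 4 * (1 + ENNReal.ofReal δ) ^ (2 * r) * K +
              Ca ^ 2 * (((r : ℝ≥0∞) + 1) ^ 4 * (1 + ENNReal.ofReal δ) ^ (2 * r) * K) := add_le_add hone htwo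
          _ = _ := by ring
      have hs2 : z⁻¹ ^ (2 * J) ≤ ((C1 : ℝ≥0∞) * (ENNReal.ofReal (C * s + 1)) ^ Y) ^ 2 := by
        rw [pow_mul']
        refine pow_le_pow_left₀ (by positivity) (hzJ.trans ?_) 2
        gcongr
      calc K1 ≤ ((1 + Ca ^ 2) * (((r : ℝ≥0∞) + 1) ^ 4 * (1 + ENNReal.ofReal δ) ^ (2 * r) * K)) *
            ((C1 : ℝ≥0∞) * (ENNReal.ofReal (C * s + 1)) ^ Y) ^ 2 := by
              rw [hK1]; exact mul_le_mul' hs1 hs2
        _ ≤ ((1 + Ca ^ 2) * ((ENNReal.ofReal (C * s + 1)) ^ 4 * ENNReal.ofReal (Real.exp (ε / 4 * s)) * K)) *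
            ((C1 : ℝ≥0∞) * (ENNReal.ofReal (C * s + 1)) ^ Y) ^ 2 := by gcongr
        _ = ENNReal.ofReal ((m * ((C * s + 1) ^ 4 * Real.exp (ε / 4 * s) * Real.exp (x * s))) *
            ((C1 : ℝ) * (C * s + 1) ^ Y) ^ 2) := by
              rw [hme, hC1e, hK]
              rw [ENNReal.ofReal_mul (by positivity), ENNReal.ofReal_mul hm0, ENNReal.ofReal_mul (by positivity),
                ENNReal.ofReal_mul (by positivity), ENNReal.ofReal_pow (by positivity), ENNReal.ofReal_pow (by positivity),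
                ENNReal.ofReal_mul (by positivity), ENNReal.ofReal_pow (by positivity)]
        _ ≤ ENNReal.ofReal (Real.exp ((x + ε) * s)) := by
              refine ENNReal.ofReal_le_ofReal ?_
              calc (m * ((C * s + 1) ^ 4 * Real.exp (ε / 4 * s) * Real.exp (x * s))) *
                    ((C1 : ℝ) * (C * s + 1) ^ Y) ^ 2
                  = (m * (C1 : ℝ) ^ 2 * (C * s + 1) ^ (4 + 2 * Y)) * (Real.exp (ε / 4 * s) * Real.exp (x * s)) := by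
                    rw [pow_add, pow_mul' (C * s + 1) 2 Y]; ring
                _ ≤ Real.exp (ε / 2 * s) * (Real.exp (ε / 4 * s) * Real.exp (x * s)) :=
                    mul_le_mul_of_nonneg_right h1 (by positivity)
                _ = Real.exp (ε / 2 * s + (ε / 4 * s + x * s)) := by rw [Real.exp_add, Real.exp_add]
                _ ≤ Real.exp ((x + ε) * s) := by
                    refine Real.exp_le_exp.2 ?_
                    have : 0 ≤ ε * s := by positivity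
                    nlinarith
    have hdb : (d : ℝ≥0∞) ^ (2 * J) ≤ ENNReal.ofReal (Real.exp (ε * s)) := by
      calc (d : ℝ≥0∞) ^ (2 * J) = ((d : ℝ≥0∞) ^ J) ^ 2 := by rw [pow_mul']
        _ ≤ ((C1 : ℝ≥0∞) * (ENNReal.ofReal (C * s + 1)) ^ Y) ^ 2 := by
            refine pow_le_pow_left₀ (by positivity) (hdJ.trans ?_) 2
            gcongr
        _ = ENNReal.ofReal (((C1 : ℝ) * (C * s + 1) ^ Y) ^ 2) := by
            rw [hC1e, ENNReal.ofReal_pow (by positivity), ENNReal.ofReal_mul (by positivity),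
              ENNReal.ofReal_pow (by positivity)]
        _ ≤ ENNReal.ofReal (Real.exp (ε * s)) := by
            refine ENNReal.ofReal_le_ofReal ?_
            calc ((C1 : ℝ) * (C * s + 1) ^ Y) ^ 2 = (C1 : ℝ) ^ 2 * (C * s + 1) ^ (2 * Y) := by
                  rw [pow_mul' (C * s + 1) 2 Y]; ring
              _ ≤ _ := h2
    have hBb : B0 (dt G d z ν r J) ≤ ENNReal.ofReal (Real.exp (ε * s)) := by
      have hB : B0 (dt G d z ν r J) =
          4 * ((r : ℝ≥0∞) + 1) ^ 2 * ((J : ℝ≥0∞) + 1) * (d : ℝ≥0∞) ^ J * 24 := by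
        simp [B0, dt]
      rw [hB]
      calc 4 * ((r : ℝ≥0∞) + 1) ^ 2 * ((J : ℝ≥0∞) + 1) * (d : ℝ≥0∞) ^ J * 24
          ≤ 4 * (ENNReal.ofReal (C * s + 1)) ^ 2 * (ENNReal.ofReal (C * s + 1)) *
            ((C1 : ℝ≥0∞) * (ENNReal.ofReal (C * s + 1)) ^ Y) * 24 := by
            refine mul_le_mul' (mul_le_mul' (mul_le_mul' (mul_le_mul' le_rfl ?_) hJb) (hdJ.trans ?_)) le_rfl
            · exact pow_le_pow_left₀ (by positivity) hRb 2
            · gcongr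
        _ = ENNReal.ofReal (96 * (C1 : ℝ) * (C * s + 1) ^ (Y + 3)) := by
            rw [hC1e, ENNReal.ofReal_mul (by positivity), ENNReal.ofReal_mul (by positivity),
              ENNReal.ofReal_pow (by positivity)]
            have : ENNReal.ofReal (96 : ℝ) = 96 := by simp
            rw [this]
            ring
        _ ≤ _ := ENNReal.ofReal_le_ofReal h3
    have hLb : (r : ℝ) + 2 * J + 2 ≤ Real.exp (ε * s) := by
      have hJR : (J : ℝ) ≤ r := by exact_mod_cast hJr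
      have : (3 : ℝ) * (C * s + 1) ^ 1 ≤ Real.exp (ε * s) := h4
      rw [pow_one] at this
      linarith
    refine ⟨ν, r, J, K, K1, ?_, hKb, hdb, hBb, hLb⟩
    refine { ug := h, cn := hcn, eta := rfl, k1 := ?_, k1t := ?_, c0p := hcz, c0l := hcz2, den := ?_, jr := ?_ }
    · intro y l
      refine thb (D := dt G d z ν r J) (ρ := ρ) (A := A) (K := K) (κ := ENNReal.ofReal (Real.exp (-s))) h hcn ?_ y l
      intro n y hn
      refine (hal n y).trans ?_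
      rw [hA]
      refine mul_le_mul' le_rfl ?_
      exact pow_le_pow_right₀ (by simp) hn
    · exact ne_top_of_le_ne_top ENNReal.ofReal_ne_top hKb
    · exact hden
    · change J ≤ 24 * (r + 1)
      omega
  obtain ⟨s1, hs1⟩ := Filter.eventually_atTop.1 hev
  exact ⟨s1, fun s hs => hs1 s hs⟩

end Pool.Agent.SAWG
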