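import Pool.Agent.SAWG.Defs

/-!
# SAWG module ITR: from one scale to all scales

PROOF.  `C = 2 H'/a + H'`..., `s0 = max 1 (b/(x' - b/a))` (and `≥ a`).  For `s ≥ s0` let `m = ⌈s/a⌉₊`: `s/a ≤ m ≤ s/a + 1`.  `r = m H' ≤ (s/a + 1) H' ≤ C s`.  `exp (-(m a)) ≤ exp (-s)`.  `m b ≤ x' s`: if `b ≥ 0`: `m b ≤ b s/a + b ≤ x' s`
because `b ≤ (x' - b/a) s`; if `b < 0`: `m b ≤ (s/a) b ≤ x' s`.  Monotonicity of `Cn` in `κ`, `K` (`KB` is monotone in the bound; `K * sa`).
-/

set_option autoImplicit false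

open scoped ENNReal NNReal Classical
open Filter Topology

namespace Pool.Agent.SAWG

open Pool.Agent.SWH (Ker idK adK tp endp Sw endp_nil endp_cons endp_append endp_mem)

variable {V : Type}

theorem itr {G : SimpleGraph V} {z : ℝ≥0∞} (H' : ℕ) {a b x' : ℝ} (ha : 0 < a) (hb : b / a < x')
    (h : ∀ m : ℕ, ∃ ν : PW V, Cn G z (m * H') (ENNReal.ofReal (Real.exp (-(m * a)))) (ENNReal.ofReal (Real.exp (m * b))) ν) :
    Cx G z x' := by
  have hd : 0 < x' - b / a := by linarith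
  refine ⟨2 * H' / a, max a (|b| / (x' - b / a)), by positivity, ?_⟩
  intro s hs
  have hsa : a ≤ s := (le_max_left _ _).trans hs
  have hsb : |b| / (x' - b / a) ≤ s := (le_max_right _ _).trans hs
  have hs0 : 0 < s := lt_of_lt_of_le ha hsa
  have hsa0 : 0 ≤ s / a := by positivity
  set m : ℕ := ⌈s / a⌉₊ with hm
  have hm1 : s / a ≤ (m : ℝ) := Nat.le_ceil _
  have hm2 : (m : ℝ) ≤ s / a + 1 := (Nat.ceil_lt_add_one hsa0).le
  have hm3 : (m : ℝ) ≤ 2 * s / a := by
    have h1 : (1 : ℝ) ≤ s / a := by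
      rw [le_div_iff₀ ha]
      linarith
    have h2 : 2 * s / a = s / a + s / a := by ring
    rw [h2]
    linarith
  obtain ⟨ν, hν⟩ := h m
  refine ⟨m * H', ν, ?_, hν.inv, hν.one, hν.len, ?_, ?_⟩
  · push_cast
    have hH : (0 : ℝ) ≤ (H' : ℝ) := Nat.cast_nonneg _
    calc (m : ℝ) * (H' : ℝ) ≤ (2 * s / a) * H' := mul_le_mul_of_nonneg_right hm3 hH
      _ = 2 * H' / a * s := by ring
  · intro x l
    refine (hν.le x l).trans ?_
    gcongr ?_ * _
    refine ENNReal.ofReal_le_ofReal (Real.exp_le_exp.2 ?_)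
    rcases le_or_gt 0 b with hb0 | hb0
    · have h1 : (m : ℝ) * b ≤ (s / a + 1) * b := mul_le_mul_of_nonneg_right hm2 hb0
      have h2 : b ≤ (x' - b / a) * s := by
        have := (div_le_iff₀ hd).1 hsb
        rw [abs_of_nonneg hb0] at this
        linarith
      have h3 : (s / a + 1) * b = b / a * s + b := by ring
      nlinarith
    · have h1 : (m : ℝ) * b ≤ (s / a) * b := mul_le_mul_of_nonpos_right hm1 hb0.le
      have h2 : (s / a) * b = b / a * s := by ring
      have h3 : b / a * s ≤ x' * s := mul_le_mul_of_nonneg_right hb.le hs0.le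
      linarith
  · intro v
    refine (hν.kb v).trans ?_
    gcongr ?_ ^ 2 * _
    refine ENNReal.ofReal_le_ofReal (Real.exp_le_exp.2 ?_)
    have : s ≤ (m : ℝ) * a := (div_le_iff₀ ha).1 hm1
    linarith

end Pool.Agent.SAWG
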