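import Pool.Agent.SAWG.RIC
import Pool.Agent.SAWG.INW
import Pool.Agent.SAWG.UNI

/-!
# SAWG module POR: poor walks have mass at least one half

PROOF.  `sa` on length `N` is at most (rich) + (poor); `KB` of the rich part: `ric`; the poor part is invariant (`DD_map`), `KB_ms`: norm at most its mass `P` (constant in `x`).
`KB (kr (rs (LN N) sa)) (C t^N + P)`, `t = θ⁻¹ exp(-β q/4) < 1` (`hg`), so `1 ≤ C t^N + P` by `hH`; `C t^N ≤ 1/2` for `N` large.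
-/

set_option autoImplicit false

open scoped ENNReal NNReal Classical
open Filter Topology

namespace Pool.Agent.SAWG

open Pool.Agent.SWH (Ker idK adK tp endp Sw endp_nil endp_cons endp_append endp_mem)

variable {V : Type}

theorem por {D : Dat V} {ρ κ K K1 : ℝ≥0∞} {c0 : ℝ≥0} (hs : Sc D ρ κ K K1 c0)
    (hH : ∀ (n : ℕ) (c : ℝ≥0∞), KB (kr (rs (LN n) (sa D.G D.z))) c → 1 ≤ c) {R : ℕ} {θ β q : ℝ≥0} (hθ0 : θ ≠ 0)
    (hr : ∃ C : ℝ≥0∞, C ≠ ⊤ ∧ ∀ N : ℕ, KB (kr (rs (Rich D R q N) (sa D.G D.z)))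
      (C * (θ : ℝ≥0∞)⁻¹ ^ N * ENNReal.ofReal (Real.exp (-(β * q * N / 4)))))
    (hg : 1 < (θ : ℝ) * Real.exp (β * q / 4)) :
    ∃ N0 : ℕ, ∀ N : ℕ, N0 ≤ N → ∀ x, 2⁻¹ ≤ ms (rs (Poor D R q N) (sa D.G D.z)) x := by
  obtain ⟨C, hC, hr⟩ := hr
  have hθpos : (0 : ℝ) < (θ : ℝ) := by
    have : 0 < θ := pos_iff_ne_zero.2 hθ0
    exact_mod_cast this
  have hexp : (0 : ℝ) < Real.exp (β * q / 4) := Real.exp_pos _
  have hprod : (0 : ℝ) < (θ : ℝ) * Real.exp (β * q / 4) := mul_pos hθpos hexp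
  obtain ⟨t, ht⟩ : ∃ t : ℝ, t = ((θ : ℝ) * Real.exp (β * q / 4))⁻¹ := ⟨_, rfl⟩
  have ht0 : 0 ≤ t := by rw [ht]; exact inv_nonneg.2 hprod.le
  have ht1 : t < 1 := by rw [ht]; exact inv_lt_one_of_one_lt₀ hg
  have key : ∀ N : ℕ, (θ : ℝ≥0∞)⁻¹ ^ N * ENNReal.ofReal (Real.exp (-(β * q * N / 4))) = ENNReal.ofReal (t ^ N) := by
    intro N
    have h1 : (θ : ℝ≥0∞)⁻¹ = ENNReal.ofReal ((θ : ℝ)⁻¹) := by
      rw [ENNReal.ofReal_inv_of_pos hθpos, ENNReal.ofReal_coe_nnreal]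
    have h2 : Real.exp (-(β * q * N / 4)) = (Real.exp (β * q / 4))⁻¹ ^ N := by
      rw [← Real.exp_neg, ← Real.exp_nat_mul]
      congr 1
      ring
    rw [h1, h2, ← ENNReal.ofReal_pow (inv_nonneg.2 hθpos.le), ← ENNReal.ofReal_mul (by positivity), ← mul_pow, ht,
      mul_inv]
  have hlim : Tendsto (fun N : ℕ => C * ENNReal.ofReal (t ^ N)) atTop (𝓝 0) := by
    have h1 : Tendsto (fun N : ℕ => ENNReal.ofReal (t ^ N)) atTop (𝓝 (ENNReal.ofReal 0)) :=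
      ENNReal.tendsto_ofReal (tendsto_pow_atTop_nhds_zero_of_lt_one ht0 ht1)
    rw [ENNReal.ofReal_zero] at h1
    have h2 := ENNReal.Tendsto.const_mul h1 (Or.inr hC)
    simpa using h2
  have hhalf : (0 : ℝ≥0∞) < 2⁻¹ := by simp
  have hev : ∀ᶠ N : ℕ in atTop, C * ENNReal.ofReal (t ^ N) ≤ 2⁻¹ := by
    filter_upwards [hlim.eventually (gt_mem_nhds hhalf)] with N hN
    exact hN.le
  obtain ⟨N0, hN0⟩ := eventually_atTop.1 hev
  refine ⟨N0, fun N hN x => ?_⟩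
  have hinvν := hs.cn.inv
  have hPinv : InvP D.G (rs (Poor D R q N) (sa D.G D.z)) := by
    apply InvP_rs (InvP_sa D.G D.z)
    intro φ x l
    unfold Poor
    rw [List.length_map, DD_map hinvν]
  have hconst : ∀ y, ms (rs (Poor D R q N) (sa D.G D.z)) y ≤ ms (rs (Poor D R q N) (sa D.G D.z)) x :=
    fun y => (ms_const hs.ug.tr hPinv y x).le
  have hP : KB (kr (rs (Poor D R q N) (sa D.G D.z))) (ms (rs (Poor D R q N) (sa D.G D.z)) x) :=
    KB_ms hs.ug.uni hPinv hconst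
  have hR := hr N
  rw [mul_assoc, key N] at hR
  have hadd := KB_add hR hP
  have hmono : KB (kr (rs (LN N) (sa D.G D.z)))
      (C * ENNReal.ofReal (t ^ N) + ms (rs (Poor D R q N) (sa D.G D.z)) x) := by
    refine KB_mono (fun a b => ?_) hadd
    have h1 : kr (rs (LN N) (sa D.G D.z)) a b ≤
        kr (ad (rs (Rich D R q N) (sa D.G D.z)) (rs (Poor D R q N) (sa D.G D.z))) a b := by
      apply kr_mono
      intro l
      unfold ad rs LN Rich Poor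
      by_cases hl : l.length = N
      · by_cases hd : (q : ℝ≥0∞) * N ≤ DD D R a l
        · have hd' : ¬ DD D R a l < q * N := not_lt.2 hd
          simp [hl, hd, hd']
        · have hd' : DD D R a l < q * N := not_le.1 hd
          simp [hl, hd, hd']
      · simp [hl]
    rw [kr_ad] at h1
    exact h1
  have h1 := hH N _ hmono
  have h2 : (1 : ℝ≥0∞) ≤ 2⁻¹ + ms (rs (Poor D R q N) (sa D.G D.z)) x :=
    h1.trans (add_le_add_left (hN0 N hN) _)
  have h3 : (2⁻¹ : ℝ≥0∞) + 2⁻¹ = 1 := ENNReal.inv_two_add_inv_two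
  rw [← h3] at h2
  exact (ENNReal.add_le_add_iff_left (by simp)).1 h2

end Pool.Agent.SAWG
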