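import Pool.Agent.SAWG.RWK

/-!
# SAWG module POS: positions in a walk

PROOFS.  List manipulations: `List.take_take`, `List.drop_take`, `List.drop_drop`, `List.take_append_drop`, `endp_append`.
`vt_inj`: `vt x l i` is the entry number `i` of the nodup list `x :: l` (`vt_get`).
`Sw_sg`: a part of a nodup chain.  `cv_take`: the definition of `cv` for `l.take c`; `(l.take c).take i = l.take i` for `i ≤ c`, `(l.take c).drop i = sg l i c`.
-/

set_option autoImplicit false

open scoped ENNReal NNReal Classical
open Filter Topology

namespace Pool.Agent.SAWG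

open Pool.Agent.SWH (Ker idK adK tp endp Sw endp_nil endp_cons endp_append endp_mem)

variable {V : Type}

theorem vt_zero (x : V) (l : List V) : vt x l 0 = x := by
  unfold vt
  rw [List.take_zero, endp_nil]

theorem vt_len (x : V) (l : List V) : vt x l l.length = endp x l := by
  unfold vt
  rw [List.take_length]

theorem vt_get (x : V) (l : List V) {i : ℕ} (h : i ≤ l.length) : (x :: l)[i]? = some (vt x l i) := by
  induction l generalizing x i with
  | nil =>
    have h0 : i = 0 := by simpa using h
    subst h0
    rw [vt_zero]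
    rfl
  | cons y l ih =>
    cases i with
    | zero =>
      rw [vt_zero]
      rfl
    | succ j =>
      have h1 : j ≤ l.length := by simpa using h
      have h2 := ih y h1
      rw [List.getElem?_cons_succ, h2]
      unfold vt
      rw [List.take_succ_cons, endp_cons]

theorem vt_mem (x : V) (l : List V) (i : ℕ) : vt x l i ∈ x :: l := by
  have h := endp_mem x (l.take i)
  unfold vt
  rcases List.mem_cons.mp h with h | h
  · rw [h]
    exact List.mem_cons_self
  · exact List.mem_cons_of_mem _ (List.mem_of_mem_take h)

theorem vt_inj {x : V} {l : List V} (h : (x :: l).Nodup) {i j : ℕ} (hi : i ≤ l.length) (hj : j ≤ l.length)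
    (he : vt x l i = vt x l j) : i = j := by
  have h1 : (x :: l)[i]? = (x :: l)[j]? := by rw [vt_get x l hi, vt_get x l hj, he]
  exact (List.getElem?_inj (by rw [List.length_cons]; omega) h).mp h1

theorem vt_take (x : V) (l : List V) {i c : ℕ} (h : i ≤ c) : vt x (l.take c) i = vt x l i := by
  unfold vt
  rw [List.take_take, min_eq_left h]

theorem sg_length (l : List V) {a b : ℕ} (h : a ≤ b) (hb : b ≤ l.length) : (sg l a b).length = b - a := by
  unfold sg
  rw [List.length_take, List.length_drop]
  omega

theorem sg_zero (l : List V) (b : ℕ) : sg l 0 b = l.take b := by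
  unfold sg
  rw [List.drop_zero, Nat.sub_zero]

theorem sg_len (l : List V) (a : ℕ) : sg l a l.length = l.drop a := by
  unfold sg
  exact List.take_of_length_le (by rw [List.length_drop])

theorem take_sg (l : List V) {a b : ℕ} (h : a ≤ b) : l.take b = l.take a ++ sg l a b := by
  unfold sg
  rw [← List.take_add]
  congr 1
  omega

theorem sg_append (l : List V) {a b c : ℕ} (hab : a ≤ b) (hbc : b ≤ c) : sg l a c = sg l a b ++ sg l b c := by
  unfold sg
  have h1 : c - a = (b - a) + (c - b) := by omega
  rw [h1, List.take_add, List.drop_drop]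
  have h2 : a + (b - a) = b := by omega
  rw [h2]

theorem endp_sg (x : V) (l : List V) {a b : ℕ} (h : a ≤ b) : endp (vt x l a) (sg l a b) = vt x l b := by
  unfold vt
  rw [← endp_append, ← take_sg l h]

theorem sg_sg (l : List V) {b c i j : ℕ} (hij : i ≤ j) (hj : b + j ≤ c) : sg (sg l b c) i j = sg l (b + i) (b + j) := by
  unfold sg
  rw [List.drop_take, List.take_take, List.drop_drop]
  congr 1
  omega

private theorem pos_take_sg (l : List V) {b c i : ℕ} (h : b + i ≤ c) : (sg l b c).take i = sg l b (b + i) := by
  unfold sg
  rw [List.take_take]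
  congr 1
  omega

theorem vt_sg (x : V) (l : List V) {b c i : ℕ} (h : b + i ≤ c) : vt (vt x l b) (sg l b c) i = vt x l (b + i) := by
  have h1 : vt (vt x l b) (sg l b c) i = endp (vt x l b) ((sg l b c).take i) := rfl
  rw [h1, pos_take_sg l h, endp_sg x l (by omega)]

theorem sg_take (l : List V) {a b c : ℕ} (h : b ≤ c) : sg (l.take c) a b = sg l a b := by
  unfold sg
  rw [List.drop_take, List.take_take]
  congr 1
  omega

private theorem pos_endp_sub (x : V) (l1 l2 : List V) : (endp x l1 :: l2).Sublist (x :: (l1 ++ l2)) := by
  induction l1 generalizing x with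
  | nil => exact List.Sublist.refl _
  | cons a l1 ih =>
    rw [endp_cons]
    exact (ih a).cons x

private theorem pos_sub (x : V) (l : List V) (a b : ℕ) : (vt x l a :: sg l a b).Sublist (x :: l) := by
  have h1 := pos_endp_sub x (l.take a) (l.drop a)
  rw [List.take_append_drop] at h1
  have h2 : (vt x l a :: sg l a b).Sublist (vt x l a :: l.drop a) := (List.take_sublist _ _).cons_cons _
  exact h2.trans h1

theorem Sw_sg {G : SimpleGraph V} {x : V} {l : List V} (h : Sw G x l) {a b : ℕ} (hab : a ≤ b) :
    Sw G (vt x l a) (sg l a b) := by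
  refine ⟨?_, h.2.sublist (pos_sub x l a b)⟩
  have h1 : (x :: (l.take a ++ l.drop a)).IsChain G.Adj := by
    rw [List.take_append_drop]
    exact h.1
  have h2 := ((chain_append_iff G x _ _).mp h1).2
  have h3 : (endp x (l.take a) :: ((l.drop a).take (b - a) ++ (l.drop a).drop (b - a))).IsChain G.Adj := by
    rw [List.take_append_drop]
    exact h2
  exact ((chain_append_iff G _ _ _).mp h3).1

theorem sg_sublist (x : V) (l : List V) {a b : ℕ} (hab : a ≤ b) (ha : a ≤ l.length) :
    (vt x l a :: sg l a b).Sublist (x :: l) := pos_sub x l a b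

theorem cv_take (a b : PW V) (x : V) (l : List V) {c : ℕ} (hc : c ≤ l.length) :
    cv a b x (l.take c) = ∑ i ∈ Finset.range (c + 1), a x (l.take i) * b (vt x l i) (sg l i c) := by
  unfold cv
  have h1 : (l.take c).length = c := by
    rw [List.length_take]
    omega
  rw [h1]
  refine Finset.sum_congr rfl fun i hi => ?_
  have hi' : i ≤ c := by
    rw [Finset.mem_range] at hi
    omega
  rw [List.take_take, min_eq_left hi', List.drop_take]
  rfl

theorem cv_pos (a b : PW V) (x : V) (l : List V) :
    cv a b x l = ∑ i ∈ Finset.range (l.length + 1), a x (l.take i) * b (vt x l i) (sg l i l.length) := by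
  unfold cv
  refine Finset.sum_congr rfl fun i _ => ?_
  rw [sg_len]
  rfl

theorem sa_sg {G : SimpleGraph V} (z : ℝ≥0∞) {x : V} {l : List V} (h : Sw G x l) {a b : ℕ} (hab : a ≤ b)
    (hb : b ≤ l.length) : sa G z (vt x l a) (sg l a b) = z ^ (b - a) := by
  unfold sa
  rw [if_pos (Sw_sg h hab), sg_length l hab hb]

theorem Sw_take {G : SimpleGraph V} {x : V} {l : List V} (h : Sw G x l) (c : ℕ) : Sw G x (l.take c) := by
  have h1 := Sw_sg h (a := 0) (b := c) (Nat.zero_le c)
  rw [vt_zero, sg_zero] at h1
  exact h1

end Pool.Agent.SAWG
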