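import Pool.Agent.SAWG.UNI

/-!
# SAWG module VIS: visit kernels

PROOFS.  `occ_sum`: `∑' u, occ L u * f u = (L.map f).sum` (induction on `L`); so `∑' u, occ L u = L.length`.  `row_vs`: exchange the sums: `∑_l ν x l (|l| + 1) ≤ (r + 1) ms ν x`.
`row_vb`: the kernel `F x y = ∑_l [endp y l = x] ν y l (|l| + 1)` is invariant; `∑_y F x y = ∑_y F y x` (`h.uni`) `= ∑_y ∑_l [endp x l = y] ν x l (|l|+1) ≤ r + 1`.
`col_vs`, `col_vb`: `h.uni` for the invariant kernels `vs ν`, `vb ν` (`InvG_vs`, `InvG_vb`).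
`hit_vs`: if some `u ∈ x :: l` lies in `U` then `1 ≤ ∑_{u ∈ U} occ (x :: l) u`; exchange.  `hit_vb`: the same.  `meet`: if `y :: l` and `x' :: l'` have a common vertex `u0` then
`1 ≤ ∑' u, occ (y :: l) u * occ (x' :: l') u` (term `u0`).
-/

set_option autoImplicit false

open scoped ENNReal NNReal Classical
open Filter Topology

namespace Pool.Agent.SAWG

open Pool.Agent.SWH (Ker idK adK tp endp Sw endp_nil endp_cons endp_append endp_mem)

variable {V : Type}

private theorem VIS_occ_cons (v : V) (L : List V) (u : V) :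
    occ (v :: L) u = (if v = u then (1 : ℝ≥0∞) else 0) + occ L u := by
  unfold occ
  rw [List.map_cons, List.sum_cons]

private theorem VIS_ite (P : Prop) (a b : ℝ≥0∞) : (if P then a * b else 0) = (if P then a else 0) * b := by
  by_cases h : P
  · rw [if_pos h, if_pos h]
  · rw [if_neg h, if_neg h, zero_mul]

private theorem VIS_sum_tsum {ι : Type} (f : ι → V → ℝ≥0∞) (U : List V) :
    (U.map (fun u => ∑' i, f i u)).sum = ∑' i, (U.map (f i)).sum := by
  induction U with
  | nil => simp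
  | cons a U ih =>
    simp only [List.map_cons, List.sum_cons]
    rw [ih, ← ENNReal.tsum_add]

private theorem VIS_sum_mul (c : ℝ≥0∞) (f : V → ℝ≥0∞) (U : List V) :
    (U.map (fun u => c * f u)).sum = c * (U.map f).sum := by
  induction U with
  | nil => simp
  | cons a U ih =>
    simp only [List.map_cons, List.sum_cons]
    rw [ih, mul_add]

theorem occ_sum (L : List V) (f : V → ℝ≥0∞) : ∑' u, occ L u * f u = (L.map f).sum := by
  induction L with
  | nil => simp [occ]
  | cons v L ih =>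
    rw [List.map_cons, List.sum_cons, ← ih]
    have h1 : ∀ u, occ (v :: L) u * f u = (if u = v then f u else 0) + occ L u * f u := by
      intro u
      rw [VIS_occ_cons, add_mul]
      congr 1
      by_cases h : v = u
      · rw [if_pos h, if_pos h.symm, one_mul]
      · rw [if_neg h, if_neg (fun h' => h h'.symm), zero_mul]
    rw [tsum_congr h1, ENNReal.tsum_add, tsum_ite_eq]

theorem one_le_occ {L : List V} {u : V} (h : u ∈ L) : 1 ≤ occ L u := by
  induction L with
  | nil => simp at h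
  | cons v L ih =>
    rw [VIS_occ_cons]
    rcases List.mem_cons.1 h with h1 | h1
    · rw [if_pos h1.symm]
      exact le_self_add
    · exact (ih h1).trans le_add_self

private theorem VIS_occ_tot (L : List V) : ∑' u, occ L u = (L.length : ℝ≥0∞) := by
  have h := occ_sum L (fun _ => (1 : ℝ≥0∞))
  simp only [mul_one] at h
  rw [h]
  simp

private theorem VIS_row {G : SimpleGraph V} {z κ K : ℝ≥0∞} {r : ℕ} {ν : PW V} (hc : Cn G z r κ K ν) (x : V) :
    ms (fun y l => ν y l * ((l.length : ℝ≥0∞) + 1)) x ≤ (r : ℝ≥0∞) + 1 := by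
  have h1 : ∀ l, ν x l * ((l.length : ℝ≥0∞) + 1) ≤ ν x l * ((r : ℝ≥0∞) + 1) := by
    intro l
    by_cases h : ν x l = 0
    · rw [h, zero_mul, zero_mul]
    · have h2 := hc.len x l h
      gcongr
  calc ms (fun y l => ν y l * ((l.length : ℝ≥0∞) + 1)) x
      ≤ ∑' l, ν x l * ((r : ℝ≥0∞) + 1) := ENNReal.tsum_le_tsum h1
    _ = ms ν x * ((r : ℝ≥0∞) + 1) := by rw [ENNReal.tsum_mul_right]; rfl
    _ = (r : ℝ≥0∞) + 1 := by rw [hc.one x, one_mul]

theorem row_vs {G : SimpleGraph V} {z κ K : ℝ≥0∞} {r : ℕ} {ν : PW V} (hc : Cn G z r κ K ν) (x : V) :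
    ∑' u, vs ν x u ≤ (r : ℝ≥0∞) + 1 := by
  have h1 : ∑' u, vs ν x u = ms (fun y l => ν y l * ((l.length : ℝ≥0∞) + 1)) x := by
    unfold vs ms
    rw [ENNReal.tsum_comm]
    refine tsum_congr fun l => ?_
    rw [ENNReal.tsum_mul_left, VIS_occ_tot, List.length_cons, Nat.cast_add, Nat.cast_one]
  rw [h1]
  exact VIS_row hc x

theorem row_vb {G : SimpleGraph V} {z κ K : ℝ≥0∞} {r : ℕ} {ν : PW V} (hu : Uni G) (hc : Cn G z r κ K ν) (x : V) :
    ∑' u, vb ν x u ≤ (r : ℝ≥0∞) + 1 := by
  have h0 : InvP G (fun y l => ν y l * ((l.length : ℝ≥0∞) + 1)) := by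
    intro φ y l
    change ν (φ y) (l.map φ) * (((l.map φ).length : ℝ≥0∞) + 1) = ν y l * ((l.length : ℝ≥0∞) + 1)
    rw [hc.inv φ y l, List.length_map]
  have h1 : ∑' u, vb ν x u = ∑' y, kr (fun y l => ν y l * ((l.length : ℝ≥0∞) + 1)) y x := by
    unfold vb kr
    rw [ENNReal.tsum_comm]
    refine tsum_congr fun y => ?_
    rw [ENNReal.tsum_comm]
    refine tsum_congr fun l => ?_
    by_cases h : endp y l = x
    · simp only [h, if_true]
      rw [ENNReal.tsum_mul_left, VIS_occ_tot, List.length_cons, Nat.cast_add, Nat.cast_one]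
    · simp only [h, if_false, tsum_zero]
  rw [h1, ← hu _ (InvG_kr h0) x, row_kr]
  exact VIS_row hc x

theorem col_vs {G : SimpleGraph V} {z κ K : ℝ≥0∞} {r : ℕ} {ν : PW V} (hu : Uni G) (hc : Cn G z r κ K ν) (u : V) :
    ∑' x, vs ν x u ≤ (r : ℝ≥0∞) + 1 := by
  rw [← hu _ (InvG_vs hc.inv) u]
  exact row_vs hc u

theorem col_vb {G : SimpleGraph V} {z κ K : ℝ≥0∞} {r : ℕ} {ν : PW V} (hu : Uni G) (hc : Cn G z r κ K ν) (u : V) :
    ∑' x, vb ν x u ≤ (r : ℝ≥0∞) + 1 := by
  rw [← hu _ (InvG_vb hc.inv) u]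
  exact row_vb hu hc u

private theorem VIS_one (L U : List V) : (if ∃ u ∈ L, u ∈ U then (1 : ℝ≥0∞) else 0) ≤ (U.map (occ L)).sum := by
  by_cases h : ∃ u ∈ L, u ∈ U
  · rw [if_pos h]
    obtain ⟨u, h1, h2⟩ := h
    refine (one_le_occ h1).trans ?_
    exact List.single_le_sum (fun _ _ => zero_le) _ (List.mem_map_of_mem h2)
  · rw [if_neg h]
    exact zero_le

/-- The probability that the walk meets `U` is at most the expected number of visits. -/
theorem hit_vs (ν : PW V) (x : V) (U : List V) :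
    ∑' l, ν x l * (if ∃ u ∈ x :: l, u ∈ U then 1 else 0) ≤ hit (vs ν) x U := by
  unfold hit vs
  rw [VIS_sum_tsum]
  refine ENNReal.tsum_le_tsum fun l => ?_
  rw [VIS_sum_mul]
  exact mul_le_mul_right (VIS_one _ _) _

theorem hit_vb (ν : PW V) (x : V) (U : List V) :
    ∑' y, ∑' l, (if endp y l = x then ν y l * (if ∃ u ∈ y :: l, u ∈ U then 1 else 0) else 0) ≤ hit (vb ν) x U := by
  unfold hit vb
  rw [VIS_sum_tsum]
  refine ENNReal.tsum_le_tsum fun y => ?_
  rw [VIS_sum_tsum]
  refine ENNReal.tsum_le_tsum fun l => ?_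
  by_cases h : endp y l = x
  · simp only [h, if_true]
    rw [VIS_sum_mul]
    exact mul_le_mul_right (VIS_one _ _) _
  · simp only [h, if_false]
    exact zero_le

private theorem VIS_two (L L' : List V) :
    (if ∃ u ∈ L', u ∈ L then (1 : ℝ≥0∞) else 0) ≤ ∑' u, occ L u * occ L' u := by
  by_cases h : ∃ u ∈ L', u ∈ L
  · rw [if_pos h]
    obtain ⟨u, h1, h2⟩ := h
    refine le_trans ?_ (ENNReal.le_tsum u)
    calc (1 : ℝ≥0∞) = 1 * 1 := (one_mul 1).symm
      _ ≤ occ L u * occ L' u := mul_le_mul' (one_le_occ h2) (one_le_occ h1)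
  · rw [if_neg h]
    exact zero_le

theorem meet (ν : PW V) (x x' : V) :
    ∑' y, ∑' l, (if endp y l = x then ν y l * ∑' l', ν x' l' * (if ∃ u ∈ x' :: l', u ∈ y :: l then 1 else 0) else 0)
      ≤ ∑' u, vb ν x u * vs ν x' u := by
  have h1 : ∑' u, vb ν x u * vs ν x' u =
      ∑' y, ∑' l, ∑' u, (if endp y l = x then ν y l * occ (y :: l) u else 0) * vs ν x' u := by
    have h0 : ∀ F : V → List V → V → ℝ≥0∞, ∑' y, ∑' l, ∑' u, F y l u = ∑' u, ∑' y, ∑' l, F y l u := by
      intro F
      rw [ENNReal.tsum_comm (f := fun u y => ∑' l, F y l u)]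
      refine tsum_congr fun y => ?_
      rw [ENNReal.tsum_comm]
    rw [h0]
    refine tsum_congr fun u => ?_
    unfold vb
    rw [← ENNReal.tsum_mul_right]
    refine tsum_congr fun y => ?_
    rw [← ENNReal.tsum_mul_right]
  rw [h1]
  refine ENNReal.tsum_le_tsum fun y => ?_
  refine ENNReal.tsum_le_tsum fun l => ?_
  by_cases h : endp y l = x
  · simp only [h, if_true]
    have h2 : ∑' u, ν y l * occ (y :: l) u * vs ν x' u = ν y l * ∑' l', ν x' l' * ∑' u, occ (y :: l) u * occ (x' :: l') u := by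
      have h3 : ∀ u, ν y l * occ (y :: l) u * vs ν x' u = ν y l * ∑' l', ν x' l' * (occ (y :: l) u * occ (x' :: l') u) := by
        intro u
        unfold vs
        rw [mul_assoc, ← ENNReal.tsum_mul_left]
        congr 1
        refine tsum_congr fun l' => ?_
        ring
      rw [tsum_congr h3, ENNReal.tsum_mul_left, ENNReal.tsum_comm]
      congr 1
      refine tsum_congr fun l' => ?_
      rw [ENNReal.tsum_mul_left]
    rw [h2]
    refine mul_le_mul_right (ENNReal.tsum_le_tsum fun l' => ?_) _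
    exact mul_le_mul_right (VIS_two _ _) _
  · simp only [h, if_false]
    exact zero_le

theorem hit_mono_list {T : Ker V} {x : V} {U U' : List V} (h : U'.Sublist U) : hit T x U' ≤ hit T x U := by
  unfold hit
  exact List.Sublist.sum_le_sum (h.map _) (fun _ _ => zero_le)

theorem hit_append (T : Ker V) (x : V) (U U' : List V) : hit T x (U ++ U') = hit T x U + hit T x U' := by
  unfold hit
  rw [List.map_append, List.sum_append]

end Pool.Agent.SAWG
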