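import Pool.Agent.SAWG.ESB
import Pool.Agent.SAWG.VIS
import Pool.Agent.SAWG.POS

/-!
# SAWG module DEN: the density of good positions

PROOF.  `U` = the set of the vertices of the walk (`(x :: l).toFinset`, `l.length + 1` elements).  `E x = ∑_{r} rwk J x r * hit (vs ν) (endp x r) U`; if `x ∈ U` is not good for `vs`: every
`J`-step walk `r` from `x` that avoids `U` has `hit (vs ν) (endp x r) U > η`, so `η * Qs J U x ≤ E x`.  `∑_{x ∈ U} E x = ∑_{x∈U} ∑_{u ∈ U} (kc (kr (rwk J)) (vs ν)) x u`, and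
`KB (kc ..) (ρ^J (r+1))` (`KB_rwk`; `KB_inv` for `vs ν`: rows at most `r + 1`, `row_vs`), so by `KB_cs` with `u = v` = indicator of `U`: `(∑_{x∈U} E x)^2 ≤ (ρ^J (r+1))^2 |U|^2`.
The same for `vb` (`row_vb`, `InvG_vb`).  Let `B` be the set of the `x ∈ U` that are not good in one of the two senses: `η ∑_{x∈B} Qs ≤ 2 ρ^J (r+1) |U| ≤ η c0 |U|` (`hs.den`), so
`∑_{B} Qs^2 ≤ ∑_B Qs ≤ c0 |U|`, and `2 c0 |U| ≤ (1-ρ)^2 |U| ≤ ∑_{U} Qs^2 ≤ c0 |U| + |U \ B|`, so `c0 |U| ≤ |U \ B|` (`c0 |U|` is finite).  Finally the number of positions `i ≤ n`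
with `GP` is `|U \ B|`: `i ↦ vt x l i` is a bijection from `range (n+1)` to `U` (`vt_inj`, `vt_get`).
-/

set_option autoImplicit false

open scoped ENNReal NNReal Classical
open Filter Topology

namespace Pool.Agent.SAWG

open Pool.Agent.SWH (Ker idK adK tp endp Sw endp_nil endp_cons endp_append endp_mem)

variable {V : Type}

private theorem DEN_hit (T : Ker V) (y : V) {W : List V} (hW : W.Nodup) :
    hit T y W = ∑' u, T y u * (if u ∈ W.toFinset then 1 else 0) := by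
  have h1 : hit T y W = ∑ u ∈ W.toFinset, T y u := by
    unfold hit
    rw [List.sum_toFinset _ hW]
  rw [h1, tsum_eq_sum (s := W.toFinset)]
  · refine Finset.sum_congr rfl (fun u hu => ?_)
    rw [if_pos hu, mul_one]
  · intro u hu
    rw [if_neg hu, mul_zero]

private theorem DEN_avg {D : Dat V} {ρ κ K K1 : ℝ≥0∞} {c0 : ℝ≥0} (hs : Sc D ρ κ K K1 c0) {T : Ker V}
    (hT : InvG D.G T) (hrow : ∀ x, ∑' u, T x u ≤ (D.r : ℝ≥0∞) + 1) {W : List V} (hW : W.Nodup) :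
    ∑ x ∈ W.toFinset, ∑' r, rwk D.G D.d D.J x r * hit T (endp x r) W ≤
      ρ ^ D.J * ((D.r : ℝ≥0∞) + 1) * (W.toFinset.card : ℝ≥0∞) := by
  have hKB : KB (kc (kr (rwk D.G D.d D.J)) T) (ρ ^ D.J * ((D.r : ℝ≥0∞) + 1)) :=
    KB_cmp (KB_rwk hs.ug D.J) (KB_inv hs.ug.uni hT hrow)
  set v : V → ℝ≥0∞ := fun u => if u ∈ W.toFinset then 1 else 0 with hv
  have h1 : ∀ x, ∑' r, rwk D.G D.d D.J x r * hit T (endp x r) W
      = ∑' u, kc (kr (rwk D.G D.d D.J)) T x u * v u := by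
    intro x
    have e1 : ∑' r, rwk D.G D.d D.J x r * hit T (endp x r) W
        = ∑' y, kr (rwk D.G D.d D.J) x y * (∑' u, T y u * v u) := by
      rw [tsum_kr]
      refine tsum_congr (fun r => ?_)
      rw [DEN_hit T _ hW]
    rw [e1]
    simp only [kc]
    simp_rw [← ENNReal.tsum_mul_left, ← ENNReal.tsum_mul_right]
    rw [ENNReal.tsum_comm]
    refine tsum_congr (fun u => tsum_congr (fun y => ?_))
    rw [mul_assoc]
  have h2 : ∑ x ∈ W.toFinset, ∑' r, rwk D.G D.d D.J x r * hit T (endp x r) W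
      = ∑' x, v x * ∑' u, kc (kr (rwk D.G D.d D.J)) T x u * v u := by
    rw [tsum_eq_sum (s := W.toFinset)]
    · refine Finset.sum_congr rfl (fun x hx => ?_)
      rw [h1]
      simp only [hv]
      rw [if_pos hx, one_mul]
    · intro x hx
      simp only [hv]
      rw [if_neg hx, zero_mul]
  have h3 : ∑' x, v x ^ 2 = (W.toFinset.card : ℝ≥0∞) := by
    rw [tsum_eq_sum (s := W.toFinset)]
    · rw [Finset.sum_congr rfl (g := fun _ => (1 : ℝ≥0∞))]
      · simp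
      · intro x hx
        simp only [hv]
        rw [if_pos hx, one_pow]
    · intro x hx
      simp only [hv]
      rw [if_neg hx]
      norm_num
  have h4 := KB_cs hKB v v
  rw [h3] at h4
  rw [h2]
  have h5 : (∑' x, v x * ∑' u, kc (kr (rwk D.G D.d D.J)) T x u * v u) ^ 2
      ≤ (ρ ^ D.J * ((D.r : ℝ≥0∞) + 1) * (W.toFinset.card : ℝ≥0∞)) ^ 2 := by
    refine h4.trans (le_of_eq ?_)
    ring
  exact (ENNReal.pow_le_pow_left_iff (by norm_num)).1 h5

private theorem DEN_bad {D : Dat V} {T : Ker V} {W : List V} {x : V} (hx : ¬ Gg D T W x) :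
    D.η * Qs D.G D.d D.J W.toFinset x ≤ ∑' r, rwk D.G D.d D.J x r * hit T (endp x r) W := by
  unfold Qs
  rw [← ENNReal.tsum_mul_left]
  refine ENNReal.tsum_le_tsum (fun r => ?_)
  by_cases hr : (x :: r).IsChain D.G.Adj ∧ r.length = D.J
  · by_cases ha : ∀ u ∈ r, u ∉ W.toFinset
    · have h1 : D.η ≤ hit T (endp x r) W := by
        by_contra hc
        push Not at hc
        refine hx ⟨r, hr.1, hr.2, ?_, hc.le⟩
        intro u hu hw
        exact ha u hu (List.mem_toFinset.2 hw)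
      rw [if_pos ha, mul_one, mul_comm]
      exact mul_le_mul_right h1 _
    · rw [if_neg ha, mul_zero, mul_zero]
      exact zero_le
  · have : rwk D.G D.d D.J x r = 0 := by
      unfold rwk
      rw [if_neg hr]
    rw [this]
    simp

theorem den {D : Dat V} {ρ κ K K1 : ℝ≥0∞} {c0 : ℝ≥0} (hs : Sc D ρ κ K K1 c0) {x : V} {l : List V} (hw : Sw D.G x l) :
    (c0 : ℝ≥0∞) * ((l.length : ℝ≥0∞) + 1) ≤
      (((Finset.range (l.length + 1)).filter (fun i => GP D x l i)).card : ℝ≥0∞) := by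
  have hnd : (x :: l).Nodup := hw.2
  set W : List V := x :: l with hWdef
  set U : Finset V := W.toFinset with hU
  have hcard : U.card = l.length + 1 := by
    rw [hU, List.toFinset_card_of_nodup hnd, hWdef, List.length_cons]
  have hη0 : D.η ≠ 0 := by rw [hs.eta]; simp
  have hηt : D.η ≠ ⊤ := by rw [hs.eta]; simp
  have hA1 := DEN_avg hs (InvG_vs hs.cn.inv) (row_vs hs.cn) hnd
  have hA2 := DEN_avg hs (InvG_vb hs.cn.inv) (row_vb hs.ug.uni hs.cn) hnd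
  set Q : V → ℝ≥0∞ := fun y => Qs D.G D.d D.J U y with hQ
  set B1 : Finset V := U.filter (fun y => ¬ Gg D (vs D.ν) W y) with hB1
  set B2 : Finset V := U.filter (fun y => ¬ Gg D (vb D.ν) W y) with hB2
  have hS1 : D.η * ∑ y ∈ B1, Q y ≤ ρ ^ D.J * ((D.r : ℝ≥0∞) + 1) * (U.card : ℝ≥0∞) := by
    rw [Finset.mul_sum]
    refine le_trans ?_ hA1
    refine le_trans (Finset.sum_le_sum (fun y hy => DEN_bad (Finset.mem_filter.1 hy).2)) ?_
    exact Finset.sum_le_sum_of_subset (Finset.filter_subset _ _)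
  have hS2 : D.η * ∑ y ∈ B2, Q y ≤ ρ ^ D.J * ((D.r : ℝ≥0∞) + 1) * (U.card : ℝ≥0∞) := by
    rw [Finset.mul_sum]
    refine le_trans ?_ hA2
    refine le_trans (Finset.sum_le_sum (fun y hy => DEN_bad (Finset.mem_filter.1 hy).2)) ?_
    exact Finset.sum_le_sum_of_subset (Finset.filter_subset _ _)
  set B : Finset V := B1 ∪ B2 with hB
  have hS : D.η * ∑ y ∈ B, Q y ≤ D.η * (c0 * (U.card : ℝ≥0∞)) := by
    have e1 : ∑ y ∈ B, Q y ≤ ∑ y ∈ B1, Q y + ∑ y ∈ B2, Q y := by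
      rw [← Finset.sum_union_inter]
      exact le_self_add
    calc D.η * ∑ y ∈ B, Q y ≤ D.η * (∑ y ∈ B1, Q y + ∑ y ∈ B2, Q y) := mul_le_mul_right e1 _
      _ = D.η * ∑ y ∈ B1, Q y + D.η * ∑ y ∈ B2, Q y := mul_add _ _ _
      _ ≤ ρ ^ D.J * ((D.r : ℝ≥0∞) + 1) * (U.card : ℝ≥0∞) + ρ ^ D.J * ((D.r : ℝ≥0∞) + 1) * (U.card : ℝ≥0∞) :=
        add_le_add hS1 hS2
      _ = 2 * ((D.r : ℝ≥0∞) + 1) * ρ ^ D.J * (U.card : ℝ≥0∞) := by ring
      _ ≤ D.η * c0 * (U.card : ℝ≥0∞) := mul_le_mul_left hs.den _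
      _ = D.η * (c0 * (U.card : ℝ≥0∞)) := by ring
  have hS' : ∑ y ∈ B, Q y ≤ c0 * (U.card : ℝ≥0∞) := (ENNReal.mul_le_mul_iff_right hη0 hηt).1 hS
  have hQ1 : ∀ y, Q y ^ 2 ≤ Q y := by
    intro y
    have := Qs_le hs.ug D.J U y
    calc Q y ^ 2 = Q y * Q y := by ring
      _ ≤ Q y * 1 := mul_le_mul_right this _
      _ = Q y := mul_one _
  have hQ2 : ∀ y, Q y ^ 2 ≤ 1 := by
    intro y
    exact (hQ1 y).trans (Qs_le hs.ug D.J U y)
  have hBU : B ⊆ U := Finset.union_subset (Finset.filter_subset _ _) (Finset.filter_subset _ _)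
  have hesc := escape hs.ug D.J U
  have hsplit : ∑ y ∈ U, Q y ^ 2 = ∑ y ∈ U \ B, Q y ^ 2 + ∑ y ∈ B, Q y ^ 2 :=
    (Finset.sum_sdiff hBU).symm
  have h1 : ∑ y ∈ U \ B, Q y ^ 2 ≤ ((U \ B).card : ℝ≥0∞) := by
    calc ∑ y ∈ U \ B, Q y ^ 2 ≤ ∑ y ∈ U \ B, (1 : ℝ≥0∞) := Finset.sum_le_sum (fun y _ => hQ2 y)
      _ = ((U \ B).card : ℝ≥0∞) := by simp
  have h2 : ∑ y ∈ B, Q y ^ 2 ≤ c0 * (U.card : ℝ≥0∞) :=
    (Finset.sum_le_sum (fun y _ => hQ1 y)).trans hS'
  have h3 : 2 * (c0 : ℝ≥0∞) * (U.card : ℝ≥0∞) ≤ ((U \ B).card : ℝ≥0∞) + c0 * (U.card : ℝ≥0∞) := by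
    calc 2 * (c0 : ℝ≥0∞) * (U.card : ℝ≥0∞) ≤ (1 - ρ) ^ 2 * (U.card : ℝ≥0∞) := mul_le_mul_left hs.c0l _
      _ ≤ ∑ y ∈ U, Q y ^ 2 := hesc
      _ = ∑ y ∈ U \ B, Q y ^ 2 + ∑ y ∈ B, Q y ^ 2 := hsplit
      _ ≤ _ := add_le_add h1 h2
  have hfin : (c0 : ℝ≥0∞) * (U.card : ℝ≥0∞) ≠ ⊤ := ENNReal.mul_ne_top ENNReal.coe_ne_top (ENNReal.natCast_ne_top _)
  have h4 : (c0 : ℝ≥0∞) * (U.card : ℝ≥0∞) ≤ ((U \ B).card : ℝ≥0∞) := by
    have e : 2 * (c0 : ℝ≥0∞) * (U.card : ℝ≥0∞) = (c0 : ℝ≥0∞) * (U.card : ℝ≥0∞) + c0 * (U.card : ℝ≥0∞) := by ring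
    rw [e] at h3
    exact (ENNReal.add_le_add_iff_right hfin).1 h3
  have h5 : (U \ B).card ≤ ((Finset.range (l.length + 1)).filter (fun i => GP D x l i)).card := by
    have hsub : U \ B ⊆ ((Finset.range (l.length + 1)).filter (fun i => GP D x l i)).image (vt x l) := by
      intro y hy
      rw [Finset.mem_sdiff] at hy
      obtain ⟨hyU, hyB⟩ := hy
      have hyW : y ∈ x :: l := List.mem_toFinset.1 hyU
      obtain ⟨i, hi⟩ := List.mem_iff_getElem?.1 hyW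
      have hil : i < (x :: l).length := by
        by_contra hc
        push Not at hc
        rw [List.getElem?_eq_none hc] at hi
        exact Option.some_ne_none _ hi.symm
      rw [List.length_cons] at hil
      have hvt := vt_get x l (i := i) (by omega)
      rw [hi] at hvt
      have hvt' : y = vt x l i := Option.some.inj hvt
      refine Finset.mem_image.2 ⟨i, ?_, hvt'.symm⟩
      refine Finset.mem_filter.2 ⟨Finset.mem_range.2 hil, ?_⟩
      rw [hB, Finset.mem_union, not_or] at hyB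
      obtain ⟨hb1, hb2⟩ := hyB
      constructor
      · by_contra hc
        exact hb1 (Finset.mem_filter.2 ⟨hyU, by rw [hvt']; exact hc⟩)
      · by_contra hc
        exact hb2 (Finset.mem_filter.2 ⟨hyU, by rw [hvt']; exact hc⟩)
    exact (Finset.card_le_card hsub).trans Finset.card_image_le
  have h6 : ((l.length : ℝ≥0∞) + 1) = (U.card : ℝ≥0∞) := by
    rw [hcard]; push_cast; rfl
  rw [h6]
  exact h4.trans (by exact_mod_cast h5)

end Pool.Agent.SAWG
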