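import Pool.Agent.SAWG.PRA
import Pool.Agent.SAWG.DEN

/-!
# SAWG module PRB: poor walks: many good pieces

PROOF.  `Ψ = ms (om ..)` is constant.  Suppose `3 β (Ψ + 1) < 1`.  `χ` as in `gen_fin` for `θ`; mass of `wc`: `≤ Ψ + tail ≤ Ψ + 1`; so mass of `cv jA (tw θ sa)` is `≤ β χ (∑_m (3β(Ψ+1))^m) χ =: C < ⊤`.
For a self-avoiding `l` of length `N` with `DD < q N`: `∏_{a<i} (1 + lam UU a) ≤ PP ≤ ofReal (exp (lam DD)) ≤ ofReal (exp (lam q N))` (`prod_le_exp`), and `cv jA (tw θ sa) x l = ∑_i jA x (l.take i) (θz)^(N-i)` (`cv_pos`), so by `pra`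
and `den` (number of good positions `≥ c0 N`), `(1+β/2)^k ≥ exp(β k/4)` (`prod_exp`, `β ≤ 2`): `exp (β c0 N/4) sa x l ≤ sa x l + exp (lam q N) θ⁻¹^N cv jA (tw θ sa) x l`.  Sum over the poor walks:
`exp (β c0 N/4) / 2 ≤ al N + (exp (lam q)/θ)^N C` for all large `N`.  `al N ≤ C' (1+ε)^N` with `1 + ε < exp (β c0/4)`, and `exp (lam q)/θ < exp (β c0/4)` (`hg`): contradiction for `N → ∞`.
-/

set_option autoImplicit false

open scoped ENNReal NNReal Classical
open Filter Topology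

namespace Pool.Agent.SAWG

open Pool.Agent.SWH (Ker idK adK tp endp Sw endp_nil endp_cons endp_append endp_mem)

variable {V : Type}

/-- the analytic end of the proof -/
private theorem prb_end {g h e A B : ℝ} (he : 0 < e) (heg : e < g) (hh : 0 < h) (hhg : h < g)
    (H : ∃ N0 : ℕ, ∀ N : ℕ, N0 ≤ N → g ^ N / 2 ≤ A * e ^ N + h ^ N * B) : False := by
  obtain ⟨N0, H⟩ := H
  have hg : 0 < g := lt_trans he heg
  have t1 : Tendsto (fun N : ℕ => (e / g) ^ N) atTop (𝓝 0) :=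
    tendsto_pow_atTop_nhds_zero_of_lt_one (by positivity) (by rw [div_lt_one hg]; exact heg)
  have t2 : Tendsto (fun N : ℕ => (h / g) ^ N) atTop (𝓝 0) :=
    tendsto_pow_atTop_nhds_zero_of_lt_one (by positivity) (by rw [div_lt_one hg]; exact hhg)
  have t3 : Tendsto (fun N : ℕ => A * (e / g) ^ N + (h / g) ^ N * B) atTop (𝓝 (A * 0 + 0 * B)) :=
    (t1.const_mul A).add (t2.mul_const B)
  have t4 : (1 / 2 : ℝ) ≤ A * 0 + 0 * B := by
    refine ge_of_tendsto t3 ?_
    filter_upwards [eventually_ge_atTop N0] with N hN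
    have := H N hN
    have hgN : 0 < g ^ N := by positivity
    rw [div_pow, div_pow]
    have e1 : A * (e ^ N / g ^ N) + h ^ N / g ^ N * B = (A * e ^ N + h ^ N * B) / g ^ N := by
      field_simp
    rw [e1, le_div_iff₀ hgN]
    linarith
  linarith

private theorem prb_tail (G : SimpleGraph V) (z θ : ℝ≥0∞) (H : ℕ) (y : V) :
    ms (rs (fun _ l => H < l.length) (tw θ (sa G z))) y = tail G z θ H y := by
  have := sum_len (G := G) z (fun n => if H < n then θ ^ n else 0) y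
  unfold tail
  calc ms (rs (fun _ l => H < l.length) (tw θ (sa G z))) y
      = ∑' l : List V, sa G z y l * (if H < l.length then θ ^ l.length else 0) := by
        unfold ms
        refine tsum_congr fun l => ?_
        simp only [rs, tw]
        split_ifs
        · rw [mul_comm]
        · rw [mul_zero]
    _ = _ := by
        rw [this]
        refine tsum_congr fun n => ?_
        split_ifs
        · rfl
        · rw [mul_zero]

private theorem prb_tw (G : SimpleGraph V) (z θ : ℝ≥0∞) (y : V) :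
    ms (tw θ (sa G z)) y = ∑' n, al G z n y * θ ^ n := by
  rw [← sum_len z (fun n => θ ^ n) y]
  unfold ms
  exact tsum_congr fun l => mul_comm _ _

private theorem prb_jA {D : Dat V} {R H : ℕ} {lam θ β : ℝ≥0∞} {χ a : ℝ≥0∞} (hχ : ∀ y, ms (tw θ (sa D.G D.z)) y ≤ χ)
    (ha : ∀ y, ms (wc D R H lam θ) y ≤ a) (y : V) :
    ms (jA D R H lam θ β) y ≤ β * (χ * (1 - 3 * β * a)⁻¹) := by
  have h1 : ms (jA D R H lam θ β) y = ∑' m : ℕ, ms (sc β (cv (tw θ (sa D.G D.z)) (pwr (sc (3 * β) (wc D R H lam θ)) m))) y := by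
    unfold ms jA
    exact ENNReal.tsum_comm
  rw [h1]
  calc ∑' m : ℕ, ms (sc β (cv (tw θ (sa D.G D.z)) (pwr (sc (3 * β) (wc D R H lam θ)) m))) y
      ≤ ∑' m : ℕ, β * (χ * (3 * β * a) ^ m) := by
        refine ENNReal.tsum_le_tsum fun m => ?_
        rw [ms_sc]
        refine mul_le_mul_right ?_ _
        have hw : ∀ y, ms (sc (3 * β) (wc D R H lam θ)) y ≤ 3 * β * a := by
          intro y
          rw [ms_sc]
          exact mul_le_mul_right (ha y) _
        refine (ms_cv_le (fun y => ms_pwr_le hw m y)).trans ?_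
        exact mul_le_mul_left (hχ y) _
    _ = β * (χ * (1 - 3 * β * a)⁻¹) := by
        rw [ENNReal.tsum_mul_left, ENNReal.tsum_mul_left, ENNReal.tsum_geometric]

private theorem prb_scal {z θ : ℝ≥0∞} (hz : z ≠ 0) (hzt : z ≠ ⊤) (hθ : θ ≠ 0) (hθt : θ ≠ ⊤) {i N : ℕ} (hi : i ≤ N) :
    z ^ N * (z * θ)⁻¹ ^ i = θ⁻¹ ^ N * (θ ^ (N - i) * z ^ (N - i)) := by
  obtain ⟨m, rfl⟩ := Nat.exists_eq_add_of_le hi
  have e1 : i + m - i = m := by omega
  rw [e1, ENNReal.mul_inv (Or.inl hz) (Or.inl hzt), mul_pow, pow_add z, pow_add θ⁻¹]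
  have hz1 : z ^ i * z⁻¹ ^ i = 1 := by rw [← mul_pow, ENNReal.mul_inv_cancel hz hzt, one_pow]
  have hθ1 : θ⁻¹ ^ m * θ ^ m = 1 := by rw [← mul_pow, ENNReal.inv_mul_cancel hθ hθt, one_pow]
  calc z ^ i * z ^ m * (z⁻¹ ^ i * θ⁻¹ ^ i) = (z ^ i * z⁻¹ ^ i) * (z ^ m * θ⁻¹ ^ i) := by ring
    _ = (θ⁻¹ ^ m * θ ^ m) * (z ^ m * θ⁻¹ ^ i) := by rw [hz1, hθ1]
    _ = _ := by ring

private theorem prb_pt {D : Dat V} {ρ κ K K1 : ℝ≥0∞} {c0 : ℝ≥0} (hs : Sc D ρ κ K K1 c0) {R H : ℕ} (hR : 1 ≤ R) {lam θ β q : ℝ≥0}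
    (hθ0 : θ ≠ 0) (hθ : θ < 1) (hβ2 : β ≤ 2) (h3 : (1 + lam * um D K1) ^ (2 * R + rp D) ≤ 3)
    (hβ : (β : ℝ≥0∞) * (B0 D + R) ≤ 2⁻¹) {x : V} {l : List V} (hw : Sw D.G x l) (hq : DD D R x l < q * l.length) :
    ENNReal.ofReal (Real.exp (β * c0 / 4) ^ l.length) * sa D.G D.z x l ≤ sa D.G D.z x l +
      ENNReal.ofReal (Real.exp (lam * q) ^ l.length) * (θ : ℝ≥0∞)⁻¹ ^ l.length *
        cv (jA D R H lam θ β) (tw θ (sa D.G D.z)) x l := by
  have hz0 := hs.ug.zpos
  have hzt : D.z ≠ ⊤ := ne_top_of_le_ne_top ENNReal.one_ne_top hs.ug.zle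
  have hθ0' : (θ : ℝ≥0∞) ≠ 0 := by exact_mod_cast hθ0
  have hθ1' : (θ : ℝ≥0∞) ≤ 1 := by exact_mod_cast hθ.le
  have hp := pra hs (H := H) hR (lam := lam) (θ := θ) (β := β) ENNReal.coe_ne_top ENNReal.coe_ne_top hθ0' hθ1' h3 hβ hw
  -- lower bound
  have hlow : ENNReal.ofReal (Real.exp (β * c0 / 4) ^ l.length) ≤
      (1 + (β : ℝ≥0∞) / 2) ^ ((Finset.range (l.length + 1)).filter (fun i => GP D x l i)).card := by
    have hd := den hs hw
    set s := (Finset.range (l.length + 1)).filter (fun i => GP D x l i) with hsdef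
    have hy : ∀ i ∈ s, (fun _ : ℕ => (β : ℝ≥0∞) / 2) i ≤ 1 := by
      intro i _
      have : (β : ℝ≥0∞) ≤ 2 := by exact_mod_cast hβ2
      exact ENNReal.div_le_of_le_mul (by simpa using this)
    have h1 := prod_exp s (fun _ => (β : ℝ≥0∞) / 2) hy
    rw [Finset.prod_const, Finset.sum_const, nsmul_eq_mul] at h1
    refine le_trans ?_ h1
    apply ENNReal.ofReal_le_ofReal
    rw [← Real.exp_nat_mul]
    apply Real.exp_le_exp.2
    have e1 : ((s.card : ℝ≥0∞) * ((β : ℝ≥0∞) / 2)).toReal = s.card * (β / 2) := by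
      rw [ENNReal.toReal_mul, ENNReal.toReal_div]
      simp
    rw [e1]
    have h2 : (c0 : ℝ) * l.length ≤ s.card := by
      have h3 : (c0 : ℝ≥0∞) * (l.length : ℝ≥0∞) ≤ s.card := le_trans (by gcongr; exact le_self_add) hd
      have h4 : ((c0 * (l.length : ℝ≥0) : ℝ≥0) : ℝ≥0∞) ≤ ((s.card : ℝ≥0) : ℝ≥0∞) := by
        push_cast
        exact h3
      exact_mod_cast ENNReal.coe_le_coe.1 h4
    have hβn : (0 : ℝ) ≤ β := β.2
    nlinarith
  -- upper bound
  have hDt : DD D R x l ≠ ⊤ := ne_top_of_lt hq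
  have hU : ∀ a ∈ Finset.range (l.length + 1), (fun a => (lam : ℝ≥0∞) * UU D R x l a) a ≠ ⊤ := by
    intro a ha
    have : UU D R x l a ≤ DD D R x l := by
      unfold DD
      exact Finset.single_le_sum (f := fun a => UU D R x l a) (fun _ _ => zero_le) ha
    exact ENNReal.mul_ne_top ENNReal.coe_ne_top (ne_top_of_le_ne_top hDt this)
  have hup : ∀ i ≤ l.length, (∏ a ∈ Finset.range i, (1 + lam * UU D R x l a)) ≤
      ENNReal.ofReal (Real.exp (lam * q) ^ l.length) := by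
    intro i hi
    calc (∏ a ∈ Finset.range i, (1 + lam * UU D R x l a)) ≤ ∏ a ∈ Finset.range (l.length + 1), (1 + lam * UU D R x l a) := by
          refine Finset.prod_le_prod_of_subset_of_one_le' ?_ ?_
          · intro a ha
            rw [Finset.mem_range] at ha ⊢
            omega
          · intro a _ _
            exact le_self_add
      _ ≤ ENNReal.ofReal (Real.exp (∑ a ∈ Finset.range (l.length + 1), (lam : ℝ≥0∞) * UU D R x l a).toReal) :=
          prod_le_exp _ _ hU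
      _ ≤ _ := by
          apply ENNReal.ofReal_le_ofReal
          rw [← Real.exp_nat_mul]
          apply Real.exp_le_exp.2
          rw [← Finset.mul_sum, ENNReal.toReal_mul]
          have h5 : (∑ a ∈ Finset.range (l.length + 1), UU D R x l a).toReal ≤ q * l.length := by
            have h6 : (DD D R x l) ≤ ((q * (l.length : ℝ≥0) : ℝ≥0) : ℝ≥0∞) := by
              push_cast
              exact hq.le
            have h7 := ENNReal.toReal_mono ENNReal.coe_ne_top h6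
            have h8 : (((q * (l.length : ℝ≥0) : ℝ≥0) : ℝ≥0∞)).toReal = q * l.length := by
              rw [ENNReal.coe_toReal]
              push_cast
              rfl
            rw [h8] at h7
            exact h7
          have h9 : ((lam : ℝ≥0∞)).toReal = lam := rfl
          rw [h9]
          calc (lam : ℝ) * (∑ a ∈ Finset.range (l.length + 1), UU D R x l a).toReal ≤ lam * (q * l.length) :=
                mul_le_mul_of_nonneg_left h5 lam.2
            _ = _ := by ring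
  have hsa : sa D.G D.z x l = D.z ^ l.length := by
    unfold sa
    rw [if_pos hw]
  have hcv : cv (jA D R H lam θ β) (tw θ (sa D.G D.z)) x l =
      ∑ i ∈ Finset.range (l.length + 1), jA D R H lam θ β x (l.take i) * ((θ : ℝ≥0∞) ^ (l.length - i) * D.z ^ (l.length - i)) := by
    rw [cv_pos]
    refine Finset.sum_congr rfl fun i hi => ?_
    rw [Finset.mem_range] at hi
    have hi' : i ≤ l.length := by omega
    show jA D R H lam θ β x (l.take i) * ((θ : ℝ≥0∞) ^ (sg l i l.length).length * sa D.G D.z (vt x l i) (sg l i l.length)) = _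
    rw [sg_length l hi' le_rfl, sa_sg D.z hw hi' le_rfl]
  rw [hsa, hcv]
  calc ENNReal.ofReal (Real.exp (β * c0 / 4) ^ l.length) * D.z ^ l.length
      ≤ (1 + ∑ i ∈ Finset.range (l.length + 1), (D.z * θ)⁻¹ ^ i *
        (∏ a ∈ Finset.range i, (1 + lam * UU D R x l a)) * jA D R H lam θ β x (l.take i)) * D.z ^ l.length :=
        mul_le_mul_left (hlow.trans hp) _
    _ = D.z ^ l.length + ∑ i ∈ Finset.range (l.length + 1), (D.z ^ l.length * (D.z * θ)⁻¹ ^ i) *
        ((∏ a ∈ Finset.range i, (1 + lam * UU D R x l a)) * jA D R H lam θ β x (l.take i)) := by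
        rw [add_mul, one_mul, Finset.sum_mul]
        congr 1
        exact Finset.sum_congr rfl fun i _ => by ring
    _ ≤ D.z ^ l.length + ∑ i ∈ Finset.range (l.length + 1), ((θ : ℝ≥0∞)⁻¹ ^ l.length * ((θ : ℝ≥0∞) ^ (l.length - i) * D.z ^ (l.length - i))) *
        (ENNReal.ofReal (Real.exp (lam * q) ^ l.length) * jA D R H lam θ β x (l.take i)) := by
        refine add_le_add le_rfl (Finset.sum_le_sum fun i hi => mul_le_mul' ?_ (mul_le_mul' ?_ le_rfl))
        · rw [Finset.mem_range] at hi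
          exact (prb_scal hz0 hzt hθ0' ENNReal.coe_ne_top (by omega)).le
        · rw [Finset.mem_range] at hi
          exact hup i (by omega)
    _ = _ := by
        rw [Finset.mul_sum]
        congr 1
        exact Finset.sum_congr rfl fun i _ => by ring

theorem prb {D : Dat V} {ρ κ K K1 : ℝ≥0∞} {c0 : ℝ≥0} (hs : Sc D ρ κ K K1 c0) {R H : ℕ} (hR : 1 ≤ R) {lam θ β q : ℝ≥0}
    (hθ0 : θ ≠ 0) (hθ : θ < 1) (hβ0 : β ≠ 0) (hβ2 : β ≤ 2) (h3 : (1 + lam * um D K1) ^ (2 * R + rp D) ≤ 3)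
    (hβ : (β : ℝ≥0∞) * (B0 D + R) ≤ 2⁻¹) (htail : ∀ x, tail D.G D.z θ H x ≤ 1)
    (hp : ∃ N0 : ℕ, ∀ N : ℕ, N0 ≤ N → ∀ x, 2⁻¹ ≤ ms (rs (Poor D R q N) (sa D.G D.z)) x)
    (hg : Real.exp (lam * q) < (θ : ℝ) * Real.exp (β * c0 / 4)) (x : V) :
    1 ≤ 3 * β * (ms (om D R H lam θ) x + 1) := by
  by_contra hcon
  push Not at hcon
  set Ψ := ms (om D R H lam θ) x with hΨ
  have hconst : ∀ y, ms (om D R H lam θ) y = Ψ := fun y => ms_const hs.ug.tr (InvP_om hs.cn.inv R H lam θ) y x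
  have hwc : ∀ y, ms (wc D R H lam θ) y ≤ Ψ + 1 := by
    intro y
    unfold wc
    rw [ms_ad, hconst y, prb_tail]
    exact add_le_add le_rfl (htail y)
  have hθ' : (θ : ℝ≥0∞) < 1 := by exact_mod_cast hθ
  obtain ⟨χ, hχt, hχ⟩ := gen_fin hs.ug hθ'
  have hχ' : ∀ y, ms (tw (θ : ℝ≥0∞) (sa D.G D.z)) y ≤ χ := fun y => by rw [prb_tw]; exact hχ y
  set C := (β : ℝ≥0∞) * (χ * (1 - 3 * β * (Ψ + 1))⁻¹) * χ with hC
  have hCt : C ≠ ⊤ := by
    rw [hC]
    refine ENNReal.mul_ne_top (ENNReal.mul_ne_top ENNReal.coe_ne_top (ENNReal.mul_ne_top hχt ?_)) hχt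
    rw [ENNReal.inv_ne_top]
    exact (tsub_pos_of_lt hcon).ne'
  have hcvC : ms (cv (jA D R H lam θ β) (tw (θ : ℝ≥0∞) (sa D.G D.z))) x ≤ C :=
    (ms_cv_le hχ').trans (mul_le_mul_left (prb_jA hχ' hwc x) _)
  -- real numbers
  have hβpos : (0 : ℝ) < β := by exact_mod_cast pos_iff_ne_zero.2 hβ0
  have hcpos : (0 : ℝ) < c0 := by exact_mod_cast pos_iff_ne_zero.2 hs.c0p
  have hθpos : (0 : ℝ) < θ := by exact_mod_cast pos_iff_ne_zero.2 hθ0
  set g : ℝ := Real.exp (β * c0 / 4) with hgdef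
  have hg1 : 1 < g := by
    rw [hgdef]
    apply Real.one_lt_exp_iff.2
    positivity
  set ε : ℝ := (g - 1) / 2 with hε
  have hεpos : 0 < ε := by rw [hε]; linarith
  obtain ⟨A, hAt, hA⟩ := hs.ug.alg (ENNReal.ofReal ε) (by simpa using hεpos)
  obtain ⟨N0, hN0⟩ := hp
  refine prb_end (g := g) (h := Real.exp (lam * q) / θ) (e := 1 + ε) (A := A.toReal) (B := C.toReal) (by linarith)
    (by rw [hε]; linarith) (by positivity) (by rw [div_lt_iff₀ hθpos]; linarith) ⟨N0, fun N hN => ?_⟩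
  have h1 := hN0 N hN x
  have h2 : ENNReal.ofReal (g ^ N) * ms (rs (Poor D R q N) (sa D.G D.z)) x ≤
      al D.G D.z N x + ENNReal.ofReal (Real.exp (lam * q) ^ N) * (θ : ℝ≥0∞)⁻¹ ^ N * C := by
    calc ENNReal.ofReal (g ^ N) * ms (rs (Poor D R q N) (sa D.G D.z)) x
        = ∑' l, ENNReal.ofReal (g ^ N) * rs (Poor D R q N) (sa D.G D.z) x l := by
          unfold ms
          rw [ENNReal.tsum_mul_left]
      _ ≤ ∑' l, (rs (LN N) (sa D.G D.z) x l + ENNReal.ofReal (Real.exp (lam * q) ^ N) * (θ : ℝ≥0∞)⁻¹ ^ N *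
            cv (jA D R H lam θ β) (tw (θ : ℝ≥0∞) (sa D.G D.z)) x l) := by
          refine ENNReal.tsum_le_tsum fun l => ?_
          by_cases hP : Poor D R q N x l
          · by_cases hw : Sw D.G x l
            · have h3' := prb_pt hs (H := H) hR hθ0 hθ hβ2 h3 hβ hw (q := q) (by rw [hP.1]; exact hP.2)
              rw [hP.1] at h3'
              have e1 : rs (Poor D R q N) (sa D.G D.z) x l = sa D.G D.z x l := by
                unfold rs
                rw [if_pos hP]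
              have e2 : rs (LN N) (sa D.G D.z) x l = sa D.G D.z x l := by
                have hL : (LN N : V → List V → Prop) x l := hP.1
                unfold rs
                rw [if_pos hL]
              rw [e1, e2]
              exact h3'
            · have e1 : rs (Poor D R q N) (sa D.G D.z) x l = 0 := by
                unfold rs sa
                rw [if_neg hw, ite_self]
              rw [e1, mul_zero]
              exact zero_le
          · have e1 : rs (Poor D R q N) (sa D.G D.z) x l = 0 := by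
              unfold rs
              rw [if_neg hP]
            rw [e1, mul_zero]
            exact zero_le
      _ = al D.G D.z N x + ENNReal.ofReal (Real.exp (lam * q) ^ N) * (θ : ℝ≥0∞)⁻¹ ^ N *
            ms (cv (jA D R H lam θ β) (tw (θ : ℝ≥0∞) (sa D.G D.z))) x := by
          rw [ENNReal.tsum_add, ENNReal.tsum_mul_left]
          rfl
      _ ≤ _ := by gcongr
  have h4 : ENNReal.ofReal (g ^ N) * 2⁻¹ ≤ A * (1 + ENNReal.ofReal ε) ^ N + ENNReal.ofReal (Real.exp (lam * q) ^ N) * (θ : ℝ≥0∞)⁻¹ ^ N * C :=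
    (mul_le_mul_right h1 _).trans (h2.trans (add_le_add (hA N x) le_rfl))
  have hθ0' : (θ : ℝ≥0∞) ≠ 0 := by exact_mod_cast hθ0
  have ht1 : A * (1 + ENNReal.ofReal ε) ^ N ≠ ⊤ :=
    ENNReal.mul_ne_top hAt (ENNReal.pow_ne_top (ENNReal.add_ne_top.2 ⟨ENNReal.one_ne_top, ENNReal.ofReal_ne_top⟩))
  have ht2 : ENNReal.ofReal (Real.exp (lam * q) ^ N) * (θ : ℝ≥0∞)⁻¹ ^ N * C ≠ ⊤ :=
    ENNReal.mul_ne_top (ENNReal.mul_ne_top ENNReal.ofReal_ne_top (ENNReal.pow_ne_top (ENNReal.inv_ne_top.2 hθ0'))) hCt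
  have h5 := ENNReal.toReal_mono (ENNReal.add_ne_top.2 ⟨ht1, ht2⟩) h4
  rw [ENNReal.toReal_add ht1 ht2, ENNReal.toReal_mul, ENNReal.toReal_mul, ENNReal.toReal_mul, ENNReal.toReal_mul,
    ENNReal.toReal_pow, ENNReal.toReal_pow, ENNReal.toReal_add ENNReal.one_ne_top ENNReal.ofReal_ne_top, ENNReal.toReal_ofReal hεpos.le,
    ENNReal.toReal_ofReal (by positivity), ENNReal.toReal_ofReal (by positivity), ENNReal.toReal_inv, ENNReal.toReal_inv] at h5
  simp only [ENNReal.toReal_one, ENNReal.toReal_ofNat, ENNReal.coe_toReal] at h5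
  calc g ^ N / 2 = g ^ N * 2⁻¹ := by ring
    _ ≤ _ := h5
    _ = _ := by
      rw [div_pow, inv_pow, div_eq_mul_inv]

end Pool.Agent.SAWG
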