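import Pool.Agent.SAWG.NCB
import Pool.Agent.SAWG.PRB
import Pool.Agent.SAWG.POR

/-!
# SAWG module STP: the improvement step at one scale

PROOF.  `ffb` gives `δ ms(..) ≤ 4 d^(2J) K1 (r'+1)`, so `ms(..) + 1 ≤ Φ` by `hΦ`; `ric`, `por`, `prb` give `1 ≤ 3 β' (Ψ + 1)`, `Ψ = ms (om D R H lam θ') x`; since `6 β' ≤ 1`: `Ψ ≥ 1/(3β') - 1 ≥ 1/(6β')`.  `Ψ` is finite
(sum of `al n` over `n ≤ H`).  `ncb` and `6 d^(2J)/(lam Ψ) ≤ 36 d^(2J) β'/lam` (monotonicity of `Cn` in `K`).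
-/

set_option autoImplicit false

open scoped ENNReal NNReal Classical
open Filter Topology

namespace Pool.Agent.SAWG

open Pool.Agent.SWH (Ker idK adK tp endp Sw endp_nil endp_cons endp_append endp_mem)

variable {V : Type}

theorem Cn_mono {G : SimpleGraph V} {z κ κ' K K' : ℝ≥0∞} {r r' : ℕ} {ν : PW V} (h : Cn G z r κ K ν) (hr : r ≤ r')
    (hκ : κ ≤ κ') (hK : K ≤ K') : Cn G z r' κ' K' ν where
  inv := h.inv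
  one := h.one
  len := fun x l hx => le_trans (h.len x l hx) hr
  le := fun x l => le_trans (h.le x l) (by gcongr)
  kb := KB_le hκ h.kb

private theorem stp_PP_one (D : Dat V) (R : ℕ) (lam : ℝ≥0∞) (x : V) (l : List V) : 1 ≤ PP D R lam x l := by
  unfold PP
  induction (l.length + 1) with
  | zero => simp
  | succ n ih =>
    rw [Finset.prod_range_succ]
    calc (1 : ℝ≥0∞) = 1 * 1 := by rw [one_mul]
      _ ≤ _ := mul_le_mul' ih le_self_add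

private theorem stp_om_le (D : Dat V) (R H : ℕ) (lam θ : ℝ≥0∞) (x : V) (l : List V) :
    om D R H lam θ x l ≤ sa D.G D.z x l * θ ^ l.length := by
  unfold om
  split_ifs
  · have h1 : (PP D R lam x l)⁻¹ ≤ 1 := ENNReal.inv_le_one.2 (stp_PP_one D R lam x l)
    calc θ ^ l.length * sa D.G D.z x l * (PP D R lam x l)⁻¹
        ≤ θ ^ l.length * sa D.G D.z x l * 1 := by gcongr
      _ = sa D.G D.z x l * θ ^ l.length := by rw [mul_one, mul_comm]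
  · exact zero_le

private theorem stp_one_le {b : ℝ≥0} {Ψ : ℝ≥0∞} (hΨ : Ψ ≠ ⊤) (h6 : 6 * b ≤ 1)
    (h : 1 ≤ 3 * (b : ℝ≥0∞) * (Ψ + 1)) : 1 ≤ 6 * (b : ℝ≥0∞) * Ψ := by
  lift Ψ to ℝ≥0 using hΨ
  have h1 : (1 : ℝ≥0) ≤ 3 * b * (Ψ + 1) := by exact_mod_cast h
  have h2 : (1 : ℝ≥0) ≤ 6 * b * Ψ := by
    have h3 : (1 : ℝ) ≤ 3 * b * (Ψ + 1) := by exact_mod_cast h1
    have h4 : (6 : ℝ) * b ≤ 1 := by exact_mod_cast h6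
    have h5 : (1 : ℝ) ≤ 6 * b * Ψ := by nlinarith
    exact_mod_cast h5
  exact_mod_cast h2

theorem stp {D : Dat V} {ρ κ K K1 Φ : ℝ≥0∞} {c0 : ℝ≥0} (hs : Sc D ρ κ K K1 c0)
    (hH : ∀ (n : ℕ) (c : ℝ≥0∞), KB (kr (rs (LN n) (sa D.G D.z))) c → 1 ≤ c) {R H : ℕ} {θ θ' β β' q lam δ : ℝ≥0}
    (hR : 1 ≤ R) (hR' : rp D ≤ R) (hRH : R ≤ H)
    (hθ0 : θ ≠ 0) (hθ : θ < 1) (hθ0' : θ' ≠ 0) (hθ' : θ' < 1)
    (ht : ∀ x, tail D.G D.z θ R x ≤ 1) (ht' : ∀ x, tail D.G D.z θ' H x ≤ 1)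
    (hM : 20 * (((H : ℝ≥0∞) + 2 * D.J + D.r + 2) ^ 2 * κ) ≤ 1)
    (hδ : δ ≠ 0) (hδθ : (1 + δ) * θ < 1) (hθr : 1 ≤ 2 * θ ^ rp D)
    (hΦ : 4 * (D.d : ℝ≥0∞) ^ (2 * D.J) * K1 * ((rp D : ℝ≥0∞) + 1) / δ + 1 ≤ Φ)
    (hβ : (β : ℝ≥0∞) * (((rp D : ℝ≥0∞) + 1) ^ 2 + B0 D * ((rp D : ℝ≥0∞) + 1)) * K1 ≤ 2⁻¹)
    (hκ : 2 * (β * κ * Φ) ≤ 1) (hg : 1 < (θ : ℝ) * Real.exp (β * q / 4))
    (hl0 : lam ≠ 0) (h3 : (1 + lam * um D K1) ^ (2 * R + rp D) ≤ 3)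
    (hβ0' : β' ≠ 0) (hβ6 : 6 * β' ≤ 1) (hβ' : (β' : ℝ≥0∞) * (B0 D + R) ≤ 2⁻¹)
    (hg' : Real.exp (lam * q) < (θ' : ℝ) * Real.exp (β' * c0 / 4)) (m : ℕ) :
    ∃ ν' : PW V, Cn D.G D.z (m * (H + rp D)) ((2 * (D.d : ℝ≥0∞) ^ (2 * D.J) * κ) ^ m)
      ((36 * (D.d : ℝ≥0∞) ^ (2 * D.J) * β' / lam) ^ m) ν' := by
  rcases isEmpty_or_nonempty V with hV | ⟨⟨x⟩⟩
  · refine ⟨fun _ _ => 0, ⟨?_, ?_, ?_, ?_, ?_⟩⟩
    · intro φ x; exact (hV.false x).elim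
    · intro x; exact (hV.false x).elim
    · intro x; exact (hV.false x).elim
    · intro x; exact (hV.false x).elim
    · intro v
      rw [tsum_empty]
      exact zero_le
  have hMR : 20 * (((R : ℝ≥0∞) + 2 * D.J + D.r + 2) ^ 2 * κ) ≤ 1 := by
    refine le_trans ?_ hM
    have : (R : ℝ≥0∞) ≤ H := by exact_mod_cast hRH
    gcongr
  have hδ0 : (δ : ℝ≥0∞) ≠ 0 := by exact_mod_cast hδ
  have hΦ' : ∀ x, ms (rs (fun y p => FF D y p ∧ 1 ≤ p.length ∧ p.length ≤ R) (tw θ (sa D.G D.z))) x + 1 ≤ Φ := by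
    intro x
    have h1 := ffb hs hMR (θ := (θ : ℝ≥0∞)) (δ := (δ : ℝ≥0∞)) hδ0 ENNReal.coe_ne_top
      (by exact_mod_cast hδθ) (by exact_mod_cast hθr) x
    refine le_trans ?_ hΦ
    gcongr
    rw [ENNReal.le_div_iff_mul_le (Or.inl hδ0) (Or.inl ENNReal.coe_ne_top), mul_comm]
    exact h1
  have hr := ric hs (q := q) hθ0 hθ hβ ht hΦ' hκ
  have hp := por hs hH hθ0 hr hg
  have hβ2 : β' ≤ 2 := by
    have h4 : (6 : ℝ) * β' ≤ 1 := by exact_mod_cast hβ6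
    have h5 : (β' : ℝ) ≤ 2 := by linarith
    exact_mod_cast h5
  have hq := prb hs hR hθ0' hθ' hβ0' hβ2 h3 hβ' ht' hp hg' x
  obtain ⟨χ, hχ, hgen⟩ := gen_fin hs.ug (θ := (θ' : ℝ≥0∞)) (by exact_mod_cast hθ')
  have hΨt : ms (om D R H lam θ') x ≠ ⊤ := by
    refine ne_top_of_le_ne_top hχ (le_trans ?_ (hgen x))
    rw [← sum_len D.z (fun n => (θ' : ℝ≥0∞) ^ n) x]
    exact ENNReal.tsum_le_tsum fun l => stp_om_le D R H lam θ' x l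
  have h6 := stp_one_le hΨt hβ6 hq
  have hΨ0 : ms (om D R H lam θ') x ≠ 0 := by
    intro h0
    rw [h0, mul_zero] at h6
    exact absurd h6 (by simp)
  obtain ⟨ν', hν⟩ := ncb hs hR hR' (lam := (lam : ℝ≥0∞)) (θ := (θ' : ℝ≥0∞)) (by exact_mod_cast hl0)
    ENNReal.coe_ne_top (by exact_mod_cast hθ'.le) h3 hM x hΨ0 hΨt m
  refine ⟨ν', Cn_mono hν le_rfl le_rfl (pow_le_pow_left' ?_ m)⟩
  have hinv : (ms (om D R H lam θ') x)⁻¹ ≤ 6 * β' := by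
    calc (ms (om D R H lam θ') x)⁻¹ = 1 * (ms (om D R H lam θ') x)⁻¹ := by rw [one_mul]
      _ ≤ (6 * β' * ms (om D R H lam θ') x) * (ms (om D R H lam θ') x)⁻¹ := by gcongr
      _ = 6 * β' := by rw [mul_assoc, ENNReal.mul_inv_cancel hΨ0 hΨt, mul_one]
  rw [div_eq_mul_inv, div_eq_mul_inv, ENNReal.mul_inv (Or.inr hΨt) (Or.inr hΨ0)]
  calc 6 * (D.d : ℝ≥0∞) ^ (2 * D.J) * ((lam : ℝ≥0∞)⁻¹ * (ms (om D R H lam θ') x)⁻¹)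
      ≤ 6 * (D.d : ℝ≥0∞) ^ (2 * D.J) * ((lam : ℝ≥0∞)⁻¹ * (6 * β')) := by gcongr
    _ = 36 * (D.d : ℝ≥0∞) ^ (2 * D.J) * β' * (lam : ℝ≥0∞)⁻¹ := by ring

end Pool.Agent.SAWG
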