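import Pool.Agent.SAWG.AS1
import Pool.Agent.SAWG.STP
import Pool.Agent.SAWG.ITR

/-!
# SAWG module AS2: the improvement step

PROOF.  `δ0 = 1/(3A(A+1))`, `ε = δ0/(32 (1+x))` and `s = 3A(A+1) log ℓ`, `ℓ` a large natural number: `exp (-s) = H^-3`, `H = ℓ^(A(A+1))`, `exp (δ0 s) = ℓ`.  Data from `as1`.  Put `R = ℓ^A`, `ℓ' = ℓ^(A+1)`, `H = ℓ'^A`, `r' = r + 2J`,
`E = exp (ε s) = ℓ^(ε/δ0) ≤ ℓ^(1/32)`.  So `r' + 1, d^(2J), B0 ≤ E`, `K1 ≤ exp (x s) E`.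
`θ = 1 - 1/ℓ`, `δ = 1/(2ℓ)`, `θ' = 1 - 1/ℓ'`: tails by the hypothesis (`R = ℓ^A`, `H = ℓ'^A`).
`hM`: `20 (H + 2J + r + 2)^2 H^-3 ≤ 20 (2H)^2 H^-3 ≤ 1`.  `hθr`: `(1-1/ℓ)^r' ≥ 1 - r'/ℓ ≥ 1/2`.
`Lam = ((r'+1)^2 + B0 (r'+1)) K1 ≤ 2 E^3 exp (x s)` (and `Lam ≥ K1 > 0`), `β = 1/(2 Lam)`, `Φ = 8 ℓ d^(2J) K1 (r'+1) + 1 ≤ 9 ℓ E Lam`-ish; `hκ`: `2 β κ Φ = κ Φ / Lam ≤ 9 ℓ E H^-3 ≤ 1` (`K1 ≥ 1`: `1 = ms th ≤ K1 ∑...` is not needed: use `Lam ≥ K1 (r'+1)` and enlarge `K1` to `max K1 1`; note `Sc` is monotone in `K1`).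
`q = 20 Lam/ℓ`: `β q/4 = 5/(2ℓ)`, `hg`: `(1-1/ℓ) exp (5/(2ℓ)) ≥ (1-1/ℓ)(1+5/(2ℓ)) > 1` for `ℓ ≥ 2`.
`um = (r'+1) K1 ≤ Lam`; `lam = 1/(q ℓ' + (2R + r') um)`: `lam um (2R + r') ≤ 1`, so `(1 + lam um)^(2R+r') ≤ e ≤ 3`; `lam q ≤ 1/ℓ'`.
`β' = 12/(c0 ℓ')`: `6 β' ≤ 1`, `β' (B0 + R) ≤ 1/2` (`B0 + R ≤ ℓ^(1/32) + ℓ'/ℓ`), `hg'`: `exp (lam q) ≤ exp (1/ℓ') < (1 - 1/ℓ') exp (3/ℓ')` since `(1-y)(1+2y) > 1` for `0 < y < 1/2`.
`stp`: for all `m`: `Cn (m (H + r')) (κ'^m) (b'^m)`, `κ' = 2 d^(2J) exp (-s) ≤ exp (-(1-2ε)s)`, `b' = 36 d^(2J) β'/lam = (432 d^(2J)/c0) (q + (2R+r') um/ℓ') ≤ (432 E/c0) (20 Lam + 3 Lam)/ℓ ≤ (432*23*2/c0) E^4 exp (x s)/ℓ ≤ exp ((x + 6ε - δ0) s)`.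
`itr` with `a = (1-2ε)s`, `b = (x + 6ε - δ0) s`: `b/a < x - δ0/4` because `6ε + 2εx < (3/4) δ0`.
-/

set_option autoImplicit false

open scoped ENNReal NNReal Classical
open Filter Topology

namespace Pool.Agent.SAWG

open Pool.Agent.SWH (Ker idK adK tp endp Sw endp_nil endp_cons endp_append endp_mem)

variable {V : Type}

private theorem Sc_mono {D : Dat V} {ρ κ K K1 K1' : ℝ≥0∞} {c0 : ℝ≥0} (hs : Sc D ρ κ K K1 c0) (h : K1 ≤ K1')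
    (ht : K1' ≠ ⊤) : Sc D ρ κ K K1' c0 :=
  { hs with k1 := fun x l => (hs.k1 x l).trans (mul_le_mul' h le_rfl), k1t := ht }

/-- The improvement step at one scale with explicit parameters. -/
private theorem as2_scale {G : SimpleGraph V} {d : ℕ} {ρ z : ℝ≥0∞}
    (hH : ∀ (n : ℕ) (c : ℝ≥0∞), KB (kr (rs (LN n) (sa G z))) c → 1 ≤ c) {A l0 : ℕ} (hA : 1 ≤ A)
    (ht : ∀ ℓ : ℕ, l0 ≤ ℓ → ∀ R : ℕ, ℓ ^ A ≤ R → ∀ x, tail G z (1 - (ℓ : ℝ≥0∞)⁻¹) R x ≤ 1)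
    {ℓ : ℕ} (h80 : 80 ≤ ℓ) (hl0 : l0 ≤ ℓ) {E X κ : ℝ≥0} {ν : PW V} {r J : ℕ} {K K1 : ℝ≥0∞} {c0 : ℝ≥0}
    (hs : Sc (dt G d z ν r J) ρ κ K K1 c0) (hK1 : K1 ≤ (X * E : ℝ≥0))
    (hd : (d : ℝ≥0∞) ^ (2 * J) ≤ E) (hB : B0 (dt G d z ν r J) ≤ E) (hr : (r : ℝ≥0) + 2 * J + 2 ≤ E)
    (hE2 : E ^ 2 ≤ ℓ) (hX : 1 ≤ X) (hκ : κ = (((ℓ : ℝ≥0) ^ (A + 1)) ^ A)⁻¹ ^ 3)
    (hc : 72 ≤ c0 * ℓ) (m : ℕ) :
    ∃ ν' : PW V, Cn G z (m * ((ℓ ^ (A + 1)) ^ A + (r + 2 * J))) (((2 * E * κ : ℝ≥0) : ℝ≥0∞) ^ m)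
      (((432 * 43 / c0 * E ^ 4 * X / ℓ : ℝ≥0) : ℝ≥0∞) ^ m) ν' := by
  have hc0 : c0 ≠ 0 := hs.c0p
  have hc0' : 0 < c0 := pos_iff_ne_zero.mpr hc0
  have hs' : Sc (dt G d z ν r J) ρ κ K ((X * E : ℝ≥0) : ℝ≥0∞) c0 := Sc_mono hs hK1 ENNReal.coe_ne_top
  have hℓ1 : 1 ≤ ℓ := by omega
  have hℓ0 : (0 : ℝ≥0) < ℓ := by exact_mod_cast (by omega : 0 < ℓ)
  have hℓn : (ℓ : ℝ≥0) ≠ 0 := hℓ0.ne'
  have hℓ80 : (80 : ℝ≥0) ≤ ℓ := by exact_mod_cast h80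
  have hE1 : 2 ≤ E := le_trans (by simp) hr
  have hE0 : 0 < E := lt_of_lt_of_le (by norm_num) hE1
  have hEn : E ≠ 0 := hE0.ne'
  have hX0 : 0 < X := lt_of_lt_of_le one_pos hX
  have hXn : X ≠ 0 := hX0.ne'
  have hEl : E ≤ ℓ := le_trans (by
    have : E * 1 ≤ E * E := mul_le_mul' le_rfl (le_trans (by norm_num) hE1)
    rw [mul_one] at this
    rw [pow_two]
    exact this) hE2
  -- the parameters
  set R : ℕ := ℓ ^ A with hR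
  set ℓ' : ℕ := ℓ ^ (A + 1) with hℓ'
  set H : ℕ := ℓ' ^ A with hHd
  have hRℓ : (ℓ : ℝ≥0) ≤ R := by
    rw [hR]
    exact_mod_cast Nat.le_self_pow (by omega) ℓ
  have hℓ'R : (ℓ' : ℝ≥0) = R * ℓ := by
    rw [hℓ', hR]
    push_cast
    ring
  have hR0 : (0 : ℝ≥0) < R := lt_of_lt_of_le hℓ0 hRℓ
  have hℓ'0 : (0 : ℝ≥0) < ℓ' := by
    rw [hℓ'R]
    positivity
  have hℓ'n : (ℓ' : ℝ≥0) ≠ 0 := hℓ'0.ne'
  have hℓ'ℓ : (ℓ : ℝ≥0) ≤ ℓ' := by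
    rw [hℓ'R]
    calc (ℓ : ℝ≥0) = 1 * ℓ := (one_mul _).symm
      _ ≤ R * ℓ := mul_le_mul' (le_trans (le_trans (by norm_num) hℓ80) hRℓ) le_rfl
  have hHℓ : (ℓ' : ℝ≥0) ≤ H := by
    rw [hHd]
    exact_mod_cast Nat.le_self_pow (by omega) ℓ'
  have hH0 : (0 : ℝ≥0) < H := lt_of_lt_of_le hℓ'0 hHℓ
  have hRH : R ≤ H := by
    have h1 : (R : ℝ≥0) ≤ ℓ' := by
      rw [hℓ'R]
      calc (R : ℝ≥0) = R * 1 := (mul_one _).symm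
        _ ≤ R * ℓ := mul_le_mul' le_rfl (le_trans (by norm_num) hℓ80)
    exact_mod_cast h1.trans hHℓ
  have hrr : rp (dt G d z ν r J) = r + 2 * J := rfl
  have hrE : ((r + 2 * J : ℕ) : ℝ≥0) + 1 ≤ E := by
    refine le_trans ?_ hr
    push_cast
    have : (1 : ℝ≥0) ≤ 2 := by norm_num
    gcongr
  have hrE' : ((r + 2 * J : ℕ) : ℝ≥0) ≤ E := le_trans (by simp) hrE
  set q : ℝ≥0 := 40 * E ^ 3 * X / ℓ with hq
  set lam : ℝ≥0 := (q * ℓ' + 3 * R * (E ^ 2 * X))⁻¹ with hlam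
  set β : ℝ≥0 := (4 * E ^ 3 * X)⁻¹ with hβd
  set β' : ℝ≥0 := 12 / (c0 * ℓ') with hβ'd
  set δ : ℝ≥0 := (2 * (ℓ : ℝ≥0))⁻¹ with hδd
  set θ : ℝ≥0 := 1 - (ℓ : ℝ≥0)⁻¹ with hθd
  set θ' : ℝ≥0 := 1 - (ℓ' : ℝ≥0)⁻¹ with hθ'd
  have hθr : (θ : ℝ) = 1 - (ℓ : ℝ)⁻¹ := by
    rw [hθd, NNReal.coe_sub (inv_le_one_of_one_le₀ (le_trans (by norm_num) hℓ80))]
    simp
  have hθ'r : (θ' : ℝ) = 1 - (ℓ' : ℝ)⁻¹ := by
    rw [hθ'd, NNReal.coe_sub (inv_le_one_of_one_le₀ (le_trans (le_trans (by norm_num) hℓ80) hℓ'ℓ))]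
    simp
  have hθe : (θ : ℝ≥0∞) = 1 - (ℓ : ℝ≥0∞)⁻¹ := by
    rw [hθd, ENNReal.coe_sub, ENNReal.coe_inv hℓn]
    simp
  have hθ'e : (θ' : ℝ≥0∞) = 1 - (ℓ' : ℝ≥0∞)⁻¹ := by
    rw [hθ'd, ENNReal.coe_sub, ENNReal.coe_inv hℓ'n]
    simp
  have hinv : (ℓ : ℝ)⁻¹ ≤ 1 / 80 := by
    rw [inv_le_comm₀ (by exact_mod_cast hℓ0) (by norm_num)]
    norm_num
    exact_mod_cast h80
  have hinv0 : 0 < (ℓ : ℝ)⁻¹ := inv_pos.mpr (by exact_mod_cast hℓ0)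
  have hinv' : (ℓ' : ℝ)⁻¹ ≤ 1 / 80 := by
    refine le_trans ?_ hinv
    exact inv_anti₀ (by exact_mod_cast hℓ0) (by exact_mod_cast hℓ'ℓ)
  have hinv'0 : 0 < (ℓ' : ℝ)⁻¹ := inv_pos.mpr (by exact_mod_cast hℓ'0)
  have hδ0 : δ ≠ 0 := by
    rw [hδd]
    positivity
  have hκH : κ = (H : ℝ≥0)⁻¹ ^ 3 := by
    rw [hκ, hHd, hℓ']
    push_cast
    rfl
  have hH80 : (80 : ℝ≥0) ≤ H := hℓ80.trans (hℓ'ℓ.trans hHℓ)
  have hlam0 : 0 < q * ℓ' + 3 * R * (E ^ 2 * X) := by positivity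
  have key := stp (D := dt G d z ν r J) (Φ := ((9 * ℓ * E ^ 3 * X : ℝ≥0) : ℝ≥0∞)) hs' hH (R := R) (H := H) (θ := θ) (θ' := θ')
    (β := β) (β' := β') (q := q) (lam := lam) (δ := δ) ?hR ?hR' hRH ?hθ0 ?hθ ?hθ0' ?hθ' ?ht ?ht' ?hM ?hδ ?hδθ ?hθr
    ?hΦ ?hβ ?hκ ?hg ?hl0 ?h3 ?hβ0' ?hβ6 ?hβ' ?hg' m
  case hR =>
    have : (1 : ℝ≥0) ≤ R := le_trans (le_trans (by norm_num) hℓ80) hRℓ
    exact_mod_cast this
  case hR' =>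
    rw [hrr]
    exact_mod_cast hrE'.trans (hEl.trans hRℓ)
  case hθ0 =>
    intro h0
    rw [h0] at hθr
    simp at hθr
    linarith
  case hθ =>
    have : (θ : ℝ) < 1 := by rw [hθr]; linarith
    exact_mod_cast this
  case hθ0' =>
    intro h0
    rw [h0] at hθ'r
    simp at hθ'r
    linarith
  case hθ' =>
    have : (θ' : ℝ) < 1 := by rw [hθ'r]; linarith
    exact_mod_cast this
  case ht =>
    intro y
    rw [hθe]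
    exact ht ℓ hl0 R le_rfl y
  case ht' =>
    intro y
    rw [hθ'e]
    refine ht ℓ' ?_ H le_rfl y
    have : ℓ ≤ ℓ' := by exact_mod_cast hℓ'ℓ
    omega
  case hM =>
    have h1 : (H : ℝ≥0) + 2 * J + r + 2 ≤ 2 * H := by
      calc (H : ℝ≥0) + 2 * J + r + 2 = H + (r + 2 * J + 2) := by ring
        _ ≤ H + E := by gcongr
        _ ≤ H + H := by
          gcongr
          exact hEl.trans (hℓ'ℓ.trans hHℓ)
        _ = 2 * H := by ring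
    have h2 : 20 * (((H : ℝ≥0) + 2 * J + r + 2) ^ 2 * κ) ≤ 1 := by
      calc 20 * (((H : ℝ≥0) + 2 * J + r + 2) ^ 2 * κ) ≤ 20 * ((2 * H) ^ 2 * κ) := by gcongr
        _ = 80 / (H : ℝ≥0) := by
          rw [hκH]
          field_simp
          ring
        _ ≤ 1 := by
          rw [div_le_one₀ hH0]
          exact hH80
    show 20 * (((H : ℝ≥0∞) + 2 * (J : ℝ≥0∞) + (r : ℝ≥0∞) + 2) ^ 2 * (κ : ℝ≥0∞)) ≤ 1
    exact_mod_cast h2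
  case hδ => exact hδ0
  case hδθ =>
    have h1 : (1 + (δ : ℝ)) * (θ : ℝ) < 1 := by
      have h2 : (δ : ℝ) = (ℓ : ℝ)⁻¹ / 2 := by
        rw [hδd]
        push_cast
        rw [mul_inv]
        ring
      rw [h2, hθr]
      nlinarith
    exact_mod_cast h1
  case hθr =>
    rw [hrr]
    have h1 : (1 : ℝ) ≤ 2 * (θ : ℝ) ^ (r + 2 * J) := by
      have h2 : 1 + ((r + 2 * J : ℕ) : ℝ) * (-(ℓ : ℝ)⁻¹) ≤ (1 + -(ℓ : ℝ)⁻¹) ^ (r + 2 * J) :=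
        one_add_mul_le_pow (by linarith) _
      have h3 : ((r + 2 * J : ℕ) : ℝ) * 2 ≤ (ℓ : ℝ) := by
        have h4 : ((r + 2 * J : ℕ) : ℝ≥0) * 2 ≤ (ℓ : ℝ≥0) := by
          calc ((r + 2 * J : ℕ) : ℝ≥0) * 2 ≤ E * E := mul_le_mul' hrE' hE1
            _ = E ^ 2 := (pow_two E).symm
            _ ≤ ℓ := hE2
        exact_mod_cast h4
      have h5 : ((r + 2 * J : ℕ) : ℝ) * (ℓ : ℝ)⁻¹ ≤ 1 / 2 := by
        rw [← div_eq_mul_inv, div_le_iff₀ (by exact_mod_cast hℓ0)]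
        linarith
      rw [hθr]
      have h6 : (1 : ℝ) - (ℓ : ℝ)⁻¹ = 1 + -(ℓ : ℝ)⁻¹ := by ring
      rw [h6]
      linarith
    exact_mod_cast h1
  case hΦ =>
    show 4 * (d : ℝ≥0∞) ^ (2 * J) * ((X * E : ℝ≥0) : ℝ≥0∞) * (((r + 2 * J : ℕ) : ℝ≥0∞) + 1) / δ + 1 ≤
      ((9 * ℓ * E ^ 3 * X : ℝ≥0) : ℝ≥0∞)
    have h1 : 4 * E * (X * E) * E / δ + 1 ≤ 9 * ℓ * E ^ 3 * X := by
      have h2 : 4 * E * (X * E) * E / δ = 8 * ℓ * E ^ 3 * X := by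
        rw [hδd, div_inv_eq_mul]
        ring
      have h3 : (1 : ℝ≥0) ≤ ℓ * E ^ 3 * X := by
        calc (1 : ℝ≥0) = 1 * 1 ^ 3 * 1 := by norm_num
          _ ≤ ℓ * E ^ 3 * X := by
            gcongr
            · exact le_trans (by norm_num) hℓ80
            · exact le_trans (by norm_num) hE1
      rw [h2]
      calc 8 * (ℓ : ℝ≥0) * E ^ 3 * X + 1 ≤ 8 * (ℓ : ℝ≥0) * E ^ 3 * X + ℓ * E ^ 3 * X := by gcongr
        _ = 9 * ℓ * E ^ 3 * X := by ring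
    calc 4 * (d : ℝ≥0∞) ^ (2 * J) * ((X * E : ℝ≥0) : ℝ≥0∞) * (((r + 2 * J : ℕ) : ℝ≥0∞) + 1) / δ + 1
        ≤ 4 * (E : ℝ≥0∞) * ((X * E : ℝ≥0) : ℝ≥0∞) * (E : ℝ≥0∞) / δ + 1 := by
          have h5 : (((r + 2 * J : ℕ) : ℝ≥0∞) + 1) ≤ E := by exact_mod_cast hrE
          gcongr
      _ = ((4 * E * (X * E) * E / δ + 1 : ℝ≥0) : ℝ≥0∞) := by
          rw [ENNReal.coe_add, ENNReal.coe_div hδ0]
          push_cast
          rfl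
      _ ≤ ((9 * ℓ * E ^ 3 * X : ℝ≥0) : ℝ≥0∞) := by exact_mod_cast h1
  case hβ =>
    show (β : ℝ≥0∞) * ((((r + 2 * J : ℕ) : ℝ≥0∞) + 1) ^ 2 + B0 (dt G d z ν r J) * (((r + 2 * J : ℕ) : ℝ≥0∞) + 1)) *
      ((X * E : ℝ≥0) : ℝ≥0∞) ≤ 2⁻¹
    have h5 : (((r + 2 * J : ℕ) : ℝ≥0∞) + 1) ≤ E := by exact_mod_cast hrE
    have h1 : β * (E ^ 2 + E * E) * (X * E) = 2⁻¹ := by
      rw [hβd]
      field_simp
      norm_num
    calc (β : ℝ≥0∞) * ((((r + 2 * J : ℕ) : ℝ≥0∞) + 1) ^ 2 + B0 (dt G d z ν r J) * (((r + 2 * J : ℕ) : ℝ≥0∞) + 1)) *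
          ((X * E : ℝ≥0) : ℝ≥0∞) ≤ (β : ℝ≥0∞) * ((E : ℝ≥0∞) ^ 2 + E * E) * ((X * E : ℝ≥0) : ℝ≥0∞) := by gcongr
      _ = ((β * (E ^ 2 + E * E) * (X * E) : ℝ≥0) : ℝ≥0∞) := by push_cast; rfl
      _ = ((2⁻¹ : ℝ≥0) : ℝ≥0∞) := by rw [h1]
      _ ≤ 2⁻¹ := by
        rw [ENNReal.coe_inv (by norm_num)]
        simp
  case hκ =>
    have h1 : 2 * (β * κ * (9 * ℓ * E ^ 3 * X)) ≤ 1 := by
      have h2 : 2 * (β * κ * (9 * ℓ * E ^ 3 * X)) = 9 / 2 * (ℓ / (H : ℝ≥0) ^ 3) := by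
        rw [hβd, hκH]
        field_simp
        norm_num
      rw [h2]
      have h3 : (ℓ : ℝ≥0) / (H : ℝ≥0) ^ 3 ≤ 1 / 80 := by
        rw [div_le_div_iff₀ (by positivity) (by norm_num)]
        calc (ℓ : ℝ≥0) * 80 ≤ H * H := mul_le_mul' (hℓ'ℓ.trans hHℓ) hH80
          _ = 1 * (H * H) := (one_mul _).symm
          _ ≤ 1 * (H * H) * H := by
            conv_lhs => rw [← mul_one (1 * ((H : ℝ≥0) * H))]
            exact mul_le_mul' le_rfl (le_trans (by norm_num) hH80)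
          _ = 1 * (H : ℝ≥0) ^ 3 := by ring
      calc 9 / 2 * ((ℓ : ℝ≥0) / (H : ℝ≥0) ^ 3) ≤ 9 / 2 * (1 / 80) := by gcongr
        _ ≤ 1 := by
          have : (9 / 2 * (1 / 80) : ℝ) ≤ 1 := by norm_num
          exact_mod_cast this
    exact_mod_cast h1
  case hg =>
    have h1 : (β : ℝ) * q / 4 = 5 / 2 * (ℓ : ℝ)⁻¹ := by
      have h2 : β * q / 4 = 5 / 2 * (ℓ : ℝ≥0)⁻¹ := by
        rw [hβd, hq]
        field_simp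
        norm_num
      have h2' := congrArg NNReal.toReal h2
      push_cast at h2'
      exact h2'
    rw [h1, hθr]
    have h3 := Real.add_one_le_exp (5 / 2 * (ℓ : ℝ)⁻¹)
    calc (1 : ℝ) < (1 - (ℓ : ℝ)⁻¹) * (5 / 2 * (ℓ : ℝ)⁻¹ + 1) := by nlinarith
      _ ≤ (1 - (ℓ : ℝ)⁻¹) * Real.exp (5 / 2 * (ℓ : ℝ)⁻¹) := by
        refine mul_le_mul_of_nonneg_left h3 ?_
        linarith
  case hl0 =>
    rw [hlam]
    positivity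
  case h3 =>
    have h5 : (((r + 2 * J : ℕ) : ℝ≥0∞) + 1) ≤ E := by exact_mod_cast hrE
    have h6 : 2 * R + (r + 2 * J) ≤ 3 * R := by
      have : r + 2 * J ≤ R := by exact_mod_cast hrE'.trans (hEl.trans hRℓ)
      omega
    have h7 : lam * (E ^ 2 * X) * (3 * R) ≤ 1 := by
      rw [hlam, mul_assoc, inv_mul_le_iff₀ hlam0, mul_one]
      calc E ^ 2 * X * (3 * R) = 3 * R * (E ^ 2 * X) := by ring
        _ ≤ q * ℓ' + 3 * R * (E ^ 2 * X) := le_add_self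
    have h8 : (1 + lam * (E ^ 2 * X)) ^ (3 * R) ≤ 3 := by
      have h9 : (1 + (lam : ℝ) * (E ^ 2 * X)) ^ (3 * R) ≤ 3 := by
        have h10 : (1 + (lam : ℝ) * (E ^ 2 * X)) ≤ Real.exp ((lam : ℝ) * (E ^ 2 * X)) := by
          rw [add_comm]
          exact Real.add_one_le_exp _
        calc (1 + (lam : ℝ) * (E ^ 2 * X)) ^ (3 * R) ≤ Real.exp ((lam : ℝ) * (E ^ 2 * X)) ^ (3 * R) :=
              pow_le_pow_left₀ (by positivity) h10 _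
          _ = Real.exp (((3 * R : ℕ) : ℝ) * ((lam : ℝ) * (E ^ 2 * X))) := (Real.exp_nat_mul _ _).symm
          _ ≤ Real.exp 1 := by
            refine Real.exp_le_exp.mpr ?_
            have h11 : ((lam * (E ^ 2 * X) * (3 * R) : ℝ≥0) : ℝ) ≤ 1 := by exact_mod_cast h7
            push_cast at h11 ⊢
            linarith
          _ ≤ 3 := by
            have := Real.exp_one_lt_d9
            linarith
      exact_mod_cast h9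
    show (1 + (lam : ℝ≥0∞) * ((((r + 2 * J : ℕ) : ℝ≥0∞) + 1) * ((X * E : ℝ≥0) : ℝ≥0∞))) ^ (2 * R + (r + 2 * J)) ≤ 3
    calc (1 + (lam : ℝ≥0∞) * ((((r + 2 * J : ℕ) : ℝ≥0∞) + 1) * ((X * E : ℝ≥0) : ℝ≥0∞))) ^ (2 * R + (r + 2 * J))
        ≤ (1 + (lam : ℝ≥0∞) * ((E : ℝ≥0∞) * ((X * E : ℝ≥0) : ℝ≥0∞))) ^ (2 * R + (r + 2 * J)) := by gcongr
      _ ≤ (1 + (lam : ℝ≥0∞) * ((E : ℝ≥0∞) * ((X * E : ℝ≥0) : ℝ≥0∞))) ^ (3 * R) :=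
        pow_le_pow_right₀ le_self_add h6
      _ = (((1 + lam * (E ^ 2 * X)) ^ (3 * R) : ℝ≥0) : ℝ≥0∞) := by
        push_cast
        congr 3
        ring
      _ ≤ ((3 : ℝ≥0) : ℝ≥0∞) := by exact_mod_cast h8
      _ = 3 := by norm_num
  case hβ0' =>
    rw [hβ'd]
    positivity
  case hβ6 =>
    rw [hβ'd, ← mul_div_assoc, div_le_one₀ (by positivity)]
    calc (6 : ℝ≥0) * 12 = 72 := by norm_num
      _ ≤ c0 * ℓ := hc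
      _ ≤ c0 * ℓ' := mul_le_mul' le_rfl hℓ'ℓ
  case hβ' =>
    have h1 : β' * (E + R) ≤ 2⁻¹ := by
      calc β' * (E + R) ≤ β' * (R + R) := by
            gcongr
            exact hEl.trans hRℓ
        _ = 24 / (c0 * ℓ) := by
          rw [hβ'd, hℓ'R]
          field_simp
          norm_num
        _ ≤ 24 / 72 := by gcongr
        _ ≤ 2⁻¹ := by
          rw [div_le_iff₀ (by norm_num)]
          norm_num
    calc (β' : ℝ≥0∞) * (B0 (dt G d z ν r J) + R) ≤ (β' : ℝ≥0∞) * (E + R) := by gcongr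
      _ = ((β' * (E + R) : ℝ≥0) : ℝ≥0∞) := by push_cast; rfl
      _ ≤ ((2⁻¹ : ℝ≥0) : ℝ≥0∞) := by exact_mod_cast h1
      _ ≤ 2⁻¹ := by
        rw [ENNReal.coe_inv (by norm_num)]
        simp
  case hg' =>
    have h1 : (lam : ℝ) * q ≤ (ℓ' : ℝ)⁻¹ := by
      have h2 : lam * q ≤ (ℓ' : ℝ≥0)⁻¹ := by
        rw [hlam, inv_mul_le_iff₀ hlam0, ← div_eq_mul_inv, le_div_iff₀ hℓ'0]
        exact le_self_add
      exact_mod_cast h2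
    have h3 : (β' : ℝ) * c0 / 4 = 3 * (ℓ' : ℝ)⁻¹ := by
      have h4 : β' * c0 / 4 = 3 * (ℓ' : ℝ≥0)⁻¹ := by
        rw [hβ'd]
        field_simp
        norm_num
      have h4' := congrArg NNReal.toReal h4
      push_cast at h4'
      exact h4'
    rw [h3, hθ'r]
    have h5 := Real.add_one_le_exp (2 * (ℓ' : ℝ)⁻¹)
    have h6 : Real.exp (3 * (ℓ' : ℝ)⁻¹) = Real.exp (2 * (ℓ' : ℝ)⁻¹) * Real.exp ((ℓ' : ℝ)⁻¹) := by
      rw [← Real.exp_add]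
      congr 1
      ring
    have h7 : 1 < (1 - (ℓ' : ℝ)⁻¹) * Real.exp (2 * (ℓ' : ℝ)⁻¹) := by
      calc (1 : ℝ) < (1 - (ℓ' : ℝ)⁻¹) * (2 * (ℓ' : ℝ)⁻¹ + 1) := by nlinarith
        _ ≤ (1 - (ℓ' : ℝ)⁻¹) * Real.exp (2 * (ℓ' : ℝ)⁻¹) := by
          refine mul_le_mul_of_nonneg_left h5 ?_
          linarith
    calc Real.exp (lam * q) ≤ Real.exp ((ℓ' : ℝ)⁻¹) := Real.exp_le_exp.mpr h1
      _ = 1 * Real.exp ((ℓ' : ℝ)⁻¹) := (one_mul _).symm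
      _ < ((1 - (ℓ' : ℝ)⁻¹) * Real.exp (2 * (ℓ' : ℝ)⁻¹)) * Real.exp ((ℓ' : ℝ)⁻¹) :=
        mul_lt_mul_of_pos_right h7 (Real.exp_pos _)
      _ = (1 - (ℓ' : ℝ)⁻¹) * Real.exp (3 * (ℓ' : ℝ)⁻¹) := by
        rw [h6]
        ring
  obtain ⟨ν', hν'⟩ := key
  refine ⟨ν', Cn_mono hν' le_rfl ?_ ?_⟩
  · refine pow_le_pow_left' ?_ m
    show 2 * (d : ℝ≥0∞) ^ (2 * J) * (κ : ℝ≥0∞) ≤ ((2 * E * κ : ℝ≥0) : ℝ≥0∞)
    calc 2 * (d : ℝ≥0∞) ^ (2 * J) * (κ : ℝ≥0∞) ≤ 2 * (E : ℝ≥0∞) * (κ : ℝ≥0∞) := by gcongr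
      _ = ((2 * E * κ : ℝ≥0) : ℝ≥0∞) := by push_cast; rfl
  · refine pow_le_pow_left' ?_ m
    show 36 * (d : ℝ≥0∞) ^ (2 * J) * (β' : ℝ≥0∞) / (lam : ℝ≥0∞) ≤ ((432 * 43 / c0 * E ^ 4 * X / ℓ : ℝ≥0) : ℝ≥0∞)
    have hl : lam ≠ 0 := by
      rw [hlam]
      positivity
    have h1 : 36 * E * β' / lam ≤ 432 * 43 / c0 * E ^ 4 * X / ℓ := by
      have h2 : 36 * E * β' / lam = 432 * E / c0 * (40 * E ^ 3 * X / ℓ + 3 * E ^ 2 * X / ℓ) := by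
        rw [hlam, div_inv_eq_mul, hβ'd, hq, hℓ'R]
        field_simp
        ring
      rw [h2]
      calc 432 * E / c0 * (40 * E ^ 3 * X / ℓ + 3 * E ^ 2 * X / ℓ)
          ≤ 432 * E / c0 * (40 * E ^ 3 * X / ℓ + 3 * E ^ 3 * X / ℓ) := by
            gcongr 432 * E / c0 * (40 * E ^ 3 * X / ℓ + 3 * ?_ * X / ℓ)
            exact pow_le_pow_right₀ (le_trans (by norm_num) hE1) (by norm_num)
        _ = 432 * 43 / c0 * E ^ 4 * X / ℓ := by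
          field_simp
          ring
    calc 36 * (d : ℝ≥0∞) ^ (2 * J) * (β' : ℝ≥0∞) / (lam : ℝ≥0∞)
        ≤ 36 * (E : ℝ≥0∞) * (β' : ℝ≥0∞) / (lam : ℝ≥0∞) := by gcongr
      _ = ((36 * E * β' / lam : ℝ≥0) : ℝ≥0∞) := by
        rw [ENNReal.coe_div hl]
        push_cast
        rfl
      _ ≤ ((432 * 43 / c0 * E ^ 4 * X / ℓ : ℝ≥0) : ℝ≥0∞) := by exact_mod_cast h1

theorem as2 {G : SimpleGraph V} {d : ℕ} {ρ z : ℝ≥0∞} (h : Ug G d ρ z)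
    (hH : ∀ (n : ℕ) (c : ℝ≥0∞), KB (kr (rs (LN n) (sa G z))) c → 1 ≤ c) {A l0 : ℕ} (hA : 1 ≤ A)
    (ht : ∀ ℓ : ℕ, l0 ≤ ℓ → ∀ R : ℕ, ℓ ^ A ≤ R → ∀ x, tail G z (1 - (ℓ : ℝ≥0∞)⁻¹) R x ≤ 1) {x : ℝ} (hx0 : 0 ≤ x)
    (hx : Cx G z x) : Cx G z (x - 1 / (12 * A * (A + 1))) := by
  set a0 : ℝ := (A : ℝ) * (A + 1) with ha0
  have hA' : (1 : ℝ) ≤ A := by exact_mod_cast hA
  have ha0' : 2 ≤ a0 := by rw [ha0]; nlinarith
  have ha00 : 0 < a0 := by linarith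
  set δ0 : ℝ := 1 / (3 * a0) with hδ0
  have hδ00 : 0 < δ0 := by rw [hδ0]; positivity
  have hδ01 : δ0 ≤ 1 / 6 := by
    rw [hδ0]
    apply one_div_le_one_div_of_le (by norm_num)
    linarith
  set ε : ℝ := δ0 / (32 * (1 + x)) with hε
  have hε0 : 0 < ε := by rw [hε]; positivity
  have hεx : ε * (1 + x) = δ0 / 32 := by
    rw [hε]
    field_simp
  obtain ⟨s1, hs1⟩ := as1 h hx0 hx hε0
  set c0 : ℝ≥0 := cz ρ with hc0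
  set s : ℕ → ℝ := fun ℓ => Real.log ℓ / δ0 with hs
  have hst : Tendsto s atTop atTop :=
    (Real.tendsto_log_atTop.comp tendsto_natCast_atTop_atTop).atTop_div_const hδ00
  have hEt : Tendsto (fun ℓ : ℕ => Real.exp (ε * s ℓ)) atTop atTop :=
    Real.tendsto_exp_atTop.comp (hst.const_mul_atTop hε0)
  obtain ⟨ℓ, hℓ80, hℓl0, hℓs1, hℓE, hℓc⟩ : ∃ ℓ : ℕ, 80 ≤ ℓ ∧ l0 ≤ ℓ ∧ s1 ≤ s ℓ ∧
      432 * 43 / (c0 : ℝ) ≤ Real.exp (ε * s ℓ) ∧ 72 / (c0 : ℝ) ≤ ℓ := by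
    have := (eventually_ge_atTop 80).and ((eventually_ge_atTop l0).and ((hst.eventually_ge_atTop s1).and
      ((hEt.eventually_ge_atTop (432 * 43 / (c0 : ℝ))).and
        (tendsto_natCast_atTop_atTop.eventually_ge_atTop (72 / (c0 : ℝ))))))
    exact this.exists
  set S : ℝ := s ℓ with hS
  have hℓ0 : (0 : ℝ) < ℓ := by
    have : (80 : ℝ) ≤ ℓ := by exact_mod_cast hℓ80
    linarith
  have hlogpos : 0 < Real.log ℓ := by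
    apply Real.log_pos
    have : (80 : ℝ) ≤ ℓ := by exact_mod_cast hℓ80
    linarith
  have hS0 : 0 < S := by
    rw [hS]
    exact div_pos hlogpos hδ00
  have hlog : Real.log ℓ = δ0 * S := by
    rw [hS]
    show Real.log ℓ = δ0 * (Real.log ℓ / δ0)
    field_simp
  have hexp : Real.exp (δ0 * S) = ℓ := by
    rw [← hlog]
    exact Real.exp_log hℓ0
  have hSlog : S = 3 * a0 * Real.log ℓ := by
    rw [hlog, hδ0]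
    field_simp
  obtain ⟨ν, r, J, K, K1, hSc, hK1, hd, hB, hr⟩ := hs1 S hℓs1
  have hc0p : 0 < c0 := pos_iff_ne_zero.mpr hSc.c0p
  have hc0r : (0 : ℝ) < c0 := by exact_mod_cast hc0p
  have hE2r : 2 ≤ Real.exp (ε * S) := by
    have h1 : (0 : ℝ) ≤ r := Nat.cast_nonneg r
    have h2 : (0 : ℝ) ≤ J := Nat.cast_nonneg J
    linarith
  set E : ℝ≥0 := Real.toNNReal (Real.exp (ε * S)) with hE
  set X : ℝ≥0 := Real.toNNReal (Real.exp (x * S)) with hX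
  set κ : ℝ≥0 := Real.toNNReal (Real.exp (-S)) with hκ
  have hEr : (E : ℝ) = Real.exp (ε * S) := Real.coe_toNNReal _ (Real.exp_pos _).le
  have hXr : (X : ℝ) = Real.exp (x * S) := Real.coe_toNNReal _ (Real.exp_pos _).le
  have hκr : (κ : ℝ) = Real.exp (-S) := Real.coe_toNNReal _ (Real.exp_pos _).le
  have hK1' : K1 ≤ ((X * E : ℝ≥0) : ℝ≥0∞) := by
    refine hK1.trans (le_of_eq ?_)
    show ((Real.toNNReal (Real.exp ((x + ε) * S)) : ℝ≥0) : ℝ≥0∞) = _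
    congr 1
    rw [← NNReal.coe_inj, NNReal.coe_mul, hXr, hEr, Real.coe_toNNReal _ (Real.exp_pos _).le, ← Real.exp_add]
    congr 1
    ring
  have hr' : (r : ℝ≥0) + 2 * J + 2 ≤ E := by
    rw [← NNReal.coe_le_coe, hEr]
    push_cast
    exact hr
  have hE2 : E ^ 2 ≤ ℓ := by
    rw [← NNReal.coe_le_coe]
    push_cast
    rw [hEr, ← Real.exp_nat_mul, ← hexp]
    refine Real.exp_le_exp.mpr ?_
    have h1 : ε ≤ δ0 / 32 := by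
      rw [← hεx]
      nlinarith
    push_cast
    nlinarith
  have hX1 : 1 ≤ X := by
    rw [← NNReal.coe_le_coe, hXr]
    push_cast
    exact Real.one_le_exp (by positivity)
  have hκH : κ = (((ℓ : ℝ≥0) ^ (A + 1)) ^ A)⁻¹ ^ 3 := by
    rw [← NNReal.coe_inj, hκr]
    push_cast
    rw [← pow_mul, ← inv_pow, ← pow_mul, Real.exp_neg, inv_pow]
    congr 1
    rw [hSlog]
    have h1 : 3 * a0 * Real.log ℓ = (((A + 1) * A * 3 : ℕ) : ℝ) * Real.log ℓ := by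
      push_cast
      rw [ha0]
      ring
    rw [h1, Real.exp_nat_mul, Real.exp_log hℓ0]
  have hc72 : 72 ≤ c0 * ℓ := by
    rw [div_le_iff₀ hc0r] at hℓc
    rw [← NNReal.coe_le_coe]
    push_cast
    linarith
  have key := as2_scale hH hA ht hℓ80 hℓl0 hSc hK1' hd hB hr' hE2 hX1 hκH hc72
  have h2ε : 0 < 1 - 2 * ε := by
    have h1 : ε ≤ δ0 / 32 := by
      rw [← hεx]
      nlinarith
    linarith
  refine itr (a := (1 - 2 * ε) * S) (b := (x + 5 * ε - δ0) * S) ((ℓ ^ (A + 1)) ^ A + (r + 2 * J)) (by positivity) ?_ ?_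
  · rw [mul_div_mul_right _ _ hS0.ne', div_lt_iff₀ h2ε]
    have h1 : 1 / (12 * (A : ℝ) * (A + 1)) = δ0 / 4 := by
      rw [hδ0, ha0]
      field_simp
      norm_num
    rw [h1]
    have h2 : ε * x ≤ δ0 / 32 - ε := by linarith
    have h3 : 0 ≤ ε * δ0 := by positivity
    nlinarith
  · intro m
    obtain ⟨ν', hν'⟩ := key m
    refine ⟨ν', Cn_mono hν' le_rfl ?_ ?_⟩
    · have h1 : ENNReal.ofReal (Real.exp (-(m * ((1 - 2 * ε) * S)))) =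
          (ENNReal.ofReal (Real.exp (-((1 - 2 * ε) * S)))) ^ m := by
        rw [← ENNReal.ofReal_pow (Real.exp_pos _).le, ← Real.exp_nat_mul]
        congr 2
        ring
      rw [h1]
      refine pow_le_pow_left' ?_ m
      show ((2 * E * κ : ℝ≥0) : ℝ≥0∞) ≤ ((Real.toNNReal (Real.exp (-((1 - 2 * ε) * S))) : ℝ≥0) : ℝ≥0∞)
      rw [ENNReal.coe_le_coe, ← NNReal.coe_le_coe, Real.coe_toNNReal _ (Real.exp_pos _).le]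
      push_cast
      rw [hEr, hκr]
      have h2 : Real.exp (-((1 - 2 * ε) * S)) = Real.exp (ε * S) * Real.exp (ε * S) * Real.exp (-S) := by
        rw [← Real.exp_add, ← Real.exp_add]
        congr 1
        ring
      rw [h2]
      gcongr
    · have h1 : ENNReal.ofReal (Real.exp (m * ((x + 5 * ε - δ0) * S))) =
          (ENNReal.ofReal (Real.exp ((x + 5 * ε - δ0) * S))) ^ m := by
        rw [← ENNReal.ofReal_pow (Real.exp_pos _).le, ← Real.exp_nat_mul]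
      rw [h1]
      refine pow_le_pow_left' ?_ m
      show ((432 * 43 / c0 * E ^ 4 * X / ℓ : ℝ≥0) : ℝ≥0∞) ≤
        ((Real.toNNReal (Real.exp ((x + 5 * ε - δ0) * S)) : ℝ≥0) : ℝ≥0∞)
      rw [ENNReal.coe_le_coe, ← NNReal.coe_le_coe, Real.coe_toNNReal _ (Real.exp_pos _).le]
      push_cast
      rw [hEr, hXr]
      have h2 : Real.exp ((x + 5 * ε - δ0) * S) =
          Real.exp (ε * S) * Real.exp (ε * S) ^ 4 * Real.exp (x * S) / ℓ := by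
        rw [← hexp, ← Real.exp_nat_mul, ← Real.exp_add, ← Real.exp_add, ← Real.exp_sub]
        congr 1
        push_cast
        ring
      rw [h2]
      gcongr

end Pool.Agent.SAWG
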