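import Pool.Agent.SAWG.CHA

/-!
# SAWG module BDA: bad events E1 and E3

PROOFS.  `bd1`: with `z1 = zq`: the indicator depends on `τ` only; `∑_c = ψ * ∑_τ ν z1 τ [...] ≤ ψ * (hit (vs ν) z1 (endp z' rm :: p) + hit (vs ν) z1 (z' :: rm)) ≤ ψ * 2 η`
(`hit_vs`, `hg.f1`, `hg.f2`).
`bd3`: `F z y = ∑_τ [endp z τ = y] ν z τ * ∑_{q = (rm,p,rq)} [Gd y q] ω (endp y rm) p [some u ∈ z :: τ lies in p or rq]` is an invariant kernel; the left side is `∑_y F z y = ∑_y F y z`
(`h.uni`) `= ∑_q [Gd z q] ω * ∑_y ∑_τ [endp y τ = z] ν y τ [...] ≤ ∑_q [Gd z q] ω * (hit (vb ν) z (endp z rm :: p) + hit (vb ν) z (e :: rq)) ≤ 2 η ψ` (`hit_vb`, `b1`, `b2`).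
-/

set_option autoImplicit false

open scoped ENNReal NNReal Classical
open Filter Topology

namespace Pool.Agent.SAWG

open Pool.Agent.SWH (Ker idK adK tp endp Sw endp_nil endp_cons endp_append endp_mem)

variable {V : Type}

/-- The weight of an extended piece. -/
noncomputable def bda_gq (D : Dat V) (ω : PW V) (y : V) (q : List V × List V × List V) : ℝ≥0∞ :=
  if Gd D y q.1 q.2.1 q.2.2 then ω (endp y q.1) q.2.1 else 0

theorem bda_ckw (D : Dat V) (ω : PW V) (z : V) (τ : List V) (q : List V × List V × List V) :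
    ckw D ω z (τ, q) = D.ν z τ * bda_gq D ω (endp z τ) q := rfl

theorem bda_Pq (D : Dat V) (ω : PW V) (z : V) : ∑' q, bda_gq D ω z q = Pq D ω z := rfl

/-- The sum over chunks is a sum over the connector and a sum over the piece. -/
theorem bda_sum (D : Dat V) (ω : PW V) (z : V) (W : List V → (List V × List V × List V) → ℝ≥0∞) :
    ∑' c, ckw D ω z c * W c.1 c.2 =
      ∑' τ : List V, ∑' q : List V × List V × List V, D.ν z τ * bda_gq D ω (endp z τ) q * W τ q := by
  rw [show (∑' c, ckw D ω z c * W c.1 c.2) =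
    ∑' c : List V × (List V × List V × List V), ckw D ω z c * W c.1 c.2 from rfl]
  rw [ENNReal.tsum_prod']
  rfl

/-- The sum over chunks of a function of the connector. -/
theorem bda_first {D : Dat V} {ω : PW V} {ψ : ℝ≥0∞} (hψ : ∀ z, Pq D ω z = ψ) (z : V) (g : List V → ℝ≥0∞) :
    ∑' c, ckw D ω z c * g c.1 = ψ * ∑' τ, D.ν z τ * g τ := by
  rw [bda_sum D ω z (fun τ _ => g τ), ← ENNReal.tsum_mul_left]
  refine tsum_congr fun τ => ?_
  have : ∀ q : List V × List V × List V, D.ν z τ * bda_gq D ω (endp z τ) q * g τ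
      = (D.ν z τ * g τ) * bda_gq D ω (endp z τ) q := fun q => by ring
  simp_rw [this]
  rw [ENNReal.tsum_mul_left, bda_Pq, hψ]
  ring

/-- Triples of lists are moved by an automorphism. -/
def bda_map (f : V → V) (q : List V × List V × List V) : List V × List V × List V :=
  (q.1.map f, q.2.1.map f, q.2.2.map f)

theorem bda_tsum_map {G : SimpleGraph V} (φ : G ≃g G) (F : List V × List V × List V → ℝ≥0∞) :
    ∑' q, F (bda_map φ q) = ∑' q, F q := by
  rw [ENNReal.tsum_prod', ENNReal.tsum_prod']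
  rw [← tsum_map φ (fun l => ∑' b, F (l, b))]
  refine tsum_congr fun l => ?_
  rw [ENNReal.tsum_prod', ENNReal.tsum_prod']
  rw [← tsum_map φ (fun l' => ∑' b, F (l.map φ, l', b))]
  refine tsum_congr fun l' => ?_
  rw [← tsum_map φ (fun l'' => F (l.map φ, l'.map φ, l''))]
  rfl

theorem bda_gq_map {D : Dat V} {ω : PW V} (hν : InvP D.G D.ν) (hω : InvP D.G ω) (φ : D.G ≃g D.G) (y : V)
    (q : List V × List V × List V) : bda_gq D ω (φ y) (bda_map φ q) = bda_gq D ω y q := by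
  unfold bda_gq bda_map
  simp only
  rw [endp_map, hω φ]
  by_cases hg : Gd D y q.1 q.2.1 q.2.2
  · rw [if_pos hg, if_pos ((Gd_map hν φ y q.1 q.2.1 q.2.2).2 hg)]
  · rw [if_neg hg, if_neg (fun h' => hg ((Gd_map hν φ y q.1 q.2.1 q.2.2).1 h'))]

/-- Transport of the connector: the sum over chunks from `z` is a sum over the pieces from `z` and the connectors
that end at `z`. -/
theorem bda_tr {D : Dat V} {ω : PW V} (hu : Uni D.G) (hν : InvP D.G D.ν) (hω : InvP D.G ω)
    (W : V → List V → (List V × List V × List V) → ℝ≥0∞)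
    (hW : ∀ (φ : D.G ≃g D.G) z τ q, W (φ z) (τ.map φ) (bda_map φ q) = W z τ q) (z : V) :
    ∑' c, ckw D ω z c * W z c.1 c.2 =
      ∑' q, bda_gq D ω z q * ∑' y, ∑' τ, (if endp y τ = z then D.ν y τ * W y τ q else 0) := by
  set F : Ker V := fun z y => ∑' τ, if endp z τ = y then ∑' q, D.ν z τ * bda_gq D ω y q * W z τ q else 0 with hF
  have h1 : ∑' c, ckw D ω z c * W z c.1 c.2 = ∑' y, F z y := by
    rw [bda_sum D ω z (W z)]
    simp only [hF]
    symm
    rw [ENNReal.tsum_comm]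
    refine tsum_congr fun τ => ?_
    rw [tsum_eq_single (endp z τ) (fun y hy => if_neg (fun h => hy h.symm)), if_pos rfl]
  have h2 : InvG D.G F := by
    intro φ x y
    simp only [hF]
    rw [← tsum_map φ]
    refine tsum_congr fun τ => ?_
    rw [endp_map]
    by_cases he : endp x τ = y
    · rw [if_pos he, if_pos (by rw [he])]
      rw [← bda_tsum_map φ]
      refine tsum_congr fun q => ?_
      rw [hν φ, bda_gq_map hν hω, hW]
    · rw [if_neg he, if_neg (fun h => he (φ.injective h))]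
  rw [h1, hu F h2 z]
  simp only [hF]
  have h3 : ∀ y : V, (∑' τ, if endp y τ = z then ∑' q, D.ν y τ * bda_gq D ω z q * W y τ q else 0) =
      ∑' q, bda_gq D ω z q * ∑' τ, (if endp y τ = z then D.ν y τ * W y τ q else 0) := by
    intro y
    simp_rw [← ENNReal.tsum_mul_left]
    rw [ENNReal.tsum_comm]
    refine tsum_congr fun τ => ?_
    by_cases he : endp y τ = z
    · simp only [if_pos he]
      exact tsum_congr fun q => by ring
    · simp only [if_neg he, mul_zero, tsum_zero]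
  simp_rw [h3]
  rw [ENNReal.tsum_comm]
  exact tsum_congr fun q => ENNReal.tsum_mul_left

/-- An indicator of a union is at most the sum of the indicators. -/
theorem bda_ind (L A B : List V) :
    (if ∃ u ∈ L, u ∈ A ∨ u ∈ B then (1 : ℝ≥0∞) else 0) ≤
      (if ∃ u ∈ L, u ∈ A then 1 else 0) + (if ∃ u ∈ L, u ∈ B then 1 else 0) := by
  by_cases h : ∃ u ∈ L, u ∈ A ∨ u ∈ B
  · rw [if_pos h]
    obtain ⟨u, hu, hu' | hu'⟩ := h
    · rw [if_pos ⟨u, hu, hu'⟩]
      exact le_self_add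
    · rw [if_pos (⟨u, hu, hu'⟩ : ∃ u ∈ L, u ∈ B)]
      exact le_add_self
  · rw [if_neg h]
    exact zero_le

theorem bd1 {D : Dat V} {ω : PW V} {κ K ψ : ℝ≥0∞} (hc : Cn D.G D.z D.r κ K D.ν)
    (hψ : ∀ z, Pq D ω z = ψ) {z' : V} {rm p rq : List V} (hg : Gd D z' rm p rq) :
    ∑' c, ckw D ω (endp (endp (endp z' rm) p) rq) c *
      (if ∃ u ∈ tvl (endp (endp (endp z' rm) p) rq) c, u ∈ endp z' rm :: p ∨ u ∈ z' :: rm then 1 else 0)
      ≤ 2 * D.η * ψ := by
  set z1 := endp (endp (endp z' rm) p) rq with hz1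
  have := hc.inv
  have h1 := bda_first hψ z1 (fun τ => if ∃ u ∈ z1 :: τ, u ∈ endp z' rm :: p ∨ u ∈ z' :: rm then (1 : ℝ≥0∞) else 0)
  unfold tvl
  rw [h1]
  have h2 : ∑' τ, D.ν z1 τ * (if ∃ u ∈ z1 :: τ, u ∈ endp z' rm :: p ∨ u ∈ z' :: rm then (1 : ℝ≥0∞) else 0) ≤
      D.η + D.η := by
    calc _ ≤ ∑' τ, (D.ν z1 τ * (if ∃ u ∈ z1 :: τ, u ∈ endp z' rm :: p then (1 : ℝ≥0∞) else 0) +
          D.ν z1 τ * (if ∃ u ∈ z1 :: τ, u ∈ z' :: rm then (1 : ℝ≥0∞) else 0)) := by
          refine ENNReal.tsum_le_tsum fun τ => ?_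
          rw [← mul_add]
          exact mul_le_mul' le_rfl (bda_ind _ _ _)
      _ = _ := ENNReal.tsum_add
      _ ≤ hit (vs D.ν) z1 (endp z' rm :: p) + hit (vs D.ν) z1 (z' :: rm) :=
          add_le_add (hit_vs D.ν z1 _) (hit_vs D.ν z1 _)
      _ ≤ D.η + D.η := add_le_add hg.f1 hg.f2
  calc _ ≤ ψ * (D.η + D.η) := mul_le_mul' le_rfl h2
    _ = 2 * D.η * ψ := by ring

theorem bd3 {D : Dat V} {ω : PW V} {ρ κ K ψ : ℝ≥0∞} (h : Ug D.G D.d ρ D.z) (hc : Cn D.G D.z D.r κ K D.ν)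
    (hω : InvP D.G ω) (hψ : ∀ z, Pq D ω z = ψ) (z : V) :
    ∑' c, ckw D ω z c * (if ∃ u ∈ tvl z c, u ∈ pvl z c ∨ u ∈ rql z c then 1 else 0) ≤ 2 * D.η * ψ := by
  set W : V → List V → (List V × List V × List V) → ℝ≥0∞ := fun y τ q =>
    if ∃ u ∈ y :: τ, u ∈ endp (endp y τ) q.1 :: q.2.1 ∨ u ∈ endp (endp (endp y τ) q.1) q.2.1 :: q.2.2 then 1 else 0
    with hWd
  have hW : ∀ (φ : D.G ≃g D.G) z τ q, W (φ z) (τ.map φ) (bda_map φ q) = W z τ q := by
    intro φ y τ q
    simp only [hWd, bda_map, endp_map]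
    have key : ∀ (A B C : List V), (∃ u ∈ A.map φ, u ∈ B.map φ ∨ u ∈ C.map φ) ↔ (∃ u ∈ A, u ∈ B ∨ u ∈ C) := by
      intro A B C
      constructor
      · rintro ⟨u, hu, hu'⟩
        obtain ⟨a, ha, rfl⟩ := List.mem_map.1 hu
        refine ⟨a, ha, ?_⟩
        rcases hu' with h' | h'
        · obtain ⟨b, hb, hb'⟩ := List.mem_map.1 h'
          rw [← φ.injective hb']
          exact Or.inl hb
        · obtain ⟨b, hb, hb'⟩ := List.mem_map.1 h'
          rw [← φ.injective hb']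
          exact Or.inr hb
      · rintro ⟨u, hu, hu'⟩
        exact ⟨φ u, List.mem_map_of_mem hu, hu'.imp List.mem_map_of_mem List.mem_map_of_mem⟩
    have := key (y :: τ) (endp (endp y τ) q.1 :: q.2.1) (endp (endp (endp y τ) q.1) q.2.1 :: q.2.2)
    simp only [List.map_cons] at this
    by_cases hh : ∃ u ∈ y :: τ, u ∈ endp (endp y τ) q.1 :: q.2.1 ∨ u ∈ endp (endp (endp y τ) q.1) q.2.1 :: q.2.2
    · rw [if_pos hh, if_pos (this.2 hh)]
    · rw [if_neg hh, if_neg (fun h' => hh (this.1 h'))]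
  have h1 := bda_tr h.uni hc.inv hω W hW z
  have h2 : (∑' c, ckw D ω z c * (if ∃ u ∈ tvl z c, u ∈ pvl z c ∨ u ∈ rql z c then 1 else 0)) =
      ∑' c, ckw D ω z c * W z c.1 c.2 := rfl
  rw [h2, h1]
  calc _ ≤ ∑' q, bda_gq D ω z q * (D.η + D.η) := by
        refine ENNReal.tsum_le_tsum fun q => ?_
        by_cases hg : Gd D z q.1 q.2.1 q.2.2
        · refine mul_le_mul' le_rfl ?_
          calc _ ≤ ∑' y, ∑' τ, ((if endp y τ = z then D.ν y τ *
                  (if ∃ u ∈ y :: τ, u ∈ endp z q.1 :: q.2.1 then 1 else 0) else 0) +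
                (if endp y τ = z then D.ν y τ *
                  (if ∃ u ∈ y :: τ, u ∈ endp (endp z q.1) q.2.1 :: q.2.2 then 1 else 0) else 0)) := by
                refine ENNReal.tsum_le_tsum fun y => ENNReal.tsum_le_tsum fun τ => ?_
                by_cases he : endp y τ = z
                · rw [if_pos he, if_pos he, if_pos he, ← mul_add]
                  simp only [hWd, he]
                  exact mul_le_mul' le_rfl (bda_ind _ _ _)
                · simp only [if_neg he, add_zero, le_refl]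
            _ = (∑' y, ∑' τ, (if endp y τ = z then D.ν y τ *
                  (if ∃ u ∈ y :: τ, u ∈ endp z q.1 :: q.2.1 then 1 else 0) else 0)) +
                ∑' y, ∑' τ, (if endp y τ = z then D.ν y τ *
                  (if ∃ u ∈ y :: τ, u ∈ endp (endp z q.1) q.2.1 :: q.2.2 then 1 else 0) else 0) := by
                simp_rw [ENNReal.tsum_add]
            _ ≤ hit (vb D.ν) z (endp z q.1 :: q.2.1) + hit (vb D.ν) z (endp (endp z q.1) q.2.1 :: q.2.2) :=
                add_le_add (hit_vb D.ν z _) (hit_vb D.ν z _)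
            _ ≤ D.η + D.η := add_le_add hg.b1 hg.b2
        · have : bda_gq D ω z q = 0 := if_neg hg
          rw [this, zero_mul, zero_mul]
    _ = 2 * D.η * ψ := by
        rw [ENNReal.tsum_mul_right, bda_Pq, hψ]
        ring

end Pool.Agent.SAWG
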