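import Pool.Agent.SAWG.CHA
import Pool.Agent.SAWG.BDA

/-!
# SAWG module BDB: bad event E2

PROOF.  The sum over the second piece gives the factor `ψ`.  `F z y = ∑_τ' [endp z τ' = y] ν z τ' * ∑_{q' from y} [Gd y q'] ω * ∑_τ ν (end q') τ [τ meets z :: τ']` is an invariant kernel
(`InvP`, `Gd_map`, reindexing); `∑_y F z y = ∑_y F y z` (`h.uni`) `= ∑_{q' from z} [Gd z q'] ω * ∑_y ∑_{τ'} [endp y τ' = z] ν y τ' ∑_τ ν (end q') τ [...] ≤ ∑_{q'} [Gd] ω * ∑_u vb ν z u * vs ν (end q') u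
≤ ψ η` (`meet`, `Gd.m`).
-/

set_option autoImplicit false

open scoped ENNReal NNReal Classical
open Filter Topology

namespace Pool.Agent.SAWG

open Pool.Agent.SWH (Ker idK adK tp endp Sw endp_nil endp_cons endp_append endp_mem)

variable {V : Type}

theorem bd2 {D : Dat V} {ω : PW V} {ρ κ K ψ : ℝ≥0∞} (h : Ug D.G D.d ρ D.z) (hc : Cn D.G D.z D.r κ K D.ν)
    (hω : InvP D.G ω) (hψ : ∀ z, Pq D ω z = ψ) (z : V) :
    ∑' c', ckw D ω z c' * ∑' c, ckw D ω (cke z c') c *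
      (if ∃ u ∈ tvl (cke z c') c, u ∈ tvl z c' then 1 else 0) ≤ D.η * ψ ^ 2 := by
  set W : V → List V → (List V × List V × List V) → ℝ≥0∞ := fun y τ' q =>
    ∑' τ, D.ν (endp (endp (endp (endp y τ') q.1) q.2.1) q.2.2) τ *
      (if ∃ u ∈ endp (endp (endp (endp y τ') q.1) q.2.1) q.2.2 :: τ, u ∈ y :: τ' then 1 else 0) with hWd
  have hW : ∀ (φ : D.G ≃g D.G) z τ q, W (φ z) (τ.map φ) (bda_map φ q) = W z τ q := by
    intro φ y τ' q
    simp only [hWd, bda_map, endp_map]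
    rw [← tsum_map φ]
    refine tsum_congr fun τ => ?_
    rw [hc.inv φ]
    congr 1
    have key : ∀ (A B : List V), (∃ u ∈ A.map φ, u ∈ B.map φ) ↔ (∃ u ∈ A, u ∈ B) := by
      intro A B
      constructor
      · rintro ⟨u, hu, hu'⟩
        obtain ⟨a, ha, rfl⟩ := List.mem_map.1 hu
        obtain ⟨b, hb, hb'⟩ := List.mem_map.1 hu'
        rw [← φ.injective hb'] at ha
        exact ⟨b, ha, hb⟩
      · rintro ⟨u, hu, hu'⟩
        exact ⟨φ u, List.mem_map_of_mem hu, List.mem_map_of_mem hu'⟩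
    have := key (endp (endp (endp (endp y τ') q.1) q.2.1) q.2.2 :: τ) (y :: τ')
    simp only [List.map_cons] at this
    by_cases hh : ∃ u ∈ endp (endp (endp (endp y τ') q.1) q.2.1) q.2.2 :: τ, u ∈ y :: τ'
    · rw [if_pos hh, if_pos (this.2 hh)]
    · rw [if_neg hh, if_neg (fun h' => hh (this.1 h'))]
  have h0 : ∀ c' : Ck V, (∑' c, ckw D ω (cke z c') c *
      (if ∃ u ∈ tvl (cke z c') c, u ∈ tvl z c' then 1 else 0)) = ψ * W z c'.1 c'.2 := by
    intro c'
    exact bda_first hψ (cke z c') (fun τ => if ∃ u ∈ cke z c' :: τ, u ∈ z :: c'.1 then (1 : ℝ≥0∞) else 0)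
  simp_rw [h0]
  have h1 : (∑' c', ckw D ω z c' * (ψ * W z c'.1 c'.2)) = ψ * ∑' c', ckw D ω z c' * W z c'.1 c'.2 := by
    rw [← ENNReal.tsum_mul_left]
    exact tsum_congr fun c' => by ring
  rw [h1, bda_tr h.uni hc.inv hω W hW z]
  have h2 : (∑' q, bda_gq D ω z q * ∑' y, ∑' τ, (if endp y τ = z then D.ν y τ * W y τ q else 0)) ≤
      ∑' q, bda_gq D ω z q * D.η := by
    refine ENNReal.tsum_le_tsum fun q => ?_
    by_cases hg : Gd D z q.1 q.2.1 q.2.2
    · refine mul_le_mul' le_rfl (le_trans ?_ hg.m)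
      refine le_trans (le_of_eq ?_) (meet D.ν z (endp (endp (endp z q.1) q.2.1) q.2.2))
      refine tsum_congr fun y => tsum_congr fun τ => ?_
      by_cases he : endp y τ = z
      · rw [if_pos he, if_pos he]
        simp only [hWd, he]
      · simp only [if_neg he]
    · have : bda_gq D ω z q = 0 := if_neg hg
      rw [this, zero_mul, zero_mul]
  calc _ ≤ ψ * ∑' q, bda_gq D ω z q * D.η := mul_le_mul' le_rfl h2
    _ = D.η * ψ ^ 2 := by
        rw [ENNReal.tsum_mul_right, bda_Pq, hψ]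
        ring

end Pool.Agent.SAWG
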