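import Pool.Agent.SAWG.CHA

/-!
# SAWG module BDC: bad events E4 and E5: hits through connectors

PROOFS.  If some `u` lies in `qvl z c` and in `U` then `1 ≤ ∑_{u ∈ U} occ (qvl z c) u`.  `∑_c ckw z c * occ (qvl z c) u = (kc (kr ν) VQ) z u`, `VQ y u = ∑_{q from y} [Gd] ω * occ (vertices of q) u`, an
invariant kernel with row sums `≤ M ψ` (a piece has at most `H + 2 J + 1 ≤ M` vertices), so `KB VQ (M ψ)` (`KB_inv`), `KB (kc (kr ν) VQ) (κ M ψ)`, and entries are bounded by the norm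
(`KB_entry`); sum over `u ∈ U`.
`bd5`: `G z = ∑_c ckw z c [some u ∈ avl z c lies in U] ≤ ∑_{u∈U} VC z u`, `VC z u = ∑_c ckw z c * occ (avl z c) u` invariant, row sums `≤ M ψ` (at most `M` vertices), `KB VC (M ψ)`.
`SM j z (fun cs => G (EN cs)) = ∑_y Kj z y * G y` (`SM_ker` with `ck_ker`), `KB Kj ((κ ψ)^j)`, so `≤ ∑_{u∈U} (kc Kj VC) z u ≤ |U| (κψ)^j M ψ`.
-/

set_option autoImplicit false

open scoped ENNReal NNReal Classical
open Filter Topology

namespace Pool.Agent.SAWG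

open Pool.Agent.SWH (Ker idK adK tp endp Sw endp_nil endp_cons endp_append endp_mem)

variable {V : Type}

private theorem BDC_tot (L : List V) : ∑' u, occ L u = (L.length : ℝ≥0∞) := by
  have h := occ_sum L (fun _ => (1 : ℝ≥0∞))
  simp only [mul_one] at h
  rw [h]
  simp

private theorem BDC_one (L U : List V) : (if ∃ u ∈ L, u ∈ U then (1 : ℝ≥0∞) else 0) ≤ (U.map (occ L)).sum := by
  by_cases h : ∃ u ∈ L, u ∈ U
  · rw [if_pos h]
    obtain ⟨u, h1, h2⟩ := h
    refine (one_le_occ h1).trans ?_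
    exact List.single_le_sum (fun _ _ => zero_le) _ (List.mem_map_of_mem h2)
  · rw [if_neg h]
    exact zero_le

private theorem BDC_sum_tsum {ι : Type} (f : ι → V → ℝ≥0∞) (U : List V) :
    (U.map (fun u => ∑' i, f i u)).sum = ∑' i, (U.map (f i)).sum := by
  induction U with
  | nil => simp
  | cons a U ih =>
    simp only [List.map_cons, List.sum_cons]
    rw [ih, ← ENNReal.tsum_add]

private theorem BDC_sum_mul (c : ℝ≥0∞) (f : V → ℝ≥0∞) (U : List V) :
    (U.map (fun u => c * f u)).sum = c * (U.map f).sum := by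
  induction U with
  | nil => simp
  | cons a U ih =>
    simp only [List.map_cons, List.sum_cons]
    rw [ih, mul_add]

private theorem BDC_sum_le (f : V → ℝ≥0∞) (b : ℝ≥0∞) (hf : ∀ u, f u ≤ b) (U : List V) :
    (U.map f).sum ≤ (U.length : ℝ≥0∞) * b := by
  induction U with
  | nil => simp
  | cons a U ih =>
    rw [List.map_cons, List.sum_cons, List.length_cons, Nat.cast_add, Nat.cast_one, add_mul, one_mul, add_comm]
    exact add_le_add ih (hf a)

/-- The weight of an extended piece. -/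
private noncomputable def BDC_g (D : Dat V) (ω : PW V) (y : V) (q : List V × List V × List V) : ℝ≥0∞ :=
  if Gd D y q.1 q.2.1 q.2.2 then ω (endp y q.1) q.2.1 else 0

private def BDC_m (f : V → V) (q : List V × List V × List V) : List V × List V × List V :=
  (q.1.map f, q.2.1.map f, q.2.2.map f)

private theorem BDC_map3 {G : SimpleGraph V} (φ : G ≃g G) (F : List V × List V × List V → ℝ≥0∞) :
    ∑' q, F (BDC_m φ q) = ∑' q, F q := by
  rw [ENNReal.tsum_prod', ENNReal.tsum_prod']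
  rw [← tsum_map φ (fun l => ∑' b, F (l, b))]
  refine tsum_congr fun l => ?_
  rw [ENNReal.tsum_prod', ENNReal.tsum_prod']
  rw [← tsum_map φ (fun l' => ∑' b, F (l.map φ, l', b))]
  refine tsum_congr fun l' => ?_
  rw [← tsum_map φ (fun l'' => F (l.map φ, l'.map φ, l''))]
  rfl

private theorem BDC_g_map {D : Dat V} {ω : PW V} (hν : InvP D.G D.ν) (hω : InvP D.G ω) (φ : D.G ≃g D.G) (y : V)
    (q : List V × List V × List V) : BDC_g D ω (φ y) (BDC_m φ q) = BDC_g D ω y q := by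
  unfold BDC_g BDC_m
  simp only
  rw [endp_map, hω φ]
  by_cases hg : Gd D y q.1 q.2.1 q.2.2
  · rw [if_pos hg, if_pos ((Gd_map hν φ y q.1 q.2.1 q.2.2).2 hg)]
  · rw [if_neg hg, if_neg (fun h' => hg ((Gd_map hν φ y q.1 q.2.1 q.2.2).1 h'))]

/-- The vertices of a piece. -/
private def BDC_q (y : V) (q : List V × List V × List V) : List V := y :: (q.1 ++ q.2.1 ++ q.2.2)

private theorem BDC_q_map (f : V → V) (y : V) (q : List V × List V × List V) :
    BDC_q (f y) (BDC_m f q) = (BDC_q y q).map f := by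
  unfold BDC_q BDC_m
  simp

/-- The expected number of visits of the pieces. -/
private noncomputable def BDC_V (D : Dat V) (ω : PW V) : Ker V := fun y u => ∑' q, BDC_g D ω y q * occ (BDC_q y q) u

private theorem BDC_len {D : Dat V} {ω : PW V} {H : ℕ} (hlen : ∀ x l, ω x l ≠ 0 → l.length ≤ H) (y : V)
    (q : List V × List V × List V) (hq : BDC_g D ω y q ≠ 0) : (BDC_q y q).length ≤ H + 2 * D.J + 1 := by
  unfold BDC_g at hq
  by_cases hg : Gd D y q.1 q.2.1 q.2.2
  · rw [if_pos hg] at hq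
    have h1 := hlen _ _ hq
    have h2 := hg.lm
    have h3 := hg.lq
    unfold BDC_q
    rw [List.length_cons, List.length_append, List.length_append]
    omega
  · rw [if_neg hg] at hq
    exact absurd rfl hq

private theorem BDC_V_KB {D : Dat V} {ω : PW V} {ψ M : ℝ≥0∞} {H : ℕ} (hu : Uni D.G) (hν : InvP D.G D.ν)
    (hω : InvP D.G ω) (hψ : ∀ z, Pq D ω z = ψ) (hlen : ∀ x l, ω x l ≠ 0 → l.length ≤ H)
    (hM : M = (H : ℝ≥0∞) + 2 * D.J + D.r + 2) : KB (BDC_V D ω) (M * ψ) := by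
  refine KB_inv hu ?_ ?_
  · intro φ x y
    unfold BDC_V
    rw [← BDC_map3 φ]
    refine tsum_congr fun q => ?_
    rw [BDC_g_map hν hω, BDC_q_map, occ_map φ.injective]
  · intro x
    unfold BDC_V
    rw [ENNReal.tsum_comm]
    rw [← hψ x]
    unfold Pq
    rw [← ENNReal.tsum_mul_left]
    refine ENNReal.tsum_le_tsum fun q => ?_
    rw [ENNReal.tsum_mul_left, BDC_tot, mul_comm]
    show _ ≤ M * BDC_g D ω x q
    by_cases hq : BDC_g D ω x q = 0
    · rw [hq, mul_zero, mul_zero]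
    · refine mul_le_mul' ?_ le_rfl
      have h1 : ((BDC_q x q).length : ℝ≥0∞) ≤ ((H + 2 * D.J + 1 : ℕ) : ℝ≥0∞) := by
        exact_mod_cast BDC_len hlen x q hq
      refine h1.trans ?_
      rw [hM]
      push_cast
      calc (H : ℝ≥0∞) + 2 * D.J + 1 ≤ (H : ℝ≥0∞) + 2 * D.J + (D.r + 2) := by
            refine add_le_add le_rfl ?_
            calc (1 : ℝ≥0∞) ≤ 2 := by norm_num
              _ ≤ D.r + 2 := le_add_self
        _ = _ := by ring

private theorem BDC_ckw (D : Dat V) (ω : PW V) (z : V) (τ : List V) (q : List V × List V × List V) :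
    ckw D ω z (τ, q) = D.ν z τ * BDC_g D ω (endp z τ) q := rfl

private theorem BDC_qvl (z : V) (τ : List V) (q : List V × List V × List V) :
    qvl z (τ, q) = BDC_q (endp z τ) q := rfl

theorem bd4 {D : Dat V} {ω : PW V} {ρ κ K ψ M : ℝ≥0∞} {H : ℕ} (h : Ug D.G D.d ρ D.z) (hc : Cn D.G D.z D.r κ K D.ν)
    (hω : InvP D.G ω) (hψ : ∀ z, Pq D ω z = ψ) (hlen : ∀ x l, ω x l ≠ 0 → l.length ≤ H)
    (hM : M = (H : ℝ≥0∞) + 2 * D.J + D.r + 2) (z : V) (U : List V) :
    ∑' c, ckw D ω z c * (if ∃ u ∈ qvl z c, u ∈ U then 1 else 0) ≤ (U.length : ℝ≥0∞) * (κ * M * ψ) := by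
  have hK : KB (kc (kr D.ν) (BDC_V D ω)) (κ * (M * ψ)) :=
    KB_cmp hc.kb (BDC_V_KB h.uni hc.inv hω hψ hlen hM)
  have h1 : ∀ u, ∑' c, ckw D ω z c * occ (qvl z c) u = kc (kr D.ν) (BDC_V D ω) z u := by
    intro u
    unfold kc
    rw [tsum_kr D.ν z (fun w => BDC_V D ω w u)]
    rw [ENNReal.tsum_prod']
    refine tsum_congr fun τ => ?_
    unfold BDC_V
    rw [← ENNReal.tsum_mul_left]
    refine tsum_congr fun q => ?_
    rw [BDC_ckw, BDC_qvl, mul_assoc]
  calc ∑' c, ckw D ω z c * (if ∃ u ∈ qvl z c, u ∈ U then 1 else 0)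
      ≤ ∑' c, (U.map (fun u => ckw D ω z c * occ (qvl z c) u)).sum := by
        refine ENNReal.tsum_le_tsum fun c => ?_
        rw [BDC_sum_mul]
        exact mul_le_mul' le_rfl (BDC_one _ _)
    _ = (U.map (fun u => ∑' c, ckw D ω z c * occ (qvl z c) u)).sum := (BDC_sum_tsum _ U).symm
    _ ≤ (U.length : ℝ≥0∞) * (κ * M * ψ) := by
        refine BDC_sum_le _ _ (fun u => ?_) U
        rw [h1 u]
        refine (KB_entry hK z u).trans (le_of_eq ?_)
        ring

/-- The expected number of visits of the chunks. -/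
private noncomputable def BDC_W (D : Dat V) (ω : PW V) : Ker V := fun y u => ∑' c, ckw D ω y c * occ (avl y c) u

private theorem BDC_W_KB {D : Dat V} {ω : PW V} {κ K ψ M : ℝ≥0∞} {H : ℕ} (hu : Uni D.G) (hc : Cn D.G D.z D.r κ K D.ν)
    (hω : InvP D.G ω) (hψ : ∀ z, Pq D ω z = ψ) (hlen : ∀ x l, ω x l ≠ 0 → l.length ≤ H)
    (hM : M = (H : ℝ≥0∞) + 2 * D.J + D.r + 2) : KB (BDC_W D ω) (M * ψ) := by
  refine KB_inv hu ?_ ?_
  · intro φ x y
    unfold BDC_W
    rw [ENNReal.tsum_prod', ENNReal.tsum_prod', ← tsum_map φ]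
    refine tsum_congr fun τ => ?_
    rw [← BDC_map3 φ]
    refine tsum_congr fun q => ?_
    rw [BDC_ckw, BDC_ckw, hc.inv φ, endp_map, BDC_g_map hc.inv hω]
    congr 1
    have h1 : avl (φ x) (τ.map φ, BDC_m φ q) = (avl x (τ, q)).map φ := by
      unfold avl
      rw [BDC_qvl, BDC_qvl, endp_map, BDC_q_map, List.map_append]
      rfl
    rw [h1, occ_map φ.injective]
  · intro x
    unfold BDC_W
    rw [ENNReal.tsum_comm, ← ck_mass hc hψ x, ← ENNReal.tsum_mul_left]
    refine ENNReal.tsum_le_tsum fun c => ?_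
    rw [ENNReal.tsum_mul_left, BDC_tot, mul_comm]
    by_cases hq : ckw D ω x c = 0
    · rw [hq, mul_zero, mul_zero]
    · refine mul_le_mul' ?_ le_rfl
      obtain ⟨τ, q⟩ := c
      rw [BDC_ckw] at hq
      have h1 := hc.len _ _ (left_ne_zero_of_mul hq)
      have h2 := BDC_len hlen _ _ (right_ne_zero_of_mul hq)
      have h3 : (avl x (τ, q)).length ≤ H + 2 * D.J + D.r + 2 := by
        show ((x :: τ) ++ BDC_q (endp x τ) q).length ≤ _
        rw [List.length_append, List.length_cons]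
        omega
      rw [hM]
      exact_mod_cast h3

theorem bd5 {D : Dat V} {ω : PW V} {ρ κ K ψ M : ℝ≥0∞} {H : ℕ} (h : Ug D.G D.d ρ D.z) (hc : Cn D.G D.z D.r κ K D.ν)
    (hω : InvP D.G ω) (hψ : ∀ z, Pq D ω z = ψ) (hlen : ∀ x l, ω x l ≠ 0 → l.length ≤ H)
    (hM : M = (H : ℝ≥0∞) + 2 * D.J + D.r + 2) (j : ℕ) (z : V) (U : List V) :
    SM (ckw D ω) cke j z (fun cs => ∑' c, ckw D ω (EN cke z cs) c *
      (if ∃ u ∈ avl (EN cke z cs) c, u ∈ U then 1 else 0)) ≤ (U.length : ℝ≥0∞) * ((κ * ψ) ^ j * (M * ψ)) := by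
  obtain ⟨Kj, hKj, h1⟩ := SM_ker (ckw D ω) cke (ck_ker h hc hω hψ) j
  have hK : KB (kc Kj (BDC_W D ω)) ((κ * ψ) ^ j * (M * ψ)) :=
    KB_cmp hKj (BDC_W_KB h.uni hc hω hψ hlen hM)
  rw [h1 z (fun y => ∑' c, ckw D ω y c * (if ∃ u ∈ avl y c, u ∈ U then 1 else 0))]
  calc ∑' y, Kj z y * ∑' c, ckw D ω y c * (if ∃ u ∈ avl y c, u ∈ U then 1 else 0)
      ≤ ∑' y, (U.map (fun u => Kj z y * BDC_W D ω y u)).sum := by
        refine ENNReal.tsum_le_tsum fun y => ?_
        rw [BDC_sum_mul]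
        refine mul_le_mul' le_rfl ?_
        unfold BDC_W
        rw [BDC_sum_tsum]
        refine ENNReal.tsum_le_tsum fun c => ?_
        rw [BDC_sum_mul]
        exact mul_le_mul' le_rfl (BDC_one _ _)
    _ = (U.map (fun u => ∑' y, Kj z y * BDC_W D ω y u)).sum := (BDC_sum_tsum _ U).symm
    _ ≤ (U.length : ℝ≥0∞) * ((κ * ψ) ^ j * (M * ψ)) := by
        refine BDC_sum_le _ _ (fun u => ?_) U
        exact KB_entry hK z u

end Pool.Agent.SAWG
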