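import Pool.Agent.SAWG.SMG
import Pool.Agent.SAWG.UNI
import Pool.Agent.SAWG.RWK
import Pool.Agent.SAWG.INW
import Pool.Agent.SAWG.VIS

/-!
# SAWG module CHA: masses and kernels of the chunks

PROOFS.  `tsum_ck`: the sum over a chunk is the iterated sum (`ENNReal.tsum_prod`); the sum over `τ` and then over `q` (triples).
`Pq_const`: `Gd_map`, `hω`, reindexing by an automorphism (`htr`).  `ck_mass`: `∑_τ ν z τ * Pq (endp z τ) = ψ`.
`ck_ker`: the kernel is `kc (kr ν) Q`, `Q z y = ∑_q [Gd] ω [end = y]` invariant with row sums `ψ`, `KB Q ψ` (`KB_inv`), `KB_cmp`.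
`Pq_ge`: `F z y = ∑_q [endp z q.1 = y] [Gd] ω y q.2.1` is invariant; `Pq z = ∑_y F z y = ∑_y F y z` (mass transport) `= ∑_p ω z p * #{(y, rm, rq) : endp y rm = z, Gd y rm p rq} ≥ ∑_p ω z p`
because every `p` with `ω z p ≠ 0` lies in `FF` (`hF`), so at least one such triple exists.
`Pq_top`: `Pq z ≤ ∑_{rm chain, length J} ∑_p ω (endp z rm) p * ∑_{rq chain, length J} 1 = d^J d^J ms ω` (`card_rwk`, `ms_const`).
-/

set_option autoImplicit false

open scoped ENNReal NNReal Classical
open Filter Topology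

namespace Pool.Agent.SAWG

open Pool.Agent.SWH (Ker idK adK tp endp Sw endp_nil endp_cons endp_append endp_mem)

variable {V : Type}

theorem tsum_ck (f : Ck V → ℝ≥0∞) :
    ∑' c, f c = ∑' τ : List V, ∑' rm : List V, ∑' p : List V, ∑' rq : List V, f (τ, rm, p, rq) := by
  rw [ENNReal.tsum_prod']
  refine tsum_congr fun τ => ?_
  rw [ENNReal.tsum_prod']
  refine tsum_congr fun rm => ?_
  rw [ENNReal.tsum_prod']

/-- The sum over triples is the iterated sum. -/
private theorem CHA_tsum3 (f : List V → List V → List V → ℝ≥0∞) :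
    ∑' q : List V × List V × List V, f q.1 q.2.1 q.2.2 = ∑' rm, ∑' p, ∑' rq, f rm p rq := by
  rw [ENNReal.tsum_prod']
  refine tsum_congr fun rm => ?_
  rw [ENNReal.tsum_prod']

/-- Reindexing of triples by an automorphism. -/
private theorem CHA_map3 {G : SimpleGraph V} (φ : G ≃g G) (f : List V → List V → List V → ℝ≥0∞) :
    ∑' q : List V × List V × List V, f (q.1.map φ) (q.2.1.map φ) (q.2.2.map φ)
      = ∑' q : List V × List V × List V, f q.1 q.2.1 q.2.2 := by
  rw [CHA_tsum3 f, CHA_tsum3 (fun a b c => f (a.map φ) (b.map φ) (c.map φ)),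
    ← tsum_map φ (fun a => ∑' p, ∑' rq, f a p rq)]
  refine tsum_congr fun a => ?_
  rw [← tsum_map φ (fun b => ∑' rq, f (a.map φ) b rq)]
  refine tsum_congr fun b => ?_
  rw [← tsum_map φ (fun c => f (a.map φ) (b.map φ) c)]

theorem Pq_const {D : Dat V} {ω : PW V} (htr : ∀ v w : V, ∃ φ : D.G ≃g D.G, φ v = w) (hν : InvP D.G D.ν)
    (hω : InvP D.G ω) (z z' : V) : Pq D ω z = Pq D ω z' := by
  obtain ⟨φ, hφ⟩ := htr z z'
  subst hφ
  unfold Pq
  rw [← CHA_map3 φ (fun a b c => if Gd D (φ z) a b c then ω (endp (φ z) a) b else 0)]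
  refine tsum_congr fun q => ?_
  simp only [Gd_map hν, endp_map, hω φ]

theorem ck_mass {D : Dat V} {ω : PW V} {κ K ψ : ℝ≥0∞} (hc : Cn D.G D.z D.r κ K D.ν)
    (hψ : ∀ z, Pq D ω z = ψ) (z : V) : ∑' c, ckw D ω z c = ψ := by
  rw [ENNReal.tsum_prod']
  have h1 : ∀ τ : List V, ∑' q : List V × List V × List V, ckw D ω z (τ, q) = D.ν z τ * ψ := by
    intro τ
    rw [← hψ (endp z τ)]
    unfold ckw Pq
    rw [← ENNReal.tsum_mul_left]
  rw [tsum_congr h1, ENNReal.tsum_mul_right]
  have h2 : ∑' τ, D.ν z τ = 1 := hc.one z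
  rw [h2, one_mul]

/-- The kernel of the extended pieces. -/
private noncomputable def CHA_Q (D : Dat V) (ω : PW V) : Ker V := fun z y =>
  ∑' q : List V × List V × List V, if endp (endp (endp z q.1) q.2.1) q.2.2 = y then
    (if Gd D z q.1 q.2.1 q.2.2 then ω (endp z q.1) q.2.1 else 0) else 0

private theorem CHA_Q_inv {D : Dat V} {ω : PW V} (hν : InvP D.G D.ν) (hω : InvP D.G ω) :
    InvG D.G (CHA_Q D ω) := by
  intro φ x y
  unfold CHA_Q
  rw [← CHA_map3 φ (fun a b c => if endp (endp (endp (φ x) a) b) c = φ y then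
    (if Gd D (φ x) a b c then ω (endp (φ x) a) b else 0) else 0)]
  refine tsum_congr fun q => ?_
  simp only [Gd_map hν, endp_map, hω φ, φ.injective.eq_iff]

private theorem CHA_tsum_ite {ι : Type} (g : ι → V) (f : ι → ℝ≥0∞) :
    ∑' y, ∑' q, (if g q = y then f q else 0) = ∑' q, f q := by
  rw [ENNReal.tsum_comm]
  refine tsum_congr fun q => ?_
  rw [tsum_eq_single (g q)]
  · rw [if_pos rfl]
  · intro y hy
    rw [if_neg (fun h => hy h.symm)]

private theorem CHA_Q_row (D : Dat V) (ω : PW V) (z : V) : ∑' y, CHA_Q D ω z y = Pq D ω z := by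
  unfold CHA_Q Pq
  exact CHA_tsum_ite (fun q : List V × List V × List V => endp (endp (endp z q.1) q.2.1) q.2.2)
    (fun q => if Gd D z q.1 q.2.1 q.2.2 then ω (endp z q.1) q.2.1 else 0)

theorem ck_ker {D : Dat V} {ω : PW V} {ρ κ K ψ : ℝ≥0∞} (h : Ug D.G D.d ρ D.z) (hc : Cn D.G D.z D.r κ K D.ν)
    (hω : InvP D.G ω) (hψ : ∀ z, Pq D ω z = ψ) :
    KB (fun z y => ∑' c, if cke z c = y then ckw D ω z c else 0) (κ * ψ) := by
  have h1 : KB (CHA_Q D ω) ψ :=
    KB_inv h.uni (CHA_Q_inv hc.inv hω) (fun x => by rw [CHA_Q_row, hψ])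
  have h2 := KB_cmp hc.kb h1
  refine KB_mono (fun z y => le_of_eq ?_) h2
  unfold kc
  rw [tsum_kr D.ν z (fun w => CHA_Q D ω w y), ENNReal.tsum_prod']
  refine tsum_congr fun τ => ?_
  unfold CHA_Q
  rw [← ENNReal.tsum_mul_left]
  refine tsum_congr fun q => ?_
  unfold ckw cke
  simp only [mul_ite, mul_zero]

theorem Pq_ge {D : Dat V} {ω : PW V} {ρ κ K : ℝ≥0∞} (h : Ug D.G D.d ρ D.z) (hc : Cn D.G D.z D.r κ K D.ν)
    (hω : InvP D.G ω) (hF : ∀ x l, ω x l ≠ 0 → FF D x l) (z : V) : ms ω z ≤ Pq D ω z := by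
  let F : Ker V := fun x y => ∑' q : List V × List V × List V, if endp x q.1 = y then
    (if Gd D x q.1 q.2.1 q.2.2 then ω y q.2.1 else 0) else 0
  have hinv : InvG D.G F := by
    intro φ x y
    show (∑' q : List V × List V × List V, if endp (φ x) q.1 = φ y then
      (if Gd D (φ x) q.1 q.2.1 q.2.2 then ω (φ y) q.2.1 else 0) else 0) = _
    rw [← CHA_map3 φ (fun a b c => if endp (φ x) a = φ y then
      (if Gd D (φ x) a b c then ω (φ y) b else 0) else 0)]
    refine tsum_congr fun q => ?_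
    simp only [Gd_map hc.inv, endp_map, hω φ, φ.injective.eq_iff]
  have h1 : Pq D ω z = ∑' y, F z y := by
    have h2 := CHA_tsum_ite (fun q : List V × List V × List V => endp z q.1)
      (fun q => if Gd D z q.1 q.2.1 q.2.2 then ω (endp z q.1) q.2.1 else 0)
    rw [Pq, ← h2]
    refine tsum_congr fun y => tsum_congr fun q => ?_
    by_cases hy : endp z q.1 = y
    · rw [if_pos hy, if_pos hy, hy]
    · rw [if_neg hy, if_neg hy]
  rw [h1, h.uni F hinv z]
  have h3 : ∀ y, F y z = ∑' p : List V, ∑' rm : List V, ∑' rq : List V,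
      if endp y rm = z then (if Gd D y rm p rq then ω z p else 0) else 0 := by
    intro y
    show (∑' q : List V × List V × List V, if endp y q.1 = z then
      (if Gd D y q.1 q.2.1 q.2.2 then ω z q.2.1 else 0) else 0) = _
    rw [CHA_tsum3 (fun a b c => if endp y a = z then (if Gd D y a b c then ω z b else 0) else 0),
      ENNReal.tsum_comm]
  rw [tsum_congr h3, ENNReal.tsum_comm]
  unfold ms
  refine ENNReal.tsum_le_tsum fun p => ?_
  by_cases hp : ω z p = 0
  · rw [hp]; exact zero_le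
  · obtain ⟨y, rm, rq, he, hg⟩ := hF z p hp
    calc ω z p = (if endp y rm = z then (if Gd D y rm p rq then ω z p else 0) else 0) := by
          rw [if_pos he, if_pos hg]
      _ ≤ ∑' rq : List V, (if endp y rm = z then (if Gd D y rm p rq then ω z p else 0) else 0) :=
          ENNReal.le_tsum (f := fun rq => if endp y rm = z then (if Gd D y rm p rq then ω z p else 0) else 0) rq
      _ ≤ ∑' rm : List V, ∑' rq : List V, (if endp y rm = z then (if Gd D y rm p rq then ω z p else 0) else 0) :=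
          ENNReal.le_tsum (f := fun rm => ∑' rq : List V,
            (if endp y rm = z then (if Gd D y rm p rq then ω z p else 0) else 0)) rm
      _ ≤ _ := ENNReal.le_tsum (f := fun y => ∑' rm : List V, ∑' rq : List V,
            (if endp y rm = z then (if Gd D y rm p rq then ω z p else 0) else 0)) y

theorem Pq_top {D : Dat V} {ω : PW V} {ρ κ K : ℝ≥0∞} (h : Ug D.G D.d ρ D.z) (hc : Cn D.G D.z D.r κ K D.ν)
    (hω : InvP D.G ω) {z : V} (ht : ms ω z ≠ ⊤) : Pq D ω z ≠ ⊤ := by
  have h1 : Pq D ω z ≤ (D.d : ℝ≥0∞) ^ D.J * (ms ω z * (D.d : ℝ≥0∞) ^ D.J) := by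
    unfold Pq
    rw [CHA_tsum3 (fun a b c => if Gd D z a b c then ω (endp z a) b else 0)]
    calc ∑' rm, ∑' p, ∑' rq, (if Gd D z rm p rq then ω (endp z rm) p else 0)
        ≤ ∑' rm : List V, (if (z :: rm).IsChain D.G.Adj ∧ rm.length = D.J then (1 : ℝ≥0∞) else 0) *
            (ms ω z * (D.d : ℝ≥0∞) ^ D.J) := by
          refine ENNReal.tsum_le_tsum fun rm => ?_
          by_cases hrm : (z :: rm).IsChain D.G.Adj ∧ rm.length = D.J
          · rw [if_pos hrm, one_mul, ms_const h.tr hω z (endp z rm)]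
            unfold ms
            rw [← ENNReal.tsum_mul_right]
            refine ENNReal.tsum_le_tsum fun p => ?_
            rw [← card_rwk h D.J (endp (endp z rm) p), ← ENNReal.tsum_mul_left]
            refine ENNReal.tsum_le_tsum fun rq => ?_
            by_cases hg : Gd D z rm p rq
            · rw [if_pos hg, if_pos ⟨hg.cq, hg.lq⟩, mul_one]
            · rw [if_neg hg]; exact zero_le
          · rw [if_neg hrm, zero_mul]
            refine le_of_eq ?_
            rw [ENNReal.tsum_eq_zero]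
            intro p
            rw [ENNReal.tsum_eq_zero]
            intro rq
            rw [if_neg]
            intro hg
            exact hrm ⟨hg.cm, hg.lm⟩
      _ = (D.d : ℝ≥0∞) ^ D.J * (ms ω z * (D.d : ℝ≥0∞) ^ D.J) := by
          rw [ENNReal.tsum_mul_right, card_rwk h D.J z]
  refine ne_top_of_le_ne_top ?_ h1
  have hd : ((D.d : ℝ≥0∞) ^ D.J) ≠ ⊤ := ENNReal.pow_ne_top (ENNReal.natCast_ne_top _)
  exact ENNReal.mul_ne_top hd (ENNReal.mul_ne_top ht hd)

end Pool.Agent.SAWG
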