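import Pool.Agent.SAWG.FCA
import Pool.Agent.SAWG.DEN

/-!
# SAWG module FCB: the ends of the walks of the class F are good

PROOFS.  `good_one`: `den` for the walk `[]` from `v`: `0 < c0 ≤` number of good positions, so the position `0` is good (`x :: [] = [v]`).
`FF_end`: from `FF`: `z, rm, rq` with `Gd`; the walk `rq` shows `Gg (vs ν) (y :: p) (endp y p)` (`cq, lq, d2, f1`).  `FF_start`: the reversed walk `rm` (as in `FCA.rev_walk`):
`r` with `y :: r = (z :: rm).reverse`; its elements are the ones of `(z :: rm).dropLast`; `d1`, `b1`.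
-/

set_option autoImplicit false

open scoped ENNReal NNReal Classical
open Filter Topology

namespace Pool.Agent.SAWG

open Pool.Agent.SWH (Ker idK adK tp endp Sw endp_nil endp_cons endp_append endp_mem)

variable {V : Type}

theorem good_one {D : Dat V} {ρ κ K K1 : ℝ≥0∞} {c0 : ℝ≥0} (hs : Sc D ρ κ K K1 c0) (v : V) :
    Gg D (vs D.ν) [v] v ∧ Gg D (vb D.ν) [v] v := by
  have hw : Sw D.G v [] := ⟨by simp, by simp⟩
  have h1 := den hs hw
  have h2 : ((Finset.range (([] : List V).length + 1)).filter (fun i => GP D v [] i)).Nonempty := by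
    rw [← Finset.card_pos]
    by_contra h3
    have h4 : ((Finset.range (([] : List V).length + 1)).filter (fun i => GP D v [] i)).card = 0 := by omega
    rw [h4] at h1
    simp only [List.length_nil, Nat.cast_zero, zero_add, mul_one, nonpos_iff_eq_zero, ENNReal.coe_eq_zero] at h1
    exact hs.c0p h1
  obtain ⟨i, hi⟩ := h2
  rw [Finset.mem_filter, Finset.mem_range] at hi
  have h5 : i = 0 := by
    have := hi.1
    simp only [List.length_nil] at this
    omega
  subst h5
  exact hi.2

theorem FF_end {D : Dat V} {y : V} {p : List V} (h : FF D y p) : Gg D (vs D.ν) (y :: p) (endp y p) := by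
  obtain ⟨z, rm, rq, hz, hg⟩ := h
  subst hz
  exact ⟨rq, hg.cq, hg.lq, hg.d2, hg.f1⟩

theorem FF_start {D : Dat V} {y : V} {p : List V} (h : FF D y p) : Gg D (vb D.ν) (y :: p) y := by
  obtain ⟨z, rm, rq, hz, hg⟩ := h
  subst hz
  obtain ⟨r, h1, h2, h3, h4, _⟩ := rev_walk hg.cm
  refine ⟨r, h4, h2.trans hg.lm, ?_, ?_⟩
  · intro u hu
    refine hg.d1 u ?_
    have h5 : r = (z :: rm).dropLast.reverse := by
      rw [← List.tail_reverse, ← h1, List.tail_cons]
    rw [h5, List.mem_reverse] at hu
    exact hu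
  · rw [h3]
    exact hg.b1

theorem FF_Sw {D : Dat V} {y : V} {p : List V} (h : FF D y p) : Sw D.G y p := by
  obtain ⟨z, rm, rq, hz, hg⟩ := h
  subst hz
  exact hg.sp

end Pool.Agent.SAWG
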