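import Pool.Agent.SAWG.VIS
import Pool.Agent.SAWG.RWK

/-!
# SAWG module NIC: counting the end walks that do not fit

PROOF.  Let `zq = endp e rq`, `S` = the set of the `y ∈ I` with `¬ Nc`.  Each `y ∈ S` violates one of the four conditions; `Bl := (J+1) d^J`.
(0) for every vertex `u` and `k ≤ J` at most `d^k ≤ d^J` of the `y` satisfy `endp y ((r y).take k) = u` (`endp` of a chain of length `k` from `y`; `∑_y kr (rwk k) y u = 1` (`col_rwk`)
and each such `y` contributes at least `d^{-k}`).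
(dj) `u ∈ rq`, `u ∈ r y`: `u` is one of the `J` elements of `rq`, `u = endp y ((r y).take k)` for some `k ≤ J`: at most `J * (J+1) * d^J` of the `y`.
(f) `∑_{y∈I} hit (vs ν) zq (y :: r y) = ∑_{y ∈ I} ∑_{k ≤ J} vs ν zq (endp y ((r y).take k)) ≤ ∑_u vs ν zq u * (J+1) d^J ≤ (r+1) Bl` (`row_vs`), so at most `(r+1) Bl / η` of the `y` have `hit > η`.
(b) `∑_{y∈I} hit (vb ν) (endp y (r y)) (e :: rq) = ∑_{u ∈ e :: rq} ∑_y vb ν (endp y (r y)) u ≤ ∑_{u ∈ e :: rq} d^J ∑_z vb ν z u ≤ (J+1) d^J (r+1)` (`col_vb`, (0) for `k = J`).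
(m) `∑_{y∈I} ∑_u vb ν (endp y (r y)) u * vs ν zq u ≤ d^J ∑_u vs ν zq u * ∑_z vb ν z u ≤ d^J (r+1)^2`.
The total is at most `(J (J+1) d^J) + (2 (r+1) Bl + (r+1)^2 d^J) / η ≤ 4 (r+1)^2 (J+1) d^J / η`, PROVIDED `J ≤ (r+1)^2 / η` — hence the hypothesis `hJ`.
-/

set_option autoImplicit false

open scoped ENNReal NNReal Classical
open Filter Topology

namespace Pool.Agent.SAWG

open Pool.Agent.SWH (Ker idK adK tp endp Sw endp_nil endp_cons endp_append endp_mem)

variable {V : Type}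

/-- The walk as the list of its vertices. -/
private theorem NIC_list (T : V → ℝ≥0∞) (l : List V) : ∀ y : V,
    ((y :: l).map T).sum = ∑ k ∈ Finset.range (l.length + 1), T (endp y (l.take k)) := by
  induction l with
  | nil => intro y; simp [endp_nil]
  | cons a l ih =>
    intro y
    rw [List.map_cons, List.sum_cons, ih a, List.length_cons, Finset.sum_range_succ' (n := l.length + 1), add_comm]
    congr 1
    refine Finset.sum_congr rfl fun k _ => ?_
    rw [List.take_succ_cons, endp_cons]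

private theorem NIC_one {D : Dat V} {ρ : ℝ≥0∞} (h : Ug D.G D.d ρ D.z) {I : Finset V} {r : V → List V}
    (hr : ∀ y ∈ I, (y :: r y).IsChain D.G.Adj ∧ (r y).length = D.J) {k : ℕ} (hk : k ≤ D.J) (T : V → ℝ≥0∞) :
    ∑ y ∈ I, T (endp y ((r y).take k)) ≤ (D.d : ℝ≥0∞) ^ D.J * ∑' z, T z := by
  have hd0 : (D.d : ℝ≥0∞) ≠ 0 := by
    have := h.dpos
    exact_mod_cast (by omega : D.d ≠ 0)
  have hdt : (D.d : ℝ≥0∞) ≠ ⊤ := ENNReal.natCast_ne_top _
  have h1 : ∀ y ∈ I, T (endp y ((r y).take k)) ≤ (D.d : ℝ≥0∞) ^ k * ∑' z, kr (rwk D.G D.d k) y z * T z := by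
    intro y hy
    have hkr : ((D.d : ℝ≥0∞)⁻¹) ^ k ≤ kr (rwk D.G D.d k) y (endp y ((r y).take k)) := by
      unfold kr
      refine le_trans ?_ (ENNReal.le_tsum ((r y).take k))
      rw [if_pos rfl]
      unfold rwk
      rw [if_pos]
      refine ⟨?_, ?_⟩
      · have := (hr y hy).1.take (k + 1)
        rwa [List.take_succ_cons] at this
      · rw [List.length_take, (hr y hy).2]
        exact min_eq_left hk
    calc T (endp y ((r y).take k)) = (D.d : ℝ≥0∞) ^ k * (((D.d : ℝ≥0∞)⁻¹) ^ k * T (endp y ((r y).take k))) := by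
          rw [← mul_assoc, ← mul_pow, ENNReal.mul_inv_cancel hd0 hdt, one_pow, one_mul]
      _ ≤ (D.d : ℝ≥0∞) ^ k * (kr (rwk D.G D.d k) y (endp y ((r y).take k)) * T (endp y ((r y).take k))) := by gcongr
      _ ≤ (D.d : ℝ≥0∞) ^ k * ∑' z, kr (rwk D.G D.d k) y z * T z := by
          gcongr
          exact ENNReal.le_tsum (f := fun z => kr (rwk D.G D.d k) y z * T z) (endp y ((r y).take k))
  have h2 : ∑ y ∈ I, ∑' z, kr (rwk D.G D.d k) y z * T z ≤ ∑' z, T z := by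
    calc ∑ y ∈ I, ∑' z, kr (rwk D.G D.d k) y z * T z ≤ ∑' y, ∑' z, kr (rwk D.G D.d k) y z * T z :=
          ENNReal.sum_le_tsum I
      _ = ∑' z, ∑' y, kr (rwk D.G D.d k) y z * T z := ENNReal.tsum_comm
      _ = ∑' z, T z := by
          refine tsum_congr fun z => ?_
          rw [ENNReal.tsum_mul_right, col_rwk h k z, one_mul]
  calc ∑ y ∈ I, T (endp y ((r y).take k)) ≤ ∑ y ∈ I, (D.d : ℝ≥0∞) ^ k * ∑' z, kr (rwk D.G D.d k) y z * T z :=
        Finset.sum_le_sum h1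
    _ = (D.d : ℝ≥0∞) ^ k * ∑ y ∈ I, ∑' z, kr (rwk D.G D.d k) y z * T z := by rw [Finset.mul_sum]
    _ ≤ (D.d : ℝ≥0∞) ^ D.J * ∑' z, T z := by
        refine mul_le_mul' ?_ h2
        exact pow_le_pow_right₀ (by exact_mod_cast h.dpos) hk

private theorem NIC_all {D : Dat V} {ρ : ℝ≥0∞} (h : Ug D.G D.d ρ D.z) {I : Finset V} {r : V → List V}
    (hr : ∀ y ∈ I, (y :: r y).IsChain D.G.Adj ∧ (r y).length = D.J) (T : V → ℝ≥0∞) :
    ∑ y ∈ I, ((y :: r y).map T).sum ≤ ((D.J : ℝ≥0∞) + 1) * (D.d : ℝ≥0∞) ^ D.J * ∑' z, T z := by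
  calc ∑ y ∈ I, ((y :: r y).map T).sum
      = ∑ y ∈ I, ∑ k ∈ Finset.range (D.J + 1), T (endp y ((r y).take k)) := by
        refine Finset.sum_congr rfl fun y hy => ?_
        rw [NIC_list, (hr y hy).2]
    _ = ∑ k ∈ Finset.range (D.J + 1), ∑ y ∈ I, T (endp y ((r y).take k)) := Finset.sum_comm
    _ ≤ ∑ _k ∈ Finset.range (D.J + 1), (D.d : ℝ≥0∞) ^ D.J * ∑' z, T z := by
        refine Finset.sum_le_sum fun k hk => ?_
        exact NIC_one h hr (by have := Finset.mem_range.1 hk; omega) T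
    _ = ((D.J : ℝ≥0∞) + 1) * (D.d : ℝ≥0∞) ^ D.J * ∑' z, T z := by
        rw [Finset.sum_const, Finset.card_range, nsmul_eq_mul]
        push_cast
        ring

private theorem NIC_end {D : Dat V} {ρ : ℝ≥0∞} (h : Ug D.G D.d ρ D.z) {I : Finset V} {r : V → List V}
    (hr : ∀ y ∈ I, (y :: r y).IsChain D.G.Adj ∧ (r y).length = D.J) (T : V → ℝ≥0∞) :
    ∑ y ∈ I, T (endp y (r y)) ≤ (D.d : ℝ≥0∞) ^ D.J * ∑' z, T z := by
  refine le_trans (le_of_eq ?_) (NIC_one h hr le_rfl T)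
  refine Finset.sum_congr rfl fun y hy => ?_
  rw [List.take_of_length_le (hr y hy).2.le]

private theorem NIC_markov (I : Finset V) (f : V → ℝ≥0∞) {c : ℝ≥0∞} (hc : c ≠ 0) (hct : c ≠ ⊤) (P : V → Prop)
    [DecidablePred P] (hP : ∀ y ∈ I, P y → c ≤ f y) : ((I.filter P).card : ℝ≥0∞) ≤ c⁻¹ * ∑ y ∈ I, f y := by
  have h1 : ((I.filter P).card : ℝ≥0∞) * c ≤ ∑ y ∈ I, f y := by
    calc ((I.filter P).card : ℝ≥0∞) * c = ∑ _y ∈ I.filter P, c := by rw [Finset.sum_const, nsmul_eq_mul]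
      _ ≤ ∑ y ∈ I.filter P, f y := Finset.sum_le_sum fun y hy =>
          hP y (Finset.mem_filter.1 hy).1 (Finset.mem_filter.1 hy).2
      _ ≤ ∑ y ∈ I, f y := Finset.sum_le_sum_of_subset (Finset.filter_subset _ _)
  calc ((I.filter P).card : ℝ≥0∞) = c⁻¹ * (((I.filter P).card : ℝ≥0∞) * c) := by
        rw [mul_comm _ c, ← mul_assoc, ENNReal.inv_mul_cancel hc hct, one_mul]
    _ ≤ c⁻¹ * ∑ y ∈ I, f y := by gcongr

private theorem NIC_tsum_list (K : V → V → ℝ≥0∞) (L : List V) :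
    ∑' z, (L.map (K z)).sum = (L.map (fun u => ∑' z, K z u)).sum := by
  induction L with
  | nil => simp
  | cons a L ih =>
    simp only [List.map_cons, List.sum_cons]
    rw [ENNReal.tsum_add, ih]

private theorem NIC_list_le (f : V → ℝ≥0∞) {c : ℝ≥0∞} (hf : ∀ u, f u ≤ c) (L : List V) :
    (L.map f).sum ≤ (L.length : ℝ≥0∞) * c := by
  induction L with
  | nil => simp
  | cons a L ih =>
    rw [List.map_cons, List.sum_cons, List.length_cons]
    push_cast
    calc f a + (L.map f).sum ≤ c + (L.length : ℝ≥0∞) * c := add_le_add (hf a) ih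
      _ = ((L.length : ℝ≥0∞) + 1) * c := by ring

private theorem NIC_ind (L : List V) : ∑' z, (if z ∈ L then (1 : ℝ≥0∞) else 0) ≤ (L.length : ℝ≥0∞) := by
  rw [tsum_eq_sum (s := L.toFinset)]
  · calc ∑ z ∈ L.toFinset, (if z ∈ L then (1 : ℝ≥0∞) else 0) ≤ ∑ _z ∈ L.toFinset, (1 : ℝ≥0∞) := by
          refine Finset.sum_le_sum fun z _ => ?_
          split_ifs
          · exact le_rfl
          · exact zero_le_one
      _ = (L.toFinset.card : ℝ≥0∞) := by rw [Finset.sum_const, nsmul_eq_mul, mul_one]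
      _ ≤ (L.length : ℝ≥0∞) := by exact_mod_cast List.toFinset_card_le L
  · intro z hz
    rw [if_neg]
    intro h
    exact hz (List.mem_toFinset.2 h)

private theorem NIC_mem_sum (L M : List V) {u : V} (hu : u ∈ L) (hM : u ∈ M) :
    1 ≤ (L.map (fun z => if z ∈ M then (1 : ℝ≥0∞) else 0)).sum := by
  induction L with
  | nil => exact absurd hu (by simp)
  | cons a L ih =>
    rw [List.map_cons, List.sum_cons]
    rcases List.mem_cons.1 hu with h | h
    · rw [← h, if_pos hM]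
      exact le_self_add
    · exact le_trans (ih h) le_add_self

theorem nic {D : Dat V} {ρ κ K K1 : ℝ≥0∞} {c0 : ℝ≥0} (hs : Sc D ρ κ K K1 c0) (hJ : D.J ≤ 24 * (D.r + 1)) (e : V)
    (rq : List V) (hq : (e :: rq).IsChain D.G.Adj) (hql : rq.length = D.J) (I : Finset V) (r : V → List V)
    (hr : ∀ y ∈ I, (y :: r y).IsChain D.G.Adj ∧ (r y).length = D.J) :
    ((I.filter (fun y => ¬ Nc D y (r y) e rq)).card : ℝ≥0∞) ≤ B0 D := by
  have hη0 : D.η ≠ 0 := by rw [hs.eta]; simp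
  have hηt : D.η ≠ ⊤ := by rw [hs.eta]; simp
  have hηi : D.η⁻¹ = 24 := by rw [hs.eta, inv_inv]
  set R : ℝ≥0∞ := (D.r : ℝ≥0∞) + 1 with hR
  set J1 : ℝ≥0∞ := (D.J : ℝ≥0∞) + 1 with hJ1
  set dd : ℝ≥0∞ := (D.d : ℝ≥0∞) ^ D.J with hdd
  have hR1 : 1 ≤ R := le_add_self
  have hRR : R ≤ R ^ 2 := by
    rw [sq]
    calc R = 1 * R := (one_mul R).symm
      _ ≤ R * R := by gcongr
  have hJ24 : (D.J : ℝ≥0∞) ≤ 24 * R := by
    rw [hR]
    exact_mod_cast hJ
  -- the four conditions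
  have A1 : ((I.filter (fun y => ∃ u ∈ rq, u ∈ r y)).card : ℝ≥0∞) ≤ R ^ 2 * J1 * dd * 24 := by
    have h1 := NIC_markov I (fun y => ((y :: r y).map (fun z => if z ∈ rq then (1 : ℝ≥0∞) else 0)).sum)
      one_ne_zero ENNReal.one_ne_top (fun y => ∃ u ∈ rq, u ∈ r y) (fun y _ hy => by
        obtain ⟨u, hu, hu'⟩ := hy
        exact NIC_mem_sum _ _ (List.mem_cons_of_mem _ hu') hu)
    refine h1.trans ?_
    rw [inv_one, one_mul]
    refine (NIC_all hs.ug hr _).trans ?_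
    calc J1 * dd * ∑' z, (if z ∈ rq then (1 : ℝ≥0∞) else 0) ≤ J1 * dd * (rq.length : ℝ≥0∞) := by
          gcongr
          exact NIC_ind rq
      _ ≤ J1 * dd * (24 * R ^ 2) := by
          rw [hql]
          gcongr
          exact hJ24.trans (by gcongr)
      _ = R ^ 2 * J1 * dd * 24 := by ring
  have A2 : ((I.filter (fun y => ¬ hit (vs D.ν) (endp e rq) (y :: r y) ≤ D.η)).card : ℝ≥0∞)
      ≤ R ^ 2 * J1 * dd * 24 := by
    have h1 := NIC_markov I (fun y => hit (vs D.ν) (endp e rq) (y :: r y))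
      hη0 hηt (fun y => ¬ hit (vs D.ν) (endp e rq) (y :: r y) ≤ D.η) (fun y _ hy => (not_le.1 hy).le)
    refine h1.trans ?_
    rw [hηi]
    unfold hit
    calc 24 * ∑ y ∈ I, ((y :: r y).map (vs D.ν (endp e rq))).sum ≤ 24 * (J1 * dd * ∑' z, vs D.ν (endp e rq) z) := by
          gcongr
          exact NIC_all hs.ug hr _
      _ ≤ 24 * (J1 * dd * R) := by
          gcongr
          exact row_vs hs.cn _
      _ ≤ 24 * (J1 * dd * R ^ 2) := by gcongr
      _ = R ^ 2 * J1 * dd * 24 := by ring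
  have A3 : ((I.filter (fun y => ¬ hit (vb D.ν) (endp y (r y)) (e :: rq) ≤ D.η)).card : ℝ≥0∞)
      ≤ R ^ 2 * J1 * dd * 24 := by
    have h1 := NIC_markov I (fun y => hit (vb D.ν) (endp y (r y)) (e :: rq))
      hη0 hηt (fun y => ¬ hit (vb D.ν) (endp y (r y)) (e :: rq) ≤ D.η) (fun y _ hy => (not_le.1 hy).le)
    refine h1.trans ?_
    rw [hηi]
    unfold hit
    calc 24 * ∑ y ∈ I, ((e :: rq).map (vb D.ν (endp y (r y)))).sum
        ≤ 24 * (dd * ∑' z, ((e :: rq).map (vb D.ν z)).sum) := by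
          gcongr
          exact NIC_end hs.ug hr (fun z => ((e :: rq).map (vb D.ν z)).sum)
      _ ≤ 24 * (dd * (J1 * R)) := by
          gcongr
          rw [NIC_tsum_list]
          refine (NIC_list_le _ (fun u => col_vb hs.ug.uni hs.cn u) _).trans ?_
          rw [List.length_cons, hql]
          push_cast
          exact le_rfl
      _ ≤ 24 * (dd * (J1 * R ^ 2)) := by gcongr
      _ = R ^ 2 * J1 * dd * 24 := by ring
  have A4 : ((I.filter (fun y => ¬ ∑' u, vb D.ν (endp y (r y)) u * vs D.ν (endp e rq) u ≤ D.η)).card : ℝ≥0∞)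
      ≤ R ^ 2 * J1 * dd * 24 := by
    have h1 := NIC_markov I (fun y => ∑' u, vb D.ν (endp y (r y)) u * vs D.ν (endp e rq) u)
      hη0 hηt (fun y => ¬ ∑' u, vb D.ν (endp y (r y)) u * vs D.ν (endp e rq) u ≤ D.η) (fun y _ hy => (not_le.1 hy).le)
    refine h1.trans ?_
    rw [hηi]
    have h2 : ∑' z, ∑' u, vb D.ν z u * vs D.ν (endp e rq) u ≤ R * R := by
      rw [ENNReal.tsum_comm]
      calc ∑' u, ∑' z, vb D.ν z u * vs D.ν (endp e rq) u = ∑' u, (∑' z, vb D.ν z u) * vs D.ν (endp e rq) u := by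
            refine tsum_congr fun u => ?_
            rw [ENNReal.tsum_mul_right]
        _ ≤ ∑' u, R * vs D.ν (endp e rq) u := by
            refine ENNReal.tsum_le_tsum fun u => ?_
            gcongr
            exact col_vb hs.ug.uni hs.cn u
        _ = R * ∑' u, vs D.ν (endp e rq) u := ENNReal.tsum_mul_left
        _ ≤ R * R := by
            gcongr
            exact row_vs hs.cn _
    calc 24 * ∑ y ∈ I, ∑' u, vb D.ν (endp y (r y)) u * vs D.ν (endp e rq) u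
        ≤ 24 * (dd * ∑' z, ∑' u, vb D.ν z u * vs D.ν (endp e rq) u) := by
          gcongr
          exact NIC_end hs.ug hr (fun z => ∑' u, vb D.ν z u * vs D.ν (endp e rq) u)
      _ ≤ 24 * (dd * (R * R)) := by gcongr
      _ ≤ 24 * (dd * (R * R)) * J1 := le_mul_of_one_le_right zero_le le_add_self
      _ = R ^ 2 * J1 * dd * 24 := by ring
  have hsub : I.filter (fun y => ¬ Nc D y (r y) e rq) ⊆
      ((I.filter (fun y => ∃ u ∈ rq, u ∈ r y)) ∪ (I.filter (fun y => ¬ hit (vs D.ν) (endp e rq) (y :: r y) ≤ D.η))) ∪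
      ((I.filter (fun y => ¬ hit (vb D.ν) (endp y (r y)) (e :: rq) ≤ D.η)) ∪
        (I.filter (fun y => ¬ ∑' u, vb D.ν (endp y (r y)) u * vs D.ν (endp e rq) u ≤ D.η))) := by
    intro y hy
    obtain ⟨hyI, hyn⟩ := Finset.mem_filter.1 hy
    by_contra hcon
    simp only [Finset.mem_union, Finset.mem_filter, hyI, true_and, not_or, not_not] at hcon
    obtain ⟨⟨c1, c2⟩, c3, c4⟩ := hcon
    exact hyn ⟨fun u hu hu' => c1 ⟨u, hu, hu'⟩, c2, c3, c4⟩
  have hcard : ((I.filter (fun y => ¬ Nc D y (r y) e rq)).card : ℝ≥0∞) ≤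
      (((I.filter (fun y => ∃ u ∈ rq, u ∈ r y)).card : ℝ≥0∞) +
        ((I.filter (fun y => ¬ hit (vs D.ν) (endp e rq) (y :: r y) ≤ D.η)).card : ℝ≥0∞)) +
      (((I.filter (fun y => ¬ hit (vb D.ν) (endp y (r y)) (e :: rq) ≤ D.η)).card : ℝ≥0∞) +
        ((I.filter (fun y => ¬ ∑' u, vb D.ν (endp y (r y)) u * vs D.ν (endp e rq) u ≤ D.η)).card : ℝ≥0∞)) := by
    have h1 := Finset.card_le_card hsub
    have h2 := h1.trans ((Finset.card_union_le _ _).trans
      (Nat.add_le_add (Finset.card_union_le _ _) (Finset.card_union_le _ _)))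
    exact_mod_cast h2
  refine hcard.trans ((add_le_add (add_le_add A1 A2) (add_le_add A3 A4)).trans (le_of_eq ?_))
  unfold B0
  rw [hηi]
  ring

end Pool.Agent.SAWG
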