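import Pool.Agent.SAWG.ALF
import Pool.Agent.SAWG.FCB
import Pool.Agent.SAWG.NIC
import Pool.Agent.SAWG.INW

/-!
# SAWG module CUT: cutting a walk at a good pair

PROOF.  Let `w = (x, l)` be self-avoiding of length `n`, `g_1 < … < g_m` its positions with `GP`, `m ≥ c0 (n+1)` (`den`).  Let `j = g_m`, with the walk `rq` from `Gg (vs ν)` at `j`, and for every good `i` a walk `r_i`
from `Gg (vb ν)` at `i` (as function of the vertex).  By `nic` at most `B0` of the good `i` do not fit; among the first `⌊B0⌋ + 1` good positions there is a fitting one `i`, and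
`j - i ≥ m - (⌊B0⌋ + 1) ≥ m - (B0+1) ≥ m/2 ≥ c0 (n+1)/2` (because `2 (B0+1) ≤ c0 (n+1) ≤ m`).  `FF_of_nc` (with `U = U' = x :: l`, `sg_sublist`): `sg l i j ∈ FF`.
So `sa x l ≤ ∑_{i,j} [i ≤ j ≤ n, c0 (n+1) ≤ 2 (j-i)] [sg l i j ∈ FF] sa x (l.take i) * sa (vt i) (sg l i j) * sa (vt j) (l.drop j)`; sum over `l` of length `n`:
for fixed `i, j` the sum is at most `al i * (mass of FF with length j - i) * al (n-j)` (as in `cv (cv a b) c`, `tsum_cv`, `ms_cv_le`).
-/

set_option autoImplicit false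

open scoped ENNReal NNReal Classical
open Filter Topology

namespace Pool.Agent.SAWG

open Pool.Agent.SWH (Ker idK adK tp endp Sw endp_nil endp_cons endp_append endp_mem)

variable {V : Type}

private theorem CUT_card {S Bad : Finset ℕ} {C b : ℝ} {j : ℕ} (hC : 0 ≤ C) (h1 : C ≤ S.card) (h2 : (Bad.card : ℝ) ≤ b)
    (h3 : 2 * (b + 1) ≤ C) (hj : ∀ i ∈ S, i ≤ j) : ∃ i ∈ S, i ∉ Bad ∧ C ≤ 2 * ((j - i : ℕ) : ℝ) := by
  by_contra hcon
  push Not at hcon
  have h4 : S ⊆ Bad ∪ S.filter (fun i => 2 * ((j - i : ℕ) : ℝ) < C) := by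
    intro i hi
    by_cases hb : i ∈ Bad
    · exact Finset.mem_union_left _ hb
    · exact Finset.mem_union_right _ (Finset.mem_filter.2 ⟨hi, hcon i hi hb⟩)
  have h5 : (S.filter (fun i => 2 * ((j - i : ℕ) : ℝ) < C)).card ≤ ⌈C / 2⌉₊ := by
    rw [← Finset.card_range ⌈C / 2⌉₊]
    refine Finset.card_le_card_of_injOn (fun i => j - i) ?_ ?_
    · intro i hi
      have hi' := Finset.mem_filter.1 (Finset.mem_coe.1 hi)
      refine Finset.mem_coe.2 (Finset.mem_range.2 ?_)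
      have h6 : ((j - i : ℕ) : ℝ) < C / 2 := by linarith [hi'.2]
      have h7 := Nat.le_ceil (C / 2)
      exact_mod_cast h6.trans_le h7
    · intro a ha c hc hac
      have ha' := hj a (Finset.mem_filter.1 (Finset.mem_coe.1 ha)).1
      have hc' := hj c (Finset.mem_filter.1 (Finset.mem_coe.1 hc)).1
      have hac' : j - a = j - c := hac
      omega
  have h6 : S.card ≤ Bad.card + ⌈C / 2⌉₊ :=
    (Finset.card_le_card h4).trans ((Finset.card_union_le _ _).trans (Nat.add_le_add_left h5 _))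
  have h7 : (⌈C / 2⌉₊ : ℝ) < C / 2 + 1 := Nat.ceil_lt_add_one (by linarith)
  have h8 : (S.card : ℝ) ≤ Bad.card + ⌈C / 2⌉₊ := by exact_mod_cast h6
  linarith

/-- the good pair -/
private theorem CUT_pair {D : Dat V} {ρ κ K K1 : ℝ≥0∞} {c0 : ℝ≥0} (hs : Sc D ρ κ K K1 c0) {n : ℕ}
    (hn : 2 * (B0 D + 1) ≤ (c0 : ℝ≥0∞) * ((n : ℝ≥0∞) + 1)) {x : V} {l : List V} (hw : Sw D.G x l)
    (hl : l.length = n) : ∃ i j : ℕ, i ≤ j ∧ j ≤ n ∧ (c0 : ℝ≥0∞) * ((n : ℝ≥0∞) + 1) ≤ 2 * ((j - i : ℕ) : ℝ≥0∞) ∧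
      FF D (vt x l i) (sg l i j) := by
  obtain ⟨S, hS⟩ : ∃ S, S = (Finset.range (l.length + 1)).filter (fun i => GP D x l i) := ⟨_, rfl⟩
  have hden := den hs hw
  rw [← hS, hl] at hden
  have hCt : (c0 : ℝ≥0∞) * ((n : ℝ≥0∞) + 1) ≠ ⊤ :=
    ENNReal.mul_ne_top ENNReal.coe_ne_top (ENNReal.add_ne_top.2 ⟨ENNReal.natCast_ne_top n, ENNReal.one_ne_top⟩)
  have hB1 : B0 D + 1 ≠ ⊤ := by
    intro h
    rw [h, ENNReal.mul_top (by norm_num)] at hn
    exact hCt (top_le_iff.1 hn)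
  have hBt : B0 D ≠ ⊤ := fun h => hB1 (by rw [h, top_add])
  have hc0 : (0 : ℝ) < c0 := by
    have h1 := hs.c0p
    exact_mod_cast pos_iff_ne_zero.2 h1
  have hCr : ((c0 : ℝ≥0∞) * ((n : ℝ≥0∞) + 1)).toReal = (c0 : ℝ) * ((n : ℝ) + 1) := by
    rw [ENNReal.toReal_mul, ENNReal.toReal_add (ENNReal.natCast_ne_top n) ENNReal.one_ne_top]
    simp
  have hn' : 2 * ((B0 D).toReal + 1) ≤ (c0 : ℝ) * ((n : ℝ) + 1) := by
    have h1 := ENNReal.toReal_mono hCt hn
    rw [hCr, ENNReal.toReal_mul, ENNReal.toReal_add hBt ENNReal.one_ne_top] at h1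
    simpa using h1
  have hden' : (c0 : ℝ) * ((n : ℝ) + 1) ≤ S.card := by
    have h1 := ENNReal.toReal_mono (ENNReal.natCast_ne_top _) hden
    rw [hCr] at h1
    simpa using h1
  have hCpos : 0 < (c0 : ℝ) * ((n : ℝ) + 1) := by positivity
  have hne : S.Nonempty := by
    rw [← Finset.card_pos]
    have h1 : (0 : ℝ) < S.card := hCpos.trans_le hden'
    exact_mod_cast h1
  obtain ⟨j, hjS, hjmax⟩ := S.exists_max_image id hne
  have hSn : ∀ i ∈ S, i ≤ l.length ∧ GP D x l i := by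
    intro i hi
    rw [hS] at hi
    have h1 := Finset.mem_filter.1 hi
    exact ⟨Nat.lt_succ_iff.1 (Finset.mem_range.1 h1.1), h1.2⟩
  obtain ⟨rq, q1, q2, q3, q4⟩ := (hSn j hjS).2.1
  obtain ⟨r, hr⟩ : ∃ r : V → List V, ∀ v, Gg D (vb D.ν) (x :: l) v →
      (v :: r v).IsChain D.G.Adj ∧ (r v).length = D.J ∧ (∀ u ∈ r v, u ∉ x :: l) ∧
        hit (vb D.ν) (endp v (r v)) (x :: l) ≤ D.η := by
    have h1 : ∀ v, ∃ r : List V, Gg D (vb D.ν) (x :: l) v →
        (v :: r).IsChain D.G.Adj ∧ r.length = D.J ∧ (∀ u ∈ r, u ∉ x :: l) ∧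
          hit (vb D.ν) (endp v r) (x :: l) ≤ D.η := by
      intro v
      by_cases h : Gg D (vb D.ν) (x :: l) v
      · obtain ⟨r, h2⟩ := h
        exact ⟨r, fun _ => h2⟩
      · exact ⟨[], fun h' => absurd h' h⟩
    choose r hr using h1
    exact ⟨r, hr⟩
  obtain ⟨Bad, hBad⟩ : ∃ Bad, Bad = S.filter (fun i => ¬ Nc D (vt x l i) (r (vt x l i)) (vt x l j) rq) := ⟨_, rfl⟩
  have hnic := nic hs hs.jr (vt x l j) rq q1 q2 (S.image (vt x l)) r (by
    intro y hy
    obtain ⟨i, hi, rfl⟩ := Finset.mem_image.1 hy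
    have h1 := hr _ (hSn i hi).2.2
    exact ⟨h1.1, h1.2.1⟩)
  have hBc : Bad.card ≤ ((S.image (vt x l)).filter (fun y => ¬ Nc D y (r y) (vt x l j) rq)).card := by
    refine Finset.card_le_card_of_injOn (vt x l) ?_ ?_
    · intro i hi
      rw [hBad] at hi
      have hi' := Finset.mem_filter.1 (Finset.mem_coe.1 hi)
      exact Finset.mem_coe.2 (Finset.mem_filter.2 ⟨Finset.mem_image_of_mem _ hi'.1, hi'.2⟩)
    · intro a ha c hc hac
      rw [hBad] at ha hc
      have ha' := (hSn a (Finset.mem_filter.1 (Finset.mem_coe.1 ha)).1).1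
      have hc' := (hSn c (Finset.mem_filter.1 (Finset.mem_coe.1 hc)).1).1
      exact vt_inj hw.2 ha' hc' hac
  have hBr : (Bad.card : ℝ) ≤ (B0 D).toReal := by
    have h1 : (Bad.card : ℝ≥0∞) ≤ B0 D := le_trans (by exact_mod_cast hBc) hnic
    have h2 := ENNReal.toReal_mono hBt h1
    simpa using h2
  obtain ⟨i, hiS, hiB, hij⟩ := CUT_card (j := j) hCpos.le hden' hBr hn' (fun i hi => hjmax i hi)
  have hijle : i ≤ j := hjmax i hiS
  refine ⟨i, j, hijle, hl ▸ (hSn j hjS).1, ?_, ?_⟩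
  · rw [← ENNReal.toReal_le_toReal hCt (ENNReal.mul_ne_top (by norm_num) (ENNReal.natCast_ne_top _)), hCr,
      ENNReal.toReal_mul, ENNReal.toReal_natCast]
    simpa only [ENNReal.toReal_ofNat] using hij
  · have hnc : Nc D (vt x l i) (r (vt x l i)) (vt x l j) rq := by
      by_contra h
      exact hiB (by rw [hBad]; exact Finset.mem_filter.2 ⟨hiS, h⟩)
    exact FF_of_nc hw hijle (hSn j hjS).1 (sg_sublist x l hijle (hSn i hiS).1)
      (sg_sublist x l hijle (hSn i hiS).1) (hr _ (hSn i hiS).2.2) ⟨q1, q2, q3, q4⟩ hnc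

/-- the pointwise bound -/
private theorem CUT_pt {D : Dat V} {n : ℕ} {x : V} {l : List V} (hw : Sw D.G x l) (hl : l.length = n) {i j : ℕ}
    (hij : i ≤ j) (hj : j ≤ n) (hF : FF D (vt x l i) (sg l i j)) :
    sa D.G D.z x l ≤ cv (cv (rs (LN i) (sa D.G D.z)) (rs (fun y p => FF D y p ∧ p.length = j - i) (sa D.G D.z)))
      (rs (LN (n - j)) (sa D.G D.z)) x l := by
  obtain ⟨a, ha⟩ : ∃ a : PW V, a = rs (LN i) (sa D.G D.z) := ⟨_, rfl⟩
  obtain ⟨b, hb⟩ : ∃ b : PW V, b = rs (fun y p => FF D y p ∧ p.length = j - i) (sa D.G D.z) := ⟨_, rfl⟩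
  obtain ⟨c, hc⟩ : ∃ c : PW V, c = rs (LN (n - j)) (sa D.G D.z) := ⟨_, rfl⟩
  rw [← ha, ← hb, ← hc, cv_pos]
  have h1 : cv a b x (l.take j) * c (vt x l j) (sg l j l.length) ≤
      ∑ k ∈ Finset.range (l.length + 1), cv a b x (l.take k) * c (vt x l k) (sg l k l.length) :=
    Finset.single_le_sum (f := fun k => cv a b x (l.take k) * c (vt x l k) (sg l k l.length))
      (fun _ _ => zero_le) (Finset.mem_range.2 (by omega))
  refine le_trans ?_ h1
  rw [cv_take a b x l (by omega : j ≤ l.length)]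
  have h2 : a x (l.take i) * b (vt x l i) (sg l i j) ≤
      ∑ k ∈ Finset.range (j + 1), a x (l.take k) * b (vt x l k) (sg l k j) :=
    Finset.single_le_sum (f := fun k => a x (l.take k) * b (vt x l k) (sg l k j))
      (fun _ _ => zero_le) (Finset.mem_range.2 (by omega))
  refine le_trans ?_ (mul_le_mul_left h2 _)
  have e1 : a x (l.take i) = D.z ^ i := by
    rw [ha]
    unfold rs LN sa
    rw [if_pos (by rw [List.length_take]; omega), if_pos (Sw_take hw i), List.length_take]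
    congr 1
    omega
  have e2 : b (vt x l i) (sg l i j) = D.z ^ (j - i) := by
    rw [hb]
    unfold rs
    rw [if_pos ⟨hF, sg_length l hij (by omega)⟩, sa_sg D.z hw hij (by omega)]
  have e3 : c (vt x l j) (sg l j l.length) = D.z ^ (n - j) := by
    rw [hc]
    unfold rs LN
    rw [if_pos (by rw [sg_length l (by omega) le_rfl, hl]), sa_sg D.z hw (by omega) le_rfl, hl]
  rw [e1, e2, e3]
  unfold sa
  rw [if_pos hw, hl, ← pow_add, ← pow_add]
  have e4 : i + (j - i) + (n - j) = n := by omega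
  rw [e4]

theorem cut {D : Dat V} {ρ κ K K1 : ℝ≥0∞} {c0 : ℝ≥0} (hs : Sc D ρ κ K K1 c0) {n : ℕ}
    (hn : 2 * (B0 D + 1) ≤ (c0 : ℝ≥0∞) * ((n : ℝ≥0∞) + 1)) (x : V) :
    al D.G D.z n x ≤ ∑ i ∈ Finset.range (n + 1), ∑ j ∈ Finset.range (n + 1),
      if i ≤ j ∧ (c0 : ℝ≥0∞) * ((n : ℝ≥0∞) + 1) ≤ 2 * ((j - i : ℕ) : ℝ≥0∞) then
        al D.G D.z i x * ms (rs (fun y p => FF D y p ∧ p.length = j - i) (sa D.G D.z)) x * al D.G D.z (n - j) x
      else 0 := by
  have hinv : ∀ k : ℕ, InvP D.G (rs (fun y p => FF D y p ∧ p.length = k) (sa D.G D.z)) := by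
    intro k
    refine InvP_rs (InvP_sa D.G D.z) ?_
    intro φ y p
    rw [FF_map hs.cn.inv φ y p, List.length_map]
  have hinv2 : ∀ k : ℕ, InvP D.G (rs (LN k) (sa D.G D.z)) := by
    intro k
    refine InvP_rs (InvP_sa D.G D.z) ?_
    intro φ y p
    unfold LN
    rw [List.length_map]
  have h1 : al D.G D.z n x ≤ ∑' l : List V, ∑ i ∈ Finset.range (n + 1), ∑ j ∈ Finset.range (n + 1),
      if i ≤ j ∧ (c0 : ℝ≥0∞) * ((n : ℝ≥0∞) + 1) ≤ 2 * ((j - i : ℕ) : ℝ≥0∞) then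
        cv (cv (rs (LN i) (sa D.G D.z)) (rs (fun y p => FF D y p ∧ p.length = j - i) (sa D.G D.z)))
          (rs (LN (n - j)) (sa D.G D.z)) x l
      else 0 := by
    unfold al ms
    refine ENNReal.tsum_le_tsum fun l => ?_
    by_cases hl : l.length = n ∧ Sw D.G x l
    · obtain ⟨i, j, hij, hj, hc, hF⟩ := CUT_pair hs hn hl.2 hl.1
      have h2 : rs (LN n) (sa D.G D.z) x l = sa D.G D.z x l := by
        unfold rs LN
        rw [if_pos hl.1]
      rw [h2]
      refine (CUT_pt hl.2 hl.1 hij hj hF).trans ?_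
      refine le_trans ?_ (Finset.single_le_sum (fun _ _ => zero_le) (Finset.mem_range.2 (by omega : i < n + 1)))
      refine le_trans ?_ (Finset.single_le_sum (fun _ _ => zero_le) (Finset.mem_range.2 (by omega : j < n + 1)))
      rw [if_pos ⟨hij, hc⟩]
    · have h2 : rs (LN n) (sa D.G D.z) x l = 0 := by
        unfold rs LN sa
        by_cases h3 : l.length = n
        · rw [if_pos h3, if_neg (fun h4 => hl ⟨h3, h4⟩)]
        · rw [if_neg h3]
      rw [h2]
      exact zero_le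
  refine h1.trans ?_
  rw [Summable.tsum_finsetSum (fun i _ => ENNReal.summable)]
  refine Finset.sum_le_sum fun i _ => ?_
  rw [Summable.tsum_finsetSum (fun i _ => ENNReal.summable)]
  refine Finset.sum_le_sum fun j _ => ?_
  split_ifs with hc
  · have h2 : ∀ y, ms (rs (LN (n - j)) (sa D.G D.z)) y ≤ al D.G D.z (n - j) x := fun y =>
      le_of_eq (ms_const hs.ug.tr (hinv2 (n - j)) y x)
    have h3 : ∀ y, ms (rs (fun y p => FF D y p ∧ p.length = j - i) (sa D.G D.z)) y ≤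
        ms (rs (fun y p => FF D y p ∧ p.length = j - i) (sa D.G D.z)) x := fun y =>
      le_of_eq (ms_const hs.ug.tr (hinv (j - i)) y x)
    have h4 := ms_cv_le (a := cv (rs (LN i) (sa D.G D.z)) (rs (fun y p => FF D y p ∧ p.length = j - i) (sa D.G D.z)))
      (x := x) h2
    have h5 := ms_cv_le (a := rs (LN i) (sa D.G D.z)) (x := x) h3
    exact h4.trans (mul_le_mul_left h5 _)
  · rw [tsum_zero]

end Pool.Agent.SAWG
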