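import Pool.Agent.SAWG.WIN
import Pool.Agent.SAWG.THK

/-!
# SAWG module DRB: bounds for the richness

PROOFS.  `uu_le`: `th ≤ K1 sa`, `sa (vt a) (sg a b) = z^(b-a)`, `z⁻¹^(b-a) z^(b-a) = 1`.  `UU_le`: at most `r'+1` values of `b`.
`uu_sub`: the windows of the part `p = sg l b c` are sublists of the windows of `l` (`pst_sg`, `fut_sg`, `Gg_mono`), the segments agree (`sg_sg`, `vt_sg`), so
`uu l (b+i) (b+j) ≤ uu p i j` for `b + j ≤ c`; `uu_eq`: equality if `R ≤ i` and `b + j + R ≤ c` (`pst_sg_eq`, `fut_sg_eq`).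
`UU_sub`: if `b + i + r' ≤ c` then `UU l (b+i) ≤ UU p i`; `UU_eq`: if `R ≤ i`, `b + i + r' + R ≤ c` then equality.
`PP_piece` (used for new connectors): `∏_{a ≤ a' < c} (1 + lam UU l a')`, `a ≤ b ≤ a + r'`: at most `r'` factors with `a' < b` and at most `r'` factors with `a' > c - r'`, each `≤ 1 + lam um`; the other factors
are bounded by the corresponding factors of `PP (vt b) (sg l b c)`; the product of the at most `2 r' ≤ 2 R + r'` factors is `≤ 3`.
`PP_cut` (used for poor walks): the factors of `PP p` with number `i < R` or `b + i + r' + R > c` (at most `2 R + r'` of the numbers `0..c-b`) are `≤ 1 + lam um`, the others agree with factors of the product over `[b, c)`.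
-/

set_option autoImplicit false

open scoped ENNReal NNReal Classical
open Filter Topology

namespace Pool.Agent.SAWG

open Pool.Agent.SWH (Ker idK adK tp endp Sw endp_nil endp_cons endp_append endp_mem)

variable {V : Type}

private theorem DRB_z {z : ℝ≥0∞} (hz : z ≠ 0) (hz1 : z ≤ 1) (n : ℕ) (K : ℝ≥0∞) : z⁻¹ ^ n * (K * z ^ n) = K := by
  have hzt : z ≠ ⊤ := ne_top_of_le_ne_top ENNReal.one_ne_top hz1
  have h1 : z⁻¹ ^ n * (K * z ^ n) = K * (z⁻¹ * z) ^ n := by rw [mul_pow]; ring
  rw [h1, ENNReal.inv_mul_cancel hz hzt, one_pow, mul_one]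

theorem uu_le {D : Dat V} {K1 : ℝ≥0∞} (hz : D.z ≠ 0) (hz1 : D.z ≤ 1) (hk : ∀ x l, th D x l ≤ K1 * sa D.G D.z x l) (R : ℕ)
    (x : V) (l : List V) (a b : ℕ) : uu D R x l a b ≤ K1 := by
  unfold uu
  split_ifs with h
  · obtain ⟨hab, hb, -, -⟩ := h
    calc D.z⁻¹ ^ (b - a) * th D (vt x l a) (sg l a b)
        ≤ D.z⁻¹ ^ (b - a) * (K1 * sa D.G D.z (vt x l a) (sg l a b)) := by gcongr; exact hk _ _
      _ ≤ D.z⁻¹ ^ (b - a) * (K1 * D.z ^ (b - a)) := by
          gcongr
          unfold sa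
          split_ifs
          · rw [sg_length l hab hb]
          · exact zero_le
      _ = K1 := DRB_z hz hz1 _ _
  · exact zero_le

theorem UU_le {D : Dat V} {K1 : ℝ≥0∞} (hz : D.z ≠ 0) (hz1 : D.z ≤ 1) (hk : ∀ x l, th D x l ≤ K1 * sa D.G D.z x l) (R : ℕ)
    (x : V) (l : List V) (a : ℕ) : UU D R x l a ≤ um D K1 := by
  unfold UU um
  calc ∑ b ∈ Finset.Icc a (a + rp D), uu D R x l a b ≤ ∑ b ∈ Finset.Icc a (a + rp D), K1 :=
        Finset.sum_le_sum fun b _ => uu_le hz hz1 hk R x l a b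
    _ = ((rp D : ℝ≥0∞) + 1) * K1 := by
        rw [Finset.sum_const, Nat.card_Icc, nsmul_eq_mul]
        congr 1
        have : a + rp D + 1 - a = rp D + 1 := by omega
        rw [this]
        push_cast
        rfl

private theorem DRB_shift {D : Dat V} (R : ℕ) (x : V) (l : List V) (b i : ℕ) :
    UU D R x l (b + i) = ∑ j ∈ Finset.Icc i (i + rp D), uu D R x l (b + i) (b + j) := by
  unfold UU
  have h : Finset.Icc (b + i) (b + i + rp D) = (Finset.Icc i (i + rp D)).image (fun j => b + j) := by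
    ext m
    simp only [Finset.mem_Icc, Finset.mem_image]
    constructor
    · intro hm
      exact ⟨m - b, by omega, by omega⟩
    · rintro ⟨j, hj, rfl⟩
      omega
  rw [h, Finset.sum_image]
  intro j _ j' _ hjj
  simpa using hjj

theorem UU_sub {D : Dat V} (R : ℕ) (x : V) (l : List V) {b c i : ℕ} (hc : c ≤ l.length) (hi : b + i + rp D ≤ c) :
    UU D R x l (b + i) ≤ UU D R (vt x l b) (sg l b c) i := by
  rw [DRB_shift]
  unfold UU
  refine Finset.sum_le_sum fun j hj => ?_
  rw [Finset.mem_Icc] at hj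
  unfold uu
  split_ifs with h1 h2 h2
  · rw [vt_sg x l (by omega : b + i ≤ c), sg_sg l hj.1 (by omega : b + j ≤ c)]
    have : b + j - (b + i) = j - i := by omega
    rw [this]
  · exfalso
    apply h2
    obtain ⟨h3, h4, h5, h6⟩ := h1
    refine ⟨hj.1, ?_, ?_, ?_⟩
    · rw [sg_length l (by omega : b ≤ c) hc]; omega
    · rw [vt_sg x l (by omega : b + i ≤ c)]
      exact Gg_mono (pst_sg R x l hc (by omega)) h5
    · rw [vt_sg x l (by omega : b + j ≤ c)]
      exact Gg_mono (fut_sg R x l hc (by omega)) h6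
  · exact zero_le
  · exact le_refl _

theorem UU_eq {D : Dat V} (R : ℕ) (x : V) (l : List V) {b c i : ℕ} (hc : c ≤ l.length) (hR : R ≤ i)
    (hi : b + i + rp D + R ≤ c) : UU D R x l (b + i) = UU D R (vt x l b) (sg l b c) i := by
  rw [DRB_shift]
  unfold UU
  refine Finset.sum_congr rfl fun j hj => ?_
  rw [Finset.mem_Icc] at hj
  unfold uu
  rw [pst_sg_eq R x l hc (by omega : b + i ≤ c) hR, fut_sg_eq R x l hc (by omega : b + j + R ≤ c),
    vt_sg x l (by omega : b + i ≤ c), vt_sg x l (by omega : b + j ≤ c), sg_sg l hj.1 (by omega : b + j ≤ c),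
    sg_length l (by omega : b ≤ c) hc]
  have e1 : b + j - (b + i) = j - i := by omega
  rw [e1]
  by_cases h : Gg D (vs D.ν) (pst R x l (b + i)) (vt x l (b + i)) ∧ Gg D (vb D.ν) (fut R x l (b + j)) (vt x l (b + j))
  · rw [if_pos ⟨by omega, by omega, h⟩, if_pos ⟨by omega, by omega, h⟩]
  · rw [if_neg (fun h' => h h'.2.2), if_neg (fun h' => h h'.2.2)]

private theorem DRB_prod (n m : ℕ) (bad : ℕ → Prop) [DecidablePred bad] (M : ℝ≥0∞) (hM : 1 ≤ M) (f g : ℕ → ℝ≥0∞)
    (h : ∀ j < n, f j ≤ (if bad j then M else 1) * g j) (hm : ((Finset.range n).filter bad).card ≤ m) :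
    ∏ j ∈ Finset.range n, f j ≤ M ^ m * ∏ j ∈ Finset.range n, g j := by
  calc ∏ j ∈ Finset.range n, f j ≤ ∏ j ∈ Finset.range n, (if bad j then M else 1) * g j := by
        refine Finset.prod_le_prod (fun _ _ => zero_le) fun j hj => h j (Finset.mem_range.1 hj)
    _ = (∏ j ∈ Finset.range n, (if bad j then M else 1)) * ∏ j ∈ Finset.range n, g j := Finset.prod_mul_distrib
    _ ≤ M ^ m * ∏ j ∈ Finset.range n, g j := by
        gcongr
        rw [Finset.prod_ite, Finset.prod_const, Finset.prod_const_one, mul_one]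
        exact pow_le_pow_right₀ hM hm

private theorem DRB_fac {D : Dat V} {K1 lam : ℝ≥0∞} (hz : D.z ≠ 0) (hz1 : D.z ≤ 1)
    (hk : ∀ x l, th D x l ≤ K1 * sa D.G D.z x l) (R : ℕ) (x : V) (l : List V) (i : ℕ) :
    1 + lam * UU D R x l i ≤ 1 + lam * um D K1 := by
  gcongr
  exact UU_le hz hz1 hk R x l i

private theorem DRB_one (a : ℝ≥0∞) : 1 ≤ 1 + a := le_self_add

theorem PP_piece {D : Dat V} {K1 lam : ℝ≥0∞} (hz : D.z ≠ 0) (hz1 : D.z ≤ 1) (hk : ∀ x l, th D x l ≤ K1 * sa D.G D.z x l)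
    {R : ℕ} (h3 : (1 + lam * um D K1) ^ (2 * R + rp D) ≤ 3) (hR : rp D ≤ R) (x : V) (l : List V) {a b c : ℕ} (hab : a ≤ b)
    (hb : b ≤ a + rp D) (hbc : b ≤ c) (hc : c ≤ l.length) :
    ∏ i ∈ Finset.Ico a c, (1 + lam * UU D R x l i) ≤ 3 * PP D R lam (vt x l b) (sg l b c) := by
  have hM : 1 ≤ 1 + lam * um D K1 := DRB_one _
  rw [← Finset.prod_Ico_consecutive _ hab hbc]
  have e1 : ∏ i ∈ Finset.Ico a b, (1 + lam * UU D R x l i) ≤ (1 + lam * um D K1) ^ rp D := by
    calc ∏ i ∈ Finset.Ico a b, (1 + lam * UU D R x l i) ≤ ∏ i ∈ Finset.Ico a b, (1 + lam * um D K1) :=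
          Finset.prod_le_prod (fun _ _ => zero_le) fun i _ => DRB_fac hz hz1 hk R x l i
      _ = (1 + lam * um D K1) ^ (b - a) := by rw [Finset.prod_const, Nat.card_Ico]
      _ ≤ _ := pow_le_pow_right₀ hM (by omega)
  have e2 : ∏ i ∈ Finset.Ico b c, (1 + lam * UU D R x l i) ≤ (1 + lam * um D K1) ^ rp D *
      ∏ j ∈ Finset.range (c - b), (1 + lam * UU D R (vt x l b) (sg l b c) j) := by
    rw [Finset.prod_Ico_eq_prod_range]
    refine DRB_prod (c - b) (rp D) (fun j => c < b + j + rp D) _ hM _ _ ?_ ?_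
    · intro j hj
      by_cases h : c < b + j + rp D
      · rw [if_pos h]
        calc 1 + lam * UU D R x l (b + j) ≤ (1 + lam * um D K1) * 1 := by
              rw [mul_one]; exact DRB_fac hz hz1 hk R x l _
          _ ≤ _ := by gcongr; exact DRB_one _
      · rw [if_neg h, one_mul]
        gcongr
        exact UU_sub R x l hc (by omega)
    · have hs : ((Finset.range (c - b)).filter (fun j => c < b + j + rp D)) ⊆ Finset.Ico (c - b - rp D) (c - b) := by
        intro j hj
        rw [Finset.mem_filter, Finset.mem_range] at hj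
        rw [Finset.mem_Ico]
        omega
      calc _ ≤ (Finset.Ico (c - b - rp D) (c - b)).card := Finset.card_le_card hs
        _ ≤ rp D := by rw [Nat.card_Ico]; omega
  have e3 : ∏ j ∈ Finset.range (c - b), (1 + lam * UU D R (vt x l b) (sg l b c) j) ≤
      PP D R lam (vt x l b) (sg l b c) := by
    unfold PP
    rw [sg_length l hbc hc, Finset.prod_range_succ]
    exact le_mul_of_one_le_right zero_le (DRB_one _)
  calc (∏ i ∈ Finset.Ico a b, (1 + lam * UU D R x l i)) * ∏ i ∈ Finset.Ico b c, (1 + lam * UU D R x l i)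
      ≤ (1 + lam * um D K1) ^ rp D * ((1 + lam * um D K1) ^ rp D * PP D R lam (vt x l b) (sg l b c)) :=
        mul_le_mul' e1 (e2.trans (mul_le_mul' (le_refl _) e3))
    _ = (1 + lam * um D K1) ^ (2 * rp D) * PP D R lam (vt x l b) (sg l b c) := by
        rw [two_mul, pow_add]; ring
    _ ≤ 3 * PP D R lam (vt x l b) (sg l b c) := by
        gcongr
        exact (pow_le_pow_right₀ hM (by omega)).trans h3

theorem PP_cut {D : Dat V} {K1 lam : ℝ≥0∞} (hz : D.z ≠ 0) (hz1 : D.z ≤ 1) (hk : ∀ x l, th D x l ≤ K1 * sa D.G D.z x l)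
    {R : ℕ} (hR : 1 ≤ R) (h3 : (1 + lam * um D K1) ^ (2 * R + rp D) ≤ 3) (x : V) (l : List V) {b c : ℕ} (hbc : b ≤ c)
    (hc : c ≤ l.length) :
    PP D R lam (vt x l b) (sg l b c) ≤ 3 * ∏ i ∈ Finset.Ico b c, (1 + lam * UU D R x l i) := by
  have hM : 1 ≤ 1 + lam * um D K1 := DRB_one _
  have e1 : PP D R lam (vt x l b) (sg l b c) ≤ (1 + lam * um D K1) ^ (2 * R + rp D) *
      ∏ j ∈ Finset.range (c - b + 1), (if j < c - b then 1 + lam * UU D R x l (b + j) else 1) := by
    unfold PP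
    rw [sg_length l hbc hc]
    refine DRB_prod (c - b + 1) (2 * R + rp D) (fun j => j < R ∨ c < b + j + rp D + R) _ hM _ _ ?_ ?_
    · intro j hj
      by_cases h : j < R ∨ c < b + j + rp D + R
      · rw [if_pos h]
        calc 1 + lam * UU D R (vt x l b) (sg l b c) j ≤ (1 + lam * um D K1) * 1 := by
              rw [mul_one]; exact DRB_fac hz hz1 hk R _ _ _
          _ ≤ _ := by
              gcongr
              split_ifs
              · exact DRB_one _
              · exact le_refl _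
      · rw [if_neg h, one_mul, if_pos (by omega : j < c - b),
          UU_eq R x l hc (by omega : R ≤ j) (by omega : b + j + rp D + R ≤ c)]
    · have hs : ((Finset.range (c - b + 1)).filter (fun j => j < R ∨ c < b + j + rp D + R)) ⊆
          Finset.range R ∪ Finset.Ico (c - b + 1 - (rp D + R)) (c - b + 1) := by
        intro j hj
        rw [Finset.mem_filter, Finset.mem_range] at hj
        rw [Finset.mem_union, Finset.mem_range, Finset.mem_Ico]
        omega
      calc _ ≤ (Finset.range R ∪ Finset.Ico (c - b + 1 - (rp D + R)) (c - b + 1)).card := Finset.card_le_card hs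
        _ ≤ (Finset.range R).card + (Finset.Ico (c - b + 1 - (rp D + R)) (c - b + 1)).card := Finset.card_union_le _ _
        _ ≤ 2 * R + rp D := by rw [Finset.card_range, Nat.card_Ico]; omega
  have e2 : ∏ j ∈ Finset.range (c - b + 1), (if j < c - b then 1 + lam * UU D R x l (b + j) else 1) =
      ∏ i ∈ Finset.Ico b c, (1 + lam * UU D R x l i) := by
    rw [Finset.prod_range_succ, if_neg (lt_irrefl _), mul_one, Finset.prod_Ico_eq_prod_range]
    refine Finset.prod_congr rfl fun j hj => ?_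
    rw [if_pos (Finset.mem_range.1 hj)]
  rw [e2] at e1
  exact e1.trans (mul_le_mul' h3 (le_refl _))

end Pool.Agent.SAWG
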