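import Pool.Agent.SAWG.RWK

/-!
# SAWG module ESA: last exit decomposition

`Qs G d J U x` is the probability that the random walk started at `x` avoids `U` in the steps `1, …, J`.
PROOFS.  `Qs_le`: `≤ ms rwk = 1`.  `Qs_anti`: a walk with `m` steps is a walk with `n` steps followed by `m - n` steps (`cv_rwk`, `tsum_cv`); if it avoids `U` so does its first part;
sum over the second part (mass 1).  `last_exit`: for `x ∈ U`, `1 = ∑_l rwk n x l`; for each walk `l` of length `n` let `k ≤ n` be the largest number such that the vertex `endp x (l.take k)`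
lies in `U` (it exists: `k = 0`); then `l.drop k` avoids `U`, so `1 ≤ ∑_k [endp x (l.take k) ∈ U] [l.drop k avoids U]`; and for every `k ≤ n`
`∑_l rwk n x l [..k..] = ∑_{l1} rwk k x l1 [endp x l1 ∈ U] Qs (n-k) U (endp x l1)` (`cv_rwk`, `tsum_cv`; in the `cv` sum only the index `k` contributes, or use the function
`F l = [endp x (l.take k) ∈ U] [l.drop k avoids U]`), `= ∑_{y ∈ U} kr (rwk k) x y * Qs (n-k) U y` (`tsum_kr`).
-/

set_option autoImplicit false

open scoped ENNReal NNReal Classical
open Filter Topology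

namespace Pool.Agent.SAWG

open Pool.Agent.SWH (Ker idK adK tp endp Sw endp_nil endp_cons endp_append endp_mem)

variable {V : Type}

/-- The probability to avoid `U`. -/
noncomputable def Qs (G : SimpleGraph V) (d : ℕ) (J : ℕ) (U : Finset V) (x : V) : ℝ≥0∞ :=
  ∑' l, rwk G d J x l * (if ∀ u ∈ l, u ∉ U then 1 else 0)

private theorem esa_split (G : SimpleGraph V) (d i j : ℕ) (x : V) (F : List V → ℝ≥0∞) :
    ∑' l, rwk G d (i + j) x l * F l =
      ∑' l1, rwk G d i x l1 * ∑' l2, rwk G d j (endp x l1) l2 * F (l1 ++ l2) := by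
  rw [← cv_rwk, tsum_cv]

private theorem esa_last (U : Finset V) (l : List V) : ∀ x : V, (∀ u ∈ l, u ∉ U) ∨
    ∃ k ≤ l.length, endp x (l.take k) ∈ U ∧ ∀ u ∈ l.drop k, u ∉ U := by
  induction l with
  | nil => intro x; left; simp
  | cons y l ih =>
    intro x
    rcases ih y with h | ⟨k, hk, h1, h2⟩
    · by_cases hy : y ∈ U
      · right
        refine ⟨1, by simp, ?_, ?_⟩
        · simpa [endp_cons, endp_nil] using hy
        · simpa using h
      · left
        intro u hu
        rcases List.mem_cons.1 hu with rfl | hu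
        · exact hy
        · exact h u hu
    · right
      refine ⟨k + 1, by simpa using hk, ?_, ?_⟩
      · rw [List.take_succ_cons, endp_cons]
        exact h1
      · rw [List.drop_succ_cons]
        exact h2

private theorem esa_len {G : SimpleGraph V} {d n : ℕ} {x : V} {l : List V} (h : l.length ≠ n) :
    rwk G d n x l = 0 := by
  unfold rwk
  rw [if_neg]
  rintro ⟨_, h2⟩
  exact h h2

theorem Qs_le {G : SimpleGraph V} {d : ℕ} {ρ z : ℝ≥0∞} (h : Ug G d ρ z) (J : ℕ) (U : Finset V) (x : V) :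
    Qs G d J U x ≤ 1 := by
  rw [← ms_rwk h J x]
  unfold Qs ms
  apply ENNReal.tsum_le_tsum
  intro l
  split_ifs <;> simp

theorem Qs_anti {G : SimpleGraph V} {d : ℕ} {ρ z : ℝ≥0∞} (h : Ug G d ρ z) {n m : ℕ} (hnm : n ≤ m) (U : Finset V) (x : V) :
    Qs G d m U x ≤ Qs G d n U x := by
  obtain ⟨k, rfl⟩ := Nat.exists_eq_add_of_le hnm
  unfold Qs
  rw [esa_split]
  apply ENNReal.tsum_le_tsum
  intro l1
  gcongr
  by_cases h1 : ∀ u ∈ l1, u ∉ U
  · rw [if_pos h1]
    calc ∑' l2, rwk G d k (endp x l1) l2 * (if ∀ u ∈ l1 ++ l2, u ∉ U then 1 else 0)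
        ≤ ∑' l2, rwk G d k (endp x l1) l2 := by
          apply ENNReal.tsum_le_tsum
          intro l2
          split_ifs <;> simp
      _ = 1 := ms_rwk h k (endp x l1)
  · rw [if_neg h1]
    refine le_of_eq (ENNReal.tsum_eq_zero.2 (fun l2 => ?_))
    rw [if_neg, mul_zero]
    intro h2
    exact h1 (fun u hu => h2 u (List.mem_append_left _ hu))

theorem last_exit {G : SimpleGraph V} {d : ℕ} {ρ z : ℝ≥0∞} (h : Ug G d ρ z) (n : ℕ) (U : Finset V) {x : V} (hx : x ∈ U) :
    1 ≤ ∑ k ∈ Finset.range (n + 1), ∑ y ∈ U, kr (rwk G d k) x y * Qs G d (n - k) U y := by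
  have key : ∀ k ∈ Finset.range (n + 1),
      ∑' l, rwk G d n x l * ((if endp x (l.take k) ∈ U then 1 else 0) *
        (if ∀ u ∈ l.drop k, u ∉ U then 1 else 0)) =
      ∑ y ∈ U, kr (rwk G d k) x y * Qs G d (n - k) U y := by
    intro k hk
    have hkn : k + (n - k) = n := by
      have := Finset.mem_range.1 hk
      omega
    have e1 := esa_split G d k (n - k) x (fun l => (if endp x (l.take k) ∈ U then (1 : ℝ≥0∞) else 0) *
        (if ∀ u ∈ l.drop k, u ∉ U then 1 else 0))
    rw [hkn] at e1
    rw [e1]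
    have e2 : ∀ l1, rwk G d k x l1 * ∑' l2, rwk G d (n - k) (endp x l1) l2 *
        ((if endp x ((l1 ++ l2).take k) ∈ U then (1 : ℝ≥0∞) else 0) *
          (if ∀ u ∈ (l1 ++ l2).drop k, u ∉ U then 1 else 0)) =
        rwk G d k x l1 * (if endp x l1 ∈ U then Qs G d (n - k) U (endp x l1) else 0) := by
      intro l1
      by_cases hl : l1.length = k
      · congr 1
        have e3 : ∀ l2 : List V, (l1 ++ l2).take k = l1 := fun l2 => by rw [← hl]; simp
        have e4 : ∀ l2 : List V, (l1 ++ l2).drop k = l2 := fun l2 => by rw [← hl]; simp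
        simp only [e3, e4]
        by_cases hU : endp x l1 ∈ U
        · simp only [if_pos hU, one_mul]
          rfl
        · simp only [if_neg hU, zero_mul, mul_zero, tsum_zero]
      · rw [esa_len hl, zero_mul, zero_mul]
    rw [tsum_congr e2, ← tsum_kr (rwk G d k) x (fun y => if y ∈ U then Qs G d (n - k) U y else 0)]
    rw [tsum_eq_sum (s := U)]
    · apply Finset.sum_congr rfl
      intro y hy
      rw [if_pos hy]
    · intro y hy
      rw [if_neg hy, mul_zero]
  rw [← Finset.sum_congr rfl key]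
  have e5 : ∑ k ∈ Finset.range (n + 1), ∑' l, rwk G d n x l * ((if endp x (l.take k) ∈ U then (1 : ℝ≥0∞) else 0) *
        (if ∀ u ∈ l.drop k, u ∉ U then 1 else 0)) =
      ∑' l, ∑ k ∈ Finset.range (n + 1), rwk G d n x l * ((if endp x (l.take k) ∈ U then (1 : ℝ≥0∞) else 0) *
        (if ∀ u ∈ l.drop k, u ∉ U then 1 else 0)) := by
    rw [Summable.tsum_finsetSum]
    intro k _
    exact ENNReal.summable
  rw [e5]
  refine le_trans (le_of_eq (ms_rwk h n x).symm) ?_
  unfold ms
  apply ENNReal.tsum_le_tsum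
  intro l
  by_cases hl : l.length = n
  · obtain ⟨k, hk, h1, h2⟩ : ∃ k ≤ l.length, endp x (l.take k) ∈ U ∧ ∀ u ∈ l.drop k, u ∉ U := by
      rcases esa_last U l x with h3 | h3
      · refine ⟨0, Nat.zero_le _, ?_, ?_⟩
        · simpa [endp_nil] using hx
        · simpa using h3
      · exact h3
    have hkm : k ∈ Finset.range (n + 1) := Finset.mem_range.2 (by omega)
    calc rwk G d n x l = rwk G d n x l * ((if endp x (l.take k) ∈ U then (1 : ℝ≥0∞) else 0) *
        (if ∀ u ∈ l.drop k, u ∉ U then 1 else 0)) := by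
          rw [if_pos h1, if_pos h2, one_mul, mul_one]
      _ ≤ _ := Finset.single_le_sum (f := fun k => rwk G d n x l * ((if endp x (l.take k) ∈ U then (1 : ℝ≥0∞) else 0) *
        (if ∀ u ∈ l.drop k, u ∉ U then 1 else 0))) (fun _ _ => bot_le) hkm
  · rw [esa_len hl]
    exact bot_le

end Pool.Agent.SAWG
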