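import Pool.Agent.SAWG.KBA

/-!
# SAWG module KBT: norms of sums of kernels

PROOF of `KB_tsum`.  Put `a i x = ∑_y K i x y * v y`, `S = ∑ c i`.  If `v = 0` both sides are 0.  If some `c i = ⊤` the right side is `⊤` (unless `v = 0`).
Otherwise, if `c i = 0` then `a i x = 0` for all `x` when `∑ v^2 < ⊤` (when `∑ v^2 = ⊤` and `S ≠ 0` the right side is `⊤`; when `S = 0` all `c i = 0`, so all entries
`K i x y = 0` by `KB_entry`).  So `(∑_i a i x)^2 ≤ S * ∑_i a i x ^ 2 / c i` (`cs_tsum'` with the weights `c i` and `a i x / c i`, `c i * (a i x / c i) = a i x` because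
`c i ≠ ⊤` and `c i = 0 → a i x = 0`; the entries of `K i` are 0 when `c i = 0`).  Sum over `x`: `≤ S * ∑_i (∑_x a i x ^2) / c i ≤ S * ∑_i c i * ∑ v^2`.
`KB_add`: the case of two kernels (index type `Bool`, `tsum_bool`).
-/

set_option autoImplicit false

open scoped ENNReal NNReal Classical
open Filter Topology

namespace Pool.Agent.SAWG

open Pool.Agent.SWH (Ker idK adK tp endp Sw endp_nil endp_cons endp_append endp_mem)

variable {V : Type}

theorem KB_tsum {ι : Type} {K : ι → Ker V} {c : ι → ℝ≥0∞} (h : ∀ i, KB (K i) (c i)) :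
    KB (fun x y => ∑' i, K i x y) (∑' i, c i) := by
  intro v
  have h1 : ∀ x, ∑' y, (∑' i, K i x y) * v y = ∑' i, ∑' y, K i x y * v y := by
    intro x
    rw [ENNReal.tsum_comm]
    simp_rw [ENNReal.tsum_mul_right]
  simp_rw [h1]
  by_cases hV : ∑' y, v y ^ 2 = 0
  · have hv : ∀ y, v y = 0 := by
      intro y
      have h2 := ENNReal.tsum_eq_zero.1 hV y
      exact pow_eq_zero_iff (two_ne_zero) |>.1 h2
    simp [hv]
  by_cases hS : ∑' i, c i = ⊤
  · rw [hS]
    have h2 : (⊤ : ℝ≥0∞) ^ 2 * ∑' y, v y ^ 2 = ⊤ := by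
      rw [ENNReal.top_pow (by norm_num), ENNReal.top_mul hV]
    rw [h2]
    exact le_top
  have hct : ∀ i, c i ≠ ⊤ := fun i h2 => hS (top_le_iff.1 (h2 ▸ ENNReal.le_tsum i))
  set a : ι → V → ℝ≥0∞ := fun i x => ∑' y, K i x y * v y with ha
  have ha0 : ∀ i x, c i = 0 → a i x = 0 := by
    intro i x hi
    have h2 : ∀ y, K i x y = 0 := by
      intro y
      have h3 := KB_entry (h i) x y
      rw [hi] at h3
      exact le_antisymm h3 (zero_le)
    simp [ha, h2]
  have hca : ∀ i x, c i * (a i x / c i) = a i x := by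
    intro i x
    by_cases hi : c i = 0
    · rw [ha0 i x hi, hi]
      simp
    · exact ENNReal.mul_div_cancel hi (hct i)
  have h2 : ∀ x, (∑' i, a i x) ^ 2 ≤ (∑' i, c i) * ∑' i, c i * (a i x / c i) ^ 2 := by
    intro x
    have h3 := cs_tsum' c (fun i => a i x / c i)
    simp_rw [hca] at h3
    exact h3
  have h3 : ∀ i, ∑' x, c i * (a i x / c i) ^ 2 ≤ c i * ∑' y, v y ^ 2 := by
    intro i
    by_cases hi : c i = 0
    · simp [hi]
    · rw [ENNReal.tsum_mul_left]
      refine mul_le_mul_right ?_ (c i)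
      have h4 : ∀ x, (a i x / c i) ^ 2 = (c i ^ 2)⁻¹ * a i x ^ 2 := by
        intro x
        rw [div_eq_mul_inv, mul_pow, ENNReal.inv_pow, mul_comm]
      simp_rw [h4]
      rw [ENNReal.tsum_mul_left]
      calc (c i ^ 2)⁻¹ * ∑' x, a i x ^ 2 ≤ (c i ^ 2)⁻¹ * (c i ^ 2 * ∑' y, v y ^ 2) := by
            gcongr
            exact h i v
        _ = ∑' y, v y ^ 2 := by
            rw [← mul_assoc, ENNReal.inv_mul_cancel (pow_ne_zero 2 hi) (ENNReal.pow_ne_top (hct i)),
              one_mul]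
  calc ∑' x, (∑' i, a i x) ^ 2 ≤ ∑' x, (∑' i, c i) * ∑' i, c i * (a i x / c i) ^ 2 :=
        ENNReal.tsum_le_tsum h2
    _ = (∑' i, c i) * ∑' i, ∑' x, c i * (a i x / c i) ^ 2 := by
        rw [ENNReal.tsum_mul_left, ENNReal.tsum_comm]
    _ ≤ (∑' i, c i) * ∑' i, c i * ∑' y, v y ^ 2 := by
        gcongr with i
        exact h3 i
    _ = (∑' i, c i) ^ 2 * ∑' y, v y ^ 2 := by
        rw [ENNReal.tsum_mul_right, sq, mul_assoc]

theorem KB_add {K L : Ker V} {a b : ℝ≥0∞} (hK : KB K a) (hL : KB L b) : KB (fun x y => K x y + L x y) (a + b) := by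
  have h1 : KB (fun x y => ∑' i : Bool, (fun i : Bool => cond i L K) i x y)
      (∑' i : Bool, cond i b a) := by
    apply KB_tsum
    intro i
    cases i
    · exact hK
    · exact hL
  simpa only [tsum_bool, cond_false, cond_true] using h1

end Pool.Agent.SAWG
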