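import Pool.Agent.SAWG.ESA
import Pool.Agent.SAWG.KBT

/-!
# SAWG module ESB: the escape lemma

PROOF.  Fix `J`, `U`.  For `x ∈ U` and `n ≥ J`: split the sum of `last_exit` in the `k ≤ n - J` (there `Qs (n-k) ≤ Qs J`, `Qs_anti`) and the `J` numbers `k > n - J` (there `Qs ≤ 1` and
`kr (rwk k) x y ≤ ρ^k ≤ ρ^(n-J)`, `KB_entry`, `KB_rwk`): `1 ≤ ∑_{y ∈ U} Gr x y * Qs J U y + J * |U| * ρ^(n-J)`, `Gr x y = ∑' k, kr (rwk k) x y`.  Let `n → ∞` (`ρ < 1`):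
`1 ≤ ∑_{y ∈ U} Gr x y * Qs J U y` for all `x ∈ U`.  `KB Gr (1-ρ)⁻¹` (`KB_tsum`, `ENNReal.tsum_geometric`).  With `u` = indicator function of `U`, `v y = Qs J U y` on `U`, 0 outside:
`|U| ≤ ∑' x, u x * ∑' y, Gr x y * v y`, so by `KB_cs` `|U|^2 ≤ (1-ρ)⁻¹^2 * (|U| * ∑_{y∈U} Qs^2)`.  If `U` is empty the claim is trivial; otherwise divide by `|U|`.
-/

set_option autoImplicit false

open scoped ENNReal NNReal Classical
open Filter Topology

namespace Pool.Agent.SAWG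

open Pool.Agent.SWH (Ker idK adK tp endp Sw endp_nil endp_cons endp_append endp_mem)

variable {V : Type}

private theorem esb_step {G : SimpleGraph V} {d : ℕ} {ρ z : ℝ≥0∞} (h : Ug G d ρ z) (J m : ℕ) (U : Finset V)
    {x : V} (hx : x ∈ U) :
    1 ≤ ∑ y ∈ U, (∑' k, kr (rwk G d k) x y) * Qs G d J U y + (J : ℝ≥0∞) * (U.card : ℝ≥0∞) * ρ ^ m := by
  have h1 := last_exit h (m + J) U hx
  rw [show m + J + 1 = (m + 1) + J by omega, Finset.sum_range_add] at h1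
  refine h1.trans (add_le_add ?_ ?_)
  · calc ∑ k ∈ Finset.range (m + 1), ∑ y ∈ U, kr (rwk G d k) x y * Qs G d (m + J - k) U y
        ≤ ∑ k ∈ Finset.range (m + 1), ∑ y ∈ U, kr (rwk G d k) x y * Qs G d J U y := by
          refine Finset.sum_le_sum fun k hk => Finset.sum_le_sum fun y _ => ?_
          refine mul_le_mul' le_rfl (Qs_anti h ?_ U y)
          have := Finset.mem_range.1 hk
          omega
      _ = ∑ y ∈ U, (∑ k ∈ Finset.range (m + 1), kr (rwk G d k) x y) * Qs G d J U y := by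
          rw [Finset.sum_comm]
          refine Finset.sum_congr rfl fun y _ => ?_
          rw [Finset.sum_mul]
      _ ≤ _ := by
          refine Finset.sum_le_sum fun y _ => mul_le_mul' ?_ le_rfl
          exact ENNReal.sum_le_tsum _
  · calc ∑ k ∈ Finset.range J, ∑ y ∈ U, kr (rwk G d (m + 1 + k)) x y * Qs G d (m + J - (m + 1 + k)) U y
        ≤ ∑ k ∈ Finset.range J, ∑ y ∈ U, ρ ^ m := by
          refine Finset.sum_le_sum fun k _ => Finset.sum_le_sum fun y _ => ?_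
          calc kr (rwk G d (m + 1 + k)) x y * Qs G d (m + J - (m + 1 + k)) U y
              ≤ ρ ^ (m + 1 + k) * 1 := mul_le_mul' (KB_entry (KB_rwk h _) x y) (Qs_le h _ U y)
            _ = ρ ^ (m + 1 + k) := mul_one _
            _ ≤ ρ ^ m := pow_le_pow_right_of_le_one' h.rlt.le (by omega)
      _ = _ := by
          simp only [Finset.sum_const, Finset.card_range, nsmul_eq_mul]
          ring

private theorem esb_lim {G : SimpleGraph V} {d : ℕ} {ρ z : ℝ≥0∞} (h : Ug G d ρ z) (J : ℕ) (U : Finset V)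
    {x : V} (hx : x ∈ U) :
    1 ≤ ∑ y ∈ U, (∑' k, kr (rwk G d k) x y) * Qs G d J U y := by
  have h1 : Tendsto (fun m : ℕ => ∑ y ∈ U, (∑' k, kr (rwk G d k) x y) * Qs G d J U y +
      (J : ℝ≥0∞) * (U.card : ℝ≥0∞) * ρ ^ m) atTop
      (𝓝 (∑ y ∈ U, (∑' k, kr (rwk G d k) x y) * Qs G d J U y + (J : ℝ≥0∞) * (U.card : ℝ≥0∞) * 0)) := by
    refine tendsto_const_nhds.add (ENNReal.Tendsto.const_mul
      (ENNReal.tendsto_pow_atTop_nhds_zero_of_lt_one h.rlt) (Or.inr ?_))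
    exact ENNReal.mul_ne_top (ENNReal.natCast_ne_top _) (ENNReal.natCast_ne_top _)
  rw [mul_zero, add_zero] at h1
  exact ge_of_tendsto' h1 (fun m => esb_step h J m U hx)

theorem escape {G : SimpleGraph V} {d : ℕ} {ρ z : ℝ≥0∞} (h : Ug G d ρ z) (J : ℕ) (U : Finset V) :
    (1 - ρ) ^ 2 * (U.card : ℝ≥0∞) ≤ ∑ x ∈ U, Qs G d J U x ^ 2 := by
  rcases U.eq_empty_or_nonempty with hU | hU
  · subst hU
    simp
  have hK : KB (fun x y => ∑' k, kr (rwk G d k) x y) (1 - ρ)⁻¹ := by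
    rw [← ENNReal.tsum_geometric]
    exact KB_tsum (fun k => KB_rwk h k)
  have h1 := KB_cs hK (fun x => if x ∈ U then 1 else 0) (fun y => if y ∈ U then Qs G d J U y else 0)
  have h2 : (U.card : ℝ≥0∞) ≤ ∑' x, (if x ∈ U then (1 : ℝ≥0∞) else 0) *
      ∑' y, (∑' k, kr (rwk G d k) x y) * (if y ∈ U then Qs G d J U y else 0) := by
    rw [tsum_eq_sum (s := U)]
    · have h3 : (U.card : ℝ≥0∞) = ∑ x ∈ U, (1 : ℝ≥0∞) := by simp
      rw [h3]
      refine Finset.sum_le_sum fun x hx => ?_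
      rw [if_pos hx, one_mul, tsum_eq_sum (s := U)]
      · refine (esb_lim h J U hx).trans (le_of_eq ?_)
        refine Finset.sum_congr rfl fun y hy => ?_
        rw [if_pos hy]
      · intro y hy
        rw [if_neg hy, mul_zero]
    · intro x hx
      rw [if_neg hx, zero_mul]
  have h4 : ∑' x, (if x ∈ U then (1 : ℝ≥0∞) else 0) ^ 2 = (U.card : ℝ≥0∞) := by
    rw [tsum_eq_sum (s := U)]
    · have h3 : (U.card : ℝ≥0∞) = ∑ x ∈ U, (1 : ℝ≥0∞) := by simp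
      rw [h3]
      refine Finset.sum_congr rfl fun x hx => ?_
      rw [if_pos hx, one_pow]
    · intro x hx
      rw [if_neg hx]
      simp
  have h5 : ∑' y, (if y ∈ U then Qs G d J U y else 0) ^ 2 = ∑ y ∈ U, Qs G d J U y ^ 2 := by
    rw [tsum_eq_sum (s := U)]
    · refine Finset.sum_congr rfl fun x hx => ?_
      rw [if_pos hx]
    · intro x hx
      rw [if_neg hx]
      simp
  rw [h4, h5] at h1
  have h6 : (U.card : ℝ≥0∞) ^ 2 ≤ (1 - ρ)⁻¹ ^ 2 * ((U.card : ℝ≥0∞) * ∑ y ∈ U, Qs G d J U y ^ 2) :=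
    (pow_le_pow_left' h2 2).trans h1
  have h7 : (1 - ρ) ≠ 0 := (tsub_pos_of_lt h.rlt).ne'
  have h8 : (1 - ρ) ≠ ⊤ := (lt_of_le_of_lt tsub_le_self ENNReal.one_lt_top).ne
  have h9 : (1 - ρ) ^ 2 * (1 - ρ)⁻¹ ^ 2 = 1 := by
    rw [← mul_pow, ENNReal.mul_inv_cancel h7 h8, one_pow]
  have h10 : (U.card : ℝ≥0∞) ≠ 0 := by
    have := hU.card_pos
    exact_mod_cast this.ne'
  rw [← ENNReal.mul_le_mul_iff_right h10 (ENNReal.natCast_ne_top _)]
  calc (U.card : ℝ≥0∞) * ((1 - ρ) ^ 2 * (U.card : ℝ≥0∞)) = (1 - ρ) ^ 2 * (U.card : ℝ≥0∞) ^ 2 := by ring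
    _ ≤ (1 - ρ) ^ 2 * ((1 - ρ)⁻¹ ^ 2 * ((U.card : ℝ≥0∞) * ∑ y ∈ U, Qs G d J U y ^ 2)) := mul_le_mul' le_rfl h6
    _ = (U.card : ℝ≥0∞) * ∑ y ∈ U, Qs G d J U y ^ 2 := by
        rw [← mul_assoc, h9, one_mul]

end Pool.Agent.SAWG
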