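import Pool.Agent.SAWG.WIN

/-!
# SAWG module FCA: good and fitting ends: the class F

PROOF.  `z = endp (vt x l i) r`, `rm = ((vt x l i) :: r).reverse.tail`, so `z :: rm = (vt x l i :: r).reverse` (the reversed walk), `endp z rm = vt x l i`, `rm.length = r.length`,
`(z :: rm).dropLast = r.reverse`, and the reversed list is a chain (`G` is symmetric, `List.isChain_reverse`).  `p = sg l i j`, `sp`: `Sw_sg`; `endp (vt x l i) (sg l i j) = vt x l j` (`endp_sg`).
`d1`: elements of `r` are not in `U ⊇ p`; `d2`: the same for `rq`, `U'`; `d3`: `hn.dj`.  `f1`: `hit_mono_list` and `hq'`; `f2`: `hit` of the reversed list (`List.sum_reverse`/perm) and `hn.f`;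
`b1`: `hit_mono_list`, `hr'`; `b2`: `hn.b`; `m`: `hn.m`.
-/

set_option autoImplicit false

open scoped ENNReal NNReal Classical
open Filter Topology

namespace Pool.Agent.SAWG

open Pool.Agent.SWH (Ker idK adK tp endp Sw endp_nil endp_cons endp_append endp_mem)

variable {V : Type}

private theorem FCA_last (y : V) (r : List V) : (y :: r).dropLast ++ [endp y r] = y :: r := by
  induction r generalizing y with
  | nil => simp [endp_nil]
  | cons a l ih =>
    rw [endp_cons, List.dropLast_cons_cons, List.cons_append, ih a]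

/-- Reversal of a walk. -/
theorem rev_walk {G : SimpleGraph V} {y : V} {r : List V} (h : (y :: r).IsChain G.Adj) :
    ∃ rm : List V, endp y r :: rm = (y :: r).reverse ∧ rm.length = r.length ∧ endp (endp y r) rm = y ∧
      (endp y r :: rm).IsChain G.Adj ∧ (endp y r :: rm).dropLast = r.reverse := by
  have e1 : endp y r :: (y :: r).dropLast.reverse = (y :: r).reverse := by
    conv_rhs => rw [← FCA_last y r]
    rw [List.reverse_append, List.reverse_singleton, List.singleton_append]
  have e2 : (endp y r :: (y :: r).dropLast.reverse).dropLast ++ [endp (endp y r) (y :: r).dropLast.reverse] = r.reverse ++ [y] := by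
    rw [FCA_last, e1, List.reverse_cons]
  have e3 := List.append_inj' e2 rfl
  refine ⟨(y :: r).dropLast.reverse, e1, ?_, ?_, ?_, e3.1⟩
  · simp
  · exact List.singleton_inj.1 e3.2
  · rw [e1, List.isChain_reverse]
    exact h.imp fun a b hab => hab.symm

theorem FF_of_nc {D : Dat V} {x : V} {l : List V} (hw : Sw D.G x l) {i j : ℕ} (hij : i ≤ j) (hj : j ≤ l.length)
    {U U' : List V} (hU : (vt x l i :: sg l i j).Sublist U) (hU' : (vt x l i :: sg l i j).Sublist U')
    {r rq : List V} (hr : (vt x l i :: r).IsChain D.G.Adj ∧ r.length = D.J ∧ (∀ u ∈ r, u ∉ U) ∧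
      hit (vb D.ν) (endp (vt x l i) r) U ≤ D.η)
    (hq : (vt x l j :: rq).IsChain D.G.Adj ∧ rq.length = D.J ∧ (∀ u ∈ rq, u ∉ U') ∧
      hit (vs D.ν) (endp (vt x l j) rq) U' ≤ D.η)
    (hn : Nc D (vt x l i) r (vt x l j) rq) : FF D (vt x l i) (sg l i j) := by
  obtain ⟨rm, e1, e2, e3, e4, e5⟩ := rev_walk hr.1
  have e6 : endp (vt x l i) (sg l i j) = vt x l j := endp_sg x l hij
  have e7 : hit (vs D.ν) (endp (vt x l j) rq) (endp (vt x l i) r :: rm) =
      hit (vs D.ν) (endp (vt x l j) rq) (vt x l i :: r) := by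
    unfold hit
    rw [e1, List.map_reverse, List.sum_reverse]
  refine ⟨endp (vt x l i) r, rm, rq, e3, ?_⟩
  constructor
  · exact e4
  · rw [e2, hr.2.1]
  · rw [e3]
    exact Sw_sg hw hij
  · rw [e3, e6]
    exact hq.1
  · exact hq.2.1
  · intro u hu hu2
    rw [e5, List.mem_reverse] at hu
    rw [e3] at hu2
    exact hr.2.2.1 u hu (hU.subset hu2)
  · intro u hu hu2
    rw [e3] at hu2
    exact hq.2.2.1 u hu (hU'.subset hu2)
  · intro u hu hu2
    rw [e5, List.mem_reverse] at hu2
    exact hn.dj u hu hu2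
  · rw [e3, e6]
    exact (hit_mono_list hU').trans hq.2.2.2
  · rw [e3, e6, e7]
    exact hn.f
  · rw [e3]
    exact (hit_mono_list hU).trans hr.2.2.2
  · rw [e3, e6]
    exact hn.b
  · rw [e3, e6]
    exact hn.m

end Pool.Agent.SAWG
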