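import Pool.Agent.SAWG.LMS
import Pool.Agent.SAWG.ALF

/-!
# SAWG module FFB: the bound for the mass of the class F

PROOF.  `ω = tw θ sa` restricted to `FF`, `1 ≤ length ≤ R`; it is invariant, of finite mass (`≤ ∑_{n ≤ R} al n`).  Let `b = δ / (2 K1 (r'+1))`, `r' = rp D` (`K1 ≠ 0` since `th` has mass 1, `K1 ≠ ⊤`),
so `b ≠ 0, ⊤`.  CLAIM: for all `m`, and `l` with `Sw G x l`: `∑_{k ≤ m} b^k pwr (cv th ω) k x l ≤ sa x l * θ^|l| * (1+δ)^|l|`.  Induction on `m`; `Z_m(l)` the left side: `Z_(m+1)(l) = [l = []] + b * cv Z_m (cv th ω) x l`,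
`= [l=[]] + b ∑_{a ≤ n} Z_m(l.take a) * (cv th ω) (vt a) (l.drop a)` (`n = |l|`), the term `a = n` vanishes (`cv th ω` of `[]` is 0 since pieces have length `≥ 1`), and
`(cv th ω) (vt a) (l.drop a) ≤ ∑_{b' : b' - a ≤ r'} K1 z^(b'-a) θ^(n-b') z^(n-b') ≤ (r'+1) K1 z^(n-a) θ^(n-a) * 2` (`k1`, `sa_sg`, `th_len`, `θ^(n-b') = θ^(n-a)/θ^(b'-a)`, `1 ≤ 2 θ^(b'-a)`).
So `Z_(m+1)(l) ≤ z^n θ^n ([n=0] + δ ∑_{a<n} (1+δ)^a) ≤ z^n θ^n (1+δ)^n`.
Sum over the self-avoiding `l`: `∑_{k ≤ m} b^k (ms ω/(2 d^(2J)))^k ≤ ∑_n al n ((1+δ)θ)^n ≤ χ < ⊤` for all `m` (`lemS`, `gen_fin`), so `b * ms ω / (2 d^(2J)) ≤ 1` (otherwise the left side is at least `m + 1`).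
-/

set_option autoImplicit false

open scoped ENNReal NNReal Classical
open Filter Topology

namespace Pool.Agent.SAWG

open Pool.Agent.SWH (Ker idK adK tp endp Sw endp_nil endp_cons endp_append endp_mem)

variable {V : Type}

private theorem FFB_geo (δ : ℝ≥0∞) (n : ℕ) : 1 + δ * ∑ a ∈ Finset.range n, (1 + δ) ^ a = (1 + δ) ^ n := by
  induction n with
  | zero => simp
  | succ n ih =>
    rw [Finset.sum_range_succ, mul_add, ← add_assoc, ih, pow_succ]
    ring

/-- the bound for one connector and one piece -/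
private theorem FFB_one {D : Dat V} {κ K K1 θ : ℝ≥0∞} {R : ℕ} (hc : Cn D.G D.z D.r κ K D.ν)
    (hk : ∀ x l, th D x l ≤ K1 * sa D.G D.z x l) (hθ1 : θ ≤ 1) (hθr : 1 ≤ 2 * θ ^ rp D) {v : V} {l : List V}
    (hw : Sw D.G v l) :
    cv (th D) (rs (fun y p => FF D y p ∧ 1 ≤ p.length ∧ p.length ≤ R) (tw θ (sa D.G D.z))) v l ≤
      if l.length = 0 then 0 else ((rp D : ℝ≥0∞) + 1) * (K1 * (D.z ^ l.length * (2 * θ ^ l.length))) := by
  rw [cv_pos]
  have h1 : ∀ b ∈ Finset.range (l.length + 1), th D v (l.take b) *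
      rs (fun y p => FF D y p ∧ 1 ≤ p.length ∧ p.length ≤ R) (tw θ (sa D.G D.z)) (vt v l b) (sg l b l.length) ≤
      if b ≤ rp D ∧ l.length ≠ 0 then K1 * (D.z ^ l.length * (2 * θ ^ l.length)) else 0 := by
    intro b hb
    have hb' : b ≤ l.length := Nat.lt_succ_iff.1 (Finset.mem_range.1 hb)
    by_cases h2 : b ≤ rp D ∧ l.length ≠ 0
    · rw [if_pos h2]
      have e1 : th D v (l.take b) ≤ K1 * D.z ^ b := by
        refine (hk v (l.take b)).trans (le_of_eq ?_)
        unfold sa
        rw [if_pos (Sw_take hw b), List.length_take, min_eq_left hb']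
      have e2 : rs (fun y p => FF D y p ∧ 1 ≤ p.length ∧ p.length ≤ R) (tw θ (sa D.G D.z)) (vt v l b)
          (sg l b l.length) ≤ θ ^ (l.length - b) * D.z ^ (l.length - b) := by
        unfold rs
        split_ifs with h3
        · unfold tw
          rw [sa_sg D.z hw hb' le_rfl, sg_length l hb' le_rfl]
        · exact zero_le
      have e3 : θ ^ (l.length - b) ≤ 2 * θ ^ l.length := by
        have h4 : 1 ≤ 2 * θ ^ b := hθr.trans (mul_le_mul_right (pow_le_pow_right_of_le_one' hθ1 h2.1) 2)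
        calc θ ^ (l.length - b) = 1 * θ ^ (l.length - b) := (one_mul _).symm
          _ ≤ 2 * θ ^ b * θ ^ (l.length - b) := mul_le_mul_left h4 _
          _ = 2 * θ ^ l.length := by
            rw [mul_assoc, ← pow_add]
            congr 2
            omega
      calc th D v (l.take b) *
            rs (fun y p => FF D y p ∧ 1 ≤ p.length ∧ p.length ≤ R) (tw θ (sa D.G D.z)) (vt v l b) (sg l b l.length)
          ≤ K1 * D.z ^ b * (θ ^ (l.length - b) * D.z ^ (l.length - b)) := mul_le_mul' e1 e2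
        _ ≤ K1 * D.z ^ b * (2 * θ ^ l.length * D.z ^ (l.length - b)) :=
            mul_le_mul_right (mul_le_mul_left e3 _) _
        _ = K1 * ((D.z ^ b * D.z ^ (l.length - b)) * (2 * θ ^ l.length)) := by ring
        _ = K1 * (D.z ^ l.length * (2 * θ ^ l.length)) := by
            rw [← pow_add]
            congr 3
            omega
    · rw [if_neg h2]
      rw [not_and_or, not_not] at h2
      rcases h2 with h2 | h2
      · have h3 : th D v (l.take b) = 0 := by
          by_contra h4
          have h5 := th_len hc h4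
          rw [List.length_take, min_eq_left hb'] at h5
          exact h2 h5
        rw [h3, zero_mul]
      · have h3 : rs (fun y p => FF D y p ∧ 1 ≤ p.length ∧ p.length ≤ R) (tw θ (sa D.G D.z)) (vt v l b)
            (sg l b l.length) = 0 := by
          unfold rs
          rw [if_neg]
          intro h4
          have h5 := h4.2.1
          rw [sg_length l hb' le_rfl] at h5
          omega
        rw [h3, mul_zero]
  refine (Finset.sum_le_sum h1).trans ?_
  split_ifs with h2
  · refine le_of_eq (Finset.sum_eq_zero fun b _ => ?_)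
    rw [if_neg (fun h => h.2 h2)]
  · rw [← Finset.sum_filter, Finset.sum_const, nsmul_eq_mul]
    refine mul_le_mul_left ?_ _
    have h3 : ((Finset.range (l.length + 1)).filter (fun b => b ≤ rp D ∧ l.length ≠ 0)).card ≤ rp D + 1 := by
      rw [← Finset.card_range (rp D + 1)]
      refine Finset.card_le_card ?_
      intro b hb
      have h4 := (Finset.mem_filter.1 hb).2.1
      exact Finset.mem_range.2 (by omega)
    exact_mod_cast h3

/-- the bound for the sum of the powers -/
private theorem FFB_sum {D : Dat V} {θ δ b q : ℝ≥0∞} {c : PW V} (hb : b * q = δ)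
    (hc : ∀ (v : V) (l : List V), Sw D.G v l → c v l ≤
      if l.length = 0 then 0 else q * (D.z ^ l.length * θ ^ l.length)) (x : V) (m : ℕ) :
    ∀ l : List V, Sw D.G x l → ∑ k ∈ Finset.range (m + 1), b ^ k * pwr c k x l ≤
      D.z ^ l.length * θ ^ l.length * (1 + δ) ^ l.length := by
  induction m with
  | zero =>
    intro l hw
    rw [zero_add, Finset.sum_range_one, pow_zero, one_mul]
    unfold pwr on
    split_ifs with h
    · rw [h]
      simp
    · exact zero_le
  | succ m ih =>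
    intro l hw
    rw [Finset.sum_range_succ']
    have h1 : ∑ k ∈ Finset.range (m + 1), b ^ (k + 1) * pwr c (k + 1) x l =
        b * ∑ a ∈ Finset.range (l.length + 1), (∑ k ∈ Finset.range (m + 1), b ^ k * pwr c k x (l.take a)) *
          c (vt x l a) (sg l a l.length) := by
      have h2 : ∀ k, b ^ (k + 1) * pwr c (k + 1) x l = ∑ a ∈ Finset.range (l.length + 1),
          b * (b ^ k * pwr c k x (l.take a) * c (vt x l a) (sg l a l.length)) := by
        intro k
        have h3 : pwr c (k + 1) = cv (pwr c k) c := rfl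
        rw [h3, cv_pos, Finset.mul_sum]
        refine Finset.sum_congr rfl fun a _ => ?_
        rw [pow_succ]
        ring
      rw [Finset.sum_congr rfl (fun k _ => h2 k), Finset.sum_comm, Finset.mul_sum]
      refine Finset.sum_congr rfl fun a _ => ?_
      rw [← Finset.mul_sum, Finset.sum_mul]
    have h3 : b * ∑ a ∈ Finset.range (l.length + 1), (∑ k ∈ Finset.range (m + 1), b ^ k * pwr c k x (l.take a)) *
          c (vt x l a) (sg l a l.length) ≤
        D.z ^ l.length * θ ^ l.length * (δ * ∑ a ∈ Finset.range l.length, (1 + δ) ^ a) := by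
      have h4 : ∀ a ∈ Finset.range (l.length + 1), (∑ k ∈ Finset.range (m + 1), b ^ k * pwr c k x (l.take a)) *
          c (vt x l a) (sg l a l.length) ≤
          if a < l.length then D.z ^ l.length * θ ^ l.length * q * (1 + δ) ^ a else 0 := by
        intro a ha
        have ha' : a ≤ l.length := Nat.lt_succ_iff.1 (Finset.mem_range.1 ha)
        have h5 := ih (l.take a) (Sw_take hw a)
        rw [List.length_take, min_eq_left ha'] at h5
        have h6 := hc (vt x l a) (sg l a l.length) (Sw_sg hw ha')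
        rw [sg_length l ha' le_rfl] at h6
        split_ifs with h7
        · rw [if_neg (by omega)] at h6
          calc _ ≤ D.z ^ a * θ ^ a * (1 + δ) ^ a * (q * (D.z ^ (l.length - a) * θ ^ (l.length - a))) :=
                mul_le_mul' h5 h6
            _ = (D.z ^ a * D.z ^ (l.length - a)) * (θ ^ a * θ ^ (l.length - a)) * q * (1 + δ) ^ a := by ring
            _ = _ := by
                rw [← pow_add, ← pow_add]
                have h8 : a + (l.length - a) = l.length := by omega
                rw [h8]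
        · rw [if_pos (by omega)] at h6
          rw [nonpos_iff_eq_zero.1 h6, mul_zero]
      refine (mul_le_mul_right (Finset.sum_le_sum h4) b).trans (le_of_eq ?_)
      rw [Finset.sum_range_succ, if_neg (lt_irrefl _), add_zero]
      have h8 : ∑ a ∈ Finset.range l.length, (if a < l.length then D.z ^ l.length * θ ^ l.length * q * (1 + δ) ^ a else 0)
          = D.z ^ l.length * θ ^ l.length * q * ∑ a ∈ Finset.range l.length, (1 + δ) ^ a := by
        rw [Finset.mul_sum]
        exact Finset.sum_congr rfl fun a ha => if_pos (Finset.mem_range.1 ha)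
      rw [h8, ← hb]
      ring
    rw [h1]
    refine (add_le_add_left h3 _).trans ?_
    rw [pow_zero, one_mul]
    unfold pwr on
    split_ifs with h
    · rw [h]
      simp
    · rw [add_zero]
      refine mul_le_mul_right ?_ _
      rw [← FFB_geo]
      exact le_add_self

theorem ffb {D : Dat V} {ρ κ K K1 : ℝ≥0∞} {c0 : ℝ≥0} {R : ℕ} (hs : Sc D ρ κ K K1 c0)
    (hM : 20 * (((R : ℝ≥0∞) + 2 * D.J + D.r + 2) ^ 2 * κ) ≤ 1) {θ δ : ℝ≥0∞} (hδ : δ ≠ 0) (hδt : δ ≠ ⊤)
    (hθ : (1 + δ) * θ < 1) (hθr : 1 ≤ 2 * θ ^ rp D) (x : V) :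
    δ * ms (rs (fun y p => FF D y p ∧ 1 ≤ p.length ∧ p.length ≤ R) (tw θ (sa D.G D.z))) x ≤
      4 * (D.d : ℝ≥0∞) ^ (2 * D.J) * K1 * ((rp D : ℝ≥0∞) + 1) := by
  have hθ1 : θ ≤ 1 := by
    refine le_trans ?_ hθ.le
    calc θ = 1 * θ := (one_mul θ).symm
      _ ≤ (1 + δ) * θ := mul_le_mul_left le_self_add _
  obtain ⟨ω, hω⟩ : ∃ ω : PW V, ω = rs (fun y p => FF D y p ∧ 1 ≤ p.length ∧ p.length ≤ R) (tw θ (sa D.G D.z)) :=
    ⟨_, rfl⟩
  rw [← hω]
  have hinv : InvP D.G ω := by
    rw [hω]
    refine InvP_rs (InvP_tw (InvP_sa D.G D.z) θ) ?_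
    intro φ y p
    rw [FF_map hs.cn.inv φ y p, List.length_map]
  have hF : ∀ x l, ω x l ≠ 0 → FF D x l ∧ l.length ≤ R := by
    intro y l h
    rw [hω] at h
    unfold rs at h
    by_contra h1
    apply h
    rw [if_neg]
    rintro ⟨h2, _, h3⟩
    exact h1 ⟨h2, h3⟩
  have hfin : ms ω x ≠ ⊤ := by
    have h1 : ms ω x ≤ ∑' l, sa D.G D.z x l * (if l.length < R + 1 then 1 else 0) := by
      unfold ms
      refine ENNReal.tsum_le_tsum fun l => ?_
      rw [hω]
      unfold rs
      split_ifs with h2 h3 h3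
      · rw [mul_one]
        unfold tw
        calc θ ^ l.length * sa D.G D.z x l ≤ 1 * sa D.G D.z x l := mul_le_mul_left (pow_le_one' hθ1 _) _
          _ = _ := one_mul _
      · omega
      · exact zero_le
      · exact zero_le
    refine ne_top_of_le_ne_top ?_ h1
    rw [sum_len D.z (fun n => if n < R + 1 then 1 else 0) x]
    rw [tsum_eq_sum (s := Finset.range (R + 1)) (fun n hn => by
      rw [if_neg (fun h => hn (Finset.mem_range.2 h)), mul_zero])]
    refine ENNReal.sum_ne_top.2 fun n hn => ?_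
    rw [if_pos (Finset.mem_range.1 hn), mul_one]
    exact al_top hs.ug n x
  have hK0 : K1 ≠ 0 := by
    intro h
    have h1 := th_ms hs.ug hs.cn x
    have h2 : ms (th D) x = 0 := by
      unfold ms
      rw [ENNReal.tsum_eq_zero]
      intro l
      have h3 := hs.k1 x l
      rw [h, zero_mul] at h3
      exact nonpos_iff_eq_zero.1 h3
    rw [h2] at h1
    exact zero_ne_one h1
  obtain ⟨A, hA⟩ : ∃ A : ℝ≥0∞, A = 2 * K1 * ((rp D : ℝ≥0∞) + 1) := ⟨_, rfl⟩
  obtain ⟨B, hB⟩ : ∃ B : ℝ≥0∞, B = 2 * (D.d : ℝ≥0∞) ^ (2 * D.J) := ⟨_, rfl⟩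
  have hA0 : A ≠ 0 := by
    rw [hA]
    exact mul_ne_zero (mul_ne_zero two_ne_zero hK0) (by simp)
  have hAt : A ≠ ⊤ := by
    rw [hA]
    exact ENNReal.mul_ne_top (ENNReal.mul_ne_top (by norm_num) hs.k1t)
      (ENNReal.add_ne_top.2 ⟨ENNReal.natCast_ne_top _, ENNReal.one_ne_top⟩)
  have hd0 : (D.d : ℝ≥0∞) ≠ 0 := by
    have h1 := hs.ug.dpos
    exact_mod_cast (by omega : D.d ≠ 0)
  have hB0 : B ≠ 0 := by
    rw [hB]
    exact mul_ne_zero two_ne_zero (pow_ne_zero _ hd0)
  have hBt : B ≠ ⊤ := by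
    rw [hB]
    exact ENNReal.mul_ne_top (by norm_num) (ENNReal.pow_ne_top (ENNReal.natCast_ne_top _))
  obtain ⟨b, hb⟩ : ∃ b : ℝ≥0∞, b = δ / A := ⟨_, rfl⟩
  have hbA : b * A = δ := by
    rw [hb, ENNReal.div_mul_cancel hA0 hAt]
  obtain ⟨c, hc⟩ : ∃ c : PW V, c = cv (th D) ω := ⟨_, rfl⟩
  have hc1 : ∀ (v : V) (l : List V), Sw D.G v l → c v l ≤
      if l.length = 0 then 0 else A * (D.z ^ l.length * θ ^ l.length) := by
    intro v l hw
    have h1 := FFB_one (R := R) hs.cn hs.k1 hθ1 hθr hw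
    rw [← hω, ← hc] at h1
    refine h1.trans (le_of_eq ?_)
    split_ifs
    · rfl
    · rw [hA]
      ring
  have hsum := FFB_sum (D := D) hbA hc1 x
  obtain ⟨χ, hχt, hχ⟩ := gen_fin hs.ug hθ
  have hS : ∀ m : ℕ, ∑ k ∈ Finset.range (m + 1), (b * (ms ω x / B)) ^ k ≤ χ := by
    intro m
    calc ∑ k ∈ Finset.range (m + 1), (b * (ms ω x / B)) ^ k
        ≤ ∑ k ∈ Finset.range (m + 1), b ^ k * ms (rs (Sw D.G) (pwr c k)) x := by
          refine Finset.sum_le_sum fun k _ => ?_
          rw [mul_pow]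
          refine mul_le_mul_right ?_ _
          have h1 := lemS hs hinv (fun y l h => (hF y l h).1) (fun y l h => (hF y l h).2) hM x hfin k
          rw [← hc, ← hB] at h1
          exact h1
      _ = ∑' l, ∑ k ∈ Finset.range (m + 1), b ^ k * rs (Sw D.G) (pwr c k) x l := by
          rw [Summable.tsum_finsetSum (fun i _ => ENNReal.summable)]
          refine Finset.sum_congr rfl fun k _ => ?_
          unfold ms
          rw [ENNReal.tsum_mul_left]
      _ ≤ ∑' l, sa D.G D.z x l * ((1 + δ) * θ) ^ l.length := by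
          refine ENNReal.tsum_le_tsum fun l => ?_
          by_cases hw : Sw D.G x l
          · have h1 : sa D.G D.z x l = D.z ^ l.length := by
              unfold sa
              rw [if_pos hw]
            have h2 : ∀ k, rs (Sw D.G) (pwr c k) x l = pwr c k x l := by
              intro k
              unfold rs
              rw [if_pos hw]
            simp only [h1, h2]
            refine (hsum m l hw).trans (le_of_eq ?_)
            rw [mul_pow]
            ring
          · have h2 : ∀ k, rs (Sw D.G) (pwr c k) x l = 0 := by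
              intro k
              unfold rs
              rw [if_neg hw]
            simp only [h2, mul_zero, Finset.sum_const_zero]
            exact zero_le
      _ = ∑' n, al D.G D.z n x * ((1 + δ) * θ) ^ n := sum_len D.z (fun n => ((1 + δ) * θ) ^ n) x
      _ ≤ χ := hχ x
  have hq : b * (ms ω x / B) ≤ 1 := by
    by_contra hcon
    have hcon' : 1 ≤ b * (ms ω x / B) := (not_le.1 hcon).le
    obtain ⟨m, hm⟩ := ENNReal.exists_nat_gt hχt
    have h1 := hS m
    have h2 : ((m + 1 : ℕ) : ℝ≥0∞) ≤ ∑ k ∈ Finset.range (m + 1), (b * (ms ω x / B)) ^ k := by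
      calc ((m + 1 : ℕ) : ℝ≥0∞) = ∑ _k ∈ Finset.range (m + 1), (1 : ℝ≥0∞) := by simp
        _ ≤ _ := Finset.sum_le_sum fun k _ => one_le_pow_of_one_le' hcon' k
    have h3 : (m : ℝ≥0∞) ≤ ((m + 1 : ℕ) : ℝ≥0∞) := by exact_mod_cast Nat.le_succ m
    exact absurd (h3.trans (h2.trans h1)) (not_le.2 hm)
  calc δ * ms ω x = (b * (ms ω x / B)) * (A * B) := by
        rw [← hbA]
        calc b * A * ms ω x = b * A * (ms ω x / B * B) := by rw [ENNReal.div_mul_cancel hB0 hBt]
          _ = _ := by ring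
    _ ≤ 1 * (A * B) := mul_le_mul_left hq _
    _ = 4 * (D.d : ℝ≥0∞) ^ (2 * D.J) * K1 * ((rp D : ℝ≥0∞) + 1) := by
        rw [hA, hB]
        ring

end Pool.Agent.SAWG
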