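import Pool.Agent.SAWG.Defs

/-!
# SAWG module KBA: norms of kernels

PROOFS.  `cs_tsum`: Cauchy-Schwarz for `ENNReal` sums (`ENNReal.inner_le_Lp_mul_Lq_tsum`-like lemma for `NNReal`/`ENNReal`, or by finite sums and
`Finset.sum_mul_sq_le_sq_mul_sq` for real numbers; or `ENNReal.lintegral_mul_le_Lp_mul_Lq` with the counting measure).
`KB_mono`, `KB_le`: monotonicity of the sums.  `KB_cmp`: `∑_y kc K L x y * v y = ∑_z K x z * (∑_y L z y * v y)` (`ENNReal.tsum_comm`,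
`ENNReal.tsum_mul_left/right`), use `hK` with the function `z ↦ ∑_y L z y * v y`, then `hL`.  `KB_smul`: pull out `c`.
`KB_entry`: `v` = indicator function of `y`: `K x y ^ 2 ≤ c ^ 2`.  `KB_id`: `∑_y idK x y * v y = v x`.
`KB_cs`: `cs_tsum` for `u x` and `∑_y K x y * v y`, then `KB`.
`KB_schur`: `(∑_y K x y v y)^2 = (∑_y (K x y g y)^{1/2} (K x y v y ^2 / g y)^{1/2})^2 ≤ (∑_y K x y g y) (∑_y K x y v y^2 / g y)
≤ c g x ∑_y K x y v y^2 / g y`; sum over `x`, exchange the sums, use `h2`: `≤ c^2 ∑_y v y^2`.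
(To avoid roots: `cs_tsum'`: `(∑ a i b i)^2 ≤ (∑ a i) (∑ a i b i^2)`, from `cs_tsum` with `NNReal.sqrt`/`rpow`, or directly.)
-/

set_option autoImplicit false

open scoped ENNReal NNReal Classical
open Filter Topology

namespace Pool.Agent.SAWG

open Pool.Agent.SWH (Ker idK adK tp endp Sw endp_nil endp_cons endp_append endp_mem)

variable {V : Type}

theorem cs_tsum {ι : Type} (f g : ι → ℝ≥0∞) :
    (∑' i, f i * g i) ^ 2 ≤ (∑' i, f i ^ 2) * ∑' i, g i ^ 2 := by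
  have hpq : (2 : ℝ).HolderConjugate 2 := Real.HolderConjugate.two_two
  have hsq : ∀ x : ℝ≥0∞, (x ^ (1 / (2 : ℝ))) ^ 2 = x := by
    intro x
    rw [← ENNReal.rpow_natCast, ← ENNReal.rpow_mul]
    norm_num
  have h1 : ∑' i, f i * g i ≤ (∑' i, f i ^ 2) ^ (1 / (2 : ℝ)) * (∑' i, g i ^ 2) ^ (1 / (2 : ℝ)) := by
    rw [ENNReal.tsum_eq_iSup_sum]
    refine iSup_le fun s => ?_
    refine (ENNReal.inner_le_Lp_mul_Lq s f g hpq).trans ?_
    have h2 : ∀ h : ι → ℝ≥0∞, ∑ i ∈ s, h i ^ (2 : ℝ) ≤ ∑' i, h i ^ 2 := by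
      intro h
      refine le_trans (le_of_eq ?_) (ENNReal.sum_le_tsum s)
      exact Finset.sum_congr rfl fun i _ => ENNReal.rpow_two _
    gcongr
    · exact h2 f
    · exact h2 g
  calc (∑' i, f i * g i) ^ 2
      ≤ ((∑' i, f i ^ 2) ^ (1 / (2 : ℝ)) * (∑' i, g i ^ 2) ^ (1 / (2 : ℝ))) ^ 2 := by gcongr
    _ = (∑' i, f i ^ 2) * ∑' i, g i ^ 2 := by rw [mul_pow, hsq, hsq]

/-- Cauchy-Schwarz with weights. -/
theorem cs_tsum' {ι : Type} (a b : ι → ℝ≥0∞) :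
    (∑' i, a i * b i) ^ 2 ≤ (∑' i, a i) * ∑' i, a i * b i ^ 2 := by
  have h0 : ∀ x : ℝ≥0∞, x ^ (1 / (2 : ℝ)) * x ^ (1 / (2 : ℝ)) = x := by
    intro x
    rw [← ENNReal.rpow_add_of_nonneg _ _ (by norm_num) (by norm_num)]
    norm_num
  have h1 := cs_tsum (fun i => a i ^ (1 / (2 : ℝ))) (fun i => a i ^ (1 / (2 : ℝ)) * b i)
  have h2 : ∀ i, a i ^ (1 / (2 : ℝ)) * (a i ^ (1 / (2 : ℝ)) * b i) = a i * b i := by
    intro i
    rw [← mul_assoc, h0]
  have h3 : ∀ i, (a i ^ (1 / (2 : ℝ))) ^ 2 = a i := by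
    intro i
    rw [sq, h0]
  have h4 : ∀ i, (a i ^ (1 / (2 : ℝ)) * b i) ^ 2 = a i * b i ^ 2 := by
    intro i
    rw [mul_pow, h3]
  simpa only [h2, h3, h4] using h1

theorem KB_mono {K L : Ker V} {c : ℝ≥0∞} (h : ∀ x y, K x y ≤ L x y) (hL : KB L c) : KB K c := by
  intro v
  refine le_trans ?_ (hL v)
  gcongr with x y
  exact h x _

theorem KB_le {K : Ker V} {c c' : ℝ≥0∞} (h : c ≤ c') (hK : KB K c) : KB K c' := by
  intro v
  refine le_trans (hK v) ?_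
  gcongr

theorem KB_cmp {K L : Ker V} {a b : ℝ≥0∞} (hK : KB K a) (hL : KB L b) : KB (kc K L) (a * b) := by
  intro v
  have h1 : ∀ x, ∑' y, kc K L x y * v y = ∑' z, K x z * ∑' y, L z y * v y := by
    intro x
    simp only [kc]
    simp_rw [← ENNReal.tsum_mul_right, ← ENNReal.tsum_mul_left]
    rw [ENNReal.tsum_comm]
    simp_rw [mul_assoc]
  simp_rw [h1]
  refine (hK (fun z => ∑' y, L z y * v y)).trans ?_
  calc a ^ 2 * ∑' z, (∑' y, L z y * v y) ^ 2 ≤ a ^ 2 * (b ^ 2 * ∑' y, v y ^ 2) := by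
        gcongr
        exact hL v
    _ = (a * b) ^ 2 * ∑' y, v y ^ 2 := by rw [mul_pow, mul_assoc]

theorem KB_smul {K : Ker V} {a : ℝ≥0∞} (c : ℝ≥0∞) (hK : KB K a) : KB (fun x y => c * K x y) (c * a) := by
  intro v
  have h1 : ∀ x, ∑' y, c * K x y * v y = c * ∑' y, K x y * v y := by
    intro x
    rw [← ENNReal.tsum_mul_left]
    simp_rw [mul_assoc]
  simp_rw [h1, mul_pow]
  rw [ENNReal.tsum_mul_left, mul_assoc]
  gcongr
  exact hK v

theorem KB_entry {K : Ker V} {c : ℝ≥0∞} (hK : KB K c) (x y : V) : K x y ≤ c := by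
  have h1 := hK (fun z => if z = y then 1 else 0)
  have h2 : ∑' z, (if z = y then (1 : ℝ≥0∞) else 0) ^ 2 = 1 := by
    rw [tsum_eq_single y]
    · simp
    · intro z hz
      simp [hz]
  have h3 : ∀ w, ∑' z, K w z * (if z = y then (1 : ℝ≥0∞) else 0) = K w y := by
    intro w
    rw [tsum_eq_single y]
    · simp
    · intro z hz
      simp [hz]
  simp only [h3] at h1
  rw [h2, mul_one] at h1
  have h4 : K x y ^ 2 ≤ c ^ 2 := (ENNReal.le_tsum x).trans h1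
  exact (ENNReal.pow_le_pow_left_iff (by norm_num)).1 h4

theorem KB_id : KB (idK : Ker V) 1 := by
  intro v
  have h1 : ∀ x, ∑' y, (idK : Ker V) x y * v y = v x := by
    intro x
    rw [tsum_eq_single x]
    · simp [idK]
    · intro z hz
      simp [idK, hz.symm]
  simp_rw [h1]
  simp

theorem KB_cs {K : Ker V} {c : ℝ≥0∞} (hK : KB K c) (u v : V → ℝ≥0∞) :
    (∑' x, u x * ∑' y, K x y * v y) ^ 2 ≤ c ^ 2 * ((∑' x, u x ^ 2) * ∑' y, v y ^ 2) := by
  refine (cs_tsum u (fun x => ∑' y, K x y * v y)).trans ?_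
  calc (∑' x, u x ^ 2) * ∑' x, (∑' y, K x y * v y) ^ 2
      ≤ (∑' x, u x ^ 2) * (c ^ 2 * ∑' y, v y ^ 2) := by
        gcongr
        exact hK v
    _ = c ^ 2 * ((∑' x, u x ^ 2) * ∑' y, v y ^ 2) := by ring

/-- The Schur test. -/
theorem KB_schur {K : Ker V} {c : ℝ≥0∞} (g : V → ℝ≥0∞) (hg0 : ∀ x, g x ≠ 0) (hgt : ∀ x, g x ≠ ⊤)
    (h1 : ∀ x, ∑' y, K x y * g y ≤ c * g x) (h2 : ∀ y, ∑' x, g x * K x y ≤ c * g y) : KB K c := by
  intro v
  have h0 : ∀ x, (∑' y, K x y * v y) ^ 2 ≤ c * ∑' y, g x * K x y * (v y ^ 2 / g y) := by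
    intro x
    have h3 := cs_tsum' (fun y => K x y * g y) (fun y => v y / g y)
    have h4 : ∀ y, K x y * g y * (v y / g y) = K x y * v y := by
      intro y
      rw [mul_assoc, ENNReal.mul_div_cancel (hg0 y) (hgt y)]
    have h5 : ∀ y, K x y * g y * (v y / g y) ^ 2 = K x y * (v y ^ 2 / g y) := by
      intro y
      rw [sq, sq, ← mul_assoc, h4, mul_assoc, mul_div_assoc]
    simp only [h4, h5] at h3
    refine h3.trans ?_
    calc (∑' y, K x y * g y) * ∑' y, K x y * (v y ^ 2 / g y)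
        ≤ (c * g x) * ∑' y, K x y * (v y ^ 2 / g y) := by
          gcongr
          exact h1 x
      _ = c * ∑' y, g x * K x y * (v y ^ 2 / g y) := by
          rw [mul_assoc, ← ENNReal.tsum_mul_left]
          simp_rw [mul_assoc]
  calc ∑' x, (∑' y, K x y * v y) ^ 2
      ≤ ∑' x, c * ∑' y, g x * K x y * (v y ^ 2 / g y) := ENNReal.tsum_le_tsum h0
    _ = c * ∑' y, (∑' x, g x * K x y) * (v y ^ 2 / g y) := by
        rw [ENNReal.tsum_mul_left, ENNReal.tsum_comm]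
        simp_rw [ENNReal.tsum_mul_right]
    _ ≤ c * ∑' y, (c * g y) * (v y ^ 2 / g y) := by
        gcongr with y
        exact h2 y
    _ = c ^ 2 * ∑' y, v y ^ 2 := by
        have h6 : ∀ y, c * g y * (v y ^ 2 / g y) = c * v y ^ 2 := by
          intro y
          rw [mul_assoc, ENNReal.mul_div_cancel (hg0 y) (hgt y)]
        simp_rw [h6]
        rw [ENNReal.tsum_mul_left, sq, mul_assoc]

end Pool.Agent.SAWG
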