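import Pool.Agent.SAWG.Defs

/-!
# SAWG module LBL: a lower bound for sums over compatible sequences

PROOF.  Define `X` recursively (strong recursion, or prove the statement for the minimal solution): `X_i = β u_i (1 + ∑_{j<i, C j i} X_j)`; by strong induction `X_i ≤ Y_i` (`i < n`), `X_i` finite.  Let `T_i = 1 + ∑_{j<i} X_j`.
`X_j ≤ β u_j T_j ≤ β u_j T_i` for `j ≤ i`.  So `T_i = (1 + ∑_{j<i, C} X_j) + ∑_{j<i, ¬C} X_j ≤ (1 + ∑_{j<i,C} X_j) + T_i β ∑_{j<i,¬C} u_j ≤ (1 + ∑_{j<i,C} X_j) + T_i/2`, so `T_i/2 ≤ 1 + ∑_{j<i, C} X_j`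
(`T_i` finite), `X_i ≥ (β u_i/2) T_i` (trivial if `u_i = 0`), `T_(i+1) ≥ (1 + β u_i/2) T_i`.  Hence `∏_{i<n} (1 + β u_i/2) ≤ T_n ≤ 1 + ∑_{i<n} Y_i`.
(Alternative without recursion: prove by induction on `n` the existence of finite `X_i ≤ Y_i`, `i < n`, with the equation.)
`prod_exp`: `1 + y ≥ exp (y/2)` for real `0 ≤ y ≤ 1`.
`prod_tel`: `∑_{a<c} (∏_{a'<a} (1 + y_a')) y_a + 1 = ∏_{a<c} (1 + y_a)`, induction on `c`.
-/

set_option autoImplicit false

open scoped ENNReal NNReal Classical
open Filter Topology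

namespace Pool.Agent.SAWG

open Pool.Agent.SWH (Ker idK adK tp endp Sw endp_nil endp_cons endp_append endp_mem)

variable {V : Type}

/-- The minimal solution of the recursion. -/
noncomputable def lblX (u : ℕ → ℝ≥0∞) (C : ℕ → ℕ → Prop) (β : ℝ≥0∞) (i : ℕ) : ℝ≥0∞ :=
  β * u i * (1 + ∑ j : Fin i, if C j i then lblX u C β j else 0)
termination_by i
decreasing_by exact j.2

theorem lblX_eq (u : ℕ → ℝ≥0∞) (C : ℕ → ℕ → Prop) (β : ℝ≥0∞) (i : ℕ) :
    lblX u C β i = β * u i * (1 + ∑ j ∈ Finset.range i, if C j i then lblX u C β j else 0) := by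
  rw [lblX, Finset.sum_range]

theorem lblX_ne_top {n : ℕ} {u : ℕ → ℝ≥0∞} {C : ℕ → ℕ → Prop} {β : ℝ≥0∞} (hβt : β ≠ ⊤)
    (hu : ∀ i < n, u i ≠ ⊤) (i : ℕ) : i < n → lblX u C β i ≠ ⊤ := by
  induction i using Nat.strong_induction_on with
  | _ i ih =>
    intro hi
    rw [lblX_eq]
    refine ENNReal.mul_ne_top (ENNReal.mul_ne_top hβt (hu i hi)) (ENNReal.add_ne_top.2 ⟨ENNReal.one_ne_top, ?_⟩)
    refine ENNReal.sum_ne_top.2 fun j hj => ?_
    have hj' := Finset.mem_range.1 hj
    split_ifs
    · exact ih j hj' (hj'.trans hi)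
    · exact ENNReal.zero_ne_top

theorem lblX_le {n : ℕ} {u Y : ℕ → ℝ≥0∞} {C : ℕ → ℕ → Prop} {β : ℝ≥0∞}
    (hY : ∀ i < n, β * u i * (1 + ∑ j ∈ Finset.range i, if C j i then Y j else 0) ≤ Y i) (i : ℕ) :
    i < n → lblX u C β i ≤ Y i := by
  induction i using Nat.strong_induction_on with
  | _ i ih =>
    intro hi
    rw [lblX_eq]
    refine le_trans ?_ (hY i hi)
    gcongr with j hj
    have hj' := Finset.mem_range.1 hj
    split_ifs
    · exact ih j hj' (hj'.trans hi)
    · exact le_refl _

theorem lbl (n : ℕ) (u Y : ℕ → ℝ≥0∞) (C : ℕ → ℕ → Prop) (β : ℝ≥0∞) (hβt : β ≠ ⊤) (hu : ∀ i < n, u i ≠ ⊤)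
    (hY : ∀ i < n, β * u i * (1 + ∑ j ∈ Finset.range i, if C j i then Y j else 0) ≤ Y i)
    (hC : ∀ i < n, u i ≠ 0 → β * ∑ j ∈ Finset.range i, (if C j i then 0 else u j) ≤ 2⁻¹) :
    ∏ i ∈ Finset.range n, (1 + β * u i / 2) ≤ 1 + ∑ i ∈ Finset.range n, Y i := by
  have hfin : ∀ i, i < n → lblX u C β i ≠ ⊤ := lblX_ne_top hβt hu
  have key : ∀ m, m ≤ n → ∏ i ∈ Finset.range m, (1 + β * u i / 2) ≤ 1 + ∑ i ∈ Finset.range m, lblX u C β i := by
    intro m
    induction m with
    | zero => intro _; simp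
    | succ m ih =>
      intro hm
      have hmn : m < n := hm
      rw [Finset.prod_range_succ, Finset.sum_range_succ]
      have hT : (1 + ∑ i ∈ Finset.range m, lblX u C β i) ≠ ⊤ :=
        ENNReal.add_ne_top.2 ⟨ENNReal.one_ne_top, ENNReal.sum_ne_top.2 fun j hj =>
          hfin j ((Finset.mem_range.1 hj).trans hmn)⟩
      set T := 1 + ∑ i ∈ Finset.range m, lblX u C β i with hTdef
      have hXT : ∀ j ∈ Finset.range m, lblX u C β j ≤ β * u j * T := by
        intro j hj
        have hj' := Finset.mem_range.1 hj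
        rw [lblX_eq, hTdef]
        gcongr
        calc ∑ i ∈ Finset.range j, (if C i j then lblX u C β i else 0)
            ≤ ∑ i ∈ Finset.range j, lblX u C β i := by
              refine Finset.sum_le_sum fun i _ => ?_
              split_ifs
              · exact le_refl _
              · exact zero_le
          _ ≤ ∑ i ∈ Finset.range m, lblX u C β i :=
              Finset.sum_le_sum_of_subset (Finset.range_subset_range.2 hj'.le)
      have hstep : (β * u m / 2) * T ≤ lblX u C β m := by
        by_cases hum : u m = 0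
        · simp [hum]
        set A := 1 + ∑ j ∈ Finset.range m, (if C j m then lblX u C β j else 0) with hA
        have h1 : T ≤ A + T / 2 := by
          calc T = A + ∑ j ∈ Finset.range m, (if C j m then 0 else lblX u C β j) := by
                rw [hTdef, hA, add_assoc, ← Finset.sum_add_distrib]
                congr 1
                refine Finset.sum_congr rfl fun j _ => ?_
                split_ifs <;> simp
            _ ≤ A + T * (β * ∑ j ∈ Finset.range m, (if C j m then 0 else u j)) := by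
                gcongr
                rw [Finset.mul_sum, Finset.mul_sum]
                refine Finset.sum_le_sum fun j hj => ?_
                split_ifs
                · exact zero_le
                · calc lblX u C β j ≤ β * u j * T := hXT j hj
                    _ = T * (β * u j) := mul_comm _ _
            _ ≤ A + T * 2⁻¹ := by
                gcongr
                exact hC m hmn hum
            _ = A + T / 2 := by rw [ENNReal.div_eq_inv_mul, mul_comm]
        have h2 : T / 2 ≤ A := by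
          have h3 : T / 2 + T / 2 ≤ A + T / 2 := by rwa [ENNReal.add_halves]
          have hT2 : T / 2 ≠ ⊤ := ENNReal.div_ne_top hT (by norm_num)
          exact (ENNReal.add_le_add_iff_right hT2).1 h3
        calc (β * u m / 2) * T = β * u m * (T / 2) := by
              rw [ENNReal.div_eq_inv_mul, ENNReal.div_eq_inv_mul]; ring
          _ ≤ β * u m * A := by gcongr
          _ = lblX u C β m := (lblX_eq u C β m).symm
      calc (∏ i ∈ Finset.range m, (1 + β * u i / 2)) * (1 + β * u m / 2)
          ≤ T * (1 + β * u m / 2) := by gcongr; exact ih hmn.le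
        _ = T + (β * u m / 2) * T := by ring
        _ ≤ T + lblX u C β m := by gcongr
        _ = 1 + (∑ i ∈ Finset.range m, lblX u C β i + lblX u C β m) := by rw [hTdef, add_assoc]
  refine (key n le_rfl).trans ?_
  gcongr with i hi
  exact lblX_le hY i (Finset.mem_range.1 hi)

theorem exp_half_le {t : ℝ} (h0 : 0 ≤ t) (h1 : t ≤ 1) : Real.exp (t / 2) ≤ 1 + t := by
  have h2 : 1 - t / 2 ≤ Real.exp (-(t / 2)) := Real.one_sub_le_exp_neg _
  have h3 : (0 : ℝ) < 1 - t / 2 := by linarith
  have h4 : Real.exp (t / 2) * (1 - t / 2) ≤ 1 := by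
    calc Real.exp (t / 2) * (1 - t / 2) ≤ Real.exp (t / 2) * Real.exp (-(t / 2)) := by
          gcongr
      _ = 1 := by rw [← Real.exp_add]; simp
  have h5 : 1 ≤ (1 + t) * (1 - t / 2) := by nlinarith
  have h6 : Real.exp (t / 2) * (1 - t / 2) ≤ (1 + t) * (1 - t / 2) := h4.trans h5
  exact le_of_mul_le_mul_right h6 h3

theorem prod_exp {ι : Type} (s : Finset ι) (y : ι → ℝ≥0∞) (hy : ∀ i ∈ s, y i ≤ 1) :
    ENNReal.ofReal (Real.exp ((∑ i ∈ s, y i).toReal / 2)) ≤ ∏ i ∈ s, (1 + y i) := by
  classical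
  induction s using Finset.induction_on with
  | empty => simp
  | insert a s ha ih =>
    have hya : y a ≤ 1 := hy a (Finset.mem_insert_self a s)
    have hys : ∀ i ∈ s, y i ≤ 1 := fun i hi => hy i (Finset.mem_insert_of_mem hi)
    have hat : y a ≠ ⊤ := ne_top_of_le_ne_top ENNReal.one_ne_top hya
    have hst : ∑ i ∈ s, y i ≠ ⊤ :=
      ENNReal.sum_ne_top.2 fun i hi => ne_top_of_le_ne_top ENNReal.one_ne_top (hys i hi)
    rw [Finset.sum_insert ha, Finset.prod_insert ha, ENNReal.toReal_add hat hst, add_div, Real.exp_add,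
      ENNReal.ofReal_mul (Real.exp_pos _).le]
    gcongr
    · have h1 : (y a).toReal ≤ 1 := by
        have := ENNReal.toReal_mono ENNReal.one_ne_top hya
        simpa using this
      calc ENNReal.ofReal (Real.exp ((y a).toReal / 2)) ≤ ENNReal.ofReal (1 + (y a).toReal) :=
            ENNReal.ofReal_le_ofReal (exp_half_le ENNReal.toReal_nonneg h1)
        _ = 1 + y a := by
            rw [ENNReal.ofReal_add zero_le_one ENNReal.toReal_nonneg, ENNReal.ofReal_one, ENNReal.ofReal_toReal hat]
    · exact ih hys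

theorem prod_le_exp {ι : Type} (s : Finset ι) (y : ι → ℝ≥0∞) (hy : ∀ i ∈ s, y i ≠ ⊤) :
    ∏ i ∈ s, (1 + y i) ≤ ENNReal.ofReal (Real.exp (∑ i ∈ s, y i).toReal) := by
  classical
  induction s using Finset.induction_on with
  | empty => simp
  | insert a s ha ih =>
    have hat : y a ≠ ⊤ := hy a (Finset.mem_insert_self a s)
    have hys : ∀ i ∈ s, y i ≠ ⊤ := fun i hi => hy i (Finset.mem_insert_of_mem hi)
    have hst : ∑ i ∈ s, y i ≠ ⊤ := ENNReal.sum_ne_top.2 fun i hi => hys i hi
    rw [Finset.sum_insert ha, Finset.prod_insert ha, ENNReal.toReal_add hat hst, Real.exp_add,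
      ENNReal.ofReal_mul (Real.exp_pos _).le]
    gcongr
    · calc 1 + y a = ENNReal.ofReal (1 + (y a).toReal) := by
            rw [ENNReal.ofReal_add zero_le_one ENNReal.toReal_nonneg, ENNReal.ofReal_one, ENNReal.ofReal_toReal hat]
        _ ≤ ENNReal.ofReal (Real.exp (y a).toReal) := by
            refine ENNReal.ofReal_le_ofReal ?_
            have := Real.add_one_le_exp (y a).toReal
            linarith
    · exact ih hys

theorem prod_tel (y : ℕ → ℝ≥0∞) (c : ℕ) :
    1 + ∑ a ∈ Finset.range c, (∏ a' ∈ Finset.range a, (1 + y a')) * y a = ∏ a ∈ Finset.range c, (1 + y a) := by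
  induction c with
  | zero => simp
  | succ c ih =>
    rw [Finset.sum_range_succ, Finset.prod_range_succ, ← add_assoc, ih]
    ring

end Pool.Agent.SAWG
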