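import Pool.Agent.SAWG.RWK

/-!
# SAWG module LER: loop erasure

PROOFS.  All by induction on `k` (generalising `x`).  `ler x (y :: l)` is `y :: ler y l` or, if `x` occurs there, the part after the (first) occurrence of `x`, a suffix:
`aft_suffix : aft x L <:+ L`, `aft_spec : x ∈ L → ∃ L1, L = L1 ++ x :: aft x L`, `endp x (aft x L) = endp v L` if `x ∈ L` (any `v`).
`ler_nodup`: if `x ∈ L = y :: ler y l` (nodup by induction), `L = L1 ++ x :: aft x L`, so `x :: aft x L` is nodup.
`ler_chain`: `y :: ler y l` is a chain by induction; a suffix `x :: aft x L` of a chain is a chain.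
-/

set_option autoImplicit false

open scoped ENNReal NNReal Classical
open Filter Topology

namespace Pool.Agent.SAWG

open Pool.Agent.SWH (Ker idK adK tp endp Sw endp_nil endp_cons endp_append endp_mem)

variable {V : Type}

private theorem LER_aft_suffix (x : V) (L : List V) : aft x L <:+ L := by
  induction L with
  | nil => simp [aft]
  | cons y l ih =>
    unfold aft
    split_ifs with h
    · exact List.suffix_cons y l
    · exact ih.trans (List.suffix_cons y l)

private theorem LER_aft_spec (x : V) (L : List V) (h : x ∈ L) : ∃ L1, L = L1 ++ x :: aft x L := by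
  induction L with
  | nil => simp at h
  | cons y l ih =>
    by_cases hy : x = y
    · refine ⟨[], ?_⟩
      simp [aft, hy]
    · have hl : x ∈ l := by
        rcases List.mem_cons.1 h with h1 | h1
        · exact absurd h1 hy
        · exact h1
      obtain ⟨L1, hL⟩ := ih hl
      refine ⟨y :: L1, ?_⟩
      have : aft x (y :: l) = aft x l := by simp [aft, hy]
      rw [this]
      simpa using hL

private theorem LER_ler_cons (x y : V) (l : List V) :
    ler x (y :: l) = if x ∈ y :: ler y l then aft x (y :: ler y l) else y :: ler y l := by
  rw [ler]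

theorem ler_nodup (x : V) (k : List V) : (x :: ler x k).Nodup := by
  induction k generalizing x with
  | nil => simp [ler]
  | cons y l ih =>
    have h1 := ih y
    rw [LER_ler_cons]
    split_ifs with h
    · obtain ⟨L1, hL⟩ := LER_aft_spec x _ h
      rw [hL] at h1
      exact (List.nodup_append.1 h1).2.1
    · exact List.nodup_cons.2 ⟨h, h1⟩

private theorem LER_endp_aft (x v : V) (L : List V) (h : x ∈ L) : endp x (aft x L) = endp v L := by
  obtain ⟨L1, hL⟩ := LER_aft_spec x L h
  conv_rhs => rw [hL]
  rw [endp_append, endp_cons]

theorem ler_endp (x : V) (k : List V) : endp x (ler x k) = endp x k := by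
  induction k generalizing x with
  | nil => simp [ler]
  | cons y l ih =>
    rw [LER_ler_cons]
    split_ifs with h
    · rw [LER_endp_aft x y _ h, endp_cons, endp_cons, ih y]
    · rw [endp_cons, endp_cons, ih y]

theorem ler_sublist (x : V) (k : List V) : (ler x k).Sublist k := by
  induction k generalizing x with
  | nil => simp [ler]
  | cons y l ih =>
    rw [LER_ler_cons]
    split_ifs with h
    · exact (LER_aft_suffix x _).sublist.trans ((ih y).cons_cons y)
    · exact (ih y).cons_cons y

theorem ler_length (x : V) (k : List V) : (ler x k).length ≤ k.length :=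
  (ler_sublist x k).length_le

private theorem LER_chain {G : SimpleGraph V} {x : V} {k : List V} (h : (x :: k).IsChain G.Adj) :
    (x :: ler x k).IsChain G.Adj := by
  induction k generalizing x with
  | nil => simp [ler]
  | cons y l ih =>
    have h0 := List.isChain_cons_cons.1 h
    have h1 := ih h0.2
    rw [LER_ler_cons]
    split_ifs with hx
    · obtain ⟨L1, hL⟩ := LER_aft_spec x _ hx
      rw [hL] at h1
      exact h1.suffix (List.suffix_append L1 _)
    · exact List.isChain_cons_cons.2 ⟨h0.1, h1⟩

theorem ler_Sw {G : SimpleGraph V} {x : V} {k : List V} (h : (x :: k).IsChain G.Adj) : Sw G x (ler x k) :=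
  ⟨LER_chain h, ler_nodup x k⟩

theorem ler_of_nodup {x : V} {k : List V} (h : (x :: k).Nodup) : ler x k = k := by
  induction k generalizing x with
  | nil => simp [ler]
  | cons y l ih =>
    have h0 := List.nodup_cons.1 h
    rw [LER_ler_cons, ih h0.2, if_neg h0.1]

/-- The image under loop erasure. -/
theorem tsum_pf (a : PW V) (x : V) (F : List V → ℝ≥0∞) : ∑' l, pf a x l * F l = ∑' k, a x k * F (ler x k) := by
  have h1 : ∀ l, pf a x l * F l = ∑' k, (if ler x k = l then a x k * F (ler x k) else 0) := by
    intro l
    unfold pf
    rw [← ENNReal.tsum_mul_right]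
    refine tsum_congr fun k => ?_
    split_ifs with h
    · rw [h]
    · simp
  rw [tsum_congr h1, ENNReal.tsum_comm]
  refine tsum_congr fun k => ?_
  rw [tsum_eq_single (ler x k)]
  · simp
  · intro l hl
    rw [if_neg (fun h => hl h.symm)]

theorem ms_pf (a : PW V) (x : V) : ms (pf a) x = ms a x := by
  have h := tsum_pf a x (fun _ => 1)
  simpa [ms] using h

theorem kr_pf (a : PW V) : kr (pf a) = kr a := by
  funext x y
  have h := tsum_pf a x (fun l => if endp x l = y then 1 else 0)
  unfold kr
  have e1 : ∀ l, (if endp x l = y then pf a x l else 0) = pf a x l * (if endp x l = y then 1 else 0) := by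
    intro l; split_ifs <;> simp
  have e2 : ∀ l, (if endp x l = y then a x l else 0) = a x l * (if endp x (ler x l) = y then 1 else 0) := by
    intro l; rw [ler_endp]; split_ifs <;> simp
  rw [tsum_congr e1, tsum_congr e2, h]

end Pool.Agent.SAWG
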