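import Pool.Agent.SAWG.CHA
import Pool.Agent.SAWG.THK

/-!
# SAWG module SCV: comparison with the convolution power

PROOF.  Induction on `k`, for all `x`, `F`.  `k = 0`: `SM 0 = F []`, `∑_{r0} rwk = 1`, `pwr 0 = on`.  Step: sum over the first chunk `c = (τ, rm, p, rq)`: the weight is at most
`ν z τ * [rm is a chain from endp z τ of length J] * ω (endp.. rm) p * [rq is a chain from the end of p of length J]` (fields `cm, lm, cq, lq` of `Gd`).  `tsum_chain`: the sum over `rq` is
`d^J ∑_{rq} rwk y' rq * SM k (endp y' rq) (fun cs => F (t ++ p ++ ll y' rq cs))`, where `t = ler x (r0 ++ τ ++ rm)`, `y' = endp (endp x (r0 ++ τ ++ rm)) p`, so by induction at most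
`d^J (d^(2J))^k ∑_{l'} pwr (cv th ω) k y' l' * F (t ++ p ++ l')`.  The sum over `rm` is `d^J ∑_{rm} rwk ...`.  Then `∑_{r0} rwk ∑_τ ν ∑_{rm} rwk G(ler x (r0 ++ τ ++ rm)) = ∑_t th x t * G t` (`tsum_th`;
the end of `t` is the end of `r0 ++ τ ++ rm`, `ler_endp`, `endp_append`), and `∑_t th x t ∑_p ω (endp x t) p ∑_{l'} pwr .. k (endp ..) l' F (t ++ p ++ l') = ∑_l pwr (cv th ω) (k+1) x l * F l`
(`pwr_succ'`, `tsum_cv` twice, `List.append_assoc`).
-/

set_option autoImplicit false

open scoped ENNReal NNReal Classical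
open Filter Topology

namespace Pool.Agent.SAWG

open Pool.Agent.SWH (Ker idK adK tp endp Sw endp_nil endp_cons endp_append endp_mem)

variable {V : Type}

theorem scv {D : Dat V} {ω : PW V} {ρ : ℝ≥0∞} (h : Ug D.G D.d ρ D.z) (k : ℕ) (x : V) (F : List V → ℝ≥0∞) :
    ∑' r0, rwk D.G D.d D.J x r0 * SM (ckw D ω) cke k (endp x r0) (fun cs => F (ll x r0 cs)) ≤
      ((D.d : ℝ≥0∞) ^ (2 * D.J)) ^ k * ∑' l, pwr (cv (th D) ω) k x l * F l := by
  induction k generalizing x F with
  | zero =>
    have h1 : ∀ r0, rwk D.G D.d D.J x r0 * SM (ckw D ω) cke 0 (endp x r0) (fun cs => F (ll x r0 cs)) =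
        rwk D.G D.d D.J x r0 * F [] := fun r0 => rfl
    rw [tsum_congr h1, ENNReal.tsum_mul_right]
    have h2 : ∑' l, rwk D.G D.d D.J x l = 1 := ms_rwk h D.J x
    rw [h2, one_mul, pow_zero, one_mul]
    have h3 : pwr (cv (th D) ω) 0 x [] * F [] = F [] := by
      change (if ([] : List V) = [] then (1 : ℝ≥0∞) else 0) * F [] = F []
      rw [if_pos rfl, one_mul]
    calc F [] = pwr (cv (th D) ω) 0 x [] * F [] := h3.symm
      _ ≤ ∑' l, pwr (cv (th D) ω) 0 x l * F l := ENNReal.le_tsum _
  | succ k ih =>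
    set G' : List V → ℝ≥0∞ := fun t => ∑' p, ω (endp x t) p * ∑' l', pwr (cv (th D) ω) k (endp (endp x t) p) l' *
      F (t ++ p ++ l') with hG'
    -- bound of the sum over the first chunk
    have key : ∀ r0, SM (ckw D ω) cke (k + 1) (endp x r0) (fun cs => F (ll x r0 cs)) ≤
        ((D.d : ℝ≥0∞) ^ D.J * ((D.d : ℝ≥0∞) ^ (2 * D.J)) ^ k) * ((D.d : ℝ≥0∞) ^ D.J *
          ∑' τ, D.ν (endp x r0) τ * ∑' rm, rwk D.G D.d D.J (endp (endp x r0) τ) rm *
            G' (ler x (r0 ++ τ ++ rm))) := by
      intro r0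
      have e1 : SM (ckw D ω) cke (k + 1) (endp x r0) (fun cs => F (ll x r0 cs)) =
          ∑' c, ckw D ω (endp x r0) c * SM (ckw D ω) cke k (cke (endp x r0) c)
            (fun cs => F (ll x r0 (c :: cs))) := rfl
      rw [e1, tsum_ck]
      have e2 : ((D.d : ℝ≥0∞) ^ D.J * ((D.d : ℝ≥0∞) ^ (2 * D.J)) ^ k) * ((D.d : ℝ≥0∞) ^ D.J *
          ∑' τ, D.ν (endp x r0) τ * ∑' rm, rwk D.G D.d D.J (endp (endp x r0) τ) rm *
            G' (ler x (r0 ++ τ ++ rm))) =
          ∑' τ, ((D.d : ℝ≥0∞) ^ D.J * ((D.d : ℝ≥0∞) ^ (2 * D.J)) ^ k) * (D.ν (endp x r0) τ *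
            ((D.d : ℝ≥0∞) ^ D.J * ∑' rm, rwk D.G D.d D.J (endp (endp x r0) τ) rm *
            G' (ler x (r0 ++ τ ++ rm)))) := by
        rw [ENNReal.tsum_mul_left]
        congr 1
        rw [← ENNReal.tsum_mul_left]
        refine tsum_congr fun τ => ?_
        ring
      rw [e2]
      refine ENNReal.tsum_le_tsum fun τ => ?_
      rw [← tsum_chain h, ← ENNReal.tsum_mul_left, ← ENNReal.tsum_mul_left]
      refine ENNReal.tsum_le_tsum fun rm => ?_
      by_cases hrm : (endp (endp x r0) τ :: rm).IsChain D.G.Adj ∧ rm.length = D.J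
      swap
      · rw [if_neg hrm, mul_zero, mul_zero]
        refine le_of_eq ?_
        refine ENNReal.tsum_eq_zero.2 fun p => ENNReal.tsum_eq_zero.2 fun rq => ?_
        have : ckw D ω (endp x r0) (τ, rm, p, rq) = 0 := by
          unfold ckw
          rw [if_neg, mul_zero]
          intro hg
          exact hrm ⟨hg.cm, hg.lm⟩
        rw [this, zero_mul]
      · rw [if_pos hrm]
        have ht : endp x (ler x (r0 ++ τ ++ rm)) = endp (endp (endp x r0) τ) rm := by
          rw [ler_endp, endp_append, endp_append]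
        have e3 : ((D.d : ℝ≥0∞) ^ D.J * ((D.d : ℝ≥0∞) ^ (2 * D.J)) ^ k) * (D.ν (endp x r0) τ *
            G' (ler x (r0 ++ τ ++ rm))) =
            ∑' p, D.ν (endp x r0) τ * (ω (endp (endp (endp x r0) τ) rm) p * ((D.d : ℝ≥0∞) ^ D.J *
              (((D.d : ℝ≥0∞) ^ (2 * D.J)) ^ k *
              ∑' l', pwr (cv (th D) ω) k (endp (endp (endp (endp x r0) τ) rm) p) l' *
                F (ler x (r0 ++ τ ++ rm) ++ p ++ l')))) := by
          rw [hG']
          simp only []
          rw [ht, ← ENNReal.tsum_mul_left, ← ENNReal.tsum_mul_left]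
          refine tsum_congr fun p => ?_
          ring
        rw [e3]
        refine ENNReal.tsum_le_tsum fun p => ?_
        have e4 := ih (endp (endp (endp (endp x r0) τ) rm) p)
          (fun l' => F (ler x (r0 ++ τ ++ rm) ++ p ++ l'))
        calc ∑' rq, ckw D ω (endp x r0) (τ, rm, p, rq) *
              SM (ckw D ω) cke k (cke (endp x r0) (τ, rm, p, rq))
                (fun cs => F (ll x r0 ((τ, rm, p, rq) :: cs)))
            ≤ ∑' rq, D.ν (endp x r0) τ * (ω (endp (endp (endp x r0) τ) rm) p *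
                (if (endp (endp (endp (endp x r0) τ) rm) p :: rq).IsChain D.G.Adj ∧ rq.length = D.J then
                  SM (ckw D ω) cke k (endp (endp (endp (endp (endp x r0) τ) rm) p) rq)
                    (fun cs => F (ler x (r0 ++ τ ++ rm) ++ p ++
                      ll (endp (endp (endp (endp x r0) τ) rm) p) rq cs)) else 0)) := by
              refine ENNReal.tsum_le_tsum fun rq => ?_
              have e5 : ∀ cs, ll x r0 ((τ, rm, p, rq) :: cs) = ler x (r0 ++ τ ++ rm) ++ p ++
                  ll (endp (endp (endp (endp x r0) τ) rm) p) rq cs := by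
                intro cs
                have : ll x r0 ((τ, rm, p, rq) :: cs) = ler x (r0 ++ τ ++ rm) ++ p ++
                  ll (endp (endp x (r0 ++ τ ++ rm)) p) rq cs := rfl
                rw [this, endp_append x (r0 ++ τ) rm, endp_append x r0 τ]
              simp only [e5]
              have e6 : cke (endp x r0) (τ, rm, p, rq) = endp (endp (endp (endp (endp x r0) τ) rm) p) rq := rfl
              rw [e6]
              unfold ckw
              simp only []
              by_cases hg : Gd D (endp (endp x r0) τ) rm p rq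
              · rw [if_pos hg, if_pos ⟨hg.cq, hg.lq⟩, mul_assoc]
              · rw [if_neg hg, mul_zero, zero_mul]
                exact zero_le
          _ = D.ν (endp x r0) τ * (ω (endp (endp (endp x r0) τ) rm) p * ((D.d : ℝ≥0∞) ^ D.J *
                ∑' rq, rwk D.G D.d D.J (endp (endp (endp (endp x r0) τ) rm) p) rq *
                  SM (ckw D ω) cke k (endp (endp (endp (endp (endp x r0) τ) rm) p) rq)
                    (fun cs => F (ler x (r0 ++ τ ++ rm) ++ p ++
                      ll (endp (endp (endp (endp x r0) τ) rm) p) rq cs)))) := by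
              rw [ENNReal.tsum_mul_left, ENNReal.tsum_mul_left, tsum_chain h]
          _ ≤ _ := by
              gcongr
    calc ∑' r0, rwk D.G D.d D.J x r0 * SM (ckw D ω) cke (k + 1) (endp x r0) (fun cs => F (ll x r0 cs))
        ≤ ∑' r0, rwk D.G D.d D.J x r0 * (((D.d : ℝ≥0∞) ^ D.J * ((D.d : ℝ≥0∞) ^ (2 * D.J)) ^ k) *
          ((D.d : ℝ≥0∞) ^ D.J *
          ∑' τ, D.ν (endp x r0) τ * ∑' rm, rwk D.G D.d D.J (endp (endp x r0) τ) rm *
            G' (ler x (r0 ++ τ ++ rm)))) :=
          ENNReal.tsum_le_tsum fun r0 => mul_le_mul_right (key r0) _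
      _ = ((D.d : ℝ≥0∞) ^ (2 * D.J)) ^ (k + 1) * ∑' r0, rwk D.G D.d D.J x r0 *
          ∑' τ, D.ν (endp x r0) τ * ∑' rm, rwk D.G D.d D.J (endp (endp x r0) τ) rm *
            G' (ler x (r0 ++ τ ++ rm)) := by
          rw [← ENNReal.tsum_mul_left]
          refine tsum_congr fun r0 => ?_
          ring
      _ = ((D.d : ℝ≥0∞) ^ (2 * D.J)) ^ (k + 1) * ∑' t, th D x t * G' t := by
          rw [tsum_th]
      _ = _ := by
          rw [pwr_succ', tsum_cv, tsum_cv]
          congr 1
          refine tsum_congr fun t => ?_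
          rw [hG']
          simp only []
          congr 1
          refine tsum_congr fun p => ?_
          rw [endp_append]

end Pool.Agent.SAWG
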