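import Pool.Agent.SAWG.Defs

/-!
# SAWG module SRQ: a recursive inequality for sequences

PROOF.  `κ ≤ 1/20` because `M ≥ 1`.  Claim `ψ v_k ≤ 2 v_(k+1)` by strong induction.  Assume it for all `j < k`; then `ψ^(k-i) v_i ≤ 2^(k-i) v_k` for `i ≤ k`.  So
`η ψ^2 v_(k-1) ≤ 2 η ψ v_k`, and `∑_{i<k} v_i M^2 κ^(k-i) ψ^(k-i) ψ ≤ ψ v_k M^2 ∑_{t ≥ 1} (2κ)^t ≤ ψ v_k M^2 2κ/(1-2κ) ≤ ψ v_k * (20/9) κ M^2 ≤ ψ v_k /9`.
With `η = 1/24`, `M^2 κ ≤ 1/20`: `ψ v_k ≤ v_(k+1) + ψ v_k (1/6 + 1/20 + 1/12 + 1/9)`, and the bracket is `< 1/2`; `ψ v_k` is finite.  (Convenient: transfer to real numbers; all terms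
are finite.)
-/

set_option autoImplicit false

open scoped ENNReal NNReal Classical
open Filter Topology

namespace Pool.Agent.SAWG

open Pool.Agent.SWH (Ker idK adK tp endp Sw endp_nil endp_cons endp_append endp_mem)

variable {V : Type}

private theorem srq_geom (x : ℝ) (k : ℕ) :
    (∑ j ∈ Finset.range k, x ^ (j + 1)) * (1 - x) = x * (1 - x ^ k) := by
  induction k with
  | zero => simp
  | succ k ih =>
    rw [Finset.sum_range_succ, add_mul, ih]
    ring

private theorem srq_real (a : ℕ → ℝ) (p c m2 : ℝ) (ha : ∀ k, 0 ≤ a k) (hp : 0 ≤ p) (hc : 0 ≤ c) (hm : 1 ≤ m2)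
    (hmc : 20 * (m2 * c) ≤ 1)
    (h : ∀ k, p * a k ≤ a (k + 1) + a k * (4 / 24 + m2 * c) * p
      + (if k = 0 then 0 else a (k - 1) * (p ^ 2 / 24))
      + ∑ i ∈ Finset.range k, a i * (m2 * (c * p) ^ (k - i) * p)) (k : ℕ) :
    p * a k ≤ 2 * a (k + 1) := by
  induction k using Nat.strong_induction_on with
  | _ k ih =>
    have hpow : ∀ t, t ≤ k → p ^ t * a (k - t) ≤ 2 ^ t * a k := by
      intro t
      induction t with
      | zero => intro _; simp
      | succ t iht =>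
        intro ht
        have h1 := ih (k - (t + 1)) (by omega)
        have h2 : k - (t + 1) + 1 = k - t := by omega
        rw [h2] at h1
        have h3 := iht (by omega)
        have h4 : p ^ t * (p * a (k - (t + 1))) ≤ p ^ t * (2 * a (k - t)) :=
          mul_le_mul_of_nonneg_left h1 (pow_nonneg hp t)
        calc p ^ (t + 1) * a (k - (t + 1)) = p ^ t * (p * a (k - (t + 1))) := by ring
          _ ≤ p ^ t * (2 * a (k - t)) := h4
          _ = 2 * (p ^ t * a (k - t)) := by ring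
          _ ≤ 2 * (2 ^ t * a k) := by linarith
          _ = 2 ^ (t + 1) * a k := by ring
    have hc20 : c ≤ 1 / 20 := by nlinarith
    -- the third term
    have ht3 : (if k = 0 then 0 else a (k - 1) * (p ^ 2 / 24)) ≤ p * a k / 12 := by
      by_cases hk : k = 0
      · rw [if_pos hk]
        have := mul_nonneg hp (ha k)
        linarith
      · rw [if_neg hk]
        have h1 := hpow 1 (by omega)
        rw [pow_one, pow_one] at h1
        have h2 : p * (p * a (k - 1)) ≤ p * (2 * a k) := mul_le_mul_of_nonneg_left h1 hp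
        nlinarith
    -- the sum
    set S : ℝ := ∑ j ∈ Finset.range k, (2 * c) ^ (j + 1) with hS
    have hS0 : 0 ≤ S := Finset.sum_nonneg (fun j _ => pow_nonneg (by linarith) _)
    have hS1 : S * (1 - 2 * c) ≤ 2 * c := by
      rw [hS, srq_geom]
      have h1 : 0 ≤ (2 * c) ^ k := pow_nonneg (by linarith) _
      have h2 : 0 ≤ 2 * c := by linarith
      nlinarith
    have hS2 : S ≤ 20 / 9 * c := by nlinarith
    have hsum : ∑ i ∈ Finset.range k, a i * (m2 * (c * p) ^ (k - i) * p) ≤ p * a k * (m2 * S) := by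
      have h1 : ∑ i ∈ Finset.range k, a i * (m2 * (c * p) ^ (k - i) * p) ≤
          ∑ i ∈ Finset.range k, p * a k * m2 * (2 * c) ^ (k - i) := by
        refine Finset.sum_le_sum fun i hi => ?_
        have hik := Finset.mem_range.1 hi
        have h2 := hpow (k - i) (by omega)
        have h3 : k - (k - i) = i := by omega
        rw [h3] at h2
        have h4 : 0 ≤ m2 * c ^ (k - i) * p := mul_nonneg (mul_nonneg (by linarith) (pow_nonneg hc _)) hp
        calc a i * (m2 * (c * p) ^ (k - i) * p) = m2 * c ^ (k - i) * p * (p ^ (k - i) * a i) := by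
              rw [mul_pow]; ring
          _ ≤ m2 * c ^ (k - i) * p * (2 ^ (k - i) * a k) := mul_le_mul_of_nonneg_left h2 h4
          _ = p * a k * m2 * (2 * c) ^ (k - i) := by rw [mul_pow]; ring
      refine h1.trans (le_of_eq ?_)
      rw [← Finset.mul_sum]
      have h5 : ∑ i ∈ Finset.range k, (2 * c) ^ (k - i) = S := by
        rw [hS, ← Finset.sum_range_reflect]
        refine Finset.sum_congr rfl fun i hi => ?_
        have hik := Finset.mem_range.1 hi
        congr 1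
        omega
      rw [h5]
      ring
    have hmS : m2 * S ≤ 1 / 9 := by
      have h1 : m2 * S ≤ m2 * (20 / 9 * c) := mul_le_mul_of_nonneg_left hS2 (by linarith)
      nlinarith
    have hpa := mul_nonneg hp (ha k)
    have hsum2 : p * a k * (m2 * S) ≤ p * a k * (1 / 9) := mul_le_mul_of_nonneg_left hmS hpa
    have ht2 : a k * (4 / 24 + m2 * c) * p ≤ p * a k * (4 / 24 + 1 / 20) := by
      have h1 : a k * (4 / 24 + m2 * c) * p = p * a k * (4 / 24 + m2 * c) := by ring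
      rw [h1]
      refine mul_le_mul_of_nonneg_left ?_ hpa
      linarith
    have hk := h k
    linarith [ha (k + 1)]

theorem srq {v : ℕ → ℝ≥0∞} {ψ κ M : ℝ≥0∞} (hψ : ψ ≠ ⊤) (hv : ∀ k, v k ≠ ⊤) (hM : 1 ≤ M) (hMt : M ≠ ⊤)
    (hκ : 20 * (M ^ 2 * κ) ≤ 1)
    (h : ∀ k, ψ * v k ≤ v (k + 1) + v k * (4 * 24⁻¹ + M ^ 2 * κ) * ψ
      + (if k = 0 then 0 else v (k - 1) * (24⁻¹ * ψ ^ 2))
      + ∑ i ∈ Finset.range k, v i * (M ^ 2 * (κ * ψ) ^ (k - i) * ψ)) (k : ℕ) :
    ψ * v k ≤ 2 * v (k + 1) := by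
  have hκt : κ ≠ ⊤ := by
    intro hk
    rw [hk] at hκ
    have h1 : M ^ 2 ≠ 0 := by
      intro h0
      have h2 : M = 0 := by simpa using h0
      rw [h2] at hM
      simp at hM
    rw [ENNReal.mul_top h1, ENNReal.mul_top (by norm_num)] at hκ
    exact absurd hκ (by simp)
  lift ψ to ℝ≥0 using hψ
  lift v to ℕ → ℝ≥0 using hv
  lift M to ℝ≥0 using hMt
  lift κ to ℝ≥0 using hκt
  beta_reduce at h
  beta_reduce
  have e24 : (24⁻¹ : ℝ≥0∞) = ((24⁻¹ : ℝ≥0) : ℝ≥0∞) := by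
    rw [ENNReal.coe_inv (by norm_num)]
    norm_num
  have hn : ∀ k, ψ * v k ≤ v (k + 1) + v k * (4 * 24⁻¹ + M ^ 2 * κ) * ψ
      + (if k = 0 then 0 else v (k - 1) * (24⁻¹ * ψ ^ 2))
      + ∑ i ∈ Finset.range k, v i * (M ^ 2 * (κ * ψ) ^ (k - i) * ψ) := by
    intro k
    have h1 := h k
    rw [e24] at h1
    by_cases hk : k = 0
    · rw [if_pos hk] at h1 ⊢
      exact_mod_cast h1
    · rw [if_neg hk] at h1 ⊢
      exact_mod_cast h1
  have hM' : 1 ≤ M := by exact_mod_cast hM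
  have hκ' : 20 * (M ^ 2 * κ) ≤ 1 := by exact_mod_cast hκ
  have hr := srq_real (fun k => (v k : ℝ)) ψ κ ((M : ℝ) ^ 2) (fun k => (v k).2) ψ.2 κ.2
    (by
      have h1 : (1 : ℝ) ≤ M := by exact_mod_cast hM'
      nlinarith)
    (by exact_mod_cast hκ')
    (by
      intro k
      have h1 : ((ψ * v k : ℝ≥0) : ℝ) ≤ ((v (k + 1) + v k * (4 * 24⁻¹ + M ^ 2 * κ) * ψ
        + (if k = 0 then 0 else v (k - 1) * (24⁻¹ * ψ ^ 2))
        + ∑ i ∈ Finset.range k, v i * (M ^ 2 * (κ * ψ) ^ (k - i) * ψ) : ℝ≥0) : ℝ) :=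
        NNReal.coe_le_coe.2 (hn k)
      by_cases hk : k = 0
      · rw [if_pos hk] at h1 ⊢
        push_cast at h1
        rw [show (4 / 24 : ℝ) = 4 * 24⁻¹ by norm_num]
        exact h1
      · rw [if_neg hk] at h1 ⊢
        push_cast at h1
        rw [show (4 / 24 : ℝ) = 4 * 24⁻¹ by norm_num, show ((ψ : ℝ) ^ 2 / 24) = 24⁻¹ * (ψ : ℝ) ^ 2 by ring]
        exact h1) k
  have hf : ψ * v k ≤ 2 * v (k + 1) := by
    rw [← NNReal.coe_le_coe]
    push_cast
    exact hr
  exact_mod_cast hf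

end Pool.Agent.SAWG
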