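import Pool.Agent.SAWG.SRC
import Pool.Agent.SAWG.LER

/-!
# SAWG module VAL: valid sequences give self-avoiding walks

PROOF.  Define the state after `cs`: `st x r0 cs = (y, rq)`: `(x, r0)` for `[]`, else `y` = end of the last piece `p`, `rq` = the last end walk.  `ll_snoc`:
`ll x r0 (cs ++ [c]) = ll x r0 cs ++ (ler y (rq ++ c.1 ++ c.2.1) ++ c.2.2.1)`, `endp x (ll x r0 cs) = y`, `endp y rq = EN cke (endp x r0) cs` (induction, `ler_endp`).
Let `W(cs)` be the list: `[x]` for `cs = []`; for `cs = cs1 ++ [c']`: `x :: r0`, the `avl` of the chunks in `cs1` (at their starting points), and `tvl, rml, pvl` of `c'`.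
Claim by induction (snoc): if `Vd (x :: r0) (endp x r0) cs` and `x :: r0` is a chain then `Sw G x (ll x r0 cs)` and every vertex of `x :: ll x r0 cs` lies in `W(cs)`.
Step: `t = ler y (rq ++ τ ++ rm)`, chain, `y :: t` nodup, `t ⊆ rq ++ τ ++ rm`, ends at `y' = endp z' rm` (`z'` the end of `τ`), and then `p` (from `y'`).  To show: `x :: ll cs`, `t`, `p` are disjoint.
`t ++ p` and `W(cs)`: an element of `t` is not `y`; elements of `rq` (previous end walk): `k ≥ 1`: not in `pvl c'` (`Gd.d2` of `c'`), not in `rml c'` (`d3` for the elements of `dropLast`; the last vertex of `rm` is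
the start of `p`, `d2`), not in `tvl c'` (`e3` of `c'`), not in the earlier `avl` (`e4`, `e5` of `c'`: `rq ⊆ qvl`), not in `x :: r0` (`e0`, `e0'` of `c'`); `k = 0`: `W = [x]` and `t` does not contain `x = y`.
Elements of `τ`: not in `x :: r0` (`e0'`, `k ≥ 1`), not in `avl` of the chunks before `c'` (`e5`), not in `tvl c'` (`e2`), `rml c'`, `pvl c'` (`e1`).  Elements of `rm`, `p` (in `qvl c`): not in `x :: r0`
(`e0`, `e0'`), not in `avl c'` (`e4`), not in the earlier `avl` (`e5`).
`t` and `p` (as list of later vertices of `y'`): `rq` and `p`: `p ⊆ qvl c` and `rq ⊆ avl c'` (`e4`) or `rq = r0` (`e0`); `τ` and `p`: `e3`; `rm` and `p`: `d1` for the vertices of `dropLast`, the last vertex of `rm` is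
`y' ∉ p` (`y' :: p` nodup).
Chain: `y :: rq` is a chain (`Gd.cq` of `c'` or `x :: r0`), then `τ` (`nu`), `rm` (`cm`); `ler_Sw`; `p` (`sp`).
-/

set_option autoImplicit false

open scoped ENNReal NNReal Classical
open Filter Topology

namespace Pool.Agent.SAWG

open Pool.Agent.SWH (Ker idK adK tp endp Sw endp_nil endp_cons endp_append endp_mem)

variable {V : Type}

private theorem VAL_sub {z : V} {c : Ck V} {u : V} (h : u ∉ avl z c) :
    u ∉ tvl z c ∧ u ∉ rml z c ∧ u ∉ pvl z c := by
  refine ⟨fun h1 => h (List.mem_append_left _ h1), fun h1 => h (List.mem_append_right _ ?_),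
    fun h1 => h (List.mem_append_right _ ?_)⟩
  · rcases List.mem_cons.1 h1 with h2 | h2
    · rw [h2]
      exact List.mem_cons_self
    · exact List.mem_cons_of_mem _ (List.mem_append_left _ (List.mem_append_left _ h2))
  · rcases List.mem_cons.1 h1 with h2 | h2
    · have h3 := endp_mem (endp z c.1) c.2.1
      rw [← h2] at h3
      rcases List.mem_cons.1 h3 with h4 | h4
      · rw [h4]
        exact List.mem_cons_self
      · exact List.mem_cons_of_mem _ (List.mem_append_left _ (List.mem_append_left _ h4))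
    · exact List.mem_cons_of_mem _ (List.mem_append_left _ (List.mem_append_right _ h2))

private theorem VAL_mem (x : V) (r0 : List V) (cs : List (Ck V)) :
    ∀ u ∈ ll x r0 cs, u ∈ r0 ∨
      ∃ cs1 c cs2, cs = cs1 ++ c :: cs2 ∧ u ∈ avl (EN cke (endp x r0) cs1) c := by
  induction cs generalizing x r0 with
  | nil =>
    intro u hu
    simp [ll] at hu
  | cons c cs ih =>
    intro u hu
    have e1 : endp x (r0 ++ c.1 ++ c.2.1) = endp (endp (endp x r0) c.1) c.2.1 := by
      rw [endp_append, endp_append]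
    rw [ll, List.mem_append, List.mem_append] at hu
    rcases hu with (hu | hu) | hu
    · have h1 := (ler_sublist _ _).subset hu
      rw [List.mem_append, List.mem_append] at h1
      rcases h1 with (h1 | h1) | h1
      · exact Or.inl h1
      · refine Or.inr ⟨[], c, cs, rfl, ?_⟩
        exact List.mem_append_left _ (List.mem_cons_of_mem _ h1)
      · refine Or.inr ⟨[], c, cs, rfl, ?_⟩
        refine List.mem_append_right _ (List.mem_cons_of_mem _ ?_)
        exact List.mem_append_left _ (List.mem_append_left _ h1)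
    · refine Or.inr ⟨[], c, cs, rfl, ?_⟩
      refine List.mem_append_right _ (List.mem_cons_of_mem _ ?_)
      exact List.mem_append_left _ (List.mem_append_right _ hu)
    · rcases ih _ _ u hu with h1 | ⟨cs1, c2, cs2, h1, h2⟩
      · refine Or.inr ⟨[], c, cs, rfl, ?_⟩
        refine List.mem_append_right _ (List.mem_cons_of_mem _ ?_)
        exact List.mem_append_right _ h1
      · refine Or.inr ⟨c :: cs1, c2, cs2, by rw [h1]; rfl, ?_⟩
        rw [e1] at h2
        exact h2

private theorem VAL_end {z : V} {c : Ck V} : endp (endp (endp z c.1) c.2.1) c.2.2.1 ∈ qvl z c := by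
  have h1 := endp_mem (endp z c.1) (c.2.1 ++ c.2.2.1)
  rw [endp_append] at h1
  rcases List.mem_cons.1 h1 with h2 | h2
  · rw [h2]
    exact List.mem_cons_self
  · exact List.mem_cons_of_mem _ (List.mem_append_left _ h2)

/-- The tail of a valid sequence is valid. -/
private theorem VAL_tail {D : Dat V} {U0 : List V} {z : V} {c : Ck V} {cs : List (Ck V)} (hv : Vd D U0 z (c :: cs)) :
    Vd D (endp (endp (endp z c.1) c.2.1) c.2.2.1 :: c.2.2.2) (cke z c) cs := by
  intro cs1 c2 cs2 h
  have h0 := hv (c :: cs1) c2 cs2 (by rw [h]; rfl)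
  have hEN : EN cke z (c :: cs1) = EN cke (cke z c) cs1 := rfl
  have hU : ∀ u, u ∈ endp (endp (endp z c.1) c.2.1) c.2.2.1 :: c.2.2.2 → u ∈ avl z c := by
    intro u hu
    rcases List.mem_cons.1 hu with h1 | h1
    · rw [h1]
      exact List.mem_append_right _ VAL_end
    · exact List.mem_append_right _ (List.mem_cons_of_mem _ (List.mem_append_right _ h1))
  refine ⟨?_, ?_, ?_, ?_, ?_, ?_, ?_, ?_, ?_⟩
  · exact h0.nu
  · exact h0.gd
  · exact h0.e3
  · intro h1 u hu hU0
    subst h1
    exact h0.e4 [] c rfl u hu (hU u hU0)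
  · intro h1 u hu hU0
    exact h0.e5 [] c cs1 rfl h1 u hu (hU u hU0)
  · intro cs3 c' h1 u hu
    exact h0.e1 (c :: cs3) c' (by rw [h1]; rfl) u hu
  · intro cs3 c' h1 u hu
    exact h0.e2 (c :: cs3) c' (by rw [h1]; rfl) u hu
  · intro cs3 c' h1 u hu
    exact h0.e4 (c :: cs3) c' (by rw [h1]; rfl) u hu
  · intro cs3 c' cs4 h1 h2 u hu
    exact h0.e5 (c :: cs3) c' cs4 (by rw [h1]; rfl) h2 u hu

/-- The later vertices do not meet the first piece. -/
private theorem VAL_late {D : Dat V} {U0 : List V} {z : V} {c : Ck V} {cs : List (Ck V)} (hv : Vd D U0 z (c :: cs))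
    {y' : V} (hy : cke z c = endp y' c.2.2.2) {u : V} (hu : u ∈ ll y' c.2.2.2 cs) :
    u ∉ U0 ∧ u ∉ tvl z c ∧ u ∉ rml z c ∧ u ∉ pvl z c := by
  have hc := hv [] c cs rfl
  rcases VAL_mem _ _ _ u hu with h1 | ⟨cs1, c2, cs2, h1, h2⟩
  · have hd3 : u ∉ (endp z c.1 :: c.2.1).dropLast := hc.gd.d3 u h1
    have hd2 : u ∉ pvl z c := hc.gd.d2 u h1
    refine ⟨?_, ?_, ?_, hd2⟩
    · exact hc.e0 rfl u (List.mem_cons_of_mem _ (List.mem_append_right _ h1))
    · intro h2
      exact (hc.e3 u h2).2 (List.mem_cons_of_mem _ h1)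
    · intro h2
      have hne : (endp z c.1 :: c.2.1) ≠ [] := List.cons_ne_nil _ _
      have h3 : (endp z c.1 :: c.2.1).dropLast ++ [(endp z c.1 :: c.2.1).getLast hne] = endp z c.1 :: c.2.1 :=
        List.dropLast_append_getLast hne
      have h4 : u ∈ (endp z c.1 :: c.2.1).dropLast ++ [(endp z c.1 :: c.2.1).getLast hne] := by
        rw [h3]
        exact h2
      rcases List.mem_append.1 h4 with h5 | h5
      · exact hd3 h5
      · rw [List.mem_singleton] at h5
        have h6 : (endp z c.1 :: c.2.1).getLast hne = endp (endp z c.1) c.2.1 := by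
          rw [List.getLast_eq_getLastD]
          rfl
        rw [h6] at h5
        apply hd2
        rw [h5]
        exact List.mem_cons_self
  · rw [← hy] at h2
    have h0 := hv (c :: cs1) c2 cs2 (by rw [h1]; rfl)
    have hEN : EN cke z (c :: cs1) = EN cke (cke z c) cs1 := rfl
    have hU0 : u ∉ U0 := h0.e0' (List.cons_ne_nil _ _) u h2
    by_cases hcs : cs1 = []
    · subst hcs
      rcases List.mem_append.1 h2 with h3 | h3
      · have a1 := h0.e1 [] c rfl u h3
        exact ⟨hU0, h0.e2 [] c rfl u h3, a1.2, a1.1⟩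
      · have a4 : u ∉ avl z c := h0.e4 [] c rfl u h3
        exact ⟨hU0, VAL_sub a4⟩
    · have a5 : u ∉ avl z c := h0.e5 [] c cs1 rfl hcs u h2
      exact ⟨hU0, VAL_sub a5⟩

theorem vd_Sw {D : Dat V} {x : V} {r0 : List V} (hr0 : (x :: r0).IsChain D.G.Adj) {cs : List (Ck V)}
    (hv : Vd D (x :: r0) (endp x r0) cs) : Sw D.G x (ll x r0 cs) := by
  induction cs generalizing x r0 with
  | nil =>
    rw [ll]
    exact ⟨List.isChain_singleton x, List.nodup_singleton x⟩
  | cons c cs ih =>
    obtain ⟨z, hz⟩ : ∃ z, z = endp x r0 := ⟨_, rfl⟩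
    rw [← hz] at hv
    obtain ⟨t, ht⟩ : ∃ t, t = ler x (r0 ++ c.1 ++ c.2.1) := ⟨_, rfl⟩
    obtain ⟨y, hy⟩ : ∃ y, y = endp (endp z c.1) c.2.1 := ⟨_, rfl⟩
    obtain ⟨y', hy'⟩ : ∃ y', y' = endp y c.2.2.1 := ⟨_, rfl⟩
    have hc := hv [] c cs rfl
    have hnu : (z :: c.1).IsChain D.G.Adj := hc.nu
    have hgd : Gd D (endp z c.1) c.2.1 c.2.2.1 c.2.2.2 := hc.gd
    have e1 : endp x (r0 ++ c.1 ++ c.2.1) = y := by
      rw [endp_append, endp_append, ← hz, hy]
    have hcke : cke z c = endp y' c.2.2.2 := by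
      rw [hy', hy]
      rfl
    have hch : (x :: (r0 ++ c.1 ++ c.2.1)).IsChain D.G.Adj := by
      rw [List.append_assoc]
      refine (chain_append_iff D.G x r0 _).2 ⟨hr0, ?_⟩
      rw [← hz]
      exact (chain_append_iff D.G z c.1 c.2.1).2 ⟨hnu, hgd.cm⟩
    have hT : Sw D.G x t := by
      rw [ht]
      exact ler_Sw hch
    have hte : endp x t = y := by
      rw [ht, ler_endp, e1]
    have htm : ∀ u ∈ t, u ∈ x :: r0 ∨ u ∈ tvl z c ∨ u ∈ rml z c := by
      intro u hu
      rw [ht] at hu
      have h1 := (ler_sublist _ _).subset hu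
      rw [List.mem_append, List.mem_append] at h1
      rcases h1 with (h1 | h1) | h1
      · exact Or.inl (List.mem_cons_of_mem _ h1)
      · exact Or.inr (Or.inl (List.mem_cons_of_mem _ h1))
      · exact Or.inr (Or.inr (List.mem_cons_of_mem _ h1))
    have hP : Sw D.G y c.2.2.1 := by
      rw [hy]
      exact hgd.sp
    have hq : (y' :: c.2.2.2).IsChain D.G.Adj := by
      rw [hy', hy]
      exact hgd.cq
    have hv' : Vd D (y' :: c.2.2.2) (endp y' c.2.2.2) cs := by
      have h1 := VAL_tail hv
      rw [hcke, ← hy, ← hy'] at h1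
      exact h1
    have hL := ih hq hv'
    have hyp : y ∉ c.2.2.1 := (List.nodup_cons.1 hP.2).1
    have hpq : ∀ u ∈ c.2.2.1, u ∈ qvl z c := fun u hu =>
      List.mem_cons_of_mem _ (List.mem_append_left _ (List.mem_append_right _ hu))
    -- the pieces `x :: t` and `p` are disjoint
    have hd1 : ∀ u ∈ x :: t, u ∉ c.2.2.1 := by
      intro u hu hup
      have hU : u ∉ x :: r0 := hc.e0 rfl u (hpq u hup)
      rcases List.mem_cons.1 hu with h1 | h1
      · apply hU
        rw [h1]
        exact List.mem_cons_self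
      · rcases htm u h1 with h2 | h2 | h2
        · exact hU h2
        · exact (hc.e3 u h2).1 (List.mem_cons_of_mem _ hup)
        · have hne : (endp z c.1 :: c.2.1) ≠ [] := List.cons_ne_nil _ _
          have h3 : (endp z c.1 :: c.2.1).dropLast ++ [(endp z c.1 :: c.2.1).getLast hne] = endp z c.1 :: c.2.1 :=
            List.dropLast_append_getLast hne
          have h4 : u ∈ (endp z c.1 :: c.2.1).dropLast ++ [(endp z c.1 :: c.2.1).getLast hne] := by
            rw [h3]
            exact h2
          rcases List.mem_append.1 h4 with h5 | h5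
          · exact hgd.d1 u h5 (List.mem_cons_of_mem _ hup)
          · rw [List.mem_singleton] at h5
            have h6 : (endp z c.1 :: c.2.1).getLast hne = endp (endp z c.1) c.2.1 := by
              rw [List.getLast_eq_getLastD]
              rfl
            rw [h6, ← hy] at h5
            rw [h5] at hup
            exact hyp hup
    have hlate : ∀ u ∈ ll y' c.2.2.2 cs, u ∉ x :: r0 ∧ u ∉ tvl z c ∧ u ∉ rml z c ∧ u ∉ pvl z c :=
      fun u hu => VAL_late hv hcke hu
    have hd2 : ∀ u ∈ x :: t, u ∉ ll y' c.2.2.2 cs := by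
      intro u hu huL
      obtain ⟨a1, a2, a3, a4⟩ := hlate u huL
      rcases List.mem_cons.1 hu with h1 | h1
      · apply a1
        rw [h1]
        exact List.mem_cons_self
      · rcases htm u h1 with h2 | h2 | h2
        · exact a1 h2
        · exact a2 h2
        · exact a3 h2
    have hd3 : ∀ u ∈ c.2.2.1, u ∉ ll y' c.2.2.2 cs := by
      intro u hu huL
      exact (hlate u huL).2.2.2 (List.mem_cons_of_mem _ hu)
    have e2 : ll x r0 (c :: cs) = t ++ (c.2.2.1 ++ ll y' c.2.2.2 cs) := by
      rw [ll, e1, ← ht, ← hy', List.append_assoc]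
    rw [e2]
    constructor
    · refine (chain_append_iff D.G x t _).2 ⟨hT.1, ?_⟩
      rw [hte]
      refine (chain_append_iff D.G y _ _).2 ⟨hP.1, ?_⟩
      rw [← hy']
      exact hL.1
    · rw [← List.cons_append]
      refine List.nodup_append.2 ⟨hT.2, ?_, ?_⟩
      · refine List.nodup_append.2 ⟨(List.nodup_cons.1 hP.2).2, (List.nodup_cons.1 hL.2).2, ?_⟩
        intro a ha b hb hab
        rw [← hab] at hb
        exact hd3 a ha hb
      · intro a ha b hb hab
        rw [← hab] at hb
        rcases List.mem_append.1 hb with h1 | h1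
        · exact hd1 a ha h1
        · exact hd2 a ha h1

end Pool.Agent.SAWG
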