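import Pool.Agent.SAWG.SRC
import Pool.Agent.SAWG.SRQ
import Pool.Agent.SAWG.VAL
import Pool.Agent.SAWG.SCV

/-!
# SAWG module LMS: Lemma S

PROOF.  `ψ = Pq D ω x` (constant, `Pq_const`), `ms ω x ≤ ψ < ⊤` (`Pq_ge`, `Pq_top`).  `vk_rec`, `vk_zero`, `vk_le` and `srq` (`M = H + 2J + r + 2`, `hs.eta`): `ψ v_k ≤ 2 v_(k+1)`, `v_0 = 1`, so
`(ψ/2)^m ≤ v_m`.  `[Vd cs] ≤ [Sw (ll x r0 cs)]` when `rwk x r0 ≠ 0` (`vd_Sw`), so `v_m ≤ (d^(2J))^m ∑_l pwr (cv th ω) m x l [Sw l]` (`scv` with `F` = indicator of `Sw`).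
Hence `(ms ω x / (2 d^(2J)))^m ≤ ms (rs Sw (pwr ..)) x` (`d^(2J)` is finite and not 0).
-/

set_option autoImplicit false

open scoped ENNReal NNReal Classical
open Filter Topology

namespace Pool.Agent.SAWG

open Pool.Agent.SWH (Ker idK adK tp endp Sw endp_nil endp_cons endp_append endp_mem)

variable {V : Type}

theorem lemS {D : Dat V} {ω : PW V} {ρ κ K K1 : ℝ≥0∞} {c0 : ℝ≥0} {H : ℕ} (hs : Sc D ρ κ K K1 c0)
    (hω : InvP D.G ω) (hF : ∀ x l, ω x l ≠ 0 → FF D x l) (hlen : ∀ x l, ω x l ≠ 0 → l.length ≤ H)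
    (hM : 20 * (((H : ℝ≥0∞) + 2 * D.J + D.r + 2) ^ 2 * κ) ≤ 1) (x : V) (ht : ms ω x ≠ ⊤) (m : ℕ) :
    (ms ω x / (2 * (D.d : ℝ≥0∞) ^ (2 * D.J))) ^ m ≤ ms (rs (Sw D.G) (pwr (cv (th D) ω) m)) x := by
  set ψ : ℝ≥0∞ := Pq D ω x with hψd
  have hψ : ∀ z, Pq D ω z = ψ := fun z => Pq_const hs.ug.tr hs.cn.inv hω z x
  have h1 : ms ω x ≤ ψ := Pq_ge hs.ug hs.cn hω hF x
  have h2 : ψ ≠ ⊤ := Pq_top hs.ug hs.cn hω ht
  have hv : ∀ k, vk D ω x k ≠ ⊤ := fun k =>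
    ne_top_of_le_ne_top (ENNReal.pow_ne_top h2) (vk_le hs.ug hs.cn hψ x k)
  set M : ℝ≥0∞ := (H : ℝ≥0∞) + 2 * D.J + D.r + 2 with hMd
  have hM1 : 1 ≤ M := by
    rw [hMd]
    exact le_trans (by norm_num : (1 : ℝ≥0∞) ≤ 2) le_add_self
  have hMt : M ≠ ⊤ := by
    rw [hMd]
    have e : (H : ℝ≥0∞) + 2 * D.J + D.r + 2 = ((H + 2 * D.J + D.r + 2 : ℕ) : ℝ≥0∞) := by
      push_cast
      ring
    rw [e]
    exact ENNReal.natCast_ne_top _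
  have hrec : ∀ k, ψ * vk D ω x k ≤ vk D ω x (k + 1) + vk D ω x k * (4 * 24⁻¹ + M ^ 2 * κ) * ψ
      + (if k = 0 then 0 else vk D ω x (k - 1) * (24⁻¹ * ψ ^ 2))
      + ∑ i ∈ Finset.range k, vk D ω x i * (M ^ 2 * (κ * ψ) ^ (k - i) * ψ) := by
    intro k
    have h := vk_rec hs.ug hs.cn hω hψ hlen hMd x k
    rw [hs.eta] at h
    exact h
  have hstep : ∀ k, ψ * vk D ω x k ≤ 2 * vk D ω x (k + 1) := fun k =>
    srq (v := fun k => vk D ω x k) h2 hv hM1 hMt hM hrec k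
  have hpow : ∀ k, (ψ / 2) ^ k ≤ vk D ω x k := by
    intro k
    induction k with
    | zero => rw [pow_zero, vk_zero hs.ug x]
    | succ k ih =>
      have h3 : ψ / 2 * vk D ω x k ≤ vk D ω x (k + 1) := by
        have h4 := hstep k
        rw [mul_comm (2 : ℝ≥0∞), ← ENNReal.div_le_iff_le_mul (Or.inl (by norm_num)) (Or.inl (by norm_num))] at h4
        calc ψ / 2 * vk D ω x k = ψ * vk D ω x k / 2 := by
              rw [div_eq_mul_inv, div_eq_mul_inv]; ring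
          _ ≤ _ := h4
      calc (ψ / 2) ^ (k + 1) = ψ / 2 * (ψ / 2) ^ k := by rw [pow_succ, mul_comm]
        _ ≤ ψ / 2 * vk D ω x k := mul_le_mul' le_rfl ih
        _ ≤ _ := h3
  set Fi : List V → ℝ≥0∞ := fun l => if Sw D.G x l then 1 else 0 with hFi
  have hle : vk D ω x m ≤ ((D.d : ℝ≥0∞) ^ (2 * D.J)) ^ m * ms (rs (Sw D.G) (pwr (cv (th D) ω) m)) x := by
    have h5 : vk D ω x m ≤ ∑' r0, rwk D.G D.d D.J x r0 *
        SM (ckw D ω) cke m (endp x r0) (fun cs => Fi (ll x r0 cs)) := by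
      unfold vk
      refine ENNReal.tsum_le_tsum fun r0 => ?_
      by_cases h0 : rwk D.G D.d D.J x r0 = 0
      · rw [h0, zero_mul, zero_mul]
      · have hch : (x :: r0).IsChain D.G.Adj := by
          unfold rwk at h0
          by_contra hc
          exact h0 (if_neg (fun h => hc h.1))
        refine mul_le_mul' le_rfl (SM_mono _ _ _ _ fun cs _ => ?_)
        by_cases hvd : Vd D (x :: r0) (endp x r0) cs
        · rw [if_pos hvd, hFi]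
          simp only
          rw [if_pos (vd_Sw hch hvd)]
        · rw [if_neg hvd]
          exact zero_le
    refine le_trans h5 (le_trans (scv hs.ug m x Fi) (le_of_eq ?_))
    congr 1
    unfold ms
    refine tsum_congr fun l => ?_
    unfold rs
    rw [hFi]
    simp only
    split_ifs
    · rw [mul_one]
    · rw [mul_zero]
  have hd0 : ((D.d : ℝ≥0∞) ^ (2 * D.J)) ≠ 0 := by
    have : (D.d : ℝ≥0∞) ≠ 0 := by
      have := hs.ug.dpos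
      exact_mod_cast Nat.one_le_iff_ne_zero.mp this
    exact pow_ne_zero _ this
  have hdt : ((D.d : ℝ≥0∞) ^ (2 * D.J)) ≠ ⊤ := ENNReal.pow_ne_top (ENNReal.natCast_ne_top _)
  have h6 : ms ω x / (2 * (D.d : ℝ≥0∞) ^ (2 * D.J)) ≤ ψ / 2 / (D.d : ℝ≥0∞) ^ (2 * D.J) := by
    rw [div_eq_mul_inv, div_eq_mul_inv, div_eq_mul_inv,
      ENNReal.mul_inv (Or.inl (by norm_num)) (Or.inl (by norm_num)), mul_assoc]
    exact mul_le_mul' h1 le_rfl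
  calc (ms ω x / (2 * (D.d : ℝ≥0∞) ^ (2 * D.J))) ^ m
      ≤ (ψ / 2 / (D.d : ℝ≥0∞) ^ (2 * D.J)) ^ m := pow_le_pow_left' h6 m
    _ = (ψ / 2) ^ m * (((D.d : ℝ≥0∞) ^ (2 * D.J)) ^ m)⁻¹ := by
        rw [div_eq_mul_inv, mul_pow, ← ENNReal.inv_pow]
    _ ≤ vk D ω x m * (((D.d : ℝ≥0∞) ^ (2 * D.J)) ^ m)⁻¹ := mul_le_mul' (hpow m) le_rfl
    _ ≤ ((D.d : ℝ≥0∞) ^ (2 * D.J)) ^ m * ms (rs (Sw D.G) (pwr (cv (th D) ω) m)) x *
        (((D.d : ℝ≥0∞) ^ (2 * D.J)) ^ m)⁻¹ := mul_le_mul' hle le_rfl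
    _ = ms (rs (Sw D.G) (pwr (cv (th D) ω) m)) x := by
        rw [mul_comm, ← mul_assoc, ENNReal.inv_mul_cancel (pow_ne_zero _ hd0) (ENNReal.pow_ne_top hdt), one_mul]

end Pool.Agent.SAWG
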