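import Pool.Agent.SAWG.LER

/-!
# SAWG module LRS: loop erasure of (r1)(self-avoiding)(r2)

PROOF.  `ler` works from the end of the list.  Let `v_m = endp (endp x r1) (τ.take m)`.
(1) `ler v (r2)` has length at most `|r2|`.
(2) For every `m ≤ |τ|`: `ler v_m (τ.drop m ++ r2) = (τ.drop m).take j ++ b` with `m + j ≤ |τ|`, `|b| ≤ |r2|` (and the vertices are the ones of the walk).  Downward induction
on `m` (induction on the list `τ.drop m`): in the step the vertex `v_m` is put in front of `v_(m+1) :: ((τ.drop (m+1)).take j ++ b)`; `v_m` does not occur among `v_(m+1)` and the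
vertices of `τ.drop (m+1)` (nodup), so either it does not occur at all (`j` increases by 1) or it occurs in `b` only, then the result is `aft v_m b`, `j = 0`.
(3) For every suffix `s` of `r1` from the vertex `w`: the result `t = ler w (s ++ τ ++ r2)` is either of the form
(A) `t.length = i + j + |b|`, `i ≤ |s|`, `|b| ≤ |r2|`, `(t.drop i).take j = (τ.drop m).take j`, `m + j ≤ |τ|`, `endp w (t.take i) = v_m`, or (B) `|t| ≤ |s| + |r2|`.
Induction on `s`: putting `w` in front of `y :: t'` : if `w` does not occur: (A) with `i + 1` or (B).  If it occurs in the first part of (A): `i` decreases.  If it occurs in the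
middle part: `i = 0`, `m` increases, `j` decreases.  If it occurs in `b`: the result is a suffix of `b`: (B).  In case (B): the result is shorter.
The statement is (3) for `s = r1` (`t.length ≤ i + j + r2.length`).
-/

set_option autoImplicit false

open scoped ENNReal NNReal Classical
open Filter Topology

namespace Pool.Agent.SAWG

open Pool.Agent.SWH (Ker idK adK tp endp Sw endp_nil endp_cons endp_append endp_mem)

variable {V : Type}

private theorem lrs_aft {x : V} {l : List V} (h : x ∈ l) : ∃ p, l = p ++ x :: aft x l := by
  induction l with
  | nil => simp at h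
  | cons y l ih =>
    by_cases hxy : x = y
    · refine ⟨[], ?_⟩
      unfold aft
      rw [if_pos hxy, hxy]
      rfl
    · have hl : x ∈ l := by
        rcases List.mem_cons.mp h with h1 | h1
        · exact absurd h1 hxy
        · exact h1
      obtain ⟨p, hp⟩ := ih hl
      refine ⟨y :: p, ?_⟩
      unfold aft
      rw [if_neg hxy, List.cons_append, ← hp]

private theorem lrs_left {x : V} {l1 : List V} (l2 : List V) (h : x ∈ l1) : aft x (l1 ++ l2) = aft x l1 ++ l2 := by
  induction l1 with
  | nil => simp at h
  | cons y l ih =>
    by_cases hxy : x = y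
    · rw [List.cons_append]
      simp only [aft, if_pos hxy]
    · have hl : x ∈ l := by
        rcases List.mem_cons.mp h with h1 | h1
        · exact absurd h1 hxy
        · exact h1
      rw [List.cons_append]
      simp only [aft, if_neg hxy]
      exact ih hl

private theorem lrs_right {x : V} {l1 : List V} (l2 : List V) (h : x ∉ l1) : aft x (l1 ++ l2) = aft x l2 := by
  induction l1 with
  | nil => rfl
  | cons y l ih =>
    have hxy : x ≠ y := fun e => h (e ▸ List.mem_cons_self ..)
    have hl : x ∉ l := fun e => h (List.mem_cons_of_mem _ e)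
    rw [List.cons_append]
    simp only [aft, if_neg hxy]
    exact ih hl

private theorem lrs_len {x : V} {l : List V} (h : x ∈ l) : (aft x l).length + 1 ≤ l.length := by
  obtain ⟨p, hp⟩ := lrs_aft h
  have := congrArg List.length hp
  simp only [List.length_append, List.length_cons] at this
  omega

private theorem lrs_base (r2 : List V) (τ : List V) : ∀ v : V, (v :: τ).Nodup →
    ∃ c b p2, ler v (τ ++ r2) = c ++ b ∧ τ = c ++ p2 ∧ b.length ≤ r2.length := by
  induction τ with
  | nil => exact fun v _ => ⟨[], ler v r2, [], rfl, rfl, ler_length v r2⟩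
  | cons y τ ih =>
    intro v hv
    obtain ⟨c, b, p2, h1, h2, h3⟩ := ih y (List.nodup_cons.mp hv).2
    rw [List.cons_append]
    unfold ler
    have hvn := (List.nodup_cons.mp hv).1
    have hvyc : v ∉ y :: c := by
      intro hm
      refine hvn ?_
      rcases List.mem_cons.mp hm with e | e
      · rw [e]; exact List.mem_cons_self ..
      · rw [h2]; exact List.mem_cons_of_mem _ (List.mem_append_left _ e)
    split_ifs with hm
    · rw [h1] at hm ⊢
      rw [← List.cons_append] at hm ⊢
      have hb : v ∈ b := (List.mem_append.mp hm).resolve_left hvyc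
      refine ⟨[], aft v b, y :: τ, ?_, rfl, ?_⟩
      · rw [lrs_right _ hvyc]; rfl
      · have := lrs_len hb
        omega
    · exact ⟨y :: c, b, p2, by rw [h1]; rfl, by rw [h2]; rfl, h3⟩

private theorem lrs_core (τ r2 : List V) (s : List V) : ∀ w : V, (endp w s :: τ).Nodup →
    (ler w (s ++ τ ++ r2)).length ≤ s.length + r2.length ∨
    ∃ a c b p1 p2, ler w (s ++ τ ++ r2) = a ++ c ++ b ∧ a.length ≤ s.length ∧ b.length ≤ r2.length ∧
      τ = p1 ++ c ++ p2 ∧ endp w a = endp (endp w s) p1 := by
  induction s with
  | nil =>
    intro w hw
    obtain ⟨c, b, p2, h1, h2, h3⟩ := lrs_base r2 τ w hw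
    right
    exact ⟨[], c, b, [], p2, by simpa using h1, le_rfl, h3, by simpa using h2, rfl⟩
  | cons y s ih =>
    intro w hw
    rw [endp_cons] at hw
    have hI := ih y hw
    have e0 : (y :: s) ++ τ ++ r2 = y :: (s ++ τ ++ r2) := rfl
    rw [e0]
    set t := ler y (s ++ τ ++ r2) with ht
    have e1 : ler w (y :: (s ++ τ ++ r2)) = if w ∈ y :: t then aft w (y :: t) else y :: t := by
      rw [ht]; rfl
    rw [e1, endp_cons]
    rcases hI with hB | ⟨a, c, b, p1, p2, h1, h2, h3, h4, h5⟩
    · left
      split_ifs with hm
      · have := lrs_len hm
        simp only [List.length_cons] at this ⊢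
        omega
      · simp only [List.length_cons]
        omega
    · split_ifs with hm
      · have e2 : y :: t = (y :: a) ++ (c ++ b) := by rw [h1]; simp
        rw [e2] at hm ⊢
        by_cases hA : w ∈ y :: a
        · right
          obtain ⟨p, hp⟩ := lrs_aft hA
          refine ⟨aft w (y :: a), c, b, p1, p2, ?_, ?_, h3, h4, ?_⟩
          · rw [lrs_left _ hA, List.append_assoc]
          · have := lrs_len hA
            simp only [List.length_cons] at this ⊢
            omega
          · rw [← h5]
            have h6 : endp y (y :: a) = endp y (p ++ w :: aft w (y :: a)) := congrArg (endp y) hp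
            rw [endp_cons, endp_append, endp_cons] at h6
            exact h6.symm
        · rw [lrs_right _ hA]
          have hm2 : w ∈ c ++ b := (List.mem_append.mp hm).resolve_left hA
          by_cases hC : w ∈ c
          · right
            obtain ⟨p, hp⟩ := lrs_aft hC
            refine ⟨[], aft w c, b, p1 ++ (p ++ [w]), p2, ?_, by simp, h3, ?_, ?_⟩
            · rw [lrs_left _ hC]; rfl
            · rw [h4]
              conv_lhs => rw [hp]
              simp
            · rw [endp_nil, endp_append, endp_append]
              rfl
          · left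
            rw [lrs_right _ hC]
            have hb : w ∈ b := (List.mem_append.mp hm2).resolve_left hC
            have := lrs_len hb
            simp only [List.length_cons]
            omega
      · right
        refine ⟨y :: a, c, b, p1, p2, by rw [h1]; simp, ?_, h3, h4, ?_⟩
        · simp only [List.length_cons]; omega
        · rw [endp_cons]; exact h5

theorem ler_three {x : V} {r1 τ r2 : List V} (hτ : (endp x r1 :: τ).Nodup) :
    (ler x (r1 ++ τ ++ r2)).length ≤ r1.length + r2.length ∨
    ∃ i j m : ℕ, i ≤ r1.length ∧ i + j ≤ (ler x (r1 ++ τ ++ r2)).length ∧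
      (ler x (r1 ++ τ ++ r2)).length ≤ i + j + r2.length ∧ m + j ≤ τ.length ∧
      ((ler x (r1 ++ τ ++ r2)).drop i).take j = (τ.drop m).take j ∧
      endp x ((ler x (r1 ++ τ ++ r2)).take i) = endp (endp x r1) (τ.take m) := by
  rcases lrs_core τ r2 r1 x hτ with h | ⟨a, c, b, p1, p2, h1, h2, h3, h4, h5⟩
  · exact Or.inl h
  · right
    refine ⟨a.length, c.length, p1.length, h2, ?_, ?_, ?_, ?_, ?_⟩
    · rw [h1]; simp only [List.length_append]; omega
    · rw [h1]; simp only [List.length_append]; omega
    · rw [h4]; simp only [List.length_append]; omega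
    · rw [h1, h4, List.append_assoc, List.append_assoc, List.drop_left, List.drop_left, List.take_left, List.take_left]
    · rw [h1, h4, List.append_assoc, List.append_assoc, List.take_left, List.take_left]
      exact h5

end Pool.Agent.SAWG
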