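import Pool.Agent.SAWG.NDf
import Pool.Agent.SAWG.INV
import Pool.Agent.SAWL.BALL

/-!
# SAWG module MTA: orbits of stabilisers

`orb G x y` is the number of elements of `O x y = {v | ∃ φ, φ x = x ∧ φ y = v}`.
PROOFS.  `orb_finite`: `O x y` is contained in the ball about `x` of radius `dist x y` (`SAWL.dist_iso`, `SAWL.ball_finite`).  `orb_pos`: `y ∈ O x y`.  `orb_map`: `O (φ x) (φ y) = φ '' O x y`.
`orb_cocycle`: let `Γ = G ≃g G` (a group), `Γ_x` the stabiliser.  `orb x y = [Γ_x : Γ_x ∩ Γ_y]` (orbit-stabiliser theorem, `MulAction.index_stabilizer`-type lemma, or by hand: the map `φ ↦ φ y`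
from `Γ_x` onto `O x y` has as fibres the cosets of `Γ_x ∩ Γ_y`).  With `N = Γ_x ∩ Γ_y ∩ Γ_w`: `[Γ_x : N] = orb x y * [Γ_x ∩ Γ_y : N]`, `[Γ_y : N] = orb y x * [Γ_x ∩ Γ_y : N]`, and cyclically; all indices are finite
and positive (`N` has finite index in `Γ_x`: the pairs `(φ y, φ w)` take finitely many values).  So `orb x y / orb y x = [Γ_x : N]/[Γ_y : N]`, and the product over the cycle is 1.
(`Subgroup.relIndex`, `Subgroup.relIndex_mul_relIndex`.)
-/

set_option autoImplicit false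

open scoped ENNReal NNReal Classical
open Filter Topology

namespace Pool.Agent.SAWG

open Pool.Agent.SWH (Ker idK adK tp endp Sw endp_nil endp_cons endp_append endp_mem)

variable {V : Type}

theorem orb_finite {G : SimpleGraph V} (hc : G.Connected) (hfin : ∀ x, (G.neighborSet x).Finite) (x y : V) :
    ({v | ∃ φ : G ≃g G, φ x = x ∧ φ y = v} : Set V).Finite := by
  refine (Pool.Agent.SAWL.ball_finite G hc hfin (G.dist x y) x).subset ?_
  rintro v ⟨φ, h1, rfl⟩
  change G.dist x (φ y) ≤ G.dist x y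
  have h2 := Pool.Agent.SAWL.dist_iso G φ x y
  rw [h1] at h2
  exact h2.le

theorem orb_pos {G : SimpleGraph V} (hc : G.Connected) (hfin : ∀ x, (G.neighborSet x).Finite) (x y : V) :
    0 < orb G x y := by
  unfold orb
  rw [Set.ncard_pos (orb_finite hc hfin x y)]
  exact ⟨y, RelIso.refl _, rfl, rfl⟩

theorem orb_map {G : SimpleGraph V} (φ : G ≃g G) (x y : V) : orb G (φ x) (φ y) = orb G x y := by
  unfold orb
  have h : ({v | ∃ ψ : G ≃g G, ψ (φ x) = φ x ∧ ψ (φ y) = v} : Set V) =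
      φ '' {v | ∃ ψ : G ≃g G, ψ x = x ∧ ψ y = v} := by
    ext v
    constructor
    · rintro ⟨ψ, h1, rfl⟩
      refine ⟨φ.symm (ψ (φ y)), ⟨(φ.trans ψ).trans φ.symm, ?_, rfl⟩, φ.apply_symm_apply _⟩
      change φ.symm (ψ (φ x)) = x
      rw [h1, φ.symm_apply_apply]
    · rintro ⟨w, ⟨ψ, h1, rfl⟩, rfl⟩
      refine ⟨(φ.symm.trans ψ).trans φ, ?_, ?_⟩
      · change φ (ψ (φ.symm (φ x))) = φ x
        rw [φ.symm_apply_apply, h1]
      · change φ (ψ (φ.symm (φ y))) = φ (ψ y)
        rw [φ.symm_apply_apply]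
  rw [h, Set.ncard_image_of_injective _ φ.injective]

/-- The action of the automorphism group on the vertices. -/
private def MTA_act (G : SimpleGraph V) : MulAction (G ≃g G) V where
  smul φ v := φ v
  one_smul _ := rfl
  mul_smul _ _ _ := rfl

/-- The stabiliser of a vertex. -/
private def MTA_st (G : SimpleGraph V) (x : V) : Subgroup (G ≃g G) where
  carrier := {φ | φ x = x}
  mul_mem' {a b} ha hb := by
    change a (b x) = x
    have h1 : b x = x := hb
    have h2 : a x = x := ha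
    rw [h1, h2]
  one_mem' := rfl
  inv_mem' {a} ha := by
    change a.symm x = x
    have h2 : a x = x := ha
    rw [RelIso.symm_apply_eq, h2]

private theorem MTA_rel (G : SimpleGraph V) (x y : V) : (MTA_st G y).relIndex (MTA_st G x) = orb G x y := by
  letI := MTA_act G
  have h := MulAction.index_stabilizer (MTA_st G x) y
  have h1 : MulAction.stabilizer (MTA_st G x) y = (MTA_st G y).subgroupOf (MTA_st G x) := by
    ext a
    rw [MulAction.mem_stabilizer_iff, Subgroup.mem_subgroupOf]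
    rfl
  rw [h1] at h
  unfold Subgroup.relIndex orb
  rw [h]
  congr 1
  ext v
  constructor
  · rintro ⟨a, rfl⟩
    exact ⟨a.1, a.2, rfl⟩
  · rintro ⟨φ, h2, rfl⟩
    exact ⟨⟨φ, h2⟩, rfl⟩

theorem orb_cocycle {G : SimpleGraph V} (hc : G.Connected) (hfin : ∀ x, (G.neighborSet x).Finite) (x y w : V) :
    orb G x y * orb G y w * orb G w x = orb G y x * orb G w y * orb G x w := by
  set A := MTA_st G x with hA
  set B := MTA_st G y with hB
  set C := MTA_st G w with hC
  -- the index of the intersection of all three in a stabiliser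
  have key : ∀ u v t : V, (MTA_st G u ⊓ MTA_st G v ⊓ MTA_st G t).relIndex (MTA_st G u) =
      (MTA_st G t).relIndex (MTA_st G u ⊓ MTA_st G v) * orb G u v := by
    intro u v t
    have h1 := Subgroup.relIndex_mul_relIndex (MTA_st G u ⊓ MTA_st G v ⊓ MTA_st G t)
      (MTA_st G u ⊓ MTA_st G v) (MTA_st G u) inf_le_left inf_le_left
    rw [Subgroup.inf_relIndex_left, Subgroup.inf_relIndex_left, MTA_rel] at h1
    exact h1.symm
  have pos : ∀ u v t : V, (MTA_st G t).relIndex (MTA_st G u ⊓ MTA_st G v) ≠ 0 := by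
    intro u v t h0
    have h1 := Subgroup.relIndex_eq_zero_of_le_right (inf_le_left : MTA_st G u ⊓ MTA_st G v ≤ MTA_st G u) h0
    rw [MTA_rel] at h1
    exact absurd h1 (orb_pos hc hfin u t).ne'
  have e1 := key x y w
  have e2 := key y x w
  have e3 := key y w x
  have e4 := key w y x
  have e5 := key w x y
  have e6 := key x w y
  rw [← hA, ← hB, ← hC] at e1 e2 e3 e4 e5 e6
  rw [inf_comm B A] at e2
  rw [show B ⊓ C ⊓ A = A ⊓ B ⊓ C by rw [inf_comm (B ⊓ C) A, inf_assoc]] at e3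
  rw [show C ⊓ B ⊓ A = A ⊓ B ⊓ C by rw [inf_comm (C ⊓ B) A, inf_comm C B, inf_assoc], inf_comm C B] at e4
  rw [show C ⊓ A ⊓ B = A ⊓ B ⊓ C by rw [inf_assoc, inf_comm C (A ⊓ B)]] at e5
  rw [show A ⊓ C ⊓ B = A ⊓ B ⊓ C by rw [inf_assoc, inf_comm C B, inf_assoc], inf_comm A C] at e6
  have p1 := pos x y w
  have p2 := pos y w x
  have p3 := pos w x y
  rw [← hA, ← hB, ← hC] at p1 p2 p3
  have hp : C.relIndex (A ⊓ B) * A.relIndex (B ⊓ C) * B.relIndex (C ⊓ A) ≠ 0 :=
    mul_ne_zero (mul_ne_zero p1 p2) p3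
  apply Nat.eq_of_mul_eq_mul_left (Nat.pos_of_ne_zero hp)
  calc C.relIndex (A ⊓ B) * A.relIndex (B ⊓ C) * B.relIndex (C ⊓ A) *
        (orb G x y * orb G y w * orb G w x)
      = (C.relIndex (A ⊓ B) * orb G x y) * (A.relIndex (B ⊓ C) * orb G y w) *
        (B.relIndex (C ⊓ A) * orb G w x) := by ring
    _ = (C.relIndex (A ⊓ B) * orb G y x) * (A.relIndex (B ⊓ C) * orb G w y) *
        (B.relIndex (C ⊓ A) * orb G x w) := by
      rw [← e1, ← e2, ← e3, ← e4, ← e5, ← e6]
      ring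
    _ = C.relIndex (A ⊓ B) * A.relIndex (B ⊓ C) * B.relIndex (C ⊓ A) *
        (orb G y x * orb G w y * orb G x w) := by ring

end Pool.Agent.SAWG
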