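import Pool.Agent.SAWG.MTA

/-!
# SAWG module MTB: mass transport with the modular function

PROOF.  Fix `x` and write `O y = {v | ∃ φ, φ x = x ∧ φ y = v}` (orbit of `y` under the stabiliser of `x`), `n y = orb G x y = |O y|`.  For each `y` choose `g_y` with `g_y x = y` (`htr`) and put `y' = g_y⁻¹ x` (so `K x y = K y' x`, apply
`g_y⁻¹` to both arguments).  `O y'` depends only on `O y` (if `v = k y`, `k` in the stabiliser, then `g_v = k g_y h` with `h` in the stabiliser, `v' = h⁻¹ g_y⁻¹ k⁻¹ x = h⁻¹ y'`), `|O y'| = orb G x y' = orb G (g_y x) (g_y y') = orb G y x`,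
and `orb G y' x = orb G (g_y y') (g_y x) = orb G x y`.  The map on orbits `[y] ↦ [y']` is an involution: `(y')' ∈ O y` (`g_{y'} x = y'`; `g_y g_{y'} x = g_y y' = x`, so `g_y g_{y'}` is in the stabiliser and `(y')' = g_{y'}⁻¹ x = (g_y g_{y'})⁻¹ y`).
So `∑_y K x y = ∑_{orbits} n * K x y = ∑_{orbits [y]} orb x y * K y' x = ∑_{orbits [u]} (u = y') orb u x * K u x = ∑_u K u x * orb u x / orb x u`.
In Lean: `∑' y, K x y = ∑' y, ∑' v, [v ∈ O y] K x y / n y` and symmetrically; it is convenient to show `∑' y, F y = ∑' y, ∑' u, [u ∈ O (y')] (F y / |O (y')|)`-type identities: for `F` constant on orbits,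
`∑_y F y = ∑_y ∑_u [u ∈ O y'] F y / orb y x` (each inner sum is `F y`), exchange: `= ∑_u ∑_y [u ∈ O y'] F y / orb y x`, and for fixed `u` the set `{y : u ∈ O y'}` is `O (u')`, with `orb G x u' = orb G u x` elements, on which `F y = K x y = K u x`
and `orb y x = orb x u` (since `u ∈ O y'`, `orb x u = orb x y' = orb y x`): the inner sum is `orb u x * K u x / orb x u`.
-/

set_option autoImplicit false

open scoped ENNReal NNReal Classical
open Filter Topology

namespace Pool.Agent.SAWG

open Pool.Agent.SWH (Ker idK adK tp endp Sw endp_nil endp_cons endp_append endp_mem)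

variable {V : Type}

theorem mtp_orb {G : SimpleGraph V} (htr : ∀ v w : V, ∃ φ : G ≃g G, φ v = w) (hc : G.Connected)
    (hfin : ∀ x, (G.neighborSet x).Finite) {K : Ker V} (hK : InvG G K) (x : V) :
    ∑' y, K x y = ∑' y, K y x * ((orb G y x : ℝ≥0∞) / (orb G x y : ℝ≥0∞)) := by
  choose g hg using htr x
  have hgs : ∀ y, (g y).symm y = x := fun y => by
    rw [RelIso.symm_apply_eq]
    exact (hg y).symm
  have hgi : ∀ y z, g y ((g y).symm z) = z := fun y z => (g y).apply_symm_apply z
  set O : V → Set V := fun w => {v | ∃ φ : G ≃g G, φ x = x ∧ φ w = v} with hO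
  have cnt : ∀ (w : V) (c : ℝ≥0∞), ∑' u, (if u ∈ O w then c else 0) = (orb G x w : ℝ≥0∞) * c := by
    intro w c
    have hf := orb_finite hc hfin x w
    rw [tsum_eq_sum (s := hf.toFinset)]
    · rw [Finset.sum_congr rfl (fun u hu => if_pos (hf.mem_toFinset.1 hu)), Finset.sum_const, nsmul_eq_mul]
      unfold orb
      rw [Set.ncard_eq_toFinset_card _ hf]
    · intro u hu
      exact if_neg fun h => hu (hf.mem_toFinset.2 h)
  have hsym : ∀ u y, u ∈ O ((g y).symm x) → y ∈ O ((g u).symm x) := by
    rintro u y ⟨k, hk1, hk2⟩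
    have e1 : k.symm u = (g y).symm x := by
      rw [RelIso.symm_apply_eq]
      exact hk2.symm
    have e2 : k.symm x = x := by
      rw [RelIso.symm_apply_eq]
      exact hk1.symm
    refine ⟨((g u).trans k.symm).trans (g y), ?_, ?_⟩
    · show g y (k.symm (g u x)) = x
      rw [hg, e1, hgi]
    · show g y (k.symm (g u ((g u).symm x))) = y
      rw [hgi, e2, hg]
  have hKy : ∀ y, K x y = K ((g y).symm x) x := by
    intro y
    have h1 := hK (g y).symm x y
    rw [hgs] at h1
    exact h1.symm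
  have ho : ∀ y, orb G x ((g y).symm x) = orb G y x := by
    intro y
    have h1 := orb_map (g y) x ((g y).symm x)
    rw [hg, hgi] at h1
    exact h1.symm
  have hpos : ∀ a b, (orb G a b : ℝ≥0∞) ≠ 0 := by
    intro a b
    exact_mod_cast (orb_pos hc hfin a b).ne'
  have htop : ∀ a b, (orb G a b : ℝ≥0∞) ≠ ⊤ := fun a b => ENNReal.natCast_ne_top _
  calc ∑' y, K x y = ∑' y, ∑' u, (if u ∈ O ((g y).symm x) then K x y * (orb G y x : ℝ≥0∞)⁻¹ else 0) := by
        refine tsum_congr fun y => ?_
        rw [cnt, ho, mul_comm (K x y), ← mul_assoc, ENNReal.mul_inv_cancel (hpos _ _) (htop _ _), one_mul]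
    _ = ∑' u, ∑' y, (if u ∈ O ((g y).symm x) then K x y * (orb G y x : ℝ≥0∞)⁻¹ else 0) :=
        ENNReal.tsum_comm
    _ = ∑' u, ∑' y, (if y ∈ O ((g u).symm x) then K u x * (orb G x u : ℝ≥0∞)⁻¹ else 0) := by
        refine tsum_congr fun u => tsum_congr fun y => ?_
        by_cases h : u ∈ O ((g y).symm x)
        · rw [if_pos h, if_pos (hsym u y h)]
          obtain ⟨k, hk1, hk2⟩ := h
          have e1 : K x y = K u x := by
            rw [hKy y, ← hK k, hk1, hk2]
          have e2 : orb G y x = orb G x u := by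
            rw [← ho y, ← orb_map k, hk1, hk2]
          rw [e1, e2]
        · rw [if_neg h, if_neg (fun h' => h (hsym y u h'))]
    _ = ∑' y, K y x * ((orb G y x : ℝ≥0∞) / (orb G x y : ℝ≥0∞)) := by
        refine tsum_congr fun u => ?_
        rw [cnt, ho, div_eq_mul_inv]
        ring

end Pool.Agent.SAWG
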