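import Pool.Agent.SAWG.MTB

/-!
# SAWG module MTC: unimodular or height function

PROOF.  If `orb G x y = orb G y x` for all `x, y` then `mtp_orb` is `Uni G` (`n / n = 1`, `orb_pos`).  Otherwise fix a vertex `o` and put `h y = log (orb G o y / orb G y o)`.  By `orb_cocycle` for `o, x, y`:
`exp (h x - h y) = (orb o x / orb x o) (orb y o / orb o y) = orb y x / orb x y`.  `inv`: `exp (h (φ x) - h (φ y)) = orb (φ y) (φ x) / orb (φ x) (φ y)` is the same (`orb_map`), take logarithms.
`mtp`: `mtp_orb`.  `ne`: `orb x y ≠ orb y x` gives `h x ≠ h y`.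
-/

set_option autoImplicit false

open scoped ENNReal NNReal Classical
open Filter Topology

namespace Pool.Agent.SAWG

open Pool.Agent.SWH (Ker idK adK tp endp Sw endp_nil endp_cons endp_append endp_mem)

variable {V : Type}

theorem uni_or {G : SimpleGraph V} (htr : ∀ v w : V, ∃ φ : G ≃g G, φ v = w) (hc : G.Connected)
    (hfin : ∀ x, (G.neighborSet x).Finite) : Uni G ∨ ∃ h : V → ℝ, Ng G h := by
  by_cases hu : ∀ x y, orb G x y = orb G y x
  · left
    intro K hK x
    rw [mtp_orb htr hc hfin hK x]
    refine tsum_congr fun y => ?_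
    rw [hu y x, ENNReal.div_self, mul_one]
    · exact_mod_cast (orb_pos hc hfin x y).ne'
    · exact ENNReal.natCast_ne_top _
  · right
    push Not at hu
    obtain ⟨a, b, hab⟩ := hu
    have hpos : ∀ x y, (0 : ℝ) < orb G x y := fun x y => by exact_mod_cast orb_pos hc hfin x y
    set h : V → ℝ := fun y => Real.log ((orb G a y : ℝ) / orb G y a) with hh
    have key : ∀ x y, Real.exp (h x - h y) = (orb G y x : ℝ) / orb G x y := by
      intro x y
      have h1 := orb_cocycle hc hfin a x y
      have h2 : (orb G a x : ℝ) * orb G x y * orb G y a = orb G x a * orb G y x * orb G a y := by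
        exact_mod_cast h1
      rw [Real.exp_sub, hh]
      dsimp only
      rw [Real.exp_log (div_pos (hpos _ _) (hpos _ _)), Real.exp_log (div_pos (hpos _ _) (hpos _ _))]
      have p1 := (hpos a y).ne'
      have p2 := (hpos y a).ne'
      have p3 := (hpos x a).ne'
      have p4 := (hpos x y).ne'
      rw [div_div_div_eq, div_eq_div_iff (mul_ne_zero p3 p1) p4]
      linarith
    refine ⟨h, htr, hfin, hc, ?_, ?_, a, b, ?_⟩
    · intro φ x y
      apply Real.exp_injective
      rw [key, key, orb_map, orb_map]
    · intro K hK x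
      rw [mtp_orb htr hc hfin hK x]
      refine tsum_congr fun y => ?_
      rw [key, ENNReal.ofReal_div_of_pos (hpos x y), ENNReal.ofReal_natCast, ENNReal.ofReal_natCast]
    · intro hab'
      have h1 := key a b
      rw [hab', sub_self, Real.exp_zero, eq_comm, div_eq_one_iff_eq (hpos a b).ne'] at h1
      exact hab (by exact_mod_cast h1.symm)

end Pool.Agent.SAWG
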