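import Pool.Agent.SAWG.LBL
import Pool.Agent.SAWG.DRB
import Pool.Agent.SAWG.FCB
import Pool.Agent.SAWG.ALF

/-!
# SAWG module NCA: new connectors: the density

PROOF.  `n = l.length`, `w_a = vt x l a`, `S = cv th om`, `y_a = lam UU a`, `Q_a = ∏_{a' < a} (1 + y_a')` (finite, `≥ 1`).  For all `m`, `c ≤ n`:
(i) `pwr S m x (l.take c) ≠ 0` implies `c = 0` or `Gg (vs ν) (pst R x l c) w_c`; (ii) `(lam/3)^m pwr S m x (l.take c) ≤ z^c`.
Induction on `m`.  `m = 0`: only `c = 0`.  Step: `pwr S (m+1) x (l.take c) = ∑_{a ≤ c} pwr S m x (l.take a) * S w_a (sg l a c)` (`cv_take`), `S w_a (sg l a c) = ∑_{a ≤ b ≤ c} th w_a (sg l a b) * om w_b (sg l b c)` (`cv_take`/`cv_pos`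
for the walk `sg l a c`, `vt_sg`, `sg_sg`).  A nonzero term has `sg l b c ∈ FF`, `R ≤ c - b`, `b - a ≤ r'` (`th_len`): (i) by `FF_end`, `pst_sub`, `Gg_mono`.  `a = c` is impossible (`R ≥ 1`).  By (i) for `a` (for `a = 0`:
`pst_zero`, `good_one`) and `FF_start`, `fut_sub`, `Gg_mono`: `th w_a (sg l a b) = z^(b-a) uu a b`.  `om w_b (sg l b c) ≤ z^(c-b) (PP ..)⁻¹ ≤ z^(c-b) * 3 * (∏_{Ico a c} (1 + y))⁻¹` (`PP_piece`, `θ ≤ 1`).
So `(lam/3)^(m+1) pwr S (m+1) x (l.take c) ≤ z^c ∑_{a<c} y_a Q_a / Q_c ≤ z^c` (`∏_{Ico a c} = Q_c/Q_a`, `prod_tel`).  The claim is (ii) for `c = n`.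
-/

set_option autoImplicit false

open scoped ENNReal NNReal Classical
open Filter Topology

namespace Pool.Agent.SAWG

open Pool.Agent.SWH (Ker idK adK tp endp Sw endp_nil endp_cons endp_append endp_mem)

variable {V : Type}

private theorem NCA_cv (a b : PW V) (x : V) (l : List V) {i c : ℕ} (hi : i ≤ c) (hc : c ≤ l.length) :
    cv a b (vt x l i) (sg l i c) =
      ∑ j ∈ Finset.range (c - i + 1), a (vt x l i) (sg l i (i + j)) * b (vt x l (i + j)) (sg l (i + j) c) := by
  have hlen : (sg l i c).length = c - i := sg_length l hi hc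
  rw [cv_pos, hlen]
  refine Finset.sum_congr rfl fun j hj => ?_
  have hj' : j ≤ c - i := by
    have := Finset.mem_range.1 hj
    omega
  have e1 : (sg l i c).take j = sg l i (i + j) := by
    have h := sg_sg l (b := i) (c := c) (i := 0) (j := j) (Nat.zero_le _) (by omega)
    rw [sg_zero, Nat.add_zero] at h
    exact h
  have e2 : sg (sg l i c) j (c - i) = sg l (i + j) c := by
    have h := sg_sg l (b := i) (c := c) (i := j) (j := c - i) hj' (by omega)
    rw [h]
    congr 1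
    omega
  rw [e1, e2, vt_sg x l (by omega : i + j ≤ c)]

private theorem NCA_UU {D : Dat V} (R : ℕ) (x : V) (l : List V) (a k : ℕ) :
    ∑ j ∈ Finset.range k, (if j ≤ rp D then uu D R x l a (a + j) else 0) ≤ UU D R x l a := by
  have e1 : UU D R x l a = ∑ j ∈ Finset.range (rp D + 1), uu D R x l a (a + j) := by
    unfold UU
    have h : Finset.Icc a (a + rp D) = Finset.Ico a (a + rp D + 1) := by
      ext b
      rw [Finset.mem_Icc, Finset.mem_Ico]
      omega
    rw [h, Finset.sum_Ico_eq_sum_range]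
    congr 1
    congr 1
    omega
  rw [e1, ← Finset.sum_filter]
  refine Finset.sum_le_sum_of_subset ?_
  intro j hj
  rw [Finset.mem_filter] at hj
  rw [Finset.mem_range]
  omega

private theorem NCA_om {D : Dat V} {R H : ℕ} {lam θ : ℝ≥0∞} {x : V} {l : List V} (h : om D R H lam θ x l ≠ 0) :
    FF D x l ∧ R ≤ l.length ∧ l.length ≤ H := by
  by_contra hc
  unfold om at h
  rw [if_neg hc] at h
  exact h rfl

private theorem NCA_end {D : Dat V} {R H : ℕ} {lam θ : ℝ≥0∞} {x : V} {l : List V} {b c : ℕ} (hbc : b ≤ c)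
    (hc : c ≤ l.length) (h : om D R H lam θ (vt x l b) (sg l b c) ≠ 0) :
    b + R ≤ c ∧ Gg D (vs D.ν) (pst R x l c) (vt x l c) ∧ Gg D (vb D.ν) (fut R x l b) (vt x l b) := by
  obtain ⟨h1, h2, -⟩ := NCA_om h
  rw [sg_length l hbc hc] at h2
  have h3 : b + R ≤ c := by omega
  refine ⟨h3, ?_, ?_⟩
  · have h4 := FF_end h1
    rw [endp_sg x l hbc] at h4
    exact Gg_mono (pst_sub R x l hc h3) h4
  · exact Gg_mono (fut_sub R x l hc h3) (FF_start h1)

/-- One step: the bound for the new factor. -/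
private theorem NCA_step {D : Dat V} {ρ κ K K1 : ℝ≥0∞} {c0 : ℝ≥0} (hs : Sc D ρ κ K K1 c0) {R H : ℕ} (hR : 1 ≤ R)
    (hR' : rp D ≤ R) {lam θ : ℝ≥0∞} (hθ : θ ≤ 1) (h3 : (1 + lam * um D K1) ^ (2 * R + rp D) ≤ 3)
    {x : V} {l : List V} (hw : Sw D.G x l) {a c : ℕ} (hac : a ≤ c) (hc : c ≤ l.length)
    (hg : Gg D (vs D.ν) (pst R x l a) (vt x l a)) :
    lam / 3 * cv (th D) (om D R H lam θ) (vt x l a) (sg l a c) ≤
      D.z ^ (c - a) * (lam * UU D R x l a * (∏ i ∈ Finset.Ico a c, (1 + lam * UU D R x l i))⁻¹) := by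
  have hz0 : D.z ≠ 0 := hs.ug.zpos
  have hz1 : D.z ≤ 1 := hs.ug.zle
  have hzt : D.z ≠ ⊤ := ne_top_of_le_ne_top ENNReal.one_ne_top hz1
  rw [NCA_cv _ _ x l hac hc]
  set Pi : ℝ≥0∞ := ∏ i ∈ Finset.Ico a c, (1 + lam * UU D R x l i) with hPi
  have hterm : ∀ j ∈ Finset.range (c - a + 1),
      th D (vt x l a) (sg l a (a + j)) * om D R H lam θ (vt x l (a + j)) (sg l (a + j) c) ≤
        3 * D.z ^ (c - a) * Pi⁻¹ * (if j ≤ rp D then uu D R x l a (a + j) else 0) := by
    intro j hj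
    have hj' : a + j ≤ c := by
      have := Finset.mem_range.1 hj
      omega
    by_cases h1 : th D (vt x l a) (sg l a (a + j)) = 0
    · rw [h1, zero_mul]
      exact zero_le
    by_cases h2 : om D R H lam θ (vt x l (a + j)) (sg l (a + j) c) = 0
    · rw [h2, mul_zero]
      exact zero_le
    have hjr : j ≤ rp D := by
      have h := th_len hs.cn h1
      rw [sg_length l (by omega) (by omega)] at h
      omega
    obtain ⟨hbR, -, hgb⟩ := NCA_end hj' hc h2
    have huu : uu D R x l a (a + j) = D.z⁻¹ ^ j * th D (vt x l a) (sg l a (a + j)) := by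
      unfold uu
      rw [if_pos ⟨by omega, by omega, hg, hgb⟩]
      congr 2
      omega
    have hth : th D (vt x l a) (sg l a (a + j)) = D.z ^ j * uu D R x l a (a + j) := by
      rw [huu, ← mul_assoc, ← mul_pow, ENNReal.mul_inv_cancel hz0 hzt, one_pow, one_mul]
    have hPP := PP_piece (lam := lam) hz0 hz1 hs.k1 h3 hR' x l (a := a) (b := a + j) (c := c) (by omega) (by omega)
      hj' hc
    have hPinv : (PP D R lam (vt x l (a + j)) (sg l (a + j) c))⁻¹ ≤ 3 * Pi⁻¹ := by
      have h5 : (3 * PP D R lam (vt x l (a + j)) (sg l (a + j) c))⁻¹ ≤ Pi⁻¹ := ENNReal.inv_le_inv.2 hPP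
      have h6 : (3 * PP D R lam (vt x l (a + j)) (sg l (a + j) c))⁻¹ =
          3⁻¹ * (PP D R lam (vt x l (a + j)) (sg l (a + j) c))⁻¹ :=
        ENNReal.mul_inv (Or.inl (by norm_num)) (Or.inl (by norm_num))
      rw [h6] at h5
      calc (PP D R lam (vt x l (a + j)) (sg l (a + j) c))⁻¹
          = 3 * (3⁻¹ * (PP D R lam (vt x l (a + j)) (sg l (a + j) c))⁻¹) := by
            rw [← mul_assoc, ENNReal.mul_inv_cancel (by norm_num) (by norm_num), one_mul]
        _ ≤ 3 * Pi⁻¹ := mul_le_mul' le_rfl h5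
    have hom : om D R H lam θ (vt x l (a + j)) (sg l (a + j) c) ≤ D.z ^ (c - (a + j)) * (3 * Pi⁻¹) := by
      obtain ⟨q1, q2, q3⟩ := NCA_om h2
      unfold om
      rw [if_pos ⟨q1, q2, q3⟩, sa_sg D.z hw hj' hc]
      calc θ ^ (sg l (a + j) c).length * D.z ^ (c - (a + j)) *
            (PP D R lam (vt x l (a + j)) (sg l (a + j) c))⁻¹
          ≤ 1 * D.z ^ (c - (a + j)) * (3 * Pi⁻¹) :=
            mul_le_mul' (mul_le_mul' (pow_le_one' hθ _) le_rfl) hPinv
        _ = D.z ^ (c - (a + j)) * (3 * Pi⁻¹) := by rw [one_mul]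
    rw [if_pos hjr, hth]
    calc D.z ^ j * uu D R x l a (a + j) * om D R H lam θ (vt x l (a + j)) (sg l (a + j) c)
        ≤ D.z ^ j * uu D R x l a (a + j) * (D.z ^ (c - (a + j)) * (3 * Pi⁻¹)) := mul_le_mul' le_rfl hom
      _ = 3 * (D.z ^ j * D.z ^ (c - (a + j))) * Pi⁻¹ * uu D R x l a (a + j) := by ring
      _ = 3 * D.z ^ (c - a) * Pi⁻¹ * uu D R x l a (a + j) := by
          rw [← pow_add]
          congr 4
          omega
  calc lam / 3 * ∑ j ∈ Finset.range (c - a + 1),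
        th D (vt x l a) (sg l a (a + j)) * om D R H lam θ (vt x l (a + j)) (sg l (a + j) c)
      ≤ lam / 3 * ∑ j ∈ Finset.range (c - a + 1),
        3 * D.z ^ (c - a) * Pi⁻¹ * (if j ≤ rp D then uu D R x l a (a + j) else 0) :=
        mul_le_mul' le_rfl (Finset.sum_le_sum hterm)
    _ = lam / 3 * (3 * D.z ^ (c - a) * Pi⁻¹ *
        ∑ j ∈ Finset.range (c - a + 1), (if j ≤ rp D then uu D R x l a (a + j) else 0)) := by
        rw [← Finset.mul_sum]
    _ ≤ lam / 3 * (3 * D.z ^ (c - a) * Pi⁻¹ * UU D R x l a) :=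
        mul_le_mul' le_rfl (mul_le_mul' le_rfl (NCA_UU R x l a _))
    _ = (3 * 3⁻¹) * (D.z ^ (c - a) * (lam * UU D R x l a * Pi⁻¹)) := by
        rw [div_eq_mul_inv]
        ring
    _ = D.z ^ (c - a) * (lam * UU D R x l a * Pi⁻¹) := by
        rw [ENNReal.mul_inv_cancel (by norm_num) (by norm_num), one_mul]

private theorem NCA_zero {D : Dat V} {R H : ℕ} (hR : 1 ≤ R) {lam θ : ℝ≥0∞} (x : V) (l : List V) {c : ℕ}
    (hc : c ≤ l.length) : cv (th D) (om D R H lam θ) (vt x l c) (sg l c c) = 0 := by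
  rw [NCA_cv _ _ x l le_rfl hc]
  refine Finset.sum_eq_zero fun j hj => ?_
  have hj0 : j = 0 := by
    have := Finset.mem_range.1 hj
    omega
  subst hj0
  by_cases h2 : om D R H lam θ (vt x l (c + 0)) (sg l (c + 0) c) = 0
  · rw [h2, mul_zero]
  · exfalso
    obtain ⟨h3, -, -⟩ := NCA_end (by omega) hc h2
    omega

private theorem NCA_main {D : Dat V} {ρ κ K K1 : ℝ≥0∞} {c0 : ℝ≥0} (hs : Sc D ρ κ K K1 c0) {R H : ℕ} (hR : 1 ≤ R)
    (hR' : rp D ≤ R) {lam θ : ℝ≥0∞} (hlt : lam ≠ ⊤) (hθ : θ ≤ 1) (h3 : (1 + lam * um D K1) ^ (2 * R + rp D) ≤ 3)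
    {x : V} {l : List V} (hw : Sw D.G x l) (m : ℕ) : ∀ c ≤ l.length,
      (pwr (cv (th D) (om D R H lam θ)) m x (l.take c) ≠ 0 → Gg D (vs D.ν) (pst R x l c) (vt x l c)) ∧
      (lam / 3) ^ m * pwr (cv (th D) (om D R H lam θ)) m x (l.take c) ≤ D.z ^ c := by
  have hz0 : D.z ≠ 0 := hs.ug.zpos
  have hz1 : D.z ≤ 1 := hs.ug.zle
  have hUt : ∀ i, UU D R x l i ≠ ⊤ := by
    intro i
    refine ne_top_of_le_ne_top ?_ (UU_le hz0 hz1 hs.k1 R x l i)
    unfold um
    exact ENNReal.mul_ne_top (ENNReal.add_ne_top.2 ⟨ENNReal.natCast_ne_top _, ENNReal.one_ne_top⟩) hs.k1t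
  have hft : ∀ i, 1 + lam * UU D R x l i ≠ ⊤ := fun i =>
    ENNReal.add_ne_top.2 ⟨ENNReal.one_ne_top, ENNReal.mul_ne_top hlt (hUt i)⟩
  have hf0 : ∀ i, 1 + lam * UU D R x l i ≠ 0 := by
    intro i h
    rw [add_eq_zero] at h
    exact one_ne_zero h.1
  set Q : ℕ → ℝ≥0∞ := fun c => ∏ i ∈ Finset.range c, (1 + lam * UU D R x l i) with hQ
  have hQt : ∀ c, Q c ≠ ⊤ := fun c => ENNReal.prod_ne_top fun i _ => hft i
  have hQ0 : ∀ c, Q c ≠ 0 := fun c => Finset.prod_ne_zero_iff.2 fun i _ => hf0 i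
  have hQI : ∀ a c, a ≤ c → (∏ i ∈ Finset.Ico a c, (1 + lam * UU D R x l i))⁻¹ = Q a * (Q c)⁻¹ := by
    intro a c hac
    have e : Q a * ∏ i ∈ Finset.Ico a c, (1 + lam * UU D R x l i) = Q c :=
      Finset.prod_range_mul_prod_Ico _ hac
    rw [← e, ENNReal.mul_inv (Or.inl (hQ0 a)) (Or.inl (hQt a)), ← mul_assoc,
      ENNReal.mul_inv_cancel (hQ0 a) (hQt a), one_mul]
  induction m with
  | zero =>
    intro c hc
    have hp : pwr (cv (th D) (om D R H lam θ)) 0 x (l.take c) = if l.take c = [] then 1 else 0 := rfl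
    constructor
    · intro h
      rw [hp] at h
      have h4 : l.take c = [] := by
        by_contra h5
        rw [if_neg h5] at h
        exact h rfl
      have h6 : c = 0 := by
        have h7 := congrArg List.length h4
        rw [List.length_take, List.length_nil] at h7
        omega
      subst h6
      rw [pst_zero, vt_zero]
      exact (good_one hs x).1
    · rw [hp, pow_zero, one_mul]
      split_ifs with h4
      · have h6 : c = 0 := by
          have h7 := congrArg List.length h4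
          rw [List.length_take, List.length_nil] at h7
          omega
        rw [h6, pow_zero]
      · exact zero_le
  | succ m ih =>
    intro c hc
    have hexp : pwr (cv (th D) (om D R H lam θ)) (m + 1) x (l.take c) =
        ∑ a ∈ Finset.range (c + 1), pwr (cv (th D) (om D R H lam θ)) m x (l.take a) *
          cv (th D) (om D R H lam θ) (vt x l a) (sg l a c) := by
      have h : pwr (cv (th D) (om D R H lam θ)) (m + 1) =
          cv (pwr (cv (th D) (om D R H lam θ)) m) (cv (th D) (om D R H lam θ)) := rfl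
      rw [h, cv_take _ _ x l hc]
    constructor
    · intro h
      rw [hexp] at h
      obtain ⟨a, ha, hne⟩ := Finset.exists_ne_zero_of_sum_ne_zero h
      have hac : a ≤ c := by
        have := Finset.mem_range.1 ha
        omega
      have h2 := right_ne_zero_of_mul hne
      rw [NCA_cv _ _ x l hac hc] at h2
      obtain ⟨j, hj, hne2⟩ := Finset.exists_ne_zero_of_sum_ne_zero h2
      have hj' : a + j ≤ c := by
        have := Finset.mem_range.1 hj
        omega
      exact (NCA_end hj' hc (right_ne_zero_of_mul hne2)).2.1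
    · rw [hexp, Finset.sum_range_succ, NCA_zero hR x l hc, mul_zero, add_zero]
      have hterm : ∀ a ∈ Finset.range c, (lam / 3) ^ (m + 1) *
          (pwr (cv (th D) (om D R H lam θ)) m x (l.take a) *
          cv (th D) (om D R H lam θ) (vt x l a) (sg l a c)) ≤
          D.z ^ c * (Q c)⁻¹ * (Q a * (lam * UU D R x l a)) := by
        intro a ha
        have hac : a ≤ c := (Finset.mem_range.1 ha).le
        obtain ⟨i1, i2⟩ := ih a (hac.trans hc)
        by_cases h0 : pwr (cv (th D) (om D R H lam θ)) m x (l.take a) = 0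
        · rw [h0, zero_mul, mul_zero]
          exact zero_le
        have hst := NCA_step (H := H) hs hR hR' hθ h3 hw hac hc (i1 h0)
        rw [hQI a c hac] at hst
        calc (lam / 3) ^ (m + 1) * (pwr (cv (th D) (om D R H lam θ)) m x (l.take a) *
              cv (th D) (om D R H lam θ) (vt x l a) (sg l a c))
            = ((lam / 3) ^ m * pwr (cv (th D) (om D R H lam θ)) m x (l.take a)) *
              (lam / 3 * cv (th D) (om D R H lam θ) (vt x l a) (sg l a c)) := by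
              rw [pow_succ]
              ring
          _ ≤ D.z ^ a * (D.z ^ (c - a) * (lam * UU D R x l a * (Q a * (Q c)⁻¹))) := mul_le_mul' i2 hst
          _ = (D.z ^ a * D.z ^ (c - a)) * (Q c)⁻¹ * (Q a * (lam * UU D R x l a)) := by ring
          _ = D.z ^ c * (Q c)⁻¹ * (Q a * (lam * UU D R x l a)) := by
              rw [← pow_add, Nat.add_sub_cancel' hac]
      rw [Finset.mul_sum]
      calc ∑ a ∈ Finset.range c, (lam / 3) ^ (m + 1) *
            (pwr (cv (th D) (om D R H lam θ)) m x (l.take a) *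
            cv (th D) (om D R H lam θ) (vt x l a) (sg l a c))
          ≤ ∑ a ∈ Finset.range c, D.z ^ c * (Q c)⁻¹ * (Q a * (lam * UU D R x l a)) := Finset.sum_le_sum hterm
        _ = D.z ^ c * (Q c)⁻¹ * ∑ a ∈ Finset.range c, Q a * (lam * UU D R x l a) := by rw [Finset.mul_sum]
        _ ≤ D.z ^ c * (Q c)⁻¹ * Q c := by
            refine mul_le_mul' le_rfl ?_
            have h := prod_tel (fun i => lam * UU D R x l i) c
            calc ∑ a ∈ Finset.range c, Q a * (lam * UU D R x l a)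
                ≤ 1 + ∑ a ∈ Finset.range c, Q a * (lam * UU D R x l a) := le_add_self
              _ = Q c := h
        _ = D.z ^ c := by
            rw [mul_assoc, ENNReal.inv_mul_cancel (hQ0 c) (hQt c), mul_one]

theorem nca {D : Dat V} {ρ κ K K1 : ℝ≥0∞} {c0 : ℝ≥0} (hs : Sc D ρ κ K K1 c0) {R H : ℕ} (hR : 1 ≤ R) (hR' : rp D ≤ R)
    {lam θ : ℝ≥0∞} (hlt : lam ≠ ⊤) (hθ : θ ≤ 1) (h3 : (1 + lam * um D K1) ^ (2 * R + rp D) ≤ 3) (m : ℕ) {x : V} {l : List V}
    (hw : Sw D.G x l) : (lam / 3) ^ m * pwr (cv (th D) (om D R H lam θ)) m x l ≤ sa D.G D.z x l := by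
  have h := (NCA_main (H := H) hs hR hR' hlt hθ h3 hw m l.length le_rfl).2
  rw [List.take_length] at h
  unfold sa
  rw [if_pos hw]
  exact h

end Pool.Agent.SAWG
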