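import Pool.Agent.SAWG.NCA
import Pool.Agent.SAWG.LMS
import Pool.Agent.SAWG.THK

/-!
# SAWG module NCB: new connectors

PROOF.  `om` is invariant (`InvP_om`), supported on `FF`, lengths `≤ H`; `Ψ = ms om x` is constant.  `W = rs Sw (pwr (cv th om) m)` is invariant, `Zm = ms W x` constant, `(Ψ/(2 d^(2J)))^m ≤ Zm ≤ Ψ^m` (`lemS`, `ms_pwr_le`,
`th_ms`), so `Zm ≠ 0, ⊤`.  `ν' = sc Zm⁻¹ W`.  `one`: `Zm⁻¹ Zm = 1`.  `len`: a nonzero value of `pwr (cv th om) m` needs length `≤ m (rp D + H)` (induction; `th_len`).  `kb`: `kr W ≤ kr (pwr ..)`, `KB (kr (cv th om)) (κ Ψ)` (`th_KB`, `KB_ms`), so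
`KB (kr ν') (Zm⁻¹ (κΨ)^m)`, `Zm⁻¹ ≤ (2 d^(2J)/Ψ)^m`.  `le`: `nca`: `W x l ≤ (3/lam)^m sa x l`.
-/

set_option autoImplicit false

open scoped ENNReal NNReal Classical
open Filter Topology

namespace Pool.Agent.SAWG

open Pool.Agent.SWH (Ker idK adK tp endp Sw endp_nil endp_cons endp_append endp_mem)

variable {V : Type}

private theorem NCB_om {D : Dat V} {R H : ℕ} {lam θ : ℝ≥0∞} {x : V} {l : List V} (h : om D R H lam θ x l ≠ 0) :
    FF D x l ∧ R ≤ l.length ∧ l.length ≤ H := by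
  by_contra hc
  unfold om at h
  rw [if_neg hc] at h
  exact h rfl

private theorem NCB_cvlen {a b : PW V} {A B : ℕ} (ha : ∀ x l, a x l ≠ 0 → l.length ≤ A)
    (hb : ∀ x l, b x l ≠ 0 → l.length ≤ B) (x : V) (l : List V) (h : cv a b x l ≠ 0) : l.length ≤ A + B := by
  unfold cv at h
  obtain ⟨i, hi, hne⟩ := Finset.exists_ne_zero_of_sum_ne_zero h
  have h1 := ha _ _ (left_ne_zero_of_mul hne)
  have h2 := hb _ _ (right_ne_zero_of_mul hne)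
  rw [List.length_take] at h1
  rw [List.length_drop] at h2
  have h3 := Finset.mem_range.1 hi
  omega

private theorem NCB_pwrlen {a : PW V} {A : ℕ} (ha : ∀ x l, a x l ≠ 0 → l.length ≤ A) (m : ℕ) :
    ∀ (x : V) (l : List V), pwr a m x l ≠ 0 → l.length ≤ m * A := by
  induction m with
  | zero =>
    intro x l h
    have h1 : pwr a 0 x l = if l = [] then 1 else 0 := rfl
    rw [h1] at h
    by_cases h2 : l = []
    · rw [h2]
      simp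
    · rw [if_neg h2] at h
      exact absurd rfl h
  | succ m ih =>
    intro x l h
    have h1 : pwr a (m + 1) = cv (pwr a m) a := rfl
    rw [h1] at h
    have h2 := NCB_cvlen ih ha x l h
    calc l.length ≤ m * A + A := h2
      _ = (m + 1) * A := by ring

theorem ncb {D : Dat V} {ρ κ K K1 : ℝ≥0∞} {c0 : ℝ≥0} (hs : Sc D ρ κ K K1 c0) {R H : ℕ} (hR : 1 ≤ R) (hR' : rp D ≤ R)
    {lam θ : ℝ≥0∞} (hl0 : lam ≠ 0) (hlt : lam ≠ ⊤) (hθ : θ ≤ 1) (h3 : (1 + lam * um D K1) ^ (2 * R + rp D) ≤ 3)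
    (hM : 20 * (((H : ℝ≥0∞) + 2 * D.J + D.r + 2) ^ 2 * κ) ≤ 1) (x : V) (hΨ0 : ms (om D R H lam θ) x ≠ 0)
    (hΨt : ms (om D R H lam θ) x ≠ ⊤) (m : ℕ) :
    ∃ ν' : PW V, Cn D.G D.z (m * (H + rp D)) ((2 * (D.d : ℝ≥0∞) ^ (2 * D.J) * κ) ^ m)
      ((6 * (D.d : ℝ≥0∞) ^ (2 * D.J) / (lam * ms (om D R H lam θ) x)) ^ m) ν' := by
  obtain ⟨ω, hωd⟩ : ∃ ω : PW V, ω = om D R H lam θ := ⟨_, rfl⟩
  obtain ⟨Ψ, hΨd⟩ : ∃ Ψ : ℝ≥0∞, Ψ = ms (om D R H lam θ) x := ⟨_, rfl⟩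
  rw [← hΨd] at hΨ0 hΨt ⊢
  have hωi : InvP D.G ω := by
    rw [hωd]
    exact InvP_om hs.cn.inv R H lam θ
  have hωF : ∀ y l, ω y l ≠ 0 → FF D y l := by
    intro y l h
    rw [hωd] at h
    exact (NCB_om h).1
  have hωl : ∀ y l, ω y l ≠ 0 → l.length ≤ H := by
    intro y l h
    rw [hωd] at h
    exact (NCB_om h).2.2
  have hωm : ∀ y, ms ω y = Ψ := by
    intro y
    rw [hΨd, ← hωd]
    exact ms_const hs.ug.tr hωi y x
  obtain ⟨S, hSd⟩ : ∃ S : PW V, S = cv (th D) ω := ⟨_, rfl⟩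
  have hSi : InvP D.G S := by
    rw [hSd]
    exact InvP_cv (InvP_th hs.cn.inv) hωi
  have hSm : ∀ y, ms S y ≤ Ψ := by
    intro y
    rw [hSd, ms_cv (c := Ψ) hωm, th_ms hs.ug hs.cn, one_mul]
  have hSk : KB (kr S) (κ * Ψ) := by
    rw [hSd, kr_cv]
    exact KB_cmp (th_KB hs.ug hs.cn) (KB_ms hs.ug.uni hωi fun y => (hωm y).le)
  have hSl : ∀ y l, S y l ≠ 0 → l.length ≤ H + rp D := by
    intro y l h
    rw [hSd] at h
    have h1 := NCB_cvlen (A := rp D) (B := H) (fun y l h => th_len hs.cn h) hωl y l h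
    omega
  obtain ⟨W, hWd⟩ : ∃ W : PW V, W = rs (Sw D.G) (pwr S m) := ⟨_, rfl⟩
  have hWi : InvP D.G W := by
    rw [hWd]
    exact InvP_rs (InvP_pwr hSi m) (fun φ y l => Sw_map φ y l)
  have hWle : ∀ y l, W y l ≤ pwr S m y l := by
    intro y l
    rw [hWd]
    unfold rs
    split_ifs
    · exact le_rfl
    · exact zero_le
  obtain ⟨Z, hZd⟩ : ∃ Z : ℝ≥0∞, Z = ms W x := ⟨_, rfl⟩
  have hZ : ∀ y, ms W y = Z := by
    intro y
    rw [hZd]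
    exact ms_const hs.ug.tr hWi y x
  have hZlow : (Ψ / (2 * (D.d : ℝ≥0∞) ^ (2 * D.J))) ^ m ≤ Z := by
    have h := lemS hs hωi hωF hωl hM x (by rw [hωm]; exact hΨt) m
    rw [hωm, ← hSd, ← hWd, ← hZd] at h
    exact h
  have hZup : Z ≤ Ψ ^ m := by
    rw [hZd]
    exact (ms_mono x (hWle x)).trans (ms_pwr_le hSm m x)
  have hd0 : (2 * (D.d : ℝ≥0∞) ^ (2 * D.J)) ≠ 0 := by
    have h : (D.d : ℝ≥0∞) ≠ 0 := by
      have := hs.ug.dpos
      exact_mod_cast Nat.one_le_iff_ne_zero.mp this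
    exact mul_ne_zero (by norm_num) (pow_ne_zero _ h)
  have hdt : (2 * (D.d : ℝ≥0∞) ^ (2 * D.J)) ≠ ⊤ :=
    ENNReal.mul_ne_top (by norm_num) (ENNReal.pow_ne_top (ENNReal.natCast_ne_top _))
  have hZt : Z ≠ ⊤ := ne_top_of_le_ne_top (ENNReal.pow_ne_top hΨt) hZup
  have hZ0 : Z ≠ 0 := by
    intro h
    rw [h] at hZlow
    have h1 : (Ψ / (2 * (D.d : ℝ≥0∞) ^ (2 * D.J))) ^ m = 0 := le_antisymm hZlow zero_le
    have h2 : Ψ / (2 * (D.d : ℝ≥0∞) ^ (2 * D.J)) ≠ 0 := ENNReal.div_ne_zero.2 ⟨hΨ0, hdt⟩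
    exact pow_ne_zero m h2 h1
  have hZinv : Z⁻¹ ≤ ((2 * (D.d : ℝ≥0∞) ^ (2 * D.J)) / Ψ) ^ m := by
    have h1 := ENNReal.inv_le_inv.2 hZlow
    rw [ENNReal.inv_pow, ENNReal.inv_div (Or.inl hdt) (Or.inl hd0)] at h1
    exact h1
  refine ⟨sc Z⁻¹ W, ?_, ?_, ?_, ?_, ?_⟩
  · exact InvP_sc hWi _
  · intro y
    rw [ms_sc, hZ y, ENNReal.inv_mul_cancel hZ0 hZt]
  · intro y l h
    have h1 : W y l ≠ 0 := by
      unfold sc at h
      exact right_ne_zero_of_mul h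
    have h2 : pwr S m y l ≠ 0 := by
      intro h3
      exact h1 (le_antisymm ((hWle y l).trans h3.le) zero_le)
    exact NCB_pwrlen hSl m y l h2
  · intro y l
    unfold sc
    by_cases hw : Sw D.G y l
    · have h1 : W y l = pwr S m y l := by
        rw [hWd]
        unfold rs
        rw [if_pos hw]
      have h2 := nca (H := H) hs hR hR' hlt hθ h3 m hw
      rw [← hωd, ← hSd] at h2
      have h4 : pwr S m y l ≤ (3 / lam) ^ m * sa D.G D.z y l := by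
        have e : (3 / lam) ^ m * (lam / 3) ^ m = 1 := by
          rw [← mul_pow]
          have : (3 : ℝ≥0∞) / lam * (lam / 3) = 1 := by
            rw [div_eq_mul_inv, div_eq_mul_inv]
            calc (3 : ℝ≥0∞) * lam⁻¹ * (lam * 3⁻¹) = (3 * 3⁻¹) * (lam⁻¹ * lam) := by ring
              _ = 1 := by
                rw [ENNReal.mul_inv_cancel (by norm_num) (by norm_num), ENNReal.inv_mul_cancel hl0 hlt, one_mul]
          rw [this, one_pow]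
        calc pwr S m y l = (3 / lam) ^ m * (lam / 3) ^ m * pwr S m y l := by rw [e, one_mul]
          _ = (3 / lam) ^ m * ((lam / 3) ^ m * pwr S m y l) := by rw [mul_assoc]
          _ ≤ _ := mul_le_mul' le_rfl h2
      rw [h1]
      calc Z⁻¹ * pwr S m y l ≤ ((2 * (D.d : ℝ≥0∞) ^ (2 * D.J)) / Ψ) ^ m * ((3 / lam) ^ m * sa D.G D.z y l) :=
            mul_le_mul' hZinv h4
        _ = (((2 * (D.d : ℝ≥0∞) ^ (2 * D.J)) / Ψ) * (3 / lam)) ^ m * sa D.G D.z y l := by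
            rw [mul_pow, mul_assoc]
        _ = (6 * (D.d : ℝ≥0∞) ^ (2 * D.J) / (lam * Ψ)) ^ m * sa D.G D.z y l := by
            congr 2
            rw [div_eq_mul_inv, div_eq_mul_inv, div_eq_mul_inv,
              ENNReal.mul_inv (Or.inl hl0) (Or.inl hlt)]
            ring
    · have h1 : W y l = 0 := by
        rw [hWd]
        unfold rs
        rw [if_neg hw]
      rw [h1, mul_zero]
      exact zero_le
  · have h1 : KB (kr W) ((κ * Ψ) ^ m) :=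
      KB_mono (fun a b => kr_mono a b (hWle a)) (KB_pwr hSk m)
    rw [kr_sc]
    refine KB_le ?_ (KB_smul Z⁻¹ h1)
    calc Z⁻¹ * (κ * Ψ) ^ m ≤ ((2 * (D.d : ℝ≥0∞) ^ (2 * D.J)) / Ψ) ^ m * (κ * Ψ) ^ m := mul_le_mul' hZinv le_rfl
      _ = ((2 * (D.d : ℝ≥0∞) ^ (2 * D.J)) / Ψ * (κ * Ψ)) ^ m := (mul_pow _ _ _).symm
      _ = (2 * (D.d : ℝ≥0∞) ^ (2 * D.J) * κ) ^ m := by
          congr 1
          rw [div_eq_mul_inv]
          calc 2 * (D.d : ℝ≥0∞) ^ (2 * D.J) * Ψ⁻¹ * (κ * Ψ) = 2 * (D.d : ℝ≥0∞) ^ (2 * D.J) * κ * (Ψ⁻¹ * Ψ) := by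
                ring
            _ = 2 * (D.d : ℝ≥0∞) ^ (2 * D.J) * κ := by
                rw [ENNReal.inv_mul_cancel hΨ0 hΨt, mul_one]

end Pool.Agent.SAWG
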