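import Pool.Agent.SAWG.Defs

/-!
# SAWG: definitions for the nonunimodular case
-/

set_option autoImplicit false

open scoped ENNReal NNReal Classical
open Filter Topology

noncomputable section

namespace Pool.Agent.SAWG

open Pool.Agent.SWH (Ker idK adK tp endp Sw)

variable {V : Type}

/-- The number of images of `y` under the automorphisms that fix `x`. -/
def orb (G : SimpleGraph V) (x y : V) : ℕ := ({v | ∃ φ : G ≃g G, φ x = x ∧ φ y = v} : Set V).ncard

/-- A transitive graph with the height function `h = log (modular function)`. -/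
structure Ng (G : SimpleGraph V) (h : V → ℝ) : Prop where
  tr : ∀ v w : V, ∃ φ : G ≃g G, φ v = w
  fin : ∀ x, (G.neighborSet x).Finite
  conn : G.Connected
  inv : ∀ (φ : G ≃g G) (x y : V), h (φ x) - h (φ y) = h x - h y
  mtp : ∀ K : Ker V, InvG G K → ∀ x, ∑' y, K x y = ∑' y, K y x * ENNReal.ofReal (Real.exp (h x - h y))
  ne : ∃ x y, h x ≠ h y

/-- The tilted mass of a kernel. -/
def tk (h : V → ℝ) (K : Ker V) (x : V) : ℝ≥0∞ := ∑' y, K x y * ENNReal.ofReal (Real.exp ((h x - h y) / 2))

/-- The weight `z ^ length` on the walks with the property `P`. -/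
def zw (z : ℝ≥0∞) (P : V → List V → Prop) : PW V := fun x l => if P x l then z ^ l.length else 0

/-- Bridges. -/
def BrR (G : SimpleGraph V) (h : V → ℝ) (x : V) (l : List V) : Prop :=
  Sw G x l ∧ ∀ y ∈ l, h x < h y ∧ h y ≤ h (endp x l)

/-- The span. -/
def spn (h : V → ℝ) (x : V) (l : List V) : ℝ := h (endp x l) - h x

/-- Bridges of span at least `L` which are not the product of a bridge of span at least `L` and a nonempty bridge. -/
def ClR (G : SimpleGraph V) (h : V → ℝ) (L : ℝ) (x : V) (l : List V) : Prop :=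
  BrR G h x l ∧ L ≤ spn h x l ∧
    ∀ l1 l2, l = l1 ++ l2 → l2 ≠ [] → BrR G h x l1 → L ≤ spn h x l1 → ¬ BrR G h (endp x l1) l2

/-- Half space walks of height less than `t` and length at most `n`. -/
def HsR (G : SimpleGraph V) (h : V → ℝ) (t : ℝ) (n : ℕ) (x : V) (l : List V) : Prop :=
  Sw G x l ∧ (∀ y ∈ l, h x < h y ∧ h y < h x + t) ∧ l.length ≤ n

end Pool.Agent.SAWG
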