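import Pool.Agent.SAWG.NDf
import Pool.Agent.SAWG.INV

/-!
# SAWG module NUA: nonunimodular case: neighbours

PROOFS.  `adK G` is invariant, `H.mtp` for it: `∑' y, adK G x y = ∑' y, adK G y x * exp (h x - h y)`, both sides are finite sums over the neighbours of `x`: `∑_{y ~ x} (exp (h x - h y) - 1) = 0`.
If all neighbours of `x` had `h y = h x` then by transitivity and `H.inv` (`h (φ x) - h (φ y) = h x - h y`) this would hold for every vertex, and `h` would be constant (`G` connected), contradicting `H.ne`.  So some term is not 0, hence some term is positive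
(`h y < h x`) and some term is negative (`h y > h x`).  `nu_up`: take an upper neighbour of one vertex `o`, `δ0 = h y - h o`, and transport by `φ` with `φ o = x`.
-/

set_option autoImplicit false

open scoped ENNReal NNReal Classical
open Filter Topology

namespace Pool.Agent.SAWG

open Pool.Agent.SWH (Ker idK adK tp endp Sw endp_nil endp_cons endp_append endp_mem)

variable {V : Type}

private theorem nua_adK (G : SimpleGraph V) : InvG G (adK G) := by
  intro φ x y
  unfold adK
  rw [φ.map_adj_iff]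

private theorem nua_sum {G : SimpleGraph V} {h : V → ℝ} (H : Ng G h) (x : V) :
    ((H.fin x).toFinset.card : ℝ) = ∑ y ∈ (H.fin x).toFinset, Real.exp (h x - h y) := by
  have h1 := H.mtp (adK G) (nua_adK G) x
  have h2 : ∑' y, adK G x y = ∑ y ∈ (H.fin x).toFinset, (1 : ℝ≥0∞) := by
    rw [tsum_eq_sum (s := (H.fin x).toFinset)]
    · apply Finset.sum_congr rfl
      intro y hy
      rw [Set.Finite.mem_toFinset, SimpleGraph.mem_neighborSet] at hy
      simp [adK, hy]
    · intro y hy
      rw [Set.Finite.mem_toFinset, SimpleGraph.mem_neighborSet] at hy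
      simp [adK, hy]
  have h3 : ∑' y, adK G y x * ENNReal.ofReal (Real.exp (h x - h y)) =
      ∑ y ∈ (H.fin x).toFinset, ENNReal.ofReal (Real.exp (h x - h y)) := by
    rw [tsum_eq_sum (s := (H.fin x).toFinset)]
    · apply Finset.sum_congr rfl
      intro y hy
      rw [Set.Finite.mem_toFinset, SimpleGraph.mem_neighborSet] at hy
      simp [adK, hy.symm]
    · intro y hy
      rw [Set.Finite.mem_toFinset, SimpleGraph.mem_neighborSet] at hy
      have hy2 : ¬ G.Adj y x := fun h => hy h.symm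
      simp [adK, hy2]
  rw [h2, h3, ← ENNReal.ofReal_sum_of_nonneg (fun y _ => (Real.exp_pos _).le)] at h1
  have h4 : ∑ y ∈ (H.fin x).toFinset, (1 : ℝ≥0∞) = ENNReal.ofReal ((H.fin x).toFinset.card : ℝ) := by
    rw [Finset.sum_const, nsmul_eq_mul, mul_one, ENNReal.ofReal_natCast]
  rw [h4] at h1
  exact (ENNReal.ofReal_eq_ofReal_iff (Nat.cast_nonneg _)
    (Finset.sum_nonneg (fun y _ => (Real.exp_pos _).le))).1 h1

private theorem nua_const {G : SimpleGraph V} {h : V → ℝ} (H : Ng G h) {x : V}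
    (hx : ∀ y, G.Adj x y → h y = h x) : False := by
  have hall : ∀ a b, G.Adj a b → h a = h b := by
    intro a b hab
    obtain ⟨φ, hφ⟩ := H.tr x a
    have h1 : G.Adj x (φ.symm b) := by
      have : G.Adj (φ x) (φ (φ.symm b)) := by rw [hφ, RelIso.apply_symm_apply]; exact hab
      exact φ.map_adj_iff.1 this
    have h2 := hx _ h1
    have h3 := H.inv φ x (φ.symm b)
    rw [hφ, RelIso.apply_symm_apply] at h3
    linarith
  obtain ⟨a, b, hab⟩ := H.ne
  apply hab
  obtain ⟨w⟩ := H.conn.preconnected a b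
  clear hab
  induction w with
  | nil => rfl
  | cons hadj _ ih => rw [hall _ _ hadj, ih]

theorem nu_dn {G : SimpleGraph V} {h : V → ℝ} (H : Ng G h) (x : V) : ∃ y, G.Adj x y ∧ h y < h x := by
  by_contra hcon
  push Not at hcon
  apply nua_const H (x := x)
  intro y hy
  by_contra hne
  have hlt : h x < h y := lt_of_le_of_ne (hcon y hy) (fun e => hne e.symm)
  have hs := nua_sum H x
  have h1 : ∑ z ∈ (H.fin x).toFinset, Real.exp (h x - h z) < ∑ z ∈ (H.fin x).toFinset, (1 : ℝ) := by
    apply Finset.sum_lt_sum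
    · intro z hz
      rw [Set.Finite.mem_toFinset, SimpleGraph.mem_neighborSet] at hz
      rw [Real.exp_le_one_iff]
      linarith [hcon z hz]
    · refine ⟨y, ?_, ?_⟩
      · rw [Set.Finite.mem_toFinset, SimpleGraph.mem_neighborSet]; exact hy
      · rw [Real.exp_lt_one_iff]; linarith
  rw [Finset.sum_const, nsmul_eq_mul, mul_one] at h1
  linarith

private theorem nua_up1 {G : SimpleGraph V} {h : V → ℝ} (H : Ng G h) (x : V) : ∃ y, G.Adj x y ∧ h x < h y := by
  by_contra hcon
  push Not at hcon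
  apply nua_const H (x := x)
  intro y hy
  by_contra hne
  have hlt : h y < h x := lt_of_le_of_ne (hcon y hy) hne
  have hs := nua_sum H x
  have h1 : ∑ z ∈ (H.fin x).toFinset, (1 : ℝ) < ∑ z ∈ (H.fin x).toFinset, Real.exp (h x - h z) := by
    apply Finset.sum_lt_sum
    · intro z hz
      rw [Set.Finite.mem_toFinset, SimpleGraph.mem_neighborSet] at hz
      rw [Real.one_le_exp_iff]
      linarith [hcon z hz]
    · refine ⟨y, ?_, ?_⟩
      · rw [Set.Finite.mem_toFinset, SimpleGraph.mem_neighborSet]; exact hy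
      · rw [Real.one_lt_exp_iff]; linarith
  rw [Finset.sum_const, nsmul_eq_mul, mul_one] at h1
  linarith

theorem nu_up {G : SimpleGraph V} {h : V → ℝ} (H : Ng G h) :
    ∃ δ0 : ℝ, 0 < δ0 ∧ ∀ x, ∃ y, G.Adj x y ∧ h y = h x + δ0 := by
  obtain ⟨o, _, _⟩ := H.ne
  obtain ⟨y, hy, hlt⟩ := nua_up1 H o
  refine ⟨h y - h o, by linarith, ?_⟩
  intro x
  obtain ⟨φ, hφ⟩ := H.tr o x
  refine ⟨φ y, ?_, ?_⟩
  · have := φ.map_adj_iff.2 hy
    rwa [hφ] at this
  · have := H.inv φ y o
    rw [hφ] at this
    linarith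

/-- The height changes by a bounded amount along edges. -/
theorem nu_lip {G : SimpleGraph V} {h : V → ℝ} (H : Ng G h) : ∃ m : ℕ, ∀ x y, G.Adj x y → |h x - h y| ≤ m := by
  obtain ⟨o, _, _⟩ := H.ne
  obtain ⟨m, hm⟩ : ∃ m : ℕ, ∀ y ∈ (H.fin o).toFinset, |h o - h y| ≤ m := by
    obtain ⟨m, hm⟩ := exists_nat_ge (∑ y ∈ (H.fin o).toFinset, |h o - h y|)
    refine ⟨m, fun y hy => le_trans ?_ hm⟩
    exact Finset.single_le_sum (f := fun y => |h o - h y|) (fun _ _ => abs_nonneg _) hy
  refine ⟨m, ?_⟩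
  intro x y hxy
  obtain ⟨φ, hφ⟩ := H.tr o x
  have h1 : G.Adj o (φ.symm y) := by
    have : G.Adj (φ o) (φ (φ.symm y)) := by rw [hφ, RelIso.apply_symm_apply]; exact hxy
    exact φ.map_adj_iff.1 this
  have h3 := H.inv φ o (φ.symm y)
  rw [hφ, RelIso.apply_symm_apply] at h3
  rw [h3]
  apply hm
  rw [Set.Finite.mem_toFinset, SimpleGraph.mem_neighborSet]
  exact h1

end Pool.Agent.SAWG
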