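import Pool.Agent.SAWG.KBA
import Pool.Agent.SAWG.PWA

/-!
# SAWG module PWB: convolution powers

PROOFS.  `cv_assoc`: both sides are the sum over `i ≤ j ≤ length` of `a x (take i) * b _ (the part between i and j) * c _ (drop j)`
(`List.take_take`, `List.drop_take`, `List.drop_drop`, `endp_append`; reorder the double sum, `Finset.sum_sigma'`, `Finset.sum_bij'`).
Alternatively: a path weight is determined by the numbers `∑' l, a x l * F l` (take `F` = indicator of one list), and `tsum_cv` gives the same value for both sides.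
This second way is short and works also for `on_cv`, `cv_on`, `cv_ad`, `cv_tsum`.
`pwr_succ'`: induction with `cv_assoc`.  `ms_pwr`, `KB_pwr`: induction, `ms_cv`, `kr_cv`, `KB_cmp` (`kr on = idK`, `KB_id`).
-/

set_option autoImplicit false

open scoped ENNReal NNReal Classical
open Filter Topology

namespace Pool.Agent.SAWG

open Pool.Agent.SWH (Ker idK adK tp endp Sw endp_nil endp_cons endp_append endp_mem)

variable {V : Type}

private theorem tsum_on (x : V) (F : List V → ℝ≥0∞) : ∑' l, on x l * F l = F [] := by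
  rw [tsum_eq_single []]
  · unfold on
    rw [if_pos rfl, one_mul]
  · intro l hl
    unfold on
    rw [if_neg hl, zero_mul]

/-- A path weight is determined by its integrals. -/
theorem pw_ext {a b : PW V} (h : ∀ x (F : List V → ℝ≥0∞), ∑' l, a x l * F l = ∑' l, b x l * F l) : a = b := by
  funext x l
  have h1 := h x (fun k => if k = l then 1 else 0)
  have h2 : ∀ c : PW V, ∑' k, c x k * (if k = l then 1 else 0) = c x l := by
    intro c
    rw [tsum_eq_single l]
    · rw [if_pos rfl, mul_one]
    · intro k hk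
      rw [if_neg hk, mul_zero]
  rwa [h2, h2] at h1

theorem cv_assoc (a b c : PW V) : cv (cv a b) c = cv a (cv b c) := by
  refine pw_ext fun x F => ?_
  rw [tsum_cv, tsum_cv, tsum_cv]
  refine tsum_congr fun l1 => ?_
  rw [tsum_cv]
  congr 1
  refine tsum_congr fun l2 => ?_
  rw [endp_append]
  congr 1
  refine tsum_congr fun l3 => ?_
  rw [List.append_assoc]

theorem on_cv (a : PW V) : cv on a = a := by
  refine pw_ext fun x F => ?_
  rw [tsum_cv, tsum_on]
  rfl

theorem cv_on (a : PW V) : cv a on = a := by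
  refine pw_ext fun x F => ?_
  rw [tsum_cv]
  refine tsum_congr fun l1 => ?_
  rw [tsum_on, List.append_nil]

theorem cv_ad_left (a b c : PW V) : cv (ad a b) c = ad (cv a c) (cv b c) := by
  funext x l
  unfold cv ad
  rw [← Finset.sum_add_distrib]
  refine Finset.sum_congr rfl fun i _ => ?_
  rw [add_mul]

theorem cv_tsum_left {ι : Type} (a : ι → PW V) (c : PW V) :
    cv (fun x l => ∑' i, a i x l) c = fun x l => ∑' i, cv (a i) c x l := by
  funext x l
  unfold cv
  rw [Summable.tsum_finsetSum fun i _ => ENNReal.summable]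
  refine Finset.sum_congr rfl fun i _ => ?_
  rw [ENNReal.tsum_mul_right]

theorem cv_sc_left (t : ℝ≥0∞) (a c : PW V) : cv (sc t a) c = sc t (cv a c) := by
  funext x l
  unfold cv sc
  rw [Finset.mul_sum]
  refine Finset.sum_congr rfl fun i _ => ?_
  rw [mul_assoc]

theorem cv_sc_right (t : ℝ≥0∞) (a c : PW V) : cv a (sc t c) = sc t (cv a c) := by
  funext x l
  unfold cv sc
  rw [Finset.mul_sum]
  refine Finset.sum_congr rfl fun i _ => ?_
  ring

theorem pwr_succ' (a : PW V) (n : ℕ) : pwr a (n + 1) = cv a (pwr a n) := by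
  induction n with
  | zero =>
    show cv on a = cv a on
    rw [on_cv, cv_on]
  | succ n ih =>
    show cv (pwr a (n + 1)) a = cv a (cv (pwr a n) a)
    rw [ih, cv_assoc]

theorem kr_on : kr (on : PW V) = idK := by
  funext x y
  unfold kr on idK
  rw [tsum_eq_single []]
  · rw [if_pos rfl, endp_nil]
  · intro l hl
    rw [if_neg hl, ite_self]

theorem ms_on (x : V) : ms (on : PW V) x = 1 := by
  unfold ms on
  rw [tsum_eq_single []]
  · rw [if_pos rfl]
  · intro l hl
    rw [if_neg hl]

theorem ms_pwr {a : PW V} {c : ℝ≥0∞} (h : ∀ y, ms a y = c) (n : ℕ) (x : V) : ms (pwr a n) x = c ^ n := by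
  induction n with
  | zero =>
    rw [pow_zero]
    exact ms_on x
  | succ n ih =>
    rw [pow_succ, ← ih]
    exact ms_cv h

theorem ms_pwr_le {a : PW V} {c : ℝ≥0∞} (h : ∀ y, ms a y ≤ c) (n : ℕ) (x : V) : ms (pwr a n) x ≤ c ^ n := by
  induction n with
  | zero =>
    rw [pow_zero]
    exact (ms_on x).le
  | succ n ih =>
    rw [pow_succ]
    exact (ms_cv_le h).trans (mul_le_mul_left ih _)

theorem KB_pwr {a : PW V} {c : ℝ≥0∞} (h : KB (kr a) c) (n : ℕ) : KB (kr (pwr a n)) (c ^ n) := by
  induction n with
  | zero =>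
    rw [pow_zero]
    show KB (kr on) 1
    rw [kr_on]
    exact KB_id
  | succ n ih =>
    rw [pow_succ]
    show KB (kr (cv (pwr a n) a)) (c ^ n * c)
    rw [kr_cv]
    exact KB_cmp ih h

theorem ms_sc (t : ℝ≥0∞) (a : PW V) (x : V) : ms (sc t a) x = t * ms a x := by
  exact ENNReal.tsum_mul_left

theorem kr_sc (t : ℝ≥0∞) (a : PW V) : kr (sc t a) = fun x y => t * kr a x y := by
  funext x y
  unfold kr sc
  rw [← ENNReal.tsum_mul_left]
  refine tsum_congr fun l => ?_
  rw [mul_ite, mul_zero]

theorem ms_ad (a b : PW V) (x : V) : ms (ad a b) x = ms a x + ms b x := by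
  exact ENNReal.tsum_add

theorem kr_ad (a b : PW V) : kr (ad a b) = fun x y => kr a x y + kr b x y := by
  funext x y
  unfold kr ad
  rw [← ENNReal.tsum_add]
  refine tsum_congr fun l => ?_
  split_ifs
  · rfl
  · rw [add_zero]

theorem kr_tsum {ι : Type} (a : ι → PW V) : kr (fun x l => ∑' i, a i x l) = fun x y => ∑' i, kr (a i) x y := by
  funext x y
  unfold kr
  rw [ENNReal.tsum_comm]
  refine tsum_congr fun l => ?_
  split_ifs
  · rfl
  · rw [tsum_zero]

end Pool.Agent.SAWG
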