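import Pool.Agent.SAWG.NDf
import Pool.Agent.SAWG.INV
import Pool.Agent.SAWG.KBA
import Pool.Agent.SAWG.PWB

/-!
# SAWG module NUB: nonunimodular case: tilted masses

PROOFS.  `tk_const`: reindex by an automorphism, `H.inv`.  `tk_kc`: `exp ((h x - h y)/2) = exp ((h x - h z)/2) exp ((h z - h y)/2)`.
`tk_tp`: `H.mtp` for the invariant kernel `K x y * exp ((h x - h y)/2)`: `∑_y K x y e^{(h x - h y)/2} = ∑_y K y x e^{(h y - h x)/2} e^{h x - h y} = ∑_y K y x e^{(h x - h y)/2}`.
`KB_tk`: `KB_schur` with `g x = ofReal (exp (-(h x)/2))`: row: `∑_y K x y g y = g x * tk h K x`; column: `∑_x g x K x y = g y * ∑_x K x y e^{(h y - h x)/2} = g y * tk h (tp K) y`.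
`tk_zw`: `tk h (kr a) x = ∑_l a x l * exp ((h x - h (endp x l))/2)` (`tsum_kr`).
-/

set_option autoImplicit false

open scoped ENNReal NNReal Classical
open Filter Topology

namespace Pool.Agent.SAWG

open Pool.Agent.SWH (Ker idK adK tp endp Sw endp_nil endp_cons endp_append endp_mem)

variable {V : Type}

/-- The exponential factor. -/
private theorem NUB_exp (a b c : ℝ) (h : c = a + b) :
    ENNReal.ofReal (Real.exp c) = ENNReal.ofReal (Real.exp a) * ENNReal.ofReal (Real.exp b) := by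
  rw [h, Real.exp_add, ENNReal.ofReal_mul (Real.exp_pos a).le]

theorem tk_const {G : SimpleGraph V} {h : V → ℝ} (H : Ng G h) {K : Ker V} (hK : InvG G K) (x y : V) :
    tk h K x = tk h K y := by
  obtain ⟨φ, rfl⟩ := H.tr x y
  unfold tk
  rw [← tsum_vert φ (fun w => K (φ x) w * ENNReal.ofReal (Real.exp ((h (φ x) - h w) / 2)))]
  refine tsum_congr fun v => ?_
  rw [hK φ x v, H.inv φ x v]

theorem tk_mono {h : V → ℝ} {K L : Ker V} (x : V) (hKL : ∀ y, K x y ≤ L x y) : tk h K x ≤ tk h L x := by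
  unfold tk
  refine ENNReal.tsum_le_tsum fun y => ?_
  gcongr
  exact hKL y

theorem tk_kc {h : V → ℝ} {K L : Ker V} {c : ℝ≥0∞} (hL : ∀ y, tk h L y ≤ c) (x : V) :
    tk h (kc K L) x ≤ tk h K x * c := by
  have h1 : tk h (kc K L) x =
      ∑' z, (K x z * ENNReal.ofReal (Real.exp ((h x - h z) / 2))) * tk h L z := by
    unfold tk kc
    simp_rw [← ENNReal.tsum_mul_right, ← ENNReal.tsum_mul_left]
    rw [ENNReal.tsum_comm]
    refine tsum_congr fun z => tsum_congr fun y => ?_
    rw [NUB_exp ((h x - h z) / 2) ((h z - h y) / 2) ((h x - h y) / 2) (by ring)]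
    ring
  rw [h1]
  show _ ≤ (∑' z, K x z * ENNReal.ofReal (Real.exp ((h x - h z) / 2))) * c
  rw [← ENNReal.tsum_mul_right]
  refine ENNReal.tsum_le_tsum fun z => ?_
  gcongr
  exact hL z

theorem tk_tp {G : SimpleGraph V} {h : V → ℝ} (H : Ng G h) {K : Ker V} (hK : InvG G K) (x : V) :
    tk h (tp K) x = tk h K x := by
  have h1 : InvG G (fun x y => K x y * ENNReal.ofReal (Real.exp ((h x - h y) / 2))) := by
    intro φ x y
    dsimp only
    rw [hK φ x y, H.inv φ x y]
  have h2 := H.mtp _ h1 x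
  unfold tk tp
  rw [h2]
  refine tsum_congr fun y => ?_
  rw [mul_assoc, ← NUB_exp ((h y - h x) / 2) (h x - h y) ((h x - h y) / 2) (by ring)]

theorem KB_tk {G : SimpleGraph V} {h : V → ℝ} (H : Ng G h) {K : Ker V} (hK : InvG G K) {c : ℝ≥0∞}
    (hc : ∀ x, tk h K x ≤ c) : KB K c := by
  refine KB_schur (fun x => ENNReal.ofReal (Real.exp (-(h x) / 2))) ?_ ?_ ?_ ?_
  · intro x
    exact (ENNReal.ofReal_pos.2 (Real.exp_pos _)).ne'
  · intro x
    exact ENNReal.ofReal_ne_top
  · intro x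
    have h1 : ∑' y, K x y * ENNReal.ofReal (Real.exp (-(h y) / 2)) =
        tk h K x * ENNReal.ofReal (Real.exp (-(h x) / 2)) := by
      unfold tk
      rw [← ENNReal.tsum_mul_right]
      refine tsum_congr fun y => ?_
      rw [mul_assoc, ← NUB_exp ((h x - h y) / 2) (-(h x) / 2) (-(h y) / 2) (by ring)]
    rw [h1]
    gcongr
    exact hc x
  · intro y
    have h1 : ∑' x, ENNReal.ofReal (Real.exp (-(h x) / 2)) * K x y =
        tk h (tp K) y * ENNReal.ofReal (Real.exp (-(h y) / 2)) := by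
      unfold tk tp
      rw [← ENNReal.tsum_mul_right]
      refine tsum_congr fun x => ?_
      rw [mul_assoc, ← NUB_exp ((h y - h x) / 2) (-(h y) / 2) (-(h x) / 2) (by ring), mul_comm]
    rw [h1, tk_tp H hK]
    gcongr
    exact hc y

theorem tk_kr (h : V → ℝ) (a : PW V) (x : V) :
    tk h (kr a) x = ∑' l, a x l * ENNReal.ofReal (Real.exp ((h x - h (endp x l)) / 2)) := by
  unfold tk kr
  simp_rw [← ENNReal.tsum_mul_right]
  rw [ENNReal.tsum_comm]
  refine tsum_congr fun l => ?_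
  rw [tsum_eq_single (endp x l)]
  · rw [if_pos rfl]
  · intro y hy
    rw [if_neg hy.symm, zero_mul]

/-- Sum over a family. -/
theorem tk_tsum {ι : Type} (h : V → ℝ) (K : ι → Ker V) (x : V) :
    tk h (fun x y => ∑' i, K i x y) x = ∑' i, tk h (K i) x := by
  unfold tk
  simp_rw [← ENNReal.tsum_mul_right]
  rw [ENNReal.tsum_comm]

end Pool.Agent.SAWG
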