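import Pool.Agent.SAWG.NDf
import Pool.Agent.SAWG.INV
import Pool.Agent.SWH.Brg

/-!
# SAWG module NUC: nonunimodular case: combinatorics of bridges

PROOFS.  As in `Pool/Agent/SWH/Brg.lean` (integer heights; the proofs carry over verbatim).  `BrR_append`: heights of the first part lie in `(h x, h e]`, of the second part in `(h e, h e']`; in particular the vertices are different.
`ClR_split`: the shortest initial part `l1` of `l` which is a bridge of span `≥ L` such that the rest is a bridge (the whole walk is one candidate): `l1` is in `ClR L`: if `l1 = m1 ++ m2` with `m2 ≠ []`, `m1` a bridge of span `≥ L`, `m2` a bridge from its end,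
then the rest `m2 ++ l2` would be a bridge (`BrR_append`), contradicting the choice.  `ClR_inj`: if `l1 ++ l2 = l1' ++ l2'` with `|l1| < |l1'|` then `l1' = l1 ++ m`, `l2 = m ++ l2'`, `m ≠ []`; `m` is a bridge from the end of `l1` (heights `> h (end l1)` since `l2` is a bridge,
`≤ h (end l1')` since `l1'` is a bridge), contradicting `ClR` of `l1'`.
`BrR_map` etc.: invariance (`Sw_map`, `endp_map`, `H.inv`).
-/

set_option autoImplicit false

open scoped ENNReal NNReal Classical
open Filter Topology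

namespace Pool.Agent.SAWG

open Pool.Agent.SWH (Ker idK adK tp endp Sw endp_nil endp_cons endp_append endp_mem)

variable {V : Type}

theorem SwR_split {G : SimpleGraph V} {x : V} {l1 l2 : List V} (h1 : Sw G x (l1 ++ l2)) :
    Sw G x l1 ∧ Sw G (endp x l1) l2 := by
  exact Pool.Agent.SWH.Sw_split h1

private theorem NUC_nil {G : SimpleGraph V} {h : V → ℝ} (x : V) : BrR G h x [] :=
  ⟨Pool.Agent.SWH.Sw_nil x, fun _ hy => absurd hy List.not_mem_nil⟩

private theorem NUC_le {G : SimpleGraph V} {h : V → ℝ} {x : V} {l : List V} (h1 : BrR G h x l) :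
    h x ≤ h (endp x l) := by
  rcases List.mem_cons.1 (endp_mem x l) with h2 | h2
  · rw [h2]
  · exact (h1.2 _ h2).1.le

private theorem NUC_mem {x : V} {l : List V} (hl : l ≠ []) : endp x l ∈ l := by
  cases l with
  | nil => exact absurd rfl hl
  | cons a l => rw [endp_cons]; exact endp_mem a l

theorem BrR_append {G : SimpleGraph V} {h : V → ℝ} {x : V} {l1 l2 : List V} (h1 : BrR G h x l1)
    (h2 : BrR G h (endp x l1) l2) : BrR G h x (l1 ++ l2) := by
  have h3 := NUC_le h1
  have h4 := NUC_le h2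
  refine ⟨Pool.Agent.SWH.Sw_append h1.1 h2.1 ?_, ?_⟩
  · intro y hy hy2
    have h5 := (h2.2 y hy2).1
    rcases List.mem_cons.1 hy with h6 | h6
    · rw [h6] at h5
      linarith
    · have h7 := (h1.2 y h6).2
      linarith
  · intro y hy
    rw [endp_append]
    rcases List.mem_append.1 hy with h6 | h6
    · have h7 := h1.2 y h6
      exact ⟨h7.1, h7.2.trans h4⟩
    · have h7 := h2.2 y h6
      exact ⟨by linarith, h7.2⟩

theorem spn_append (h : V → ℝ) (x : V) (l1 l2 : List V) : spn h x (l1 ++ l2) = spn h x l1 + spn h (endp x l1) l2 := by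
  unfold spn
  rw [endp_append]
  ring

theorem spn_nonneg {G : SimpleGraph V} {h : V → ℝ} {x : V} {l : List V} (h1 : BrR G h x l) : 0 ≤ spn h x l := by
  have := NUC_le h1
  unfold spn
  linarith

theorem spn_pos {G : SimpleGraph V} {h : V → ℝ} {x : V} {l : List V} (h1 : BrR G h x l) (hl : l ≠ []) :
    0 < spn h x l := by
  have h2 : h x < h (endp x l) := (h1.2 (endp x l) (NUC_mem hl)).1
  unfold spn
  linarith

private theorem NUC_split {G : SimpleGraph V} {h : V → ℝ} {L : ℝ} {x : V} :
    ∀ (n : ℕ) (l : List V), l.length ≤ n → BrR G h x l →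
    L ≤ spn h x l → ∃ l1 l2, l = l1 ++ l2 ∧ ClR G h L x l1 ∧ BrR G h (endp x l1) l2 := by
  intro n
  induction n with
  | zero =>
    intro l hl h1 h2
    have hl0 : l = [] := List.length_eq_zero_iff.1 (Nat.le_zero.1 hl)
    refine ⟨l, [], (List.append_nil l).symm, ⟨h1, h2, ?_⟩, NUC_nil _⟩
    intro l1 l2 he hne _ _ _
    rw [hl0] at he
    exact hne (List.append_eq_nil_iff.1 he.symm).2
  | succ n ih =>
    intro l hl h1 h2
    by_cases hC : ClR G h L x l
    · exact ⟨l, [], (List.append_nil l).symm, hC, NUC_nil _⟩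
    · unfold ClR at hC
      push Not at hC
      obtain ⟨m1, m2, he, hne, hb1, hL, hb2⟩ := hC h1 h2
      have hlen : m1.length ≤ n := by
        have h3 : l.length = m1.length + m2.length := by rw [he, List.length_append]
        have h4 : 0 < m2.length := List.length_pos_iff.2 hne
        omega
      obtain ⟨l1, l2, he2, hC1, hB1⟩ := ih m1 hlen hb1 hL
      refine ⟨l1, l2 ++ m2, ?_, hC1, ?_⟩
      · rw [he, he2, List.append_assoc]
      · refine BrR_append hB1 ?_
        rw [← endp_append, ← he2]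
        exact hb2

theorem ClR_split {G : SimpleGraph V} {h : V → ℝ} {L : ℝ} {x : V} {l : List V} (h1 : BrR G h x l) (h2 : L ≤ spn h x l) :
    ∃ l1 l2, l = l1 ++ l2 ∧ ClR G h L x l1 ∧ BrR G h (endp x l1) l2 := by
  exact NUC_split l.length l le_rfl h1 h2

private theorem NUC_inj {G : SimpleGraph V} {h : V → ℝ} {L : ℝ} {x : V} {l1 m l2 : List V} (h1 : ClR G h L x l1)
    (h2 : BrR G h (endp x l1) (m ++ l2)) (h3 : ClR G h L x (l1 ++ m)) : m = [] := by
  by_contra hm
  refine h3.2.2 l1 m rfl hm h1.1 h1.2.1 ⟨(SwR_split h2.1).1, ?_⟩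
  intro y hy
  refine ⟨(h2.2 y (List.mem_append_left _ hy)).1, ?_⟩
  have h4 := (h3.1.2 y (List.mem_append_right _ hy)).2
  rw [endp_append] at h4
  exact h4

theorem ClR_inj {G : SimpleGraph V} {h : V → ℝ} {L : ℝ} {x : V} {l1 l2 l1' l2' : List V} (h1 : ClR G h L x l1)
    (h2 : BrR G h (endp x l1) l2) (h1' : ClR G h L x l1') (h2' : BrR G h (endp x l1') l2')
    (he : l1 ++ l2 = l1' ++ l2') : l1 = l1' := by
  rcases List.append_eq_append_iff.1 he with ⟨m, h3, h4⟩ | ⟨m, h3, h4⟩
  · rw [h4] at h2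
    rw [h3] at h1'
    have := NUC_inj h1 h2 h1'
    rw [h3, this, List.append_nil]
  · rw [h4] at h2'
    rw [h3] at h1
    have := NUC_inj h1' h2' h1
    rw [h3, this, List.append_nil]

private theorem NUC_lt {G : SimpleGraph V} {h : V → ℝ} (H : Ng G h) (φ : G ≃g G) (x y : V) :
    h (φ x) < h (φ y) ↔ h x < h y := by
  have := H.inv φ x y
  constructor <;> intro h1 <;> linarith

private theorem NUC_le2 {G : SimpleGraph V} {h : V → ℝ} (H : Ng G h) (φ : G ≃g G) (x y : V) :
    h (φ x) ≤ h (φ y) ↔ h x ≤ h y := by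
  have := H.inv φ x y
  constructor <;> intro h1 <;> linarith

theorem BrR_map {G : SimpleGraph V} {h : V → ℝ} (H : Ng G h) (φ : G ≃g G) (x : V) (l : List V) :
    BrR G h (φ x) (l.map φ) ↔ BrR G h x l := by
  unfold BrR
  rw [Sw_map, endp_map]
  simp only [List.mem_map, forall_exists_index, and_imp, forall_apply_eq_imp_iff₂, NUC_lt H, NUC_le2 H]

theorem BrRn_map {G : SimpleGraph V} {h : V → ℝ} (H : Ng G h) (φ : G ≃g G) (x : V) (l : List V) :
    BrR G (fun v => -h v) (φ x) (l.map φ) ↔ BrR G (fun v => -h v) x l := by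
  unfold BrR
  rw [Sw_map, endp_map]
  simp only [List.mem_map, forall_exists_index, and_imp, forall_apply_eq_imp_iff₂, neg_lt_neg_iff,
    neg_le_neg_iff, NUC_lt H, NUC_le2 H]

theorem spn_map {G : SimpleGraph V} {h : V → ℝ} (H : Ng G h) (φ : G ≃g G) (x : V) (l : List V) :
    spn h (φ x) (l.map φ) = spn h x l := by
  unfold spn
  rw [endp_map]
  exact H.inv φ _ _

theorem InvP_zw {G : SimpleGraph V} (z : ℝ≥0∞) {P : V → List V → Prop}
    (hP : ∀ (φ : G ≃g G) x l, P (φ x) (l.map φ) ↔ P x l) : InvP G (zw z P) := by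
  intro φ x l
  unfold zw
  rw [List.length_map]
  by_cases h : P x l
  · rw [if_pos h, if_pos ((hP φ x l).2 h)]
  · rw [if_neg h, if_neg (fun h' => h ((hP φ x l).1 h'))]

theorem HsR_map {G : SimpleGraph V} {h : V → ℝ} (H : Ng G h) (t : ℝ) (n : ℕ) (φ : G ≃g G) (x : V) (l : List V) :
    HsR G h t n (φ x) (l.map φ) ↔ HsR G h t n x l := by
  have h1 : ∀ y, h (φ y) < h (φ x) + t ↔ h y < h x + t := by
    intro y
    have := H.inv φ x y
    constructor <;> intro h1 <;> linarith
  unfold HsR
  rw [Sw_map, List.length_map]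
  simp only [List.mem_map, forall_exists_index, and_imp, forall_apply_eq_imp_iff₂, NUC_lt H, h1]

end Pool.Agent.SAWG
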