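import Pool.Agent.SAWG.NUC
import Pool.Agent.SAWG.PWA

/-!
# SAWG module NUD: nonunimodular case: masses of bridges

PROOFS.  `B x = ms (zw z (BrR G h)) x` is constant (`ms_const`, `BrR_map`), `≥ 1` (the empty walk) and finite (`hz`).
`ms_cl`: `cv (zw z (ClR L)) (zw z BrR) x l ≤ zw z BrR x l`: at most one splitting of `l` gives a nonzero term (`ClR_inj`) and then `l` is a bridge (`BrR_append`).  So `ms (zw z (ClR L)) x * B ≤ B`, `ms (zw z (ClR L)) x ≤ 1`.
`ms_low`: choose for every vertex an upper neighbour `u x` with `h (u x) = h x + δ0`; `k` with `k δ0 ≥ 1`.  For a bridge `b` of span `< 1` let `b_j = b ++ [u e, u (u e), …]` (`j` steps from the end `e`), a bridge of span `spn b + j δ0`; let `j ∈ {1..k}` be minimal with `spn b_j ≥ 1`.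
`b_j ∈ ClR 1`: a proper initial part that is a bridge is an initial part of `b_(j-1)`, and `b_(j-1)` has all heights `≤ h (end) < h x + 1`.  `z^|b| = z⁻¹^j z^|b_j|`, and `(j, b_j)` determines `b`.  So `ms ≤ ∑_{j=1}^k z⁻¹^j * ms (zw z (ClR 1)) x ≤ k z⁻¹^k`.
`ms_lev`: `l` a bridge with `T ≤ spn l < T + 1`: `l = l1 ++ l2`, `l1 ∈ ClR T`, `l2` a bridge with `spn l2 = spn l - spn l1 < 1` (`ClR_split`): `ms ≤ ms (ClR T) * ms_low ≤ k z⁻¹^k`.
-/

set_option autoImplicit false

open scoped ENNReal NNReal Classical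
open Filter Topology

namespace Pool.Agent.SAWG

open Pool.Agent.SWH (Ker idK adK tp endp Sw endp_nil endp_cons endp_append endp_mem)

variable {V : Type}

private theorem NUD_nil {G : SimpleGraph V} {h : V → ℝ} (x : V) : BrR G h x [] :=
  ⟨⟨List.isChain_singleton x, List.nodup_singleton x⟩, fun _ hy => absurd hy List.not_mem_nil⟩

theorem ms_cl {G : SimpleGraph V} {h : V → ℝ} (H : Ng G h) {z : ℝ≥0∞} (hz : ∀ x, ms (sa G z) x ≠ ⊤) (L : ℝ) (x : V) :
    ms (zw z (ClR G h L)) x ≤ 1 := by
  set B := ms (zw z (BrR G h)) x with hB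
  have hconst : ∀ y, ms (zw z (BrR G h)) y = B := fun y =>
    ms_const H.tr (InvP_zw z (BrR_map H)) y x
  have hB1 : 1 ≤ B := by
    have h1 : zw z (BrR G h) x [] = 1 := by
      unfold zw
      rw [if_pos (NUD_nil x), List.length_nil, pow_zero]
    rw [← h1]
    exact ENNReal.le_tsum []
  have hBt : B ≠ ⊤ := by
    refine ne_top_of_le_ne_top (hz x) (ms_mono x fun l => ?_)
    unfold zw sa
    split_ifs with h1 h2
    · exact le_rfl
    · exact absurd h1.1 h2
    · exact zero_le
    · exact le_rfl
  have hcv : ∀ l, cv (zw z (ClR G h L)) (zw z (BrR G h)) x l ≤ zw z (BrR G h) x l := by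
    intro l
    unfold cv
    by_cases hex : ∃ i ∈ Finset.range (l.length + 1),
        zw z (ClR G h L) x (l.take i) * zw z (BrR G h) (endp x (l.take i)) (l.drop i) ≠ 0
    · obtain ⟨i, hi, hne⟩ := hex
      have hcl : ∀ j, zw z (ClR G h L) x (l.take j) * zw z (BrR G h) (endp x (l.take j)) (l.drop j) ≠ 0 →
          ClR G h L x (l.take j) ∧ BrR G h (endp x (l.take j)) (l.drop j) := by
        intro j hj
        constructor
        · by_contra hc
          apply hj
          unfold zw
          rw [if_neg hc, zero_mul]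
        · by_contra hc
          apply hj
          unfold zw
          rw [if_neg hc, mul_zero]
      obtain ⟨hc1, hb1⟩ := hcl i hne
      rw [Finset.sum_eq_single i]
      · have hl : BrR G h x l := by
          have := BrR_append hc1.1 hb1
          rwa [List.take_append_drop] at this
        unfold zw
        rw [if_pos hc1, if_pos hb1, if_pos hl, ← pow_add, ← List.length_append, List.take_append_drop]
      · intro j hj hji
        by_contra hc
        obtain ⟨hc2, hb2⟩ := hcl j hc
        have he : l.take i ++ l.drop i = l.take j ++ l.drop j := by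
          rw [List.take_append_drop, List.take_append_drop]
        have heq := ClR_inj hc1 hb1 hc2 hb2 he
        have hlen := congrArg List.length heq
        rw [List.length_take, List.length_take] at hlen
        rw [Finset.mem_range] at hi hj
        omega
      · intro hc
        exact absurd hi hc
    · push Not at hex
      rw [Finset.sum_eq_zero hex]
      exact zero_le
  have hmul : ms (zw z (ClR G h L)) x * B ≤ 1 * B := by
    rw [← ms_cv hconst, one_mul]
    exact ms_mono x hcv
  have hB0 : B ≠ 0 := fun hc => by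
    rw [hc] at hB1
    exact absurd hB1 (by simp)
  exact (ENNReal.mul_le_mul_iff_left hB0 hBt).1 hmul

/-- the walk of `j` steps upwards -/
private def NUD_up (u : V → V) : ℕ → V → List V
  | 0, _ => []
  | j + 1, e => u e :: NUD_up u j (u e)

private theorem NUD_up_len (u : V → V) (j : ℕ) (e : V) : (NUD_up u j e).length = j := by
  induction j generalizing e with
  | zero => rfl
  | succ j ih =>
    have : NUD_up u (j + 1) e = u e :: NUD_up u j (u e) := rfl
    rw [this, List.length_cons, ih]

private theorem NUD_up_h {h : V → ℝ} {u : V → V} {δ0 : ℝ} (hu : ∀ x, h (u x) = h x + δ0) (j : ℕ) (e : V) :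
    h (endp e (NUD_up u j e)) = h e + j * δ0 := by
  induction j generalizing e with
  | zero =>
    have : NUD_up u 0 e = [] := rfl
    rw [this, endp_nil]
    simp
  | succ j ih =>
    have : NUD_up u (j + 1) e = u e :: NUD_up u j (u e) := rfl
    rw [this, endp_cons, ih, hu]
    push_cast
    ring

private theorem NUD_up_br {G : SimpleGraph V} {h : V → ℝ} {u : V → V} {δ0 : ℝ} (hδ : 0 < δ0) (hu : ∀ x, h (u x) = h x + δ0)
    (ha : ∀ x, G.Adj x (u x)) (j : ℕ) (e : V) : BrR G h e (NUD_up u j e) := by
  induction j generalizing e with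
  | zero => exact NUD_nil e
  | succ j ih =>
    have e1 : NUD_up u (j + 1) e = [u e] ++ NUD_up u j (u e) := rfl
    have e2 : endp e [u e] = u e := by rw [endp_cons, endp_nil]
    rw [e1]
    refine BrR_append ⟨⟨?_, ?_⟩, ?_⟩ ?_
    · rw [List.isChain_cons_cons]
      exact ⟨ha e, List.isChain_singleton _⟩
    · rw [List.nodup_cons]
      refine ⟨?_, List.nodup_singleton _⟩
      rw [List.mem_singleton]
      exact (ha e).ne
    · intro y hy
      rw [List.mem_singleton] at hy
      rw [e2, hy, hu]
      constructor <;> linarith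
    · rw [e2]
      exact ih (u e)

private theorem NUD_up_last (u : V → V) (j : ℕ) (e : V) :
    ∃ w, NUD_up u (j + 1) e = NUD_up u j e ++ [w] := by
  induction j generalizing e with
  | zero => exact ⟨u e, rfl⟩
  | succ j ih =>
    obtain ⟨w, hw⟩ := ih (u e)
    refine ⟨w, ?_⟩
    have e1 : NUD_up u (j + 1 + 1) e = u e :: NUD_up u (j + 1) (u e) := rfl
    have e2 : NUD_up u (j + 1) e = u e :: NUD_up u j (u e) := rfl
    rw [e1, e2, hw]
    rfl

theorem ms_low {G : SimpleGraph V} {h : V → ℝ} (H : Ng G h) {δ0 : ℝ} (hδ : 0 < δ0) (hup : ∀ x, ∃ y, G.Adj x y ∧ h y = h x + δ0)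
    {k : ℕ} (hk : 1 ≤ k * δ0) {z : ℝ≥0∞} (hz0 : z ≠ 0) (hz1 : z ≤ 1) (hz : ∀ x, ms (sa G z) x ≠ ⊤) (x : V) :
    ms (zw z (fun x l => BrR G h x l ∧ spn h x l < 1)) x ≤ k * z⁻¹ ^ k := by
  choose u hadj hu using hup
  have hzt : z ≠ ⊤ := ne_top_of_le_ne_top ENNReal.one_ne_top hz1
  have hmap : ∀ j : ℕ, ∑' b : List V, zw z (ClR G h 1) x (b ++ NUD_up u j (endp x b)) ≤ 1 := by
    intro j
    have hinj : Function.Injective (fun b : List V => b ++ NUD_up u j (endp x b)) := by
      intro a b hab
      dsimp only at hab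
      exact (List.append_inj' hab (by rw [NUD_up_len, NUD_up_len])).1
    refine le_trans ?_ (ms_cl H hz 1 x)
    exact ENNReal.tsum_comp_le_tsum_of_injective hinj (zw z (ClR G h 1) x)
  have key : ∀ b : List V, zw z (fun x l => BrR G h x l ∧ spn h x l < 1) x b ≤
      ∑ j ∈ Finset.Icc 1 k, z⁻¹ ^ j * zw z (ClR G h 1) x (b ++ NUD_up u j (endp x b)) := by
    intro b
    by_cases hb : BrR G h x b ∧ spn h x b < 1
    · obtain ⟨hb1, hb2⟩ := hb
      have hspn : ∀ j : ℕ, spn h x (b ++ NUD_up u j (endp x b)) = spn h x b + j * δ0 := by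
        intro j
        rw [spn_append]
        unfold spn
        rw [NUD_up_h hu]
        ring
      have h0 := spn_nonneg hb1
      have hex : ∃ j : ℕ, 1 ≤ spn h x b + j * δ0 := ⟨k, by linarith⟩
      have hj1 := Nat.find_spec hex
      have hjk : Nat.find hex ≤ k := Nat.find_min' hex (by linarith)
      have hmin : ∀ i, i < Nat.find hex → spn h x b + i * δ0 < 1 := fun i hi => not_le.1 (Nat.find_min hex hi)
      set j := Nat.find hex with hj
      have hj0 : 1 ≤ j := by
        by_contra hc
        have hj00 : j = 0 := by omega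
        rw [hj00] at hj1
        simp only [Nat.cast_zero, zero_mul, add_zero] at hj1
        linarith
      have hbj : BrR G h x (b ++ NUD_up u j (endp x b)) := BrR_append hb1 (NUD_up_br hδ hu hadj j _)
      have hcl : ClR G h 1 x (b ++ NUD_up u j (endp x b)) := by
        refine ⟨hbj, by rw [hspn]; exact hj1, ?_⟩
        intro l1 l2 he hne hbl hsl _
        obtain ⟨i, hi⟩ : ∃ i, j = i + 1 := ⟨j - 1, by omega⟩
        obtain ⟨w, hw⟩ := NUD_up_last u i (endp x b)
        have he2 : b ++ NUD_up u j (endp x b) = (b ++ NUD_up u i (endp x b)) ++ [w] := by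
          rw [hi, hw, List.append_assoc]
        rw [he2] at he
        -- `l1` is an initial part of the shorter walk
        have hpre : ∃ m, b ++ NUD_up u i (endp x b) = l1 ++ m := by
          have hl2 : l2 = l2.dropLast ++ [l2.getLast hne] := (List.dropLast_append_getLast hne).symm
          rw [hl2, ← List.append_assoc] at he
          exact ⟨_, (List.append_inj' he rfl).1⟩
        obtain ⟨m, hm⟩ := hpre
        have hbi : BrR G h x (b ++ NUD_up u i (endp x b)) := BrR_append hb1 (NUD_up_br hδ hu hadj i _)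
        have hsi := hmin i (by omega)
        have hsi2 := hspn i
        have hle : h (endp x l1) ≤ h (endp x (b ++ NUD_up u i (endp x b))) := by
          rcases List.mem_cons.1 (endp_mem x l1) with h3 | h3
          · rw [h3]
            have := spn_nonneg hbi
            unfold spn at this
            linarith
          · refine (hbi.2 _ ?_).2
            rw [hm]
            exact List.mem_append_left _ h3
        unfold spn at hsl hsi2 hsi
        linarith
      have hmem : j ∈ Finset.Icc 1 k := Finset.mem_Icc.2 ⟨hj0, hjk⟩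
      refine le_trans ?_ (Finset.single_le_sum (f := fun j => z⁻¹ ^ j * zw z (ClR G h 1) x (b ++ NUD_up u j (endp x b)))
        (fun _ _ => zero_le) hmem)
      unfold zw
      rw [if_pos ⟨hb1, hb2⟩, if_pos hcl, List.length_append, NUD_up_len, pow_add, mul_comm (z ^ b.length), ← mul_assoc,
        ← mul_pow, ENNReal.inv_mul_cancel hz0 hzt, one_pow, one_mul]
    · unfold zw
      rw [if_neg hb]
      exact zero_le
  unfold ms
  calc ∑' b, zw z (fun x l => BrR G h x l ∧ spn h x l < 1) x b
      ≤ ∑' b, ∑ j ∈ Finset.Icc 1 k, z⁻¹ ^ j * zw z (ClR G h 1) x (b ++ NUD_up u j (endp x b)) :=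
        ENNReal.tsum_le_tsum key
    _ = ∑ j ∈ Finset.Icc 1 k, z⁻¹ ^ j * ∑' b, zw z (ClR G h 1) x (b ++ NUD_up u j (endp x b)) := by
        rw [Summable.tsum_finsetSum (fun _ _ => ENNReal.summable)]
        exact Finset.sum_congr rfl fun j _ => ENNReal.tsum_mul_left
    _ ≤ ∑ j ∈ Finset.Icc 1 k, z⁻¹ ^ k := by
        refine Finset.sum_le_sum fun j hj => ?_
        refine (mul_le_mul_right (hmap j) _).trans ?_
        rw [mul_one]
        exact pow_le_pow_right₀ (ENNReal.one_le_inv.2 hz1) (Finset.mem_Icc.1 hj).2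
    _ = k * z⁻¹ ^ k := by
        rw [Finset.sum_const, Nat.card_Icc, nsmul_eq_mul, Nat.add_sub_cancel]

theorem ms_lev {G : SimpleGraph V} {h : V → ℝ} (H : Ng G h) {δ0 : ℝ} (hδ : 0 < δ0) (hup : ∀ x, ∃ y, G.Adj x y ∧ h y = h x + δ0)
    {k : ℕ} (hk : 1 ≤ k * δ0) {z : ℝ≥0∞} (hz0 : z ≠ 0) (hz1 : z ≤ 1) (hz : ∀ x, ms (sa G z) x ≠ ⊤) (T : ℕ) (x : V) :
    ms (zw z (fun x l => BrR G h x l ∧ (T : ℝ) ≤ spn h x l ∧ spn h x l < T + 1)) x ≤ k * z⁻¹ ^ k := by
  have h1 : ∀ l, zw z (fun x l => BrR G h x l ∧ (T : ℝ) ≤ spn h x l ∧ spn h x l < T + 1) x l ≤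
      cv (zw z (ClR G h T)) (zw z (fun x l => BrR G h x l ∧ spn h x l < 1)) x l := by
    intro l
    by_cases hl : BrR G h x l ∧ (T : ℝ) ≤ spn h x l ∧ spn h x l < T + 1
    · obtain ⟨l1, l2, e, hc, hb⟩ := ClR_split hl.1 hl.2.1
      have hs : spn h (endp x l1) l2 < 1 := by
        have h2 := spn_append h x l1 l2
        rw [← e] at h2
        have h3 := hc.2.1
        linarith [hl.2.2]
      unfold cv
      have hi : l1.length ∈ Finset.range (l.length + 1) := by
        rw [Finset.mem_range, e, List.length_append]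
        omega
      refine le_trans ?_ (Finset.single_le_sum (f := fun i => zw z (ClR G h T) x (l.take i) *
        zw z (fun x l => BrR G h x l ∧ spn h x l < 1) (endp x (l.take i)) (l.drop i)) (fun _ _ => zero_le) hi)
      have e1 : l.take l1.length = l1 := by rw [e, List.take_left]
      have e2 : l.drop l1.length = l2 := by rw [e, List.drop_left]
      rw [e1, e2]
      unfold zw
      rw [if_pos hl, if_pos hc, if_pos ⟨hb, hs⟩, e, List.length_append, pow_add]
    · unfold zw
      rw [if_neg hl]
      exact zero_le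
  refine (ms_mono x h1).trans ((ms_cv_le fun y => ms_low H hδ hup hk hz0 hz1 hz y).trans ?_)
  calc ms (zw z (ClR G h T)) x * (k * z⁻¹ ^ k) ≤ 1 * (k * z⁻¹ ^ k) := mul_le_mul_left (ms_cl H hz T x) _
    _ = k * z⁻¹ ^ k := one_mul _

end Pool.Agent.SAWG
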