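import Pool.Agent.SAWG.NUD
import Pool.Agent.SAWG.NUB

/-!
# SAWG module NUE: nonunimodular case: tilted masses of bridges

PROOFS.  `tk_up`: `tk h (kr (zw z BrR)) x = ∑_l z^|l| exp (-(spn l)/2)` (`tk_kr`), group by `T = ⌊spn l⌋` (`spn ≥ 0`): `≤ ∑_T exp (-T/2) * ms_lev ≤ k z⁻¹^k / (1 - exp (-1/2)) ≤ 3 k z⁻¹^k`.
`ms_co`: walks `l` from `x` (nonempty or empty) with `Sw`, `h x ≤ h y` for all `y ∈ l`, and `h y < h (endp x l)` for all `y ∈ x :: l.dropLast` (if `l ≠ []`), and `T ≤ spn l < T + 1`: put a lower neighbour `x'` of `x` (`h x' < h x`, `|h x - h x'| ≤ m`) in front: `x :: l` is a bridge from `x'` of span in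
`[T, T + 1 + m]`, weight `z^(|l|+1)`: `ms ≤ z⁻¹ ∑_{i=0}^{m} ms_lev (T + i) (x') + …` so `≤ z⁻¹ (m+2) k z⁻¹^k` (the span is `> T`, `< T + 1 + m`... at most `m + 2` unit intervals).
`tk_dn`: the kernel of the bridges for `-h` is the transposed kernel of the kernel of the reversed walks, which are the walks of `ms_co` (reversal: `l ↦ (x :: l).reverse.tail` from `endp x l`).  `tk_tp`, then as in `tk_up`: for the reversed walk, of span `≥ 0`, the factor is `exp (-(spn)/2)`.
-/

set_option autoImplicit false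

open scoped ENNReal NNReal Classical
open Filter Topology

namespace Pool.Agent.SAWG

open Pool.Agent.SWH (Ker idK adK tp endp Sw endp_nil endp_cons endp_append endp_mem)

variable {V : Type}

/-- Reversed bridges of `-h`. -/
def Cob (G : SimpleGraph V) (h : V → ℝ) (x : V) (l : List V) : Prop :=
  Sw G x l ∧ (∀ y ∈ l, h x ≤ h y) ∧ ∀ y ∈ (x :: l).dropLast, h y < h (endp x l)

/-! ### Reversed lists -/

private def NUE_rv (x : V) (l : List V) : List V := (x :: l).reverse.tail

private theorem NUE_snoc (x a : V) (l : List V) : NUE_rv x (l ++ [a]) = (x :: l).reverse := by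
  unfold NUE_rv
  simp

private theorem NUE_endp_snoc (x a : V) (l : List V) : endp x (l ++ [a]) = a := by
  rw [endp_append, endp_cons, endp_nil]

private theorem NUE_length (x : V) (l : List V) : (NUE_rv x l).length = l.length := by
  unfold NUE_rv
  simp

private theorem NUE_cons (x : V) (l : List V) : endp x l :: NUE_rv x l = (x :: l).reverse := by
  rcases List.eq_nil_or_concat l with rfl | ⟨l', a, rfl⟩
  · simp [NUE_rv, endp]
  · rw [List.concat_eq_append, NUE_snoc, NUE_endp_snoc]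
    simp

private theorem NUE_endp (x : V) (l : List V) : endp (endp x l) (NUE_rv x l) = x := by
  rcases List.eq_nil_or_concat l with rfl | ⟨l', a, rfl⟩
  · simp [NUE_rv, endp]
  · rw [List.concat_eq_append, NUE_snoc, List.reverse_cons, NUE_endp_snoc]

private theorem NUE_rr (x : V) (l : List V) : NUE_rv (endp x l) (NUE_rv x l) = l := by
  have h1 : NUE_rv (endp x l) (NUE_rv x l) = (endp x l :: NUE_rv x l).reverse.tail := rfl
  rw [h1, NUE_cons, List.reverse_reverse, List.tail_cons]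

private theorem NUE_mem (x : V) (l : List V) (v : V) : v ∈ endp x l :: NUE_rv x l ↔ v ∈ x :: l := by
  rw [NUE_cons, List.mem_reverse]

private theorem NUE_Sw {G : SimpleGraph V} {x : V} {l : List V} (h : Sw G x l) : Sw G (endp x l) (NUE_rv x l) := by
  constructor
  · rw [NUE_cons, List.isChain_reverse]
    exact h.1.imp (fun a b hab => hab.symm)
  · rw [NUE_cons, List.nodup_reverse]
    exact h.2

private theorem NUE_drop (x : V) (l : List V) : (x :: l).dropLast ++ [endp x l] = x :: l := by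
  induction l generalizing x with
  | nil => simp [endp]
  | cons a l ih => rw [List.dropLast_cons_cons, endp_cons, List.cons_append, ih]

private theorem NUE_dropr (x : V) (l : List V) (v : V) :
    v ∈ (endp x l :: NUE_rv x l).dropLast ↔ v ∈ l := by
  rw [NUE_cons, List.reverse_cons, List.dropLast_append_of_ne_nil (by simp)]
  simp

/-- Walks reversed. -/
private theorem NUE_iff {G : SimpleGraph V} (h : V → ℝ) (x : V) (l : List V) :
    BrR G (fun v => -h v) x l ↔ Cob G h (endp x l) (NUE_rv x l) := by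
  constructor
  · rintro ⟨h1, h2⟩
    refine ⟨NUE_Sw h1, ?_, ?_⟩
    · intro w hw
      have h3 := (NUE_mem x l w).1 (List.mem_cons_of_mem _ hw)
      rcases List.mem_cons.1 h3 with rfl | h4
      · cases l with
        | nil => simp [NUE_rv] at hw
        | cons a l =>
          have h5 : endp w (a :: l) ∈ a :: l := by
            rw [endp_cons]
            exact endp_mem a l
          have h6 := (h2 _ h5).1
          linarith
      · have h6 := (h2 w h4).2
        linarith
    · intro w hw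
      have h3 := (NUE_dropr x l w).1 hw
      rw [NUE_endp]
      have h6 := (h2 w h3).1
      linarith
  · rintro ⟨h1, h2, h3⟩
    have h4 := NUE_Sw h1
    rw [NUE_endp, NUE_rr] at h4
    refine ⟨h4, ?_⟩
    intro w hw
    have h5 := h3 w ((NUE_dropr x l w).2 hw)
    rw [NUE_endp] at h5
    refine ⟨by linarith, ?_⟩
    have h6 := (NUE_mem x l w).2 (List.mem_cons_of_mem _ hw)
    rcases List.mem_cons.1 h6 with h7 | h7
    · rw [← h7]
    · have h8 := h2 w h7
      linarith

/-! ### Sums over levels -/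

private theorem NUE_geo (c : ℝ≥0∞) :
    ∑' T : ℕ, ENNReal.ofReal (Real.exp (-(T : ℝ) / 2)) * c ≤ 3 * c := by
  rw [ENNReal.tsum_mul_right]
  gcongr
  have e : ∀ T : ℕ, ENNReal.ofReal (Real.exp (-(T : ℝ) / 2)) = ENNReal.ofReal (Real.exp (-1 / 2)) ^ T := by
    intro T
    rw [← ENNReal.ofReal_pow (Real.exp_pos _).le, ← Real.exp_nat_mul]
    congr 2
    ring
  simp_rw [e]
  rw [ENNReal.tsum_geometric]
  rw [ENNReal.inv_le_iff_inv_le]
  have h1 : Real.exp (-1 / 2) ≤ 2 / 3 := by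
    have h2 : (3 / 2 : ℝ) ≤ Real.exp (1 / 2) := by
      have := Real.add_one_le_exp (1 / 2 : ℝ)
      linarith
    have h3 : Real.exp (-1 / 2) = (Real.exp (1 / 2))⁻¹ := by
      rw [← Real.exp_neg]
      congr 1
      ring
    rw [h3]
    have h4 := inv_anti₀ (by norm_num : (0 : ℝ) < 3 / 2) h2
    refine h4.trans ?_
    norm_num
  have h5 : (3 : ℝ≥0∞)⁻¹ = ENNReal.ofReal (1 / 3) := by
    rw [one_div, ENNReal.ofReal_inv_of_pos (by norm_num)]
    norm_num
  have h6 : (1 : ℝ≥0∞) - ENNReal.ofReal (Real.exp (-1 / 2)) = ENNReal.ofReal (1 - Real.exp (-1 / 2)) := by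
    rw [ENNReal.ofReal_sub _ (Real.exp_pos _).le, ENNReal.ofReal_one]
  rw [h5, h6]
  exact ENNReal.ofReal_le_ofReal (by linarith)

private theorem NUE_grp (s : List V → ℝ) (a : List V → ℝ≥0∞) (c : ℝ≥0∞) (h0 : ∀ l, a l ≠ 0 → 0 ≤ s l)
    (hT : ∀ T : ℕ, ∑' l, (if (T : ℝ) ≤ s l ∧ s l < T + 1 then a l else 0) ≤ c) :
    ∑' l, a l * ENNReal.ofReal (Real.exp (-(s l) / 2)) ≤ 3 * c := by
  calc ∑' l, a l * ENNReal.ofReal (Real.exp (-(s l) / 2))
      ≤ ∑' l, ∑' T : ℕ, ENNReal.ofReal (Real.exp (-(T : ℝ) / 2)) *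
          (if (T : ℝ) ≤ s l ∧ s l < T + 1 then a l else 0) := by
        refine ENNReal.tsum_le_tsum fun l => ?_
        by_cases hl : a l = 0
        · rw [hl, zero_mul]
          exact zero_le
        · have h1 := h0 l hl
          have h2 := Nat.floor_le h1
          have h3 := Nat.lt_floor_add_one (s l)
          refine le_trans ?_ (ENNReal.le_tsum ⌊s l⌋₊)
          rw [if_pos ⟨h2, h3⟩, mul_comm]
          gcongr
    _ = ∑' T : ℕ, ENNReal.ofReal (Real.exp (-(T : ℝ) / 2)) *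
          ∑' l, (if (T : ℝ) ≤ s l ∧ s l < T + 1 then a l else 0) := by
        rw [ENNReal.tsum_comm]
        simp_rw [ENNReal.tsum_mul_left]
    _ ≤ ∑' T : ℕ, ENNReal.ofReal (Real.exp (-(T : ℝ) / 2)) * c :=
        ENNReal.tsum_le_tsum fun T => mul_le_mul_right (hT T) _
    _ ≤ 3 * c := NUE_geo c

private theorem NUE_if (h : V → ℝ) (z : ℝ≥0∞) (P : V → List V → Prop) (x : V) (T : ℕ) (l : List V) :
    (if (T : ℝ) ≤ spn h x l ∧ spn h x l < T + 1 then zw z P x l else 0) =
      zw z (fun x l => P x l ∧ (T : ℝ) ≤ spn h x l ∧ spn h x l < T + 1) x l := by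
  unfold zw
  by_cases h1 : (T : ℝ) ≤ spn h x l ∧ spn h x l < T + 1
  · by_cases h2 : P x l
    · rw [if_pos h1, if_pos h2, if_pos ⟨h2, h1⟩]
    · rw [if_pos h1, if_neg h2, if_neg (fun h3 => h2 h3.1)]
  · rw [if_neg h1, if_neg (fun h3 => h1 h3.2)]

private theorem NUE_spn (h : V → ℝ) (x : V) (l : List V) : (h x - h (endp x l)) / 2 = -(spn h x l) / 2 := by
  unfold spn
  ring

theorem tk_up {G : SimpleGraph V} {h : V → ℝ} (H : Ng G h) {δ0 : ℝ} (hδ : 0 < δ0) (hup : ∀ x, ∃ y, G.Adj x y ∧ h y = h x + δ0)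
    {k : ℕ} (hk : 1 ≤ k * δ0) {z : ℝ≥0∞} (hz0 : z ≠ 0) (hz1 : z ≤ 1) (hz : ∀ x, ms (sa G z) x ≠ ⊤) (x : V) :
    tk h (kr (zw z (BrR G h))) x ≤ 3 * (k * z⁻¹ ^ k) := by
  rw [tk_kr]
  simp_rw [NUE_spn]
  refine NUE_grp (spn h x) (zw z (BrR G h) x) _ ?_ ?_
  · intro l hl
    have h1 : BrR G h x l := by
      by_contra h2
      exact hl (if_neg h2)
    exact spn_nonneg h1
  · intro T
    simp_rw [NUE_if]
    exact ms_lev H hδ hup hk hz0 hz1 hz T x

theorem ms_co {G : SimpleGraph V} {h : V → ℝ} (H : Ng G h) {δ0 : ℝ} (hδ : 0 < δ0) (hup : ∀ x, ∃ y, G.Adj x y ∧ h y = h x + δ0)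
    {k : ℕ} (hk : 1 ≤ k * δ0) {m : ℕ} (hm : ∀ x y, G.Adj x y → |h x - h y| ≤ m) (hdn : ∀ x, ∃ y, G.Adj x y ∧ h y < h x)
    {z : ℝ≥0∞} (hz0 : z ≠ 0) (hz1 : z ≤ 1) (hz : ∀ x, ms (sa G z) x ≠ ⊤) (T : ℕ) (x : V) :
    ms (zw z (fun x l => Cob G h x l ∧ (T : ℝ) ≤ spn h x l ∧ spn h x l < T + 1)) x ≤ z⁻¹ * ((m + 2) * (k * z⁻¹ ^ k)) := by
  obtain ⟨x', hxx, hlt⟩ := hdn x
  have hzt : z ≠ ⊤ := ne_top_of_le_ne_top ENNReal.one_ne_top hz1
  set W : ℕ → List V → ℝ≥0∞ := fun i => zw z (fun x l => BrR G h x l ∧ ((T + i : ℕ) : ℝ) ≤ spn h x l ∧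
    spn h x l < ((T + i : ℕ) : ℝ) + 1) x' with hW
  have key : ∀ l, zw z (fun x l => Cob G h x l ∧ (T : ℝ) ≤ spn h x l ∧ spn h x l < T + 1) x l ≤
      z⁻¹ * ∑ i ∈ Finset.range (m + 2), W i (x :: l) := by
    intro l
    by_cases hP : Cob G h x l ∧ (T : ℝ) ≤ spn h x l ∧ spn h x l < T + 1
    · obtain ⟨⟨h1, h2, h3⟩, h4, h5⟩ := hP
      have hge : ∀ y ∈ x :: l, h x ≤ h y := by
        intro y hy
        rcases List.mem_cons.1 hy with rfl | hy
        · exact le_rfl
        · exact h2 y hy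
      have hbr : BrR G h x' (x :: l) := by
        refine ⟨⟨?_, ?_⟩, ?_⟩
        · rw [List.isChain_cons_cons]
          exact ⟨hxx.symm, h1.1⟩
        · rw [List.nodup_cons]
          refine ⟨fun hmem => ?_, h1.2⟩
          exact absurd (hge x' hmem) (not_le.2 hlt)
        · intro y hy
          refine ⟨lt_of_lt_of_le hlt (hge y hy), ?_⟩
          rw [endp_cons]
          have h6 := NUE_drop x l
          rw [← h6, List.mem_append, List.mem_singleton] at hy
          rcases hy with hy | rfl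
          · exact (h3 y hy).le
          · exact le_rfl
      have hsp : spn h x' (x :: l) = spn h x l + (h x - h x') := by
        unfold spn
        rw [endp_cons]
        ring
      have hd : |h x - h x'| ≤ m := hm x x' hxx
      have hd1 : h x - h x' ≤ m := (le_abs_self _).trans hd
      have hd2 : 0 < h x - h x' := by linarith
      have hs0 : (T : ℝ) ≤ spn h x' (x :: l) := by linarith
      have hs1 : spn h x' (x :: l) < T + m + 1 := by linarith
      have hs00 : 0 ≤ spn h x' (x :: l) := le_trans (Nat.cast_nonneg T) hs0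
      -- the level
      obtain ⟨i, hi⟩ : ∃ i, ⌊spn h x' (x :: l)⌋₊ = T + i :=
        Nat.exists_eq_add_of_le (Nat.le_floor hs0)
      have hfl := Nat.floor_le hs00
      have hfl2 := Nat.lt_floor_add_one (spn h x' (x :: l))
      rw [hi] at hfl hfl2
      have him : i ∈ Finset.range (m + 2) := by
        rw [Finset.mem_range]
        have h7 : ((T + i : ℕ) : ℝ) < T + m + 1 := lt_of_le_of_lt hfl hs1
        have h8 : T + i < T + m + 1 := by exact_mod_cast h7
        omega
      have hWi : W i (x :: l) = z ^ (l.length + 1) := by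
        rw [hW]
        exact if_pos ⟨hbr, hfl, hfl2⟩
      calc zw z (fun x l => Cob G h x l ∧ (T : ℝ) ≤ spn h x l ∧ spn h x l < T + 1) x l
          = z ^ l.length := if_pos ⟨⟨h1, h2, h3⟩, h4, h5⟩
        _ = z⁻¹ * z ^ (l.length + 1) := by
            rw [pow_succ', ← mul_assoc, ENNReal.inv_mul_cancel hz0 hzt, one_mul]
        _ = z⁻¹ * W i (x :: l) := by rw [hWi]
        _ ≤ z⁻¹ * ∑ i ∈ Finset.range (m + 2), W i (x :: l) := by
            gcongr
            exact Finset.single_le_sum (f := fun i => W i (x :: l)) (fun _ _ => zero_le) him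
    · have h0 : zw z (fun x l => Cob G h x l ∧ (T : ℝ) ≤ spn h x l ∧ spn h x l < T + 1) x l = 0 := if_neg hP
      rw [h0]
      exact zero_le
  unfold ms
  calc ∑' l, zw z (fun x l => Cob G h x l ∧ (T : ℝ) ≤ spn h x l ∧ spn h x l < T + 1) x l
      ≤ ∑' l, z⁻¹ * ∑ i ∈ Finset.range (m + 2), W i (x :: l) := ENNReal.tsum_le_tsum key
    _ = z⁻¹ * ∑ i ∈ Finset.range (m + 2), ∑' l, W i (x :: l) := by
        rw [ENNReal.tsum_mul_left, Summable.tsum_finsetSum (fun _ _ => ENNReal.summable)]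
    _ ≤ z⁻¹ * ∑ i ∈ Finset.range (m + 2), (k * z⁻¹ ^ k) := by
        gcongr with i _
        refine (ENNReal.tsum_comp_le_tsum_of_injective (List.cons_injective (a := x)) (W i)).trans ?_
        have h9 := ms_lev H hδ hup hk hz0 hz1 hz (T + i) x'
        exact h9
    _ = z⁻¹ * ((m + 2) * (k * z⁻¹ ^ k)) := by
        rw [Finset.sum_const, Finset.card_range, nsmul_eq_mul]
        push_cast
        rfl

theorem kr_rev {G : SimpleGraph V} (h : V → ℝ) (z : ℝ≥0∞) (x y : V) :
    kr (zw z (BrR G (fun v => -h v))) x y = kr (zw z (fun x l => Cob G h x l)) y x := by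
  unfold kr
  set f : List V → ℝ≥0∞ := fun l => if endp x l = y then zw z (BrR G (fun v => -h v)) x l else 0 with hf
  set g : List V → ℝ≥0∞ := fun l => if endp y l = x then zw z (fun x l => Cob G h x l) y l else 0 with hg
  have hgne : ∀ l, g l ≠ 0 → endp y l = x := by
    intro l hl
    by_contra h1
    exact hl (if_neg h1)
  have hfne : ∀ l, f l ≠ 0 → endp x l = y := by
    intro l hl
    by_contra h1
    exact hl (if_neg h1)
  have hkey : ∀ l, endp y l = x → f (NUE_rv y l) = g l := by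
    intro l hl
    subst hl
    have h1 : f (NUE_rv y l) = zw z (BrR G (fun v => -h v)) (endp y l) (NUE_rv y l) := by
      rw [hf]
      exact if_pos (NUE_endp y l)
    have h2 : g l = zw z (fun x l => Cob G h x l) y l := by
      rw [hg]
      exact if_pos rfl
    rw [h1, h2]
    unfold zw
    have h3 := NUE_iff (G := G) h (endp y l) (NUE_rv y l)
    rw [NUE_endp, NUE_rr] at h3
    rw [NUE_length]
    by_cases h4 : Cob G h y l
    · rw [if_pos (h3.2 h4), if_pos h4]
    · rw [if_neg (fun h5 => h4 (h3.1 h5)), if_neg h4]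
  refine tsum_eq_tsum_of_ne_zero_bij (fun l : Function.support g => NUE_rv y l.1) ?_ ?_ ?_
  · rintro ⟨l1, h1⟩ ⟨l2, h2⟩ h12
    have e1 := hgne l1 h1
    have e2 := hgne l2 h2
    have h3 : NUE_rv y l1 = NUE_rv y l2 := h12
    have r1 := NUE_rr y l1
    have r2 := NUE_rr y l2
    rw [e1] at r1
    rw [e2] at r2
    exact Subtype.ext (r1.symm.trans ((congrArg (NUE_rv x) h3).trans r2))
  · intro l hl
    have e1 := hfne l hl
    have e2 : endp y (NUE_rv x l) = x := by
      rw [← e1]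
      exact NUE_endp x l
    have e3 : NUE_rv y (NUE_rv x l) = l := by
      rw [← e1]
      exact NUE_rr x l
    refine ⟨⟨NUE_rv x l, ?_⟩, e3⟩
    have h4 := hkey (NUE_rv x l) e2
    rw [e3] at h4
    change g (NUE_rv x l) ≠ 0
    rw [← h4]
    exact hl
  · rintro ⟨l, hl⟩
    exact hkey l (hgne l hl)

private theorem NUE_Cob_map {G : SimpleGraph V} {h : V → ℝ} (H : Ng G h) (φ : G ≃g G) (x : V) (l : List V) :
    Cob G h (φ x) (l.map φ) ↔ Cob G h x l := by
  have hle : ∀ a b : V, h (φ a) ≤ h (φ b) ↔ h a ≤ h b := by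
    intro a b
    have := H.inv φ a b
    constructor <;> intro h1 <;> linarith
  have hlt : ∀ a b : V, h (φ a) < h (φ b) ↔ h a < h b := by
    intro a b
    have := H.inv φ a b
    constructor <;> intro h1 <;> linarith
  unfold Cob
  rw [Sw_map]
  have e1 : (∀ y ∈ l.map φ, h (φ x) ≤ h y) ↔ ∀ y ∈ l, h x ≤ h y := by
    constructor
    · intro h1 y hy
      exact (hle x y).1 (h1 _ (List.mem_map_of_mem hy))
    · intro h1 y hy
      obtain ⟨w, hw, rfl⟩ := List.mem_map.1 hy
      exact (hle x w).2 (h1 w hw)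
  have e2 : (∀ y ∈ (φ x :: l.map φ).dropLast, h y < h (endp (φ x) (l.map φ))) ↔
      ∀ y ∈ (x :: l).dropLast, h y < h (endp x l) := by
    rw [← List.map_cons, ← List.map_dropLast, endp_map]
    constructor
    · intro h1 y hy
      exact (hlt _ _).1 (h1 _ (List.mem_map_of_mem hy))
    · intro h1 y hy
      obtain ⟨w, hw, rfl⟩ := List.mem_map.1 hy
      exact (hlt _ _).2 (h1 w hw)
  rw [e1, e2]

theorem tk_dn {G : SimpleGraph V} {h : V → ℝ} (H : Ng G h) {δ0 : ℝ} (hδ : 0 < δ0) (hup : ∀ x, ∃ y, G.Adj x y ∧ h y = h x + δ0)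
    {k : ℕ} (hk : 1 ≤ k * δ0) {m : ℕ} (hm : ∀ x y, G.Adj x y → |h x - h y| ≤ m) (hdn : ∀ x, ∃ y, G.Adj x y ∧ h y < h x)
    {z : ℝ≥0∞} (hz0 : z ≠ 0) (hz1 : z ≤ 1) (hz : ∀ x, ms (sa G z) x ≠ ⊤) (x : V) :
    tk h (kr (zw z (BrR G (fun v => -h v)))) x ≤ 3 * (z⁻¹ * ((m + 2) * (k * z⁻¹ ^ k))) := by
  have e : kr (zw z (BrR G (fun v => -h v))) = tp (kr (zw z (fun x l => Cob G h x l))) := by
    funext a b
    exact kr_rev h z a b
  rw [e, tk_tp H (InvG_kr (InvP_zw z (NUE_Cob_map H))), tk_kr]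
  simp_rw [NUE_spn]
  refine NUE_grp (spn h x) (zw z (fun x l => Cob G h x l) x) _ ?_ ?_
  · intro l hl
    have h1 : Cob G h x l := by
      by_contra h2
      exact hl (if_neg h2)
    unfold spn
    have h3 := endp_mem x l
    rcases List.mem_cons.1 h3 with h4 | h4
    · rw [h4, sub_self]
    · have := h1.2.1 _ h4
      linarith
  · intro T
    simp_rw [NUE_if]
    exact ms_co H hδ hup hk hm hdn hz0 hz1 hz T x

end Pool.Agent.SAWG
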