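import Pool.Agent.SAWG.NDf

/-!
# SAWG module NUI: a discrete Gronwall inequality

PROOF.  `Gt t = ∑' T, if T < t then g T else 0` (finite).  For a finite set `F` of numbers `< t`: claim `1 + ∑_{T ∈ F} g T * exp (Gt T) ≤ exp (Gt t)` by induction on `|F|` for all `t`: let `M` be the largest element of `F`; by induction (with `t = M`)
`1 + ∑_{T ∈ F, T < M} g T exp (Gt T) ≤ exp (Gt M)`, so the left side is `≤ exp (Gt M) (1 + g M) ≤ exp (Gt M + g M) ≤ exp (Gt t)` since `Gt M + g M ≤ Gt t` (`M < t`).  Then take the supremum over `F` (`ENNReal.tsum_eq_iSup_sum`).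
Consequence `hw_iter`: if `H_0 ≤ 1` and `H_(n+1) t ≤ 1 + ∑' T, [T < t] g T * H_n T` then `H_n t ≤ exp (Gt t)`, `≤ exp (∑ g)`.
-/

set_option autoImplicit false

open scoped ENNReal NNReal Classical
open Filter Topology

namespace Pool.Agent.SAWG

open Pool.Agent.SWH (Ker idK adK tp endp Sw endp_nil endp_cons endp_append endp_mem)

variable {V : Type}

theorem nui_one_le (x : ℝ≥0∞) : 1 ≤ ENNReal.ofReal (Real.exp x.toReal) := by
  rw [← ENNReal.ofReal_one]
  exact ENNReal.ofReal_le_ofReal (Real.one_le_exp ENNReal.toReal_nonneg)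

theorem nui_mono {x y : ℝ≥0∞} (h : x ≤ y) (hy : y ≠ ⊤) :
    ENNReal.ofReal (Real.exp x.toReal) ≤ ENNReal.ofReal (Real.exp y.toReal) :=
  ENNReal.ofReal_le_ofReal (Real.exp_le_exp.mpr (ENNReal.toReal_mono hy h))

theorem nui_le_tot (g : ℝ → ℝ≥0∞) (t : ℝ) : (∑' S : ℝ, if S < t then g S else 0) ≤ ∑' S, g S :=
  ENNReal.tsum_le_tsum fun S => by split_ifs <;> simp

theorem nui_fin {g : ℝ → ℝ≥0∞} (hg : ∑' T, g T ≠ ⊤) (t : ℝ) : (∑' S : ℝ, if S < t then g S else 0) ≠ ⊤ :=
  ne_top_of_le_ne_top hg (nui_le_tot g t)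

theorem nui_add {g : ℝ → ℝ≥0∞} {a t : ℝ} (hat : a < t) :
    (∑' S : ℝ, if S < a then g S else 0) + g a ≤ ∑' S : ℝ, if S < t then g S else 0 := by
  have h1 : g a = ∑' S : ℝ, if S = a then g S else 0 := (tsum_ite_eq a g).symm
  rw [h1, ← ENNReal.tsum_add]
  refine ENNReal.tsum_le_tsum fun S => ?_
  by_cases h1 : S < a
  · have h2 : S ≠ a := h1.ne
    have h3 : S < t := h1.trans hat
    simp [h1, h2, h3]
  · by_cases h2 : S = a
    · subst h2
      simp [hat]
    · simp [h1, h2]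

theorem nui_fs {g : ℝ → ℝ≥0∞} (hg : ∑' T, g T ≠ ⊤) (F : Finset ℝ) : ∀ t : ℝ, (∀ T ∈ F, T < t) →
    1 + ∑ T ∈ F, g T * ENNReal.ofReal (Real.exp (∑' S : ℝ, if S < T then g S else 0).toReal) ≤
      ENNReal.ofReal (Real.exp (∑' S : ℝ, if S < t then g S else 0).toReal) := by
  induction F using Finset.induction_on_max with
  | empty =>
    intro t _
    simpa using nui_one_le _
  | insert a s ha ih =>
    intro t ht
    have hat : a < t := ht a (Finset.mem_insert_self _ _)
    have hns : a ∉ s := fun h => (lt_irrefl a) (ha a h)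
    rw [Finset.sum_insert hns]
    have h1 := ih a ha
    set E := ENNReal.ofReal (Real.exp (∑' S : ℝ, if S < a then g S else 0).toReal) with hE
    have hga : g a ≠ ⊤ := ne_top_of_le_ne_top hg (ENNReal.le_tsum a)
    have h2 : 1 + g a ≤ ENNReal.ofReal (Real.exp (g a).toReal) := by
      have h3 := Real.add_one_le_exp (g a).toReal
      calc 1 + g a = ENNReal.ofReal ((g a).toReal + 1) := by
            rw [ENNReal.ofReal_add ENNReal.toReal_nonneg zero_le_one, ENNReal.ofReal_toReal hga, ENNReal.ofReal_one, add_comm]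
        _ ≤ _ := ENNReal.ofReal_le_ofReal h3
    calc 1 + (g a * E + ∑ T ∈ s, g T * ENNReal.ofReal (Real.exp (∑' S : ℝ, if S < T then g S else 0).toReal))
        = g a * E + (1 + ∑ T ∈ s, g T * ENNReal.ofReal (Real.exp (∑' S : ℝ, if S < T then g S else 0).toReal)) := by ring
      _ ≤ g a * E + E := by gcongr
      _ = E * (1 + g a) := by ring
      _ ≤ E * ENNReal.ofReal (Real.exp (g a).toReal) := by gcongr
      _ = ENNReal.ofReal (Real.exp ((∑' S : ℝ, if S < a then g S else 0) + g a).toReal) := by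
          rw [hE, ← ENNReal.ofReal_mul (Real.exp_pos _).le, ← Real.exp_add, ENNReal.toReal_add (nui_fin hg a) hga]
      _ ≤ _ := nui_mono (nui_add hat) (nui_fin hg t)

theorem gron {g : ℝ → ℝ≥0∞} (hg : ∑' T, g T ≠ ⊤) (t : ℝ) :
    1 + ∑' T : ℝ, (if T < t then g T * ENNReal.ofReal (Real.exp (∑' S : ℝ, if S < T then g S else 0).toReal) else 0) ≤
      ENNReal.ofReal (Real.exp (∑' S : ℝ, if S < t then g S else 0).toReal) := by
  rw [ENNReal.tsum_eq_iSup_sum, ENNReal.add_iSup]
  refine iSup_le fun F => ?_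
  rw [← Finset.sum_filter]
  exact nui_fs hg _ t fun T hT => (Finset.mem_filter.mp hT).2

theorem hw_iter {g : ℝ → ℝ≥0∞} (hg : ∑' T, g T ≠ ⊤) (Hn : ℕ → ℝ → ℝ≥0∞) (h0 : ∀ t, Hn 0 t ≤ 1)
    (h1 : ∀ n t, Hn (n + 1) t ≤ 1 + ∑' T : ℝ, (if T < t then g T * Hn n T else 0)) (n : ℕ) (t : ℝ) :
    Hn n t ≤ ENNReal.ofReal (Real.exp (∑' T, g T).toReal) := by
  have h : ∀ n t, Hn n t ≤ ENNReal.ofReal (Real.exp (∑' S : ℝ, if S < t then g S else 0).toReal) := by
    intro n
    induction n with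
    | zero => exact fun t => (h0 t).trans (nui_one_le _)
    | succ n ih =>
      intro t
      refine (h1 n t).trans (le_trans ?_ (gron hg t))
      refine add_le_add le_rfl (ENNReal.tsum_le_tsum fun T => ?_)
      by_cases hT : T < t
      · simp only [hT, if_true]
        exact mul_le_mul_right (ih T) _
      · simp [hT]
  exact (h n t).trans (nui_mono (nui_le_tot g t) hg)

end Pool.Agent.SAWG
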