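import Pool.Agent.SAWG.NUC
import Pool.Agent.SAWG.NUB
import Pool.Agent.SAWG.NUI

/-!
# SAWG module NUJ: nonunimodular case: the Hammersley-Welsh decomposition

PROOFS.  `hsR_split`: let `v` be the last vertex of maximal height of the walk `l ≠ []`; `l1` the part up to `v`, `l2` the rest: `l1` is a bridge, `l1 ≠ []`, and from `v` all later heights are `< h v` and `> h x = h v - T`, `T = spn l1`: `l2` is a half space walk for `-h` of height `< T`.
`hs_le`: `zw z (HsR h t (n+1)) ≤ [l = []] + ∑' T, [T < t] cv (zw z (BrR h, spn = T, l ≠ [])) (zw z (HsR (-h) T n))` pointwise (the term `T = spn l1`, `|l2| ≤ n`), then kernels (`kr_cv`) and `tk` (`tk_kc`, `tk_tsum`):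
with `Hp n t = sup_x tk h (kr (zw z (HsR h t n))) x`, `Hm` for `-h`, `g T = tk` of the bridges of span exactly `T` for `h` plus the same for `-h` (constant in `x`): `max Hp Hm` satisfies the hypothesis of `hw_iter`; `n = 0`: only `l = []`.
`∑' T, g T ≤ tk (all bridges of h) + tk (all bridges of -h) ≤ C` (each bridge has one span).
-/

set_option autoImplicit false

open scoped ENNReal NNReal Classical
open Filter Topology

namespace Pool.Agent.SAWG

open Pool.Agent.SWH (Ker idK adK tp endp Sw endp_nil endp_cons endp_append endp_mem)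

variable {V : Type}

/-- the last vertex of maximal height -/
private theorem NUJ_max (h : V → ℝ) : ∀ (l : List V), l ≠ [] →
    ∃ (l1 l2 : List V) (v : V), l = l1 ++ v :: l2 ∧ (∀ y ∈ l, h y ≤ h v) ∧ (∀ y ∈ l2, h y < h v)
  | [], hl => absurd rfl hl
  | [a], _ => ⟨[], [], a, rfl, by simp, by simp⟩
  | a :: b :: l, _ => by
    obtain ⟨l1, l2, v, h1, h2, h3⟩ := NUJ_max h (b :: l) (by simp)
    by_cases h4 : h a ≤ h v
    · refine ⟨a :: l1, l2, v, by rw [h1]; rfl, ?_, h3⟩
      intro y hy
      rcases List.mem_cons.1 hy with rfl | hy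
      · exact h4
      · exact h2 y hy
    · refine ⟨[], b :: l, a, rfl, ?_, ?_⟩
      · intro y hy
        rcases List.mem_cons.1 hy with rfl | hy
        · exact le_rfl
        · have := h2 y hy
          linarith [not_le.1 h4]
      · intro y hy
        have := h2 y hy
        linarith [not_le.1 h4]

theorem hsR_split {G : SimpleGraph V} {h : V → ℝ} {t : ℝ} {n : ℕ} {x : V} {l : List V} (h1 : HsR G h t (n + 1) x l)
    (hl : l ≠ []) : ∃ l1 l2, l = l1 ++ l2 ∧ l1 ≠ [] ∧ BrR G h x l1 ∧ spn h x l1 < t ∧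
      HsR G (fun v => -h v) (spn h x l1) n (endp x l1) l2 := by
  obtain ⟨m1, m2, v, h2, h3, h4⟩ := NUJ_max h l hl
  obtain ⟨hs, hb, hlen⟩ := h1
  have hv : v ∈ l := by
    rw [h2]
    simp
  have hvb := hb v hv
  have hl' : l = (m1 ++ [v]) ++ m2 := by
    rw [h2, List.append_assoc]
    rfl
  have hs' := hs
  rw [hl'] at hs'
  obtain ⟨s1, s2⟩ := SwR_split hs'
  have he : endp x (m1 ++ [v]) = v := by
    rw [endp_append, endp_cons, endp_nil]
  have hsp : spn h x (m1 ++ [v]) = h v - h x := by
    unfold spn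
    rw [he]
  refine ⟨m1 ++ [v], m2, hl', by simp, ⟨s1, ?_⟩, ?_, s2, ?_, ?_⟩
  · intro y hy
    rw [he]
    have hyl : y ∈ l := by
      rw [hl']
      exact List.mem_append_left _ hy
    exact ⟨(hb y hyl).1, h3 y hyl⟩
  · rw [hsp]
    linarith
  · intro y hy
    rw [he, hsp]
    have hyl : y ∈ l := by
      rw [hl']
      exact List.mem_append_right _ hy
    have h5 := h4 y hy
    have h6 := hb y hyl
    change - h v < - h y ∧ - h y < - h v + _
    constructor <;> linarith
  · rw [hl'] at hlen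
    simp only [List.length_append, List.length_cons, List.length_nil] at hlen
    omega

private theorem NUJ_BrR_map {G : SimpleGraph V} {s : V → ℝ} (hs : ∀ (φ : G ≃g G) (x y : V), s (φ x) - s (φ y) = s x - s y)
    (φ : G ≃g G) (x : V) (l : List V) : BrR G s (φ x) (l.map φ) ↔ BrR G s x l := by
  unfold BrR
  rw [Sw_map, endp_map]
  refine and_congr_right fun _ => ?_
  constructor
  · intro h y hy
    have h1 := h (φ y) (List.mem_map_of_mem hy)
    have h2 := hs φ x y
    have h3 := hs φ y (endp x l)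
    constructor <;> linarith [h1.1, h1.2]
  · intro h y hy
    obtain ⟨w, hw, rfl⟩ := List.mem_map.1 hy
    have h1 := h w hw
    have h2 := hs φ x w
    have h3 := hs φ w (endp x l)
    constructor <;> linarith [h1.1, h1.2]

private theorem NUJ_spn_map {G : SimpleGraph V} {s : V → ℝ} (hs : ∀ (φ : G ≃g G) (x y : V), s (φ x) - s (φ y) = s x - s y)
    (φ : G ≃g G) (x : V) (l : List V) : spn s (φ x) (l.map φ) = spn s x l := by
  unfold spn
  rw [endp_map, hs]

private theorem NUJ_HsR_map {G : SimpleGraph V} {s : V → ℝ} (hs : ∀ (φ : G ≃g G) (x y : V), s (φ x) - s (φ y) = s x - s y)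
    (t : ℝ) (n : ℕ) (φ : G ≃g G) (x : V) (l : List V) : HsR G s t n (φ x) (l.map φ) ↔ HsR G s t n x l := by
  unfold HsR
  rw [Sw_map, List.length_map]
  refine and_congr_right fun _ => and_congr_left fun _ => ?_
  constructor
  · intro h y hy
    have h1 := h (φ y) (List.mem_map_of_mem hy)
    have h2 := hs φ x y
    constructor <;> linarith [h1.1, h1.2]
  · intro h y hy
    obtain ⟨w, hw, rfl⟩ := List.mem_map.1 hy
    have h1 := h w hw
    have h2 := hs φ x w
    constructor <;> linarith [h1.1, h1.2]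

/-- bridges of span `T` -/
private noncomputable def NUJ_b (G : SimpleGraph V) (s : V → ℝ) (z : ℝ≥0∞) (T : ℝ) : PW V :=
  zw z (fun x l => BrR G s x l ∧ spn s x l = T)

private theorem NUJ_b_inv {G : SimpleGraph V} {s : V → ℝ}
    (hs : ∀ (φ : G ≃g G) (x y : V), s (φ x) - s (φ y) = s x - s y) (z : ℝ≥0∞) (T : ℝ) :
    InvG G (kr (NUJ_b G s z T)) := by
  refine InvG_kr (InvP_zw z fun φ x l => ?_)
  rw [NUJ_BrR_map hs, NUJ_spn_map hs]

private theorem NUJ_hs_inv {G : SimpleGraph V} {s : V → ℝ}
    (hs : ∀ (φ : G ≃g G) (x y : V), s (φ x) - s (φ y) = s x - s y) (z : ℝ≥0∞) (t : ℝ) (n : ℕ) :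
    InvG G (kr (zw z (HsR G s t n))) :=
  InvG_kr (InvP_zw z fun φ x l => NUJ_HsR_map hs t n φ x l)

private theorem NUJ_w1 (h : V → ℝ) (x : V) : ENNReal.ofReal (Real.exp ((h x - h x) / 2)) = 1 := by
  rw [sub_self, zero_div, Real.exp_zero, ENNReal.ofReal_one]

private theorem NUJ_on (h : V → ℝ) (x : V) :
    ∑' l, (on : PW V) x l * ENNReal.ofReal (Real.exp ((h x - h (endp x l)) / 2)) = 1 := by
  rw [tsum_eq_single ([] : List V)]
  · unfold on
    rw [if_pos rfl, one_mul, endp_nil, NUJ_w1]
  · intro l hl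
    unfold on
    rw [if_neg hl, zero_mul]

/-- sum over the spans -/
private theorem NUJ_sum {G : SimpleGraph V} (h s : V → ℝ) (z : ℝ≥0∞) (x : V) :
    ∑' T : ℝ, tk h (kr (NUJ_b G s z T)) x = tk h (kr (zw z (BrR G s))) x := by
  rw [tk_kr]
  have h1 : ∀ T : ℝ, tk h (kr (NUJ_b G s z T)) x =
      ∑' l, NUJ_b G s z T x l * ENNReal.ofReal (Real.exp ((h x - h (endp x l)) / 2)) := fun T => tk_kr h _ x
  rw [tsum_congr h1, ENNReal.tsum_comm]
  refine tsum_congr fun l => ?_
  rw [ENNReal.tsum_mul_right]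
  congr 1
  rw [tsum_eq_single (spn s x l)]
  · unfold NUJ_b zw
    by_cases hb : BrR G s x l
    · rw [if_pos ⟨hb, rfl⟩, if_pos hb]
    · rw [if_neg (fun hc => hb hc.1), if_neg hb]
  · intro T hT
    unfold NUJ_b zw
    rw [if_neg]
    intro hc
    exact hT hc.2.symm

/-- one step -/
private theorem NUJ_step {G : SimpleGraph V} {h : V → ℝ} (s : V → ℝ)
    {z : ℝ≥0∞} (t : ℝ) (n : ℕ) (x : V) {M : ℝ → ℝ≥0∞}
    (hM : ∀ T y, tk h (kr (zw z (HsR G (fun v => - s v) T n))) y ≤ M T) :
    tk h (kr (zw z (HsR G s t (n + 1)))) x ≤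
      1 + ∑' T : ℝ, (if T < t then tk h (kr (NUJ_b G s z T)) x * M T else 0) := by
  rw [tk_kr]
  have key : ∀ l, zw z (HsR G s t (n + 1)) x l ≤
      on x l + ∑' T : ℝ, (if T < t then cv (NUJ_b G s z T) (zw z (HsR G (fun v => - s v) T n)) x l else 0) := by
    intro l
    by_cases hH : HsR G s t (n + 1) x l
    · by_cases hl : l = []
      · subst hl
        refine le_trans ?_ le_self_add
        unfold zw on
        rw [if_pos hH, if_pos rfl, List.length_nil, pow_zero]
      · obtain ⟨l1, l2, e, _, hb, hsp, hh⟩ := hsR_split hH hl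
        refine le_trans ?_ le_add_self
        refine le_trans ?_ (ENNReal.le_tsum (spn s x l1))
        rw [if_pos hsp]
        unfold cv
        have hi : l1.length ∈ Finset.range (l.length + 1) := by
          rw [Finset.mem_range, e, List.length_append]
          omega
        refine le_trans ?_ (Finset.single_le_sum (f := fun i => NUJ_b G s z (spn s x l1) x (l.take i) *
          zw z (HsR G (fun v => - s v) (spn s x l1) n) (endp x (l.take i)) (l.drop i)) (fun _ _ => zero_le) hi)
        have e1 : l.take l1.length = l1 := by rw [e, List.take_left]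
        have e2 : l.drop l1.length = l2 := by rw [e, List.drop_left]
        rw [e1, e2]
        unfold NUJ_b zw
        rw [if_pos hH, if_pos ⟨hb, rfl⟩, if_pos hh, e, List.length_append, pow_add]
    · unfold zw
      rw [if_neg hH]
      exact zero_le
  have h2 : ∑' l, zw z (HsR G s t (n + 1)) x l * ENNReal.ofReal (Real.exp ((h x - h (endp x l)) / 2)) ≤
      ∑' l, (on x l + ∑' T : ℝ, (if T < t then cv (NUJ_b G s z T) (zw z (HsR G (fun v => - s v) T n)) x l else 0)) *
        ENNReal.ofReal (Real.exp ((h x - h (endp x l)) / 2)) :=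
    ENNReal.tsum_le_tsum fun l => mul_le_mul_left (key l) _
  refine h2.trans ?_
  simp only [add_mul]
  rw [ENNReal.tsum_add, NUJ_on]
  refine add_le_add le_rfl ?_
  simp only [← ENNReal.tsum_mul_right]
  rw [ENNReal.tsum_comm]
  refine ENNReal.tsum_le_tsum fun T => ?_
  by_cases hT : T < t
  · simp only [if_pos hT]
    rw [← tk_kr, kr_cv]
    exact tk_kc (hM T) x
  · simp only [if_neg hT, zero_mul, tsum_zero]
    exact le_rfl

theorem hw {G : SimpleGraph V} {h : V → ℝ} (H : Ng G h) {z C : ℝ≥0∞} (hC : C ≠ ⊤)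
    (h1 : ∀ x, tk h (kr (zw z (BrR G h))) x + tk h (kr (zw z (BrR G (fun v => -h v)))) x ≤ C) (t : ℝ) (n : ℕ) (x : V) :
    tk h (kr (zw z (HsR G h t n))) x ≤ ENNReal.ofReal (Real.exp C.toReal) := by
  have hp : ∀ (φ : G ≃g G) (x y : V), h (φ x) - h (φ y) = h x - h y := H.inv
  have hm : ∀ (φ : G ≃g G) (x y : V), (fun v => - h v) (φ x) - (fun v => - h v) (φ y) =
      (fun v => - h v) x - (fun v => - h v) y := by
    intro φ x y
    have := H.inv φ x y
    dsimp only
    linarith
  have hnn : (fun v => -(fun v => - h v) v) = h := by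
    funext v
    dsimp only
    rw [neg_neg]
  set g : ℝ → ℝ≥0∞ := fun T => tk h (kr (NUJ_b G h z T)) x + tk h (kr (NUJ_b G (fun v => - h v) z T)) x with hg
  have hgC : ∑' T, g T ≤ C := by
    rw [hg, ENNReal.tsum_add, NUJ_sum, NUJ_sum]
    exact h1 x
  have hgt : ∑' T, g T ≠ ⊤ := ne_top_of_le_ne_top hC hgC
  set M : ℕ → ℝ → ℝ≥0∞ := fun n t => max (tk h (kr (zw z (HsR G h t n))) x)
    (tk h (kr (zw z (HsR G (fun v => - h v) t n))) x) with hMdef
  have h0' : ∀ (s : V → ℝ) (t : ℝ), tk h (kr (zw z (HsR G s t 0))) x ≤ 1 := by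
    intro s t
    rw [tk_kr, ← NUJ_on h x]
    refine ENNReal.tsum_le_tsum fun l => mul_le_mul_left ?_ _
    unfold zw on
    by_cases hl : l = []
    · rw [if_pos hl, hl]
      split_ifs
      · simp
      · exact zero_le
    · rw [if_neg]
      · exact zero_le
      · intro hc
        exact hl (List.length_eq_zero_iff.1 (Nat.le_zero.1 hc.2.2))
  have h0 : ∀ t, M 0 t ≤ 1 := fun t => max_le (h0' _ t) (h0' _ t)
  have hstep : ∀ n t, M (n + 1) t ≤ 1 + ∑' T : ℝ, (if T < t then g T * M n T else 0) := by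
    intro n t
    have hA := NUJ_step (G := G) (h := h) h (z := z) t n x (M := M n) (fun T y => by
      rw [tk_const H (NUJ_hs_inv hm z T n) y x]
      exact le_max_right _ _)
    have hB := NUJ_step (G := G) (h := h) (fun v => - h v) (z := z) t n x (M := M n) (fun T y => by
      rw [hnn, tk_const H (NUJ_hs_inv hp z T n) y x]
      exact le_max_left _ _)
    refine max_le (hA.trans ?_) (hB.trans ?_)
    · refine add_le_add le_rfl (ENNReal.tsum_le_tsum fun T => ?_)
      split_ifs
      · exact mul_le_mul_left le_self_add _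
      · exact le_rfl
    · refine add_le_add le_rfl (ENNReal.tsum_le_tsum fun T => ?_)
      split_ifs
      · exact mul_le_mul_left le_add_self _
      · exact le_rfl
  have hfin := hw_iter hgt M h0 hstep n t
  refine (le_max_left _ _).trans (hfin.trans ?_)
  exact ENNReal.ofReal_le_ofReal (Real.exp_le_exp.2 (ENNReal.toReal_mono hC hgC))

end Pool.Agent.SAWG
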