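import Pool.Agent.SAWG.NUJ
import Pool.Agent.SAWG.NUE
import Pool.Agent.SAWG.NUA

/-!
# SAWG module NUK: nonunimodular case: all self-avoiding walks

PROOFS.  `saw_dec`: let `v` be the last vertex of minimal height of the walk `x, l` (`|l| ≤ n`), `l = l1 ++ l2`, `endp x l1 = v`: `l2` has heights `> h v`: `HsR` (with `t` larger than `m n + m + 1`, since heights change by at most `m` per step).  The reversed walk `l1` goes from `v` to `x` with
heights `≥ h v`; put a lower neighbour `v'` of `v` in front: a half space walk from `v'` to `x` of length `|l1| + 1 ≤ n + 1`.  So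
`kr (zw z (Sw ∧ length ≤ n)) x y ≤ ∑_v z⁻¹ (∑_{v'} adK v v' * kr (zw z (HsR h t (n+1))) v' x) * kr (zw z (HsR h t n)) v y`, i.e. `≤ z⁻¹ * kc (tp (kc (adK G) Hs)) Hs`.
`all_le`: `tk_kc`, `tk_tp`, `tk (adK G) ≤ C_A` (finite sum over the neighbours), `hw`.
-/

set_option autoImplicit false

open scoped ENNReal NNReal Classical
open Filter Topology

namespace Pool.Agent.SAWG

open Pool.Agent.SWH (Ker idK adK tp endp Sw endp_nil endp_cons endp_append endp_mem)

variable {V : Type}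

private theorem nuk_lip {G : SimpleGraph V} {h : V → ℝ} {m : ℕ} (hm : ∀ x y, G.Adj x y → |h x - h y| ≤ m) :
    ∀ (l : List V) (x : V), (x :: l).IsChain G.Adj → ∀ y ∈ l, h y ≤ h x + m * (l.length : ℝ)
  | [], x, _, y, hy => by simp at hy
  | a :: l, x, hc, y, hy => by
    rw [List.isChain_cons_cons] at hc
    have h1 := abs_le.1 (hm x a hc.1)
    have h2 : (0 : ℝ) ≤ m * (l.length : ℝ) := by positivity
    have h3 : (((a :: l).length : ℕ) : ℝ) = l.length + 1 := by simp
    rw [h3, mul_add, mul_one]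
    rcases List.mem_cons.1 hy with rfl | hy
    · linarith [h1.1]
    · have h4 := nuk_lip hm l a hc.2 y hy
      linarith [h1.1]

private theorem nuk_min (h : V → ℝ) : ∀ (l : List V) (x : V),
    ∃ l1 l2, l = l1 ++ l2 ∧ (∀ y ∈ x :: l1, h (endp x l1) ≤ h y) ∧ (∀ y ∈ l2, h (endp x l1) < h y)
  | [], x => ⟨[], [], rfl, by simp [endp_nil], by simp⟩
  | a :: l, x => by
    obtain ⟨l1, l2, h1, h2, h3⟩ := nuk_min h l a
    by_cases h4 : h (endp a l1) ≤ h x
    · refine ⟨a :: l1, l2, by rw [h1]; rfl, ?_, ?_⟩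
      · intro y hy
        rw [endp_cons]
        rcases List.mem_cons.1 hy with rfl | hy
        · exact h4
        · exact h2 y hy
      · intro y hy
        rw [endp_cons]
        exact h3 y hy
    · rw [not_le] at h4
      refine ⟨[], a :: l, rfl, ?_, ?_⟩
      · intro y hy
        simp only [List.mem_cons, List.not_mem_nil, or_false] at hy
        rw [hy, endp_nil]
      · intro y hy
        rw [endp_nil]
        rcases List.mem_cons.1 hy with rfl | hy
        · have := h2 y List.mem_cons_self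
          linarith
        · rw [h1] at hy
          rcases List.mem_append.1 hy with hy | hy
          · have := h2 y (List.mem_cons_of_mem _ hy)
            linarith
          · have := h3 y hy
            linarith

private theorem nuk_head (x : V) (l : List V) : ∃ r, (x :: l).reverse = endp x l :: r := by
  induction l using List.reverseRecOn with
  | nil => exact ⟨[], by simp [endp_nil]⟩
  | append_singleton l a _ =>
    refine ⟨(x :: l).reverse, ?_⟩
    rw [endp_append, endp_cons, endp_nil, ← List.cons_append, List.reverse_append]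
    rfl

private theorem nuk_end (v x : V) (l : List V) : endp v ((x :: l).reverse) = x := by
  rw [List.reverse_cons, endp_append, endp_cons, endp_nil]

private theorem nuk_split {G : SimpleGraph V} (l1 : List V) :
    ∀ (x : V) (l2 : List V), Sw G x (l1 ++ l2) → Sw G x l1 ∧ Sw G (endp x l1) l2 := by
  induction l1 with
  | nil =>
    intro x l2 h
    refine ⟨⟨by simp, by simp⟩, ?_⟩
    rw [endp_nil]
    exact h
  | cons a l ih =>
    intro x l2 h
    obtain ⟨h1, h2⟩ := h
    rw [List.cons_append, List.isChain_cons_cons] at h1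
    rw [List.cons_append, List.nodup_cons] at h2
    obtain ⟨i1, i2⟩ := ih a l2 ⟨h1.2, h2.2⟩
    refine ⟨⟨?_, ?_⟩, ?_⟩
    · rw [List.isChain_cons_cons]
      exact ⟨h1.1, i1.1⟩
    · rw [List.nodup_cons]
      refine ⟨fun hx => h2.1 ?_, i1.2⟩
      rw [← List.cons_append]
      exact List.mem_append_left _ hx
    · rw [endp_cons]
      exact i2

/-- the decomposition of one walk -/
private theorem nuk_dec {G : SimpleGraph V} {h : V → ℝ} {m : ℕ} (hm : ∀ x y, G.Adj x y → |h x - h y| ≤ m) (low : V → V)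
    (hlow : ∀ v, G.Adj v (low v) ∧ h (low v) < h v) (n : ℕ) (x : V) (l : List V) (hl : Sw G x l ∧ l.length ≤ n) :
    ∃ l1 l2, l = l1 ++ l2 ∧ HsR G h ((m : ℝ) * n + m + 1) (n + 1) (low (endp x l1)) ((x :: l1).reverse) ∧
      HsR G h ((m : ℝ) * n + m + 1) (n + 1) (endp x l1) l2 := by
  obtain ⟨l1, l2, h1, h2, h3⟩ := nuk_min h l x
  refine ⟨l1, l2, h1, ?_, ?_⟩
  · have hsw := hl.1
    rw [h1] at hsw
    obtain ⟨s1, s2⟩ := nuk_split _ _ _ hsw
    obtain ⟨r, hr⟩ := nuk_head x l1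
    have hlw := hlow (endp x l1)
    have hmem : ∀ y ∈ (x :: l1).reverse, h (low (endp x l1)) < h y := by
      intro y hy
      rw [List.mem_reverse] at hy
      have := h2 y hy
      linarith [hlw.2]
    have hch : (low (endp x l1) :: (x :: l1).reverse).IsChain G.Adj := by
      rw [hr, List.isChain_cons_cons]
      refine ⟨hlw.1.symm, ?_⟩
      rw [← hr, List.isChain_reverse]
      refine s1.1.imp ?_
      intro a b hab
      exact hab.symm
    have h5 : (x :: l1).reverse.length ≤ n + 1 := by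
      have h6 := hl.2
      rw [h1, List.length_append] at h6
      rw [List.length_reverse, List.length_cons]
      omega
    refine ⟨⟨hch, ?_⟩, ?_, h5⟩
    · rw [List.nodup_cons]
      refine ⟨fun hy => ?_, List.nodup_reverse.2 s1.2⟩
      exact absurd (hmem _ hy) (lt_irrefl _)
    · intro y hy
      refine ⟨hmem y hy, ?_⟩
      have h4 := nuk_lip hm _ _ hch y hy
      have h7 : (((x :: l1).reverse.length : ℕ) : ℝ) ≤ n + 1 := by exact_mod_cast h5
      have h8 : (0 : ℝ) ≤ m := Nat.cast_nonneg m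
      have h9 := mul_le_mul_of_nonneg_left h7 h8
      linarith
  · have hsw := hl.1
    rw [h1] at hsw
    obtain ⟨s1, s2⟩ := nuk_split _ _ _ hsw
    have h5 : l2.length ≤ n + 1 := by
      have h6 := hl.2
      rw [h1, List.length_append] at h6
      omega
    refine ⟨s2, fun y hy => ⟨h3 y hy, ?_⟩, h5⟩
    have h4 := nuk_lip hm _ _ s2.1 y hy
    have h7 : ((l2.length : ℕ) : ℝ) ≤ n + 1 := by exact_mod_cast h5
    have h8 : (0 : ℝ) ≤ m := Nat.cast_nonneg m
    have h9 := mul_le_mul_of_nonneg_left h7 h8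
    linarith

private theorem nuk_kr (z : ℝ≥0∞) (P : V → List V → Prop) (x y : V) :
    kr (zw z P) x y = ∑' l : List V, if P x l ∧ endp x l = y then z ^ l.length else 0 := by
  unfold kr zw
  refine tsum_congr fun l => ?_
  by_cases h1 : endp x l = y
  · by_cases h2 : P x l
    · rw [if_pos h1, if_pos h2, if_pos ⟨h2, h1⟩]
    · rw [if_pos h1, if_neg h2, if_neg (fun h3 => h2 h3.1)]
  · rw [if_neg h1, if_neg (fun h3 => h1 h3.2)]

private theorem nuk_main {G : SimpleGraph V} {h : V → ℝ} {m : ℕ} (hm : ∀ x y, G.Adj x y → |h x - h y| ≤ m)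
    (hdn : ∀ x, ∃ y, G.Adj x y ∧ h y < h x) (z : ℝ≥0∞) (n : ℕ) (x y : V) :
    z * kr (zw z (fun x l => Sw G x l ∧ l.length ≤ n)) x y ≤
      kc (tp (kc (adK G) (kr (zw z (HsR G h ((m : ℝ) * n + m + 1) (n + 1))))))
        (kr (zw z (HsR G h ((m : ℝ) * n + m + 1) (n + 1)))) x y := by
  choose low hlow using hdn
  have hdec := nuk_dec hm low hlow n x
  have hex : ∀ l : {l : List V // (Sw G x l ∧ l.length ≤ n) ∧ endp x l = y}, ∃ p : List V × List V, l.1 = p.1 ++ p.2 ∧
      HsR G h ((m : ℝ) * n + m + 1) (n + 1) (low (endp x p.1)) ((x :: p.1).reverse) ∧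
      HsR G h ((m : ℝ) * n + m + 1) (n + 1) (endp x p.1) p.2 := by
    intro l
    obtain ⟨l1, l2, h1⟩ := hdec l.1 l.2.1
    exact ⟨(l1, l2), h1⟩
  choose p hp using hex
  have hinj : Function.Injective (fun l : {l : List V // (Sw G x l ∧ l.length ≤ n) ∧ endp x l = y} =>
      (endp x (p l).1, (x :: (p l).1).reverse, (p l).2)) := by
    intro l l' hll
    simp only [Prod.mk.injEq, List.reverse_inj, List.cons.injEq, true_and] at hll
    apply Subtype.ext
    rw [(hp l).1, (hp l').1, hll.2.1, hll.2.2]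
  have h1 : z * kr (zw z (fun x l => Sw G x l ∧ l.length ≤ n)) x y =
      ∑' l : {l : List V // (Sw G x l ∧ l.length ≤ n) ∧ endp x l = y}, z ^ (l.1.length + 1) := by
    rw [nuk_kr]
    rw [← ENNReal.tsum_mul_left]
    rw [← tsum_subtype_eq_of_support_subset (s := {l : List V | (Sw G x l ∧ l.length ≤ n) ∧ endp x l = y})]
    · apply tsum_congr
      intro l
      have h2 : (Sw G x l.1 ∧ l.1.length ≤ n) ∧ endp x l.1 = y := l.2
      rw [if_pos h2, pow_succ, mul_comm]
    · intro l hl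
      rw [Function.mem_support] at hl
      by_contra h2
      apply hl
      have h3 : ¬ ((Sw G x l ∧ l.length ≤ n) ∧ endp x l = y) := h2
      rw [if_neg h3, mul_zero]
  have h2 : ∀ v, kr (zw z (HsR G h ((m : ℝ) * n + m + 1) (n + 1))) (low v) x *
        kr (zw z (HsR G h ((m : ℝ) * n + m + 1) (n + 1))) v y ≤
      tp (kc (adK G) (kr (zw z (HsR G h ((m : ℝ) * n + m + 1) (n + 1))))) x v *
        kr (zw z (HsR G h ((m : ℝ) * n + m + 1) (n + 1))) v y := by
    intro v
    refine mul_le_mul' ?_ le_rfl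
    have h3 : adK G v (low v) * kr (zw z (HsR G h ((m : ℝ) * n + m + 1) (n + 1))) (low v) x ≤
        kc (adK G) (kr (zw z (HsR G h ((m : ℝ) * n + m + 1) (n + 1)))) v x :=
      ENNReal.le_tsum (f := fun w => adK G v w * kr (zw z (HsR G h ((m : ℝ) * n + m + 1) (n + 1))) w x) (low v)
    have h4 : adK G v (low v) = 1 := by
      unfold adK
      rw [if_pos (hlow v).1]
    rw [h4, one_mul] at h3
    exact h3
  have h5 : ∑' v, kr (zw z (HsR G h ((m : ℝ) * n + m + 1) (n + 1))) (low v) x *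
        kr (zw z (HsR G h ((m : ℝ) * n + m + 1) (n + 1))) v y ≤
      kc (tp (kc (adK G) (kr (zw z (HsR G h ((m : ℝ) * n + m + 1) (n + 1))))))
        (kr (zw z (HsR G h ((m : ℝ) * n + m + 1) (n + 1)))) x y :=
    ENNReal.tsum_le_tsum h2
  refine le_trans ?_ h5
  have h6 : ∑' v, kr (zw z (HsR G h ((m : ℝ) * n + m + 1) (n + 1))) (low v) x *
        kr (zw z (HsR G h ((m : ℝ) * n + m + 1) (n + 1))) v y =
      ∑' q : V × List V × List V,
        (if HsR G h ((m : ℝ) * n + m + 1) (n + 1) (low q.1) q.2.1 ∧ endp (low q.1) q.2.1 = x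
          then z ^ q.2.1.length else 0) *
        (if HsR G h ((m : ℝ) * n + m + 1) (n + 1) q.1 q.2.2 ∧ endp q.1 q.2.2 = y then z ^ q.2.2.length else 0) := by
    rw [ENNReal.tsum_prod (f := fun (v : V) (w : List V × List V) =>
      (if HsR G h ((m : ℝ) * n + m + 1) (n + 1) (low v) w.1 ∧ endp (low v) w.1 = x then z ^ w.1.length else 0) *
        (if HsR G h ((m : ℝ) * n + m + 1) (n + 1) v w.2 ∧ endp v w.2 = y then z ^ w.2.length else 0))]
    apply tsum_congr
    intro v
    rw [ENNReal.tsum_prod (f := fun (r s : List V) =>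
      (if HsR G h ((m : ℝ) * n + m + 1) (n + 1) (low v) r ∧ endp (low v) r = x then z ^ r.length else 0) *
        (if HsR G h ((m : ℝ) * n + m + 1) (n + 1) v s ∧ endp v s = y then z ^ s.length else 0))]
    rw [nuk_kr, nuk_kr, ← ENNReal.tsum_mul_right]
    apply tsum_congr
    intro r
    rw [← ENNReal.tsum_mul_left]
  rw [h1, h6]
  refine le_trans (le_of_eq ?_) (ENNReal.tsum_comp_le_tsum_of_injective hinj _)
  apply tsum_congr
  intro l
  obtain ⟨e1, e2, e3⟩ := hp l
  have hy := l.2.2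
  rw [if_pos ⟨e2, nuk_end _ _ _⟩, if_pos ⟨e3, by rw [← endp_append, ← e1, hy]⟩, ← pow_add]
  congr 1
  change l.1.length + 1 = (x :: (p l).1).reverse.length + (p l).2.length
  rw [e1, List.length_reverse, List.length_cons, List.length_append]
  omega

theorem saw_dec {G : SimpleGraph V} {h : V → ℝ} {m : ℕ} (hm : ∀ x y, G.Adj x y → |h x - h y| ≤ m)
    (hdn : ∀ x, ∃ y, G.Adj x y ∧ h y < h x) {z : ℝ≥0∞} (hz0 : z ≠ 0) (hz1 : z ≤ 1) (n : ℕ) (x y : V) :
    kr (zw z (fun x l => Sw G x l ∧ l.length ≤ n)) x y ≤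
      z⁻¹ * kc (tp (kc (adK G) (kr (zw z (HsR G h ((m : ℝ) * n + m + 1) (n + 1))))))
        (kr (zw z (HsR G h ((m : ℝ) * n + m + 1) (n + 1)))) x y := by
  have h1 := nuk_main hm hdn z n x y
  have hzt : z ≠ ⊤ := ne_top_of_le_ne_top ENNReal.one_ne_top hz1
  calc kr (zw z (fun x l => Sw G x l ∧ l.length ≤ n)) x y
      = z⁻¹ * (z * kr (zw z (fun x l => Sw G x l ∧ l.length ≤ n)) x y) := by
        rw [← mul_assoc, ENNReal.inv_mul_cancel hz0 hzt, one_mul]
    _ ≤ _ := mul_le_mul_right h1 _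

private theorem nuk_InvHs {G : SimpleGraph V} {h : V → ℝ} (H : Ng G h) (z : ℝ≥0∞) (t : ℝ) (n : ℕ) :
    InvP G (zw z (HsR G h t n)) := by
  intro φ x l
  unfold zw
  rw [List.length_map]
  have key : HsR G h t n (φ x) (l.map φ) ↔ HsR G h t n x l := by
    unfold HsR
    rw [Sw_map φ x l, List.length_map]
    have h1 : (∀ y ∈ l.map φ, h (φ x) < h y ∧ h y < h (φ x) + t) ↔ (∀ y ∈ l, h x < h y ∧ h y < h x + t) := by
      rw [List.forall_mem_map]
      refine forall₂_congr fun y _ => ?_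
      have h2 := H.inv φ x y
      constructor
      · rintro ⟨h3, h4⟩
        exact ⟨by linarith, by linarith⟩
      · rintro ⟨h3, h4⟩
        exact ⟨by linarith, by linarith⟩
    rw [h1]
  by_cases h1 : HsR G h t n x l
  · rw [if_pos h1, if_pos (key.2 h1)]
  · rw [if_neg h1, if_neg (fun h2 => h1 (key.1 h2))]

private theorem nuk_InvAd (G : SimpleGraph V) : InvG G (adK G) := by
  intro φ x y
  unfold adK
  by_cases h1 : G.Adj x y
  · rw [if_pos h1, if_pos (φ.map_adj_iff.2 h1)]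
  · rw [if_neg h1, if_neg (fun h2 => h1 (φ.map_adj_iff.1 h2))]

private theorem nuk_InvKc {G : SimpleGraph V} {K L : Ker V} (hK : InvG G K) (hL : InvG G L) : InvG G (kc K L) := by
  intro φ x y
  unfold kc
  rw [← tsum_vert φ]
  exact tsum_congr fun v => by rw [hK, hL]

private theorem nuk_ad {G : SimpleGraph V} {h : V → ℝ} (H : Ng G h) (x : V) : tk h (adK G) x ≠ ⊤ := by
  unfold tk
  rw [tsum_eq_sum (s := (H.fin x).toFinset)]
  · rw [← lt_top_iff_ne_top, ENNReal.sum_lt_top]
    intro y _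
    refine ENNReal.mul_lt_top ?_ ENNReal.ofReal_lt_top
    unfold adK
    split_ifs
    · exact ENNReal.one_lt_top
    · exact ENNReal.zero_lt_top
  · intro y hy
    have h1 : ¬ G.Adj x y := by
      intro h2
      exact hy ((Set.Finite.mem_toFinset _).2 h2)
    unfold adK
    rw [if_neg h1, zero_mul]

/-- The tilted mass of all self-avoiding walks of bounded length is bounded uniformly in `z ∈ [z0, zc)`. -/
theorem all_le {G : SimpleGraph V} {h : V → ℝ} (H : Ng G h) {z0 zc : ℝ≥0∞} (h0 : z0 ≠ 0) (h1 : zc ≤ 1)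
    (hfin : ∀ z < zc, ∀ x, ms (sa G z) x ≠ ⊤) :
    ∃ C : ℝ≥0∞, C ≠ ⊤ ∧ ∀ z : ℝ≥0∞, z0 ≤ z → z < zc → ∀ (n : ℕ) (x : V),
      tk h (kr (zw z (fun x l => Sw G x l ∧ l.length ≤ n))) x ≤ C := by
  obtain ⟨δ0, hδ, hup⟩ := nu_up H
  obtain ⟨m, hm⟩ := nu_lip H
  have hdn := nu_dn H
  obtain ⟨k, hk⟩ := exists_nat_ge (1 / δ0)
  have hk1 : 1 ≤ k * δ0 := by
    rw [div_le_iff₀ hδ] at hk
    exact hk
  obtain ⟨o, -, -⟩ := H.ne
  set D : ℝ≥0∞ := k * z0⁻¹ ^ k with hD
  have hz0i : z0⁻¹ ≠ ⊤ := ENNReal.inv_ne_top.2 h0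
  have hDt : D ≠ ⊤ := ENNReal.mul_ne_top (ENNReal.natCast_ne_top k) (ENNReal.pow_ne_top hz0i)
  set B : ℝ≥0∞ := 3 * D + 3 * (z0⁻¹ * ((m + 2) * D)) with hB
  have hBt : B ≠ ⊤ := by
    refine ENNReal.add_ne_top.2 ⟨ENNReal.mul_ne_top (by norm_num) hDt, ENNReal.mul_ne_top (by norm_num) ?_⟩
    refine ENNReal.mul_ne_top hz0i (ENNReal.mul_ne_top ?_ hDt)
    exact ENNReal.add_ne_top.2 ⟨ENNReal.natCast_ne_top m, by norm_num⟩
  set E : ℝ≥0∞ := ENNReal.ofReal (Real.exp B.toReal) with hE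
  refine ⟨z0⁻¹ * (tk h (adK G) o * E * E), ?_, ?_⟩
  · refine ENNReal.mul_ne_top hz0i (ENNReal.mul_ne_top (ENNReal.mul_ne_top (nuk_ad H o) ?_) ?_) <;>
      exact ENNReal.ofReal_ne_top
  intro z hz1 hz2 n x
  have hzne : z ≠ 0 := fun h2 => h0 (le_antisymm (h2 ▸ hz1) bot_le)
  have hzle : z ≤ 1 := hz2.le.trans h1
  have hzi : z⁻¹ ≤ z0⁻¹ := ENNReal.inv_le_inv.2 hz1
  have hDz : (k : ℝ≥0∞) * z⁻¹ ^ k ≤ D := mul_le_mul_right (pow_le_pow_left' hzi k) _
  have hb : ∀ x, tk h (kr (zw z (BrR G h))) x + tk h (kr (zw z (BrR G (fun v => -h v)))) x ≤ B := by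
    intro x
    refine add_le_add ?_ ?_
    · refine (tk_up H hδ hup hk1 hzne hzle (hfin z hz2) x).trans ?_
      exact mul_le_mul_right hDz _
    · refine (tk_dn H hδ hup hk1 hm hdn hzne hzle (hfin z hz2) x).trans ?_
      refine mul_le_mul_right ?_ _
      exact mul_le_mul' hzi (mul_le_mul_right hDz _)
  have hHs : ∀ (t : ℝ) (n : ℕ) (x : V), tk h (kr (zw z (HsR G h t n))) x ≤ E := fun t n x => hw H hBt hb t n x
  set K : Ker V := kr (zw z (HsR G h ((m : ℝ) * n + m + 1) (n + 1))) with hK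
  have hKi : InvG G K := InvG_kr (nuk_InvHs H z _ _)
  have hAK : InvG G (kc (adK G) K) := nuk_InvKc (nuk_InvAd G) hKi
  have e1 : tk h (kr (zw z (fun x l => Sw G x l ∧ l.length ≤ n))) x ≤
      z⁻¹ * tk h (kc (tp (kc (adK G) K)) K) x := by
    refine (tk_mono x (L := fun x y => z⁻¹ * kc (tp (kc (adK G) K)) K x y)
      (fun y => saw_dec hm hdn hzne hzle n x y)).trans (le_of_eq ?_)
    unfold tk
    rw [← ENNReal.tsum_mul_left]
    exact tsum_congr fun y => mul_assoc _ _ _
  have e2 : tk h (kc (tp (kc (adK G) K)) K) x ≤ tk h (tp (kc (adK G) K)) x * E :=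
    tk_kc (fun y => hHs _ _ y) x
  have e3 : tk h (tp (kc (adK G) K)) x = tk h (kc (adK G) K) x := tk_tp H hAK x
  have e4 : tk h (kc (adK G) K) x ≤ tk h (adK G) x * E := tk_kc (fun y => hHs _ _ y) x
  have e5 : tk h (adK G) x = tk h (adK G) o := tk_const H (nuk_InvAd G) x o
  refine e1.trans (mul_le_mul' hzi (e2.trans (mul_le_mul_left ?_ _)))
  rw [e3, ← e5]
  exact e4

end Pool.Agent.SAWG
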