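import Pool.Agent.SAWG.NUK

/-!
# SAWG module NUM: nonunimodular case: many splittings

PROOFS.  `two`: a self-avoiding walk of length `n` has `n + 1` splittings into two self-avoiding walks of length `≤ n`: `(n+1) * (zw z (Sw ∧ length = n)) x l ≤ cv (zw z (Sw ∧ length ≤ n)) (same) x l`; sum over `l` ending at `y`, `kr_cv`.
`nul`: `C` from `all_le` with `z0 = zc/2`: for `z0 ≤ z < zc`: `(n+1) z^n t_n ≤ C^2`, `t_n = tk h (kr (zw 1 (Sw ∧ length = n))) x`; let `z → zc`: `(n+1) zc^n t_n ≤ C^2`.  `kr (rs (LN n) (sa G zc)) = zc^n kr (zw 1 (Sw ∧ length = n))`, so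
`tk h (kr (rs (LN n) (sa G zc))) x ≤ C^2/(n+1) < 1` for `n` large, and `KB_tk`.
-/

set_option autoImplicit false

open scoped ENNReal NNReal Classical
open Filter Topology

namespace Pool.Agent.SAWG

open Pool.Agent.SWH (Ker idK adK tp endp Sw endp_nil endp_cons endp_append endp_mem)

variable {V : Type}

private theorem NUM_pt {G : SimpleGraph V} (z : ℝ≥0∞) (n : ℕ) (x : V) (l : List V) :
    ((n : ℝ≥0∞) + 1) * zw z (fun x l => Sw G x l ∧ l.length = n) x l ≤
      cv (zw z (fun x l => Sw G x l ∧ l.length ≤ n)) (zw z (fun x l => Sw G x l ∧ l.length ≤ n)) x l := by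
  by_cases h : Sw G x l ∧ l.length = n
  · have e1 : zw z (fun x l => Sw G x l ∧ l.length = n) x l = z ^ n := by
      unfold zw
      rw [if_pos h, h.2]
    rw [e1]
    unfold cv
    rw [h.2]
    have e2 : ∀ i ∈ Finset.range (n + 1), zw z (fun x l => Sw G x l ∧ l.length ≤ n) x (l.take i) *
        zw z (fun x l => Sw G x l ∧ l.length ≤ n) (endp x (l.take i)) (l.drop i) = z ^ n := by
      intro i hi
      rw [Finset.mem_range] at hi
      have h3 : Sw G x (l.take i ++ l.drop i) := by rw [List.take_append_drop]; exact h.1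
      obtain ⟨h4, h5⟩ := SwR_split h3
      have l1 : (l.take i).length = i := by rw [List.length_take]; omega
      have l2 : (l.drop i).length = n - i := by rw [List.length_drop]; omega
      unfold zw
      rw [if_pos ⟨h4, by omega⟩, if_pos ⟨h5, by omega⟩, l1, l2, ← pow_add]
      congr 1
      omega
    rw [Finset.sum_congr rfl e2, Finset.sum_const, Finset.card_range, nsmul_eq_mul]
    push_cast
    exact le_refl _
  · have e1 : zw z (fun x l => Sw G x l ∧ l.length = n) x l = 0 := by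
      unfold zw
      rw [if_neg h]
    rw [e1, mul_zero]
    exact zero_le

theorem two {G : SimpleGraph V} (z : ℝ≥0∞) (n : ℕ) (x y : V) :
    ((n : ℝ≥0∞) + 1) * kr (zw z (fun x l => Sw G x l ∧ l.length = n)) x y ≤
      kc (kr (zw z (fun x l => Sw G x l ∧ l.length ≤ n))) (kr (zw z (fun x l => Sw G x l ∧ l.length ≤ n))) x y := by
  rw [← kr_cv]
  unfold kr
  rw [← ENNReal.tsum_mul_left]
  refine ENNReal.tsum_le_tsum fun l => ?_
  split_ifs
  · exact NUM_pt z n x l
  · rw [mul_zero]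

private theorem NUM_tk {G : SimpleGraph V} (h : V → ℝ) (z : ℝ≥0∞) (n : ℕ) (x : V) :
    tk h (kr (zw z (fun x l => Sw G x l ∧ l.length = n))) x =
      z ^ n * tk h (kr (zw 1 (fun x l => Sw G x l ∧ l.length = n))) x := by
  rw [tk_kr, tk_kr, ← ENNReal.tsum_mul_left]
  refine tsum_congr fun l => ?_
  unfold zw
  split_ifs with h1
  · rw [h1.2, one_pow, one_mul]
  · rw [zero_mul, mul_zero]

theorem nul {G : SimpleGraph V} {h : V → ℝ} {zc : ℝ≥0∞} (H : Ng G h) (hz0 : zc ≠ 0) (hz1 : zc ≤ 1)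
    (hfin : ∀ z < zc, ∀ x, ms (sa G z) x ≠ ⊤) :
    ∃ (n : ℕ) (c : ℝ≥0∞), c < 1 ∧ KB (kr (rs (LN n) (sa G zc))) c := by
  have hzt : zc ≠ ⊤ := ne_top_of_le_ne_top ENNReal.one_ne_top hz1
  have h20 : zc / 2 ≠ 0 := (ENNReal.half_pos hz0).ne'
  have h2 : zc / 2 < zc := ENNReal.half_lt_self hz0 hzt
  obtain ⟨C, hC, hall⟩ := all_le H h20 hz1 hfin
  have hC2 : C * C ≠ ⊤ := ENNReal.mul_ne_top hC hC
  obtain ⟨n, hn⟩ := ENNReal.exists_nat_gt hC2
  have hn0 : ((n : ℝ≥0∞) + 1) ≠ 0 := by simp
  have hnt : ((n : ℝ≥0∞) + 1) ≠ ⊤ := ENNReal.add_ne_top.2 ⟨ENNReal.natCast_ne_top n, ENNReal.one_ne_top⟩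
  refine ⟨n, C * C / ((n : ℝ≥0∞) + 1), ?_, ?_⟩
  · rw [ENNReal.div_lt_iff (Or.inl hn0) (Or.inl hnt), one_mul]
    exact hn.trans_le le_self_add
  · refine KB_tk H ?_ ?_
    · refine InvG_kr (InvP_rs (InvP_sa G zc) ?_)
      intro φ x l
      unfold LN
      rw [List.length_map]
    · intro x
      set t := tk h (kr (zw 1 (fun x l => Sw G x l ∧ l.length = n))) x with ht
      have key : ∀ z : ℝ≥0∞, zc / 2 ≤ z → z < zc → ((n : ℝ≥0∞) + 1) * (z ^ n * t) ≤ C * C := by
        intro z hz hzz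
        have e1 : ((n : ℝ≥0∞) + 1) * tk h (kr (zw z (fun x l => Sw G x l ∧ l.length = n))) x ≤ C * C := by
          calc ((n : ℝ≥0∞) + 1) * tk h (kr (zw z (fun x l => Sw G x l ∧ l.length = n))) x
              = tk h (fun x y => ((n : ℝ≥0∞) + 1) * kr (zw z (fun x l => Sw G x l ∧ l.length = n)) x y) x := by
                unfold tk
                rw [← ENNReal.tsum_mul_left]
                exact tsum_congr fun y => by rw [mul_assoc]
            _ ≤ tk h (kc (kr (zw z (fun x l => Sw G x l ∧ l.length ≤ n)))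
                  (kr (zw z (fun x l => Sw G x l ∧ l.length ≤ n)))) x := tk_mono x fun y => two z n x y
            _ ≤ tk h (kr (zw z (fun x l => Sw G x l ∧ l.length ≤ n))) x * C := tk_kc (fun y => hall z hz hzz n y) x
            _ ≤ C * C := by gcongr; exact hall z hz hzz n x
        rw [NUM_tk] at e1
        exact e1
      have htt : t ≠ ⊤ := by
        intro htop
        have h3 := key (zc / 2) (le_refl _) h2
        rw [htop, ENNReal.mul_top (pow_ne_zero _ h20), ENNReal.mul_top hn0] at h3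
        exact hC2 (top_le_iff.1 h3)
      have hlim : ((n : ℝ≥0∞) + 1) * (zc ^ n * t) ≤ C * C := by
        have hcont : Continuous fun z : ℝ≥0∞ => ((n : ℝ≥0∞) + 1) * (z ^ n * t) := by
          refine (ENNReal.continuous_const_mul hnt).comp ?_
          exact (ENNReal.continuous_mul_const htt).comp (ENNReal.continuous_pow n)
        have hne : (𝓝[<] zc).NeBot := nhdsLT_neBot_of_exists_lt ⟨zc / 2, h2⟩
        have ht1 : Tendsto (fun z : ℝ≥0∞ => ((n : ℝ≥0∞) + 1) * (z ^ n * t)) (𝓝[<] zc)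
            (𝓝 (((n : ℝ≥0∞) + 1) * (zc ^ n * t))) := (hcont.tendsto zc).mono_left nhdsWithin_le_nhds
        refine le_of_tendsto ht1 ?_
        filter_upwards [Ico_mem_nhdsLT h2] with z hz
        exact key z hz.1 hz.2
      have e3 : tk h (kr (rs (LN n) (sa G zc))) x = zc ^ n * t := by
        rw [ht, ← NUM_tk, tk_kr, tk_kr]
        refine tsum_congr fun l => ?_
        congr 1
        unfold rs LN sa zw
        by_cases h1 : l.length = n
        · by_cases h4 : Sw G x l
          · rw [if_pos h1, if_pos h4, if_pos ⟨h4, h1⟩]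
          · rw [if_pos h1, if_neg h4, if_neg (fun h5 => h4 h5.1)]
        · rw [if_neg h1, if_neg (fun h5 => h1 h5.2)]
      rw [e3, ENNReal.le_div_iff_mul_le (Or.inl hn0) (Or.inl hnt), mul_comm]
      exact hlim

end Pool.Agent.SAWG
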