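import Pool.Agent.SAWG.LBL
import Pool.Agent.SAWG.DRB
import Pool.Agent.SAWG.FCB
import Pool.Agent.SAWG.NIC
import Pool.Agent.SAWG.ALF

/-!
# SAWG module PRA: poor walks: the lower bound for one walk

PROOFS.  `jA_rec`: `jA = sc β (tw θ sa) + cv jA (sc (3β) wc)` (as `jj_rec`: split off `m = 0`).
`pra`: `n = l.length`, `w_i = vt x l i`, `P_i = ∏_{a<i} (1 + lam UU a)`, `j_i = (zθ)⁻¹^i P_i jA x (l.take i)`.  For the good positions (`GP`) choose `r_i` (for `vb`) and `rq_i` (for `vs`), as functions of the vertex.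
`comp i' i`: `i' + R ≤ i`, `GP i'`, `GP i`, `Nc D w_i' r_i' w_i rq_i`.  If `comp i' i`: `sg l i' i ∈ FF` (`FF_of_nc` with `U = U' = x :: l`, `sg_sublist`), so `wc (w_i') (sg l i' i) ≥ (θz)^(i-i') (PP ..)⁻¹`
(if `i - i' ≤ H` this is `om`, else the second part and `1 ≤ PP`) `≥ (θz)^(i-i') (3 ∏_{Ico i' i} (1 + lam UU))⁻¹` (`PP_cut`).  Hence (`jA_rec`, `cv_take`)
`j_i ≥ β P_i + ∑_{i' < i, comp} j_i' β ≥ β [GP i] (1 + ∑_{i'<i, comp i' i} j_i')` (`P_i = P_i' ∏_{Ico i' i}`; all factors are finite and not 0).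
`lbl` with `u_i = [GP i]`, `Y_i = j_i`, `n + 1` indices: for `GP i` the good `i' < i` that are not compatible: `i' > i - R` (at most `R`) or `¬ Nc` (at most `B0` by `nic`).
The product is `(1 + β/2)^(number of good positions)`.
-/

set_option autoImplicit false

open scoped ENNReal NNReal Classical
open Filter Topology

namespace Pool.Agent.SAWG

open Pool.Agent.SWH (Ker idK adK tp endp Sw endp_nil endp_cons endp_append endp_mem)

variable {V : Type}

theorem jA_rec (D : Dat V) (R H : ℕ) (lam θ β : ℝ≥0∞) :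
    ad (sc β (tw θ (sa D.G D.z))) (cv (jA D R H lam θ β) (sc (3 * β) (wc D R H lam θ))) = jA D R H lam θ β := by
  have h1 : (jA D R H lam θ β) = fun x l => ∑' m : ℕ,
      (fun m : ℕ => sc β (cv (tw θ (sa D.G D.z)) (pwr (sc (3 * β) (wc D R H lam θ)) m))) m x l := rfl
  have h2 : cv (jA D R H lam θ β) (sc (3 * β) (wc D R H lam θ)) = fun x l => ∑' m : ℕ,
      sc β (cv (tw θ (sa D.G D.z)) (pwr (sc (3 * β) (wc D R H lam θ)) (m + 1))) x l := by
    rw [h1, cv_tsum_left]
    funext x l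
    refine tsum_congr fun m => ?_
    rw [cv_sc_left, cv_assoc]
    rfl
  funext x l
  show sc β (tw θ (sa D.G D.z)) x l + cv (jA D R H lam θ β) (sc (3 * β) (wc D R H lam θ)) x l = _
  rw [h2]
  have h3 : jA D R H lam θ β x l = sc β (cv (tw θ (sa D.G D.z)) (pwr (sc (3 * β) (wc D R H lam θ)) 0)) x l +
      ∑' m : ℕ, sc β (cv (tw θ (sa D.G D.z)) (pwr (sc (3 * β) (wc D R H lam θ)) (m + 1))) x l := by
    unfold jA
    rw [tsum_eq_zero_add' ENNReal.summable]
  rw [h3]
  congr 1
  show _ = sc β (cv (tw θ (sa D.G D.z)) on) x l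
  rw [cv_on]

/-- The weight of a cut piece from below. -/
private theorem pra_wc {D : Dat V} {K1 : ℝ≥0∞} (hz : D.z ≠ 0) (hz1 : D.z ≤ 1)
    (hk : ∀ x l, th D x l ≤ K1 * sa D.G D.z x l) {R H : ℕ} (hR : 1 ≤ R) {lam θ : ℝ≥0∞}
    (h3 : (1 + lam * um D K1) ^ (2 * R + rp D) ≤ 3) {x : V} {l : List V} (hw : Sw D.G x l) {b c : ℕ}
    (hbc : b + R ≤ c) (hc : c ≤ l.length) (hF : FF D (vt x l b) (sg l b c)) :
    (D.z * θ) ^ (c - b) * (3 * ∏ i ∈ Finset.Ico b c, (1 + lam * UU D R x l i))⁻¹ ≤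
      wc D R H lam θ (vt x l b) (sg l b c) := by
  have hbc' : b ≤ c := by omega
  have hlen : (sg l b c).length = c - b := sg_length l hbc' hc
  have hsa : sa D.G D.z (vt x l b) (sg l b c) = D.z ^ (c - b) := sa_sg D.z hw hbc' hc
  have hcut := PP_cut hz hz1 hk hR h3 x l hbc' hc
  have hinv : (3 * ∏ i ∈ Finset.Ico b c, (1 + lam * UU D R x l i))⁻¹ ≤
      (PP D R lam (vt x l b) (sg l b c))⁻¹ := ENNReal.inv_le_inv.mpr hcut
  have h1P : 1 ≤ PP D R lam (vt x l b) (sg l b c) := by
    unfold PP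
    exact Finset.one_le_prod' fun a _ => le_self_add
  have hP1 : (PP D R lam (vt x l b) (sg l b c))⁻¹ ≤ 1 := ENNReal.inv_le_one.mpr h1P
  have hmul : θ ^ (c - b) * D.z ^ (c - b) = (D.z * θ) ^ (c - b) := by rw [mul_pow, mul_comm]
  show _ ≤ om D R H lam θ (vt x l b) (sg l b c) + rs (fun _ l => H < l.length) (tw θ (sa D.G D.z)) (vt x l b) (sg l b c)
  by_cases hH : c - b ≤ H
  · have : om D R H lam θ (vt x l b) (sg l b c) = (D.z * θ) ^ (c - b) * (PP D R lam (vt x l b) (sg l b c))⁻¹ := by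
      unfold om
      rw [if_pos ⟨hF, by rw [hlen]; omega, by rw [hlen]; exact hH⟩, hlen, hsa, hmul]
    rw [this]
    exact le_trans (mul_le_mul' le_rfl hinv) le_self_add
  · have : rs (fun _ l => H < l.length) (tw θ (sa D.G D.z)) (vt x l b) (sg l b c) = (D.z * θ) ^ (c - b) := by
      unfold rs tw
      rw [if_pos (show H < (sg l b c).length by rw [hlen]; omega), hlen, hsa, hmul]
    rw [this]
    calc (D.z * θ) ^ (c - b) * (3 * ∏ i ∈ Finset.Ico b c, (1 + lam * UU D R x l i))⁻¹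
        ≤ (D.z * θ) ^ (c - b) * 1 := mul_le_mul' le_rfl (le_trans hinv hP1)
      _ = (D.z * θ) ^ (c - b) := mul_one _
      _ ≤ _ := le_add_self

/-- The number of the good positions that are not compatible. -/
private theorem pra_cnt {D : Dat V} {ρ κ K K1 : ℝ≥0∞} {c0 : ℝ≥0} (hs : Sc D ρ κ K K1 c0) (R : ℕ) {x : V}
    {l : List V} (hw : Sw D.G x l) (r : V → List V)
    (hr : ∀ y, Gg D (vb D.ν) (x :: l) y → (y :: r y).IsChain D.G.Adj ∧ (r y).length = D.J)
    {rq : List V} {i : ℕ} (hi : i ≤ l.length)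
    (hq : (vt x l i :: rq).IsChain D.G.Adj ∧ rq.length = D.J) :
    ((((Finset.range i).filter (fun j => GP D x l j ∧
      ¬ (j + R ≤ i ∧ Nc D (vt x l j) (r (vt x l j)) (vt x l i) rq))).card : ℕ) : ℝ≥0∞) ≤ B0 D + R := by
  set S : Finset ℕ := (Finset.range i).filter (fun j => GP D x l j ∧
      ¬ (j + R ≤ i ∧ Nc D (vt x l j) (r (vt x l j)) (vt x l i) rq)) with hS
  set S1 : Finset ℕ := (Finset.range i).filter (fun j => GP D x l j ∧
      ¬ Nc D (vt x l j) (r (vt x l j)) (vt x l i) rq) with hS1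
  have hsub : S ⊆ S1 ∪ Finset.Ico (i - R) i := by
    intro j hj
    rw [hS, Finset.mem_filter, Finset.mem_range] at hj
    rw [Finset.mem_union, hS1, Finset.mem_filter, Finset.mem_range, Finset.mem_Ico]
    by_cases hn : Nc D (vt x l j) (r (vt x l j)) (vt x l i) rq
    · right
      have : ¬ (j + R ≤ i) := fun h => hj.2.2 ⟨h, hn⟩
      omega
    · left
      exact ⟨hj.1, hj.2.1, hn⟩
  have hc1 : (S.card : ℝ≥0∞) ≤ (S1.card : ℝ≥0∞) + R := by
    have h1 : S.card ≤ S1.card + R := by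
      refine le_trans (Finset.card_le_card hsub) (le_trans (Finset.card_union_le _ _) ?_)
      rw [Nat.card_Ico]
      omega
    exact_mod_cast h1
  refine le_trans hc1 (add_le_add ?_ le_rfl)
  -- the set of the vertices
  set I : Finset V := ((Finset.range i).filter (fun j => GP D x l j)).image (fun j => vt x l j) with hI
  have hnic := nic hs hs.jr (vt x l i) rq hq.1 hq.2 I r (by
    intro y hy
    rw [hI, Finset.mem_image] at hy
    obtain ⟨j, hj, rfl⟩ := hy
    rw [Finset.mem_filter] at hj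
    exact hr _ hj.2.2)
  refine le_trans ?_ hnic
  have hinj : Set.InjOn (fun j => vt x l j) (S1 : Set ℕ) := by
    intro a ha b hb hab
    rw [Finset.mem_coe, hS1, Finset.mem_filter, Finset.mem_range] at ha hb
    exact vt_inj hw.2 (by omega) (by omega) hab
  have h2 : S1.card = (S1.image (fun j => vt x l j)).card := (Finset.card_image_of_injOn hinj).symm
  rw [h2]
  have h3 : S1.image (fun j => vt x l j) ⊆ I.filter (fun y => ¬ Nc D y (r y) (vt x l i) rq) := by
    intro y hy
    rw [Finset.mem_image] at hy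
    obtain ⟨j, hj, rfl⟩ := hy
    rw [hS1, Finset.mem_filter] at hj
    rw [Finset.mem_filter, hI, Finset.mem_image]
    exact ⟨⟨j, Finset.mem_filter.mpr ⟨hj.1, hj.2.1⟩, rfl⟩, hj.2.2⟩
  exact_mod_cast Finset.card_le_card h3

theorem pra {D : Dat V} {ρ κ K K1 : ℝ≥0∞} {c0 : ℝ≥0} (hs : Sc D ρ κ K K1 c0) {R H : ℕ} (hR : 1 ≤ R) {lam θ β : ℝ≥0∞}
    (hlt : lam ≠ ⊤) (hβt : β ≠ ⊤) (hθ0 : θ ≠ 0) (hθ : θ ≤ 1) (h3 : (1 + lam * um D K1) ^ (2 * R + rp D) ≤ 3)
    (hβ : β * (B0 D + R) ≤ 2⁻¹) {x : V} {l : List V} (hw : Sw D.G x l) :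
    (1 + β / 2) ^ ((Finset.range (l.length + 1)).filter (fun i => GP D x l i)).card ≤
      1 + ∑ i ∈ Finset.range (l.length + 1), (D.z * θ)⁻¹ ^ i *
        (∏ a ∈ Finset.range i, (1 + lam * UU D R x l a)) * jA D R H lam θ β x (l.take i) := by
  have hz := hs.ug.zpos
  have hz1 := hs.ug.zle
  have hk := hs.k1
  set w : ℝ≥0∞ := D.z * θ with hwd
  have hw0 : w ≠ 0 := mul_ne_zero hz hθ0
  have hwt : w ≠ ⊤ := ENNReal.mul_ne_top (ne_top_of_le_ne_top ENNReal.one_ne_top hz1)
    (ne_top_of_le_ne_top ENNReal.one_ne_top hθ)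
  have hwi : w⁻¹ * w = 1 := ENNReal.inv_mul_cancel hw0 hwt
  -- the factors
  have hut : ∀ a, 1 + lam * UU D R x l a ≠ ⊤ := by
    intro a
    have h1 : UU D R x l a ≠ ⊤ := by
      refine ne_top_of_le_ne_top ?_ (UU_le hz hz1 hk R x l a)
      unfold um
      exact ENNReal.mul_ne_top (ENNReal.add_ne_top.mpr ⟨ENNReal.natCast_ne_top _, ENNReal.one_ne_top⟩) hs.k1t
    exact ENNReal.add_ne_top.mpr ⟨ENNReal.one_ne_top, ENNReal.mul_ne_top hlt h1⟩
  -- the end walks
  have hxr : ∀ (T : Ker V) (y : V), ∃ r : List V, Gg D T (x :: l) y → ((y :: r).IsChain D.G.Adj ∧ r.length = D.J ∧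
      (∀ u ∈ r, u ∉ x :: l) ∧ hit T (endp y r) (x :: l) ≤ D.η) := by
    intro T y
    by_cases h : Gg D T (x :: l) y
    · obtain ⟨r, hr⟩ := h
      exact ⟨r, fun _ => hr⟩
    · exact ⟨[], fun h' => absurd h' h⟩
  choose r hr using hxr (vb D.ν)
  choose rq hrq using hxr (vs D.ν)
  set Y : ℕ → ℝ≥0∞ := fun i => w⁻¹ ^ i * (∏ a ∈ Finset.range i, (1 + lam * UU D R x l a)) *
    jA D R H lam θ β x (l.take i) with hY
  set C : ℕ → ℕ → Prop := fun j i => GP D x l j ∧ (j + R ≤ i ∧ Nc D (vt x l j) (r (vt x l j)) (vt x l i) (rq (vt x l i)))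
    with hC
  set u : ℕ → ℝ≥0∞ := fun i => if GP D x l i then 1 else 0 with hu
  have hlbl := lbl (l.length + 1) u Y C β hβt ?_ ?_ ?_
  · refine le_trans (le_of_eq ?_) hlbl
    have e1 : ∀ i ∈ Finset.range (l.length + 1), (1 + β * u i / 2) = if GP D x l i then (1 + β / 2) else 1 := by
      intro i _
      rw [hu]
      simp only
      split_ifs
      · rw [mul_one]
      · rw [mul_zero, ENNReal.zero_div, add_zero]
    rw [Finset.prod_congr rfl e1, ← Finset.prod_filter, Finset.prod_const]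
  · intro i _
    rw [hu]
    simp only
    split_ifs
    · exact ENNReal.one_ne_top
    · exact ENNReal.zero_ne_top
  · -- the recursion
    intro i hi
    have hil : i ≤ l.length := by omega
    by_cases hg : GP D x l i
    swap
    · rw [hu]
      simp only
      rw [if_neg hg, mul_zero, zero_mul]
      exact zero_le
    have e0 : u i = 1 := by
      rw [hu]
      simp only
      rw [if_pos hg]
    rw [e0, mul_one, mul_add, mul_one, Finset.mul_sum]
    -- expand `jA`
    have hj : jA D R H lam θ β x (l.take i) = β * (θ ^ i * D.z ^ i) +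
        ∑ j ∈ Finset.range (i + 1), jA D R H lam θ β x (l.take j) * (3 * β * wc D R H lam θ (vt x l j) (sg l j i)) := by
      have h1 := congrFun (congrFun (jA_rec D R H lam θ β) x) (l.take i)
      rw [← h1]
      show sc β (tw θ (sa D.G D.z)) x (l.take i) + cv (jA D R H lam θ β) (sc (3 * β) (wc D R H lam θ)) x (l.take i) = _
      rw [cv_take _ _ x l hil]
      congr 1
      show β * (θ ^ (l.take i).length * sa D.G D.z x (l.take i)) = _
      have h2 : (l.take i).length = i := by rw [List.length_take]; omega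
      have h3' : sa D.G D.z x (l.take i) = D.z ^ (l.take i).length := by
        unfold sa
        rw [if_pos (Sw_take hw i)]
      rw [h3', h2]
    have hYi : Y i = w⁻¹ ^ i * (∏ a ∈ Finset.range i, (1 + lam * UU D R x l a)) *
        jA D R H lam θ β x (l.take i) := rfl
    rw [hYi, hj, mul_add, Finset.mul_sum]
    refine add_le_add ?_ ?_
    · -- the first term
      have h1 : 1 ≤ ∏ a ∈ Finset.range i, (1 + lam * UU D R x l a) := Finset.one_le_prod' fun a _ => le_self_add
      have h2 : θ ^ i * D.z ^ i = w ^ i := by rw [hwd, mul_pow, mul_comm]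
      rw [h2]
      calc β = (w⁻¹ * w) ^ i * 1 * β := by rw [hwi, one_pow, one_mul, one_mul]
        _ ≤ (w⁻¹ * w) ^ i * (∏ a ∈ Finset.range i, (1 + lam * UU D R x l a)) * β :=
            mul_le_mul' (mul_le_mul' le_rfl h1) le_rfl
        _ = w⁻¹ ^ i * (∏ a ∈ Finset.range i, (1 + lam * UU D R x l a)) * (β * w ^ i) := by
            rw [mul_pow]; ring
    · -- the other terms
      refine le_trans ?_ (Finset.sum_le_sum_of_subset (Finset.range_mono (Nat.le_succ i)))
      refine Finset.sum_le_sum fun j hjr => ?_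
      rw [Finset.mem_range] at hjr
      by_cases hc : C j i
      swap
      · rw [if_neg hc, mul_zero]
        exact zero_le
      rw [if_pos hc]
      have hc' : GP D x l j ∧ (j + R ≤ i ∧ Nc D (vt x l j) (r (vt x l j)) (vt x l i) (rq (vt x l i))) := hc
      have hsub : (vt x l j :: sg l j i).Sublist (x :: l) := by
        refine List.Sublist.trans ?_ (sg_sublist x l (a := j) (b := i) (by omega) (by omega))
        exact List.Sublist.refl _
      have hF : FF D (vt x l j) (sg l j i) :=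
        FF_of_nc hw (i := j) (j := i) (by omega) hil hsub hsub (hr _ hc'.1.2) (hrq _ hg.1) hc'.2.2
      have hwc := pra_wc (H := H) hz hz1 hk hR (θ := θ) h3 hw hc'.2.1 hil hF
      rw [← hwd] at hwc
      set Q : ℝ≥0∞ := ∏ a ∈ Finset.Ico j i, (1 + lam * UU D R x l a) with hQ
      have hQ0 : Q ≠ 0 := by
        have : 1 ≤ Q := Finset.one_le_prod' fun a _ => le_self_add
        exact (lt_of_lt_of_le one_pos this).ne'
      have hQt : Q ≠ ⊤ := ENNReal.prod_ne_top fun a _ => hut a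
      have hP : (∏ a ∈ Finset.range i, (1 + lam * UU D R x l a)) =
          (∏ a ∈ Finset.range j, (1 + lam * UU D R x l a)) * Q := by
        rw [hQ, Finset.prod_range_mul_prod_Ico _ (by omega)]
      have h3Q : Q * 3 * (3 * Q)⁻¹ = 1 := by
        rw [mul_comm Q 3]
        exact ENNReal.mul_inv_cancel (mul_ne_zero (by norm_num) hQ0) (ENNReal.mul_ne_top (by norm_num) hQt)
      have hpw : w⁻¹ ^ i * w ^ (i - j) = w⁻¹ ^ j := by
        have e : i = j + (i - j) := by omega
        calc w⁻¹ ^ i * w ^ (i - j) = w⁻¹ ^ (j + (i - j)) * w ^ (i - j) := by rw [← e]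
          _ = w⁻¹ ^ j * (w⁻¹ * w) ^ (i - j) := by rw [pow_add, mul_pow]; ring
          _ = w⁻¹ ^ j := by rw [hwi, one_pow, mul_one]
      calc β * Y j = w⁻¹ ^ j * (∏ a ∈ Finset.range j, (1 + lam * UU D R x l a)) * jA D R H lam θ β x (l.take j) * β := by
            rw [hY]
            ring
        _ = (w⁻¹ ^ i * w ^ (i - j)) * (∏ a ∈ Finset.range j, (1 + lam * UU D R x l a)) *
              (Q * 3 * (3 * Q)⁻¹) * jA D R H lam θ β x (l.take j) * β := by
            rw [hpw, h3Q, mul_one]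
        _ = w⁻¹ ^ i * ((∏ a ∈ Finset.range j, (1 + lam * UU D R x l a)) * Q) *
              (jA D R H lam θ β x (l.take j) * (3 * β * (w ^ (i - j) * (3 * Q)⁻¹))) := by ring
        _ ≤ w⁻¹ ^ i * (∏ a ∈ Finset.range i, (1 + lam * UU D R x l a)) *
              (jA D R H lam θ β x (l.take j) * (3 * β * wc D R H lam θ (vt x l j) (sg l j i))) := by
            rw [← hP]
            exact mul_le_mul' le_rfl (mul_le_mul' le_rfl (mul_le_mul' le_rfl hwc))
  · -- the number of incompatible positions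
    intro i hi hui
    have hil : i ≤ l.length := by omega
    have hg : GP D x l i := by
      by_contra h
      apply hui
      rw [hu]
      simp only
      rw [if_neg h]
    have hcnt := pra_cnt hs R hw r (fun y hy => ⟨(hr y hy).1, (hr y hy).2.1⟩) hil
      (rq := rq (vt x l i)) ⟨(hrq _ hg.1).1, (hrq _ hg.1).2.1⟩
    refine le_trans (mul_le_mul' le_rfl (le_trans (le_of_eq ?_) hcnt)) hβ
    rw [Finset.card_eq_sum_ones, Finset.sum_filter]
    push_cast
    refine Finset.sum_congr rfl fun j _ => ?_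
    rw [hC, hu]
    simp only
    by_cases h1 : GP D x l j
    · by_cases h2 : j + R ≤ i ∧ Nc D (vt x l j) (r (vt x l j)) (vt x l i) (rq (vt x l i))
      · rw [if_pos ⟨h1, h2⟩, if_neg (fun h => h.2 h2)]
      · rw [if_neg (fun h => h2 h.2), if_pos h1, if_pos ⟨h1, h2⟩]
    · rw [if_neg (fun h => h1 h.1), if_neg h1, if_neg (fun h => h1 h.1)]

end Pool.Agent.SAWG
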