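import Pool.Agent.SAWG.LBL
import Pool.Agent.SAWG.DRB
import Pool.Agent.SAWG.FCB
import Pool.Agent.SAWG.NIC
import Pool.Agent.SAWG.ALF

/-!
# SAWG module RIA: rich walks: the lower bound for one walk

PROOFS.  `jj_rec`: with `S = cv wm (sc β th)`, `J0 = cv (tw θ sa) (sc β th)`: `jj = ∑_m cv J0 (pwr S m)`; `cv (cv jj wm) (sc β th) = ∑_m cv (cv J0 (pwr S m)) S = ∑_m cv J0 (pwr S (m+1))`
(`cv_assoc`, `cv_tsum_left`, `cv_ad_left`).  So equality holds.
`ria`: `n = l.length`, `w_i = vt x l i`, `r' = rp D`.  For every position `b` with `BG b := Gg (vb ν) (fut R x l b) (w_b)` choose the walk `r_b` (as a function of the vertex `w_b`; the positions of a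
self-avoiding walk are determined by their vertices), for every `a` with `FG a := Gg (vs ν) (pst R x l a) (w_a)` choose `rq_a`.  `comp b a`: `b < a`, `BG b`, `FG a` and (`R < a - b` or
`Nc D w_b r_b w_a rq_a`).  If `comp b a` then `wm (w_b) (sg l b a) = (θ z)^(a-b)` (`sa_sg`; if `a - b ≤ R`: `FF_of_nc` with `U = fut R x l b`, `U' = pst R x l a`, `sub_fut`, `sub_pst`).
Put `j_b = (z θ)⁻¹^b * jj x (l.take b)`.  By `jj_rec`, `cv_take`: `jj x (l.take b) ≥ ∑_{a ≤ b ≤ a + r'} (θ^a z^a + ∑_{b' < a, comp b' a} jj x (l.take b') (θ z)^(a-b')) * β th (w_a) (sg l a b)`, and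
`th (w_a) (sg l a b) = z^(b-a) uu a b` when `uu a b ≠ 0`, so (`θ ≤ 1`) `j_b ≥ ∑_{a ≤ b ≤ a + r'} β uu a b (1 + ∑_{b' < a, comp b' a} j_b')`.
Number the segments: `i = a (r'+1) + e ↔ (a, b = a + e)`, `e ≤ r'`, `a ≤ n`; `u_i = uu a b`, `Y_i = β u_i (1 + ∑_{b' < a, comp b' a} j_b')`, `C i' i := comp b(i') a(i)`.  `∑_{i : b(i) = b} Y_i ≤ j_b` (and `uu a b = 0` if `b > n`).
`hY` of `lbl`: `∑_{i' < i, C i' i} Y_i' ≤ ∑_{b' < a, comp b' a} j_b'`.  `hC` of `lbl` for `u_i ≠ 0` (so `FG a`): the `i' < i` with `u_i' ≠ 0` (so `BG b'`) and `¬ C i' i` have `b' ≥ a` (then `a - r' ≤ a' ≤ a`: at most `(r'+1)^2` of them) or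
`b' < a` and `¬ Nc` (at most `B0` values of `b'` by `nic` with `I` = the vertices `w_b'`, and `a' ∈ [b'-r', b']`: at most `B0 (r'+1)` of them); `u_i' ≤ K1` (`uu_le`).
`lbl` gives `∏_i (1 + β u_i/2) ≤ 1 + ∑_i Y_i ≤ 1 + ∑_{b ≤ n} j_b`, and the product over `i` is the double product.
`rib`: `prod_exp` with `y = β uu / 2 ≤ 1` (`β uu ≤ β K1 ≤ 1/2`).
-/

set_option autoImplicit false

open scoped ENNReal NNReal Classical
open Filter Topology

namespace Pool.Agent.SAWG

open Pool.Agent.SWH (Ker idK adK tp endp Sw endp_nil endp_cons endp_append endp_mem)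

variable {V : Type}

theorem jj_rec (D : Dat V) (R : ℕ) (θ β : ℝ≥0∞) :
    cv (ad (tw θ (sa D.G D.z)) (cv (jj D R θ β) (wm D R θ))) (sc β (th D)) = jj D R θ β := by
  have hj : jj D R θ β = fun x l => ∑' m : ℕ,
      cv (cv (tw θ (sa D.G D.z)) (sc β (th D))) (pwr (cv (wm D R θ) (sc β (th D))) m) x l := rfl
  rw [cv_ad_left, cv_assoc (jj D R θ β)]
  have h1 : cv (jj D R θ β) (cv (wm D R θ) (sc β (th D))) = fun x l => ∑' m : ℕ,
      cv (cv (tw θ (sa D.G D.z)) (sc β (th D))) (pwr (cv (wm D R θ) (sc β (th D))) (m + 1)) x l := by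
    rw [hj, cv_tsum_left (fun m : ℕ => cv (cv (tw θ (sa D.G D.z)) (sc β (th D)))
      (pwr (cv (wm D R θ) (sc β (th D))) m))]
    funext x l
    apply tsum_congr
    intro m
    rw [cv_assoc (cv (tw θ (sa D.G D.z)) (sc β (th D)))]
    rfl
  rw [h1, hj]
  funext x l
  rw [tsum_eq_zero_add' ENNReal.summable]
  have h2 : cv (cv (tw θ (sa D.G D.z)) (sc β (th D))) (pwr (cv (wm D R θ) (sc β (th D))) 0)
      = cv (tw θ (sa D.G D.z)) (sc β (th D)) := cv_on _
  rw [h2]
  rfl

/-- Reindexing a product over `range (m * p)`. -/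
theorem ria_prod (F : ℕ → ℝ≥0∞) (m p : ℕ) :
    ∏ i ∈ Finset.range (m * p), F i = ∏ a ∈ Finset.range m, ∏ e ∈ Finset.range p, F (a * p + e) := by
  induction m with
  | zero => simp
  | succ m ih =>
    rw [Nat.succ_mul, Finset.prod_range_add, ih, Finset.prod_range_succ]

/-- Grouping a sum. -/
theorem ria_sum (m N : ℕ) (bi : ℕ → ℕ) (Y j : ℕ → ℝ≥0∞) (P : ℕ → Prop)
    (h0 : ∀ i < N, P (bi i) → Y i ≠ 0 → bi i < m)
    (hj : ∀ b < m, ∑ i ∈ (Finset.range N).filter (fun i => bi i = b), Y i ≤ j b) :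
    ∑ i ∈ Finset.range N, (if P (bi i) then Y i else 0) ≤ ∑ b ∈ Finset.range m, if P b then j b else 0 := by
  calc ∑ i ∈ Finset.range N, (if P (bi i) then Y i else 0)
      = ∑ i ∈ Finset.range N, ∑ b ∈ Finset.range m, (if P b ∧ bi i = b then Y i else 0) := by
        apply Finset.sum_congr rfl
        intro i hi
        by_cases hY : Y i = 0
        · simp [hY]
        by_cases hP : P (bi i)
        · have hb := h0 i (Finset.mem_range.mp hi) hP hY
          rw [if_pos hP, Finset.sum_eq_single (bi i)]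
          · rw [if_pos ⟨hP, rfl⟩]
          · intro b _ hb
            rw [if_neg]
            rintro ⟨_, h⟩
            exact hb h.symm
          · intro h
            exact absurd (Finset.mem_range.mpr hb) h
        · rw [if_neg hP, Finset.sum_eq_zero]
          intro b _
          rw [if_neg]
          rintro ⟨h1, h2⟩
          rw [← h2] at h1
          exact hP h1
    _ = ∑ b ∈ Finset.range m, ∑ i ∈ Finset.range N, (if P b ∧ bi i = b then Y i else 0) := Finset.sum_comm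
    _ ≤ ∑ b ∈ Finset.range m, if P b then j b else 0 := by
        apply Finset.sum_le_sum
        intro b hb
        by_cases hP : P b
        · rw [if_pos hP]
          refine le_trans (le_of_eq ?_) (hj b (Finset.mem_range.mp hb))
          rw [Finset.sum_filter]
          apply Finset.sum_congr rfl
          intro i _
          by_cases h : bi i = b
          · rw [if_pos h, if_pos ⟨hP, h⟩]
          · rw [if_neg h, if_neg (fun h' => h h'.2)]
        · rw [if_neg hP]
          apply le_of_eq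
          apply Finset.sum_eq_zero
          intro i _
          rw [if_neg (fun h' => hP h'.1)]

/-- The sum over the segments that end at `b`. -/
theorem ria_grp (p N b : ℕ) (F : ℕ → ℝ≥0∞) :
    ∑ i ∈ (Finset.range N).filter (fun i => i / p + i % p = b), F (i / p) ≤ ∑ a ∈ Finset.range (b + 1), F a := by
  have hinj : Set.InjOn (fun i : ℕ => i / p) ((Finset.range N).filter (fun i => i / p + i % p = b)) := by
    intro i hi i' hi' h
    have h1 := (Finset.mem_filter.mp (Finset.mem_coe.mp hi)).2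
    have h2 := (Finset.mem_filter.mp (Finset.mem_coe.mp hi')).2
    have h3 : i / p = i' / p := h
    have h4 := Nat.div_add_mod i p
    have h5 := Nat.div_add_mod i' p
    have h6 : i % p = i' % p := by omega
    rw [← h4, ← h5, h3, h6]
  rw [← Finset.sum_image (f := F) (g := fun i : ℕ => i / p) hinj]
  apply Finset.sum_le_sum_of_subset
  intro a ha
  obtain ⟨i, hi, rfl⟩ := Finset.mem_image.mp ha
  have h1 := (Finset.mem_filter.mp hi).2
  rw [Finset.mem_range]
  have : i / p ≤ b := by omega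
  exact Nat.lt_succ_of_le this

theorem ria_wm {D : Dat V} {R : ℕ} {θ : ℝ≥0∞} {x : V} {l : List V} (hw : Sw D.G x l) {b a : ℕ} (hba : b < a)
    (ha : a ≤ l.length) (h : a ≤ b + R → FF D (vt x l b) (sg l b a)) :
    wm D R θ (vt x l b) (sg l b a) = (D.z * θ) ^ (a - b) := by
  have hlen : (sg l b a).length = a - b := sg_length l hba.le ha
  unfold wm rs tw
  rw [if_pos]
  · rw [hlen, sa_sg D.z hw hba.le ha, ← mul_pow, mul_comm]
  · refine ⟨by rw [hlen]; omega, fun h1 => h (by rw [hlen] at h1; omega)⟩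

theorem ria_step {D : Dat V} {R : ℕ} {θ β : ℝ≥0∞} (hz : D.z ≠ 0) (hz1 : D.z ≤ 1) (hθ0 : θ ≠ 0) (hθ : θ ≤ 1) {x : V}
    {l : List V} (hw : Sw D.G x l) (cm : ℕ → ℕ → Prop)
    (hcm : ∀ b a, cm b a → b < a ∧ wm D R θ (vt x l b) (sg l b a) = (D.z * θ) ^ (a - b))
    {c : ℕ} (hc : c ≤ l.length) :
    ∑ a ∈ Finset.range (c + 1), β * uu D R x l a c * (1 + ∑ b ∈ Finset.range a,
        if cm b a then (D.z * θ)⁻¹ ^ b * jj D R θ β x (l.take b) else 0) ≤
      (D.z * θ)⁻¹ ^ c * jj D R θ β x (l.take c) := by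
  have hzt : D.z ≠ ⊤ := ne_top_of_le_ne_top ENNReal.one_ne_top hz1
  have hθt : θ ≠ ⊤ := ne_top_of_le_ne_top ENNReal.one_ne_top hθ
  have hq0 : D.z * θ ≠ 0 := mul_ne_zero hz hθ0
  have hqt : D.z * θ ≠ ⊤ := ENNReal.mul_ne_top hzt hθt
  have hqz : D.z⁻¹ ≤ (D.z * θ)⁻¹ := by
    rw [ENNReal.inv_le_inv]
    calc D.z * θ ≤ D.z * 1 := mul_le_mul' le_rfl hθ
      _ = D.z := mul_one _
  have e1 : jj D R θ β x (l.take c) = ∑ a ∈ Finset.range (c + 1),
      (ad (tw θ (sa D.G D.z)) (cv (jj D R θ β) (wm D R θ))) x (l.take a) *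
        (sc β (th D)) (vt x l a) (sg l a c) := by
    have h := congrFun (congrFun (jj_rec D R θ β) x) (l.take c)
    rw [← h]
    exact cv_take _ _ x l hc
  rw [e1, Finset.mul_sum]
  generalize hq : D.z * θ = q at hq0 hqt hqz hcm ⊢
  have hqi : ∀ n : ℕ, q⁻¹ ^ n * q ^ n = 1 := by
    intro n
    rw [← mul_pow, ENNReal.inv_mul_cancel hq0 hqt, one_pow]
  apply Finset.sum_le_sum
  intro a ha
  have hac : a ≤ c := Nat.lt_succ_iff.mp (Finset.mem_range.mp ha)
  have e2 : cv (jj D R θ β) (wm D R θ) x (l.take a) = ∑ b ∈ Finset.range (a + 1),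
      jj D R θ β x (l.take b) * wm D R θ (vt x l b) (sg l b a) := cv_take _ _ x l (hac.trans hc)
  have e3 : q ^ a * (1 + ∑ b ∈ Finset.range a, if cm b a then q⁻¹ ^ b * jj D R θ β x (l.take b) else 0) ≤
      ad (tw θ (sa D.G D.z)) (cv (jj D R θ β) (wm D R θ)) x (l.take a) := by
    unfold ad
    rw [mul_add, mul_one]
    apply add_le_add
    · apply le_of_eq
      unfold tw sa
      rw [if_pos (Sw_take hw a), List.length_take, min_eq_left (hac.trans hc), ← mul_pow, mul_comm θ, hq]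
    · rw [e2, Finset.mul_sum]
      refine le_trans ?_ (Finset.sum_le_sum_of_subset (Finset.range_mono (Nat.le_succ a)))
      apply Finset.sum_le_sum
      intro b hb
      by_cases h : cm b a
      · obtain ⟨h1, h3⟩ := hcm b a h
        rw [if_pos h, h3]
        apply le_of_eq
        have h4 : q ^ a = q ^ (a - b) * q ^ b := by rw [← pow_add]; congr 1; omega
        calc q ^ a * (q⁻¹ ^ b * jj D R θ β x (l.take b))
            = q ^ (a - b) * (q⁻¹ ^ b * q ^ b) * jj D R θ β x (l.take b) := by rw [h4]; ring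
          _ = jj D R θ β x (l.take b) * q ^ (a - b) := by rw [hqi]; ring
      · rw [if_neg h, mul_zero]
        exact bot_le
  have e4 : uu D R x l a c ≤ q⁻¹ ^ (c - a) * th D (vt x l a) (sg l a c) := by
    unfold uu
    split_ifs with h
    · exact mul_le_mul' (pow_le_pow_left₀ bot_le hqz _) le_rfl
    · exact bot_le
  generalize (1 + ∑ b ∈ Finset.range a, if cm b a then q⁻¹ ^ b * jj D R θ β x (l.take b) else 0) = S at e3 ⊢
  have h5 : q⁻¹ ^ c = q⁻¹ ^ (c - a) * q⁻¹ ^ a := by rw [← pow_add]; congr 1; omega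
  calc β * uu D R x l a c * S ≤ β * (q⁻¹ ^ (c - a) * th D (vt x l a) (sg l a c)) * S :=
        mul_le_mul' (mul_le_mul' le_rfl e4) le_rfl
    _ = q⁻¹ ^ (c - a) * (q⁻¹ ^ a * q ^ a) * S * (β * th D (vt x l a) (sg l a c)) := by rw [hqi]; ring
    _ = q⁻¹ ^ c * ((q ^ a * S) * (β * th D (vt x l a) (sg l a c))) := by rw [h5]; ring
    _ ≤ q⁻¹ ^ c * (ad (tw θ (sa D.G D.z)) (cv (jj D R θ β) (wm D R θ)) x (l.take a) *
        sc β (th D) (vt x l a) (sg l a c)) := mul_le_mul' le_rfl (mul_le_mul' e3 le_rfl)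

/-- The first part of the count: the segments that end at `a` or later. -/
theorem ria_card1 (p i : ℕ) (hp : 0 < p) :
    ((Finset.range i).filter (fun k => i / p ≤ k / p + k % p)).card ≤ p * p := by
  have h : ((Finset.range i).filter (fun k => i / p ≤ k / p + k % p)).card ≤
      (Finset.range p ×ˢ Finset.range p).card := by
    apply Finset.card_le_card_of_injOn (fun k => (i / p - k / p, k % p))
    · intro k hk
      have hk' := Finset.mem_filter.mp (Finset.mem_coe.mp hk)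
      have h1 := Finset.mem_range.mp hk'.1
      have h2 := hk'.2
      have h3 : k % p < p := Nat.mod_lt k hp
      simp only [Finset.coe_product, Finset.coe_range, Set.mem_prod, Set.mem_Iio]
      constructor
      · omega
      · exact h3
    · intro k hk k' hk' h
      have h1 := Finset.mem_range.mp (Finset.mem_filter.mp (Finset.mem_coe.mp hk)).1
      have h2 := Finset.mem_range.mp (Finset.mem_filter.mp (Finset.mem_coe.mp hk')).1
      have h3 : k / p ≤ i / p := Nat.div_le_div_right h1.le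
      have h4 : k' / p ≤ i / p := Nat.div_le_div_right h2.le
      have h5 : i / p - k / p = i / p - k' / p := congrArg Prod.fst h
      have h6 : k % p = k' % p := congrArg Prod.snd h
      have h7 : k / p = k' / p := by omega
      have h8 := Nat.div_add_mod k p
      have h9 := Nat.div_add_mod k' p
      rw [← h8, ← h9, h7, h6]
  rwa [Finset.card_product, Finset.card_range] at h

/-- The second part of the count. -/
theorem ria_card2 (p i : ℕ) (hp : 0 < p) (Bs : Finset ℕ) :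
    ((Finset.range i).filter (fun k => k / p + k % p ∈ Bs)).card ≤ Bs.card * p := by
  have h : ((Finset.range i).filter (fun k => k / p + k % p ∈ Bs)).card ≤ (Bs ×ˢ Finset.range p).card := by
    apply Finset.card_le_card_of_injOn (fun k => (k / p + k % p, k % p))
    · intro k hk
      have hk' := Finset.mem_filter.mp (Finset.mem_coe.mp hk)
      have h3 : k % p < p := Nat.mod_lt k hp
      simp only [Finset.coe_product, Finset.coe_range, Set.mem_prod, Set.mem_Iio]
      exact ⟨hk'.2, h3⟩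
    · intro k hk k' hk' h
      have h5 : k / p + k % p = k' / p + k' % p := congrArg Prod.fst h
      have h6 : k % p = k' % p := congrArg Prod.snd h
      have h7 : k / p = k' / p := by omega
      have h8 := Nat.div_add_mod k p
      have h9 := Nat.div_add_mod k' p
      rw [← h8, ← h9, h7, h6]
  rwa [Finset.card_product, Finset.card_range] at h

/-- The bad positions are few. -/
theorem ria_bad {D : Dat V} {ρ κ K K1 : ℝ≥0∞} {c0 : ℝ≥0} (hs : Sc D ρ κ K K1 c0) {x : V} {l : List V}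
    (hw : Sw D.G x l) (BG : ℕ → Prop) (rb : ℕ → List V)
    (hrb : ∀ b, BG b → (vt x l b :: rb b).IsChain D.G.Adj ∧ (rb b).length = D.J) (e : V) (rq : List V)
    (hq : (e :: rq).IsChain D.G.Adj) (hql : rq.length = D.J) :
    (((Finset.range (l.length + 1)).filter (fun b => BG b ∧ ¬ Nc D (vt x l b) (rb b) e rq)).card : ℝ≥0∞) ≤ B0 D := by
  set ry : V → List V := fun y => if h : ∃ b, b ≤ l.length ∧ vt x l b = y then rb h.choose else [] with hry
  have hry' : ∀ b, b ≤ l.length → ry (vt x l b) = rb b := by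
    intro b hb
    have h : ∃ b', b' ≤ l.length ∧ vt x l b' = vt x l b := ⟨b, hb, rfl⟩
    have h1 : ry (vt x l b) = rb h.choose := by rw [hry]; exact dif_pos h
    rw [h1]
    congr 1
    exact vt_inj hw.2 h.choose_spec.1 hb h.choose_spec.2
  have h1 := nic hs hs.jr e rq hq hql
    (((Finset.range (l.length + 1)).filter (fun b => BG b)).image (vt x l)) ry (by
      intro y hy
      obtain ⟨b, hb, rfl⟩ := Finset.mem_image.mp hy
      have hb' := Finset.mem_filter.mp hb
      rw [hry' b (Nat.lt_succ_iff.mp (Finset.mem_range.mp hb'.1))]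
      exact hrb b hb'.2)
  refine le_trans ?_ h1
  rw [Nat.cast_le]
  apply Finset.card_le_card_of_injOn (vt x l)
  · intro b hb
    have hb' := Finset.mem_filter.mp (Finset.mem_coe.mp hb)
    rw [Finset.mem_coe, Finset.mem_filter]
    refine ⟨Finset.mem_image.mpr ⟨b, Finset.mem_filter.mpr ⟨hb'.1, hb'.2.1⟩, rfl⟩, ?_⟩
    rw [hry' b (Nat.lt_succ_iff.mp (Finset.mem_range.mp hb'.1))]
    exact hb'.2.2
  · intro b hb b' hb' h
    have h1 := Finset.mem_range.mp (Finset.mem_filter.mp (Finset.mem_coe.mp hb)).1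
    have h2 := Finset.mem_range.mp (Finset.mem_filter.mp (Finset.mem_coe.mp hb')).1
    exact vt_inj hw.2 (Nat.lt_succ_iff.mp h1) (Nat.lt_succ_iff.mp h2) h

theorem ria_K1 {D : Dat V} {ρ κ K K1 : ℝ≥0∞} {c0 : ℝ≥0} (hs : Sc D ρ κ K K1 c0) (x : V) : K1 ≠ 0 := by
  intro h
  have h1 := th_ms hs.ug hs.cn x
  have h2 : ms (th D) x = 0 := by
    unfold ms
    rw [ENNReal.tsum_eq_zero]
    intro l
    have h3 := hs.k1 x l
    rw [h, zero_mul] at h3
    exact le_bot_iff.mp h3
  rw [h2] at h1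
  exact zero_ne_one h1

theorem ria_beta {D : Dat V} {ρ κ K K1 : ℝ≥0∞} {c0 : ℝ≥0} (hs : Sc D ρ κ K K1 c0) {β : ℝ≥0∞}
    (hβ : β * (((rp D : ℝ≥0∞) + 1) ^ 2 + B0 D * ((rp D : ℝ≥0∞) + 1)) * K1 ≤ 2⁻¹) (x : V) :
    β ≠ ⊤ ∧ β * K1 ≤ 2⁻¹ := by
  have h1 : (1 : ℝ≥0∞) ≤ ((rp D : ℝ≥0∞) + 1) ^ 2 + B0 D * ((rp D : ℝ≥0∞) + 1) := by
    calc (1 : ℝ≥0∞) = 1 ^ 2 := by ring
      _ ≤ ((rp D : ℝ≥0∞) + 1) ^ 2 := pow_le_pow_left₀ bot_le le_add_self 2
      _ ≤ _ := le_self_add
  have h2 : β * K1 ≤ 2⁻¹ := by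
    refine le_trans ?_ hβ
    calc β * K1 = β * 1 * K1 := by ring
      _ ≤ _ := mul_le_mul' (mul_le_mul' le_rfl h1) le_rfl
  refine ⟨?_, h2⟩
  rintro rfl
  rw [ENNReal.top_mul (ria_K1 hs x)] at h2
  have h3 : (2 : ℝ≥0∞)⁻¹ ≠ ⊤ := by simp
  exact h3 (top_le_iff.mp h2)

theorem ria {D : Dat V} {ρ κ K K1 : ℝ≥0∞} {c0 : ℝ≥0} (hs : Sc D ρ κ K K1 c0) {R : ℕ} {θ β : ℝ≥0∞} (hθ0 : θ ≠ 0) (hθ : θ ≤ 1)
    (hβ : β * (((rp D : ℝ≥0∞) + 1) ^ 2 + B0 D * ((rp D : ℝ≥0∞) + 1)) * K1 ≤ 2⁻¹) {x : V} {l : List V}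
    (hw : Sw D.G x l) :
    ∏ a ∈ Finset.range (l.length + 1), ∏ b ∈ Finset.Icc a (a + rp D), (1 + β * uu D R x l a b / 2) ≤
      1 + ∑ b ∈ Finset.range (l.length + 1), (D.z * θ)⁻¹ ^ b * jj D R θ β x (l.take b) := by
  have hz := hs.ug.zpos
  have hz1 := hs.ug.zle
  obtain ⟨hβt, hβ1⟩ := ria_beta hs hβ x
  -- the end walks
  set BG : ℕ → Prop := fun b => Gg D (vb D.ν) (fut R x l b) (vt x l b) with hBG
  set FG : ℕ → Prop := fun a => Gg D (vs D.ν) (pst R x l a) (vt x l a) with hFG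
  set rb : ℕ → List V := fun b => if h : BG b then h.choose else [] with hrbd
  set rf : ℕ → List V := fun a => if h : FG a then h.choose else [] with hrfd
  have hrb : ∀ b, BG b → (vt x l b :: rb b).IsChain D.G.Adj ∧ (rb b).length = D.J ∧
      (∀ u ∈ rb b, u ∉ fut R x l b) ∧ hit (vb D.ν) (endp (vt x l b) (rb b)) (fut R x l b) ≤ D.η := by
    intro b hb
    have h1 : rb b = Exists.choose hb := dif_pos hb
    rw [h1]
    exact Exists.choose_spec hb
  have hrf : ∀ a, FG a → (vt x l a :: rf a).IsChain D.G.Adj ∧ (rf a).length = D.J ∧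
      (∀ u ∈ rf a, u ∉ pst R x l a) ∧ hit (vs D.ν) (endp (vt x l a) (rf a)) (pst R x l a) ≤ D.η := by
    intro a ha
    have h1 : rf a = Exists.choose ha := dif_pos ha
    rw [h1]
    exact Exists.choose_spec ha
  -- compatibility
  obtain ⟨cm, hcmd⟩ : ∃ cm : ℕ → ℕ → Prop, ∀ b a, cm b a ↔ (b < a ∧ a ≤ l.length ∧ BG b ∧ FG a ∧
    (a ≤ b + R → Nc D (vt x l b) (rb b) (vt x l a) (rf a))) := ⟨_, fun _ _ => Iff.rfl⟩
  have hcm : ∀ b a, cm b a → b < a ∧ wm D R θ (vt x l b) (sg l b a) = (D.z * θ) ^ (a - b) := by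
    intro b a hba
    obtain ⟨h1, h2, h3, h4, h5⟩ := (hcmd b a).mp hba
    refine ⟨h1, ria_wm hw h1 h2 (fun h => ?_)⟩
    exact FF_of_nc hw h1.le h2 (sub_fut R x l h1.le h2 h) (sub_pst R x l h1.le h2 h) (hrb b h3) (hrf a h4) (h5 h)
  set j : ℕ → ℝ≥0∞ := fun b => (D.z * θ)⁻¹ ^ b * jj D R θ β x (l.take b) with hj
  set S : ℕ → ℝ≥0∞ := fun a => 1 + ∑ b ∈ Finset.range a, if cm b a then j b else 0 with hS
  have hstep : ∀ c, c ≤ l.length → ∑ a ∈ Finset.range (c + 1), β * uu D R x l a c * S a ≤ j c := by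
    intro c hc
    exact ria_step hz hz1 hθ0 hθ hw cm hcm hc
  -- numbering of the segments
  set p : ℕ := rp D + 1 with hpd
  have hp : 0 < p := Nat.succ_pos _
  set u : ℕ → ℝ≥0∞ := fun i => uu D R x l (i / p) (i / p + i % p) with hu
  set Y : ℕ → ℝ≥0∞ := fun i => β * u i * S (i / p) with hY
  have huK : ∀ i, u i ≤ K1 := fun i => uu_le hz hz1 hs.k1 R x l _ _
  have huz : ∀ i, u i ≠ 0 → i / p + i % p ≤ l.length ∧ FG (i / p) ∧ BG (i / p + i % p) := by
    intro i hi
    have h : i / p ≤ i / p + i % p ∧ i / p + i % p ≤ l.length ∧ Gg D (vs D.ν) (pst R x l (i / p)) (vt x l (i / p)) ∧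
        Gg D (vb D.ν) (fut R x l (i / p + i % p)) (vt x l (i / p + i % p)) := by
      by_contra h
      apply hi
      rw [hu]
      unfold uu
      exact if_neg h
    exact ⟨h.2.1, h.2.2.1, h.2.2.2⟩
  -- the sums over the segments with given end
  have hgrp : ∀ N, ∀ b, b < l.length + 1 → ∑ i ∈ (Finset.range N).filter (fun i => i / p + i % p = b), Y i ≤ j b := by
    intro N b hb
    refine le_trans ?_ (hstep b (Nat.lt_succ_iff.mp hb))
    refine le_trans (le_of_eq ?_) (ria_grp p N b (fun a => β * uu D R x l a b * S a))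
    apply Finset.sum_congr rfl
    intro i hi
    have h1 := (Finset.mem_filter.mp hi).2
    rw [hY, hu]
    simp only [h1]
  have hsum : ∀ N (P : ℕ → Prop), ∑ i ∈ Finset.range N, (if P (i / p + i % p) then Y i else 0) ≤
      ∑ b ∈ Finset.range (l.length + 1), if P b then j b else 0 := by
    intro N P
    apply ria_sum (l.length + 1) N (fun i => i / p + i % p) Y j P _ (hgrp N)
    intro i _ _ h
    have h1 : u i ≠ 0 := by
      intro h2
      apply h
      rw [hY]
      simp only [h2, mul_zero, zero_mul]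
    exact Nat.lt_succ_of_le (huz i h1).1
  have hmain := lbl ((l.length + 1) * p) u Y (fun i' i => cm (i' / p + i' % p) (i / p)) β hβt
    (fun i _ => ne_top_of_le_ne_top hs.k1t (huK i)) ?_ ?_
  · -- the end
    have h1 : ∏ i ∈ Finset.range ((l.length + 1) * p), (1 + β * u i / 2) =
        ∏ a ∈ Finset.range (l.length + 1), ∏ b ∈ Finset.Icc a (a + rp D), (1 + β * uu D R x l a b / 2) := by
      rw [ria_prod]
      apply Finset.prod_congr rfl
      intro a _
      have h2 : Finset.Icc a (a + rp D) = Finset.Ico a (a + p) := by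
        ext i
        rw [Finset.mem_Icc, Finset.mem_Ico, hpd]
        omega
      rw [h2, Finset.prod_Ico_eq_prod_range, Nat.add_sub_cancel_left]
      apply Finset.prod_congr rfl
      intro e he
      have he' := Finset.mem_range.mp he
      have h3 : (a * p + e) / p = a := by
        rw [mul_comm, Nat.mul_add_div hp, Nat.div_eq_of_lt he', add_zero]
      have h4 : (a * p + e) % p = e := by
        rw [mul_comm, Nat.mul_add_mod, Nat.mod_eq_of_lt he']
      rw [hu]
      simp only [h3, h4]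
    rw [← h1]
    refine hmain.trans (add_le_add le_rfl ?_)
    have h2 := hsum ((l.length + 1) * p) (fun _ => True)
    simpa using h2
  · -- `hY`
    intro i _
    rw [hY]
    apply mul_le_mul' le_rfl
    rw [hS]
    apply add_le_add le_rfl
    refine le_trans (hsum i (fun b => cm b (i / p))) ?_
    -- only the `b < i / p` contribute
    rw [← Finset.sum_filter, ← Finset.sum_filter]
    apply Finset.sum_le_sum_of_subset
    intro b hb
    have h := (Finset.mem_filter.mp hb).2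
    exact Finset.mem_filter.mpr ⟨Finset.mem_range.mpr ((hcmd _ _).mp h).1, h⟩
  · -- `hC`
    intro i _ hi
    obtain ⟨h1, h2, -⟩ := huz i hi
    have h3 : i / p ≤ l.length := le_trans (Nat.le_add_right _ _) h1
    obtain ⟨q1, q2, -, -⟩ := hrf _ h2
    set Bs : Finset ℕ := (Finset.range (l.length + 1)).filter
      (fun b => BG b ∧ ¬ Nc D (vt x l b) (rb b) (vt x l (i / p)) (rf (i / p))) with hBs
    have hBsc : (Bs.card : ℝ≥0∞) ≤ B0 D :=
      ria_bad hs hw BG rb (fun b hb => ⟨(hrb b hb).1, (hrb b hb).2.1⟩) _ _ q1 q2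
    set s1 := (Finset.range i).filter (fun k => i / p ≤ k / p + k % p) with hs1
    set s2 := (Finset.range i).filter (fun k => k / p + k % p ∈ Bs) with hs2
    have h4 : ∑ k ∈ Finset.range i, (if cm (k / p + k % p) (i / p) then 0 else u k) ≤
        ∑ k ∈ s1 ∪ s2, K1 := by
      have h5 : ∑ k ∈ Finset.range i, (if cm (k / p + k % p) (i / p) then 0 else u k) =
          ∑ k ∈ (Finset.range i).filter (fun k => ¬ cm (k / p + k % p) (i / p) ∧ u k ≠ 0), u k := by
        rw [Finset.sum_filter]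
        apply Finset.sum_congr rfl
        intro k _
        by_cases hc : cm (k / p + k % p) (i / p)
        · rw [if_pos hc, if_neg (fun h => h.1 hc)]
        · rw [if_neg hc]
          by_cases hk : u k = 0
          · rw [if_neg (fun h => h.2 hk), hk]
          · rw [if_pos ⟨hc, hk⟩]
      rw [h5]
      refine le_trans (Finset.sum_le_sum (fun k _ => huK k)) ?_
      apply Finset.sum_le_sum_of_subset
      intro k hk
      obtain ⟨hk1, hk2, hk3⟩ := Finset.mem_filter.mp hk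
      obtain ⟨g1, -, g2⟩ := huz k hk3
      rw [Finset.mem_union]
      by_cases hlt : i / p ≤ k / p + k % p
      · left
        exact Finset.mem_filter.mpr ⟨hk1, hlt⟩
      · right
        refine Finset.mem_filter.mpr ⟨hk1, Finset.mem_filter.mpr ⟨Finset.mem_range.mpr (Nat.lt_succ_of_le g1), g2, ?_⟩⟩
        intro hn
        exact hk2 ((hcmd _ _).mpr ⟨not_le.mp hlt, h3, g2, h2, fun _ => hn⟩)
    have h6 : ((s1 ∪ s2).card : ℝ≥0∞) ≤ ((rp D : ℝ≥0∞) + 1) ^ 2 + B0 D * ((rp D : ℝ≥0∞) + 1) := by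
      have h7 : (s1 ∪ s2).card ≤ p * p + Bs.card * p :=
        (Finset.card_union_le _ _).trans (add_le_add (ria_card1 p i hp) (ria_card2 p i hp Bs))
      have h8 : ((s1 ∪ s2).card : ℝ≥0∞) ≤ ((p * p + Bs.card * p : ℕ) : ℝ≥0∞) := Nat.cast_le.mpr h7
      refine h8.trans ?_
      push_cast
      have h9 : (p : ℝ≥0∞) = (rp D : ℝ≥0∞) + 1 := by rw [hpd]; push_cast; rfl
      rw [h9, sq]
      exact add_le_add le_rfl (mul_le_mul' hBsc le_rfl)
    calc β * ∑ k ∈ Finset.range i, (if cm (k / p + k % p) (i / p) then 0 else u k)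
        ≤ β * ∑ k ∈ s1 ∪ s2, K1 := mul_le_mul' le_rfl h4
      _ = β * (((s1 ∪ s2).card : ℝ≥0∞) * K1) := by rw [Finset.sum_const, nsmul_eq_mul]
      _ ≤ β * ((((rp D : ℝ≥0∞) + 1) ^ 2 + B0 D * ((rp D : ℝ≥0∞) + 1)) * K1) :=
          mul_le_mul' le_rfl (mul_le_mul' h6 le_rfl)
      _ = β * (((rp D : ℝ≥0∞) + 1) ^ 2 + B0 D * ((rp D : ℝ≥0∞) + 1)) * K1 := by ring
      _ ≤ 2⁻¹ := hβ

theorem rib {D : Dat V} {ρ κ K K1 : ℝ≥0∞} {c0 : ℝ≥0} (hs : Sc D ρ κ K K1 c0) {R : ℕ} {θ β : ℝ≥0∞} (hθ0 : θ ≠ 0) (hθ : θ ≤ 1)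
    (hβ : β * (((rp D : ℝ≥0∞) + 1) ^ 2 + B0 D * ((rp D : ℝ≥0∞) + 1)) * K1 ≤ 2⁻¹) {x : V} {l : List V}
    (hw : Sw D.G x l) :
    ENNReal.ofReal (Real.exp ((β * DD D R x l).toReal / 4)) ≤
      1 + ∑ b ∈ Finset.range (l.length + 1), (D.z * θ)⁻¹ ^ b * jj D R θ β x (l.take b) := by
  refine le_trans ?_ (ria hs hθ0 hθ hβ hw)
  obtain ⟨hβt, hβ1⟩ := ria_beta hs hβ x
  have h1 := prod_exp ((Finset.range (l.length + 1)).sigma (fun a => Finset.Icc a (a + rp D)))
    (fun i : (_ : ℕ) × ℕ => β * uu D R x l i.1 i.2 / 2) (by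
      intro i _
      have h2 : β * uu D R x l i.1 i.2 / 2 ≤ β * uu D R x l i.1 i.2 := ENNReal.div_le_of_le_mul (by
        rw [mul_two]
        exact le_self_add)
      refine h2.trans ((mul_le_mul' le_rfl (uu_le hs.ug.zpos hs.ug.zle hs.k1 R x l _ _)).trans (hβ1.trans ?_))
      rw [ENNReal.inv_le_one]
      exact one_le_two)
  rw [Finset.prod_sigma, Finset.sum_sigma] at h1
  refine le_trans (le_of_eq ?_) h1
  congr 2
  have h3 : ∑ a ∈ Finset.range (l.length + 1), ∑ b ∈ Finset.Icc a (a + rp D), β * uu D R x l a b / 2 =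
      β * DD D R x l / 2 := by
    unfold DD UU
    simp_rw [ENNReal.div_eq_inv_mul, Finset.mul_sum]
  rw [h3, ENNReal.toReal_div]
  simp only [ENNReal.toReal_ofNat]
  ring

end Pool.Agent.SAWG
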