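import Pool.Agent.SAWG.RIA
import Pool.Agent.SAWG.FFB
import Pool.Agent.SAWG.KBT

/-!
# SAWG module RIC: rich walks have exponentially small norm

PROOF.  `χ`: `∑' n, al n θ^n ≤ χ < ⊤` (`gen_fin`).  Norms: `KB (kr (tw θ sa)) χ` (`KB_ms`, mass = `∑ al n θ^n`, `sum_len`), `KB (kr (sc β th)) (β κ)`, `KB (kr wm) Φ` (mass `≤` mass on `FF, 1 ≤ length ≤ R` plus `tail`),
so `KB (kr (cv jj (tw θ sa))) (χ β κ (∑_m (Φ β κ)^m) χ) ≤ 2 χ^2 β κ =: C1` (`kr_tsum`, `KB_tsum`, `KB_pwr`, `kr_cv`, `KB_cmp`; `Φ β κ ≤ 1/2`).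
For `l` in `Rich D R q N`, self-avoiding: `E := ofReal (exp (β q N/4)) ≤ ofReal (exp (β DD /4))` (`DD` is finite) `≤ 1 + ∑_{b ≤ N} (z θ)⁻¹^b jj x (l.take b)` (`rib`), and
`cv jj (tw θ sa) x l = ∑_{b ≤ N} jj x (l.take b) (θ z)^(N-b)` (`cv_pos`, `sa_sg`).  So `E * sa x l ≤ sa x l + θ⁻¹^N * cv jj (tw θ sa) x l`, hence for the kernels
`E * kr (rs Rich sa) ≤ kr (rs (LN N) sa) + θ⁻¹^N kr (cv jj (tw θ sa))`, norm `≤ al N + θ⁻¹^N C1 ≤ θ⁻¹^N (χ + C1)` (`KB_al`, `al N θ^N ≤ χ`).  Multiply by `E⁻¹` (`KB_smul`).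
-/

set_option autoImplicit false

open scoped ENNReal NNReal Classical
open Filter Topology

namespace Pool.Agent.SAWG

open Pool.Agent.SWH (Ker idK adK tp endp Sw endp_nil endp_cons endp_append endp_mem)

variable {V : Type}

private theorem ric_tw {D : Dat V} {ρ κ K K1 : ℝ≥0∞} {c0 : ℝ≥0} (hs : Sc D ρ κ K K1 c0) {θ χ : ℝ≥0∞}
    (hχ : ∀ x, ∑' n, al D.G D.z n x * θ ^ n ≤ χ) : KB (kr (tw θ (sa D.G D.z))) χ := by
  refine KB_ms hs.ug.uni (InvP_tw (InvP_sa D.G D.z) θ) (fun x => ?_)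
  have h := sum_len (G := D.G) D.z (fun n => θ ^ n) x
  have h2 : ms (tw θ (sa D.G D.z)) x = ∑' l, sa D.G D.z x l * θ ^ l.length := by
    unfold ms tw
    exact tsum_congr (fun l => mul_comm _ _)
  rw [h2, h]
  exact hχ x

private theorem ric_wm {D : Dat V} {ρ κ K K1 Φ : ℝ≥0∞} {c0 : ℝ≥0} (hs : Sc D ρ κ K K1 c0) {R : ℕ} {θ : ℝ≥0∞}
    (htail : ∀ x, tail D.G D.z θ R x ≤ 1)
    (hΦ : ∀ x, ms (rs (fun y p => FF D y p ∧ 1 ≤ p.length ∧ p.length ≤ R) (tw θ (sa D.G D.z))) x + 1 ≤ Φ) :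
    KB (kr (wm D R θ)) Φ := by
  refine KB_ms hs.ug.uni ?_ (fun x => ?_)
  · unfold wm
    refine InvP_rs (InvP_tw (InvP_sa D.G D.z) θ) (fun φ x l => ?_)
    rw [List.length_map, FF_map hs.cn.inv]
  · refine le_trans ?_ (hΦ x)
    have h1 : ms (wm D R θ) x ≤ ms (ad (rs (fun y p => FF D y p ∧ 1 ≤ p.length ∧ p.length ≤ R) (tw θ (sa D.G D.z)))
        (fun x l => sa D.G D.z x l * (if R < l.length then θ ^ l.length else 0))) x := by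
      refine ms_mono x (fun l => ?_)
      unfold wm rs ad tw
      by_cases hl : l.length ≤ R
      · by_cases hF : FF D x l
        · by_cases h1 : 1 ≤ l.length
          · simp [h1, hl, hF]
          · simp [h1]
        · simp [hl, hF]
      · have hl' : R < l.length := not_le.mp hl
        by_cases h1 : 1 ≤ l.length
        · simp only [h1, hl, hl', IsEmpty.forall_iff, and_self, if_true, and_false, if_false, zero_add]
          rw [mul_comm]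
        · exfalso; omega
    refine le_trans h1 ?_
    rw [ms_ad]
    refine add_le_add le_rfl ?_
    have h2 := sum_len (G := D.G) D.z (fun n => if R < n then θ ^ n else 0) x
    unfold ms
    rw [h2]
    refine le_trans (le_of_eq ?_) (htail x)
    unfold tail
    refine tsum_congr (fun n => ?_)
    by_cases hn : R < n <;> simp [hn]

private theorem ric_alg {z θ : ℝ≥0∞} (hz0 : z ≠ 0) (hzt : z ≠ ⊤) (hθ0 : θ ≠ 0) (hθt : θ ≠ ⊤) {N b : ℕ} (hb : b ≤ N) (j : ℝ≥0∞) :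
    z ^ N * ((z * θ)⁻¹ ^ b * j) = θ⁻¹ ^ N * (j * (θ ^ (N - b) * z ^ (N - b))) := by
  obtain ⟨k, rfl⟩ := Nat.exists_eq_add_of_le hb
  rw [Nat.add_sub_cancel_left, ENNReal.mul_inv (Or.inl hz0) (Or.inl hzt), mul_pow, pow_add, pow_add]
  have h1 : z ^ b * z⁻¹ ^ b = 1 := by
    rw [← mul_pow, ENNReal.mul_inv_cancel hz0 hzt, one_pow]
  have h2 : θ ^ k * θ⁻¹ ^ k = 1 := by
    rw [← mul_pow, ENNReal.mul_inv_cancel hθ0 hθt, one_pow]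
  calc z ^ b * z ^ k * (z⁻¹ ^ b * θ⁻¹ ^ b * j) = (z ^ b * z⁻¹ ^ b) * (z ^ k * θ⁻¹ ^ b * j) := by ring
    _ = (θ ^ k * θ⁻¹ ^ k) * (z ^ k * θ⁻¹ ^ b * j) := by rw [h1, h2]
    _ = θ⁻¹ ^ b * θ⁻¹ ^ k * (j * (θ ^ k * z ^ k)) := by ring

private theorem ric_pt {D : Dat V} {ρ κ K K1 : ℝ≥0∞} {c0 : ℝ≥0} (hs : Sc D ρ κ K K1 c0) {R : ℕ} {θ β q : ℝ≥0} (hθ0 : θ ≠ 0)
    (hθ : θ < 1) (hβ : (β : ℝ≥0∞) * (((rp D : ℝ≥0∞) + 1) ^ 2 + B0 D * ((rp D : ℝ≥0∞) + 1)) * K1 ≤ 2⁻¹) (N : ℕ) (x : V)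
    (l : List V) :
    sc (ENNReal.ofReal (Real.exp (β * q * N / 4))) (rs (Rich D R q N) (sa D.G D.z)) x l ≤
      ad (rs (LN N) (sa D.G D.z)) (sc ((θ : ℝ≥0∞)⁻¹ ^ N) (cv (jj D R θ β) (tw θ (sa D.G D.z)))) x l := by
  have hz0 := hs.ug.zpos
  have hzt : D.z ≠ ⊤ := ne_top_of_le_ne_top ENNReal.one_ne_top hs.ug.zle
  have hθ0' : (θ : ℝ≥0∞) ≠ 0 := by simpa using hθ0
  have hθ1 : (θ : ℝ≥0∞) ≤ 1 := by exact_mod_cast hθ.le
  unfold sc rs ad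
  by_cases hr : Rich D R q N x l
  swap
  · simp [hr]
  by_cases hw : Sw D.G x l
  swap
  · have : sa D.G D.z x l = 0 := by unfold sa; simp [hw]
    simp [this]
  have hlen : l.length = N := hr.1
  have hLN : LN N x l := hlen
  simp only [hr, hLN, if_true]
  have hsa : sa D.G D.z x l = D.z ^ N := by unfold sa; simp [hw, hlen]
  rw [hsa]
  -- DD is finite
  have hUU : ∀ a, UU D R x l a ≤ um D K1 := fun a => UU_le hz0 hs.ug.zle hs.k1 R x l a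
  have hum : um D K1 ≠ ⊤ := by
    unfold um
    exact ENNReal.mul_ne_top (by simp) hs.k1t
  have hDD : DD D R x l ≠ ⊤ := by
    unfold DD
    refine (ENNReal.sum_lt_top.mpr (fun a _ => lt_of_le_of_lt (hUU a) hum.lt_top)).ne
  have hE : ENNReal.ofReal (Real.exp (β * q * N / 4)) ≤ ENNReal.ofReal (Real.exp (((β : ℝ≥0∞) * DD D R x l).toReal / 4)) := by
    refine ENNReal.ofReal_le_ofReal (Real.exp_le_exp.mpr ?_)
    refine div_le_div_of_nonneg_right ?_ (by norm_num)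
    rw [ENNReal.toReal_mul, mul_assoc]
    refine mul_le_mul_of_nonneg_left ?_ (by simp)
    have h2 : (q : ℝ≥0∞) * N ≤ DD D R x l := hr.2
    have h3 := ENNReal.toReal_mono hDD h2
    simpa [ENNReal.toReal_mul] using h3
  have hrib := rib (R := R) hs hθ0' hθ1 hβ hw
  rw [hlen] at hrib
  refine le_trans (mul_le_mul' (hE.trans hrib) le_rfl) ?_
  rw [add_mul, one_mul]
  refine add_le_add le_rfl ?_
  rw [cv_pos, hlen, Finset.sum_mul, Finset.mul_sum]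
  refine Finset.sum_le_sum (fun b hb => ?_)
  have hbN : b ≤ N := Nat.lt_succ_iff.mp (Finset.mem_range.mp hb)
  have hsg := sa_sg (G := D.G) D.z hw (a := b) (b := N) hbN (by omega)
  have htw : tw (θ : ℝ≥0∞) (sa D.G D.z) (vt x l b) (sg l b N) = (θ : ℝ≥0∞) ^ (N - b) * D.z ^ (N - b) := by
    unfold tw
    rw [hsg, sg_length l hbN (by omega)]
  rw [htw, ← ric_alg hz0 hzt hθ0' ENNReal.coe_ne_top hbN]
  exact le_of_eq (mul_comm _ _)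

theorem ric {D : Dat V} {ρ κ K K1 Φ : ℝ≥0∞} {c0 : ℝ≥0} (hs : Sc D ρ κ K K1 c0) {R : ℕ} {θ β q : ℝ≥0} (hθ0 : θ ≠ 0)
    (hθ : θ < 1) (hβ : (β : ℝ≥0∞) * (((rp D : ℝ≥0∞) + 1) ^ 2 + B0 D * ((rp D : ℝ≥0∞) + 1)) * K1 ≤ 2⁻¹)
    (htail : ∀ x, tail D.G D.z θ R x ≤ 1)
    (hΦ : ∀ x, ms (rs (fun y p => FF D y p ∧ 1 ≤ p.length ∧ p.length ≤ R) (tw θ (sa D.G D.z))) x + 1 ≤ Φ)
    (hκ : 2 * (β * κ * Φ) ≤ 1) :
    ∃ C : ℝ≥0∞, C ≠ ⊤ ∧ ∀ N : ℕ, KB (kr (rs (Rich D R q N) (sa D.G D.z)))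
      (C * (θ : ℝ≥0∞)⁻¹ ^ N * ENNReal.ofReal (Real.exp (-(β * q * N / 4)))) := by
  have hθ' : (θ : ℝ≥0∞) < 1 := by exact_mod_cast hθ
  have hθ0' : (θ : ℝ≥0∞) ≠ 0 := by simpa using hθ0
  obtain ⟨χ, hχt, hχ⟩ := gen_fin hs.ug hθ'
  have n1 := ric_tw hs hχ
  have n2 : KB (kr (sc (β : ℝ≥0∞) (th D))) (β * κ) := by
    rw [kr_sc]
    exact KB_smul _ (th_KB hs.ug hs.cn)
  have n3 := ric_wm hs htail hΦ
  rcases isEmpty_or_nonempty V with hV | ⟨⟨x0⟩⟩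
  · refine ⟨0, by simp, fun N v => ?_⟩
    simp
  have hΦ1 : 1 ≤ Φ := le_trans (by simp) (hΦ x0)
  have hbk : 2 * (β * κ) ≤ 1 := by
    refine le_trans ?_ hκ
    calc 2 * (β * κ) = 2 * (β * κ * 1) := by rw [mul_one]
      _ ≤ 2 * (β * κ * Φ) := by gcongr
  have hjj : KB (kr (jj D R θ β)) χ := by
    have e : kr (jj D R θ β) = fun x y => ∑' m : ℕ, kr (cv (cv (tw θ (sa D.G D.z)) (sc β (th D)))
        (pwr (cv (wm D R θ) (sc β (th D))) m)) x y := by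
      rw [← kr_tsum]
      rfl
    rw [e]
    have hm : ∀ m : ℕ, KB (kr (cv (cv (tw θ (sa D.G D.z)) (sc β (th D))) (pwr (cv (wm D R θ) (sc β (th D))) m)))
        (χ * (β * κ) * (Φ * (β * κ)) ^ m) := by
      intro m
      rw [kr_cv]
      refine KB_cmp ?_ (KB_pwr ?_ m)
      · rw [kr_cv]; exact KB_cmp n1 n2
      · rw [kr_cv]; exact KB_cmp n3 n2
    refine KB_le ?_ (KB_tsum hm)
    rw [ENNReal.tsum_mul_left, ENNReal.tsum_geometric]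
    have h1 : Φ * (β * κ) ≤ 2⁻¹ := by
      rw [ENNReal.le_inv_iff_mul_le]
      calc Φ * (β * κ) * 2 = 2 * (β * κ * Φ) := by ring
        _ ≤ 1 := hκ
    have h2 : (1 - Φ * (β * κ))⁻¹ ≤ 2 := by
      rw [ENNReal.inv_le_iff_inv_le]
      calc (2 : ℝ≥0∞)⁻¹ = 1 - 2⁻¹ := by rw [ENNReal.one_sub_inv_two]
        _ ≤ 1 - Φ * (β * κ) := tsub_le_tsub_left h1 _
    calc χ * (β * κ) * (1 - Φ * (β * κ))⁻¹ ≤ χ * (β * κ) * 2 := by gcongr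
      _ = χ * (2 * (β * κ)) := by ring
      _ ≤ χ * 1 := by gcongr
      _ = χ := mul_one _
  refine ⟨χ + χ * χ, ENNReal.add_ne_top.mpr ⟨hχt, ENNReal.mul_ne_top hχt hχt⟩, fun N => ?_⟩
  set E : ℝ≥0∞ := ENNReal.ofReal (Real.exp (β * q * N / 4)) with hEdef
  have hE0 : E ≠ 0 := by
    rw [hEdef]
    simpa using Real.exp_pos _
  have hEt : E ≠ ⊤ := ENNReal.ofReal_ne_top
  have hEinv : E⁻¹ = ENNReal.ofReal (Real.exp (-(β * q * N / 4))) := by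
    rw [hEdef, ← ENNReal.ofReal_inv_of_pos (Real.exp_pos _), Real.exp_neg]
  have hal : ∀ x, al D.G D.z N x ≤ χ * (θ : ℝ≥0∞)⁻¹ ^ N := by
    intro x
    have h1 : al D.G D.z N x * (θ : ℝ≥0∞) ^ N ≤ χ := le_trans (ENNReal.le_tsum (f := fun n => al D.G D.z n x * (θ : ℝ≥0∞) ^ n) N) (hχ x)
    have h3 : (θ : ℝ≥0∞) ^ N * (θ : ℝ≥0∞)⁻¹ ^ N = 1 := by
      rw [← mul_pow, ENNReal.mul_inv_cancel hθ0' ENNReal.coe_ne_top, one_pow]
    calc al D.G D.z N x = al D.G D.z N x * ((θ : ℝ≥0∞) ^ N * (θ : ℝ≥0∞)⁻¹ ^ N) := by rw [h3, mul_one]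
      _ = (al D.G D.z N x * (θ : ℝ≥0∞) ^ N) * (θ : ℝ≥0∞)⁻¹ ^ N := by ring
      _ ≤ χ * (θ : ℝ≥0∞)⁻¹ ^ N := by gcongr
  have k1 : KB (kr (sc E (rs (Rich D R q N) (sa D.G D.z)))) ((χ + χ * χ) * (θ : ℝ≥0∞)⁻¹ ^ N) := by
    refine KB_mono (fun x y => kr_mono x y (fun l => ric_pt hs hθ0 hθ hβ N x l)) ?_
    rw [kr_ad, kr_sc]
    refine KB_le ?_ (KB_add (KB_al hs.ug N hal) (KB_smul _ (by rw [kr_cv]; exact KB_cmp hjj n1)))
    exact le_of_eq (by ring)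
  have k2 : kr (rs (Rich D R q N) (sa D.G D.z)) = fun x y => E⁻¹ * kr (sc E (rs (Rich D R q N) (sa D.G D.z))) x y := by
    funext x y
    rw [kr_sc]
    rw [← mul_assoc, ENNReal.inv_mul_cancel hE0 hEt, one_mul]
  rw [k2]
  refine KB_le ?_ (KB_smul E⁻¹ k1)
  rw [hEinv]
  exact le_of_eq (by ring)

end Pool.Agent.SAWG
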