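import Pool.Agent.SAWG.AS1
import Pool.Agent.SAWG.BAS
import Pool.Agent.SAWG.FFB
import Pool.Agent.SAWG.CUT

/-!
# SAWG module SBA: the recursion for the masses

PROOF.  `bas` gives `x0` with `Cx G z x0`.  For `n` large apply `as1` with `ε = 1/12`, `s = 3 log n` (`exp (-s) = n^-3`, `exp (ε s) = n^(1/4)`).  `B0 ≤ n^(1/4)`, so `2 (B0 + 1) ≤ c0 (n+1)` for large `n`: `cut`.
`ffb` with `R = n`, `θ = 1 - 1/n`, `δ = 1/(2n)`: `20 (n + 2J + r + 2)^2 n^-3 ≤ 20 (2n)^2 n^-3 ≤ 1`; `(1 + 1/(2n))(1 - 1/n) < 1`; `(1-1/n)^(r') ≥ 1 - r'/n ≥ 1/2` because `r' ≤ n^(1/4)`.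
So for `1 ≤ k ≤ n`: `ms (rs (FF ∧ length = k) sa) ≤ θ^(-k) ms (rs (FF ∧ 1 ≤ length ≤ n) (tw θ sa)) ≤ θ^(-n) * 2n * 4 d^(2J) K1 (r'+1) ≤ 4 * 8 n * n^(1/4) n^(3 x0 + 1/4) n^(1/4)` (`θ^(-n) ≤ 4` for `n ≥ 2`).
In `cut` at most `(n+1)^2` terms, each at most `(mass) * al i * al (n-j)` with `c0 (n+1) ≤ 2 (j-i)`, so `i + (n - j) = n - (j-i) ≤ (1 - c0/2) n`.  Choose the largest term.  `Y` an integer `≥ 3 + 3 x0 + 4`.
All `al` are finite (`al_top`) and `al` does not depend on the vertex.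
-/

set_option autoImplicit false

open scoped ENNReal NNReal Classical
open Filter Topology

namespace Pool.Agent.SAWG

open Pool.Agent.SWH (Ker idK adK tp endp Sw endp_nil endp_cons endp_append endp_mem)

variable {V : Type}

/-- The mass of the pieces of length `k` at one scale. -/
private theorem sba_ms {D : Dat V} {ρ κ K K1 : ℝ≥0∞} {c0 : ℝ≥0} (hs : Sc D ρ κ K K1 c0) {n : ℕ} (hn1 : 80 ≤ n)
    (hκ : κ ≤ ENNReal.ofReal (((n : ℝ) ^ 3)⁻¹)) {y1 : ℕ} (hK1 : K1 ≤ ENNReal.ofReal ((n : ℝ) ^ y1))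
    (hd : (D.d : ℝ≥0∞) ^ (2 * D.J) ≤ ENNReal.ofReal n) (hr : (D.r : ℝ) + 2 * D.J + 2 ≤ n) {k : ℕ} (hk1 : 1 ≤ k)
    (hkn : k ≤ n) (x : V) :
    ms (rs (fun y p => FF D y p ∧ p.length = k) (sa D.G D.z)) x ≤ ENNReal.ofReal (32 * (n : ℝ) ^ (y1 + 3)) := by
  have hnR : (80 : ℝ) ≤ n := by exact_mod_cast hn1
  have hn0 : (0 : ℝ) < n := by linarith
  set t : ℝ := 1 - 1 / (2 * n) with ht
  have ht0 : 0 ≤ t := by
    rw [ht]
    have : 1 / (2 * (n : ℝ)) ≤ 1 := by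
      rw [div_le_one (by positivity)]; linarith
    linarith
  have ht1 : t ≤ 1 := by
    rw [ht]
    have : 0 ≤ 1 / (2 * (n : ℝ)) := by positivity
    linarith
  have hpow : ∀ m : ℕ, m ≤ n → (1 : ℝ≥0∞) ≤ 2 * ENNReal.ofReal t ^ m := by
    intro m hm
    have h1 : (1 : ℝ) + (m : ℝ) * (-(1 / (2 * n))) ≤ (1 + (-(1 / (2 * (n : ℝ))))) ^ m := by
      refine one_add_mul_le_pow ?_ m
      have : 1 / (2 * (n : ℝ)) ≤ 1 := by
        rw [div_le_one (by positivity)]; linarith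
      linarith
    have h2 : (m : ℝ) * (1 / (2 * n)) ≤ 1 / 2 := by
      have hmn : (m : ℝ) ≤ n := by exact_mod_cast hm
      calc (m : ℝ) * (1 / (2 * n)) ≤ n * (1 / (2 * n)) := by gcongr
        _ = 1 / 2 := by field_simp
    have h3 : (1 : ℝ) / 2 ≤ t ^ m := by
      have : t = 1 + (-(1 / (2 * (n : ℝ)))) := by rw [ht]; ring
      rw [this]
      linarith
    rw [← ENNReal.ofReal_pow ht0]
    have h4 : (2 : ℝ≥0∞) = ENNReal.ofReal 2 := by norm_num
    rw [h4, ← ENNReal.ofReal_mul (by norm_num)]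
    rw [show (1 : ℝ≥0∞) = ENNReal.ofReal 1 by norm_num]
    exact ENNReal.ofReal_le_ofReal (by linarith)
  set δ : ℝ≥0∞ := ENNReal.ofReal (1 / (4 * n)) with hδ
  have hδ0 : δ ≠ 0 := by
    rw [hδ]
    exact (ENNReal.ofReal_pos.mpr (by positivity)).ne'
  have hδt : δ ≠ ⊤ := ENNReal.ofReal_ne_top
  have hθ : (1 + δ) * ENNReal.ofReal t < 1 := by
    have e1 : (1 : ℝ≥0∞) + δ = ENNReal.ofReal (1 + 1 / (4 * n)) := by
      rw [ENNReal.ofReal_add (by norm_num) (by positivity), ENNReal.ofReal_one]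
    rw [e1, ← ENNReal.ofReal_mul (by positivity), ENNReal.ofReal_lt_one, ht]
    have h5 : (1 + 1 / (4 * (n : ℝ))) * (1 - 1 / (2 * n)) = 1 - 1 / (4 * n) - 1 / (8 * n ^ 2) := by
      field_simp
      ring
    rw [h5]
    have h6 : 0 < 1 / (4 * (n : ℝ)) := by positivity
    have h7 : 0 < 1 / (8 * (n : ℝ) ^ 2) := by positivity
    linarith
  have hrpn : rp D + 1 ≤ n := by
    have : ((rp D + 1 : ℕ) : ℝ) ≤ n := by
      unfold rp
      push_cast
      linarith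
    exact_mod_cast this
  have hM : 20 * (((n : ℝ≥0∞) + 2 * D.J + D.r + 2) ^ 2 * κ) ≤ 1 := by
    have e1 : (n : ℝ≥0∞) + 2 * D.J + D.r + 2 ≤ ENNReal.ofReal (2 * n) := by
      have e2 : (n : ℝ≥0∞) + 2 * D.J + D.r + 2 = ENNReal.ofReal ((n + 2 * D.J + D.r + 2 : ℕ) : ℝ) := by
        rw [ENNReal.ofReal_natCast]
        push_cast
        rfl
      rw [e2]
      refine ENNReal.ofReal_le_ofReal ?_
      push_cast
      linarith
    calc 20 * (((n : ℝ≥0∞) + 2 * D.J + D.r + 2) ^ 2 * κ)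
        ≤ 20 * ((ENNReal.ofReal (2 * n)) ^ 2 * ENNReal.ofReal (((n : ℝ) ^ 3)⁻¹)) := by gcongr
      _ = ENNReal.ofReal (20 * ((2 * n) ^ 2 * ((n : ℝ) ^ 3)⁻¹)) := by
          have e20 : (20 : ℝ≥0∞) = ENNReal.ofReal 20 := by norm_num
          rw [← ENNReal.ofReal_pow (by positivity), ← ENNReal.ofReal_mul (by positivity), e20, ← ENNReal.ofReal_mul (by norm_num)]
      _ ≤ 1 := by
          rw [← ENNReal.ofReal_one]
          refine ENNReal.ofReal_le_ofReal ?_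
          have : 20 * ((2 * (n : ℝ)) ^ 2 * ((n : ℝ) ^ 3)⁻¹) = 80 / n := by
            field_simp
            ring
          rw [this, div_le_one hn0]
          exact hnR
  have hffb := ffb (R := n) hs hM hδ0 hδt hθ (hpow (rp D) (by omega)) x
  set B : ℝ≥0∞ := ms (rs (fun y p => FF D y p ∧ 1 ≤ p.length ∧ p.length ≤ n) (tw (ENNReal.ofReal t) (sa D.G D.z))) x with hB
  have h1 : ms (rs (fun y p => FF D y p ∧ p.length = k) (sa D.G D.z)) x ≤ 2 * B := by
    rw [hB, ← ms_sc]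
    refine ms_mono x (fun l => ?_)
    unfold sc rs tw
    by_cases hl : FF D x l ∧ l.length = k
    · have hl2 : FF D x l ∧ 1 ≤ l.length ∧ l.length ≤ n := ⟨hl.1, by omega, by omega⟩
      rw [if_pos hl, if_pos hl2, ← mul_assoc]
      calc sa D.G D.z x l = 1 * sa D.G D.z x l := (one_mul _).symm
        _ ≤ 2 * ENNReal.ofReal t ^ l.length * sa D.G D.z x l := by
            gcongr
            exact hpow _ hl2.2.2
    · rw [if_neg hl]
      exact bot_le
  have h2 : δ * B ≤ ENNReal.ofReal (4 * (n : ℝ) ^ (y1 + 2)) := by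
    refine le_trans hffb ?_
    have e3 : (rp D : ℝ≥0∞) + 1 ≤ ENNReal.ofReal n := by
      rw [ENNReal.ofReal_natCast]
      exact_mod_cast hrpn
    calc 4 * (D.d : ℝ≥0∞) ^ (2 * D.J) * K1 * ((rp D : ℝ≥0∞) + 1)
        ≤ 4 * ENNReal.ofReal n * ENNReal.ofReal ((n : ℝ) ^ y1) * ENNReal.ofReal n := by gcongr
      _ = ENNReal.ofReal (4 * n * (n : ℝ) ^ y1 * n) := by
          rw [ENNReal.ofReal_mul (by positivity), ENNReal.ofReal_mul (by positivity), ENNReal.ofReal_mul (by norm_num)]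
          norm_num
      _ = ENNReal.ofReal (4 * (n : ℝ) ^ (y1 + 2)) := by
          congr 1
          ring
  have h3 : B ≤ ENNReal.ofReal (16 * (n : ℝ) ^ (y1 + 3)) := by
    have e4 : ENNReal.ofReal (4 * n) * δ = 1 := by
      rw [hδ, ← ENNReal.ofReal_mul (by positivity)]
      have : 4 * (n : ℝ) * (1 / (4 * n)) = 1 := by field_simp
      rw [this, ENNReal.ofReal_one]
    calc B = ENNReal.ofReal (4 * n) * δ * B := by rw [e4, one_mul]
      _ = ENNReal.ofReal (4 * n) * (δ * B) := mul_assoc _ _ _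
      _ ≤ ENNReal.ofReal (4 * n) * ENNReal.ofReal (4 * (n : ℝ) ^ (y1 + 2)) := by gcongr
      _ = ENNReal.ofReal (16 * (n : ℝ) ^ (y1 + 3)) := by
          rw [← ENNReal.ofReal_mul (by positivity)]
          congr 1
          ring
  calc ms (rs (fun y p => FF D y p ∧ p.length = k) (sa D.G D.z)) x ≤ 2 * B := h1
    _ ≤ ENNReal.ofReal 2 * ENNReal.ofReal (16 * (n : ℝ) ^ (y1 + 3)) := by
        refine mul_le_mul' ?_ h3
        norm_num
    _ = ENNReal.ofReal (32 * (n : ℝ) ^ (y1 + 3)) := by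
        rw [← ENNReal.ofReal_mul (by norm_num)]
        congr 1
        ring

theorem sba {G : SimpleGraph V} {d : ℕ} {ρ z : ℝ≥0∞} (h : Ug G d ρ z) (x : V) : ∃ (C c : ℝ) (Y n0 : ℕ), 0 < c ∧ c < 1 ∧
    ∀ n : ℕ, n0 ≤ n → ∃ i k : ℕ, (i : ℝ) + k ≤ (1 - c) * n ∧
      (al G z n x).toReal ≤ C * (n : ℝ) ^ Y * ((al G z i x).toReal * (al G z k x).toReal) := by
  obtain ⟨x0, hx0, hx⟩ := bas h
  obtain ⟨s1, hs1⟩ := as1 h hx0 hx (ε := 1 / 12) (by norm_num)
  obtain ⟨ν', r', J', K', K1', hS', -⟩ := hs1 s1 le_rfl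
  have hc0 : (0 : ℝ) < (cz ρ : ℝ) := by
    have := hS'.c0p
    exact_mod_cast pos_iff_ne_zero.mpr this
  have hc1 : (cz ρ : ℝ) ≤ 1 / 2 := by
    have h1 := hS'.c0l
    have h2 : (1 - ρ) ^ 2 ≤ (1 : ℝ≥0∞) := by
      calc (1 - ρ) ^ 2 ≤ (1 : ℝ≥0∞) ^ 2 := by
            gcongr
            exact tsub_le_self
        _ = 1 := one_pow _
    have h3 : 2 * (cz ρ : ℝ≥0∞) ≤ 1 := le_trans h1 h2
    have h4 : 2 * (cz ρ : ℝ≥0) ≤ 1 := by exact_mod_cast h3
    have h5 : (2 : ℝ) * (cz ρ : ℝ) ≤ 1 := by exact_mod_cast h4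
    linarith
  set c0 : ℝ := (cz ρ : ℝ) with hc0def
  obtain ⟨y1, hy1⟩ := exists_nat_ge (3 * x0 + 1 / 4)
  refine ⟨129, c0 / 2, y1 + 5, 80 + ⌈Real.exp (s1 / 3)⌉₊ + ⌈(4 / c0) ^ 4⌉₊, by positivity, by linarith, ?_⟩
  intro n hn
  have hn80 : 80 ≤ n := by omega
  have hnR : (80 : ℝ) ≤ n := by exact_mod_cast hn80
  have hn0 : (0 : ℝ) < n := by linarith
  have hnexp : Real.exp (s1 / 3) ≤ n := by
    have h1 : (⌈Real.exp (s1 / 3)⌉₊ : ℝ) ≤ n := by exact_mod_cast (by omega : ⌈Real.exp (s1 / 3)⌉₊ ≤ n)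
    exact le_trans (Nat.le_ceil _) h1
  have hnc : (4 / c0) ^ 4 ≤ n := by
    have h1 : (⌈(4 / c0) ^ 4⌉₊ : ℝ) ≤ n := by exact_mod_cast (by omega : ⌈(4 / c0) ^ 4⌉₊ ≤ n)
    exact le_trans (Nat.le_ceil _) h1
  have hlog : s1 ≤ 3 * Real.log n := by
    have h1 : s1 / 3 ≤ Real.log n := by
      rw [Real.le_log_iff_exp_le hn0]; exact hnexp
    linarith
  have hlog0 : 0 ≤ Real.log n := Real.log_nonneg (by linarith)
  obtain ⟨ν, r, J, K, K1, hS, hK1, hd, hB0, hrJ⟩ := hs1 (3 * Real.log n) hlog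
  set u : ℝ := Real.exp (1 / 12 * (3 * Real.log n)) with hu
  have hu4 : u ^ 4 = n := by
    rw [hu, ← Real.exp_nat_mul]
    have : ((4 : ℕ) : ℝ) * (1 / 12 * (3 * Real.log n)) = Real.log n := by push_cast; ring
    rw [this, Real.exp_log hn0]
  have hu1 : 1 ≤ u := by
    rw [hu]
    exact Real.one_le_exp (by positivity)
  have hun : u ≤ n := by
    rw [← hu4]
    calc u = u ^ 1 := (pow_one u).symm
      _ ≤ u ^ 4 := pow_le_pow_right₀ hu1 (by norm_num)
  have huc : 4 / c0 ≤ u := by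
    by_contra hcon
    have h1 : u < 4 / c0 := not_le.mp hcon
    have h2 : u ^ 4 < (4 / c0) ^ 4 := pow_lt_pow_left₀ h1 (by linarith) (by norm_num)
    rw [hu4] at h2
    linarith
  have hκ : ENNReal.ofReal (Real.exp (-(3 * Real.log n))) ≤ ENNReal.ofReal (((n : ℝ) ^ 3)⁻¹) := by
    refine ENNReal.ofReal_le_ofReal (le_of_eq ?_)
    rw [Real.exp_neg]
    congr 1
    have : (3 : ℝ) * Real.log n = ((3 : ℕ) : ℝ) * Real.log n := by norm_num
    rw [this, Real.exp_nat_mul, Real.exp_log hn0]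
  have hK1' : K1 ≤ ENNReal.ofReal ((n : ℝ) ^ y1) := by
    refine le_trans hK1 (ENNReal.ofReal_le_ofReal ?_)
    have h1 : (x0 + 1 / 12) * (3 * Real.log n) ≤ (y1 : ℝ) * Real.log n := by
      have : (x0 + 1 / 12) * (3 * Real.log n) = (3 * x0 + 1 / 4) * Real.log n := by ring
      rw [this]
      exact mul_le_mul_of_nonneg_right hy1 hlog0
    calc Real.exp ((x0 + 1 / 12) * (3 * Real.log n)) ≤ Real.exp ((y1 : ℝ) * Real.log n) := Real.exp_le_exp.mpr h1
      _ = (n : ℝ) ^ y1 := by rw [Real.exp_nat_mul, Real.exp_log hn0]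
  have hd' : (d : ℝ≥0∞) ^ (2 * J) ≤ ENNReal.ofReal n := le_trans hd (ENNReal.ofReal_le_ofReal hun)
  have hr' : (r : ℝ) + 2 * J + 2 ≤ n := le_trans hrJ hun
  have hcut := cut (D := dt G d z ν r J) hS (n := n) (by
    have e1 : 2 * (B0 (dt G d z ν r J) + 1) ≤ ENNReal.ofReal (2 * (u + 1)) := by
      rw [ENNReal.ofReal_mul (by norm_num), ENNReal.ofReal_add (by linarith) (by norm_num), ENNReal.ofReal_one]
      have e2 : ENNReal.ofReal 2 = 2 := by norm_num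
      rw [e2]
      gcongr
    have e3 : ENNReal.ofReal (c0 * (n + 1)) = (cz ρ : ℝ≥0∞) * ((n : ℝ≥0∞) + 1) := by
      rw [ENNReal.ofReal_mul hc0.le, hc0def, ENNReal.ofReal_coe_nnreal, ENNReal.ofReal_add hn0.le (by norm_num),
        ENNReal.ofReal_natCast, ENNReal.ofReal_one]
    rw [← e3]
    refine le_trans e1 (ENNReal.ofReal_le_ofReal ?_)
    have h1 : 4 ≤ c0 * u := by
      rw [div_le_iff₀ hc0] at huc
      linarith
    have h2 : 4 * u ≤ c0 * u ^ 4 := by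
      have h3 : 1 ≤ u ^ 2 := one_le_pow₀ hu1
      calc 4 * u = 4 * u * 1 := (mul_one _).symm
        _ ≤ (c0 * u) * u * u ^ 2 := by gcongr
        _ = c0 * u ^ 4 := by ring
    rw [hu4] at h2
    nlinarith [h2, hu1, hc0]) x
  by_contra hcon
  push Not at hcon
  have han : 1 ≤ (al G z n x).toReal := by
    have h1 := ENNReal.toReal_mono (al_top h n x) (h.al1 n x)
    simpa using h1
  set a : ℕ → ℝ := fun m => (al G z m x).toReal with ha
  have haof : ∀ m, al G z m x = ENNReal.ofReal (a m) := fun m => (ENNReal.ofReal_toReal (al_top h m x)).symm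
  have ha0 : ∀ m, 0 ≤ a m := fun m => ENNReal.toReal_nonneg
  have hCn : (0 : ℝ) < 129 * (n : ℝ) ^ (y1 + 5) := by positivity
  set T : ℝ := a n / (129 * (n : ℝ) ^ (y1 + 5)) * (32 * (n : ℝ) ^ (y1 + 3)) with hT
  have hT0 : 0 ≤ T := by
    rw [hT]
    have := ha0 n
    positivity
  have hsum : al G z n x ≤ ∑ i ∈ Finset.range (n + 1), ∑ j ∈ Finset.range (n + 1), ENNReal.ofReal T := by
    refine le_trans hcut (Finset.sum_le_sum (fun i hi => Finset.sum_le_sum (fun j hj => ?_)))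
    have hin : i ≤ n := Nat.lt_succ_iff.mp (Finset.mem_range.mp hi)
    have hjn : j ≤ n := Nat.lt_succ_iff.mp (Finset.mem_range.mp hj)
    split_ifs with hc
    swap
    · exact bot_le
    obtain ⟨hij, hcij⟩ := hc
    have hreal : c0 * ((n : ℝ) + 1) ≤ 2 * ((j - i : ℕ) : ℝ) := by
      generalize (j - i : ℕ) = m at hcij ⊢
      have h1 : (cz ρ : ℝ≥0) * ((n : ℝ≥0) + 1) ≤ 2 * (m : ℝ≥0) := by exact_mod_cast hcij
      have h2 : (((cz ρ : ℝ≥0) * ((n : ℝ≥0) + 1) : ℝ≥0) : ℝ) ≤ ((2 * (m : ℝ≥0) : ℝ≥0) : ℝ) := by exact_mod_cast h1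
      push_cast at h2
      exact h2
    have hk1 : 1 ≤ j - i := by
      by_contra hcc
      have : j - i = 0 := by omega
      rw [this] at hreal
      simp at hreal
      nlinarith
    have hcast : ((j - i : ℕ) : ℝ) = (j : ℝ) - i := by
      rw [Nat.cast_sub hij]
    have hcast2 : ((n - j : ℕ) : ℝ) = (n : ℝ) - j := by
      rw [Nat.cast_sub hjn]
    have hik : (i : ℝ) + ((n - j : ℕ) : ℝ) ≤ (1 - c0 / 2) * n := by
      rw [hcast2]
      rw [hcast] at hreal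
      nlinarith
    have hlt := hcon i (n - j) hik
    have hm := sba_ms (D := dt G d z ν r J) hS hn80 hκ hK1' hd' hr' hk1 (by omega : j - i ≤ n) x
    calc al G z i x * ms (rs (fun y p => FF (dt G d z ν r J) y p ∧ p.length = j - i) (sa G z)) x * al G z (n - j) x
        ≤ ENNReal.ofReal (a i) * ENNReal.ofReal (32 * (n : ℝ) ^ (y1 + 3)) * ENNReal.ofReal (a (n - j)) := by
          rw [haof i, haof (n - j)]
          exact mul_le_mul' (mul_le_mul' le_rfl hm) le_rfl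
      _ = ENNReal.ofReal (a i * (32 * (n : ℝ) ^ (y1 + 3)) * a (n - j)) := by
          rw [ENNReal.ofReal_mul (mul_nonneg (ha0 i) (by positivity)), ENNReal.ofReal_mul (ha0 i)]
      _ ≤ ENNReal.ofReal T := by
          refine ENNReal.ofReal_le_ofReal ?_
          have h5 : a i * a (n - j) ≤ a n / (129 * (n : ℝ) ^ (y1 + 5)) := by
            rw [le_div_iff₀ hCn]
            have : a i * a (n - j) * (129 * (n : ℝ) ^ (y1 + 5)) = 129 * (n : ℝ) ^ (y1 + 5) * (a i * a (n - j)) := by ring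
            rw [this]
            exact hlt.le
          calc a i * (32 * (n : ℝ) ^ (y1 + 3)) * a (n - j) = (a i * a (n - j)) * (32 * (n : ℝ) ^ (y1 + 3)) := by ring
            _ ≤ T := by
                rw [hT]
                gcongr
  rw [Finset.sum_const, Finset.sum_const, Finset.card_range, nsmul_eq_mul, nsmul_eq_mul] at hsum
  have hfin : a n ≤ ((n : ℝ) + 1) * (((n : ℝ) + 1) * T) := by
    have h6 : (((n + 1 : ℕ) : ℝ≥0∞) * (((n + 1 : ℕ) : ℝ≥0∞) * ENNReal.ofReal T)) = ENNReal.ofReal (((n : ℝ) + 1) * (((n : ℝ) + 1) * T)) := by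
      have : ((n + 1 : ℕ) : ℝ≥0∞) = ENNReal.ofReal ((n : ℝ) + 1) := by
        rw [← ENNReal.ofReal_natCast]
        push_cast
        rfl
      rw [this, ← ENNReal.ofReal_mul (by positivity), ← ENNReal.ofReal_mul (by positivity)]
    rw [h6, haof n] at hsum
    exact (ENNReal.ofReal_le_ofReal_iff (by positivity)).mp hsum
  have h7 : ((n : ℝ) + 1) * (((n : ℝ) + 1) * T) ≤ a n * (128 / 129) := by
    have h8 : ((n : ℝ) + 1) * ((n : ℝ) + 1) ≤ 4 * n ^ 2 := by nlinarith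
    have h9 : T = a n * (32 / 129) * ((n : ℝ) ^ 2)⁻¹ := by
      rw [hT]
      have hne : (n : ℝ) ≠ 0 := hn0.ne'
      field_simp
      ring
    calc ((n : ℝ) + 1) * (((n : ℝ) + 1) * T) = (((n : ℝ) + 1) * ((n : ℝ) + 1)) * T := by ring
      _ ≤ (4 * n ^ 2) * T := by gcongr
      _ = a n * (128 / 129) := by
          rw [h9]
          have hne : (n : ℝ) ≠ 0 := hn0.ne'
          field_simp
          ring
  have h10 : 1 ≤ a n := han
  nlinarith

end Pool.Agent.SAWG
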