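import Pool.Agent.SAWG.KBA

/-!
# SAWG module SMG: sums over sequences of steps

PROOFS.  All by induction on `n` (`i`), generalising `z` and `F`; `ENNReal.tsum_add`, `ENNReal.tsum_mul_left`, `ENNReal.tsum_le_tsum`.
`SM_snoc` is `SM_append` with `j = 1`.  `SM_ker`: `K0 = idK`, `K(j+1) = kc K Kj` with `K z y = ∑' a, if e z a = y then w z a else 0`:
`SM (j+1) z f = ∑_a w z a * (∑_y Kj (e z a) y * f y) = ∑_x K z x * ∑_y Kj x y * f y`.
-/

set_option autoImplicit false

open scoped ENNReal NNReal Classical
open Filter Topology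

namespace Pool.Agent.SAWG

open Pool.Agent.SWH (Ker idK adK tp endp Sw endp_nil endp_cons endp_append endp_mem)

variable {V : Type}

theorem SM_mono {X : Type} (w : V → X → ℝ≥0∞) (e : V → X → V) (n : ℕ) (z : V) {F F' : List X → ℝ≥0∞}
    (h : ∀ cs, cs.length = n → F cs ≤ F' cs) : SM w e n z F ≤ SM w e n z F' := by
  induction n generalizing z F F' with
  | zero => exact h [] rfl
  | succ n ih =>
    refine ENNReal.tsum_le_tsum fun c => ?_
    refine mul_le_mul' le_rfl (ih (e z c) ?_)
    intro cs hcs
    exact h (c :: cs) (by simp [hcs])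

/-- Only sequences with nonzero weights matter. -/
theorem SM_mono' {X : Type} (w : V → X → ℝ≥0∞) (e : V → X → V) (n : ℕ) (z : V) {F F' : List X → ℝ≥0∞}
    (h : ∀ cs, cs.length = n → (∀ cs1 c cs2, cs = cs1 ++ c :: cs2 → w (EN e z cs1) c ≠ 0) → F cs ≤ F' cs) :
    SM w e n z F ≤ SM w e n z F' := by
  induction n generalizing z F F' with
  | zero =>
    refine h [] rfl ?_
    intro cs1 c cs2 h1
    simp at h1
  | succ n ih =>
    refine ENNReal.tsum_le_tsum fun c => ?_
    by_cases hw : w z c = 0
    · rw [hw, zero_mul, zero_mul]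
    · refine mul_le_mul' le_rfl (ih (e z c) ?_)
      intro cs hcs h2
      refine h (c :: cs) (by simp [hcs]) ?_
      intro cs1 c' cs2 h3
      cases cs1 with
      | nil =>
        rw [List.nil_append, List.cons.injEq] at h3
        rw [← h3.1]
        exact hw
      | cons a cs1 =>
        rw [List.cons_append, List.cons.injEq] at h3
        rw [← h3.1]
        exact h2 cs1 c' cs2 h3.2

theorem SM_add {X : Type} (w : V → X → ℝ≥0∞) (e : V → X → V) (n : ℕ) (z : V) (F F' : List X → ℝ≥0∞) :
    SM w e n z (fun cs => F cs + F' cs) = SM w e n z F + SM w e n z F' := by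
  induction n generalizing z F F' with
  | zero => rfl
  | succ n ih =>
    show ∑' c, w z c * SM w e n (e z c) (fun cs => F (c :: cs) + F' (c :: cs)) =
      ∑' c, w z c * SM w e n (e z c) (fun cs => F (c :: cs)) + ∑' c, w z c * SM w e n (e z c) (fun cs => F' (c :: cs))
    rw [← ENNReal.tsum_add]
    refine tsum_congr fun c => ?_
    rw [ih (e z c) (fun cs => F (c :: cs)) (fun cs => F' (c :: cs)), mul_add]

theorem SM_mul {X : Type} (w : V → X → ℝ≥0∞) (e : V → X → V) (n : ℕ) (z : V) (c : ℝ≥0∞) (F : List X → ℝ≥0∞) :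
    SM w e n z (fun cs => c * F cs) = c * SM w e n z F := by
  induction n generalizing z F with
  | zero => rfl
  | succ n ih =>
    show ∑' a, w z a * SM w e n (e z a) (fun cs => c * F (a :: cs)) =
      c * ∑' a, w z a * SM w e n (e z a) (fun cs => F (a :: cs))
    rw [← ENNReal.tsum_mul_left]
    refine tsum_congr fun a => ?_
    rw [ih (e z a) (fun cs => F (a :: cs)), mul_left_comm]

theorem SM_sum {X ι : Type} (w : V → X → ℝ≥0∞) (e : V → X → V) (n : ℕ) (z : V) (s : Finset ι) (F : ι → List X → ℝ≥0∞) :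
    SM w e n z (fun cs => ∑ i ∈ s, F i cs) = ∑ i ∈ s, SM w e n z (F i) := by
  induction s using Finset.induction_on with
  | empty =>
    have h1 := SM_mul w e n z 0 (fun _ => 0)
    simp only [mul_zero, zero_mul] at h1
    simp only [Finset.sum_empty]
    exact h1
  | insert i s hi ih =>
    rw [Finset.sum_insert hi, ← ih, ← SM_add]
    refine congrArg _ (funext fun cs => ?_)
    rw [Finset.sum_insert hi]

theorem EN_append {X : Type} (e : V → X → V) (z : V) (cs1 cs2 : List X) :
    EN e z (cs1 ++ cs2) = EN e (EN e z cs1) cs2 := by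
  induction cs1 generalizing z with
  | nil => rfl
  | cons a cs1 ih => exact ih (e z a)

theorem SM_append {X : Type} (w : V → X → ℝ≥0∞) (e : V → X → V) (i j : ℕ) (z : V) (F : List X → ℝ≥0∞) :
    SM w e (i + j) z F = SM w e i z (fun cs1 => SM w e j (EN e z cs1) (fun cs2 => F (cs1 ++ cs2))) := by
  induction i generalizing z F with
  | zero =>
    rw [Nat.zero_add]
    rfl
  | succ i ih =>
    rw [Nat.add_right_comm]
    show ∑' c, w z c * SM w e (i + j) (e z c) (fun cs => F (c :: cs)) =
      ∑' c, w z c * SM w e i (e z c) (fun cs1 => SM w e j (EN e (e z c) cs1) (fun cs2 => F (c :: (cs1 ++ cs2))))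
    refine tsum_congr fun c => ?_
    rw [ih (e z c) (fun cs => F (c :: cs))]

theorem SM_snoc {X : Type} (w : V → X → ℝ≥0∞) (e : V → X → V) (n : ℕ) (z : V) (F : List X → ℝ≥0∞) :
    SM w e (n + 1) z F = SM w e n z (fun cs => ∑' c, w (EN e z cs) c * F (cs ++ [c])) := by
  rw [SM_append w e n 1 z F]
  rfl

theorem SM_ker {X : Type} (w : V → X → ℝ≥0∞) (e : V → X → V) {c : ℝ≥0∞}
    (hK : KB (fun z y => ∑' a, if e z a = y then w z a else 0) c) (j : ℕ) :
    ∃ Kj : Ker V, KB Kj (c ^ j) ∧ ∀ (z : V) (f : V → ℝ≥0∞),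
      SM w e j z (fun cs => f (EN e z cs)) = ∑' y, Kj z y * f y := by
  induction j with
  | zero =>
    refine ⟨idK, ?_, ?_⟩
    · rw [pow_zero]
      exact KB_id
    · intro z f
      show f z = _
      rw [tsum_eq_single z]
      · unfold idK
        rw [if_pos rfl, one_mul]
      · intro y hy
        unfold idK
        rw [if_neg (Ne.symm hy), zero_mul]
  | succ j ih =>
    obtain ⟨Kj, hKj, h1⟩ := ih
    refine ⟨kc (fun z y => ∑' a, if e z a = y then w z a else 0) Kj, ?_, ?_⟩
    · rw [pow_succ']
      exact KB_cmp hK hKj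
    · intro z f
      show ∑' a, w z a * SM w e j (e z a) (fun cs => f (EN e (e z a) cs)) = _
      have h2 : ∀ y, kc (fun z y => ∑' a, if e z a = y then w z a else 0) Kj z y * f y =
          ∑' x, (∑' a, if e z a = x then w z a else 0) * (Kj x y * f y) := by
        intro y
        unfold kc
        rw [← ENNReal.tsum_mul_right]
        refine tsum_congr fun x => ?_
        rw [mul_assoc]
      rw [tsum_congr h2, ENNReal.tsum_comm]
      have h3 : ∀ x, ∑' y, (∑' a, if e z a = x then w z a else 0) * (Kj x y * f y) =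
          ∑' a, if e z a = x then w z a * ∑' y, Kj x y * f y else 0 := by
        intro x
        rw [ENNReal.tsum_mul_left, ← ENNReal.tsum_mul_right]
        refine tsum_congr fun a => ?_
        rw [ite_mul, zero_mul]
      rw [tsum_congr h3, ENNReal.tsum_comm]
      refine tsum_congr fun a => ?_
      rw [h1]
      symm
      rw [tsum_eq_single (e z a)]
      · rw [if_pos rfl]
      · intro x hx
        rw [if_neg (Ne.symm hx)]

end Pool.Agent.SAWG
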