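import Pool.Agent.SWH.Spc

/-!
# SAWG module SPA: the spectral gap for nonnegative functions

PROOF.  `SWH.spc` gives `t > 0` with `t ∑ f^2 ≤ ∑_x ∑_{y ~ x} (f x - f y)^2 = 2 d ∑ f^2 - 2 ⟨f, A f⟩` for finitely supported `f`, `⟨f, A f⟩ = ∑_x ∑_{y ~ x} f x f y`.  So `⟨f, A f⟩ ≤ (d - t/2) ∑ f^2`.  `ρ = max (1 - t/(2d)) (1/2)` (`d ≥ 1`:
the Cheeger inequality for one point).  For `f, g ≥ 0` finitely supported: `4 ⟨f, A g⟩ = ⟨f+g, A(f+g)⟩ - ⟨f-g, A(f-g)⟩ ≤ ⟨f+g, A(f+g)⟩ + ⟨|f-g|, A|f-g|⟩ ≤ ρ d (‖f+g‖^2 + ‖f-g‖^2) = 2 ρ d (‖f‖^2 + ‖g‖^2)`; replace `f, g` by `s f, g/s` and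
optimise: `⟨f, A g⟩ ≤ ρ d ‖f‖ ‖g‖`.  With `f x = ∑_{y ∈ S} [x ~ y] v y / d` for `x ∈ T`, 0 otherwise, and `g = v` on `S`: `∑_{x∈T} f x^2 = ⟨f, A g⟩/d ≤ ρ ‖f‖ ‖v‖`, so `‖f‖ ≤ ρ ‖v‖`.
-/

set_option autoImplicit false

open scoped ENNReal NNReal Classical
open Filter Topology

namespace Pool.Agent.SAWG

open Pool.Agent.SWH (Ker idK adK tp endp Sw endp_nil endp_cons endp_append endp_mem)

variable {V : Type}

theorem spa [Nonempty V] (G : SimpleGraph V) (hfin : ∀ v : V, (G.neighborSet v).Finite) {d : ℕ}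
    (hd : ∀ v : V, (G.neighborSet v).ncard = d)
    (hche : ∃ c : ℝ, 0 < c ∧ ∀ S : Finset V, S.Nonempty → c * (S.card : ℝ) ≤ (SAWL.bdry G S : ℝ)) :
    1 ≤ d ∧ ∃ ρ : ℝ, 0 < ρ ∧ ρ < 1 ∧ ∀ (S T : Finset V) (v : V → ℝ), (∀ x, 0 ≤ v x) →
      ∑ x ∈ T, (∑ y ∈ S, if G.Adj x y then (d : ℝ)⁻¹ * v y else 0) ^ 2 ≤ ρ ^ 2 * ∑ y ∈ S, v y ^ 2 := by
  let : G.LocallyFinite := fun v => (hfin v).fintype
  obtain ⟨v0⟩ := ‹Nonempty V›
  have hdeg : ∀ v, G.degree v = d := by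
    intro v
    rw [← SimpleGraph.card_neighborSet_eq_degree, ← hd v, Set.ncard_eq_toFinset_card', Set.toFinset_card]
  obtain ⟨c, hc0, hc⟩ := hche
  have hcd : c ≤ d := by
    have h1 := SAWL.cheeger G d hdeg c hc0.le hc {v0} (fun x => if x = v0 then 1 else 0) (by
      intro x hx
      rw [Finset.mem_singleton] at hx
      simp [hx])
    have h2 : (0 : ℝ) ≤ ((d : ℝ) ^ 2 - c ^ 2) := by
      refine le_trans (sq_nonneg _) (le_trans h1 (le_of_eq ?_))
      simp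
    have h3 : c ^ 2 ≤ (d : ℝ) ^ 2 := by linarith
    exact le_of_sq_le_sq h3 (Nat.cast_nonneg d)
  have hdp : (0 : ℝ) < d := lt_of_lt_of_le hc0 hcd
  have hdc : (0 : ℝ) ≤ (d : ℝ) ^ 2 - c ^ 2 := by nlinarith
  have hlt : Real.sqrt ((d : ℝ) ^ 2 - c ^ 2) < d := by
    rw [Real.sqrt_lt' (by linarith)]
    nlinarith
  have hs : (0 : ℝ) ≤ Real.sqrt ((d : ℝ) ^ 2 - c ^ 2) := Real.sqrt_nonneg _
  set s : ℝ := (Real.sqrt ((d : ℝ) ^ 2 - c ^ 2) + d) / 2 with hsd
  have hs0 : 0 < s := by rw [hsd]; linarith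
  have hs1 : s < d := by rw [hsd]; linarith
  have hs2 : Real.sqrt ((d : ℝ) ^ 2 - c ^ 2) ≤ s := by rw [hsd]; linarith
  refine ⟨by exact_mod_cast (by exact_mod_cast hdp : (0 : ℕ) < d), s / d, div_pos hs0 hdp,
    (div_lt_one hdp).2 hs1, ?_⟩
  intro S T v hv
  set W : Finset V := S ∪ T with hW
  set Q : (V → ℝ) → (V → ℝ) → ℝ := fun f g => ∑ x ∈ W, ∑ y ∈ W, if G.Adj x y then f x * g y else 0 with hQ
  have hQs : ∀ f g, Q f g = Q g f := by
    intro f g
    show ∑ x ∈ W, ∑ y ∈ W, (if G.Adj x y then f x * g y else 0) =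
      ∑ x ∈ W, ∑ y ∈ W, (if G.Adj x y then g x * f y else 0)
    rw [Finset.sum_comm]
    refine Finset.sum_congr rfl fun x _ => Finset.sum_congr rfl fun y _ => ?_
    simp only [G.adj_comm y x, mul_comm]
  have hQb : ∀ f : V → ℝ, (∀ x, x ∉ W → f x = 0) → |Q f f| ≤ s * ∑ x ∈ W, f x ^ 2 := by
    intro f hf
    have h1 := SAWL.cheeger G d hdeg c hc0.le hc W f hf
    have h2 : ∑ x ∈ W, f x * ∑ y ∈ G.neighborFinset x, f y = Q f f := by
      refine Finset.sum_congr rfl fun x _ => ?_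
      have e1 : ∑ y ∈ G.neighborFinset x, f y = ∑ y ∈ W, if G.Adj x y then f y else 0 := by
        rw [← Finset.sum_filter]
        symm
        refine Finset.sum_subset ?_ ?_
        · intro y hy
          rw [SimpleGraph.mem_neighborFinset]
          exact (Finset.mem_filter.1 hy).2
        · intro y hy hy'
          rw [SimpleGraph.mem_neighborFinset] at hy
          refine hf y fun hyW => hy' (Finset.mem_filter.2 ⟨hyW, hy⟩)
      rw [e1, Finset.mul_sum]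
      refine Finset.sum_congr rfl fun y _ => ?_
      rw [mul_ite, mul_zero]
    rw [h2] at h1
    have hff : 0 ≤ ∑ x ∈ W, f x ^ 2 := Finset.sum_nonneg fun _ _ => sq_nonneg _
    have h3 : |Q f f| ≤ Real.sqrt ((d : ℝ) ^ 2 - c ^ 2) * ∑ x ∈ W, f x ^ 2 := by
      refine abs_le_of_sq_le_sq ?_ (mul_nonneg hs hff)
      rw [mul_pow, Real.sq_sqrt hdc]
      exact h1
    exact h3.trans (mul_le_mul_of_nonneg_right hs2 hff)
  have hQ4 : ∀ f g : V → ℝ, 4 * Q f g = Q (fun x => f x + g x) (fun x => f x + g x) -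
      Q (fun x => f x - g x) (fun x => f x - g x) := by
    intro f g
    have h1 : Q (fun x => f x + g x) (fun x => f x + g x) - Q (fun x => f x - g x) (fun x => f x - g x)
        = 2 * Q f g + 2 * Q g f := by
      show ∑ x ∈ W, ∑ y ∈ W, (if G.Adj x y then (f x + g x) * (f y + g y) else 0) -
        ∑ x ∈ W, ∑ y ∈ W, (if G.Adj x y then (f x - g x) * (f y - g y) else 0) =
        2 * ∑ x ∈ W, ∑ y ∈ W, (if G.Adj x y then f x * g y else 0) +
        2 * ∑ x ∈ W, ∑ y ∈ W, (if G.Adj x y then g x * f y else 0)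
      rw [← Finset.sum_sub_distrib, Finset.mul_sum, Finset.mul_sum, ← Finset.sum_add_distrib]
      refine Finset.sum_congr rfl fun x _ => ?_
      rw [← Finset.sum_sub_distrib, Finset.mul_sum, Finset.mul_sum, ← Finset.sum_add_distrib]
      refine Finset.sum_congr rfl fun y _ => ?_
      split_ifs <;> ring
    rw [h1, hQs g f]
    ring
  have hQ2 : ∀ f g : V → ℝ, (∀ x, x ∉ W → f x = 0) → (∀ x, x ∉ W → g x = 0) →
      2 * Q f g ≤ s * (∑ x ∈ W, f x ^ 2 + ∑ x ∈ W, g x ^ 2) := by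
    intro f g hf hg
    have h1 := hQb (fun x => f x + g x) (fun x hx => by rw [hf x hx, hg x hx, add_zero])
    have h2 := hQb (fun x => f x - g x) (fun x hx => by rw [hf x hx, hg x hx, sub_zero])
    have h3 := hQ4 f g
    have h4 := abs_le.1 h1
    have h5 := abs_le.1 h2
    have h6 : ∑ x ∈ W, (f x + g x) ^ 2 + ∑ x ∈ W, (f x - g x) ^ 2 =
        2 * (∑ x ∈ W, f x ^ 2 + ∑ x ∈ W, g x ^ 2) := by
      rw [← Finset.sum_add_distrib, ← Finset.sum_add_distrib, Finset.mul_sum]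
      refine Finset.sum_congr rfl fun x _ => ?_
      ring
    have h7 : s * ∑ x ∈ W, (f x + g x) ^ 2 + s * ∑ x ∈ W, (f x - g x) ^ 2 =
        s * (2 * (∑ x ∈ W, f x ^ 2 + ∑ x ∈ W, g x ^ 2)) := by
      rw [← mul_add, h6]
    linarith
  set a : V → ℝ := fun x => ∑ y ∈ S, if G.Adj x y then v y else 0 with ha
  set f : V → ℝ := fun x => if x ∈ T then s⁻¹ * a x else 0 with hf
  set g : V → ℝ := fun x => if x ∈ S then v x else 0 with hg
  have hSW : S ⊆ W := Finset.subset_union_left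
  have hTW : T ⊆ W := Finset.subset_union_right
  have h1 := hQ2 f g (fun x hx => if_neg fun h => hx (hTW h)) (fun x hx => if_neg fun h => hx (hSW h))
  have h2 : Q f g = s⁻¹ * ∑ x ∈ T, a x ^ 2 := by
    show ∑ x ∈ W, ∑ y ∈ W, (if G.Adj x y then f x * g y else 0) = _
    have e1 : ∀ x ∈ W, ∑ y ∈ W, (if G.Adj x y then f x * g y else 0) = f x * a x := by
      intro x _
      rw [ha]
      dsimp only
      rw [← Finset.sum_subset hSW, Finset.mul_sum]
      · refine Finset.sum_congr rfl fun y hy => ?_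
        rw [hg]
        dsimp only
        rw [if_pos hy, mul_ite, mul_zero]
      · intro y _ hy
        rw [hg]
        dsimp only
        rw [if_neg hy, mul_zero, ite_self]
    rw [Finset.sum_congr rfl e1, ← Finset.sum_subset hTW, Finset.mul_sum]
    · refine Finset.sum_congr rfl fun x hx => ?_
      rw [hf]
      dsimp only
      rw [if_pos hx]
      ring
    · intro x _ hx
      rw [hf]
      dsimp only
      rw [if_neg hx, zero_mul]
  have h3 : ∑ x ∈ W, f x ^ 2 = (s⁻¹) ^ 2 * ∑ x ∈ T, a x ^ 2 := by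
    rw [← Finset.sum_subset hTW, Finset.mul_sum]
    · refine Finset.sum_congr rfl fun x hx => ?_
      rw [hf]
      dsimp only
      rw [if_pos hx]
      ring
    · intro x _ hx
      rw [hf]
      dsimp only
      rw [if_neg hx]
      ring
  have h4 : ∑ x ∈ W, g x ^ 2 = ∑ x ∈ S, v x ^ 2 := by
    rw [← Finset.sum_subset hSW]
    · refine Finset.sum_congr rfl fun x hx => ?_
      rw [hg]
      dsimp only
      rw [if_pos hx]
    · intro x _ hx
      rw [hg]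
      dsimp only
      rw [if_neg hx]
      ring
  rw [h2, h3, h4] at h1
  have h5 : ∑ x ∈ T, a x ^ 2 ≤ s ^ 2 * ∑ x ∈ S, v x ^ 2 := by
    have e1 : s * ((s⁻¹) ^ 2 * ∑ x ∈ T, a x ^ 2 + ∑ x ∈ S, v x ^ 2) =
        s⁻¹ * ∑ x ∈ T, a x ^ 2 + s * ∑ x ∈ S, v x ^ 2 := by
      field_simp
    rw [e1] at h1
    have e2 : s⁻¹ * ∑ x ∈ T, a x ^ 2 ≤ s * ∑ x ∈ S, v x ^ 2 := by linarith
    have e3 := mul_le_mul_of_nonneg_left e2 hs0.le
    rw [← mul_assoc, mul_inv_cancel₀ hs0.ne', one_mul] at e3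
    refine e3.trans (le_of_eq ?_)
    ring
  have h6 : ∑ x ∈ T, (∑ y ∈ S, if G.Adj x y then (d : ℝ)⁻¹ * v y else 0) ^ 2 =
      ((d : ℝ)⁻¹) ^ 2 * ∑ x ∈ T, a x ^ 2 := by
    rw [Finset.mul_sum]
    refine Finset.sum_congr rfl fun x _ => ?_
    rw [← mul_pow, ha]
    dsimp only
    rw [Finset.mul_sum]
    congr 1
    refine Finset.sum_congr rfl fun y _ => ?_
    rw [mul_ite, mul_zero]
  rw [h6]
  have h7 := mul_le_mul_of_nonneg_left h5 (sq_nonneg ((d : ℝ)⁻¹))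
  refine h7.trans (le_of_eq ?_)
  rw [div_eq_mul_inv]
  ring

end Pool.Agent.SAWG
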