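import Pool.Agent.SAWG.BDA
import Pool.Agent.SAWG.BDB
import Pool.Agent.SAWG.BDC

/-!
# SAWG module SRC: the recursion for the mass of the valid sequences

PROOF.  Let `U0 = x :: r0` (`J + 1 ≤ M` vertices), `z = endp x r0`.  `Vd_snoc`: `Vd (cs ++ [c]) ↔ Vd cs ∧ Okk cs c` (in `cs ++ [c] = cs1 ++ c' :: cs2` either `cs2 = []`, or `cs2 = cs3 ++ [c]`).
`vk (k+1) = ∑_{r0} rwk * SM k z (fun cs => [Vd cs] * ∑_c ckw (EN cs) c * [Okk cs c])` (`SM_snoc`, `Vd_snoc`).
For every `cs` (with nonzero weights, length `k`) and `z1 = EN cs`: `ψ = ∑_c ckw z1 c` (`ck_mass`) and for each `c` with nonzero weight `1 ≤ [Okk cs c] + [not e3] + [not e1] + [not e2] + [bad e4 / e0] + ∑_{i<k} [bad i]`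
(`nu`: `ν z1 c.1 ≠ 0` and `hc.le`; `gd`: the weight is nonzero), where for `k = 0`: `[e0 bad]` = some `u ∈ qvl z1 c` in `U0`; for `k ≥ 1`, `cs = cs1 ++ [c']`: e1, e2, e4 with `c'`;
`[bad i]`, `0 ≤ i < k`: `i = 0`: some `u ∈ avl z1 c` in `U0` (`k ≥ 1`); `i ≥ 1`: some `u ∈ avl z1 c` in `avl (EN cs1) c_i`, where `c_i` is the chunk number `i` (`cs = cs1 ++ c_i :: cs2`, `cs1.length = i - 1`).
Multiply with `[Vd cs]` and sum:
e3: `≤ vk k * 2 η ψ` (`bd3`).  e1: `≤ vk k * 2 η ψ` (`bd1` with the piece of `c'`, which is `Gd` by `Vd`).  e2: drop `Vd` for the last chunk: `cs = cs1 ++ [c']`, `[Vd cs] ≤ [Vd cs1]`,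
`SM_snoc`: `≤ vk (k-1) * η ψ^2` (`bd2`).  e4/e0: `bd4` with `U = avl (EN cs1) c'` resp. `U0` (at most `M` vertices because the weight of `c'` is nonzero): `≤ vk k * M * κ M ψ`.
bad `i`: `SM k = SM i ∘ SM (k - i)` (`SM_append`), `[Vd (cs' ++ cs2)] ≤ [Vd cs']`, then `bd5` with `j = k - i` and `U` = the vertices of the last chunk of `cs'` (`i ≥ 1`) or `U0` (`i = 0`):
`≤ vk i * M (κψ)^(k-i) M ψ`.
-/

set_option autoImplicit false

open scoped ENNReal NNReal Classical
open Filter Topology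

namespace Pool.Agent.SAWG

open Pool.Agent.SWH (Ker idK adK tp endp Sw endp_nil endp_cons endp_append endp_mem)

variable {V : Type}

theorem Vd_snoc {D : Dat V} {U0 : List V} {z : V} (cs : List (Ck V)) (c : Ck V) :
    Vd D U0 z (cs ++ [c]) ↔ Vd D U0 z cs ∧ Okk D U0 z cs c := by
  constructor
  · intro h
    refine ⟨fun cs1 c1 cs2 he => h cs1 c1 (cs2 ++ [c]) (by rw [he]; simp), h cs c [] rfl⟩
  · rintro ⟨h1, h2⟩ cs1 c1 cs2 he
    rcases List.eq_nil_or_concat cs2 with h3 | ⟨cs3, b, h3⟩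
    · subst h3
      have h4 : cs = cs1 ∧ [c] = [c1] := List.append_inj' he rfl
      obtain ⟨h5, h6⟩ := h4
      have h7 : c = c1 := by simpa using h6
      rw [← h5, ← h7]
      exact h2
    · subst h3
      rw [List.concat_eq_append, ← List.cons_append, ← List.append_assoc] at he
      have h4 : cs = cs1 ++ c1 :: cs3 ∧ [c] = [b] := List.append_inj' he rfl
      exact h1 cs1 c1 cs3 h4.1

private theorem src_SM_one {X : Type} (w : V → X → ℝ≥0∞) (e : V → X → V) {ψ : ℝ≥0∞}
    (hw : ∀ z, ∑' c, w z c = ψ) (k : ℕ) (z : V) : SM w e k z (fun _ => 1) = ψ ^ k := by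
  induction k generalizing z with
  | zero => simp [SM]
  | succ k ih =>
    unfold SM
    simp only [ih]
    rw [ENNReal.tsum_mul_right, hw, pow_succ, mul_comm]

theorem vk_zero {D : Dat V} {ω : PW V} {ρ : ℝ≥0∞} (h : Ug D.G D.d ρ D.z) (x : V) : vk D ω x 0 = 1 := by
  unfold vk
  have h1 : ∀ r0 : List V, SM (ckw D ω) cke 0 (endp x r0)
      (fun cs => if Vd D (x :: r0) (endp x r0) cs then (1 : ℝ≥0∞) else 0) = 1 := by
    intro r0
    unfold SM
    refine if_pos ?_
    intro cs1 c cs2 he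
    exact absurd he (by simp)
  simp only [h1, mul_one]
  exact ms_rwk h D.J x

theorem vk_le {D : Dat V} {ω : PW V} {ρ κ K ψ : ℝ≥0∞} (h : Ug D.G D.d ρ D.z) (hc : Cn D.G D.z D.r κ K D.ν)
    (hψ : ∀ z, Pq D ω z = ψ) (x : V) (k : ℕ) : vk D ω x k ≤ ψ ^ k := by
  unfold vk
  calc _ ≤ ∑' r0, rwk D.G D.d D.J x r0 * ψ ^ k := by
        refine ENNReal.tsum_le_tsum fun r0 => mul_le_mul' le_rfl ?_
        rw [← src_SM_one (ckw D ω) cke (fun z => ck_mass hc hψ z) k (endp x r0)]
        refine SM_mono _ _ _ _ fun cs _ => ?_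
        by_cases hv : Vd D (x :: r0) (endp x r0) cs
        · rw [if_pos hv]
        · rw [if_neg hv]; exact zero_le
    _ = ψ ^ k := by
        rw [ENNReal.tsum_mul_right]
        have h1 : ∑' r0, rwk D.G D.d D.J x r0 = 1 := ms_rwk h D.J x
        rw [h1, one_mul]

/-- The vertices of the first chunk of the second sequence. -/
private noncomputable def srcH (z : V) (cs1 : List (Ck V)) : List (Ck V) → List V
  | [] => []
  | c :: _ => avl (EN cke z cs1) c

/-- The block with the number `i`: the initial set or the vertices of a chunk. -/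
private noncomputable def srcB (U0 : List V) (z : V) : ℕ → List (Ck V) → List V
  | 0, _ => U0
  | i + 1, cs => srcH z (cs.take i) (cs.drop i)

/-- A set that belongs to the last chunk. -/
private noncomputable def srcL (z : V) (g : V → Ck V → List V) (cs : List (Ck V)) : List V :=
  match cs.getLast? with
  | none => []
  | some c => g (EN cke z cs.dropLast) c

private theorem srcL_nil (z : V) (g : V → Ck V → List V) : srcL z g [] = [] := rfl

private theorem srcL_snoc (z : V) (g : V → Ck V → List V) (cs : List (Ck V)) (c : Ck V) :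
    srcL z g (cs ++ [c]) = g (EN cke z cs) c := by
  unfold srcL
  rw [List.getLast?_concat, List.dropLast_concat]

private theorem srcB_mid (U0 : List V) (z : V) (cs1 : List (Ck V)) (c : Ck V) (cs2 : List (Ck V)) :
    srcB U0 z (cs1.length + 1) (cs1 ++ c :: cs2) = avl (EN cke z cs1) c := by
  have h1 : srcB U0 z (cs1.length + 1) (cs1 ++ c :: cs2) =
      srcH z ((cs1 ++ c :: cs2).take cs1.length) ((cs1 ++ c :: cs2).drop cs1.length) := rfl
  rw [h1, List.drop_left, List.take_left]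
  rfl

private theorem src_split {X : Type} (cs : List X) (i : ℕ) (hi : i ≤ cs.length) :
    i = 0 ∨ ∃ cs1 c cs2, cs = cs1 ++ c :: cs2 ∧ i = cs1.length + 1 := by
  rcases Nat.eq_zero_or_pos i with h | h
  · exact Or.inl h
  · right
    have h1 : i - 1 < cs.length := by omega
    refine ⟨cs.take (i - 1), cs[i - 1], cs.drop (i - 1 + 1), ?_, ?_⟩
    · rw [List.getElem_cons_drop, List.take_append_drop]
    · rw [List.length_take]; omega

private theorem srcB_append (U0 : List V) (z : V) (i : ℕ) (cs cs' : List (Ck V)) (hi : i ≤ cs.length) :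
    srcB U0 z i (cs ++ cs') = srcB U0 z i cs := by
  rcases src_split cs i hi with h | ⟨cs1, c, cs2, h1, h2⟩
  · rw [h]; rfl
  · rw [h1, h2, List.append_assoc, List.cons_append, srcB_mid, srcB_mid]

private theorem srcB_len {D : Dat V} {ω : PW V} {κ K M : ℝ≥0∞} {H : ℕ}
    (hc : Cn D.G D.z D.r κ K D.ν) (hlen : ∀ x l, ω x l ≠ 0 → l.length ≤ H)
    (hM : M = (H : ℝ≥0∞) + 2 * D.J + D.r + 2) {U0 : List V} (hU : (U0.length : ℝ≥0∞) ≤ M) (z : V) (i : ℕ)
    (cs : List (Ck V)) (hi : i ≤ cs.length)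
    (hw : ∀ cs1 c cs2, cs = cs1 ++ c :: cs2 → ckw D ω (EN cke z cs1) c ≠ 0) :
    ((srcB U0 z i cs).length : ℝ≥0∞) ≤ M := by
  rcases src_split cs i hi with h | ⟨cs1, c, cs2, h1, h2⟩
  · rw [h]; exact hU
  · have h3 := hw cs1 c cs2 h1
    rw [h1, h2, srcB_mid]
    unfold ckw at h3
    have h4 := left_ne_zero_of_mul h3
    have h5 := right_ne_zero_of_mul h3
    have h6 := hc.len _ _ h4
    have h7 : Gd D (endp (EN cke z cs1) c.1) c.2.1 c.2.2.1 c.2.2.2 := by
      by_contra hg
      exact h5 (if_neg hg)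
    rw [if_pos h7] at h5
    have h8 := hlen _ _ h5
    have h9 := h7.lm
    have h10 := h7.lq
    have h11 : (avl (EN cke z cs1) c).length ≤ H + 2 * D.J + D.r + 2 := by
      unfold avl tvl qvl
      simp only [List.length_append, List.length_cons]
      omega
    rw [hM]
    exact_mod_cast h11

private theorem src_ind_le {p : Prop} [Decidable p] {t : ℝ≥0∞} (h : ¬ p → 1 ≤ t) :
    (1 : ℝ≥0∞) ≤ t + (if p then 1 else 0) := by
  by_cases hp : p
  · rw [if_pos hp]; exact le_add_self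
  · rw [if_neg hp, add_zero]; exact h hp

/-- The pointwise inequality. -/
private theorem src_pt {D : Dat V} {ω : PW V} {κ K : ℝ≥0∞} (hc : Cn D.G D.z D.r κ K D.ν) (U0 : List V)
    (z : V) (cs : List (Ck V)) (hv : Vd D U0 z cs) (c : Ck V) (hw : ckw D ω (EN cke z cs) c ≠ 0) :
    (1 : ℝ≥0∞) ≤ (if Vd D U0 z (cs ++ [c]) then 1 else 0)
      + (if ∃ u ∈ tvl (EN cke z cs) c, u ∈ pvl (EN cke z cs) c ∨ u ∈ rql (EN cke z cs) c then 1 else 0)
      + (if ∃ u ∈ tvl (EN cke z cs) c, u ∈ srcL z pvl cs ∨ u ∈ srcL z rml cs then 1 else 0)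
      + (if ∃ u ∈ tvl (EN cke z cs) c, u ∈ srcL z tvl cs then 1 else 0)
      + (if ∃ u ∈ qvl (EN cke z cs) c, u ∈ srcB U0 z cs.length cs then 1 else 0)
      + ∑ i ∈ Finset.range cs.length, (if ∃ u ∈ avl (EN cke z cs) c, u ∈ srcB U0 z i cs then (1 : ℝ≥0∞) else 0) := by
  by_cases h5 : ∃ i ∈ Finset.range cs.length, ∃ u ∈ avl (EN cke z cs) c, u ∈ srcB U0 z i cs
  · obtain ⟨i, hi, h6⟩ := h5
    have h7 := Finset.single_le_sum (f := fun i =>
      (if ∃ u ∈ avl (EN cke z cs) c, u ∈ srcB U0 z i cs then (1 : ℝ≥0∞) else 0)) (fun j _ => zero_le) hi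
    rw [if_pos h6] at h7
    exact h7.trans le_add_self
  refine le_trans ?_ (le_self_add)
  refine src_ind_le fun h4 => src_ind_le fun h2 => src_ind_le fun h1 => src_ind_le fun h3 => ?_
  rw [if_pos]
  rw [Vd_snoc]
  refine ⟨hv, ?_⟩
  have hw1 := left_ne_zero_of_mul hw
  have hw2 := right_ne_zero_of_mul hw
  push Not at h1 h2 h3 h4 h5
  have hsa : sa D.G D.z (EN cke z cs) c.1 ≠ 0 := by
    intro h0
    have h6 := hc.le (EN cke z cs) c.1
    rw [h0, mul_zero] at h6
    exact hw1 (le_antisymm h6 zero_le)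
  have hsw : Sw D.G (EN cke z cs) c.1 := by
    by_contra hn
    exact hsa (if_neg hn)
  refine ⟨hsw.1, ?_, ?_, ?_, ?_, ?_, ?_, ?_, ?_⟩
  · by_contra hg
    exact hw2 (if_neg hg)
  · intro u hu
    exact h3 u hu
  · intro he u hu
    subst he
    exact h4 u hu
  · intro he u hu
    have h6 : 0 < cs.length := List.length_pos_iff.2 he
    exact h5 0 (Finset.mem_range.2 h6) u hu
  · intro cs1 c' he u hu
    have h6 := h1 u hu
    rw [he, srcL_snoc, srcL_snoc] at h6
    exact h6
  · intro cs1 c' he u hu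
    have h6 := h2 u hu
    rw [he, srcL_snoc] at h6
    exact h6
  · intro cs1 c' he u hu
    have h6 := h4 u hu
    have h7 : cs.length = cs1.length + 1 := by rw [he]; simp
    rw [h7, he, srcB_mid] at h6
    exact h6
  · intro cs1 c' cs2 he hne u hu
    have h8 : 0 < cs2.length := List.length_pos_iff.2 hne
    have h6 := h5 (cs1.length + 1) (Finset.mem_range.2 (by
      rw [he, List.length_append, List.length_cons]; omega)) u hu
    rw [he, srcB_mid] at h6
    exact h6

private theorem src_tsum6 {X : Type} (w A B C E F : X → ℝ≥0∞) (s : Finset ℕ) (G : ℕ → X → ℝ≥0∞) :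
    ∑' c, w c * (A c + B c + C c + E c + F c + ∑ i ∈ s, G i c) =
      ∑' c, w c * A c + ∑' c, w c * B c + ∑' c, w c * C c + ∑' c, w c * E c + ∑' c, w c * F c
        + ∑ i ∈ s, ∑' c, w c * G i c := by
  simp only [mul_add, ENNReal.tsum_add, Finset.mul_sum]
  rw [Summable.tsum_finsetSum (fun i _ => ENNReal.summable)]

private theorem src_main {D : Dat V} {ω : PW V} {ρ κ K ψ M : ℝ≥0∞} {H : ℕ} (h : Ug D.G D.d ρ D.z)
    (hc : Cn D.G D.z D.r κ K D.ν) (hω : InvP D.G ω) (hψ : ∀ z, Pq D ω z = ψ)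
    (hlen : ∀ x l, ω x l ≠ 0 → l.length ≤ H) (hM : M = (H : ℝ≥0∞) + 2 * D.J + D.r + 2) (U0 : List V)
    (hU : (U0.length : ℝ≥0∞) ≤ M) (z : V) (k : ℕ) :
    ψ * SM (ckw D ω) cke k z (fun cs => if Vd D U0 z cs then 1 else 0) ≤
      SM (ckw D ω) cke (k + 1) z (fun cs => if Vd D U0 z cs then 1 else 0)
      + SM (ckw D ω) cke k z (fun cs => if Vd D U0 z cs then 1 else 0) * (4 * D.η + M ^ 2 * κ) * ψ
      + (if k = 0 then 0 else
          SM (ckw D ω) cke (k - 1) z (fun cs => if Vd D U0 z cs then 1 else 0) * (D.η * ψ ^ 2))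
      + ∑ i ∈ Finset.range k, SM (ckw D ω) cke i z (fun cs => if Vd D U0 z cs then 1 else 0) *
          (M ^ 2 * (κ * ψ) ^ (k - i) * ψ) := by
  set vd : List (Ck V) → ℝ≥0∞ := fun cs => if Vd D U0 z cs then 1 else 0 with hvd
  set E2 : List (Ck V) → ℝ≥0∞ := fun cs => vd cs.dropLast *
    ∑' c, ckw D ω (EN cke z cs) c * (if ∃ u ∈ tvl (EN cke z cs) c, u ∈ srcL z tvl cs then 1 else 0) with hE2
  set E5 : ℕ → List (Ck V) → ℝ≥0∞ := fun i cs => vd (cs.take i) *
    ∑' c, ckw D ω (EN cke z cs) c * (if ∃ u ∈ avl (EN cke z cs) c, u ∈ srcB U0 z i cs then 1 else 0) with hE5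
  have hvd_take : ∀ cs i, vd cs ≤ vd (cs.take i) := by
    intro cs i
    simp only [hvd]
    by_cases hv : Vd D U0 z cs
    · have hv' : Vd D U0 z (cs.take i) := by
        intro cs1 c cs2 he
        refine hv cs1 c (cs2 ++ cs.drop i) ?_
        rw [← List.cons_append, ← List.append_assoc, ← he, List.take_append_drop]
      rw [if_pos hv, if_pos hv']
    · rw [if_neg hv]; exact zero_le
  -- the pointwise inequality
  have hpt : ∀ cs : List (Ck V), cs.length = k →
      (∀ cs1 c cs2, cs = cs1 ++ c :: cs2 → ckw D ω (EN cke z cs1) c ≠ 0) →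
      ψ * vd cs ≤ ∑' c, ckw D ω (EN cke z cs) c * vd (cs ++ [c]) + (4 * D.η + M ^ 2 * κ) * ψ * vd cs + E2 cs
        + ∑ i ∈ Finset.range k, E5 i cs := by
    intro cs hk hw
    by_cases hv : Vd D U0 z cs
    · have hv1 : vd cs = 1 := if_pos hv
      have h1 : ψ = ∑' c, ckw D ω (EN cke z cs) c := (ck_mass hc hψ _).symm
      have h2 : ψ ≤ ∑' c, ckw D ω (EN cke z cs) c * (vd (cs ++ [c])
          + (if ∃ u ∈ tvl (EN cke z cs) c, u ∈ pvl (EN cke z cs) c ∨ u ∈ rql (EN cke z cs) c then 1 else 0)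
          + (if ∃ u ∈ tvl (EN cke z cs) c, u ∈ srcL z pvl cs ∨ u ∈ srcL z rml cs then 1 else 0)
          + (if ∃ u ∈ tvl (EN cke z cs) c, u ∈ srcL z tvl cs then 1 else 0)
          + (if ∃ u ∈ qvl (EN cke z cs) c, u ∈ srcB U0 z cs.length cs then 1 else 0)
          + ∑ i ∈ Finset.range cs.length,
            (if ∃ u ∈ avl (EN cke z cs) c, u ∈ srcB U0 z i cs then (1 : ℝ≥0∞) else 0)) := by
        nth_rw 1 [h1]
        refine ENNReal.tsum_le_tsum fun c => ?_
        by_cases hw0 : ckw D ω (EN cke z cs) c = 0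
        · rw [hw0]; exact zero_le
        · have h3 := src_pt hc U0 z cs hv c hw0
          calc ckw D ω (EN cke z cs) c = ckw D ω (EN cke z cs) c * 1 := (mul_one _).symm
            _ ≤ _ := mul_le_mul' le_rfl h3
      rw [src_tsum6] at h2
      have b3 := bd3 h hc hω hψ (EN cke z cs)
      have b1 : ∑' c, ckw D ω (EN cke z cs) c *
          (if ∃ u ∈ tvl (EN cke z cs) c, u ∈ srcL z pvl cs ∨ u ∈ srcL z rml cs then 1 else 0) ≤
            2 * D.η * ψ := by
        rcases List.eq_nil_or_concat cs with he | ⟨cs1, c', he⟩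
        · subst he
          simp only [srcL_nil, List.not_mem_nil, or_self, and_false, exists_false, if_false, mul_zero, tsum_zero]
          exact zero_le
        · rw [List.concat_eq_append] at he
          have hok := hv cs1 c' [] he
          have h6 : EN cke z cs = cke (EN cke z cs1) c' := by rw [he, EN_append]; rfl
          have h7 := bd1 hc hψ hok.gd
          rw [he, srcL_snoc, srcL_snoc, ← he, h6]
          exact h7
      have b4 : ∑' c, ckw D ω (EN cke z cs) c *
          (if ∃ u ∈ qvl (EN cke z cs) c, u ∈ srcB U0 z cs.length cs then 1 else 0) ≤ M ^ 2 * κ * ψ := by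
        have h6 := bd4 h hc hω hψ hlen hM (EN cke z cs) (srcB U0 z cs.length cs)
        have h7 := srcB_len hc hlen hM hU z cs.length cs le_rfl hw
        calc _ ≤ _ := h6
          _ ≤ M * (κ * M * ψ) := mul_le_mul' h7 le_rfl
          _ = M ^ 2 * κ * ψ := by ring
      have b2 : ∑' c, ckw D ω (EN cke z cs) c *
          (if ∃ u ∈ tvl (EN cke z cs) c, u ∈ srcL z tvl cs then 1 else 0) ≤ E2 cs := by
        have h8 : vd cs.dropLast = 1 := by
          have h9 := hvd_take cs (cs.length - 1)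
          rw [hv1, ← List.dropLast_eq_take] at h9
          refine le_antisymm ?_ h9
          simp only [hvd]
          split_ifs <;> simp
        simp only [hE2]
        rw [h8, one_mul]
      have b5 : ∀ i ∈ Finset.range k, ∑' c, ckw D ω (EN cke z cs) c *
          (if ∃ u ∈ avl (EN cke z cs) c, u ∈ srcB U0 z i cs then (1 : ℝ≥0∞) else 0) ≤ E5 i cs := by
        intro i _
        have h8 : vd (cs.take i) = 1 := by
          have h9 := hvd_take cs i
          rw [hv1] at h9
          refine le_antisymm ?_ h9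
          simp only [hvd]
          split_ifs <;> simp
        simp only [hE5]
        rw [h8, one_mul]
      rw [hk] at h2 b4
      rw [hv1, mul_one, mul_one]
      calc ψ ≤ _ := h2
        _ ≤ ∑' c, ckw D ω (EN cke z cs) c * vd (cs ++ [c]) + 2 * D.η * ψ + 2 * D.η * ψ + E2 cs
            + M ^ 2 * κ * ψ + ∑ i ∈ Finset.range k, E5 i cs :=
            add_le_add (add_le_add (add_le_add (add_le_add (add_le_add le_rfl b3) b1) b2) b4)
              (Finset.sum_le_sum b5)
        _ = _ := by ring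
    · have hv0 : vd cs = 0 := if_neg hv
      rw [hv0, mul_zero]
      exact zero_le
  -- summation
  have hsum : ψ * SM (ckw D ω) cke k z vd ≤
      SM (ckw D ω) cke (k + 1) z vd + (4 * D.η + M ^ 2 * κ) * ψ * SM (ckw D ω) cke k z vd
        + SM (ckw D ω) cke k z E2 + ∑ i ∈ Finset.range k, SM (ckw D ω) cke k z (E5 i) := by
    rw [SM_snoc, ← SM_mul, ← SM_mul, ← SM_sum, ← SM_add, ← SM_add, ← SM_add]
    exact SM_mono' _ _ _ _ hpt
  have hs2 : SM (ckw D ω) cke k z E2 ≤
      (if k = 0 then 0 else SM (ckw D ω) cke (k - 1) z vd * (D.η * ψ ^ 2)) := by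
    rcases Nat.eq_zero_or_pos k with hk | hk
    · rw [if_pos hk, hk]
      unfold SM
      simp only [hE2, srcL_nil, List.not_mem_nil, and_false, exists_false, if_false, mul_zero, tsum_zero, le_refl]
    · rw [if_neg (by omega)]
      obtain ⟨k', hk'⟩ : ∃ k', k = k' + 1 := ⟨k - 1, by omega⟩
      subst hk'
      rw [SM_snoc, Nat.add_sub_cancel]
      rw [mul_comm (SM (ckw D ω) cke k' z vd), ← SM_mul]
      refine SM_mono _ _ _ _ fun cs _ => ?_
      have h6 : ∀ c', E2 (cs ++ [c']) = vd cs * ∑' c, ckw D ω (cke (EN cke z cs) c') c *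
          (if ∃ u ∈ tvl (cke (EN cke z cs) c') c, u ∈ tvl (EN cke z cs) c' then 1 else 0) := by
        intro c'
        have h7 : EN cke z (cs ++ [c']) = cke (EN cke z cs) c' := by rw [EN_append]; rfl
        simp only [hE2]
        rw [List.dropLast_concat, srcL_snoc, h7]
      have h8 := bd2 h hc hω hψ (EN cke z cs)
      calc ∑' c', ckw D ω (EN cke z cs) c' * E2 (cs ++ [c'])
          = vd cs * ∑' c', ckw D ω (EN cke z cs) c' * ∑' c, ckw D ω (cke (EN cke z cs) c') c *
            (if ∃ u ∈ tvl (cke (EN cke z cs) c') c, u ∈ tvl (EN cke z cs) c' then 1 else 0) := by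
              rw [← ENNReal.tsum_mul_left]
              refine tsum_congr fun c' => ?_
              rw [h6]
              ring
        _ ≤ vd cs * (D.η * ψ ^ 2) := mul_le_mul' le_rfl h8
        _ = D.η * ψ ^ 2 * vd cs := mul_comm _ _
  have hs5 : ∀ i ∈ Finset.range k, SM (ckw D ω) cke k z (E5 i) ≤
      SM (ckw D ω) cke i z vd * (M ^ 2 * (κ * ψ) ^ (k - i) * ψ) := by
    intro i hi
    have hik := Finset.mem_range.1 hi
    have h6 : k = i + (k - i) := by omega
    nth_rw 1 [h6]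
    rw [SM_append, mul_comm (SM (ckw D ω) cke i z vd), ← SM_mul]
    refine SM_mono' _ _ _ _ fun cs hcs hw => ?_
    have h7 : ∀ cs2, E5 i (cs ++ cs2) = vd cs * ∑' c, ckw D ω (EN cke (EN cke z cs) cs2) c *
        (if ∃ u ∈ avl (EN cke (EN cke z cs) cs2) c, u ∈ srcB U0 z i cs then 1 else 0) := by
      intro cs2
      simp only [hE5]
      rw [EN_append, srcB_append U0 z i cs cs2 (by omega)]
      have h8 : (cs ++ cs2).take i = cs := by rw [← hcs, List.take_left]
      rw [h8]
    simp only [h7]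
    rw [SM_mul]
    have h8 := bd5 h hc hω hψ hlen hM (k - i) (EN cke z cs) (srcB U0 z i cs)
    have h9 := srcB_len hc hlen hM hU z i cs (by omega) hw
    calc _ ≤ vd cs * (((srcB U0 z i cs).length : ℝ≥0∞) * ((κ * ψ) ^ (k - i) * (M * ψ))) := mul_le_mul' le_rfl h8
      _ ≤ vd cs * (M * ((κ * ψ) ^ (k - i) * (M * ψ))) := mul_le_mul' le_rfl (mul_le_mul' h9 le_rfl)
      _ = M ^ 2 * (κ * ψ) ^ (k - i) * ψ * vd cs := by ring
  calc _ ≤ _ := hsum
    _ ≤ SM (ckw D ω) cke (k + 1) z vd + (4 * D.η + M ^ 2 * κ) * ψ * SM (ckw D ω) cke k z vd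
        + (if k = 0 then 0 else SM (ckw D ω) cke (k - 1) z vd * (D.η * ψ ^ 2))
        + ∑ i ∈ Finset.range k, SM (ckw D ω) cke i z vd * (M ^ 2 * (κ * ψ) ^ (k - i) * ψ) :=
        add_le_add (add_le_add le_rfl hs2) (Finset.sum_le_sum hs5)
    _ = _ := by
        congr 3
        ring

theorem vk_rec {D : Dat V} {ω : PW V} {ρ κ K ψ M : ℝ≥0∞} {H : ℕ} (h : Ug D.G D.d ρ D.z)
    (hc : Cn D.G D.z D.r κ K D.ν) (hω : InvP D.G ω) (hψ : ∀ z, Pq D ω z = ψ)
    (hlen : ∀ x l, ω x l ≠ 0 → l.length ≤ H) (hM : M = (H : ℝ≥0∞) + 2 * D.J + D.r + 2) (x : V) (k : ℕ) :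
    ψ * vk D ω x k ≤ vk D ω x (k + 1) + vk D ω x k * (4 * D.η + M ^ 2 * κ) * ψ
      + (if k = 0 then 0 else vk D ω x (k - 1) * (D.η * ψ ^ 2))
      + ∑ i ∈ Finset.range k, vk D ω x i * (M ^ 2 * (κ * ψ) ^ (k - i) * ψ) := by
  set W : ℕ → List V → ℝ≥0∞ := fun j r0 =>
    SM (ckw D ω) cke j (endp x r0) (fun cs => if Vd D (x :: r0) (endp x r0) cs then 1 else 0) with hW
  have hvk : ∀ j, vk D ω x j = ∑' r0, rwk D.G D.d D.J x r0 * W j r0 := fun j => rfl
  have hpt : ∀ r0, ψ * (rwk D.G D.d D.J x r0 * W k r0) ≤ rwk D.G D.d D.J x r0 * W (k + 1) r0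
      + rwk D.G D.d D.J x r0 * W k r0 * ((4 * D.η + M ^ 2 * κ) * ψ)
      + rwk D.G D.d D.J x r0 * W (k - 1) r0 * (if k = 0 then 0 else (D.η * ψ ^ 2))
      + ∑ i ∈ Finset.range k, rwk D.G D.d D.J x r0 * W i r0 * (M ^ 2 * (κ * ψ) ^ (k - i) * ψ) := by
    intro r0
    by_cases hr : rwk D.G D.d D.J x r0 = 0
    · rw [hr, zero_mul, mul_zero]
      exact zero_le
    · have hlenr : r0.length = D.J := by
        by_contra hn
        refine hr ?_
        unfold rwk
        rw [if_neg (fun hh => hn hh.2)]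
      have hU : (((x :: r0).length : ℕ) : ℝ≥0∞) ≤ M := by
        have h1 : (x :: r0).length ≤ H + 2 * D.J + D.r + 2 := by
          rw [List.length_cons]; omega
        rw [hM]
        exact_mod_cast h1
      have h2 := src_main h hc hω hψ hlen hM (x :: r0) hU (endp x r0) k
      calc ψ * (rwk D.G D.d D.J x r0 * W k r0) = rwk D.G D.d D.J x r0 * (ψ * W k r0) := by ring
        _ ≤ rwk D.G D.d D.J x r0 * (W (k + 1) r0 + W k r0 * (4 * D.η + M ^ 2 * κ) * ψ
            + (if k = 0 then 0 else W (k - 1) r0 * (D.η * ψ ^ 2))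
            + ∑ i ∈ Finset.range k, W i r0 * (M ^ 2 * (κ * ψ) ^ (k - i) * ψ)) := mul_le_mul' le_rfl h2
        _ = _ := by
            rw [mul_add, mul_add, mul_add, Finset.mul_sum]
            congr 1
            · congr 1
              · congr 1
                ring
              · split_ifs
                · simp
                · ring
            · refine Finset.sum_congr rfl fun i _ => ?_
              ring
  calc ψ * vk D ω x k = ∑' r0, ψ * (rwk D.G D.d D.J x r0 * W k r0) := by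
        rw [hvk, ENNReal.tsum_mul_left]
    _ ≤ _ := ENNReal.tsum_le_tsum hpt
    _ = vk D ω x (k + 1) + vk D ω x k * ((4 * D.η + M ^ 2 * κ) * ψ)
        + vk D ω x (k - 1) * (if k = 0 then 0 else (D.η * ψ ^ 2))
        + ∑ i ∈ Finset.range k, vk D ω x i * (M ^ 2 * (κ * ψ) ^ (k - i) * ψ) := by
        rw [ENNReal.tsum_add, ENNReal.tsum_add, ENNReal.tsum_add, ENNReal.tsum_mul_right, ENNReal.tsum_mul_right,
          Summable.tsum_finsetSum (fun i _ => ENNReal.summable)]
        simp only [ENNReal.tsum_mul_right, ← hvk]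
    _ = _ := by
        congr 1
        congr 1
        · congr 1
          ring
        · split_ifs
          · simp
          · rfl

end Pool.Agent.SAWG
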