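import Pool.Agent.SAWG.POS
import Pool.Agent.SAWG.VIS

/-!
# SAWG module WIN: windows

PROOFS.  `pst R x l a` is the list of the vertices with the numbers `a - R, …, a`, `fut R x l b` the one with the numbers `b, …, min (b + R) length`,
`vt x l b :: sg l b c` the one with the numbers `b, …, c` (`win_eq`: it is `((x :: l).drop b).take (c - b + 1)`).  All statements compare such intervals of the list `x :: l`.
`Gg_mono`: the same walk `r`, `hit_mono_list`.
-/

set_option autoImplicit false

open scoped ENNReal NNReal Classical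
open Filter Topology

namespace Pool.Agent.SAWG

open Pool.Agent.SWH (Ker idK adK tp endp Sw endp_nil endp_cons endp_append endp_mem)

variable {V : Type}

private theorem WIN_drop (x : V) (l : List V) {b : ℕ} (hb : b ≤ l.length) :
    (x :: l).drop b = vt x l b :: l.drop b := by
  have h1 : b < (x :: l).length := by
    rw [List.length_cons]
    omega
  rw [List.drop_eq_getElem_cons h1]
  have h2 := vt_get x l hb
  rw [List.getElem?_eq_getElem h1, Option.some.injEq] at h2
  rw [h2, List.drop_succ_cons]

private theorem WIN_take {X : Type} (L : List X) {m n : ℕ} (h : m ≤ n) : (L.take m).Sublist (L.take n) := by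
  have h1 : L.take m = (L.take n).take m := by
    rw [List.take_take, Nat.min_eq_left h]
  rw [h1]
  exact List.take_sublist _ _

private theorem WIN_dropd {X : Type} (L : List X) {m n : ℕ} (h : m ≤ n) : (L.drop n).Sublist (L.drop m) := by
  have h1 : L.drop n = (L.drop m).drop (n - m) := by
    rw [List.drop_drop]
    congr 1
    omega
  rw [h1]
  exact List.drop_sublist _ _

theorem win_eq (x : V) (l : List V) {b c : ℕ} (hbc : b ≤ c) (hc : c ≤ l.length) :
    vt x l b :: sg l b c = ((x :: l).drop b).take (c - b + 1) := by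
  rw [WIN_drop x l (hbc.trans hc), List.take_succ_cons]
  rfl

private theorem WIN_eq (x : V) (l : List V) {b c : ℕ} (hbc : b ≤ c) (hc : c ≤ l.length) :
    vt x l b :: sg l b c = ((x :: l).take (c + 1)).drop b := by
  rw [win_eq x l hbc hc, List.drop_take]
  congr 1
  omega

/-- The window is contained in a long piece that ends there. -/
theorem pst_sub (R : ℕ) (x : V) (l : List V) {b c : ℕ} (hc : c ≤ l.length) (h : b + R ≤ c) :
    (pst R x l c).Sublist (vt x l b :: sg l b c) := by
  rw [WIN_eq x l (by omega) hc]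
  unfold pst
  exact WIN_dropd _ (by omega)

theorem fut_sub (R : ℕ) (x : V) (l : List V) {b c : ℕ} (hc : c ≤ l.length) (h : b + R ≤ c) :
    (fut R x l b).Sublist (vt x l b :: sg l b c) := by
  rw [win_eq x l (by omega) hc]
  unfold fut
  exact WIN_take _ (by omega)

/-- A short piece is contained in the window. -/
theorem sub_pst (R : ℕ) (x : V) (l : List V) {b c : ℕ} (hbc : b ≤ c) (hc : c ≤ l.length) (h : c ≤ b + R) :
    (vt x l b :: sg l b c).Sublist (pst R x l c) := by
  rw [WIN_eq x l hbc hc]
  unfold pst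
  exact WIN_dropd _ (by omega)

theorem sub_fut (R : ℕ) (x : V) (l : List V) {b c : ℕ} (hbc : b ≤ c) (hc : c ≤ l.length) (h : c ≤ b + R) :
    (vt x l b :: sg l b c).Sublist (fut R x l b) := by
  rw [win_eq x l hbc hc]
  unfold fut
  exact WIN_take _ (by omega)

theorem pst_zero (R : ℕ) (x : V) (l : List V) : pst R x l 0 = [x] := by
  unfold pst
  simp

private theorem WIN_pst (R : ℕ) (x : V) (l : List V) {b c i : ℕ} (hc : c ≤ l.length) (hi : b + i ≤ c) :
    pst R (vt x l b) (sg l b c) i = ((x :: l).take (b + i + 1)).drop (b + (i - R)) := by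
  have h1 : pst R (vt x l b) (sg l b c) i = ((vt x l b :: sg l b c).take (i + 1)).drop (i - R) := rfl
  rw [h1, win_eq x l (by omega) hc, List.take_take, Nat.min_eq_left (by omega), ← List.drop_drop,
    List.drop_take (i := b)]
  congr 2
  omega

private theorem WIN_fut (R : ℕ) (x : V) (l : List V) {b c i : ℕ} (hc : c ≤ l.length) (hi : b + i ≤ c) :
    fut R (vt x l b) (sg l b c) i = ((x :: l).drop (b + i)).take (min (R + 1) (c + 1 - (b + i))) := by
  have h1 : fut R (vt x l b) (sg l b c) i = ((vt x l b :: sg l b c).drop i).take (R + 1) := rfl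
  rw [h1, WIN_eq x l (by omega) hc, List.drop_drop, List.drop_take, List.take_take]

/-- Windows in a part of the walk. -/
theorem pst_sg (R : ℕ) (x : V) (l : List V) {b c i : ℕ} (hc : c ≤ l.length) (hi : b + i ≤ c) :
    (pst R (vt x l b) (sg l b c) i).Sublist (pst R x l (b + i)) := by
  rw [WIN_pst R x l hc hi]
  unfold pst
  exact WIN_dropd _ (by omega)

theorem fut_sg (R : ℕ) (x : V) (l : List V) {b c i : ℕ} (hc : c ≤ l.length) (hi : b + i ≤ c) :
    (fut R (vt x l b) (sg l b c) i).Sublist (fut R x l (b + i)) := by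
  rw [WIN_fut R x l hc hi]
  unfold fut
  exact WIN_take _ (Nat.min_le_left _ _)

theorem pst_sg_eq (R : ℕ) (x : V) (l : List V) {b c i : ℕ} (hc : c ≤ l.length) (hi : b + i ≤ c) (hR : R ≤ i) :
    pst R (vt x l b) (sg l b c) i = pst R x l (b + i) := by
  rw [WIN_pst R x l hc hi]
  unfold pst
  congr 1
  omega

theorem fut_sg_eq (R : ℕ) (x : V) (l : List V) {b c i : ℕ} (hc : c ≤ l.length) (hi : b + i + R ≤ c) :
    fut R (vt x l b) (sg l b c) i = fut R x l (b + i) := by
  rw [WIN_fut R x l hc (by omega), Nat.min_eq_left (by omega)]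
  rfl

theorem Gg_mono {D : Dat V} {T : Ker V} {U U' : List V} {v : V} (h : U'.Sublist U) (hg : Gg D T U v) : Gg D T U' v := by
  obtain ⟨r, h1, h2, h3, h4⟩ := hg
  exact ⟨r, h1, h2, fun u hu hU => h3 u hu (h.subset hU), (hit_mono_list h).trans h4⟩

end Pool.Agent.SAWG
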